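import Pool.Agent.RB75.G4a

/-! Module RB-G8a: evenness and translation invariance.

* `kap k > 0`; `IsIntrVol` determines `v` (two polynomials agreeing on `(0,∞)` are equal, `kap ≠ 0`).
* `shadow ι (-u) L = shadow ι u L` (replace `s` by `-s`), so `supp M (-u) = supp M u` for unit `u`
  (`exists_iota`), and for all `u` by homogeneity (`CCN.supp_smul`).
* translation: `x = ι x' + a u` (`iota_surj` for `x - ⟪x,u⟫ u`), `shadow ι u (K + x) = shadow ι u K + x'`;
  `cthickening` commutes with translations (isometries) and `volume` is translation invariant. -/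

namespace Pool.Agent.RB75
open MeasureTheory Set Filter Topology
open scoped RealInnerProductSpace

theorem kap_pos (k : ℕ) : 0 < kap k := by
  unfold kap
  apply ENNReal.toReal_pos
  · exact (Metric.measure_closedBall_pos volume (0 : E k) one_pos).ne'
  · exact measure_closedBall_lt_top.ne

theorem IsIntrVol.unique {k j : ℕ} {C : Set (E k)} {v v' : ℝ} (h : IsIntrVol k j C v) (h' : IsIntrVol k j C v') :
    v = v' := by
  obtain ⟨P, hP, hPc⟩ := h
  obtain ⟨Q, hQ, hQc⟩ := h'
  have hPQ : P = Q := by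
    apply Polynomial.eq_of_infinite_eval_eq
    apply Set.Infinite.mono _ (Set.Ioi_infinite (0 : ℝ))
    intro ε hε
    show P.eval ε = Q.eval ε
    rw [← hP ε hε, ← hQ ε hε]
  rw [hPQ, hQc] at hPc
  exact (mul_left_cancel₀ (kap_pos (k - j)).ne' hPc).symm

/-- shadows do not see the sign of `u`. -/
theorem shadow_neg {k : ℕ} (ι : E k →ₗᵢ[ℝ] E (k + 1)) (u : E (k + 1)) (K : Set (E (k + 1))) :
    shadow ι (-u) K = shadow ι u K := by
  ext y
  constructor
  · rintro ⟨s, hs⟩
    refine ⟨-s, ?_⟩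
    rwa [smul_neg, ← neg_smul] at hs
  · rintro ⟨s, hs⟩
    refine ⟨-s, ?_⟩
    rwa [smul_neg, neg_smul, neg_neg]

theorem IsProjBody.even {k j : ℕ} {L M : Set (E (k + 1))} (h : IsProjBody j L M) (u : E (k + 1)) :
    supp M (-u) = supp M u := by
  obtain ⟨hc, hcv, hne, hM⟩ := h
  have hCCN : CCN M := ⟨hc, hcv, hne⟩
  have hunit : ∀ w : E (k + 1), ‖w‖ = 1 → supp M (-w) = supp M w := by
    intro w hw
    obtain ⟨ι, hι⟩ := exists_iota w hw
    have h1 := hM w hw ι hι
    have h2 := hM (-w) (by rw [norm_neg, hw]) ι (by intro y; rw [inner_neg_right, hι y, neg_zero])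
    rw [shadow_neg] at h2
    exact h2.unique h1
  rcases eq_or_ne u 0 with hu | hu
  · rw [hu, neg_zero]
  · have hn : 0 < ‖u‖ := norm_pos_iff.2 hu
    have h1 : u = ‖u‖ • (‖u‖⁻¹ • u) := by
      rw [smul_smul, mul_inv_cancel₀ hn.ne', one_smul]
    have h2 : ‖‖u‖⁻¹ • u‖ = 1 := by
      rw [norm_smul, norm_inv, norm_norm, inv_mul_cancel₀ hn.ne']
    have h3 : -u = ‖u‖ • (-(‖u‖⁻¹ • u)) := by
      rw [smul_neg, ← h1]
    rw [h3, hCCN.supp_smul hn.le, hunit _ h2, ← hCCN.supp_smul hn.le, ← h1]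

/-- intrinsic volumes are translation invariant. -/
theorem IsIntrVol.translate {k j : ℕ} {C : Set (E k)} {v : ℝ} (h : IsIntrVol k j C v) (x : E k) :
    IsIntrVol k j ((fun y => y + x) '' C) v := by
  obtain ⟨P, hP, hPc⟩ := h
  refine ⟨P, ?_, hPc⟩
  intro ε hε
  rw [← hP ε hε]
  have h1 : Metric.cthickening ε C = (fun y => y + x) ⁻¹' (Metric.cthickening ε ((fun y => y + x) '' C)) := by
    ext y
    rw [mem_preimage, Metric.mem_cthickening_iff, Metric.mem_cthickening_iff]
    have hiso : Isometry (fun y : E k => y + x) := fun a b => edist_add_right a b x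
    rw [Metric.infEDist_image hiso]
  rw [h1, measure_preimage_add_right]

/-- the shadow of a translate. -/
theorem shadow_translate {k : ℕ} (ι : E k →ₗᵢ[ℝ] E (k + 1)) (u : E (k + 1)) (K : Set (E (k + 1)))
    (x' : E k) (a : ℝ) :
    shadow ι u ((fun y => y + (ι x' + a • u)) '' K) = (fun y => y + x') '' shadow ι u K := by
  ext y
  constructor
  · rintro ⟨s, z, hz, hzs⟩
    refine ⟨y - x', ⟨s - a, ?_⟩, sub_add_cancel _ _⟩
    have : z = ι (y - x') + (s - a) • u := by
      have h1 : z + (ι x' + a • u) = ι y + s • u := hzs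
      rw [map_sub, sub_smul]
      have h2 : z = ι y + s • u - (ι x' + a • u) := by rw [← h1]; abel
      rw [h2]
      abel
    rwa [← this]
  · rintro ⟨z, ⟨s, hs⟩, rfl⟩
    refine ⟨s + a, ι z + s • u, hs, ?_⟩
    show ι z + s • u + (ι x' + a • u) = ι (z + x') + (s + a) • u
    rw [map_add, add_smul]
    abel

theorem IsProjBody.translate {k j : ℕ} {K L : Set (E (k + 1))} (h : IsProjBody j K L) (x : E (k + 1)) :
    IsProjBody j ((fun y => y + x) '' K) L := by
  obtain ⟨hc, hcv, hne, hL⟩ := h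
  refine ⟨hc, hcv, hne, ?_⟩
  intro u hu ι hι
  have huu : ⟪u, u⟫ = (1 : ℝ) := by rw [real_inner_self_eq_norm_sq, hu]; norm_num
  obtain ⟨x', hx'⟩ := iota_surj hu ι hι (w := x - ⟪x, u⟫ • u) (by
    rw [inner_sub_left, real_inner_smul_left, huu, mul_one, sub_self])
  have hx : x = ι x' + ⟪x, u⟫ • u := by
    rw [hx']
    abel
  rw [hx, shadow_translate]
  exact (hL u hu ι hι).translate x'

end Pool.Agent.RB75
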