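import Pool.Agent.RB75.G4a
import Pool.Agent.RB75.G8a

/-! Module RB-H1: projection bodies of balls.

`shadow ι u (closedBall p r) = closedBall q r` with `p = ι q + a u` (`‖ι y + s u - p‖² = ‖y - q‖² + (s-a)²`),
`cthickening ε (closedBall q r) = closedBall q (r+ε)` (`cthickening_closedBall`), of volume `κ_k (r+ε)^k`
(`Measure.addHaar_closedBall`), a polynomial in `ε` with coefficient `κ_k C(k,j) r^j` at `ε^(k-j)`. Put
`r' = κ_k C(k,j) r^j / κ_(k-j)`; `supp (closedBall 0 r') u = r'` for unit `u`. -/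

namespace Pool.Agent.RB75
open MeasureTheory Set Filter Topology
open scoped RealInnerProductSpace

theorem h1_shadow_ball {k : ℕ} (p : E (k + 1)) {r : ℝ} (hr : 0 < r) (u : E (k + 1)) (hu : ‖u‖ = 1)
    (ι : E k →ₗᵢ[ℝ] E (k + 1)) (hι : ∀ y, ⟪ι y, u⟫ = 0) :
    ∃ q : E k, shadow ι u (Metric.closedBall p r) = Metric.closedBall q r := by
  have huu : ⟪u, u⟫ = (1 : ℝ) := by rw [real_inner_self_eq_norm_sq, hu]; norm_num
  have hw : ⟪p - ⟪p, u⟫ • u, u⟫ = (0 : ℝ) := by
    rw [inner_sub_left, real_inner_smul_left, huu]; ring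
  obtain ⟨q, hq⟩ := iota_surj hu ι hι hw
  refine ⟨q, ?_⟩
  have key : ∀ (y : E k) (s : ℝ), ‖ι y + s • u - p‖ ^ 2 = ‖y - q‖ ^ 2 + (s - ⟪p, u⟫) ^ 2 := by
    intro y s
    have e1 : ι y + s • u - p = ι (y - q) + (s - ⟪p, u⟫) • u := by
      rw [map_sub, hq, sub_smul]; abel
    have hu2 : ⟪u, ι (y - q)⟫ = (0 : ℝ) := by rw [real_inner_comm]; exact hι _
    rw [e1, ← real_inner_self_eq_norm_sq, inner_add_left, inner_add_right, inner_add_right,
      real_inner_smul_left, real_inner_smul_right, real_inner_smul_left, real_inner_smul_right, huu,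
      hu2, hι, real_inner_self_eq_norm_sq, LinearIsometry.norm_map]
    ring
  ext y
  rw [Metric.mem_closedBall, dist_eq_norm]
  change (∃ s : ℝ, ι y + s • u ∈ Metric.closedBall p r) ↔ _
  simp only [Metric.mem_closedBall, dist_eq_norm]
  constructor
  · rintro ⟨s, hs⟩
    have h1 := key y s
    have h2 : ‖y - q‖ ^ 2 ≤ r ^ 2 := by nlinarith [sq_nonneg (s - ⟪p, u⟫), norm_nonneg (ι y + s • u - p)]
    exact le_of_sq_le_sq h2 hr.le
  · intro h
    refine ⟨⟪p, u⟫, ?_⟩
    have h1 := key y ⟪p, u⟫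
    have h2 : ‖ι y + ⟪p, u⟫ • u - p‖ ^ 2 ≤ r ^ 2 := by
      rw [h1]; nlinarith [norm_nonneg (y - q)]
    exact le_of_sq_le_sq h2 hr.le

theorem h1_vol {k : ℕ} (q : E k) {r ε : ℝ} (hr : 0 < r) (hε : 0 < ε) :
    (volume (Metric.cthickening ε (Metric.closedBall q r))).toReal = kap k * (ε + r) ^ k := by
  rw [cthickening_closedBall hε.le hr.le, Measure.addHaar_closedBall' _ _ (by linarith : 0 ≤ ε + r),
    ENNReal.toReal_mul, ENNReal.toReal_ofReal (by positivity), finrank_euclideanSpace, Fintype.card_fin, kap]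
  ring

theorem h1_intrVol {k j : ℕ} (hj : j ≤ k) (q : E k) {r : ℝ} (hr : 0 < r) :
    IsIntrVol k j (Metric.closedBall q r) (kap k * (r ^ j * (k.choose (k - j) : ℝ)) / kap (k - j)) := by
  refine ⟨Polynomial.C (kap k) * (Polynomial.X + Polynomial.C r) ^ k, ?_, ?_⟩
  · intro ε hε
    rw [h1_vol q hr hε]
    simp
  · rw [Polynomial.coeff_C_mul, Polynomial.coeff_X_add_C_pow]
    have h1 : k - (k - j) = j := by omega
    rw [h1]
    have := (kap_pos (k - j)).ne'
    field_simp

theorem h1_supp_ball {k : ℕ} (u : E k) (hu : ‖u‖ = 1) {r : ℝ} (hr : 0 < r) :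
    supp (Metric.closedBall (0 : E k) r) u = r := by
  apply le_antisymm
  · apply csSup_le
    · exact ⟨_, ⟨0, by simp [hr.le], rfl⟩⟩
    · rintro _ ⟨x, hx, rfl⟩
      have h1 := real_inner_le_norm u x
      rw [hu, one_mul] at h1
      have h2 : ‖x‖ ≤ r := by simpa using hx
      exact h1.trans h2
  · apply le_csSup
    · refine ⟨r, ?_⟩
      rintro _ ⟨x, hx, rfl⟩
      have h1 := real_inner_le_norm u x
      rw [hu, one_mul] at h1
      have h2 : ‖x‖ ≤ r := by simpa using hx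
      exact h1.trans h2
    · refine ⟨r • u, ?_, ?_⟩
      · simp [norm_smul, hu, abs_of_pos hr]
      · simp only
        rw [real_inner_smul_right, real_inner_self_eq_norm_sq, hu]; ring

theorem ball_projBody {k j : ℕ} (hj : j ≤ k) (p : E (k + 1)) {r : ℝ} (hr : 0 < r) :
    ∃ r', 0 < r' ∧ IsProjBody j (Metric.closedBall p r) (Metric.closedBall (0 : E (k + 1)) r') := by
  have hpos : 0 < kap k * (r ^ j * (k.choose (k - j) : ℝ)) / kap (k - j) := by
    have h1 := kap_pos k
    have h2 := kap_pos (k - j)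
    have h3 : 0 < (k.choose (k - j) : ℝ) := by
      exact_mod_cast Nat.choose_pos (Nat.sub_le k j)
    positivity
  refine ⟨_, hpos, isCompact_closedBall _ _, convex_closedBall _ _, ⟨0, by simpa using hpos.le⟩, ?_⟩
  intro u hu ι hι
  obtain ⟨q, hq⟩ := h1_shadow_ball p hr u hu ι hι
  rw [hq, h1_supp_ball u hu hpos]
  exact h1_intrVol hj q hr

theorem kap_zero : kap 0 = 1 := by
  have h2 : (Metric.closedBall (0 : E 0) 1) = Set.univ := by
    ext x
    simp [Subsingleton.elim x 0]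
  have h3 := (EuclideanSpace.volume_preserving_symm_measurableEquiv_toLp (Fin 0)).measure_preimage
    (s := (Set.univ : Set (Fin 0 → ℝ))) MeasurableSet.univ.nullMeasurableSet
  rw [preimage_univ] at h3
  rw [kap, h2, h3]
  simp [volume_pi]

end Pool.Agent.RB75
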