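import Pool.Agent.RB75.Forward

/-! Final assembly of the classification. -/

namespace Pool.Agent.RB75
open MeasureTheory Set Filter Topology
open scoped RealInnerProductSpace

theorem projBody_translate' {k j : ℕ} {K L : Set (E (k + 1))} {p : E (k + 1)}
    (h : IsProjBody j K L) {K' : Set (E (k + 1))} (hK' : K' = (fun y => y + p) '' K) : IsProjBody j K' L := by
  rw [hK']; exact h.translate p

theorem ell_shift {k : ℕ} {e p : E k} (he : ‖e‖ = 1) {r s : ℝ} (hr : 0 < r) (hs : 0 < s) :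
    {x | ‖perp e (x - p)‖ ^ 2 / r ^ 2 + ⟪x - p, e⟫ ^ 2 / s ^ 2 ≤ 1} = (fun y => y + p) '' Ell e r (s / r) := by
  ext y
  constructor
  · intro hy
    refine ⟨y - p, ?_, by simp⟩
    show _ ≤ (1 : ℝ)
    rw [show r * (s / r) = s by field_simp]
    exact hy
  · rintro ⟨z, hz, rfl⟩
    show _ ≤ (1 : ℝ)
    have : _ ≤ (1 : ℝ) := hz
    rw [show r * (s / r) = s by field_simp] at this
    simpa using this

theorem cyl_shift {k : ℕ} {e p : E k} {r s : ℝ} :
    {x | ‖perp e (x - p)‖ ≤ r ∧ |⟪x - p, e⟫| ≤ s} = (fun y => y + p) '' Cyl e r s := by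
  ext y
  constructor
  · intro hy
    exact ⟨y - p, hy, by simp⟩
  · rintro ⟨z, hz, rfl⟩
    have : z + p - p = z := by abel
    show ‖perp e (z + p - p)‖ ≤ r ∧ |⟪z + p - p, e⟫| ≤ s
    rw [this]; exact hz

theorem JJ_pos' (m : ℕ) : 0 < JJ m := JJ_pos m

/-- scaling of the standard ellipsoid. -/
theorem ell_hom {k : ℕ} {e p : E k} (he : ‖e‖ = 1) {R R' lam : ℝ} (hR : 0 < R) (hR' : 0 < R') (hl : 0 < lam) :
    Homothetic ((fun y => y + p) '' Ell e R lam) (Ell e R' lam) := by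
  refine ⟨R' / R, by positivity, -((R' / R) • p), ?_⟩
  have key : ∀ (y : E k) (c : ℝ), 0 < c → (c • y ∈ Ell e (c * R) lam ↔ y ∈ Ell e R lam) := by
    intro y c hc
    have h1 : perp e (c • y) = c • perp e y := by
      unfold perp; rw [real_inner_smul_left, smul_sub, smul_smul]
    unfold Ell
    show (‖perp e (c • y)‖ ^ 2 / (c * R) ^ 2 + ⟪c • y, e⟫ ^ 2 / (c * R * lam) ^ 2 ≤ 1) ↔
      (‖perp e y‖ ^ 2 / R ^ 2 + ⟪y, e⟫ ^ 2 / (R * lam) ^ 2 ≤ 1)
    rw [h1, norm_smul, real_inner_smul_left, Real.norm_of_nonneg hc.le]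
    have : (c * ‖perp e y‖) ^ 2 / (c * R) ^ 2 + (c * ⟪y, e⟫) ^ 2 / (c * R * lam) ^ 2 =
        ‖perp e y‖ ^ 2 / R ^ 2 + ⟪y, e⟫ ^ 2 / (R * lam) ^ 2 := by field_simp
    rw [this]
  have hRR : R' / R * R = R' := by field_simp
  have hc : 0 < R' / R := by positivity
  ext y
  constructor
  · intro hy
    refine ⟨(R' / R)⁻¹ • y + p, ⟨(R' / R)⁻¹ • y, ?_, rfl⟩, ?_⟩
    · rw [← key _ _ hc, smul_smul, mul_inv_cancel₀ hc.ne', one_smul, hRR]; exact hy
    · show (R' / R) • ((R' / R)⁻¹ • y + p) + -((R' / R) • p) = y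
      rw [smul_add, smul_smul, mul_inv_cancel₀ hc.ne', one_smul]; abel
  · rintro ⟨_, ⟨z, hz, rfl⟩, rfl⟩
    show (R' / R) • (z + p) + -((R' / R) • p) ∈ Ell e R' lam
    rw [smul_add, add_neg_cancel_right]
    have := (key z _ hc).2 hz
    rwa [hRR] at this

theorem cyl_hom {k : ℕ} {e p : E k} {R R' b b' : ℝ} (hR : 0 < R) (hR' : 0 < R') (hb : 0 < b)
    (h : b' * R = b * R') : Homothetic ((fun y => y + p) '' Cyl e R b) (Cyl e R' b') := by
  refine ⟨R' / R, by positivity, -((R' / R) • p), ?_⟩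
  have hc : 0 < R' / R := by positivity
  have hRR : R' / R * R = R' := by field_simp
  have hbb : R' / R * b = b' := by field_simp; linarith
  have key : ∀ (y : E k), (R' / R) • y ∈ Cyl e R' b' ↔ y ∈ Cyl e R b := by
    intro y
    have h1 : perp e ((R' / R) • y) = (R' / R) • perp e y := by
      unfold perp; rw [real_inner_smul_left, smul_sub, smul_smul]
    unfold Cyl
    show (‖perp e ((R' / R) • y)‖ ≤ R' ∧ |⟪(R' / R) • y, e⟫| ≤ b') ↔ (‖perp e y‖ ≤ R ∧ |⟪y, e⟫| ≤ b)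
    rw [h1, norm_smul, real_inner_smul_left, Real.norm_of_nonneg hc.le, abs_mul, abs_of_pos hc]
    nth_rewrite 2 [← hRR]
    rw [← hbb, mul_le_mul_iff_right₀ hc, mul_le_mul_iff_right₀ hc]
  ext y
  constructor
  · intro hy
    refine ⟨(R' / R)⁻¹ • y + p, ⟨(R' / R)⁻¹ • y, ?_, rfl⟩, ?_⟩
    · rw [← key, smul_smul, mul_inv_cancel₀ hc.ne', one_smul]; exact hy
    · show (R' / R) • ((R' / R)⁻¹ • y + p) + -((R' / R) • p) = y
      rw [smul_add, smul_smul, mul_inv_cancel₀ hc.ne', one_smul]; abel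
  · rintro ⟨_, ⟨z, hz, rfl⟩, rfl⟩
    show (R' / R) • (z + p) + -((R' / R) • p) ∈ Cyl e R' b'
    rw [smul_add, add_neg_cancel_right]
    exact (key z).2 hz

/-- balls are homothetic. -/
theorem ball_hom {k : ℕ} (p : E k) {r r' : ℝ} (hr : 0 < r) (hr' : 0 < r') :
    Homothetic (Metric.closedBall p r) (Metric.closedBall (0 : E k) r') := by
  refine ⟨r' / r, by positivity, -((r' / r) • p), ?_⟩
  have hc : 0 < r' / r := by positivity
  ext y
  constructor
  · intro hy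
    refine ⟨(r' / r)⁻¹ • y + p, ?_, ?_⟩
    · rw [mem_closedBall_iff_norm, add_sub_cancel_right, norm_smul, norm_inv, Real.norm_of_nonneg hc.le]
      rw [mem_closedBall_zero_iff] at hy
      rw [inv_mul_le_iff₀ hc]
      calc ‖y‖ ≤ r' := hy
        _ = r' / r * r := by field_simp
    · show (r' / r) • ((r' / r)⁻¹ • y + p) + -((r' / r) • p) = y
      rw [smul_add, smul_smul, mul_inv_cancel₀ hc.ne', one_smul]; abel
  · rintro ⟨z, hz, rfl⟩
    rw [mem_closedBall_zero_iff]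
    have : (r' / r) • z + -((r' / r) • p) = (r' / r) • (z - p) := by rw [smul_sub]; abel
    show ‖(r' / r) • z + -((r' / r) • p)‖ ≤ r'
    rw [this, norm_smul, Real.norm_of_nonneg hc.le]
    rw [mem_closedBall_iff_norm] at hz
    calc r' / r * ‖z - p‖ ≤ r' / r * r := mul_le_mul_of_nonneg_left hz hc.le
      _ = r' := by field_simp

theorem converse_ball2 {k j : ℕ} (hj : j ≤ k) {K : Set (E (k + 1))} (hK : IsBall K) :
    ∃ L M, IsProjBody j K L ∧ IsProjBody j L M ∧ Homothetic K M := by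
  obtain ⟨p, r, hr, rfl⟩ := hK
  obtain ⟨r', hr', h1⟩ := ball_projBody hj p hr
  obtain ⟨r'', hr'', h2⟩ := ball_projBody hj (0 : E (k + 1)) hr'
  exact ⟨_, _, h1, h2, ball_hom p hr hr''⟩

theorem converse_ball1 {k j : ℕ} (hj : j ≤ k) {K : Set (E (k + 1))} (hK : IsBall K) :
    ∃ L, IsProjBody j K L ∧ Homothetic K L := by
  obtain ⟨p, r, hr, rfl⟩ := hK
  obtain ⟨r', hr', h1⟩ := ball_projBody hj p hr
  exact ⟨_, h1, ball_hom p hr hr'⟩

theorem converse_ell {m : ℕ} {K : Set (E (m + 3 + 1))} (hK : IsEllRev K) :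
    ∃ L M, IsProjBody (m + 3) K L ∧ IsProjBody (m + 3) L M ∧ Homothetic K M := by
  obtain ⟨p, e, he, r, s, hr, hs, rfl⟩ := hK
  have hcc := cc_pos (k := m + 3) (by omega)
  have hJ := JJ_pos m
  have hsr : 0 < s / r := by positivity
  have hR1 : 0 < cc (m + 3) * JJ m * r ^ (m + 3) * (s / r) := by positivity
  have h1 := ell_projBody he hr hsr
  have h2 := ell_projBody he hR1 (lam := 1 / (s / r)) (by positivity)
  refine ⟨_, _, projBody_translate' h1 (ell_shift he hr hs), h2, ?_⟩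
  rw [ell_shift he hr hs, one_div_one_div]
  exact ell_hom he hr (by positivity) hsr

theorem converse_cyl {m : ℕ} {K : Set (E (m + 3 + 1))} {r s : ℝ} (hK : IsCyl K r s) :
    ∃ L M, IsProjBody (m + 3) K L ∧ IsProjBody (m + 3) L M ∧ Homothetic K M := by
  obtain ⟨p, e, he, hr, hs, rfl⟩ := hK
  have hcc := cc_pos (k := m + 3) (by omega)
  have hJ := JJ_pos m
  have h1 := cyl_projBody he hr hs
  have hR1 : 0 < cc (m + 3) * (((m + 3 : ℕ) : ℝ) * r ^ (m + 3 - 1) * s) := by positivity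
  have hb1 : 0 < cc (m + 3) * JJ m * r ^ (m + 3) := by positivity
  have h2 := cyl_projBody he hR1 hb1
  refine ⟨_, _, projBody_translate' h1 cyl_shift, h2, ?_⟩
  rw [cyl_shift]
  apply cyl_hom hr (by positivity) hs
  have e1 : m + 3 - 1 = m + 2 := rfl
  rw [e1]
  ring

theorem converse_cyl1 {m : ℕ} {K : Set (E (m + 3 + 1))} {r s : ℝ} (hK : IsCyl K r s)
    (h : kap (m + 3) * r ^ 2 = 2 * kap (m + 2) * s ^ 2) :
    ∃ L, IsProjBody (m + 3) K L ∧ Homothetic K L := by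
  obtain ⟨p, e, he, hr, hs, rfl⟩ := hK
  have hcc := cc_pos (k := m + 3) (by omega)
  have hJ := JJ_pos m
  have h1 := cyl_projBody he hr hs
  refine ⟨_, projBody_translate' h1 cyl_shift, ?_⟩
  rw [cyl_shift]
  apply cyl_hom hr (by positivity) hs
  have e1 : m + 3 - 1 = m + 2 := rfl
  rw [e1]
  rw [kap_eq m] at h
  have h3 : cc (m + 3) * ((m + 3 : ℕ) : ℝ) = 2 * kap (m + 2) := by
    unfold cc
    push_cast
    field_simp
  calc cc (m + 3) * JJ m * r ^ (m + 3) * r = (cc (m + 3) * JJ m * r ^ 2) * r ^ (m + 2) := by ring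
    _ = (2 * kap (m + 2) * s ^ 2) * r ^ (m + 2) := by rw [h]
    _ = s * (cc (m + 3) * (((m + 3 : ℕ) : ℝ) * r ^ (m + 2) * s)) := by rw [← h3]; ring

/-- **Main theorem.** `K` a convex body of revolution in `ℝ^(n+1)`, `n ≥ 3`, `2 ≤ j ≤ n`. -/
theorem main_result (n : ℕ) (hn : 3 ≤ n) (j : ℕ) (hj : 2 ≤ j) (hjn : j ≤ n) (K : Set (E (n + 1)))
    (hK : IsRevBody K) :
    ((∃ L M, IsProjBody j K L ∧ IsProjBody j L M ∧ Homothetic K M) ↔
      (IsBall K ∨ (j = n ∧ (IsEllRev K ∨ ∃ r s, IsCyl K r s)))) ∧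
    ((∃ L, IsProjBody j K L ∧ Homothetic K L) ↔
      (IsBall K ∨ (j = n ∧ ∃ r s, kap n * r ^ 2 = 2 * kap (n - 1) * s ^ 2 ∧ IsCyl K r s))) := by
  obtain ⟨m, rfl⟩ : ∃ m, n = m + 3 := ⟨n - 3, by omega⟩
  obtain ⟨l, hl⟩ : ∃ l, j + l = m + 3 := ⟨m + 3 - j, by omega⟩
  have e1 : m + 3 - 1 = m + 2 := rfl
  rw [e1]
  refine ⟨⟨?_, ?_⟩, ⟨?_, ?_⟩⟩
  · rintro ⟨L, M, h1, h2, h3⟩
    rcases forward2 hj hl hK h1 h2 h3 with h | ⟨h0, h⟩
    · exact Or.inl h
    · exact Or.inr ⟨by omega, h⟩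
  · rintro (h | ⟨hj', h | ⟨r, s, h⟩⟩)
    · exact converse_ball2 hjn h
    · subst hj'; exact converse_ell h
    · subst hj'; exact converse_cyl h
  · rintro ⟨L, h1, h2⟩
    rcases forward1 hj hl hK h1 h2 with h | ⟨h0, h⟩
    · exact Or.inl h
    · exact Or.inr ⟨by omega, h⟩
  · rintro (h | ⟨hj', r, s, h, h'⟩)
    · exact converse_ball1 hjn h
    · subst hj'; exact converse_cyl1 h' h

end Pool.Agent.RB75
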