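import Pool.Agent.RB75.A5

/-! Module RB-A8: `ρ₁(s) = f₁ + ∫_0^s N(v)/v³ dv` with `f₁ = C j R₀^{j-1} b₀`, and `H₁(0) = C J R₀^j`.

Proof. (i) lemma `eq_of_integral_eq`: a function `ρ` monotone on `(0,∞)` and a continuous `g` with the same
integrals over all `[s,t] ⊂ (0,∞)` agree: `h ρ(s) ≤ ∫_s^{s+h} ρ = ∫_s^{s+h} g`, divide by `h → 0+` : `ρ(s) ≤ g(s)`;
from the left `≥`.
(ii) Put `G(s) = ∫⁻ v in Ioo 0 s, ofReal (N v/v³)`. By A5 and `Star.int` `∫⁻ s in Ioo 0 t, G s < ∞` for all `t`;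
`G` is nondecreasing, so `G s < ∞` for all `s`; so `v ↦ N v/v³` is integrable on `(0,s)` and
`G s = ofReal (∫_0^s N v/v³)`. (`N` is monotone on `(0,∞)`, so a.e. measurable.)  Taking real values in A5 and
`Star.eq`: `H₁(t) = C J R₀^j + f₁ t + ∫_0^t g(s) ds`, `g(s) = ∫_0^s N/v³`, for all `t > 0`.
(iii) `Prof.H_int` : `H₁(t) = H₁(0) + ∫_0^t ρ₁`; let `t → 0+` in both: `H₁(0) = C J R₀^j`. Subtracting for
`s < t`: `∫_s^t ρ₁ = ∫_s^t (f₁ + g)`, and (i) applies (`g` is continuous). -/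

namespace Pool.Agent.RB75
open MeasureTheory Set Filter Topology

theorem eq_of_integral_eq {ρ g : ℝ → ℝ} (hρ : MonotoneOn ρ (Ioi 0)) (hg : ContinuousOn g (Ioi 0))
    (h : ∀ s t, 0 < s → s < t → ∫ x in s..t, ρ x = ∫ x in s..t, g x) : ∀ s, 0 < s → ρ s = g s := by
  intro s hs
  have hint : ∀ a b, 0 < a → a < b → IntervalIntegrable ρ volume a b := fun a b ha hab => by
    apply MonotoneOn.intervalIntegrable
    refine hρ.mono ?_
    rw [uIcc_of_le hab.le]
    exact fun x hx => lt_of_lt_of_le ha hx.1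
  have gint : ∀ a b, 0 < a → a < b → IntervalIntegrable g volume a b := fun a b ha hab => by
    apply ContinuousOn.intervalIntegrable
    refine hg.mono ?_
    rw [uIcc_of_le hab.le]
    exact fun x hx => lt_of_lt_of_le ha hx.1
  have hcs : ContinuousAt g s := hg.continuousAt (Ioi_mem_nhds hs)
  apply le_antisymm
  · refine le_of_forall_pos_le_add fun ε hε => ?_
    obtain ⟨δ, hδ, hδ'⟩ := Metric.continuousAt_iff.1 hcs ε hε
    set k := δ / 2 with hk
    have hk0 : 0 < k := by positivity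
    have h1 : ∫ x in s..(s + k), ρ s ≤ ∫ x in s..(s + k), ρ x := by
      refine intervalIntegral.integral_mono_on (by linarith) intervalIntegrable_const
        (hint _ _ hs (by linarith)) fun x hx => ?_
      exact hρ hs (lt_of_lt_of_le hs hx.1 : x ∈ Ioi (0 : ℝ)) hx.1
    have h2 : ∫ x in s..(s + k), g x ≤ ∫ x in s..(s + k), (g s + ε) := by
      refine intervalIntegral.integral_mono_on (by linarith) (gint _ _ hs (by linarith))
        intervalIntegrable_const fun x hx => ?_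
      have := hδ' (x := x) (by
        rw [Real.dist_eq, abs_of_nonneg (by linarith [hx.1])]
        linarith [hx.2])
      rw [Real.dist_eq] at this
      linarith [(abs_lt.1 this).2]
    rw [intervalIntegral.integral_const, smul_eq_mul] at h1 h2
    rw [h s (s + k) hs (by linarith)] at h1
    have h3 := h1.trans h2
    rw [add_sub_cancel_left] at h3
    exact le_of_mul_le_mul_left h3 hk0
  · refine le_of_forall_pos_le_add fun ε hε => ?_
    obtain ⟨δ, hδ, hδ'⟩ := Metric.continuousAt_iff.1 hcs ε hε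
    set k := min (δ / 2) (s / 2) with hk
    have hk0 : 0 < k := by positivity
    have hkd : k < δ := lt_of_le_of_lt (min_le_left _ _) (by linarith)
    have hks : k < s := lt_of_le_of_lt (min_le_right _ _) (by linarith)
    have h1 : ∫ x in (s - k)..s, ρ x ≤ ∫ x in (s - k)..s, ρ s := by
      refine intervalIntegral.integral_mono_on (by linarith)
        (hint _ _ (by linarith) (by linarith)) intervalIntegrable_const fun x hx => ?_
      exact hρ (show (0 : ℝ) < x by linarith [hx.1]) hs hx.2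
    have h2 : ∫ x in (s - k)..s, (g s - ε) ≤ ∫ x in (s - k)..s, g x := by
      refine intervalIntegral.integral_mono_on (by linarith) intervalIntegrable_const
        (gint _ _ (by linarith) (by linarith)) fun x hx => ?_
      have := hδ' (x := x) (by
        rw [Real.dist_eq, abs_of_nonpos (by linarith [hx.2])]
        linarith [hx.1])
      rw [Real.dist_eq] at this
      linarith [(abs_lt.1 this).1]
    rw [intervalIntegral.integral_const, smul_eq_mul] at h1 h2
    rw [h (s - k) s (by linarith) (by linarith)] at h1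
    have h3 := h2.trans h1
    rw [sub_sub_cancel] at h3
    have h4 := le_of_mul_le_mul_left h3 hk0
    linarith

theorem A8 {m j l : ℕ} {C : ℝ} (hC : 0 < C) {ρ₀ H₁ ρ₁ N : ℝ → ℝ} {R₀ b₀ R₁ b₁ : ℝ} {μ : Measure ℝ}
    (hS : Star m j l C ρ₀ R₀ b₀ H₁) (hP : Prof H₁ ρ₁ R₁ b₁) (hΦ : ∀ x, 0 < x → 0 ≤ Phi j l ρ₀ R₀ x)
    (hR : Rep m C (Phi j l ρ₀ R₀) μ N) :
    H₁ 0 = C * JJ m * R₀ ^ j ∧ ∀ s, 0 < s → IntervalIntegrable (fun v => N v / v ^ 3) volume 0 s ∧
      ρ₁ s = C * j * R₀ ^ (j - 1) * b₀ + ∫ v in (0 : ℝ)..s, N v / v ^ 3 := by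
  -- the left side of A5
  have hwnn : ∀ t, 0 < t → ∀ z ∈ Ioo (0 : ℝ) 1,
      0 ≤ Phi j l ρ₀ R₀ (t * z) * √(1 - z ^ 2) ^ (m + 2) / z ^ 2 := by
    intro t ht z hz
    have := hΦ (t * z) (mul_pos ht hz.1)
    positivity
  have hA : ∀ t, 0 < t → ENNReal.ofReal (C * ∫ z in Ioo (0 : ℝ) 1,
      Phi j l ρ₀ R₀ (t * z) * √(1 - z ^ 2) ^ (m + 2) / z ^ 2) =
      ∫⁻ s in Ioo 0 t, ∫⁻ v in Ioo 0 s, ENNReal.ofReal (N v / v ^ 3) := by
    intro t ht
    rw [← A5 hC hR hΦ t ht, ENNReal.ofReal_mul hC.le, ofReal_integral_eq_lintegral_ofReal]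
    · exact hS.int t ht
    · exact (ae_restrict_iff' measurableSet_Ioo).2 (Eventually.of_forall (hwnn t ht))
  -- finiteness of the inner integral
  have hfin : ∀ s, 0 < s → ∫⁻ v in Ioo 0 s, ENNReal.ofReal (N v / v ^ 3) < ⊤ := by
    intro s hs
    have h1 : ∫⁻ s' in Ioo s (2 * s), (∫⁻ v in Ioo 0 s, ENNReal.ofReal (N v / v ^ 3)) ≤
        ∫⁻ s' in Ioo 0 (2 * s), ∫⁻ v in Ioo 0 s', ENNReal.ofReal (N v / v ^ 3) := by
      calc ∫⁻ s' in Ioo s (2 * s), (∫⁻ v in Ioo 0 s, ENNReal.ofReal (N v / v ^ 3))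
          ≤ ∫⁻ s' in Ioo s (2 * s), ∫⁻ v in Ioo 0 s', ENNReal.ofReal (N v / v ^ 3) := by
            refine setLIntegral_mono' measurableSet_Ioo fun x hx => ?_
            exact lintegral_mono_set (Ioo_subset_Ioo_right hx.1.le)
        _ ≤ _ := lintegral_mono_set (Ioo_subset_Ioo_left hs.le)
    rw [← hA (2 * s) (by linarith), lintegral_const, Measure.restrict_apply MeasurableSet.univ,
      univ_inter, Real.volume_Ioo] at h1
    by_contra hcon
    rw [not_lt, top_le_iff] at hcon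
    rw [hcon, ENNReal.top_mul] at h1
    · exact absurd (top_le_iff.1 h1) ENNReal.ofReal_ne_top
    · rw [Ne, ENNReal.ofReal_eq_zero, not_le]; linarith
  have hNm : AEMeasurable N (volume.restrict (Ioi (0 : ℝ))) :=
    aemeasurable_restrict_of_monotoneOn measurableSet_Ioi hR.N_mono
  have hNm' : ∀ s, AEStronglyMeasurable (fun v => N v / v ^ 3) (volume.restrict (Ioo (0 : ℝ) s)) := by
    intro s
    have h1 : AEMeasurable N (volume.restrict (Ioo (0 : ℝ) s)) :=
      hNm.mono_measure (Measure.restrict_mono Ioo_subset_Ioi_self le_rfl)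
    exact (h1.div (by fun_prop)).aestronglyMeasurable
  have hNnn : ∀ v, 0 < v → 0 ≤ N v / v ^ 3 := fun v hv => by
    have := hR.N_nn v hv
    positivity
  have hNae : ∀ s, 0 ≤ᵐ[volume.restrict (Ioo (0 : ℝ) s)] fun v => N v / v ^ 3 := fun s =>
    (ae_restrict_iff' measurableSet_Ioo).2 (Eventually.of_forall fun v hv => hNnn v hv.1)
  have hNint : ∀ s, 0 < s → IntegrableOn (fun v => N v / v ^ 3) (Ioo 0 s) := by
    intro s hs
    refine ⟨hNm' s, ?_⟩
    rw [hasFiniteIntegral_iff_ofReal (hNae s)]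
    exact hfin s hs
  have hNii : ∀ s, 0 < s → IntervalIntegrable (fun v => N v / v ^ 3) volume 0 s := by
    intro s hs
    rw [intervalIntegrable_iff_integrableOn_Ioo_of_le hs.le]
    exact hNint s hs
  set g : ℝ → ℝ := fun s => ∫ v in (0 : ℝ)..s, N v / v ^ 3 with hg
  have hgG : ∀ s, 0 < s → ∫⁻ v in Ioo 0 s, ENNReal.ofReal (N v / v ^ 3) = ENNReal.ofReal (g s) := by
    intro s hs
    rw [hg]
    simp only []
    rw [intervalIntegral.integral_of_le hs.le, integral_Ioc_eq_integral_Ioo,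
      ofReal_integral_eq_lintegral_ofReal (hNint s hs) (hNae s)]
  have hg0 : ∀ s, 0 ≤ s → 0 ≤ g s := by
    intro s hs
    rw [hg]
    simp only []
    rw [intervalIntegral.integral_of_le hs]
    exact setIntegral_nonneg measurableSet_Ioc fun v hv => hNnn v hv.1
  have hgmono : MonotoneOn g (Ici 0) := by
    intro a ha b hb hab
    rcases hab.eq_or_lt with rfl | hab'
    · exact le_rfl
    have hb0 : 0 < b := lt_of_le_of_lt ha hab'
    have h1 : g b - g a = ∫ v in a..b, N v / v ^ 3 := by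
      rw [hg]
      simp only []
      refine intervalIntegral.integral_interval_sub_left (hNii b hb0) ?_
      exact (hNii b hb0).mono_set (by
        rw [uIcc_of_le hb0.le, uIcc_of_le (show (0 : ℝ) ≤ a from ha)]
        exact Icc_subset_Icc_right hab)
    have h2 : 0 ≤ ∫ v in a..b, N v / v ^ 3 := by
      rw [intervalIntegral.integral_of_le hab]
      exact setIntegral_nonneg measurableSet_Ioc fun v hv => hNnn v (lt_of_le_of_lt ha hv.1)
    linarith
  have hgii : ∀ a b, 0 ≤ a → a ≤ b → IntervalIntegrable g volume a b := by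
    intro a b ha hab
    apply MonotoneOn.intervalIntegrable
    refine hgmono.mono ?_
    rw [uIcc_of_le hab]
    exact fun x hx => ha.trans hx.1
  have hgcont : ContinuousOn g (Ioi 0) := by
    intro s hs
    have hs' : (0 : ℝ) < s := hs
    have h1 : ContinuousOn g (uIcc 0 (s + 1)) := by
      rw [hg]
      exact intervalIntegral.continuousOn_primitive_interval' (hNii (s + 1) (by linarith))
        left_mem_uIcc
    have h2 : ContinuousAt g s := by
      refine h1.continuousAt ?_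
      rw [uIcc_of_le (by linarith)]
      exact Icc_mem_nhds hs' (by linarith)
    exact h2.continuousWithinAt
  have hB : ∀ t, 0 < t → C * ∫ z in Ioo (0 : ℝ) 1,
      Phi j l ρ₀ R₀ (t * z) * √(1 - z ^ 2) ^ (m + 2) / z ^ 2 = ∫ s in (0 : ℝ)..t, g s := by
    intro t ht
    have h1 := hA t ht
    have h2 : ∫⁻ s in Ioo 0 t, ∫⁻ v in Ioo 0 s, ENNReal.ofReal (N v / v ^ 3) =
        ∫⁻ s in Ioo 0 t, ENNReal.ofReal (g s) :=
      setLIntegral_congr_fun measurableSet_Ioo fun s hs => hgG s hs.1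
    have h3 : ENNReal.ofReal (∫ s in (0 : ℝ)..t, g s) = ∫⁻ s in Ioo 0 t, ENNReal.ofReal (g s) := by
      rw [intervalIntegral.integral_of_le ht.le, integral_Ioc_eq_integral_Ioo,
        ofReal_integral_eq_lintegral_ofReal]
      · have := hgii 0 t le_rfl ht.le
        rwa [intervalIntegrable_iff_integrableOn_Ioo_of_le ht.le] at this
      · exact (ae_restrict_iff' measurableSet_Ioo).2 (Eventually.of_forall fun v hv => hg0 v hv.1.le)
    rw [h2, ← h3] at h1
    have h4 : 0 ≤ C * ∫ z in Ioo (0 : ℝ) 1,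
        Phi j l ρ₀ R₀ (t * z) * √(1 - z ^ 2) ^ (m + 2) / z ^ 2 :=
      mul_nonneg hC.le (setIntegral_nonneg measurableSet_Ioo (hwnn t ht))
    have h5 : 0 ≤ ∫ s in (0 : ℝ)..t, g s :=
      intervalIntegral.integral_nonneg ht.le fun u hu => hg0 u hu.1
    exact (ENNReal.ofReal_eq_ofReal_iff h4 h5).1 h1
  set f₁ := C * j * R₀ ^ (j - 1) * b₀ with hf₁
  have hH : ∀ t, 0 < t → H₁ t = C * JJ m * R₀ ^ j + f₁ * t + ∫ s in (0 : ℝ)..t, g s := by
    intro t ht
    rw [hS.eq t ht, mul_add, hB t ht, hf₁]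
    ring
  -- integrability of `ρ₁`
  have hρm : AEMeasurable ρ₁ (volume.restrict (Ioi (0 : ℝ))) :=
    aemeasurable_restrict_of_monotoneOn measurableSet_Ioi hP.mono
  have hρi : ∀ t, 0 < t → IntervalIntegrable ρ₁ volume 0 t := by
    intro t ht
    rw [intervalIntegrable_iff_integrableOn_Ioc_of_le ht.le]
    refine Integrable.of_bound (C := ρ₁ t) ?_ ?_
    · exact (hρm.mono_measure (Measure.restrict_mono Ioc_subset_Ioi_self le_rfl)).aestronglyMeasurable
    · refine (ae_restrict_iff' measurableSet_Ioc).2 (Eventually.of_forall fun x hx => ?_)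
      rw [Real.norm_eq_abs, abs_of_nonneg (hP.nn x hx.1)]
      exact hP.mono hx.1 ht hx.2
  have hρb : ∀ t, 0 < t → t ≤ 1 → 0 ≤ ∫ x in (0 : ℝ)..t, ρ₁ x ∧ ∫ x in (0 : ℝ)..t, ρ₁ x ≤ t * ρ₁ 1 := by
    intro t ht ht1
    constructor
    · rw [intervalIntegral.integral_of_le ht.le]
      exact setIntegral_nonneg measurableSet_Ioc fun v hv => hP.nn v hv.1
    · have h1 : ∫ x in (0 : ℝ)..t, ρ₁ x ≤ ∫ x in (0 : ℝ)..t, ρ₁ 1 := by
        rw [intervalIntegral.integral_of_le ht.le, intervalIntegral.integral_of_le ht.le]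
        refine setIntegral_mono_on ?_ ?_ measurableSet_Ioc fun x hx => ?_
        · exact (intervalIntegrable_iff_integrableOn_Ioc_of_le ht.le).1 (hρi t ht)
        · exact (intervalIntegrable_iff_integrableOn_Ioc_of_le ht.le).1 intervalIntegrable_const
        · exact hP.mono hx.1 (by norm_num : (1 : ℝ) ∈ Ioi 0) (hx.2.trans ht1)
      rwa [intervalIntegral.integral_const, smul_eq_mul, sub_zero] at h1
  have hgb : ∀ t, 0 < t → t ≤ 1 → 0 ≤ ∫ x in (0 : ℝ)..t, g x ∧ ∫ x in (0 : ℝ)..t, g x ≤ t * g 1 := by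
    intro t ht ht1
    constructor
    · exact intervalIntegral.integral_nonneg ht.le fun u hu => hg0 u hu.1
    · have h1 : ∫ x in (0 : ℝ)..t, g x ≤ ∫ x in (0 : ℝ)..t, g 1 := by
        refine intervalIntegral.integral_mono_on ht.le (hgii 0 t le_rfl ht.le)
          intervalIntegrable_const fun x hx => ?_
        exact hgmono hx.1 (by norm_num : (1 : ℝ) ∈ Ici 0) (hx.2.trans ht1)
      rwa [intervalIntegral.integral_const, smul_eq_mul, sub_zero] at h1
  have hH0 : H₁ 0 = C * JJ m * R₀ ^ j := by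
    have hbound : ∀ t, 0 < t → t ≤ 1 →
        |H₁ 0 - C * JJ m * R₀ ^ j| ≤ t * (|f₁| + g 1 + ρ₁ 1) := by
      intro t ht ht1
      have e1 := hH t ht
      have e2 := hP.H_int t ht.le
      obtain ⟨a1, a2⟩ := hρb t ht ht1
      obtain ⟨c1, c2⟩ := hgb t ht ht1
      have e3 : H₁ 0 - C * JJ m * R₀ ^ j = f₁ * t + (∫ s in (0 : ℝ)..t, g s) - ∫ s in (0 : ℝ)..t, ρ₁ s := by
        linarith
      have e4 : |f₁ * t| = |f₁| * t := by rw [abs_mul, abs_of_pos ht]
      have e5 := abs_le.1 e4.le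
      rw [e3, abs_le]
      have g1 : 0 ≤ t * g 1 := mul_nonneg ht.le (hg0 1 (by norm_num))
      have r1 : 0 ≤ t * ρ₁ 1 := mul_nonneg ht.le (hP.nn 1 (by norm_num))
      constructor <;> nlinarith [e5.1, e5.2]
    by_contra hne
    have hpos : 0 < |H₁ 0 - C * JJ m * R₀ ^ j| := abs_pos.2 (sub_ne_zero.2 hne)
    set A := |H₁ 0 - C * JJ m * R₀ ^ j| with hAdef
    set B := |f₁| + g 1 + ρ₁ 1 with hBdef
    have hBnn : 0 ≤ B := by
      have := hg0 1 (by norm_num)
      have := hP.nn 1 (by norm_num)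
      positivity
    have h1 := hbound (min 1 (A / (2 * (B + 1)))) (by positivity) (min_le_left _ _)
    have h2 : min 1 (A / (2 * (B + 1))) * B ≤ A / (2 * (B + 1)) * B :=
      mul_le_mul_of_nonneg_right (min_le_right _ _) hBnn
    have h3 : A / (2 * (B + 1)) * B ≤ A / 2 := by
      rw [div_mul_eq_mul_div, div_le_div_iff₀ (by positivity) (by norm_num)]
      nlinarith
    linarith
  refine ⟨hH0, fun s hs => ⟨hNii s hs, ?_⟩⟩
  have key := eq_of_integral_eq (ρ := ρ₁) (g := fun x => f₁ + g x) hP.mono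
    (continuousOn_const.add hgcont) ?_ s hs
  · exact key
  intro a b ha hab
  have hb : 0 < b := ha.trans hab
  have e1 : ∫ x in a..b, ρ₁ x = (∫ x in (0 : ℝ)..b, ρ₁ x) - ∫ x in (0 : ℝ)..a, ρ₁ x :=
    (intervalIntegral.integral_interval_sub_left (hρi b hb) (hρi a ha)).symm
  have e2 : ∫ x in a..b, g x = (∫ x in (0 : ℝ)..b, g x) - ∫ x in (0 : ℝ)..a, g x :=
    (intervalIntegral.integral_interval_sub_left (hgii 0 b le_rfl hb.le)
      (hgii 0 a le_rfl ha.le)).symm
  have e3 : ∫ x in a..b, (f₁ + g x) = f₁ * (b - a) + ∫ x in a..b, g x := by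
    rw [intervalIntegral.integral_add intervalIntegrable_const (hgii a b ha.le hab.le),
      intervalIntegral.integral_const, smul_eq_mul]
    ring
  have e4 := hH a ha
  have e5 := hH b hb
  have e6 := hP.H_int a ha.le
  have e7 := hP.H_int b hb.le
  show ∫ x in a..b, ρ₁ x = ∫ x in a..b, (f₁ + g x)
  rw [e3, e1, e2]
  linarith

end Pool.Agent.RB75
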