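import Pool.Agent.RB75.Defs

/-! Module RB-B0: elementary facts about `sg` and `mm`. -/

namespace Pool.Agent.RB75
open MeasureTheory Set Filter Topology

theorem sqrt_aux_pos (τ : ℝ) : 0 < √(1 + τ ^ 2) := Real.sqrt_pos.mpr (by positivity)

theorem sqrt_aux_sq (τ : ℝ) : √(1 + τ ^ 2) ^ 2 = 1 + τ ^ 2 := Real.sq_sqrt (by positivity)

theorem sg_pos {τ : ℝ} (h : 0 < τ) : 0 < sg τ := div_pos h (sqrt_aux_pos τ)

theorem sg_nonneg {τ : ℝ} (h : 0 ≤ τ) : 0 ≤ sg τ := div_nonneg h (sqrt_aux_pos τ).le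

theorem sg_lt_one (τ : ℝ) : sg τ < 1 := by
  unfold sg
  rw [div_lt_one (sqrt_aux_pos τ)]
  have h1 := sqrt_aux_pos τ
  have h2 := sqrt_aux_sq τ
  nlinarith [abs_lt_of_sq_lt_sq' (a := τ) (b := √(1 + τ ^ 2)) (by linarith) h1.le]

theorem sg_le_self {τ : ℝ} (h : 0 ≤ τ) : sg τ ≤ τ := by
  unfold sg
  apply div_le_self h
  rw [Real.one_le_sqrt]
  nlinarith [sq_nonneg τ]

/-- `σ' = (1+τ²)^{-3/2}`. -/
theorem sg_hasDerivAt (τ : ℝ) : HasDerivAt sg (1 / √(1 + τ ^ 2) ^ 3) τ := by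
  have h1 : HasDerivAt (fun x : ℝ => 1 + x ^ 2) (2 * τ) τ := by
    have := (hasDerivAt_pow 2 τ).const_add 1
    simpa using this
  have h0 := sqrt_aux_pos τ
  have h2 : HasDerivAt (fun x : ℝ => √(1 + x ^ 2)) (2 * τ / (2 * √(1 + τ ^ 2))) τ :=
    h1.sqrt (by positivity)
  have h3 := (hasDerivAt_id τ).div h2 h0.ne'
  have h4 : HasDerivAt sg ((1 * √(1 + τ ^ 2) - id τ * (2 * τ / (2 * √(1 + τ ^ 2)))) /
      √(1 + τ ^ 2) ^ 2) τ := h3
  have h5 : (1 * √(1 + τ ^ 2) - id τ * (2 * τ / (2 * √(1 + τ ^ 2)))) /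
      √(1 + τ ^ 2) ^ 2 = 1 / √(1 + τ ^ 2) ^ 3 := by
    have h6 := sqrt_aux_sq τ
    have h7 : √(1 + τ ^ 2) ≠ 0 := h0.ne'
    rw [id]
    field_simp
    nlinarith
  rw [h5] at h4
  exact h4

theorem sg_continuous : Continuous sg :=
  continuous_iff_continuousAt.mpr fun τ => (sg_hasDerivAt τ).continuousAt

theorem sg_strictMono : StrictMono sg := by
  apply strictMono_of_deriv_pos
  intro x
  rw [(sg_hasDerivAt x).deriv]
  have := sqrt_aux_pos x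
  positivity

theorem sg_sq (τ : ℝ) : sg τ ^ 2 = 1 - 1 / (1 + τ ^ 2) := by
  unfold sg
  rw [div_pow, sqrt_aux_sq]
  have : (1 : ℝ) + τ ^ 2 ≠ 0 := by positivity
  field_simp
  ring

theorem sg_tendsto_atTop : Tendsto sg atTop (𝓝 1) := by
  have h1 : Tendsto (fun τ : ℝ => 1 - 1 / (1 + τ ^ 2)) atTop (𝓝 (1 - 0)) := by
    apply Tendsto.const_sub
    have h2 : Tendsto (fun τ : ℝ => 1 + τ ^ 2) atTop atTop :=
      tendsto_atTop_add_const_left _ _ (tendsto_pow_atTop (by norm_num))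
    have h3 := h2.inv_tendsto_atTop
    refine h3.congr fun τ => ?_
    simp [Pi.inv_apply]
  have h2 : Tendsto (fun τ : ℝ => √(1 - 1 / (1 + τ ^ 2))) atTop (𝓝 (√(1 - 0))) := h1.sqrt
  have h3 : √((1 : ℝ) - 0) = 1 := by simp
  rw [h3] at h2
  refine h2.congr' ?_
  filter_upwards [eventually_ge_atTop (0 : ℝ)] with τ hτ
  rw [← sg_sq, Real.sqrt_sq (sg_nonneg hτ)]

/-- `mm ≥ 0`. -/
theorem mm_nonneg (j l : ℕ) {ρ r : ℝ → ℝ} {τ : ℝ} (hτ : 0 < τ) (h1 : 0 ≤ ρ τ) (h2 : 0 ≤ r τ) :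
    0 ≤ mm j l ρ r τ := by
  have h3 := (sg_pos hτ).le
  unfold mm
  positivity

/-- `mm` is nondecreasing if `ρ ≥ 0` is nondecreasing and `τ³ r ≥ 0` is nondecreasing
(product and sum of nonnegative nondecreasing functions). -/
theorem mm_mono (j l : ℕ) {ρ r : ℝ → ℝ} (h1 : ∀ t, 0 < t → 0 ≤ ρ t) (h2 : MonotoneOn ρ (Ioi 0))
    (h3 : ∀ t, 0 < t → 0 ≤ r t) (h4 : MonotoneOn (fun t => t ^ 3 * r t) (Ioi 0)) :
    MonotoneOn (mm j l ρ r) (Ioi 0) := by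
  intro s hs t ht hst
  have hs0 : (0 : ℝ) < s := hs
  have ht0 : (0 : ℝ) < t := ht
  have hρ : ρ s ≤ ρ t := h2 hs ht hst
  have hN : s ^ 3 * r s ≤ t ^ 3 * r t := h4 hs ht hst
  have hσ : sg s ≤ sg t := sg_strictMono.monotone hst
  have a1 := h1 s hs0
  have a2 := h1 t ht0
  have a3 := (sg_pos hs0).le
  have a4 := (sg_pos ht0).le
  have a5 : 0 ≤ s ^ 3 * r s := mul_nonneg (by positivity) (h3 s hs0)
  unfold mm
  gcongr

/-- `mm` is AE-measurable on `(0,∞)` composed with `x ↦ 1/x` etc.: it is enough to use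
`mm_mono` (a function monotone on `Ioi 0` is a.e. measurable for the restricted measure). -/
theorem mm_inv_anti (j l : ℕ) {ρ r : ℝ → ℝ} (h1 : ∀ t, 0 < t → 0 ≤ ρ t) (h2 : MonotoneOn ρ (Ioi 0))
    (h3 : ∀ t, 0 < t → 0 ≤ r t) (h4 : MonotoneOn (fun t => t ^ 3 * r t) (Ioi 0)) :
    AntitoneOn (fun x => mm j l ρ r (1 / x)) (Ioi 0) := by
  intro s hs t ht hst
  have hs0 : (0 : ℝ) < s := hs
  have ht0 : (0 : ℝ) < t := ht
  have e1 : 1 / t ∈ Ioi (0 : ℝ) := by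
    show 0 < 1 / t
    positivity
  have e2 : 1 / s ∈ Ioi (0 : ℝ) := by
    show 0 < 1 / s
    positivity
  exact mm_mono j l h1 h2 h3 h4 e1 e2 (one_div_le_one_div_of_le hs0 hst)

end Pool.Agent.RB75
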