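import Pool.Agent.RB75.ADefs
import Pool.Agent.RB75.B0

/-! Module RB-A10: elementary properties of `Phi` and of `FF` for a `Prof`.

(1) `Phi j l ρ R` is nondecreasing and `≥ 0` on `(0,∞)`, tends to `0` at `0+` (`ρ → R`, `sg → 1` at infinity).
(2) If `ρ → f` at `0+` then `FF j l ρ → f^j` (if `l = 0`), `→ 0` (if `l ≥ 1`) at `0+`; so `Phi → R^j - f^j`
resp. `R^j` at infinity.
(3) (for `l = 0`) `∫⁻ x in Ioi 0, ofReal (Phi j 0 ρ R x / x²) = ∫⁻ τ in Ioi 0, ofReal (R^j - ρ(τ)^j)`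
(substitution `τ = 1/x`) `≥ ofReal (R^{j-1}) ∫⁻ τ in Ioi 0, ofReal (R - ρ τ) = ofReal (R^{j-1} (H 0 - b))`
(`R^j - ρ^j ≥ R^{j-1}(R-ρ)` for `0 ≤ ρ ≤ R`, `j ≥ 1`; the last equality from `∫_0^t (R-ρ) = R t + H 0 - H t`). -/

namespace Pool.Agent.RB75
open MeasureTheory Set Filter Topology

theorem Prof.rho_le {H ρ : ℝ → ℝ} {R b : ℝ} (h : Prof H ρ R b) : ∀ t, 0 < t → ρ t ≤ R := by
  intro t ht
  refine ge_of_tendsto h.lim ?_
  filter_upwards [eventually_ge_atTop t] with s hs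
  exact h.mono (mem_Ioi.2 ht) (mem_Ioi.2 (lt_of_lt_of_le ht hs)) hs

theorem A10_FF_mono {H ρ : ℝ → ℝ} {R b : ℝ} (h : Prof H ρ R b) (j l : ℕ) :
    MonotoneOn (FF j l ρ) (Ioi 0) := by
  intro s hs t ht hst
  rw [mem_Ioi] at hs ht
  have h1 : ρ s ^ j ≤ ρ t ^ j := pow_le_pow_left₀ (h.nn s hs) (h.mono hs ht hst) j
  have h2 : sg s ^ l ≤ sg t ^ l :=
    pow_le_pow_left₀ (sg_nonneg hs.le) (sg_strictMono.monotone hst) l
  exact mul_le_mul h1 h2 (pow_nonneg (sg_nonneg hs.le) l) (pow_nonneg (h.nn t ht) j)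

theorem Phi_mono {H ρ : ℝ → ℝ} {R b : ℝ} (h : Prof H ρ R b) (j l : ℕ) :
    MonotoneOn (Phi j l ρ R) (Ioi 0) := by
  intro x hx y hy hxy
  rw [mem_Ioi] at hx hy
  have h1 : FF j l ρ (1 / y) ≤ FF j l ρ (1 / x) :=
    A10_FF_mono h j l (mem_Ioi.2 (one_div_pos.2 hy)) (mem_Ioi.2 (one_div_pos.2 hx))
      (one_div_le_one_div_of_le hx hxy)
  unfold Phi
  linarith

theorem Phi_nonneg {H ρ : ℝ → ℝ} {R b : ℝ} (h : Prof H ρ R b) (j l : ℕ) :
    ∀ x, 0 < x → 0 ≤ Phi j l ρ R x := by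
  intro x hx
  have hx' : 0 < 1 / x := one_div_pos.2 hx
  have h1 : ρ (1 / x) ^ j ≤ R ^ j := pow_le_pow_left₀ (h.nn _ hx') (h.rho_le _ hx') j
  have h2 : sg (1 / x) ^ l ≤ 1 := pow_le_one₀ (sg_nonneg hx'.le) (sg_lt_one _).le
  have h3 : ρ (1 / x) ^ j * sg (1 / x) ^ l ≤ R ^ j * 1 :=
    mul_le_mul h1 h2 (pow_nonneg (sg_nonneg hx'.le) l) (pow_nonneg h.Rpos.le j)
  unfold Phi FF
  linarith

theorem Phi_zero {H ρ : ℝ → ℝ} {R b : ℝ} (h : Prof H ρ R b) (j l : ℕ) :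
    Tendsto (Phi j l ρ R) (𝓝[>] 0) (𝓝 0) := by
  have h1 : Tendsto (fun x : ℝ => 1 / x) (𝓝[>] 0) atTop := by
    simpa [one_div] using (tendsto_inv_nhdsGT_zero (𝕜 := ℝ))
  have h2 : Tendsto (fun τ => FF j l ρ τ) atTop (𝓝 (R ^ j * 1 ^ l)) :=
    (h.lim.pow j).mul (sg_tendsto_atTop.pow l)
  have h3 : Tendsto (fun x => R ^ j - FF j l ρ (1 / x)) (𝓝[>] 0) (𝓝 (R ^ j - R ^ j * 1 ^ l)) :=
    tendsto_const_nhds.sub (h2.comp h1)
  rw [one_pow, mul_one, sub_self] at h3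
  exact h3

theorem A10_inv_top : Tendsto (fun x : ℝ => 1 / x) atTop (𝓝[>] 0) := by
  simpa [one_div] using (tendsto_inv_atTop_nhdsGT_zero (𝕜 := ℝ))

theorem Phi_top_zero {H ρ : ℝ → ℝ} {R b f : ℝ} (h : Prof H ρ R b) (j : ℕ)
    (hf : Tendsto ρ (𝓝[>] 0) (𝓝 f)) : Tendsto (Phi j 0 ρ R) atTop (𝓝 (R ^ j - f ^ j)) := by
  have h2 : Tendsto (fun τ => FF j 0 ρ τ) (𝓝[>] 0) (𝓝 (f ^ j)) := by
    simpa [FF] using hf.pow j
  exact tendsto_const_nhds.sub (h2.comp A10_inv_top)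

theorem Phi_top_pos {H ρ : ℝ → ℝ} {R b f : ℝ} (h : Prof H ρ R b) (j : ℕ) {l : ℕ} (hl : 1 ≤ l)
    (hf : Tendsto ρ (𝓝[>] 0) (𝓝 f)) : Tendsto (Phi j l ρ R) atTop (𝓝 (R ^ j)) := by
  have hs : Tendsto sg (𝓝[>] 0) (𝓝 0) := by
    have h0 : sg 0 = 0 := by simp [sg]
    have := (sg_continuous.tendsto 0).mono_left (nhdsWithin_le_nhds (s := Ioi (0 : ℝ)))
    rwa [h0] at this
  have h2 : Tendsto (fun τ => FF j l ρ τ) (𝓝[>] 0) (𝓝 (f ^ j * 0 ^ l)) :=
    (hf.pow j).mul (hs.pow l)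
  have h3 : Tendsto (fun x => R ^ j - FF j l ρ (1 / x)) atTop (𝓝 (R ^ j - f ^ j * 0 ^ l)) :=
    tendsto_const_nhds.sub (h2.comp A10_inv_top)
  rw [zero_pow (by omega : l ≠ 0), mul_zero, sub_zero] at h3
  exact h3

theorem A10_subst (g : ℝ → ENNReal) :
    ∫⁻ x in Ioi (0 : ℝ), g x = ∫⁻ x in Ioi (0 : ℝ), ENNReal.ofReal (1 / x ^ 2) * g (1 / x) := by
  have himg : (fun x : ℝ => x⁻¹) '' Ioi 0 = Ioi 0 := by
    ext y
    constructor
    · rintro ⟨x, hx, rfl⟩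
      rw [mem_Ioi] at hx ⊢
      exact inv_pos.2 hx
    · intro hy
      rw [mem_Ioi] at hy
      exact ⟨y⁻¹, mem_Ioi.2 (inv_pos.2 hy), inv_inv y⟩
  have hd : ∀ x ∈ Ioi (0 : ℝ),
      HasDerivWithinAt (fun x : ℝ => x⁻¹) (-(x ^ 2)⁻¹) (Ioi 0) x := by
    intro x hx
    exact (hasDerivAt_inv (ne_of_gt hx)).hasDerivWithinAt
  have hinj : InjOn (fun x : ℝ => x⁻¹) (Ioi 0) := fun x _ y _ hxy => inv_injective hxy
  have := lintegral_image_eq_lintegral_abs_deriv_mul (measurableSet_Ioi) hd hinj g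
  rw [himg] at this
  rw [this]
  refine setLIntegral_congr_fun measurableSet_Ioi ?_
  intro x hx
  rw [mem_Ioi] at hx
  have : |-(x ^ 2)⁻¹| = 1 / x ^ 2 := by
    rw [abs_neg, abs_of_pos (by positivity), one_div]
  simp only [this, one_div]

theorem A10 {H ρ : ℝ → ℝ} {R b : ℝ} (h : Prof H ρ R b) {j : ℕ} (hj : 1 ≤ j) :
    ENNReal.ofReal (R ^ (j - 1) * (H 0 - b)) ≤
      ∫⁻ x in Ioi (0 : ℝ), ENNReal.ofReal (Phi j 0 ρ R x / x ^ 2) := by
  have hRj : 0 ≤ R ^ (j - 1) := pow_nonneg h.Rpos.le _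
  -- the substitution
  have e1 : ∫⁻ x in Ioi (0 : ℝ), ENNReal.ofReal (Phi j 0 ρ R x / x ^ 2) =
      ∫⁻ τ in Ioi (0 : ℝ), ENNReal.ofReal (R ^ j - ρ τ ^ j) := by
    rw [A10_subst (fun τ => ENNReal.ofReal (R ^ j - ρ τ ^ j))]
    refine setLIntegral_congr_fun measurableSet_Ioi ?_
    intro x hx
    rw [mem_Ioi] at hx
    have hpos : 0 ≤ 1 / x ^ 2 := by positivity
    simp only
    rw [← ENNReal.ofReal_mul hpos]
    congr 1
    simp only [Phi, FF, pow_zero, mul_one]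
    ring
  rw [e1]
  -- lower bound by the finite pieces
  have key : ∀ T, 0 < T → ENNReal.ofReal (R ^ (j - 1) * (R * T - (H T - H 0))) ≤
      ∫⁻ τ in Ioi (0 : ℝ), ENNReal.ofReal (R ^ j - ρ τ ^ j) := by
    intro T hT
    have hsub : Ioc (0 : ℝ) T ⊆ Ioi 0 := fun x hx => hx.1
    have hmeas : AEStronglyMeasurable ρ (volume.restrict (Ioc 0 T)) :=
      (aemeasurable_restrict_of_monotoneOn measurableSet_Ioc
        (h.mono.mono hsub)).aestronglyMeasurable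
    have hint : IntegrableOn ρ (Ioc 0 T) volume := by
      refine Integrable.of_bound hmeas R ?_
      filter_upwards [ae_restrict_mem measurableSet_Ioc] with x hx
      rw [Real.norm_eq_abs, abs_of_nonneg (h.nn x hx.1)]
      exact h.rho_le x hx.1
    have hconst : IntegrableOn (fun _ : ℝ => R) (Ioc 0 T) volume :=
      integrableOn_const (by simp)
    have hint2 : IntegrableOn (fun τ => R - ρ τ) (Ioc 0 T) volume :=
      Integrable.sub hconst hint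
    have hint3 : IntegrableOn (fun τ => R ^ (j - 1) * (R - ρ τ)) (Ioc 0 T) volume :=
      hint2.const_mul _
    have hval : ∫ τ in Ioc 0 T, R ^ (j - 1) * (R - ρ τ) = R ^ (j - 1) * (R * T - (H T - H 0)) := by
      rw [integral_const_mul]
      congr 1
      rw [integral_sub hconst hint]
      rw [← intervalIntegral.integral_of_le hT.le, ← intervalIntegral.integral_of_le hT.le]
      rw [h.H_int T hT.le]
      simp
      ring
    rw [← hval, ofReal_integral_eq_lintegral_ofReal hint3]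
    · refine (lintegral_mono_ae ?_).trans (lintegral_mono_set hsub)
      filter_upwards [ae_restrict_mem measurableSet_Ioc] with x hx
      apply ENNReal.ofReal_le_ofReal
      obtain ⟨k, rfl⟩ : ∃ k, j = k + 1 := ⟨j - 1, by omega⟩
      have h1 : ρ x ^ k ≤ R ^ k := pow_le_pow_left₀ (h.nn x hx.1) (h.rho_le x hx.1) k
      have h2 : ρ x ^ k * ρ x ≤ R ^ k * ρ x := mul_le_mul_of_nonneg_right h1 (h.nn x hx.1)
      rw [Nat.add_sub_cancel, pow_succ, pow_succ]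
      linarith [mul_sub (R ^ k) R (ρ x)]
    · filter_upwards [ae_restrict_mem measurableSet_Ioc] with x hx
      exact mul_nonneg hRj (sub_nonneg.2 (h.rho_le x hx.1))
  have hlim : Tendsto (fun T => R ^ (j - 1) * (R * T - (H T - H 0))) atTop
      (𝓝 (R ^ (j - 1) * (H 0 - b))) := by
    have h1 : Tendsto (fun T => H 0 - (H T - R * T)) atTop (𝓝 (H 0 - b)) :=
      tendsto_const_nhds.sub h.blim
    have h2 := h1.const_mul (R ^ (j - 1))
    refine h2.congr fun T => ?_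
    ring
  refine le_of_tendsto (ENNReal.tendsto_ofReal hlim) ?_
  filter_upwards [eventually_gt_atTop 0] with T hT
  exact key T hT

end Pool.Agent.RB75
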