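import Pool.Agent.RB75.ADefs

/-! Module RB-A9: limits at infinity.

Proof. `∫_0^s N/v³ = ρ₁(s) - f → R₁ - f` as `s → ∞`, `N ≥ 0`: monotone convergence gives integrability on
`(0,∞)` and the value (`integrableOn_Ioi_of_intervalIntegral_norm_tendsto`-like lemmas).
Second: `R₁ - ρ₁(s) = ∫_{Ioi s} N/v³ ≥ 0`; `∫_0^t (R₁ - ρ₁) = R₁ t + H₁(0) - H₁(t) → H₁(0) - b₁`
(`Prof.H_int`, `Prof.blim`), so `∫⁻ s in Ioi 0, ofReal (R₁ - ρ₁ s) = ofReal (H₁(0) - b₁)`, and Tonelli:
`∫⁻ s in Ioi 0, ∫⁻ v in Ioi s, ofReal (N v/v³) = ∫⁻ v in Ioi 0, ofReal (v · N v/v³) = ∫⁻ v, ofReal (N v / v²)`. -/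

namespace Pool.Agent.RB75
open MeasureTheory Set Filter Topology

private theorem a9_lim {G : ℝ → ENNReal} {F : ℝ → ℝ} {L : ℝ}
    (hG : AEMeasurable G (volume.restrict (Ioi (0 : ℝ))))
    (hF : ∀ s, 0 < s → ∫⁻ v in Ioc 0 s, G v = ENNReal.ofReal (F s)) (hL : Tendsto F atTop (𝓝 L)) :
    ∫⁻ v in Ioi (0 : ℝ), G v = ENNReal.ofReal L := by
  have h1 : Tendsto (fun s => ∫⁻ v in Iic s, G v ∂(volume.restrict (Ioi (0 : ℝ)))) atTop
      (𝓝 (∫⁻ v, G v ∂(volume.restrict (Ioi (0 : ℝ))))) :=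
    (aecover_Iic tendsto_id).lintegral_tendsto_of_countably_generated hG
  have h2 : (fun s => ∫⁻ v in Iic s, G v ∂(volume.restrict (Ioi (0 : ℝ)))) =ᶠ[atTop]
      fun s => ENNReal.ofReal (F s) := by
    filter_upwards [eventually_gt_atTop (0 : ℝ)] with s hs
    rw [Measure.restrict_restrict measurableSet_Iic, ← hF s hs]
    congr 2
    ext x
    simp only [mem_inter_iff, mem_Iic, mem_Ioi, mem_Ioc]
    tauto
  have h3 : Tendsto (fun s => ENNReal.ofReal (F s)) atTop (𝓝 (ENNReal.ofReal L)) :=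
    (ENNReal.continuous_ofReal.tendsto L).comp hL
  exact tendsto_nhds_unique h1 (h3.congr' h2.symm)

private theorem a9_tonelli {G : ℝ → ENNReal}
    (hG : AEMeasurable G (volume.restrict (Ioi (0 : ℝ)))) :
    ∫⁻ s in Ioi (0 : ℝ), ∫⁻ v in Ioi s, G v =
      ∫⁻ v in Ioi (0 : ℝ), G v * ENNReal.ofReal v := by
  set S : Set (ℝ × ℝ) := {p | p.1 < p.2} with hS
  have hSm : MeasurableSet S := measurableSet_lt measurable_fst measurable_snd
  have hF : AEMeasurable (Function.uncurry fun s v => S.indicator (fun p => G p.2) (s, v))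
      ((volume.restrict (Ioi (0 : ℝ))).prod (volume.restrict (Ioi (0 : ℝ)))) := by
    have : (Function.uncurry fun s v => S.indicator (fun p => G p.2) (s, v)) =
        S.indicator (fun p => G p.2) := by
      ext ⟨a, b⟩
      rfl
    rw [this]
    exact (hG.comp_snd).indicator hSm
  have h1 : ∀ s ∈ Ioi (0 : ℝ), ∫⁻ v in Ioi s, G v =
      ∫⁻ v in Ioi (0 : ℝ), S.indicator (fun p => G p.2) (s, v) := by
    intro s hs
    have h2 : (fun v => S.indicator (fun p => G p.2) (s, v)) = (Ioi s).indicator G := by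
      ext v
      by_cases h : s < v
      · rw [indicator_of_mem (show (s, v) ∈ S from h), indicator_of_mem (mem_Ioi.mpr h)]
      · rw [indicator_of_notMem (show (s, v) ∉ S from h), indicator_of_notMem (by simpa using h)]
    rw [h2, lintegral_indicator measurableSet_Ioi, Measure.restrict_restrict measurableSet_Ioi]
    congr 2
    ext x
    simp only [mem_inter_iff, mem_Ioi]
    constructor
    · intro h
      exact ⟨h, lt_trans hs h⟩
    · exact fun h => h.1
  rw [setLIntegral_congr_fun measurableSet_Ioi h1, lintegral_lintegral_swap hF]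
  refine setLIntegral_congr_fun measurableSet_Ioi ?_
  intro v hv
  have h3 : (fun s => S.indicator (fun p => G p.2) (s, v)) = (Iio v).indicator (fun _ => G v) := by
    ext s
    by_cases h : s < v
    · rw [indicator_of_mem (show (s, v) ∈ S from h), indicator_of_mem (mem_Iio.mpr h)]
    · rw [indicator_of_notMem (show (s, v) ∉ S from h), indicator_of_notMem (by simpa using h)]
  simp only
  rw [h3, lintegral_indicator measurableSet_Iio, Measure.restrict_restrict measurableSet_Iio,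
    setLIntegral_const]
  congr 1
  have : Iio v ∩ Ioi 0 = Ioo 0 v := by
    ext x
    simp only [mem_inter_iff, mem_Iio, mem_Ioi, mem_Ioo]
    tauto
  rw [this, Real.volume_Ioo, sub_zero]

theorem A9 {H₁ ρ₁ N : ℝ → ℝ} {R₁ b₁ f : ℝ} (hP : Prof H₁ ρ₁ R₁ b₁) (hN : ∀ v, 0 < v → 0 ≤ N v)
    (hNm : MonotoneOn N (Ioi 0))
    (h : ∀ s, 0 < s → IntervalIntegrable (fun v => N v / v ^ 3) volume 0 s ∧
      ρ₁ s = f + ∫ v in (0 : ℝ)..s, N v / v ^ 3) :
    ∫⁻ v in Ioi (0 : ℝ), ENNReal.ofReal (N v / v ^ 3) = ENNReal.ofReal (R₁ - f) ∧ f ≤ R₁ ∧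
    ∫⁻ v in Ioi (0 : ℝ), ENNReal.ofReal (N v / v ^ 2) = ENNReal.ofReal (H₁ 0 - b₁) ∧ b₁ ≤ H₁ 0 ∧
    Tendsto ρ₁ (𝓝[>] 0) (𝓝 f) := by
  have hg0 : ∀ v ∈ Ioi (0 : ℝ), 0 ≤ N v / v ^ 3 := by
    intro v hv
    rw [mem_Ioi] at hv
    exact div_nonneg (hN v hv) (by positivity)
  have hNa : AEMeasurable N (volume.restrict (Ioi (0 : ℝ))) :=
    aemeasurable_restrict_of_monotoneOn measurableSet_Ioi hNm
  have hga : AEMeasurable (fun v => ENNReal.ofReal (N v / v ^ 3)) (volume.restrict (Ioi (0 : ℝ))) :=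
    (hNa.div (measurable_id.pow_const 3).aemeasurable).ennreal_ofReal
  have hI : ∀ s, 0 < s → ∫⁻ v in Ioc 0 s, ENNReal.ofReal (N v / v ^ 3) =
      ENNReal.ofReal (ρ₁ s - f) := by
    intro s hs
    obtain ⟨h1, h2⟩ := h s hs
    rw [h2, add_sub_cancel_left, intervalIntegral.integral_of_le hs.le,
      ofReal_integral_eq_lintegral_ofReal h1.1]
    filter_upwards [ae_restrict_mem measurableSet_Ioc] with v hv
    exact hg0 v hv.1
  have hnn : ∀ s, 0 < s → 0 ≤ ρ₁ s - f := by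
    intro s hs
    rw [(h s hs).2, add_sub_cancel_left]
    rw [intervalIntegral.integral_of_le hs.le]
    exact setIntegral_nonneg measurableSet_Ioc (fun v hv => hg0 v hv.1)
  have hlim1 : Tendsto (fun s => ρ₁ s - f) atTop (𝓝 (R₁ - f)) := hP.lim.sub_const f
  have hfR : 0 ≤ R₁ - f := by
    refine ge_of_tendsto hlim1 ?_
    filter_upwards [eventually_gt_atTop (0 : ℝ)] with s hs
    exact hnn s hs
  have hA := a9_lim hga hI hlim1
  have hρR : ∀ s, 0 < s → ρ₁ s ≤ R₁ := by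
    intro s hs
    refine ge_of_tendsto hP.lim ?_
    filter_upwards [eventually_ge_atTop s] with t ht
    exact hP.mono (mem_Ioi.mpr hs) (mem_Ioi.mpr (lt_of_lt_of_le hs ht)) ht
  have hρa : AEMeasurable ρ₁ (volume.restrict (Ioi (0 : ℝ))) :=
    aemeasurable_restrict_of_monotoneOn measurableSet_Ioi hP.mono
  have hρi : ∀ t, 0 < t → IntegrableOn ρ₁ (Ioc 0 t) := by
    intro t ht
    refine Integrable.of_bound (hρa.mono_set Ioc_subset_Ioi_self).aestronglyMeasurable R₁ ?_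
    · filter_upwards [ae_restrict_mem measurableSet_Ioc] with s hs
      rw [Real.norm_eq_abs, abs_of_nonneg (hP.nn s hs.1)]
      exact hρR s hs.1
  have hJ : ∀ t, 0 < t → ∫⁻ s in Ioc 0 t, ENNReal.ofReal (R₁ - ρ₁ s) =
      ENNReal.ofReal (H₁ 0 - (H₁ t - R₁ * t)) := by
    intro t ht
    have h0 : Integrable (fun _ : ℝ => R₁) (volume.restrict (Ioc 0 t)) :=
      integrableOn_const (by simp)
    have h1 : IntegrableOn (fun s => R₁ - ρ₁ s) (Ioc 0 t) := h0.sub (hρi t ht)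
    rw [← ofReal_integral_eq_lintegral_ofReal h1]
    · congr 1
      rw [integral_sub h0 (hρi t ht), setIntegral_const,
        hP.H_int t ht.le, intervalIntegral.integral_of_le ht.le]
      simp [ht.le]
      ring
    · filter_upwards [ae_restrict_mem measurableSet_Ioc] with s hs
      simp only [Pi.zero_apply, sub_nonneg]
      exact hρR s hs.1
  have hlim2 : Tendsto (fun t => H₁ 0 - (H₁ t - R₁ * t)) atTop (𝓝 (H₁ 0 - b₁)) :=
    hP.blim.const_sub (H₁ 0)
  have hB0 : 0 ≤ H₁ 0 - b₁ := by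
    refine ge_of_tendsto hlim2 ?_
    filter_upwards [eventually_gt_atTop (0 : ℝ)] with t ht
    rw [hP.H_int t ht.le]
    have h1 : ∫ s in (0 : ℝ)..t, ρ₁ s ≤ R₁ * t := by
      rw [intervalIntegral.integral_of_le ht.le]
      calc ∫ s in Ioc 0 t, ρ₁ s ≤ ∫ s in Ioc 0 t, R₁ :=
            setIntegral_mono_on (hρi t ht) (integrableOn_const (by simp)) measurableSet_Ioc
              (fun s hs => hρR s hs.1)
        _ = R₁ * t := by
            rw [setIntegral_const]
            simp [ht.le]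
            ring
    linarith
  have hB := a9_lim (G := fun s => ENNReal.ofReal (R₁ - ρ₁ s))
    ((aemeasurable_const.sub hρa).ennreal_ofReal) hJ hlim2
  have hC : ∀ s ∈ Ioi (0 : ℝ), ∫⁻ v in Ioi s, ENNReal.ofReal (N v / v ^ 3) =
      ENNReal.ofReal (R₁ - ρ₁ s) := by
    intro s hs
    rw [mem_Ioi] at hs
    have h1 : ∫⁻ v in Ioi (0 : ℝ), ENNReal.ofReal (N v / v ^ 3) =
        (∫⁻ v in Ioc 0 s, ENNReal.ofReal (N v / v ^ 3)) +
          ∫⁻ v in Ioi s, ENNReal.ofReal (N v / v ^ 3) := by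
      rw [← lintegral_union measurableSet_Ioi (Ioc_disjoint_Ioi le_rfl), Ioc_union_Ioi_eq_Ioi hs.le]
    rw [hA, hI s hs] at h1
    have h2 : ENNReal.ofReal (R₁ - f) = ENNReal.ofReal (ρ₁ s - f) + ENNReal.ofReal (R₁ - ρ₁ s) := by
      rw [← ENNReal.ofReal_add (hnn s hs) (sub_nonneg.mpr (hρR s hs))]
      congr 1
      ring
    rw [h2] at h1
    exact ((ENNReal.add_right_inj ENNReal.ofReal_ne_top).mp h1).symm
  have hD := a9_tonelli hga
  rw [setLIntegral_congr_fun measurableSet_Ioi hC, hB] at hD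
  refine ⟨hA, by linarith, ?_, by linarith, ?_⟩
  · rw [hD]
    refine setLIntegral_congr_fun measurableSet_Ioi ?_
    intro v hv
    rw [mem_Ioi] at hv
    simp only
    rw [← ENNReal.ofReal_mul (hg0 v hv)]
    congr 1
    field_simp
  · have h1 : IntervalIntegrable (fun v => N v / v ^ 3) volume 0 1 := (h 1 one_pos).1
    have h2 : ContinuousWithinAt (fun s => ∫ v in (0 : ℝ)..s, N v / v ^ 3) (Icc 0 1) 0 := by
      have := intervalIntegral.continuousOn_primitive_interval' h1 (left_mem_uIcc)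
      rw [uIcc_of_le zero_le_one] at this
      exact this 0 (left_mem_Icc.mpr zero_le_one)
    have h3 : Tendsto (fun s => ∫ v in (0 : ℝ)..s, N v / v ^ 3) (𝓝[>] 0) (𝓝 0) := by
      have h4 : Tendsto (fun s => ∫ v in (0 : ℝ)..s, N v / v ^ 3) (𝓝[Ioo 0 1] 0) (𝓝 0) := by
        have := h2.mono Ioo_subset_Icc_self
        simpa [ContinuousWithinAt] using this
      rwa [nhdsWithin_Ioo_eq_nhdsGT zero_lt_one] at h4
    have h5 : Tendsto (fun s => f + ∫ v in (0 : ℝ)..s, N v / v ^ 3) (𝓝[>] 0) (𝓝 f) := by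
      simpa using h3.const_add f
    refine h5.congr' ?_
    filter_upwards [self_mem_nhdsWithin] with s hs
    exact (h s hs).2.symm

end Pool.Agent.RB75
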