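import Pool.Agent.RB75.ADefs

/-! Module RB-H2c: the two explicit profiles. -/

namespace Pool.Agent.RB75
open MeasureTheory Set Filter Topology

theorem Prof_ell {R lam : ℝ} (hR : 0 < R) (hl : 0 < lam) :
    Prof (fun t => R * √(lam ^ 2 + t ^ 2)) (fun t => R * (t / √(lam ^ 2 + t ^ 2))) R 0 := by
  have hpos : ∀ t : ℝ, 0 < lam ^ 2 + t ^ 2 := fun t => by positivity
  have hs : ∀ t : ℝ, 0 < √(lam ^ 2 + t ^ 2) := fun t => Real.sqrt_pos.2 (hpos t)
  have hsq : ∀ t : ℝ, √(lam ^ 2 + t ^ 2) ^ 2 = lam ^ 2 + t ^ 2 := fun t => Real.sq_sqrt (hpos t).le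
  refine ⟨hR, le_rfl, ?_, ?_, ?_, ?_, ?_⟩
  · intro s hs0 t ht0 hst
    have hs0' : 0 < s := hs0
    have ht0' : 0 < t := ht0
    apply mul_le_mul_of_nonneg_left _ hR.le
    rw [div_le_div_iff₀ (hs s) (hs t)]
    apply le_of_sq_le_sq _ (by have := hs s; positivity)
    rw [mul_pow, mul_pow, hsq, hsq]
    have : s ^ 2 ≤ t ^ 2 := pow_le_pow_left₀ hs0'.le hst 2
    nlinarith [sq_nonneg lam, mul_le_mul_of_nonneg_right this (sq_nonneg lam)]
  · intro t ht
    have := hs t
    positivity
  · have h1 : Tendsto (fun t : ℝ => lam ^ 2 / t ^ 2) atTop (𝓝 0) :=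
      Tendsto.div_atTop tendsto_const_nhds (tendsto_pow_atTop (by norm_num))
    have h2 : Tendsto (fun t : ℝ => R * (1 / √(lam ^ 2 / t ^ 2 + 1))) atTop (𝓝 (R * (1 / √(0 + 1)))) := by
      apply Tendsto.const_mul
      apply Tendsto.div tendsto_const_nhds
      · exact (Real.continuous_sqrt.tendsto _).comp (h1.add_const 1)
      · simp
    have h3 : R * (1 / √(0 + 1)) = R := by simp
    rw [h3] at h2
    refine h2.congr' ?_
    filter_upwards [eventually_gt_atTop (0 : ℝ)] with t ht
    have h4 : √(lam ^ 2 + t ^ 2) = t * √(lam ^ 2 / t ^ 2 + 1) := by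
      rw [← Real.sqrt_sq ht.le, ← Real.sqrt_mul (sq_nonneg t)]
      congr 1
      rw [Real.sqrt_sq ht.le]
      field_simp
    have h5 : 0 < √(lam ^ 2 / t ^ 2 + 1) := Real.sqrt_pos.2 (by positivity)
    rw [h4]
    field_simp
  · intro t _
    have hd : ∀ x : ℝ, HasDerivAt (fun t => R * √(lam ^ 2 + t ^ 2)) (R * (x / √(lam ^ 2 + x ^ 2))) x := by
      intro x
      have h1 : HasDerivAt (fun t : ℝ => lam ^ 2 + t ^ 2) (2 * x) x := by
        simpa using (hasDerivAt_pow 2 x).const_add (lam ^ 2)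
      have h2 := (h1.sqrt (hpos x).ne').const_mul R
      refine h2.congr_deriv ?_
      have := hs x
      field_simp
    have hc : Continuous (fun x : ℝ => R * (x / √(lam ^ 2 + x ^ 2))) := by
      apply Continuous.mul continuous_const
      exact Continuous.div continuous_id (by fun_prop) (fun x => (hs x).ne')
    have := intervalIntegral.integral_eq_sub_of_hasDerivAt (a := 0) (b := t)
      (fun x _ => hd x) (hc.intervalIntegrable _ _)
    rw [this]; ring
  · have h1 : Tendsto (fun t : ℝ => R * (lam ^ 2 / (2 * t))) atTop (𝓝 (R * 0)) := by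
      apply Tendsto.const_mul
      exact Tendsto.div_atTop tendsto_const_nhds (tendsto_id.const_mul_atTop (by norm_num))
    rw [mul_zero] at h1
    refine tendsto_of_tendsto_of_tendsto_of_le_of_le' tendsto_const_nhds h1 ?_ ?_
    · filter_upwards [eventually_gt_atTop (0 : ℝ)] with t ht
      have : t ≤ √(lam ^ 2 + t ^ 2) := Real.le_sqrt_of_sq_le (by nlinarith [sq_nonneg lam])
      nlinarith
    · filter_upwards [eventually_gt_atTop (0 : ℝ)] with t ht
      have h2 : √(lam ^ 2 + t ^ 2) ≤ t + lam ^ 2 / (2 * t) := by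
        apply Real.sqrt_le_iff.2
        refine ⟨by positivity, ?_⟩
        have h3 : (t + lam ^ 2 / (2 * t)) ^ 2 = t ^ 2 + lam ^ 2 + (lam ^ 2 / (2 * t)) ^ 2 := by
          field_simp
          ring
        rw [h3]
        nlinarith [sq_nonneg (lam ^ 2 / (2 * t))]
      nlinarith

theorem Prof_cyl {R b : ℝ} (hR : 0 < R) (hb : 0 < b) : Prof (fun t => b + R * t) (fun _ => R) R b := by
  refine ⟨hR, hb.le, monotoneOn_const, fun _ _ => hR.le, tendsto_const_nhds, ?_, ?_⟩
  · intro t _
    simp only [intervalIntegral.integral_const, smul_eq_mul]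
    ring
  · simp

/-- `H t = b + R t` forces `ρ = R` on `(0,∞)` (`ρ ≤ R` monotone, `∫_0^t ρ = R t`). -/
theorem Prof.rho_const {H ρ : ℝ → ℝ} {R b : ℝ} (h : Prof H ρ R b) (hH : ∀ t, 0 ≤ t → H t = b + R * t) :
    ∀ t, 0 < t → ρ t = R := by
  intro t ht
  have hle : ρ t ≤ R := by
    apply ge_of_tendsto h.lim
    filter_upwards [eventually_ge_atTop t] with s hs
    exact h.mono ht (lt_of_lt_of_le ht hs) hs
  refine le_antisymm hle ?_
  have h0 := h.H_int t ht.le
  rw [hH t ht.le, hH 0 le_rfl] at h0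
  have hI : ∫ s in (0 : ℝ)..t, ρ s = R * t := by linarith
  have hRt : 0 < R * t := mul_pos h.Rpos ht
  have hint : IntervalIntegrable ρ volume 0 t := by
    by_contra hn
    rw [intervalIntegral.integral_undef hn] at hI
    linarith
  have h1 : ∫ s in (0 : ℝ)..t, ρ s ≤ ρ t * t := by
    have h2 : ∫ s in (0 : ℝ)..t, ρ s ≤ ∫ s in (0 : ℝ)..t, ρ t := by
      rw [intervalIntegral.integral_of_le ht.le, intervalIntegral.integral_of_le ht.le]
      apply setIntegral_mono_on
      · exact (intervalIntegrable_iff_integrableOn_Ioc_of_le ht.le).1 hint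
      · exact integrableOn_const (by simp)
      · exact measurableSet_Ioc
      · intro s hs
        exact h.mono hs.1 ht hs.2
    rw [intervalIntegral.integral_const, smul_eq_mul] at h2
    linarith
  rw [hI] at h1
  exact le_of_mul_le_mul_right h1 ht

end Pool.Agent.RB75
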