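import Mathlib

/-! Module RB-A11: the algebraic lemma which excludes incomplete faces.

`f = jκ f^j`, `f > 0`, `f ≤ R` and `R - f ≥ κ (R^j - f^j)`, `j ≥ 2`, `κ > 0` imply `R = f`.
Proof. `jκ f^{j-1} = 1`. If `R > f`, then `R^j - f^j > j f^{j-1}(R - f)` (Bernoulli, strict for `j ≥ 2`), so
`κ (R^j - f^j) > R - f`. -/

namespace Pool.Agent.RB75

private lemma a11_bernoulli {f R : ℝ} (hf : 0 < f) (hR : f < R) (k : ℕ) :
    f ^ (k + 2) + (k + 2) * f ^ (k + 1) * (R - f) < R ^ (k + 2) := by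
  induction k with
  | zero =>
    norm_num
    nlinarith [sq_pos_of_pos (sub_pos.2 hR)]
  | succ k ih =>
    have hRp : 0 < R := hf.trans hR
    have h1 : R * (f ^ (k + 2) + (k + 2) * f ^ (k + 1) * (R - f)) < R * R ^ (k + 2) :=
      mul_lt_mul_of_pos_left ih hRp
    have h2 : 0 ≤ (k + 2) * f ^ (k + 1) * (R - f) ^ 2 := by positivity
    have e1 : R * R ^ (k + 2) = R ^ (k + 1 + 2) := by ring
    have e2 : R * (f ^ (k + 2) + (k + 2) * f ^ (k + 1) * (R - f)) =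
        f ^ (k + 1 + 2) + ((k + 1 : ℕ) + 2) * f ^ (k + 1 + 1) * (R - f) +
          (k + 2) * f ^ (k + 1) * (R - f) ^ 2 := by
      push_cast
      ring
    rw [e1, e2] at h1
    linarith

theorem A11 {j : ℕ} (hj : 2 ≤ j) {κ f R : ℝ} (hκ : 0 < κ) (hf : 0 < f) (hfR : f ≤ R)
    (h1 : f = j * κ * f ^ j) (h2 : κ * (R ^ j - f ^ j) ≤ R - f) : R = f := by
  by_contra hne
  have hlt : f < R := lt_of_le_of_ne hfR (fun h => hne h.symm)
  obtain ⟨k, rfl⟩ := Nat.exists_eq_add_of_le' hj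
  have hb := a11_bernoulli hf hlt k
  push_cast at h1
  have h3 : ((k : ℝ) + 2) * κ * f ^ (k + 1) = 1 := by
    have : f * (((k : ℝ) + 2) * κ * f ^ (k + 1)) = f * 1 := by
      rw [mul_one]
      nth_rewrite 3 [h1]
      ring
    exact mul_left_cancel₀ hf.ne' this
  have h4 : κ * (((k : ℝ) + 2) * f ^ (k + 1) * (R - f)) < κ * (R ^ (k + 2) - f ^ (k + 2)) := by
    apply mul_lt_mul_of_pos_left _ hκ
    linarith
  have h5 : κ * (((k : ℝ) + 2) * f ^ (k + 1) * (R - f)) = R - f := by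
    calc κ * (((k : ℝ) + 2) * f ^ (k + 1) * (R - f))
        = (((k : ℝ) + 2) * κ * f ^ (k + 1)) * (R - f) := by ring
      _ = R - f := by rw [h3, one_mul]
  linarith

end Pool.Agent.RB75
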