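import Pool.Agent.RB75.B0

/-! Module RB-A12: `F(τ₂) - F(τ₁) = ∫ mm/τ³` when `ρ(s) = ∫_0^s N v/v³ dv`, `N ≥ 0` nondecreasing (maybe with jumps).

Proof. `r(v) = N v/v³`. `N` is continuous off a countable set; there `ρ` has derivative `r(τ)`, so `FF j l ρ` has
derivative `mm/τ³` (`sg_hasDerivAt`; `1/√(1+τ²)^3 = (sg τ/τ)^3`), `FF` is continuous on `[τ₁,τ₂]`, and `mm/τ³` is
interval integrable (monotone times continuous): use
`MeasureTheory.integral_eq_of_hasDerivAt_off_countable` (or the `intervalIntegral` version). -/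

namespace Pool.Agent.RB75
open MeasureTheory Set Filter Topology

theorem A12_deriv (j l : ℕ) {ρ r : ℝ → ℝ} {τ : ℝ} (hτ : 0 < τ) (hd : HasDerivAt ρ (r τ) τ) :
    HasDerivAt (FF j l ρ) (mm j l ρ r τ / τ ^ 3) τ := by
  have h1 := (hd.pow j).mul ((sg_hasDerivAt τ).pow l)
  have h2 : HasDerivAt (FF j l ρ) (↑j * ρ τ ^ (j - 1) * r τ * sg τ ^ l +
      ρ τ ^ j * (↑l * sg τ ^ (l - 1) * (1 / √(1 + τ ^ 2) ^ 3))) τ := h1
  convert h2 using 1
  unfold mm
  have h3 : 1 / √(1 + τ ^ 2) ^ 3 = sg τ ^ 3 / τ ^ 3 := by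
    unfold sg
    rw [div_pow]
    have : τ ^ 3 ≠ 0 := by positivity
    field_simp
  rw [h3]
  rcases Nat.eq_zero_or_pos l with hl | hl
  · subst hl
    have : τ ^ 3 ≠ 0 := by positivity
    field_simp
    simp
  · obtain ⟨k, rfl⟩ : ∃ k, l = k + 1 := ⟨l - 1, by omega⟩
    have : τ ^ 3 ≠ 0 := by positivity
    have e : k + 1 - 1 = k := by omega
    rw [e]
    field_simp
    ring

theorem A12 {j l : ℕ} (hj : 1 ≤ j) {ρ N : ℝ → ℝ} (hN : ∀ v, 0 < v → 0 ≤ N v) (hNm : MonotoneOn N (Ioi 0))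
    (hint : ∀ s, 0 < s → IntervalIntegrable (fun v => N v / v ^ 3) volume 0 s)
    (hρ : ∀ s, 0 < s → ρ s = ∫ v in (0 : ℝ)..s, N v / v ^ 3) {τ₁ τ₂ : ℝ} (h1 : 0 < τ₁) (h2 : τ₁ ≤ τ₂) :
    IntervalIntegrable (fun τ => mm j l ρ (fun v => N v / v ^ 3) τ / τ ^ 3) volume τ₁ τ₂ ∧
    ∫ τ in τ₁..τ₂, mm j l ρ (fun v => N v / v ^ 3) τ / τ ^ 3 = FF j l ρ τ₂ - FF j l ρ τ₁ := by
  have h02 : 0 < τ₂ := lt_of_lt_of_le h1 h2
  have hr : ∀ v, 0 < v → 0 ≤ N v / v ^ 3 := fun v hv => div_nonneg (hN v hv) (by positivity)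
  have hρn : ∀ t, 0 < t → 0 ≤ ρ t := by
    intro t ht
    rw [hρ t ht]
    refine intervalIntegral.integral_nonneg_of_ae_restrict ht.le ?_
    have : ∀ᵐ u : ℝ, u ≠ 0 := by
      simp [ae_iff, measure_singleton]
    refine (ae_restrict_iff' measurableSet_Icc).mpr ?_
    filter_upwards [this] with u hu hu2
    exact hr u (lt_of_le_of_ne hu2.1 (Ne.symm hu))
  have hρm : MonotoneOn ρ (Ioi 0) := by
    intro s hs t ht hst
    have hs0 : (0 : ℝ) < s := hs
    have ht0 : (0 : ℝ) < t := ht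
    rw [hρ s hs0, hρ t ht0]
    have e := intervalIntegral.integral_add_adjacent_intervals (hint s hs0)
      ((hint s hs0).symm.trans (hint t ht0))
    rw [← e]
    have : 0 ≤ ∫ x in s..t, N x / x ^ 3 :=
      intervalIntegral.integral_nonneg hst fun u hu => hr u (lt_of_lt_of_le hs0 hu.1)
    linarith
  have hmN : MonotoneOn (fun t : ℝ => t ^ 3 * (fun v => N v / v ^ 3) t) (Ioi 0) := by
    intro s hs t ht hst
    have hs0 : (0 : ℝ) < s := hs
    have ht0 : (0 : ℝ) < t := ht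
    have e1 : s ^ 3 * (N s / s ^ 3) = N s := by
      field_simp
    have e2 : t ^ 3 * (N t / t ^ 3) = N t := by
      field_simp
    simp only [e1, e2]
    exact hNm hs ht hst
  have hmm := mm_mono j l hρn hρm hr hmN
  have hsub : uIcc τ₁ τ₂ ⊆ Ioi 0 := by
    rw [uIcc_of_le h2]
    intro x hx
    exact lt_of_lt_of_le h1 hx.1
  have hInt : IntervalIntegrable (fun τ => mm j l ρ (fun v => N v / v ^ 3) τ / τ ^ 3) volume τ₁ τ₂ := by
    have a1 : IntervalIntegrable (mm j l ρ (fun v => N v / v ^ 3)) volume τ₁ τ₂ :=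
      (hmm.mono hsub).intervalIntegrable
    have a2 : ContinuousOn (fun τ : ℝ => (τ ^ 3)⁻¹) (uIcc τ₁ τ₂) := by
      refine ContinuousOn.inv₀ (by fun_prop) fun x hx => ?_
      have : (0 : ℝ) < x := hsub hx
      positivity
    have a3 := a1.mul_continuousOn a2
    simpa only [div_eq_mul_inv] using a3
  refine ⟨hInt, ?_⟩
  have hcount := hNm.countable_not_continuousWithinAt
  have hρc : ContinuousOn ρ (uIcc τ₁ τ₂) := by
    have b1 := intervalIntegral.continuousOn_primitive_interval' (hint τ₂ h02)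
      (left_mem_uIcc : (0 : ℝ) ∈ uIcc 0 τ₂)
    have b2 : uIcc τ₁ τ₂ ⊆ uIcc 0 τ₂ := by
      rw [uIcc_of_le h2, uIcc_of_le h02.le]
      exact Icc_subset_Icc_left h1.le
    refine (b1.mono b2).congr fun x hx => hρ x (hsub hx)
  refine integral_eq_of_hasDerivAt_off_countable (FF j l ρ)
    (fun τ => mm j l ρ (fun v => N v / v ^ 3) τ / τ ^ 3) hcount ?_ ?_ hInt
  · unfold FF
    exact (hρc.pow j).mul ((sg_continuous.continuousOn).pow l)
  · intro x hx
    rw [min_eq_left h2, max_eq_right h2] at hx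
    have hx0 : 0 < x := lt_trans h1 hx.1.1
    have hNc : ContinuousAt N x := by
      by_contra hcon
      apply hx.2
      refine ⟨hx0, fun h => hcon (h.continuousAt (Ioi_mem_nhds hx0))⟩
    have hrc : ContinuousAt (fun v => N v / v ^ 3) x :=
      hNc.div (by fun_prop) (by positivity)
    have hd : HasDerivAt (fun u => ∫ v in (0 : ℝ)..u, N v / v ^ 3) (N x / x ^ 3) x := by
      refine intervalIntegral.integral_hasDerivAt_right (hint x hx0) ?_ hrc
      refine ⟨Ioc 0 (x + 1), Ioc_mem_nhds hx0 (by linarith), ?_⟩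
      have := (hint (x + 1) (by linarith)).aestronglyMeasurable
      simpa [uIoc_of_le (by linarith : (0 : ℝ) ≤ x + 1)] using this
    have hd2 : HasDerivAt ρ (N x / x ^ 3) x := by
      refine hd.congr_of_eventuallyEq ?_
      filter_upwards [Ioi_mem_nhds hx0] with u hu
      exact hρ u hu
    exact A12_deriv j l (r := fun v => N v / v ^ 3) hx0 hd2

end Pool.Agent.RB75
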