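import Pool.Agent.RB75.ADefs
import Pool.Agent.RB75.A12
import Pool.Agent.RB75.A10

/-! Module RB-A13: `Rep` with a density.

`r(v) = N v/v³`, `g(y) = mm j l ρ r (1/y) ≥ 0` (antitone on `(0,∞)`), `μ' = withDensity (y g(y))` on `(0,∞)`.
`μ'(Ioc 0 x) = ∫_0^x y g(y) dy = ∫_{1/x}^∞ mm(τ)/τ³ dτ = R^j - FF(1/x) = Phi x` (substitution `τ = 1/y`, A12 on
`[1/x, T]` and `T → ∞`: `FF(T) → R^j`; the integrand is `≥ 0`).
`N'(v) = C (m+2) ∫_0^v y² √(1-y²/v²)^m g(y) dy` (finite: `≤ C (m+2) v ∫_0^v y g = C (m+2) v Phi(v)`).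
`Rep.N_eq` is then `lintegral_withDensity`; `N'` is monotone since domain and kernel grow with `v`. -/

namespace Pool.Agent.RB75
open MeasureTheory Set Filter Topology

/-- the part of A13 on the half line `(a, ∞)` -/
private theorem a13_tail {j l : ℕ} {H ρ r : ℝ → ℝ} {R b : ℝ} (hP : Prof H ρ R b)
    (hM : ∀ τ, 0 < τ → 0 ≤ mm j l ρ r τ)
    (hA : ∀ τ₁ τ₂, 0 < τ₁ → τ₁ ≤ τ₂ → IntervalIntegrable (fun τ => mm j l ρ r τ / τ ^ 3) volume τ₁ τ₂ ∧
      ∫ τ in τ₁..τ₂, mm j l ρ r τ / τ ^ 3 = FF j l ρ τ₂ - FF j l ρ τ₁) {a : ℝ} (ha : 0 < a) :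
    ∫⁻ τ in Ioi a, ENNReal.ofReal (mm j l ρ r τ / τ ^ 3) = ENNReal.ofReal (R ^ j - FF j l ρ a) := by
  set f : ℝ → ℝ := fun τ => mm j l ρ r τ / τ ^ 3 with hf
  have f0 : ∀ τ, 0 < τ → 0 ≤ f τ := fun τ h => div_nonneg (hM τ h) (by positivity)
  have hFF : Tendsto (FF j l ρ) atTop (𝓝 (R ^ j)) := by
    have h1 := (hP.lim.pow j).mul (sg_tendsto_atTop.pow l)
    rw [one_pow, mul_one] at h1
    exact h1
  have hb : Tendsto (fun n : ℕ => a + n) atTop atTop :=
    tendsto_atTop_add_const_left _ _ tendsto_natCast_atTop_atTop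
  have han : ∀ n : ℕ, a ≤ a + n := fun n => by
    have : (0 : ℝ) ≤ n := Nat.cast_nonneg n
    linarith
  have h1 : ∀ n : ℕ, IntegrableOn f (Ioc a (a + n)) := fun n =>
    (intervalIntegrable_iff_integrableOn_Ioc_of_le (han n)).1 (hA a (a + n) ha (han n)).1
  have h2 : Tendsto (fun n : ℕ => ∫ x in a..(a + n), f x) atTop (𝓝 (R ^ j - FF j l ρ a)) := by
    have := (hFF.comp hb).sub_const (FF j l ρ a)
    refine this.congr fun n => ?_
    exact ((hA a (a + n) ha (han n)).2).symm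
  have h3 : Tendsto (fun n : ℕ => ∫ x in a..(a + n), ‖f x‖) atTop (𝓝 (R ^ j - FF j l ρ a)) := by
    refine h2.congr fun n => ?_
    apply intervalIntegral.integral_congr
    intro x hx
    rw [uIcc_of_le (han n)] at hx
    show f x = ‖f x‖
    rw [Real.norm_of_nonneg (f0 x (lt_of_lt_of_le ha hx.1))]
  have h4 : IntegrableOn f (Ioi a) :=
    integrableOn_Ioi_of_intervalIntegral_norm_tendsto _ _ h1 hb h3
  have h5 := tendsto_nhds_unique (intervalIntegral_tendsto_integral_Ioi a h4 hb) h2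
  rw [← h5, ofReal_integral_eq_lintegral_ofReal h4]
  filter_upwards [self_mem_ae_restrict measurableSet_Ioi] with x hx
  exact f0 x (lt_trans ha hx)

/-- substitution `τ = 1 / y` -/
private theorem a13_head {M : ℝ → ℝ} {x : ℝ} (hx : 0 < x) :
    ∫⁻ y in Ioc 0 x, ENNReal.ofReal (y * M (1 / y)) =
      ∫⁻ τ in Ioi (1 / x), ENNReal.ofReal (M τ / τ ^ 3) := by
  have himg : (fun y : ℝ => 1 / y) '' (Ioo 0 x) = Ioi (1 / x) := by
    ext τ
    constructor
    · rintro ⟨y, hy, rfl⟩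
      exact one_div_lt_one_div_of_lt hy.1 hy.2
    · intro hτ
      have h1 : 0 < 1 / x := by positivity
      have h2 : 0 < τ := lt_trans h1 hτ
      refine ⟨1 / τ, ⟨by positivity, ?_⟩, by simp⟩
      have := one_div_lt_one_div_of_lt h1 hτ
      rwa [one_div_one_div] at this
  rw [setLIntegral_congr (Ioo_ae_eq_Ioc (a := (0 : ℝ)) (b := x)).symm, ← himg,
    lintegral_image_eq_lintegral_abs_deriv_mul (f' := fun y => -(y ^ 2)⁻¹) measurableSet_Ioo]
  · apply setLIntegral_congr_fun measurableSet_Ioo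
    intro y hy
    have hy0 : 0 < y := hy.1
    show ENNReal.ofReal (y * M (1 / y)) =
      ENNReal.ofReal |-(y ^ 2)⁻¹| * ENNReal.ofReal (M (1 / y) / (1 / y) ^ 3)
    rw [← ENNReal.ofReal_mul (abs_nonneg _), abs_neg, abs_of_pos (by positivity)]
    congr 1
    field_simp
  · intro y hy
    have hy0 : y ≠ 0 := ne_of_gt hy.1
    have := (hasDerivAt_inv hy0).hasDerivWithinAt (s := Ioo 0 x)
    simpa only [one_div] using this
  · intro y _ z _ h
    simpa using h

theorem A13 {m j l : ℕ} (hj : 1 ≤ j) {C : ℝ} (hC : 0 < C) {H ρ N : ℝ → ℝ} {R b : ℝ} (hP : Prof H ρ R b)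
    (hN : ∀ v, 0 < v → 0 ≤ N v) (hNm : MonotoneOn N (Ioi 0))
    (hint : ∀ s, 0 < s → IntervalIntegrable (fun v => N v / v ^ 3) volume 0 s)
    (hρ : ∀ s, 0 < s → ρ s = ∫ v in (0 : ℝ)..s, N v / v ^ 3) :
    (∀ v, 0 < v → IntervalIntegrable (fun y => y ^ 2 * √(1 - y ^ 2 / v ^ 2) ^ m *
      mm j l ρ (fun v => N v / v ^ 3) (1 / y)) volume 0 v) ∧
    ∃ μ', Rep m C (Phi j l ρ R) μ' (fun v => C * ((m : ℝ) + 2) *
      ∫ y in (0 : ℝ)..v, y ^ 2 * √(1 - y ^ 2 / v ^ 2) ^ m * mm j l ρ (fun v => N v / v ^ 3) (1 / y)) := by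
  set r : ℝ → ℝ := fun v => N v / v ^ 3 with hr
  set M : ℝ → ℝ := mm j l ρ r with hMdef
  have hr0 : ∀ t, 0 < t → 0 ≤ r t := fun t ht => div_nonneg (hN t ht) (by positivity)
  have hr3 : MonotoneOn (fun t => t ^ 3 * r t) (Ioi 0) := by
    refine hNm.congr ?_
    intro t ht
    have h0 : t ≠ 0 := ne_of_gt ht
    show N t = t ^ 3 * (N t / t ^ 3)
    field_simp
  have gA : AntitoneOn (fun y => M (1 / y)) (Ioi 0) := mm_inv_anti j l hP.nn hP.mono hr0 hr3
  have hM : ∀ τ, 0 < τ → 0 ≤ M τ := fun τ h => mm_nonneg j l h (hP.nn τ h) (hr0 τ h)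
  have g0 : ∀ y, 0 < y → 0 ≤ M (1 / y) := fun y hy => hM _ (by positivity)
  have gM : AEMeasurable (fun y => M (1 / y)) (volume.restrict (Ioi 0)) :=
    aemeasurable_restrict_of_antitoneOn measurableSet_Ioi gA
  have yM : AEMeasurable (fun y => y * M (1 / y)) (volume.restrict (Ioi 0)) :=
    measurable_id.aemeasurable.mul gM
  have sub : ∀ v : ℝ, Ioc 0 v ⊆ Ioi 0 := fun v y hy => hy.1
  -- the measure of `(0, x]`
  have key : ∀ x, 0 < x → ∫⁻ y in Ioc 0 x, ENNReal.ofReal (y * M (1 / y)) =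
      ENNReal.ofReal (Phi j l ρ R x) := by
    intro x hx
    rw [a13_head hx]
    exact a13_tail hP hM (fun τ₁ τ₂ h1 h2 => A12 hj hN hNm hint hρ h1 h2) (by positivity)
  have ypos : ∀ v : ℝ, ∀ᵐ y ∂(volume.restrict (Ioc 0 v)), 0 ≤ y * M (1 / y) := by
    intro v
    filter_upwards [self_mem_ae_restrict measurableSet_Ioc] with y hy
    exact mul_nonneg hy.1.le (g0 y hy.1)
  have yI : ∀ v, 0 < v → IntegrableOn (fun y => y * M (1 / y)) (Ioc 0 v) := by
    intro v hv
    have hm : AEMeasurable (fun y => y * M (1 / y)) (volume.restrict (Ioc 0 v)) :=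
      yM.mono_measure (Measure.restrict_mono (sub v) le_rfl)
    refine ⟨hm.aestronglyMeasurable, ?_⟩
    rw [hasFiniteIntegral_iff_ofReal (ypos v), key v hv]
    exact ENNReal.ofReal_lt_top
  have ker0 : ∀ (v y : ℝ), 0 ≤ √(1 - y ^ 2 / v ^ 2) ^ m := fun v y => by positivity
  have ker1 : ∀ (v y : ℝ), √(1 - y ^ 2 / v ^ 2) ^ m ≤ 1 := fun v y => by
    apply pow_le_one₀ (Real.sqrt_nonneg _)
    rw [Real.sqrt_le_one]
    have : 0 ≤ y ^ 2 / v ^ 2 := by positivity
    linarith
  have cont : ∀ v : ℝ, Continuous (fun y : ℝ => √(1 - y ^ 2 / v ^ 2) ^ m) := fun v => by fun_prop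
  have I1 : ∀ v w, 0 < w → IntegrableOn (fun y => y ^ 2 * √(1 - y ^ 2 / v ^ 2) ^ m *
      M (1 / y)) (Ioc 0 w) := by
    intro v w hw
    have hm : AEMeasurable (fun y => y ^ 2 * √(1 - y ^ 2 / v ^ 2) ^ m * M (1 / y))
        (volume.restrict (Ioc 0 w)) := by
      have h1 : AEMeasurable (fun y => M (1 / y)) (volume.restrict (Ioc 0 w)) :=
        gM.mono_measure (Measure.restrict_mono (sub w) le_rfl)
      have h2 : Continuous (fun y : ℝ => y ^ 2 * √(1 - y ^ 2 / v ^ 2) ^ m) := by fun_prop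
      exact h2.measurable.aemeasurable.mul h1
    refine Integrable.mono' ((yI w hw).const_mul w) hm.aestronglyMeasurable ?_
    filter_upwards [self_mem_ae_restrict measurableSet_Ioc] with y hy
    have hy0 := hy.1
    have hgy := g0 y hy0
    rw [Real.norm_of_nonneg (by have := ker0 v y; positivity)]
    calc y ^ 2 * √(1 - y ^ 2 / v ^ 2) ^ m * M (1 / y) ≤ y ^ 2 * 1 * M (1 / y) := by
          have := ker1 v y
          gcongr
      _ = y * (y * M (1 / y)) := by ring
      _ ≤ w * (y * M (1 / y)) := by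
          have := hy.2
          gcongr
  have I2 : ∀ v, 0 < v → IntervalIntegrable (fun y => y ^ 2 * √(1 - y ^ 2 / v ^ 2) ^ m *
      M (1 / y)) volume 0 v := fun v hv =>
    (intervalIntegrable_iff_integrableOn_Ioc_of_le hv.le).2 (I1 v v hv)
  refine ⟨I2, (volume.restrict (Ioi 0)).withDensity (fun y => ENNReal.ofReal (y * M (1 / y))), ?_⟩
  have hcm : 0 ≤ C * ((m : ℝ) + 2) := by positivity
  have nn0 : ∀ v w, 0 < w → 0 ≤ ∫ y in (0 : ℝ)..w, y ^ 2 * √(1 - y ^ 2 / v ^ 2) ^ m * M (1 / y) := by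
    intro v w hw
    rw [intervalIntegral.integral_of_le hw.le]
    apply setIntegral_nonneg measurableSet_Ioc
    intro y hy
    have hy0 := hy.1
    have hgy := g0 y hy0
    have := ker0 v y
    positivity
  refine ⟨inferInstance, ?_, ?_, ?_, ?_, ?_⟩
  · rw [withDensity_apply _ measurableSet_Iic, Measure.restrict_restrict measurableSet_Iic]
    have : Iic (0 : ℝ) ∩ Ioi 0 = ∅ := by
      ext y
      simp
    rw [this]
    simp
  · filter_upwards [self_mem_ae_restrict measurableSet_Ioi] with x hx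
    rw [withDensity_apply _ measurableSet_Ioc, Measure.restrict_restrict measurableSet_Ioc,
      inter_eq_self_of_subset_left (sub x)]
    exact key x hx
  · intro v hv
    rw [restrict_withDensity measurableSet_Ioc, Measure.restrict_restrict measurableSet_Ioc,
      inter_eq_self_of_subset_left (sub v), lintegral_withDensity_eq_lintegral_mul₀]
    · rw [ENNReal.ofReal_mul hcm, intervalIntegral.integral_of_le hv.le,
        ofReal_integral_eq_lintegral_ofReal (I1 v v hv)]
      · congr 1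
        apply setLIntegral_congr_fun measurableSet_Ioc
        intro y hy
        have hy0 := hy.1
        have hgy := g0 y hy0
        show ENNReal.ofReal _ = ENNReal.ofReal _ * ENNReal.ofReal _
        rw [← ENNReal.ofReal_mul (by positivity)]
        congr 1
        ring
      · filter_upwards [self_mem_ae_restrict measurableSet_Ioc] with y hy
        have hy0 := hy.1
        have hgy := g0 y hy0
        have := ker0 v y
        show (0 : ℝ) ≤ _
        positivity
    · exact (yM.mono_measure (Measure.restrict_mono (sub v) le_rfl)).ennreal_ofReal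
    · have h2 : Continuous (fun y : ℝ => y * √(1 - y ^ 2 / v ^ 2) ^ m) := by fun_prop
      exact h2.measurable.aemeasurable.ennreal_ofReal
  · intro v hv
    exact mul_nonneg hcm (nn0 v v hv)
  · intro v hv w hw hvw
    have hv0 : (0 : ℝ) < v := hv
    have hw0 : (0 : ℝ) < w := hw
    apply mul_le_mul_of_nonneg_left _ hcm
    rw [intervalIntegral.integral_of_le hv0.le, intervalIntegral.integral_of_le hw0.le]
    calc ∫ y in Ioc 0 v, y ^ 2 * √(1 - y ^ 2 / v ^ 2) ^ m * M (1 / y) ≤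
        ∫ y in Ioc 0 v, y ^ 2 * √(1 - y ^ 2 / w ^ 2) ^ m * M (1 / y) := by
          apply setIntegral_mono_on (I1 v v hv0) (I1 w v hv0) measurableSet_Ioc
          intro y hy
          have hy0 := hy.1
          have hgy := g0 y hy0
          gcongr
      _ ≤ ∫ y in Ioc 0 w, y ^ 2 * √(1 - y ^ 2 / w ^ 2) ^ m * M (1 / y) := by
          apply setIntegral_mono_set (I1 w w hw0)
          · filter_upwards [self_mem_ae_restrict measurableSet_Ioc] with y hy
            have hy0 := hy.1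
            have hgy := g0 y hy0
            have := ker0 w y
            show (0 : ℝ) ≤ _
            positivity
          · exact (Ioc_subset_Ioc_right hvw).eventuallyLE

end Pool.Agent.RB75
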