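import Pool.Agent.RB75.ADefs
import Pool.Agent.RB75.B0

/-! Module RB-A14: the monotone function `N₁` equals the continuous `N₁'`; the `Step` relation.

`r₀(v) = N₀ v/v³`, `g(y) = mm j l ρ₀ r₀ (1/y)` antitone `≥ 0`,
`N₁'(v) = C (m+2) ∫_0^v y² √(1-y²/v²)^m g(y) dy = C (m+2) v³ ∫_0^1 z² √(1-z²)^m g(v z) dz`.
`N₁'` is nondecreasing (`hmono`) and `N₁'(v)/v³` is nonincreasing (second formula), so `N₁'` is continuous.
`∫_s^t N₁/v³ = ρ₁(t)-ρ₁(s) = ∫_s^t N₁'/v³` for all `0 < s < t`, so `N₁ s ≤ N₁' t` and `N₁' s ≤ N₁ t` for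
`0 < s < t`; let `t → s+` and `s → t-`. So `N₁ = N₁'` on `(0,∞)` and
`r₁(v) = N₁ v/v³ = C (m+2) ∫_0^1 z² √(1-z²)^m mm j l ρ₀ r₀ (1/(v z)) dz`. -/

namespace Pool.Agent.RB75
open MeasureTheory Set Filter Topology

/-- Two monotone functions with the same weighted integrals interlace. -/
theorem A14_interlace {A B : ℝ → ℝ} (hA : MonotoneOn A (Ioi 0)) (hB : MonotoneOn B (Ioi 0))
    (hAi : ∀ s, 0 < s → IntervalIntegrable (fun v => A v / v ^ 3) volume 0 s)
    (hBi : ∀ s, 0 < s → IntervalIntegrable (fun v => B v / v ^ 3) volume 0 s)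
    (heq : ∀ s, 0 < s → ∫ v in (0 : ℝ)..s, A v / v ^ 3 = ∫ v in (0 : ℝ)..s, B v / v ^ 3)
    {s t : ℝ} (hs : 0 < s) (hst : s < t) : A s ≤ B t := by
  by_contra hcon
  push Not at hcon
  have ht : 0 < t := hs.trans hst
  have hAst : IntervalIntegrable (fun v => A v / v ^ 3) volume s t := (hAi s hs).symm.trans (hAi t ht)
  have hBst : IntervalIntegrable (fun v => B v / v ^ 3) volume s t := (hBi s hs).symm.trans (hBi t ht)
  have e1 : ∫ v in s..t, A v / v ^ 3 = ∫ v in s..t, B v / v ^ 3 := by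
    rw [← intervalIntegral.integral_interval_sub_left (hAi t ht) (hAi s hs),
      ← intervalIntegral.integral_interval_sub_left (hBi t ht) (hBi s hs), heq s hs, heq t ht]
  have e2 : ∫ v in s..t, (A v / v ^ 3 - B v / v ^ 3) = 0 := by
    rw [intervalIntegral.integral_sub hAst hBst, e1, sub_self]
  have e3 : ∫ _v in s..t, (A s - B t) / t ^ 3 ≤ ∫ v in s..t, (A v / v ^ 3 - B v / v ^ 3) := by
    apply intervalIntegral.integral_mono_on hst.le _root_.intervalIntegrable_const (hAst.sub hBst)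
    intro v hv
    have hv0 : 0 < v := lt_of_lt_of_le hs hv.1
    have a1 : A s ≤ A v := hA hs hv0 hv.1
    have a2 : B v ≤ B t := hB hv0 ht hv.2
    rw [← sub_div]
    have a3 : v ^ 3 ≤ t ^ 3 := pow_le_pow_left₀ hv0.le hv.2 3
    have a4 : 0 < v ^ 3 := by positivity
    calc (A s - B t) / t ^ 3 ≤ (A s - B t) / v ^ 3 :=
          div_le_div_of_nonneg_left (by linarith) a4 a3
      _ ≤ (A v - B v) / v ^ 3 := by
          apply div_le_div_of_nonneg_right _ a4.le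
          linarith
  rw [e2, intervalIntegral.integral_const, smul_eq_mul] at e3
  have : 0 < (t - s) * ((A s - B t) / t ^ 3) := by
    apply mul_pos (by linarith)
    apply div_pos (by linarith) (by positivity)
  linarith

theorem A14 {m j l : ℕ} {C : ℝ} (hC : 0 < C) {ρ₀ N₀ ρ₁ N₁ : ℝ → ℝ}
    (h0 : ∀ t, 0 < t → 0 ≤ ρ₀ t) (hm0 : MonotoneOn ρ₀ (Ioi 0))
    (hN0 : ∀ v, 0 < v → 0 ≤ N₀ v) (hNm0 : MonotoneOn N₀ (Ioi 0))
    (hN1 : ∀ v, 0 < v → 0 ≤ N₁ v) (hNm1 : MonotoneOn N₁ (Ioi 0))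
    (hint : ∀ v, 0 < v → IntervalIntegrable (fun y => y ^ 2 * √(1 - y ^ 2 / v ^ 2) ^ m *
      mm j l ρ₀ (fun v => N₀ v / v ^ 3) (1 / y)) volume 0 v)
    (hmono : MonotoneOn (fun v => C * ((m : ℝ) + 2) *
      ∫ y in (0 : ℝ)..v, y ^ 2 * √(1 - y ^ 2 / v ^ 2) ^ m * mm j l ρ₀ (fun v => N₀ v / v ^ 3) (1 / y)) (Ioi 0))
    (h1 : ∀ s, 0 < s → IntervalIntegrable (fun v => N₁ v / v ^ 3) volume 0 s ∧
      ρ₁ s = ∫ v in (0 : ℝ)..s, N₁ v / v ^ 3)
    (h1' : ∀ s, 0 < s → IntervalIntegrable (fun v => (C * ((m : ℝ) + 2) *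
      ∫ y in (0 : ℝ)..v, y ^ 2 * √(1 - y ^ 2 / v ^ 2) ^ m * mm j l ρ₀ (fun v => N₀ v / v ^ 3) (1 / y)) / v ^ 3)
        volume 0 s ∧
      ρ₁ s = ∫ v in (0 : ℝ)..s, (C * ((m : ℝ) + 2) *
      ∫ y in (0 : ℝ)..v, y ^ 2 * √(1 - y ^ 2 / v ^ 2) ^ m * mm j l ρ₀ (fun v => N₀ v / v ^ 3) (1 / y)) / v ^ 3) :
    Step m j l (C * ((m : ℝ) + 2)) ρ₀ (fun v => N₀ v / v ^ 3) (fun v => N₁ v / v ^ 3) := by
  set D : ℝ := C * ((m : ℝ) + 2) with hD
  have hD0 : 0 < D := by positivity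
  set g : ℝ → ℝ := fun y => mm j l ρ₀ (fun v => N₀ v / v ^ 3) (1 / y) with hg
  set N : ℝ → ℝ := fun v => D * ∫ y in (0 : ℝ)..v, y ^ 2 * √(1 - y ^ 2 / v ^ 2) ^ m * g y with hN
  -- `g` is antitone
  have hga : AntitoneOn g (Ioi 0) := by
    apply mm_inv_anti j l h0 hm0
    · intro t ht
      exact div_nonneg (hN0 t ht) (by positivity)
    · intro a ha b hb hab
      have ha' : (0 : ℝ) < a := ha
      have hb' : (0 : ℝ) < b := hb
      have e1 : a ^ 3 * (N₀ a / a ^ 3) = N₀ a := by field_simp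
      have e2 : b ^ 3 * (N₀ b / b ^ 3) = N₀ b := by field_simp
      show a ^ 3 * (N₀ a / a ^ 3) ≤ b ^ 3 * (N₀ b / b ^ 3)
      rw [e1, e2]
      exact hNm0 ha hb hab
  -- the substitution
  have hsub : ∀ t, 0 < t → ∀ z, (t * z) ^ 2 * √(1 - (t * z) ^ 2 / t ^ 2) ^ m * g (t * z) =
      t ^ 2 * (z ^ 2 * √(1 - z ^ 2) ^ m * g (t * z)) := by
    intro t ht z
    have : (t * z) ^ 2 / t ^ 2 = z ^ 2 := by field_simp
    rw [this]; ring
  have hint1 : ∀ t, 0 < t →
      IntervalIntegrable (fun z => z ^ 2 * √(1 - z ^ 2) ^ m * g (t * z)) volume 0 1 := by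
    intro t ht
    have h2 := (hint t ht).comp_mul_left (c := t)
    rw [zero_div, div_self ht.ne'] at h2
    have h3 : IntervalIntegrable (fun z => t ^ 2 * (z ^ 2 * √(1 - z ^ 2) ^ m * g (t * z))) volume 0 1 := by
      refine h2.congr ?_
      intro z _
      exact hsub t ht z
    have h4 := h3.const_mul (1 / t ^ 2)
    refine h4.congr ?_
    intro z _
    show 1 / t ^ 2 * (t ^ 2 * (z ^ 2 * √(1 - z ^ 2) ^ m * g (t * z))) = z ^ 2 * √(1 - z ^ 2) ^ m * g (t * z)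
    field_simp
  set K : ℝ → ℝ := fun t => ∫ z in (0 : ℝ)..1, z ^ 2 * √(1 - z ^ 2) ^ m * g (t * z) with hK
  have hNK : ∀ t, 0 < t → N t = D * (t ^ 3 * K t) := by
    intro t ht
    have e := intervalIntegral.mul_integral_comp_mul_left (a := 0) (b := 1)
      (f := fun y => y ^ 2 * √(1 - y ^ 2 / t ^ 2) ^ m * g y) t
    rw [mul_zero, mul_one] at e
    show D * (∫ y in (0 : ℝ)..t, y ^ 2 * √(1 - y ^ 2 / t ^ 2) ^ m * g y) = _
    rw [← e]
    have e2 : (∫ z in (0 : ℝ)..1, (t * z) ^ 2 * √(1 - (t * z) ^ 2 / t ^ 2) ^ m * g (t * z)) =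
        t ^ 2 * K t := by
      rw [hK]
      simp only
      rw [← intervalIntegral.integral_const_mul]
      apply intervalIntegral.integral_congr
      intro z _
      exact hsub t ht z
    rw [e2]; ring
  have hKanti : ∀ s t, 0 < s → s ≤ t → K t ≤ K s := by
    intro s t hs hst
    apply intervalIntegral.integral_mono_on_of_le_Ioo zero_le_one (hint1 t (hs.trans_le hst)) (hint1 s hs)
    intro z hz
    have h2 : g (t * z) ≤ g (s * z) := by
      apply hga
      · exact mul_pos hs hz.1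
      · exact mul_pos (hs.trans_le hst) hz.1
      · exact mul_le_mul_of_nonneg_right hst hz.1.le
    exact mul_le_mul_of_nonneg_left h2 (by positivity)
  -- interlacing
  have hAB : ∀ s t, 0 < s → s < t → N₁ s ≤ N t := by
    intro s t hs hst
    refine A14_interlace (B := N) hNm1 hmono (fun s hs => (h1 s hs).1) (fun s hs => (h1' s hs).1) ?_ hs hst
    intro s hs
    rw [← (h1 s hs).2, ← (h1' s hs).2]
  have hBA : ∀ s t, 0 < s → s < t → N s ≤ N₁ t := by
    intro s t hs hst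
    refine A14_interlace (A := N) hmono hNm1 (fun s hs => (h1' s hs).1) (fun s hs => (h1 s hs).1) ?_ hs hst
    intro s hs
    rw [← (h1 s hs).2, ← (h1' s hs).2]
  have hNN : ∀ t, 0 < t → N₁ t = N t := by
    intro t ht
    rw [hNK t ht]
    have hc : ContinuousAt (fun s : ℝ => D * (s ^ 3 * K t)) t := by fun_prop
    apply le_antisymm
    · have hc' : Tendsto (fun s : ℝ => D * (s ^ 3 * K t)) (𝓝[>] t) (𝓝 (D * (t ^ 3 * K t))) :=
        hc.tendsto.mono_left nhdsWithin_le_nhds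
      refine ge_of_tendsto hc' ?_
      filter_upwards [self_mem_nhdsWithin] with s hs
      have hs' : t < s := hs
      have hs0 : 0 < s := ht.trans hs'
      refine (hAB t s ht hs').trans ?_
      rw [hNK s hs0]
      have := hKanti t s ht hs'.le
      exact mul_le_mul_of_nonneg_left (mul_le_mul_of_nonneg_left this (by positivity)) hD0.le
    · have hc' : Tendsto (fun s : ℝ => D * (s ^ 3 * K t)) (𝓝[<] t) (𝓝 (D * (t ^ 3 * K t))) :=
        hc.tendsto.mono_left nhdsWithin_le_nhds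
      refine le_of_tendsto hc' ?_
      filter_upwards [self_mem_nhdsWithin, mem_nhdsWithin_of_mem_nhds (Ioi_mem_nhds ht)] with s hs hs0
      have hs' : s < t := hs
      have hs0' : 0 < s := hs0
      refine le_trans ?_ (hBA s t hs0' hs')
      rw [hNK s hs0']
      have := hKanti s t hs0' hs'.le
      exact mul_le_mul_of_nonneg_left (mul_le_mul_of_nonneg_left this (by positivity)) hD0.le
  intro t ht
  refine ⟨hint1 t ht, ?_⟩
  show N₁ t / t ^ 3 = D * K t
  rw [hNN t ht, hNK t ht]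
  field_simp

end Pool.Agent.RB75
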