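import Pool.Agent.RB75.ADefs

/-! Module RB-A15: from `r(t)√(lam²+t²)^3 = c` to `H(t) = R√(lam²+t²)`.

Proof. `ρ(t) = ∫_0^t c/√(lam²+s²)^3 ds = (c/lam²) t/√(lam²+t²)`; `t → ∞`: `R = c/lam²`. `Prof.H_int`:
`H(t) = H(0) + R (√(lam²+t²) - lam)`, and `H(t) - R t → H(0) - R lam = b = 0`. -/

namespace Pool.Agent.RB75
open MeasureTheory Set Filter Topology

private theorem a15_pos {lam : ℝ} (hl : 0 < lam) (s : ℝ) : 0 < lam ^ 2 + s ^ 2 := by positivity

private theorem a15_derG {lam : ℝ} (hl : 0 < lam) (s : ℝ) :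
    HasDerivAt (fun s : ℝ => √(lam ^ 2 + s ^ 2)) (s / √(lam ^ 2 + s ^ 2)) s := by
  have h1 : HasDerivAt (fun s : ℝ => lam ^ 2 + s ^ 2) (2 * s) s := by
    simpa using (hasDerivAt_pow 2 s).const_add (lam ^ 2)
  have h2 := h1.sqrt (a15_pos hl s).ne'
  convert h2 using 1
  have : √(lam ^ 2 + s ^ 2) ≠ 0 := (Real.sqrt_pos.2 (a15_pos hl s)).ne'
  field_simp

private theorem a15_derg {lam : ℝ} (hl : 0 < lam) (s : ℝ) :
    HasDerivAt (fun s : ℝ => s / √(lam ^ 2 + s ^ 2)) (lam ^ 2 / √(lam ^ 2 + s ^ 2) ^ 3) s := by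
  have hne : √(lam ^ 2 + s ^ 2) ≠ 0 := (Real.sqrt_pos.2 (a15_pos hl s)).ne'
  have h2 := (hasDerivAt_id' s).div (a15_derG hl s) hne
  have hsq : √(lam ^ 2 + s ^ 2) ^ 2 = lam ^ 2 + s ^ 2 := Real.sq_sqrt (a15_pos hl s).le
  have h3 : lam ^ 2 / √(lam ^ 2 + s ^ 2) ^ 3 =
      (1 * √(lam ^ 2 + s ^ 2) - s * (s / √(lam ^ 2 + s ^ 2))) / √(lam ^ 2 + s ^ 2) ^ 2 := by
    set S := √(lam ^ 2 + s ^ 2)
    rw [div_eq_div_iff (pow_ne_zero _ hne) (pow_ne_zero _ hne)]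
    have h4 : s * (s / S) * S = s ^ 2 := by field_simp
    have h5 : (1 * S - s * (s / S)) * S ^ 3 = (S ^ 2 - s * (s / S) * S) * S ^ 2 := by ring
    rw [h5, h4, hsq]
    ring
  rw [h3]
  exact h2

private theorem a15_cont {lam : ℝ} (hl : 0 < lam) :
    Continuous (fun s : ℝ => lam ^ 2 / √(lam ^ 2 + s ^ 2) ^ 3) := by
  refine continuous_const.div (by fun_prop) (fun s => ?_)
  exact pow_ne_zero _ (Real.sqrt_pos.2 (a15_pos hl s)).ne'

private theorem a15_cont2 {lam : ℝ} (hl : 0 < lam) :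
    Continuous (fun s : ℝ => s / √(lam ^ 2 + s ^ 2)) := by
  refine continuous_id.div (by fun_prop) (fun s => ?_)
  exact (Real.sqrt_pos.2 (a15_pos hl s)).ne'

private theorem a15_lim {lam : ℝ} (hl : 0 < lam) :
    Tendsto (fun t : ℝ => √(lam ^ 2 + t ^ 2) - t) atTop (𝓝 0) := by
  have h1 : Tendsto (fun t : ℝ => lam ^ 2 * t⁻¹) atTop (𝓝 0) := by
    simpa using tendsto_inv_atTop_zero.const_mul (lam ^ 2)
  refine tendsto_of_tendsto_of_tendsto_of_le_of_le' tendsto_const_nhds h1 ?_ ?_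
  · filter_upwards [eventually_ge_atTop (0 : ℝ)] with t ht
    have : t ≤ √(lam ^ 2 + t ^ 2) := Real.le_sqrt_of_sq_le (by nlinarith)
    linarith
  · filter_upwards [eventually_gt_atTop (0 : ℝ)] with t ht
    have h2 : √(lam ^ 2 + t ^ 2) ≤ t + lam ^ 2 * t⁻¹ := by
      refine Real.sqrt_le_iff.2 ⟨by positivity, ?_⟩
      have h3 : t * (lam ^ 2 * t⁻¹) = lam ^ 2 := by field_simp
      have h4 : 0 ≤ lam ^ 2 * t⁻¹ := by positivity
      nlinarith
    linarith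

private theorem a15_lim2 {lam : ℝ} (hl : 0 < lam) :
    Tendsto (fun t : ℝ => t / √(lam ^ 2 + t ^ 2)) atTop (𝓝 1) := by
  have h1 : Tendsto (fun t : ℝ => 1 - (√(lam ^ 2 + t ^ 2) - t) / lam) atTop (𝓝 1) := by
    simpa using ((a15_lim hl).div_const lam).const_sub 1
  refine tendsto_of_tendsto_of_tendsto_of_le_of_le' h1 tendsto_const_nhds ?_ ?_
  · filter_upwards [eventually_ge_atTop (0 : ℝ)] with t ht
    have hp : 0 < √(lam ^ 2 + t ^ 2) := Real.sqrt_pos.2 (a15_pos hl t)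
    have h2 : t ≤ √(lam ^ 2 + t ^ 2) := Real.le_sqrt_of_sq_le (by nlinarith)
    have h3 : lam ≤ √(lam ^ 2 + t ^ 2) := Real.le_sqrt_of_sq_le (by nlinarith)
    have h4 : (√(lam ^ 2 + t ^ 2) - t) / √(lam ^ 2 + t ^ 2) ≤ (√(lam ^ 2 + t ^ 2) - t) / lam :=
      div_le_div_of_nonneg_left (by linarith) hl h3
    have h5 : (√(lam ^ 2 + t ^ 2) - t) / √(lam ^ 2 + t ^ 2) = 1 - t / √(lam ^ 2 + t ^ 2) := by
      rw [sub_div, div_self hp.ne']
    linarith
  · filter_upwards [eventually_ge_atTop (0 : ℝ)] with t ht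
    have hp : 0 < √(lam ^ 2 + t ^ 2) := Real.sqrt_pos.2 (a15_pos hl t)
    have h2 : t ≤ √(lam ^ 2 + t ^ 2) := Real.le_sqrt_of_sq_le (by nlinarith)
    exact (div_le_one hp).2 h2

theorem A15 {H ρ r : ℝ → ℝ} {R lam c : ℝ} (hl : 0 < lam) (hP : Prof H ρ R 0)
    (hρ : ∀ t, 0 < t → IntervalIntegrable r volume 0 t ∧ ρ t = ∫ s in (0 : ℝ)..t, r s)
    (hr : ∀ t, 0 < t → r t * √(lam ^ 2 + t ^ 2) ^ 3 = c) :
    ∀ t, 0 ≤ t → H t = R * √(lam ^ 2 + t ^ 2) := by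
  have hrho : ∀ t, 0 < t → ρ t = c / lam ^ 2 * (t / √(lam ^ 2 + t ^ 2)) := by
    intro t ht
    rw [(hρ t ht).2]
    have h1 : ∫ s in (0 : ℝ)..t, r s = ∫ s in (0 : ℝ)..t,
        c / lam ^ 2 * (lam ^ 2 / √(lam ^ 2 + s ^ 2) ^ 3) := by
      refine intervalIntegral.integral_congr_ae (Eventually.of_forall (fun s hs => ?_))
      rw [uIoc_of_le ht.le] at hs
      have h2 := hr s hs.1
      have h3 : √(lam ^ 2 + s ^ 2) ^ 3 ≠ 0 := pow_ne_zero _ (Real.sqrt_pos.2 (a15_pos hl s)).ne'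
      rw [← h2]
      field_simp
    rw [h1, intervalIntegral.integral_const_mul]
    congr 1
    rw [intervalIntegral.integral_eq_sub_of_hasDerivAt (fun s _ => a15_derg hl s)
      ((a15_cont hl).intervalIntegrable _ _)]
    simp
  have hR : c / lam ^ 2 = R := by
    have h1 : Tendsto (fun t : ℝ => c / lam ^ 2 * (t / √(lam ^ 2 + t ^ 2))) atTop (𝓝 (c / lam ^ 2)) := by
      simpa using (a15_lim2 hl).const_mul (c / lam ^ 2)
    refine tendsto_nhds_unique (h1.congr' ?_) hP.lim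
    filter_upwards [eventually_gt_atTop (0 : ℝ)] with t ht
    exact (hrho t ht).symm
  have hH : ∀ t, 0 ≤ t → H t = H 0 + R * (√(lam ^ 2 + t ^ 2) - lam) := by
    intro t ht
    rw [hP.H_int t ht]
    congr 1
    have h1 : ∫ s in (0 : ℝ)..t, ρ s = ∫ s in (0 : ℝ)..t, R * (s / √(lam ^ 2 + s ^ 2)) := by
      refine intervalIntegral.integral_congr_ae (Eventually.of_forall (fun s hs => ?_))
      rw [uIoc_of_le ht] at hs
      rw [hrho s hs.1, hR]
    rw [h1, intervalIntegral.integral_const_mul]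
    congr 1
    rw [intervalIntegral.integral_eq_sub_of_hasDerivAt (fun s _ => a15_derG hl s)
      ((a15_cont2 hl).intervalIntegrable _ _)]
    have h2 : √(lam ^ 2 + 0 ^ 2) = lam := by
      rw [zero_pow two_ne_zero, add_zero]
      exact Real.sqrt_sq hl.le
    rw [h2]
  have hH0 : H 0 = R * lam := by
    have h1 : Tendsto (fun t : ℝ => (H 0 - R * lam) + R * (√(lam ^ 2 + t ^ 2) - t)) atTop
        (𝓝 (H 0 - R * lam)) := by
      simpa using ((a15_lim hl).const_mul R).const_add (H 0 - R * lam)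
    have h2 : H 0 - R * lam = 0 := by
      refine tendsto_nhds_unique (h1.congr' ?_) hP.blim
      filter_upwards [eventually_ge_atTop (0 : ℝ)] with t ht
      rw [hH t ht]
      ring
    linarith
  intro t ht
  rw [hH t ht, hH0]
  ring

end Pool.Agent.RB75
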