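import Mathlib

/-! Module RB-A1: Stieltjes measure of a nondecreasing function on `(0,∞)` with limit `0` at `0+`.

Proof. Let `g x = Φ x` for `x > 0`, `g x = 0` for `x ≤ 0`: monotone on `ℝ` (`Φ ≥ 0` because `Φ → 0` at `0+` and
`Φ` is monotone). `Monotone.stieltjesFunction` is the right-continuous version `G` of `g`, `μ = G.measure`,
`μ (Ioc 0 x) = ofReal (G x - G 0)`, `G 0 = lim_{y → 0+} Φ y = 0`, `G x = g x` except at countably many `x`
(the points where the monotone `g` is discontinuous, `Monotone.countable_not_continuousAt`).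
`μ (Iic 0) = 0` since `G = 0` on `(-∞, 0]` (or restrict `μ` to `Ioi 0`). -/

namespace Pool.Agent.RB75
open MeasureTheory Set Filter Topology

theorem A1 {Φ : ℝ → ℝ} (hm : MonotoneOn Φ (Ioi 0)) (h0 : Tendsto Φ (𝓝[>] 0) (𝓝 0)) :
    ∃ μ : Measure ℝ, SFinite μ ∧ μ (Iic 0) = 0 ∧
      ∀ᵐ x ∂(volume.restrict (Ioi (0 : ℝ))), μ (Ioc 0 x) = ENNReal.ofReal (Φ x) := by
  classical
  have hnn : ∀ y : ℝ, 0 < y → 0 ≤ Φ y := by
    intro y hy
    refine le_of_tendsto h0 ?_
    have h1 : Ioo (0 : ℝ) y ∈ 𝓝[>] (0 : ℝ) := Ioo_mem_nhdsGT hy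
    filter_upwards [h1] with z hz
    exact hm hz.1 hy hz.2.le
  set g : ℝ → ℝ := fun x => if 0 < x then Φ x else 0 with hg
  have hgpos : ∀ x, 0 < x → g x = Φ x := fun x hx => by simp [hg, hx]
  have hgm : Monotone g := by
    intro x y hxy
    by_cases hx : 0 < x
    · have hy : 0 < y := lt_of_lt_of_le hx hxy
      rw [hgpos x hx, hgpos y hy]
      exact hm hx hy hxy
    · by_cases hy : 0 < y
      · rw [hgpos y hy]
        simp only [hg, hx, if_false]
        exact hnn y hy
      · simp [hg, hx, hy]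
  have hg0 : Tendsto g (𝓝[>] 0) (𝓝 0) := by
    refine h0.congr' ?_
    filter_upwards [self_mem_nhdsWithin] with z hz
    exact (hgpos z hz).symm
  have hG0 : hgm.stieltjesFunction 0 = 0 := by
    rw [hgm.stieltjesFunction_eq]
    exact rightLim_eq_of_tendsto hg0
  refine ⟨hgm.stieltjesFunction.measure.restrict (Ioi 0), inferInstance, ?_, ?_⟩
  · rw [Measure.restrict_apply measurableSet_Iic, Iic_inter_Ioi, Ioc_self, measure_empty]
  · have hc : ∀ᵐ x ∂(volume : Measure ℝ), ContinuousAt g x := by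
      have := hgm.countable_not_continuousAt
      exact ae_iff.2 (this.measure_zero volume)
    rw [ae_restrict_iff' measurableSet_Ioi]
    filter_upwards [hc] with x hx hx0
    rw [Measure.restrict_apply measurableSet_Ioc, inter_eq_left.2 Ioc_subset_Ioi_self,
      StieltjesFunction.measure_Ioc, hG0, hgm.stieltjesFunction_eq,
      hgm.continuousWithinAt_Ioi_iff_rightLim_eq.1 hx.continuousWithinAt, hgpos x hx0, sub_zero]

end Pool.Agent.RB75
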