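import Pool.Agent.RB75.ADefs
import Pool.Agent.RB75.A1

/-! Module RB-A4: existence of `Rep`.

Take `μ` from A1 and `N v = (C (m+2) ∫⁻ y in Ioc 0 v, ofReal (y √(1-y²/v²)^m) ∂μ).toReal`; finite because the
integrand is `≤ v` and `μ (Ioc 0 v) ≤ μ (Ioc 0 x) < ∞` for some `x ≥ v` (the a.e. statement).
Monotone in `v`: the domain grows and `√(1-y²/v²)` is nondecreasing in `v`. -/

namespace Pool.Agent.RB75
open MeasureTheory Set Filter Topology

theorem A4 (m : ℕ) {C : ℝ} (hC : 0 < C) {Φ : ℝ → ℝ} (hm : MonotoneOn Φ (Ioi 0))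
    (h0 : Tendsto Φ (𝓝[>] 0) (𝓝 0)) : ∃ μ N, Rep m C Φ μ N := by
  obtain ⟨μ, hsf, hz, hae⟩ := A1 hm h0
  have hfin : ∀ v : ℝ, 0 < v → μ (Ioc 0 v) ≠ ⊤ := by
    intro v hv
    have h1 : ∃ x, v < x ∧ μ (Ioc 0 x) = ENNReal.ofReal (Φ x) := by
      by_contra hcon
      push Not at hcon
      rw [ae_restrict_iff' measurableSet_Ioi] at hae
      have h2 : volume (Ioi v) = 0 := by
        refine measure_mono_null (fun x hx => ?_) (ae_iff.1 hae)
        simp only [Set.mem_setOf_eq, Classical.not_imp]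
        exact ⟨lt_trans hv hx, hcon x hx⟩
      simp at h2
    obtain ⟨x, hx, he⟩ := h1
    have h3 : μ (Ioc 0 v) ≤ μ (Ioc 0 x) := measure_mono (Ioc_subset_Ioc_right hx.le)
    rw [he] at h3
    exact ne_top_of_le_ne_top ENNReal.ofReal_ne_top h3
  have hint : ∀ v : ℝ, 0 < v →
      ENNReal.ofReal (C * ((m : ℝ) + 2)) *
        ∫⁻ y in Ioc 0 v, ENNReal.ofReal (y * √(1 - y ^ 2 / v ^ 2) ^ m) ∂μ ≠ ⊤ := by
    intro v hv
    refine ENNReal.mul_ne_top ENNReal.ofReal_ne_top ?_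
    have h1 : ∫⁻ y in Ioc 0 v, ENNReal.ofReal (y * √(1 - y ^ 2 / v ^ 2) ^ m) ∂μ ≤
        ∫⁻ _ in Ioc 0 v, ENNReal.ofReal v ∂μ := by
      refine setLIntegral_mono' measurableSet_Ioc (fun y hy => ENNReal.ofReal_le_ofReal ?_)
      have hs : √(1 - y ^ 2 / v ^ 2) ≤ 1 := by
        rw [Real.sqrt_le_one]
        have : 0 ≤ y ^ 2 / v ^ 2 := by positivity
        linarith
      have hp : √(1 - y ^ 2 / v ^ 2) ^ m ≤ 1 := pow_le_one₀ (Real.sqrt_nonneg _) hs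
      calc y * √(1 - y ^ 2 / v ^ 2) ^ m ≤ y * 1 := mul_le_mul_of_nonneg_left hp hy.1.le
        _ ≤ v := by rw [mul_one]; exact hy.2
    rw [setLIntegral_const] at h1
    exact ne_top_of_le_ne_top (ENNReal.mul_ne_top ENNReal.ofReal_ne_top (hfin v hv)) h1
  refine ⟨μ, fun v => (ENNReal.ofReal (C * ((m : ℝ) + 2)) *
      ∫⁻ y in Ioc 0 v, ENNReal.ofReal (y * √(1 - y ^ 2 / v ^ 2) ^ m) ∂μ).toReal,
    ⟨hsf, hz, hae, fun v hv => ENNReal.ofReal_toReal (hint v hv), fun v _ => ENNReal.toReal_nonneg, ?_⟩⟩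
  intro v hv w hw hvw
  refine ENNReal.toReal_mono (hint w hw) ?_
  refine mul_le_mul_right ?_ _
  calc ∫⁻ y in Ioc 0 v, ENNReal.ofReal (y * √(1 - y ^ 2 / v ^ 2) ^ m) ∂μ
      ≤ ∫⁻ y in Ioc 0 v, ENNReal.ofReal (y * √(1 - y ^ 2 / w ^ 2) ^ m) ∂μ := by
        refine setLIntegral_mono' measurableSet_Ioc (fun y hy => ENNReal.ofReal_le_ofReal ?_)
        refine mul_le_mul_of_nonneg_left ?_ hy.1.le
        refine pow_le_pow_left₀ (Real.sqrt_nonneg _) (Real.sqrt_le_sqrt ?_) m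
        have hv' : (0 : ℝ) < v := hv
        have : y ^ 2 / w ^ 2 ≤ y ^ 2 / v ^ 2 := by
          refine div_le_div_of_nonneg_left (sq_nonneg _) (by positivity) ?_
          exact pow_le_pow_left₀ hv'.le hvw 2
        linarith
    _ ≤ ∫⁻ y in Ioc 0 w, ENNReal.ofReal (y * √(1 - y ^ 2 / w ^ 2) ^ m) ∂μ :=
        lintegral_mono_set (Ioc_subset_Ioc_right hvw)

end Pool.Agent.RB75
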