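import Mathlib

/-! Module RB-A2: kernel integrals.

`d/dv √(1-y²/v²)^{m+2} = (m+2) (y²/v³) √(1-y²/v²)^m` for `v > y > 0`; substitutions `z = y/v` (`dz = -y dv/v²`),
`z = y/s`. All statements as `lintegral`s of `ENNReal.ofReal` of nonnegative functions. -/

namespace Pool.Agent.RB75
open MeasureTheory Set Filter Topology

theorem A2_hasDeriv (m : ℕ) {y v : ℝ} (hy : 0 < y) (hv : y < v) :
    HasDerivAt (fun v : ℝ => √(1 - y ^ 2 / v ^ 2) ^ (m + 2) / y)
      (((m : ℝ) + 2) * (y * √(1 - y ^ 2 / v ^ 2) ^ m) / v ^ 3) v := by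
  have hv0 : 0 < v := hy.trans hv
  have hpos : 0 < 1 - y ^ 2 / v ^ 2 := by
    rw [sub_pos, div_lt_one (by positivity)]
    exact pow_lt_pow_left₀ hv hy.le two_ne_zero
  have h1 : HasDerivAt (fun v : ℝ => 1 - y ^ 2 / v ^ 2) (2 * y ^ 2 / v ^ 3) v := by
    have h0 : HasDerivAt (fun v : ℝ => v ^ 2) (2 * v) v := by
      simpa using hasDerivAt_pow 2 v
    have h2 := (h0.inv (by positivity)).const_mul (y ^ 2)
    have h3 := h2.const_sub 1
    have e : 2 * y ^ 2 / v ^ 3 = -(y ^ 2 * (-(2 * v) / (v ^ 2) ^ 2)) := by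
      field_simp
    rw [e]
    simpa only [div_eq_mul_inv, Pi.inv_apply] using h3
  have h2 := ((h1.sqrt hpos.ne').pow (m + 2)).div_const y
  have hs : 0 < √(1 - y ^ 2 / v ^ 2) := Real.sqrt_pos.2 hpos
  have e0 : ∀ w : ℝ, 0 < w → ((m : ℝ) + 2) * (y * w ^ m) / v ^ 3 =
      ((m + 2 : ℕ) : ℝ) * w ^ (m + 2 - 1) * (2 * y ^ 2 / v ^ 3 / (2 * w)) / y := by
    intro w hw
    have e1 : m + 2 - 1 = m + 1 := rfl
    rw [e1]
    push_cast
    field_simp
    ring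
  rw [e0 _ hs]
  exact h2

theorem A2_cont (m : ℕ) (y : ℝ) : ContinuousOn (fun v : ℝ => √(1 - y ^ 2 / v ^ 2) ^ m) (Ioi 0) := by
  apply ContinuousOn.pow
  apply ContinuousOn.sqrt
  apply continuousOn_const.sub
  apply continuousOn_const.div (continuousOn_id.pow 2)
  intro s hs
  have hs : (0 : ℝ) < s := hs
  exact (pow_pos hs 2).ne'

theorem A2_cont' (m : ℕ) (y : ℝ) :
    ContinuousOn (fun v : ℝ => ((m : ℝ) + 2) * (y * √(1 - y ^ 2 / v ^ 2) ^ m) / v ^ 3) (Ioi 0) := by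
  apply (continuousOn_const.mul (continuousOn_const.mul (A2_cont m y))).div (continuousOn_id.pow 3)
  intro s hs
  have hs : (0 : ℝ) < s := hs
  exact (pow_pos hs 3).ne'

theorem A2_zero (m : ℕ) {y : ℝ} (hy : 0 < y) : √(1 - y ^ 2 / y ^ 2) ^ (m + 2) / y = 0 := by
  rw [div_self (by positivity), sub_self, Real.sqrt_zero, zero_pow (by omega), zero_div]

/-- (k1) `∫_y^s (m+2) y v^{-3} √(1-y²/v²)^m dv = √(1-y²/s²)^{m+2} / y`. -/
theorem A2k1 (m : ℕ) {y s : ℝ} (hy : 0 < y) (hs : y < s) :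
    ∫⁻ v in Ioo y s, ENNReal.ofReal (((m : ℝ) + 2) * (y * √(1 - y ^ 2 / v ^ 2) ^ m) / v ^ 3) =
      ENNReal.ofReal (√(1 - y ^ 2 / s ^ 2) ^ (m + 2) / y) := by
  have hsub : Icc y s ⊆ Ioi (0 : ℝ) := fun v hv => lt_of_lt_of_le hy hv.1
  have hint : IntervalIntegrable
      (fun v : ℝ => ((m : ℝ) + 2) * (y * √(1 - y ^ 2 / v ^ 2) ^ m) / v ^ 3) volume y s := by
    apply ContinuousOn.intervalIntegrable
    rw [uIcc_of_le hs.le]
    exact (A2_cont' m y).mono hsub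
  have h := intervalIntegral.integral_eq_sub_of_hasDerivAt_of_le hs.le
    (((A2_cont (m + 2) y).mono hsub).div_const y)
    (fun v hv => A2_hasDeriv m hy hv.1) hint
  rw [A2_zero m hy, sub_zero] at h
  rw [← h, intervalIntegral.integral_of_le hs.le, integral_Ioc_eq_integral_Ioo,
    ofReal_integral_eq_lintegral_ofReal]
  · exact (intervalIntegrable_iff_integrableOn_Ioo_of_le hs.le).1 hint
  · filter_upwards [ae_restrict_mem measurableSet_Ioo] with v hv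
    have : 0 < v := hy.trans hv.1
    show (0 : ℝ) ≤ _
    positivity

theorem A2_div_deriv {y s : ℝ} (hs : 0 < s) :
    HasDerivAt (fun s : ℝ => y / s) (-y / s ^ 2) s := by
  have h := (hasDerivAt_inv hs.ne').const_mul y
  have e : -y / s ^ 2 = y * (-(s ^ 2)⁻¹) := by ring
  rw [e]
  simpa only [div_eq_mul_inv] using h

theorem A2_inj {y : ℝ} (hy : 0 < y) : InjOn (fun s : ℝ => y / s) (Ioi 0) := by
  intro a ha b hb hab
  have ha0 : (0 : ℝ) < a := ha
  have hb0 : (0 : ℝ) < b := hb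
  have hab : y / a = y / b := hab
  rw [div_eq_div_iff ha0.ne' hb0.ne'] at hab
  exact (mul_left_cancel₀ hy.ne' hab).symm

/-- (k2) `∫_y^t √(1-y²/s²)^{m+2}/y ds = ∫_{y/t}^1 √(1-z²)^{m+2}/z² dz`. -/
theorem A2k2 (m : ℕ) {y t : ℝ} (hy : 0 < y) (ht : y < t) :
    ∫⁻ s in Ioo y t, ENNReal.ofReal (√(1 - y ^ 2 / s ^ 2) ^ (m + 2) / y) =
      ∫⁻ z in Ioo (y / t) 1, ENNReal.ofReal (√(1 - z ^ 2) ^ (m + 2) / z ^ 2) := by
  have ht0 : 0 < t := hy.trans ht
  have himg : (fun s : ℝ => y / s) '' Ioo y t = Ioo (y / t) 1 := by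
    ext z
    constructor
    · rintro ⟨s, hs, rfl⟩
      have h0 : 0 < s := hy.trans hs.1
      exact ⟨div_lt_div_of_pos_left hy h0 hs.2, (div_lt_one h0).2 hs.1⟩
    · rintro ⟨h0, h1⟩
      have hz : 0 < z := lt_trans (by positivity) h0
      refine ⟨y / z, ⟨?_, ?_⟩, ?_⟩
      · rw [lt_div_iff₀ hz]
        nlinarith
      · rw [div_lt_iff₀ hz]
        rw [div_lt_iff₀ ht0] at h0
        linarith
      · show y / (y / z) = z
        field_simp
  have hsub : Ioo y t ⊆ Ioi (0 : ℝ) := fun v hv => hy.trans hv.1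
  rw [← himg, lintegral_image_eq_lintegral_abs_deriv_mul measurableSet_Ioo
    (fun s hs => (A2_div_deriv (y := y) (hsub hs)).hasDerivWithinAt) ((A2_inj hy).mono hsub)]
  apply setLIntegral_congr_fun measurableSet_Ioo
  intro s hs
  have h0 : 0 < s := hsub hs
  show ENNReal.ofReal (√(1 - y ^ 2 / s ^ 2) ^ (m + 2) / y) = ENNReal.ofReal |(-y / s ^ 2)| *
    ENNReal.ofReal (√(1 - (y / s) ^ 2) ^ (m + 2) / (y / s) ^ 2)
  rw [← ENNReal.ofReal_mul (abs_nonneg _), neg_div, abs_neg, abs_of_pos (by positivity), div_pow]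
  congr 1
  field_simp

/-- (k3) `∫_y^∞ y v^{-2} √(1-y²/v²)^m dv = ∫_0^1 √(1-z²)^m dz`. -/
theorem A2k3 (m : ℕ) {y : ℝ} (hy : 0 < y) :
    ∫⁻ v in Ioi y, ENNReal.ofReal ((y * √(1 - y ^ 2 / v ^ 2) ^ m) / v ^ 2) =
      ENNReal.ofReal (∫ z in (0 : ℝ)..1, √(1 - z ^ 2) ^ m) := by
  have himg : (fun s : ℝ => y / s) '' Ioi y = Ioo 0 1 := by
    ext z
    constructor
    · rintro ⟨s, hs, rfl⟩
      have hs' : y < s := hs
      have : 0 < s := hy.trans hs'
      exact ⟨by positivity, (div_lt_one this).2 hs'⟩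
    · rintro ⟨h0, h1⟩
      refine ⟨y / z, ?_, ?_⟩
      · show y < y / z
        rw [lt_div_iff₀ h0]
        nlinarith
      · show y / (y / z) = z
        field_simp
  have hsub : Ioi y ⊆ Ioi (0 : ℝ) := Ioi_subset_Ioi hy.le
  have hc : Continuous (fun z : ℝ => √(1 - z ^ 2) ^ m) := by fun_prop
  have h1 : ENNReal.ofReal (∫ z in (0 : ℝ)..1, √(1 - z ^ 2) ^ m)
      = ∫⁻ z in Ioo (0 : ℝ) 1, ENNReal.ofReal (√(1 - z ^ 2) ^ m) := by
    rw [intervalIntegral.integral_of_le zero_le_one, integral_Ioc_eq_integral_Ioo,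
      ofReal_integral_eq_lintegral_ofReal]
    · exact (intervalIntegrable_iff_integrableOn_Ioo_of_le zero_le_one).1
        (hc.intervalIntegrable 0 1)
    · filter_upwards with z
      show (0 : ℝ) ≤ _
      positivity
  rw [h1, ← himg, lintegral_image_eq_lintegral_abs_deriv_mul measurableSet_Ioi
    (fun s hs => (A2_div_deriv (y := y) (hsub hs)).hasDerivWithinAt) ((A2_inj hy).mono hsub)]
  apply setLIntegral_congr_fun measurableSet_Ioi
  intro s hs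
  have h0 : 0 < s := hsub hs
  show ENNReal.ofReal ((y * √(1 - y ^ 2 / s ^ 2) ^ m) / s ^ 2) = ENNReal.ofReal |(-y / s ^ 2)| *
    ENNReal.ofReal (√(1 - (y / s) ^ 2) ^ m)
  rw [← ENNReal.ofReal_mul (abs_nonneg _), neg_div, abs_neg, abs_of_pos (by positivity), div_pow]
  congr 1
  ring

/-- (k4) `∫_y^∞ (m+2) y v^{-3} √(1-y²/v²)^m dv = 1/y`. -/
theorem A2k4 (m : ℕ) {y : ℝ} (hy : 0 < y) :
    ∫⁻ v in Ioi y, ENNReal.ofReal (((m : ℝ) + 2) * (y * √(1 - y ^ 2 / v ^ 2) ^ m) / v ^ 3) =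
      ENNReal.ofReal (1 / y) := by
  have hlim : Tendsto (fun v : ℝ => √(1 - y ^ 2 / v ^ 2) ^ (m + 2) / y) atTop (𝓝 (1 / y)) := by
    have h1 : Tendsto (fun v : ℝ => 1 - y ^ 2 / v ^ 2) atTop (𝓝 (1 - 0)) := by
      apply tendsto_const_nhds.sub
      exact tendsto_const_nhds.div_atTop (tendsto_pow_atTop two_ne_zero)
    rw [sub_zero] at h1
    have h2 := ((h1.sqrt).pow (m + 2)).div_const y
    simpa using h2
  have hcont : ContinuousWithinAt (fun v : ℝ => √(1 - y ^ 2 / v ^ 2) ^ (m + 2) / y) (Ici y) y := by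
    have h := ((A2_cont (m + 2) y).div_const y).mono (fun v (hv : v ∈ Ici y) => (lt_of_lt_of_le hy hv : (0 : ℝ) < v))
    exact h y (Set.self_mem_Ici)
  have hder : ∀ v ∈ Ioi y, HasDerivAt (fun v : ℝ => √(1 - y ^ 2 / v ^ 2) ^ (m + 2) / y)
      (((m : ℝ) + 2) * (y * √(1 - y ^ 2 / v ^ 2) ^ m) / v ^ 3) v := fun v hv => A2_hasDeriv m hy hv
  have hpos : ∀ v ∈ Ioi y, 0 ≤ ((m : ℝ) + 2) * (y * √(1 - y ^ 2 / v ^ 2) ^ m) / v ^ 3 := by
    intro v hv
    have : 0 < v := hy.trans hv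
    positivity
  have h := integral_Ioi_of_hasDerivAt_of_nonneg hcont hder hpos hlim
  rw [A2_zero m hy, sub_zero] at h
  rw [← h, ofReal_integral_eq_lintegral_ofReal]
  · exact integrableOn_Ioi_deriv_of_nonneg hcont hder hpos hlim
  · filter_upwards [ae_restrict_mem measurableSet_Ioi] with v hv
    exact hpos v hv

end Pool.Agent.RB75
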