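import Pool.Agent.RB75.ADefs
import Pool.Agent.RB75.A2

/-! Module RB-A6: second Tonelli identity, `∫_0^∞ N(v)/v² dv = C J μ(0,∞)` by (k3).
(`ofReal (N v / v²) = ofReal (C(m+2)) ∫⁻ y in Ioc 0 v, ofReal (y √(1-y²/v²)^m / v²) ∂μ`, swap, (k3), and
`JJ m = (m+2) ∫_0^1 √(1-z²)^m`.) -/

namespace Pool.Agent.RB75
open MeasureTheory Set Filter Topology

theorem A6 {m : ℕ} {C : ℝ} (hC : 0 < C) {Φ N : ℝ → ℝ} {μ : Measure ℝ} (hR : Rep m C Φ μ N) :
    ∫⁻ v in Ioi (0 : ℝ), ENNReal.ofReal (N v / v ^ 2) = ENNReal.ofReal (C * JJ m) * μ (Ioi 0) := by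
  have := hR.sf
  set c := ENNReal.ofReal (C * ((m : ℝ) + 2)) with hc
  -- the kernel
  let g : ℝ → ℝ → ENNReal := fun v y =>
    if y ≤ v then ENNReal.ofReal ((y * √(1 - y ^ 2 / v ^ 2) ^ m) / v ^ 2) else 0
  have hgm : Measurable (Function.uncurry g) := by
    refine Measurable.ite (measurableSet_le measurable_snd measurable_fst) ?_ measurable_const
    fun_prop
  have h1 : ∫⁻ v in Ioi (0 : ℝ), ENNReal.ofReal (N v / v ^ 2) =
      ∫⁻ v in Ioi (0 : ℝ), c * ∫⁻ y in Ioi (0:ℝ), g v y ∂μ := by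
    refine setLIntegral_congr_fun measurableSet_Ioi ?_
    intro v hv
    have hv0 : 0 < v := hv
    have e1 : ENNReal.ofReal (N v / v ^ 2) = ENNReal.ofReal (N v) * ENNReal.ofReal (1 / v ^ 2) := by
      rw [← ENNReal.ofReal_mul (hR.N_nn v hv0)]
      congr 1
      ring
    have e2 : ∫⁻ y in Ioi (0:ℝ), g v y ∂μ =
        ∫⁻ y in Ioc 0 v, ENNReal.ofReal ((y * √(1 - y ^ 2 / v ^ 2) ^ m) / v ^ 2) ∂μ := by
      have hs : Ioc 0 v = Iic v ∩ Ioi 0 := by
        ext y; simp [and_comm]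
      rw [hs, ← Measure.restrict_restrict measurableSet_Iic, ← lintegral_indicator measurableSet_Iic]
      refine lintegral_congr ?_
      intro y
      simp only [g, indicator, mem_Iic]
    show ENNReal.ofReal (N v / v ^ 2) = c * ∫⁻ y in Ioi (0:ℝ), g v y ∂μ
    rw [e1, hR.N_eq v hv0, e2, mul_assoc]
    congr 1
    rw [← lintegral_mul_const' _ _ ENNReal.ofReal_ne_top]
    refine setLIntegral_congr_fun measurableSet_Ioc ?_
    intro y hy
    have hy0 : 0 ≤ y := hy.1.le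
    show ENNReal.ofReal (y * √(1 - y ^ 2 / v ^ 2) ^ m) * ENNReal.ofReal (1 / v ^ 2) = _
    rw [← ENNReal.ofReal_mul (by positivity)]
    congr 1
    ring
  rw [h1, lintegral_const_mul' _ _ ENNReal.ofReal_ne_top]
  rw [lintegral_lintegral_swap hgm.aemeasurable]
  have h2 : ∫⁻ y in Ioi (0:ℝ), ∫⁻ v in Ioi (0:ℝ), g v y ∂volume ∂μ =
      ∫⁻ y in Ioi (0:ℝ), ENNReal.ofReal (∫ z in (0 : ℝ)..1, √(1 - z ^ 2) ^ m) ∂μ := by
    refine setLIntegral_congr_fun measurableSet_Ioi ?_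
    intro y hy
    have hy0 : 0 < y := hy
    show ∫⁻ v in Ioi (0:ℝ), g v y = ENNReal.ofReal (∫ z in (0 : ℝ)..1, √(1 - z ^ 2) ^ m)
    rw [← A2k3 m hy0]
    have e3 : ∫⁻ v in Ioi (0:ℝ), g v y =
        ∫⁻ v in Ici y, ENNReal.ofReal ((y * √(1 - y ^ 2 / v ^ 2) ^ m) / v ^ 2) := by
      have hs : Ici y = Ici y ∩ Ioi 0 := by
        ext v
        simp only [mem_Ici, mem_inter_iff, mem_Ioi]
        exact ⟨fun h => ⟨h, lt_of_lt_of_le hy0 h⟩, fun h => h.1⟩
      rw [hs, ← Measure.restrict_restrict measurableSet_Ici, ← lintegral_indicator measurableSet_Ici]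
      refine lintegral_congr ?_
      intro v
      simp only [g, indicator, mem_Ici]
    rw [e3]
    exact setLIntegral_congr Ioi_ae_eq_Ici.symm
  rw [h2, setLIntegral_const, ← mul_assoc]
  congr 1
  have hi : 0 ≤ C * ((m : ℝ) + 2) := by positivity
  rw [← ENNReal.ofReal_mul hi]
  congr 1
  unfold JJ
  rw [intervalIntegral.integral_const_mul]
  ring

/-- total mass: if `Φ → M` at infinity then `μ (Ioi 0) = ofReal M`
(`μ (Ioc 0 x) = ofReal (Φ x)` for arbitrarily large `x`, continuity of measure along increasing sets). -/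
theorem A6mass {m : ℕ} {C : ℝ} {Φ N : ℝ → ℝ} {μ : Measure ℝ} (hR : Rep m C Φ μ N) {M : ℝ}
    (hM : Tendsto Φ atTop (𝓝 M)) : μ (Ioi 0) = ENNReal.ofReal M := by
  have hex : ∀ n : ℕ, ∃ x ∈ Ioo (n:ℝ) (n+1), μ (Ioc 0 x) = ENNReal.ofReal (Φ x) := by
    intro n
    by_contra hcon
    push Not at hcon
    have h1 := hR.ae
    rw [ae_restrict_iff' measurableSet_Ioi] at h1
    have h2 : volume (Ioo (n:ℝ) (n+1)) = 0 := by
      refine measure_mono_null ?_ h1
      intro x hx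
      have hx0 : (0:ℝ) < x := lt_of_le_of_lt (Nat.cast_nonneg n) hx.1
      simp only [mem_compl_iff, mem_ofPred_eq, Classical.not_imp]
      exact ⟨hx0, hcon x hx⟩
    rw [Real.volume_Ioo] at h2
    simp at h2
  choose x hx hxe using hex
  have hmono : Monotone (fun n : ℕ => Ioc 0 (x n)) := by
    refine monotone_nat_of_le_succ ?_
    intro n
    refine Ioc_subset_Ioc_right ?_
    have h1 := (hx n).2
    have h2 := (hx (n+1)).1
    push_cast at h2
    linarith
  have hun : ⋃ n : ℕ, Ioc 0 (x n) = Ioi 0 := by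
    ext y
    simp only [mem_iUnion, mem_Ioc, mem_Ioi]
    constructor
    · rintro ⟨n, h, _⟩
      exact h
    · intro hy
      obtain ⟨n, hn⟩ := exists_nat_ge y
      exact ⟨n, hy, hn.trans (hx n).1.le⟩
  have h1 := tendsto_measure_iUnion_atTop (μ := μ) hmono
  rw [hun] at h1
  have hxt : Tendsto x atTop atTop :=
    tendsto_atTop_mono (fun n => (hx n).1.le) tendsto_natCast_atTop_atTop
  have h2 : Tendsto (fun n => ENNReal.ofReal (Φ (x n))) atTop (𝓝 (ENNReal.ofReal M)) :=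
    (ENNReal.continuous_ofReal.tendsto M).comp (hM.comp hxt)
  have h3 : (μ ∘ fun n : ℕ => Ioc 0 (x n)) = fun n => ENNReal.ofReal (Φ (x n)) := by
    funext n
    exact hxe n
  rw [h3] at h1
  exact tendsto_nhds_unique h1 h2

end Pool.Agent.RB75
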