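import Pool.Agent.RB75.ADefs
import Pool.Agent.RB75.A2

/-! Module RB-A7: third Tonelli identity, `∫_0^∞ N(v)/v³ dv = C ∫_0^∞ Φ(x)/x² dx`.

Proof. By (k4) the left side is `C ∫ (1/y) dμ(y)`; and `1/y = ∫_y^∞ dx/x²`, so by Tonelli
`∫ (1/y) dμ(y) = ∫_0^∞ x^{-2} μ(Ioc 0 x) dx` (boundary points are `volume`-null), and `μ(Ioc 0 x) = Φ x` a.e. -/

namespace Pool.Agent.RB75
open MeasureTheory Set Filter Topology

/-- Tonelli for the region `0 < y ≤ v`. -/
private lemma a7_swap {μ : Measure ℝ} [SFinite μ] (K : ℝ → ℝ → ENNReal)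
    (hK : Measurable (Function.uncurry K)) :
    ∫⁻ v in Ioi (0 : ℝ), ∫⁻ y in Ioc 0 v, K v y ∂μ =
      ∫⁻ y in Ioi (0 : ℝ), (∫⁻ v in Ioi y, K v y) ∂μ := by
  have h1 : ∀ v : ℝ, ∫⁻ y in Ioc 0 v, K v y ∂μ =
      ∫⁻ y in Ioi (0 : ℝ), (Iic v).indicator (K v) y ∂μ := by
    intro v
    rw [lintegral_indicator measurableSet_Iic, Measure.restrict_restrict measurableSet_Iic]
    have : Iic v ∩ Ioi (0 : ℝ) = Ioc 0 v := by
      ext y
      simp only [mem_inter_iff, mem_Iic, mem_Ioi, mem_Ioc]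
      tauto
    rw [this]
  simp_rw [h1]
  have hm : Measurable (Function.uncurry fun v y : ℝ => (Iic v).indicator (K v) y) := by
    have h2 : (Function.uncurry fun v y : ℝ => (Iic v).indicator (K v) y) =
        {p : ℝ × ℝ | p.2 ≤ p.1}.indicator (Function.uncurry K) := by
      funext p
      obtain ⟨v, y⟩ := p
      simp only [Function.uncurry, Set.indicator_apply, mem_Iic, mem_ofPred_eq]
    rw [h2]
    exact hK.indicator (measurableSet_le measurable_snd measurable_fst)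
  rw [lintegral_lintegral_swap hm.aemeasurable]
  refine setLIntegral_congr_fun measurableSet_Ioi fun y hy => ?_
  have h3 : ∀ v : ℝ, (Iic v).indicator (K v) y = (Ici y).indicator (fun v => K v y) v := by
    intro v
    simp only [Set.indicator_apply, mem_Iic, mem_Ici]
  simp_rw [h3]
  rw [lintegral_indicator measurableSet_Ici, Measure.restrict_restrict measurableSet_Ici]
  have h4 : Ici y ∩ Ioi (0 : ℝ) = Ici y := by
    rw [Set.inter_eq_left]
    intro v hv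
    exact lt_of_lt_of_le (mem_Ioi.mp hy) (mem_Ici.mp hv)
  rw [h4]
  exact (setLIntegral_congr Ioi_ae_eq_Ici).symm

/-- `∫_y^∞ dx/x² = 1/y`. -/
private lemma a7_tail {y : ℝ} (hy : 0 < y) :
    ∫⁻ x in Ioi y, ENNReal.ofReal (1 / x ^ 2) = ENNReal.ofReal (1 / y) := by
  have h1 := A2k3 0 hy
  simp only [pow_zero, mul_one] at h1
  have h2 : ∫ z in (0 : ℝ)..1, (1 : ℝ) = 1 := by simp
  rw [h2] at h1
  have h3 : ∀ x : ℝ, ENNReal.ofReal (1 / x ^ 2) =
      ENNReal.ofReal (1 / y) * ENNReal.ofReal (y / x ^ 2) := by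
    intro x
    rw [← ENNReal.ofReal_mul (by positivity)]
    congr 1
    field_simp
  simp_rw [h3]
  rw [lintegral_const_mul _ (by fun_prop), h1, ENNReal.ofReal_one, mul_one]

theorem A7 {m : ℕ} {C : ℝ} (hC : 0 < C) {Φ N : ℝ → ℝ} {μ : Measure ℝ} (hR : Rep m C Φ μ N) :
    ∫⁻ v in Ioi (0 : ℝ), ENNReal.ofReal (N v / v ^ 3) =
      ENNReal.ofReal C * ∫⁻ x in Ioi (0 : ℝ), ENNReal.ofReal (Φ x / x ^ 2) := by
  have := hR.sf
  -- the left side
  have hL : ∫⁻ v in Ioi (0 : ℝ), ENNReal.ofReal (N v / v ^ 3) =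
      ∫⁻ v in Ioi (0 : ℝ), ∫⁻ y in Ioc 0 v, ENNReal.ofReal C *
        ENNReal.ofReal (((m : ℝ) + 2) * (y * √(1 - y ^ 2 / v ^ 2) ^ m) / v ^ 3) ∂μ := by
    refine setLIntegral_congr_fun measurableSet_Ioi fun v hv => ?_
    have hv0 : (0 : ℝ) < v := hv
    have hv3 : 0 ≤ 1 / v ^ 3 := by positivity
    rw [div_eq_mul_one_div, ENNReal.ofReal_mul' hv3, hR.N_eq v hv0, mul_assoc,
      mul_comm (∫⁻ _ in _, _ ∂μ), ← mul_assoc, ← lintegral_const_mul _ (by fun_prop)]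
    refine setLIntegral_congr_fun measurableSet_Ioc fun y hy => ?_
    have hy0 : (0 : ℝ) < y := hy.1
    rw [← ENNReal.ofReal_mul (by positivity), ← ENNReal.ofReal_mul (by positivity),
      ← ENNReal.ofReal_mul hC.le]
    congr 1
    ring
  rw [hL, a7_swap _ (by
    unfold Function.uncurry
    fun_prop)]
  -- the right side
  have hRt : ∫⁻ x in Ioi (0 : ℝ), ENNReal.ofReal (Φ x / x ^ 2) =
      ∫⁻ x in Ioi (0 : ℝ), ∫⁻ _y in Ioc 0 x, ENNReal.ofReal (1 / x ^ 2) ∂μ := by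
    refine lintegral_congr_ae ?_
    filter_upwards [hR.ae] with x hx
    have h1 : 0 ≤ 1 / x ^ 2 := by positivity
    rw [setLIntegral_const, hx, div_eq_mul_one_div, ENNReal.ofReal_mul' h1, mul_comm]
  rw [hRt, a7_swap (fun x _ => ENNReal.ofReal (1 / x ^ 2)) (by
    unfold Function.uncurry
    fun_prop), ← lintegral_const_mul' _ _ ENNReal.ofReal_ne_top]
  refine setLIntegral_congr_fun measurableSet_Ioi fun y hy => ?_
  have hy0 : (0 : ℝ) < y := hy
  rw [lintegral_const_mul' _ _ ENNReal.ofReal_ne_top, A2k4 m hy0, a7_tail hy0]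

end Pool.Agent.RB75
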