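import Pool.Agent.RB75.Main
import Pool.Agent.RB75.A4
import Pool.Agent.RB75.A6
import Pool.Agent.RB75.A7
import Pool.Agent.RB75.A8
import Pool.Agent.RB75.A9
import Pool.Agent.RB75.A10
import Pool.Agent.RB75.A11
import Pool.Agent.RB75.A13
import Pool.Agent.RB75.A14
import Pool.Agent.RB75.A15

/-! Assembly of part A and part B: classification of pairs of profiles. -/

namespace Pool.Agent.RB75
open MeasureTheory Set Filter Topology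

/-- a pair of bodies, each the projection body of the other up to constants -/
structure SPair (m j l : ℕ) (C₀ C₁ : ℝ) (H₀ ρ₀ : ℝ → ℝ) (R₀ b₀ : ℝ) (H₁ ρ₁ : ℝ → ℝ) (R₁ b₁ : ℝ) : Prop where
  hj : 2 ≤ j
  hn : j + l = m + 3
  hC0 : 0 < C₀
  hC1 : 0 < C₁
  prof0 : Prof H₀ ρ₀ R₀ b₀
  prof1 : Prof H₁ ρ₁ R₁ b₁
  star0 : Star m j l C₀ ρ₀ R₀ b₀ H₁
  star1 : Star m j l C₁ ρ₁ R₁ b₁ H₀

theorem SPair.symm {m j l : ℕ} {C₀ C₁ : ℝ} {H₀ ρ₀ : ℝ → ℝ} {R₀ b₀ : ℝ} {H₁ ρ₁ : ℝ → ℝ} {R₁ b₁ : ℝ}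
    (h : SPair m j l C₀ C₁ H₀ ρ₀ R₀ b₀ H₁ ρ₁ R₁ b₁) : SPair m j l C₁ C₀ H₁ ρ₁ R₁ b₁ H₀ ρ₀ R₀ b₀ :=
  ⟨h.hj, h.hn, h.hC1, h.hC0, h.prof1, h.prof0, h.star1, h.star0⟩

/-- everything we know about body 1 from body 0. -/
theorem SPair.half {m j l : ℕ} {C₀ C₁ : ℝ} {H₀ ρ₀ : ℝ → ℝ} {R₀ b₀ : ℝ} {H₁ ρ₁ : ℝ → ℝ} {R₁ b₁ : ℝ}
    (h : SPair m j l C₀ C₁ H₀ ρ₀ R₀ b₀ H₁ ρ₁ R₁ b₁) :
    ∃ (N : ℝ → ℝ) (f₁ : ℝ), (∀ v, 0 < v → 0 ≤ N v) ∧ MonotoneOn N (Ioi 0) ∧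
      H₁ 0 = C₀ * JJ m * R₀ ^ j ∧ f₁ = C₀ * j * R₀ ^ (j - 1) * b₀ ∧
      (∀ s, 0 < s → IntervalIntegrable (fun v => N v / v ^ 3) volume 0 s ∧
        ρ₁ s = f₁ + ∫ v in (0 : ℝ)..s, N v / v ^ 3) ∧
      Tendsto ρ₁ (𝓝[>] 0) (𝓝 f₁) ∧ f₁ ≤ R₁ ∧ b₁ ≤ H₁ 0 ∧
      (∀ f₀, Tendsto ρ₀ (𝓝[>] 0) (𝓝 f₀) → l = 0 → f₀ ≤ R₀ → 0 ≤ f₀ → b₁ = C₀ * JJ m * f₀ ^ j) ∧
      (∀ f₀, Tendsto ρ₀ (𝓝[>] 0) (𝓝 f₀) → 1 ≤ l → b₁ = 0) ∧
      (l = 0 → C₀ * (R₀ ^ (j - 1) * (H₀ 0 - b₀)) ≤ R₁ - f₁) := by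
  have hΦ := Phi_nonneg h.prof0 j l
  obtain ⟨μ, N, hR⟩ := A4 m h.hC0 (Phi_mono h.prof0 j l) (Phi_zero h.prof0 j l)
  obtain ⟨hH, hρ⟩ := A8 h.hC0 h.star0 h.prof1 hΦ hR
  obtain ⟨e1, e2, e3, e4, e5⟩ := A9 h.prof1 hR.N_nn hR.N_mono hρ
  have hJ : 0 ≤ JJ m := by
    unfold JJ
    apply intervalIntegral.integral_nonneg (by norm_num)
    intro x hx
    positivity
  have hC := h.hC0
  have hCJ : 0 ≤ C₀ * JJ m := mul_nonneg hC.le hJ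
  have hRp := h.prof0.Rpos
  refine ⟨N, _, hR.N_nn, hR.N_mono, hH, rfl, hρ, e5, e2, e4, ?_, ?_, ?_⟩
  · intro f₀ hf₀ hl0 hfR hf0
    subst hl0
    have hmass := A6mass hR (Phi_top_zero h.prof0 j hf₀)
    have h6 := A6 h.hC0 hR
    rw [hmass, e3, ← ENNReal.ofReal_mul hCJ] at h6
    have hfj : 0 ≤ R₀ ^ j - f₀ ^ j := sub_nonneg.2 (pow_le_pow_left₀ hf0 hfR j)
    have := (ENNReal.ofReal_eq_ofReal_iff (by linarith) (mul_nonneg hCJ hfj)).1 h6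
    rw [hH] at this
    nlinarith [this]
  · intro f₀ hf₀ hl1
    have hmass := A6mass hR (Phi_top_pos h.prof0 j hl1 hf₀)
    have h6 := A6 h.hC0 hR
    rw [hmass, e3, ← ENNReal.ofReal_mul hCJ] at h6
    have := (ENNReal.ofReal_eq_ofReal_iff (by linarith) (mul_nonneg hCJ (pow_nonneg hRp.le j))).1 h6
    rw [hH] at this
    linarith
  · intro hl0
    subst hl0
    have h7 := A7 h.hC0 hR
    rw [e1] at h7
    have h10 := A10 h.prof0 (j := j) (le_trans (by norm_num) h.hj)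
    have h11 : ENNReal.ofReal C₀ * ENNReal.ofReal (R₀ ^ (j - 1) * (H₀ 0 - b₀)) ≤ ENNReal.ofReal (R₁ - C₀ * j * R₀ ^ (j - 1) * b₀) := by
      rw [h7]; gcongr
    rw [← ENNReal.ofReal_mul hC.le] at h11
    exact (ENNReal.ofReal_le_ofReal_iff (by linarith)).1 h11

/-- `b₀ = b₁ = 0`: the pair is regular. -/
theorem SPair.regular {m j l : ℕ} {C₀ C₁ : ℝ} {H₀ ρ₀ : ℝ → ℝ} {R₀ : ℝ} {H₁ ρ₁ : ℝ → ℝ} {R₁ : ℝ}
    (h : SPair m j l C₀ C₁ H₀ ρ₀ R₀ 0 H₁ ρ₁ R₁ 0) :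
    ∃ r₀ r₁, Pair m j l (C₀ * ((m : ℝ) + 2)) (C₁ * ((m : ℝ) + 2)) ρ₀ r₀ ρ₁ r₁ := by
  obtain ⟨N₁, f₁, a1, a2, a3, a4, a5, -⟩ := h.half
  obtain ⟨N₀, f₀, c1, c2, c3, c4, c5, -⟩ := h.symm.half
  rw [mul_zero] at a4 c4
  subst a4
  subst c4
  have hj1 : 1 ≤ j := le_trans (by norm_num) h.hj
  have hm2 : (0 : ℝ) < (m : ℝ) + 2 := by positivity
  have a5' : ∀ s, 0 < s → IntervalIntegrable (fun v => N₁ v / v ^ 3) volume 0 s ∧
      ρ₁ s = ∫ v in (0 : ℝ)..s, N₁ v / v ^ 3 := by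
    intro s hs; refine ⟨(a5 s hs).1, ?_⟩; rw [(a5 s hs).2, zero_add]
  have c5' : ∀ s, 0 < s → IntervalIntegrable (fun v => N₀ v / v ^ 3) volume 0 s ∧
      ρ₀ s = ∫ v in (0 : ℝ)..s, N₀ v / v ^ 3 := by
    intro s hs; refine ⟨(c5 s hs).1, ?_⟩; rw [(c5 s hs).2, zero_add]
  have reg : ∀ {H ρ N : ℝ → ℝ} {R b : ℝ}, Prof H ρ R b → (∀ v, 0 < v → 0 ≤ N v) → MonotoneOn N (Ioi 0) →
      (∀ s, 0 < s → IntervalIntegrable (fun v => N v / v ^ 3) volume 0 s ∧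
      ρ s = ∫ v in (0 : ℝ)..s, N v / v ^ 3) → Reg ρ (fun v => N v / v ^ 3) := by
    intro H ρ N R b hP hN hNm hρ
    refine ⟨fun t ht => div_nonneg (hN t ht) (by positivity), ?_, fun t ht => (hρ t ht).1,
      fun t ht => (hρ t ht).2, ⟨R, fun t ht => hP.rho_le t ht⟩, ?_⟩
    · intro a ha b hb hab
      have ha' : (0 : ℝ) < a := ha
      have hb' : (0 : ℝ) < b := hb
      have e1 : a ^ 3 * (N a / a ^ 3) = N a := by field_simp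
      have e2 : b ^ 3 * (N b / b ^ 3) = N b := by field_simp
      show a ^ 3 * (N a / a ^ 3) ≤ b ^ 3 * (N b / b ^ 3)
      rw [e1, e2]; exact hNm ha hb hab
    · have h1 := hP.lim.eventually (lt_mem_nhds hP.Rpos)
      obtain ⟨t, ht⟩ := (h1.and (eventually_gt_atTop 0)).exists
      exact ⟨t, ht.2, ht.1⟩
  have r0 := reg h.prof0 c1 c2 c5'
  have r1 := reg h.prof1 a1 a2 a5'
  have step : ∀ {C : ℝ} {H ρ N : ℝ → ℝ} {R : ℝ} {H' ρ' N' : ℝ → ℝ} {R' : ℝ}, 0 < C → Prof H ρ R 0 →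
      Prof H' ρ' R' 0 → Star m j l C ρ R 0 H' → (∀ v, 0 < v → 0 ≤ N v) → MonotoneOn N (Ioi 0) →
      (∀ s, 0 < s → IntervalIntegrable (fun v => N v / v ^ 3) volume 0 s ∧
      ρ s = ∫ v in (0 : ℝ)..s, N v / v ^ 3) → (∀ v, 0 < v → 0 ≤ N' v) → MonotoneOn N' (Ioi 0) →
      (∀ s, 0 < s → IntervalIntegrable (fun v => N' v / v ^ 3) volume 0 s ∧
      ρ' s = ∫ v in (0 : ℝ)..s, N' v / v ^ 3) →
      Step m j l (C * ((m : ℝ) + 2)) ρ (fun v => N v / v ^ 3) (fun v => N' v / v ^ 3) := by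
    intro C H ρ N R H' ρ' N' R' hC hP hP' hS hN hNm hρ hN' hNm' hρ'
    obtain ⟨hint, μ', hRep⟩ := A13 (m := m) (l := l) hj1 hC hP hN hNm (fun s hs => (hρ s hs).1)
      (fun s hs => (hρ s hs).2)
    have h8 := (A8 hC hS hP' (Phi_nonneg hP j l) hRep).2
    exact A14 hC (fun t ht => hP.nn t ht) hP.mono hN hNm hN' hNm' hint hRep.N_mono hρ'
      (fun s hs => ⟨(h8 s hs).1, by rw [(h8 s hs).2, mul_zero, zero_add]⟩)
  exact ⟨_, _, ⟨h.hj, h.hn, mul_pos h.hC0 hm2, mul_pos h.hC1 hm2, r0, r1,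
    step h.hC0 h.prof0 h.prof1 h.star0 c1 c2 c5' a1 a2 a5',
    step h.hC1 h.prof1 h.prof0 h.star1 a1 a2 a5' c1 c2 c5'⟩⟩

theorem JJ_pos (m : ℕ) : 0 < JJ m := by
  unfold JJ
  apply intervalIntegral.intervalIntegral_pos_of_pos_on
  · apply Continuous.intervalIntegrable
    fun_prop
  · intro x hx
    have : 0 < √(1 - x ^ 2) := Real.sqrt_pos.2 (by nlinarith [hx.1, hx.2])
    positivity
  · norm_num

/-- `l = 0` and `f₀ > 0` imply that `ρ₀` is constant. -/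
theorem SPair.face {m j : ℕ} {C₀ C₁ : ℝ} {H₀ ρ₀ : ℝ → ℝ} {R₀ b₀ : ℝ} {H₁ ρ₁ : ℝ → ℝ} {R₁ b₁ : ℝ}
    (h : SPair m j 0 C₀ C₁ H₀ ρ₀ R₀ b₀ H₁ ρ₁ R₁ b₁) {f₀ : ℝ} (hf : Tendsto ρ₀ (𝓝[>] 0) (𝓝 f₀))
    (hpos : 0 < f₀) : R₀ = f₀ := by
  obtain ⟨N₁, f₁, a1, a2, a3, a4, a5, a6, a7, a8, a9, a10, a11⟩ := h.half
  obtain ⟨N₀, f₀', c1, c2, c3, c4, c5, c6, c7, c8, c9, c10, c11⟩ := h.symm.half
  have e := tendsto_nhds_unique hf c6
  subst e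
  have hb1 := a9 f₀ hf rfl c7 hpos.le
  have hH1 := a3
  have hJ := JJ_pos m
  have hC0 := h.hC0
  have hC1 := h.hC1
  have hR1 := h.prof1.Rpos
  have hκ : 0 < C₁ * R₁ ^ (j - 1) * (C₀ * JJ m) := by positivity
  apply A11 h.hj hκ hpos c7
  · rw [hb1] at c4
    linarith
  · have h12 := c11 rfl
    rw [hH1, hb1] at h12
    calc C₁ * R₁ ^ (j - 1) * (C₀ * JJ m) * (R₀ ^ j - f₀ ^ j)
        = C₁ * (R₁ ^ (j - 1) * (C₀ * JJ m * R₀ ^ j - C₀ * JJ m * f₀ ^ j)) := by ring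
      _ ≤ R₀ - f₀ := h12

theorem Prof.const_of_face {H ρ : ℝ → ℝ} {R b f : ℝ} (h : Prof H ρ R b) (hf : Tendsto ρ (𝓝[>] 0) (𝓝 f))
    (he : R = f) : ∀ t, 0 ≤ t → H t = b + R * t := by
  have hρ : ∀ t, 0 < t → ρ t = R := by
    intro t ht
    apply le_antisymm (h.rho_le t ht)
    rw [he]
    apply le_of_tendsto hf
    filter_upwards [Ioc_mem_nhdsGT ht] with x hx
    exact h.mono (mem_Ioi.2 hx.1) (mem_Ioi.2 ht) hx.2
  have hH : ∀ t, 0 ≤ t → H t = H 0 + R * t := by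
    intro t ht
    rw [h.H_int t ht]
    congr 1
    rw [intervalIntegral.integral_of_le ht, setIntegral_congr_fun measurableSet_Ioc (g := fun _ => R)
      (fun x hx => hρ x hx.1)]
    rw [← intervalIntegral.integral_of_le ht]
    simp [mul_comm]
  have hb : b = H 0 := by
    apply tendsto_nhds_unique h.blim
    apply (tendsto_const_nhds (x := H 0)).congr'
    filter_upwards [eventually_ge_atTop 0] with t ht
    rw [hH t ht]; ring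
  intro t ht
  rw [hH t ht, hb]

/-- **Classification of pairs.** -/
theorem SPair.classify {m j l : ℕ} {C₀ C₁ : ℝ} {H₀ ρ₀ : ℝ → ℝ} {R₀ b₀ : ℝ} {H₁ ρ₁ : ℝ → ℝ} {R₁ b₁ : ℝ}
    (h : SPair m j l C₀ C₁ H₀ ρ₀ R₀ b₀ H₁ ρ₁ R₁ b₁) :
    (1 ≤ l → (∀ t, 0 ≤ t → H₀ t = R₀ * √(1 ^ 2 + t ^ 2)) ∧ (∀ t, 0 ≤ t → H₁ t = R₁ * √(1 ^ 2 + t ^ 2))) ∧
    (l = 0 → (∃ lam, 0 < lam ∧ (∀ t, 0 ≤ t → H₀ t = R₀ * √(lam ^ 2 + t ^ 2)) ∧
        (∀ t, 0 ≤ t → H₁ t = R₁ * √((1 / lam) ^ 2 + t ^ 2))) ∨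
      (0 < b₀ ∧ 0 < b₁ ∧ (∀ t, 0 ≤ t → H₀ t = b₀ + R₀ * t) ∧ (∀ t, 0 ≤ t → H₁ t = b₁ + R₁ * t))) := by
  obtain ⟨N₁, f₁, a1, a2, a3, a4, a5, a6, a7, a8, a9, a10, a11⟩ := h.half
  obtain ⟨N₀, f₀, c1, c2, c3, c4, c5, c6, c7, c8, c9, c10, c11⟩ := h.symm.half
  constructor
  · intro hl
    have hb1 := a10 f₀ c6 hl
    have hb0 := c10 f₁ a6 hl
    subst hb1
    subst hb0
    obtain ⟨r₀, r₁, hp⟩ := h.regular
    obtain ⟨x, hx, hx2⟩ := hp.main_lt hl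
    obtain ⟨y, hy, hy2⟩ := hp.symm.main_lt hl
    exact ⟨A15 one_pos h.prof0 (fun t ht => ⟨hp.nice0.int t ht, hp.nice0.rho t ht⟩) hx2,
      A15 one_pos h.prof1 (fun t ht => ⟨hp.nice1.int t ht, hp.nice1.rho t ht⟩) hy2⟩
  · intro hl
    subst hl
    have hf0nn : 0 ≤ f₀ := by
      rw [c4]
      have := h.hC1; have := h.prof1.Rpos; have := h.prof1.bnn
      positivity
    have hf1nn : 0 ≤ f₁ := by
      rw [a4]
      have := h.hC0; have := h.prof0.Rpos; have := h.prof0.bnn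
      positivity
    have hb1 := a9 f₀ c6 rfl c7 hf0nn
    have hb0 := c9 f₁ a6 rfl a7 hf1nn
    have hj0 : j ≠ 0 := by have := h.hj; omega
    have hJ := JJ_pos m
    -- full face of body 0 gives `b₀ > 0`, hence full face of body 1
    have full0 : 0 < f₀ → 0 < b₀ := by
      intro hpos
      have e := h.face c6 hpos
      have hH := h.prof0.const_of_face c6 e 0 le_rfl
      rw [mul_zero, add_zero] at hH
      rw [← hH, c3]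
      have := h.hC1; have := h.prof1.Rpos
      positivity
    have full1 : 0 < f₁ → 0 < b₁ := by
      intro hpos
      have e := h.symm.face a6 hpos
      have hH := h.prof1.const_of_face a6 e 0 le_rfl
      rw [mul_zero, add_zero] at hH
      rw [← hH, a3]
      have := h.hC0; have := h.prof0.Rpos
      positivity
    have g1 : 0 < b₀ → 0 < f₁ := by
      intro hb
      rw [a4]
      have := h.hC0; have := h.prof0.Rpos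
      have hjp : (0 : ℝ) < j := by have := h.hj; positivity
      positivity
    have g0 : 0 < b₁ → 0 < f₀ := by
      intro hb
      rw [c4]
      have := h.hC1; have := h.prof1.Rpos
      have hjp : (0 : ℝ) < j := by have := h.hj; positivity
      positivity
    rcases eq_or_lt_of_le hf0nn with e | hpos
    · -- regular case
      left
      have hb1' : b₁ = 0 := by rw [hb1, ← e, zero_pow hj0, mul_zero]
      have hf1 : f₁ = 0 := by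
        rcases eq_or_lt_of_le hf1nn with e' | h'
        · exact e'.symm
        · exfalso
          have := full1 h'
          linarith
      have hb0' : b₀ = 0 := by rw [hb0, hf1, zero_pow hj0, mul_zero]
      subst hb1'
      subst hb0'
      obtain ⟨r₀, r₁, hp⟩ := h.regular
      obtain ⟨lam, x, y, hlam, hx, hy, hx2, hy2⟩ := hp.main_eq
      exact ⟨lam, hlam, A15 hlam h.prof0 (fun t ht => ⟨hp.nice0.int t ht, hp.nice0.rho t ht⟩) hx2,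
        A15 (by positivity) h.prof1 (fun t ht => ⟨hp.nice1.int t ht, hp.nice1.rho t ht⟩) hy2⟩
    · right
      have hb0p := full0 hpos
      have hf1p := g1 hb0p
      have hb1p := full1 hf1p
      exact ⟨hb0p, hb1p, h.prof0.const_of_face c6 (h.face c6 hpos),
        h.prof1.const_of_face a6 (h.symm.face a6 hf1p)⟩

end Pool.Agent.RB75
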