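import Pool.Agent.RB75.GDefs

/-! Module RB-G0: basic facts on support functions of compact convex nonempty sets. -/

namespace Pool.Agent.RB75
open MeasureTheory Set Filter Topology
open scoped RealInnerProductSpace Pointwise

variable {k : ℕ} {K : Set (E k)}

theorem CCN.bdd (h : CCN K) (v : E k) : BddAbove ((fun x => ⟪v, x⟫) '' K) :=
  (h.compact.image (by fun_prop)).bddAbove
theorem CCN.le_supp (h : CCN K) (v : E k) {x : E k} (hx : x ∈ K) : ⟪v, x⟫ ≤ supp K v :=
  le_csSup (h.bdd v) ⟨x, hx, rfl⟩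
theorem CCN.exists_supp (h : CCN K) (v : E k) : ∃ x ∈ K, ⟪v, x⟫ = supp K v := by
  obtain ⟨x, hx, hm⟩ := h.compact.exists_isMaxOn h.nonempty
    (f := fun x => ⟪v, x⟫) (by fun_prop)
  refine ⟨x, hx, le_antisymm (h.le_supp v hx) ?_⟩
  apply csSup_le (h.nonempty.image _)
  rintro _ ⟨y, hy, rfl⟩
  exact hm hy
theorem CCN.supp_le (h : CCN K) {v : E k} {c : ℝ} (hc : ∀ x ∈ K, ⟪v, x⟫ ≤ c) : supp K v ≤ c := by
  obtain ⟨x, hx, hx'⟩ := h.exists_supp v
  rw [← hx']; exact hc x hx
theorem CCN.supp_smul (h : CCN K) {c : ℝ} (hc : 0 ≤ c) (v : E k) : supp K (c • v) = c * supp K v := by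
  apply le_antisymm
  · apply h.supp_le
    intro x hx
    rw [real_inner_smul_left]
    exact mul_le_mul_of_nonneg_left (h.le_supp v hx) hc
  · obtain ⟨x, hx, hx'⟩ := h.exists_supp v
    rw [← hx', ← real_inner_smul_left]
    exact h.le_supp _ hx
theorem CCN.supp_add_le (h : CCN K) (v w : E k) : supp K (v + w) ≤ supp K v + supp K w := by
  apply h.supp_le
  intro x hx
  rw [inner_add_left]
  exact add_le_add (h.le_supp v hx) (h.le_supp w hx)
theorem CCN.supp_continuous (h : CCN K) : Continuous (supp K) := by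
  obtain ⟨M, hM⟩ := h.compact.isBounded.exists_norm_le
  have key : ∀ v w : E k, supp K v - supp K w ≤ M * ‖v - w‖ := by
    intro v w
    obtain ⟨x, hx, hx'⟩ := h.exists_supp v
    have h1 := h.le_supp w hx
    have h2 : ⟪v, x⟫ - ⟪w, x⟫ = ⟪v - w, x⟫ := (inner_sub_left _ _ _).symm
    have h3 : ⟪v - w, x⟫ ≤ ‖v - w‖ * ‖x‖ := real_inner_le_norm _ _
    have h4 : ‖v - w‖ * ‖x‖ ≤ ‖v - w‖ * M := mul_le_mul_of_nonneg_left (hM x hx) (norm_nonneg _)
    rw [← hx']; linarith
  have hM0 : 0 ≤ M := by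
    obtain ⟨x, hx⟩ := h.nonempty
    exact (norm_nonneg x).trans (hM x hx)
  have hL : LipschitzWith (Real.toNNReal M) (supp K) := by
    apply LipschitzWith.of_dist_le_mul
    intro v w
    rw [Real.dist_eq, dist_eq_norm, Real.coe_toNNReal _ hM0, abs_le]
    constructor
    · have := key w v
      rw [norm_sub_rev] at this
      linarith
    · exact key v w
  exact hL.continuous
/-- Hahn-Banach (`geometric_hahn_banach_closed_point` + Riesz, or `iInter_halfSpaces_eq`). -/
theorem CCN.mem_iff (h : CCN K) (x : E k) : x ∈ K ↔ ∀ v, ⟪v, x⟫ ≤ supp K v := by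
  constructor
  · intro hx v
    exact h.le_supp v hx
  · intro hv
    by_contra hx
    obtain ⟨f, u, hf, hu⟩ := geometric_hahn_banach_closed_point h.convex h.compact.isClosed hx
    set v : E k := (InnerProductSpace.toDual ℝ (E k)).symm f with hvdef
    have hfv : ∀ y, ⟪v, y⟫ = f y := fun y => by
      rw [hvdef, InnerProductSpace.toDual_symm_apply]
    have h1 : supp K v ≤ u := h.supp_le fun y hy => by rw [hfv]; exact (hf y hy).le
    have h2 := hv v
    rw [hfv] at h2
    linarith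
theorem CCN.ext {L : Set (E k)} (h : CCN K) (h' : CCN L) (hs : ∀ v, supp K v = supp L v) : K = L := by
  ext x; rw [h.mem_iff, h'.mem_iff]; simp [hs]
/-- homothets. -/
theorem CCN.homothety (h : CCN K) {c : ℝ} (hc : 0 < c) (x : E k) : CCN ((fun y => c • y + x) '' K) := by
  have _ := hc
  refine ⟨h.compact.image (by fun_prop), ?_, h.nonempty.image _⟩
  have : (fun y => c • y + x) '' K = (fun y => y + x) '' ((fun y => c • y) '' K) := by
    rw [Set.image_image]
  rw [this]
  have h1 : Convex ℝ ((fun y => c • y) '' K) := h.convex.smul c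
  intro a ha b hb s t hs ht hst
  obtain ⟨a', ha', rfl⟩ := ha
  obtain ⟨b', hb', rfl⟩ := hb
  refine ⟨s • a' + t • b', h1 ha' hb' hs ht hst, ?_⟩
  have : x = s • x + t • x := by rw [← add_smul, hst, one_smul]
  simp only [smul_add]
  calc s • a' + t • b' + x = s • a' + t • b' + (s • x + t • x) := by rw [← this]
    _ = _ := by abel
theorem CCN.supp_homothety (h : CCN K) {c : ℝ} (hc : 0 < c) (x v : E k) :
    supp ((fun y => c • y + x) '' K) v = c * supp K v + ⟪v, x⟫ := by
  apply le_antisymm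
  · apply (h.homothety hc x).supp_le
    rintro _ ⟨y, hy, rfl⟩
    simp only [inner_add_right, real_inner_smul_right]
    have := mul_le_mul_of_nonneg_left (h.le_supp v hy) hc.le
    linarith
  · obtain ⟨y, hy, hy'⟩ := h.exists_supp v
    have := (h.homothety hc x).le_supp v (x := c • y + x) ⟨y, hy, rfl⟩
    rw [inner_add_right, real_inner_smul_right, hy'] at this
    exact this
/-- parallel bodies (`IsCompact.add_closedBall_zero`). -/
theorem CCN.cthickening (h : CCN K) {ε : ℝ} (hε : 0 < ε) : CCN (Metric.cthickening ε K) := by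
  have _ := hε
  refine ⟨h.compact.cthickening, h.convex.cthickening ε, ?_⟩
  obtain ⟨x, hx⟩ := h.nonempty
  exact ⟨x, Metric.self_subset_cthickening K hx⟩
theorem CCN.supp_cthickening (h : CCN K) {ε : ℝ} (hε : 0 < ε) (v : E k) :
    supp (Metric.cthickening ε K) v = supp K v + ε * ‖v‖ := by
  have he : Metric.cthickening ε K = K + Metric.closedBall (0 : E k) ε :=
    (IsCompact.add_closedBall_zero h.compact hε.le).symm
  apply le_antisymm
  · apply (h.cthickening hε).supp_le
    intro x hx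
    rw [he] at hx
    obtain ⟨y, hy, b, hb, rfl⟩ := Set.mem_add.1 hx
    rw [inner_add_right]
    have h1 := h.le_supp v hy
    have h2 : ⟪v, b⟫ ≤ ‖v‖ * ‖b‖ := real_inner_le_norm _ _
    have h3 : ‖b‖ ≤ ε := by simpa using hb
    have h4 := mul_le_mul_of_nonneg_left h3 (norm_nonneg v)
    linarith
  · obtain ⟨y, hy, hy'⟩ := h.exists_supp v
    by_cases hv : v = 0
    · subst hv
      have := (h.cthickening hε).le_supp 0 (x := y) (Metric.self_subset_cthickening K hy)
      rw [← hy']; simpa using this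
    · have hv' : 0 < ‖v‖ := norm_pos_iff.2 hv
      have hmem : y + (ε / ‖v‖) • v ∈ Metric.cthickening ε K := by
        rw [he]
        refine Set.add_mem_add hy ?_
        rw [mem_closedBall_zero_iff, norm_smul, Real.norm_eq_abs, abs_of_nonneg (by positivity)]
        rw [div_mul_cancel₀ _ hv'.ne']
      have := (h.cthickening hε).le_supp v hmem
      rw [inner_add_right, real_inner_smul_right, hy', real_inner_self_eq_norm_sq] at this
      have h5 : ε / ‖v‖ * ‖v‖ ^ 2 = ε * ‖v‖ := by field_simp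
      linarith

/-- properties of `perp`. -/
theorem norm_perp_sq {e : E k} (he : ‖e‖ = 1) (v : E k) : ‖perp e v‖ ^ 2 = ‖v‖ ^ 2 - ⟪v, e⟫ ^ 2 := by
  rw [perp, norm_sub_sq_real, real_inner_smul_right, norm_smul, he, Real.norm_eq_abs, mul_one,
    sq_abs]
  ring
theorem inner_perp {e : E k} (he : ‖e‖ = 1) (v : E k) : ⟪perp e v, e⟫ = 0 := by
  rw [perp, inner_sub_left, real_inner_smul_left, real_inner_self_eq_norm_sq, he]
  ring
theorem perp_add_smul {e g : E k} (he : ‖e‖ = 1) (hg : ⟪g, e⟫ = 0) (α β : ℝ) :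
    perp e (α • e + β • g) = β • g := by
  rw [perp, inner_add_left, real_inner_smul_left, real_inner_smul_left, hg,
    real_inner_self_eq_norm_sq, he]
  simp
/-- a unit vector orthogonal to `e` exists in dimension `≥ 2`. -/
theorem exists_unit_perp (hk : 2 ≤ k) (e : E k) : ∃ g : E k, ‖g‖ = 1 ∧ ⟪g, e⟫ = 0 := by
  have h1 : Module.finrank ℝ (ℝ ∙ e) ≤ 1 := by
    simpa using finrank_span_le_card (R := ℝ) ({e} : Set (E k))
  have h2 := Submodule.finrank_add_finrank_orthogonal (ℝ ∙ e)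
  have h3 : Module.finrank ℝ (E k) = k := by simp
  have h4 : 0 < Module.finrank ℝ (ℝ ∙ e)ᗮ := by omega
  have : Nontrivial (ℝ ∙ e)ᗮ := Module.finrank_pos_iff.1 h4
  obtain ⟨⟨w, hw⟩, hw0⟩ := exists_ne (0 : (ℝ ∙ e)ᗮ)
  have hw0' : w ≠ 0 := fun h => hw0 (Subtype.ext h)
  have hwe : ⟪w, e⟫ = 0 := by
    rw [real_inner_comm]
    exact Submodule.mem_orthogonal_singleton_iff_inner_right.1 hw
  refine ⟨‖w‖⁻¹ • w, ?_, ?_⟩
  · rw [norm_smul, norm_inv, norm_norm, inv_mul_cancel₀ (norm_ne_zero_iff.2 hw0')]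
  · rw [real_inner_smul_left, hwe, mul_zero]
/-- every vector orthogonal to `e` is a multiple of a unit vector orthogonal to `e`. -/
theorem exists_unit_dir (hk : 2 ≤ k) {e v : E k} (h : ⟪v, e⟫ = 0) :
    ∃ g : E k, ‖g‖ = 1 ∧ ⟪g, e⟫ = 0 ∧ v = ‖v‖ • g := by
  by_cases hv : v = 0
  · obtain ⟨g, hg, hg'⟩ := exists_unit_perp hk e
    exact ⟨g, hg, hg', by rw [hv]; simp⟩
  · have hv' := norm_ne_zero_iff.2 hv
    refine ⟨‖v‖⁻¹ • v, ?_, ?_, ?_⟩
    · rw [norm_smul, norm_inv, norm_norm, inv_mul_cancel₀ hv']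
    · rw [real_inner_smul_left, h, mul_zero]
    · rw [smul_smul, mul_inv_cancel₀ hv', one_smul]

end Pool.Agent.RB75
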