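import Pool.Agent.RB75.ADefs
import Pool.Agent.RB75.A10
import Pool.Agent.RB75.G0

/-! Module RB-G10: positivity.

(a) `K` symmetric with nonempty interior: `supp K v > 0` for `v ≠ 0` (`K ⊇ closedBall x₀ δ`:
`supp K v ≥ ⟪v,x₀⟫ + δ‖v‖`, `supp K v = supp K (-v) ≥ -⟪v,x₀⟫ + δ‖v‖`).
(b) if `Star` and `Prof H ρ R b` and `H 0 > 0` then `H'` is unbounded above on `(0,∞)`.
Proof: suppose `H' t ≤ B` for all `t > 0`. All three terms of `Star.eq` are `≥ 0`. Then `b = 0`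
(`j ≥ 1`, the term `j R^{j-1} b t`). For `x₁ > 0` and `t ≥ 4 x₁`, on `z ∈ (x₁/t, 2x₁/t)`:
`Phi(t z) √(1-z²)^{m+2}/z² ≥ Phi(x₁) (1/2)^{m+2} t²/(4x₁²)`, so `H' t ≥ C Phi(x₁) (1/2)^{m+2} t/(4x₁)`; hence
`Phi(x₁) = 0` for all `x₁ > 0`, i.e. `ρ(τ)^j sg(τ)^l = R^j`, so `ρ(τ) = R` for all `τ > 0` (`ρ ≤ R`, `sg < 1`), so
`H t - R t = H 0` and `b = H 0 > 0`: contradiction. -/

namespace Pool.Agent.RB75
open MeasureTheory Set Filter Topology
open scoped RealInnerProductSpace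

theorem supp_pos {k : ℕ} {K : Set (E k)} (hK : CCN K) (hint : (interior K).Nonempty) (hs : ∀ y ∈ K, -y ∈ K)
    {v : E k} (hv : v ≠ 0) : 0 < supp K v := by
  obtain ⟨x₀, hx₀⟩ := hint
  obtain ⟨δ, hδ, hball⟩ := Metric.isOpen_iff.1 isOpen_interior x₀ hx₀
  have hv' : 0 < ‖v‖ := norm_pos_iff.2 hv
  have hmem : ∀ c : ℝ, |c| * ‖v‖ < δ → x₀ + c • v ∈ K := by
    intro c hc
    refine interior_subset (hball ?_)
    rw [Metric.mem_ball, dist_eq_norm, add_sub_cancel_left, norm_smul, Real.norm_eq_abs]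
    exact hc
  set c : ℝ := δ / (2 * ‖v‖) with hcd
  have hc0 : 0 < c := by positivity
  have hcv : c * ‖v‖ = δ / 2 := by
    rw [hcd]; field_simp
  have h1 : x₀ + c • v ∈ K := hmem c (by rw [abs_of_pos hc0, hcv]; linarith)
  have h2 : x₀ + (-c) • v ∈ K := hmem (-c) (by rw [abs_neg, abs_of_pos hc0, hcv]; linarith)
  have h3 := hK.le_supp v h1
  have h4 := hK.le_supp v (hs _ h2)
  rw [inner_add_right, real_inner_smul_right, real_inner_self_eq_norm_sq] at h3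
  rw [inner_neg_right, inner_add_right, real_inner_smul_right, real_inner_self_eq_norm_sq] at h4
  have h5 : 0 < c * ‖v‖ ^ 2 := by positivity
  linarith

theorem G10_JJ_pos (m : ℕ) : 0 < JJ m := by
  unfold JJ
  refine intervalIntegral.intervalIntegral_pos_of_pos_on ?_ ?_ one_pos
  · exact Continuous.intervalIntegrable (by fun_prop) _ _
  · intro z hz
    have h1 : 0 < 1 - z ^ 2 := by nlinarith [hz.1, hz.2]
    have h2 : 0 < √(1 - z ^ 2) := Real.sqrt_pos.2 h1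
    positivity

theorem G10_int_nonneg {m j l : ℕ} {H ρ : ℝ → ℝ} {R b : ℝ} (hP : Prof H ρ R b) (t : ℝ) (ht : 0 < t) :
    ∀ z ∈ Ioo (0 : ℝ) 1, 0 ≤ Phi j l ρ R (t * z) * √(1 - z ^ 2) ^ (m + 2) / z ^ 2 := by
  intro z hz
  have h1 := Phi_nonneg hP j l (t * z) (mul_pos ht hz.1)
  have h2 : 0 ≤ √(1 - z ^ 2) := Real.sqrt_nonneg _
  positivity

theorem G10_pos_aux {m j l : ℕ} {H ρ : ℝ → ℝ} {R b : ℝ} (hP : Prof H ρ R b) (t : ℝ) (ht : 0 < t) :
    0 ≤ ∫ z in Ioo (0 : ℝ) 1, Phi j l ρ R (t * z) * √(1 - z ^ 2) ^ (m + 2) / z ^ 2 :=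
  setIntegral_nonneg measurableSet_Ioo (G10_int_nonneg hP t ht)

/-- `Star.eq` is positive. -/
theorem Star.pos {m j l : ℕ} {C : ℝ} (hC : 0 < C) {H ρ H' : ℝ → ℝ} {R b : ℝ}
    (hP : Prof H ρ R b) (hS : Star m j l C ρ R b H') (t : ℝ) (ht : 0 < t) : 0 < H' t := by
  rw [hS.eq t ht]
  have h1 := G10_JJ_pos m
  have h2 := hP.Rpos
  have h3 := hP.bnn
  have h4 := G10_pos_aux (m := m) (j := j) (l := l) hP t ht
  have h5 : 0 < JJ m * R ^ j := by positivity
  have h6 : 0 ≤ (j : ℝ) * R ^ (j - 1) * b * t := by positivity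
  exact mul_pos hC (by linarith)

theorem G10_lower {m j l : ℕ} {C : ℝ} {H ρ H' : ℝ → ℝ} {R b : ℝ}
    (hP : Prof H ρ R b) (hS : Star m j l C ρ R b H') {x t : ℝ} (hx : 0 < x) (ht : 4 * x ≤ t) :
    Phi j l ρ R x * (1 / 2) ^ (m + 2) * t / (4 * x) ≤
      ∫ z in Ioo (0 : ℝ) 1, Phi j l ρ R (t * z) * √(1 - z ^ 2) ^ (m + 2) / z ^ 2 := by
  have ht0 : 0 < t := by linarith
  have hΦ := Phi_nonneg hP j l x hx
  have hsub : Ioo (x / t) (2 * x / t) ⊆ Ioo (0 : ℝ) 1 := by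
    intro z hz
    refine ⟨lt_trans (by positivity) hz.1, hz.2.trans_le ?_⟩
    rw [div_le_one ht0]
    linarith
  have hint := hS.int t ht0
  have h1 : ∫ z in Ioo (x / t) (2 * x / t), Phi j l ρ R (t * z) * √(1 - z ^ 2) ^ (m + 2) / z ^ 2 ≤
      ∫ z in Ioo (0 : ℝ) 1, Phi j l ρ R (t * z) * √(1 - z ^ 2) ^ (m + 2) / z ^ 2 := by
    refine setIntegral_mono_set hint ?_ (LE.le.eventuallyLE hsub)
    filter_upwards [ae_restrict_mem measurableSet_Ioo] with z hz
    exact G10_int_nonneg hP t ht0 z hz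
  have h2 : ∫ _z in Ioo (x / t) (2 * x / t), Phi j l ρ R x * (1 / 2) ^ (m + 2) * (t ^ 2 / (4 * x ^ 2)) ≤
      ∫ z in Ioo (x / t) (2 * x / t), Phi j l ρ R (t * z) * √(1 - z ^ 2) ^ (m + 2) / z ^ 2 := by
    refine setIntegral_mono_on (integrableOn_const (by simp)) (hint.mono_set hsub)
      measurableSet_Ioo ?_
    intro z hz
    have hz0 : 0 < z := (hsub hz).1
    have hz1 : z ≤ 1 / 2 := by
      refine hz.2.le.trans ?_
      rw [div_le_iff₀ ht0]
      linarith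
    have e1 : Phi j l ρ R x ≤ Phi j l ρ R (t * z) := by
      apply Phi_mono hP j l (mem_Ioi.2 hx) (mem_Ioi.2 (mul_pos ht0 hz0))
      have := hz.1.le
      rw [div_le_iff₀ ht0] at this
      linarith
    have e2 : (1 / 2 : ℝ) ≤ √(1 - z ^ 2) := by
      apply Real.le_sqrt_of_sq_le
      nlinarith
    have e3 : (1 / 2 : ℝ) ^ (m + 2) ≤ √(1 - z ^ 2) ^ (m + 2) :=
      pow_le_pow_left₀ (by norm_num) e2 _
    have e4 : t ^ 2 / (4 * x ^ 2) ≤ 1 / z ^ 2 := by
      rw [div_le_div_iff₀ (by positivity) (by positivity), one_mul]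
      have := hz.2.le
      rw [le_div_iff₀ ht0] at this
      have h5 : (z * t) ^ 2 ≤ (2 * x) ^ 2 := pow_le_pow_left₀ (by positivity) this 2
      nlinarith
    rw [div_eq_mul_one_div (Phi j l ρ R (t * z) * √(1 - z ^ 2) ^ (m + 2))]
    have e5 : Phi j l ρ R x * (1 / 2) ^ (m + 2) ≤ Phi j l ρ R (t * z) * √(1 - z ^ 2) ^ (m + 2) :=
      mul_le_mul e1 e3 (by positivity) (hΦ.trans e1)
    exact mul_le_mul e5 e4 (by positivity) ((by positivity : (0 : ℝ) ≤ _).trans e5)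
  refine le_trans (le_of_eq ?_) (h2.trans h1)
  rw [setIntegral_const, smul_eq_mul]
  have h3 : x / t ≤ 2 * x / t := by
    rw [div_le_div_iff_of_pos_right ht0]
    linarith
  rw [Real.volume_real_Ioo_of_le h3]
  field_simp
  ring

theorem Star.unbounded {m j l : ℕ} (hj : 1 ≤ j) {C : ℝ} (hC : 0 < C) {H ρ H' : ℝ → ℝ} {R b : ℝ}
    (hP : Prof H ρ R b) (hH : 0 < H 0) (hS : Star m j l C ρ R b H') (B : ℝ) :
    ∃ t, 0 < t ∧ B < H' t := by
  by_contra hcon
  push Not at hcon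
  have hR := hP.Rpos
  have hb := hP.bnn
  have hJ := G10_JJ_pos m
  have hJR : 0 < JJ m * R ^ j := by positivity
  -- `b = 0`
  have hb0 : b = 0 := by
    by_contra hne
    have hbpos : 0 < b := lt_of_le_of_ne hb (Ne.symm hne)
    have hj0 : (0 : ℝ) < j := by exact_mod_cast hj
    set c := C * ((j : ℝ) * R ^ (j - 1) * b) with hc
    have hcpos : 0 < c := by positivity
    have ht : 0 < (|B| + 1) / c := by positivity
    have h1 := hcon _ ht
    rw [hS.eq _ ht] at h1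
    have h2 := G10_pos_aux (m := m) (j := j) (l := l) hP _ ht
    have h3 : C * ((j : ℝ) * R ^ (j - 1) * b * ((|B| + 1) / c)) = |B| + 1 := by
      rw [← mul_assoc C, ← hc]
      field_simp
    have h4 : C * ((j : ℝ) * R ^ (j - 1) * b * ((|B| + 1) / c)) ≤
        C * (JJ m * R ^ j + (j : ℝ) * R ^ (j - 1) * b * ((|B| + 1) / c) +
          ∫ z in Ioo (0 : ℝ) 1, Phi j l ρ R ((|B| + 1) / c * z) * √(1 - z ^ 2) ^ (m + 2) / z ^ 2) :=
      mul_le_mul_of_nonneg_left (by linarith) hC.le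
    have h5 := le_abs_self B
    linarith
  -- `Phi = 0`
  have hΦ0 : ∀ x, 0 < x → Phi j l ρ R x = 0 := by
    intro x hx
    by_contra hne
    have hΦ : 0 < Phi j l ρ R x := lt_of_le_of_ne (Phi_nonneg hP j l x hx) (Ne.symm hne)
    set c := C * (Phi j l ρ R x * (1 / 2) ^ (m + 2) / (4 * x)) with hc
    have hcpos : 0 < c := by positivity
    set t := max (4 * x) ((|B| + 1) / c) with htd
    have ht4 : 4 * x ≤ t := le_max_left _ _
    have ht : 0 < t := by linarith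
    have htc : |B| + 1 ≤ c * t := by
      have := le_max_right (4 * x) ((|B| + 1) / c)
      rw [← htd, div_le_iff₀ hcpos] at this
      linarith
    have h1 := hcon _ ht
    rw [hS.eq _ ht] at h1
    have h2 := G10_lower hP hS hx ht4
    have h3 : 0 ≤ (j : ℝ) * R ^ (j - 1) * b * t := by positivity
    have h4 : c * t ≤ C * (JJ m * R ^ j + (j : ℝ) * R ^ (j - 1) * b * t +
        ∫ z in Ioo (0 : ℝ) 1, Phi j l ρ R (t * z) * √(1 - z ^ 2) ^ (m + 2) / z ^ 2) := by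
      calc c * t = C * (Phi j l ρ R x * (1 / 2) ^ (m + 2) * t / (4 * x)) := by
            rw [hc]; ring
        _ ≤ _ := mul_le_mul_of_nonneg_left (by linarith) hC.le
    have h5 := le_abs_self B
    linarith
  -- `ρ = R`
  have hρ : ∀ τ, 0 < τ → ρ τ = R := by
    intro τ hτ
    have h1 := hΦ0 (1 / τ) (one_div_pos.2 hτ)
    unfold Phi FF at h1
    rw [one_div_one_div] at h1
    have h2 := hP.nn τ hτ
    have h3 := hP.rho_le τ hτ
    have h4 : sg τ ^ l ≤ 1 := pow_le_one₀ (sg_nonneg hτ.le) (sg_lt_one _).le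
    have h5 : ρ τ ^ j * sg τ ^ l ≤ ρ τ ^ j := mul_le_of_le_one_right (pow_nonneg h2 j) h4
    have h6 : R ^ j ≤ ρ τ ^ j := by linarith
    have h7 : R ≤ ρ τ := le_of_pow_le_pow_left₀ (by omega) h2 h6
    exact le_antisymm h3 h7
  have hHt : ∀ t, 0 < t → H t - R * t = H 0 := by
    intro t ht
    rw [hP.H_int t ht.le, intervalIntegral.integral_of_le ht.le]
    have : ∫ s in Ioc 0 t, ρ s = ∫ _s in Ioc 0 t, R :=
      setIntegral_congr_fun measurableSet_Ioc fun s hs => hρ s hs.1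
    rw [this, setIntegral_const, Real.volume_real_Ioc_of_le ht.le, smul_eq_mul]
    ring
  have hlim : Tendsto (fun t => H t - R * t) atTop (𝓝 (H 0)) := by
    refine tendsto_const_nhds.congr' ?_
    filter_upwards [eventually_gt_atTop 0] with t ht
    exact (hHt t ht).symm
  have := tendsto_nhds_unique hlim hP.blim
  linarith

end Pool.Agent.RB75
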