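import Pool.Agent.RB75.G4a

/-! Module RB-G4b: the shadow of an axially symmetric body is axially symmetric.

`u = (t f + e)/√(1+t²)`, `w = (f - t e)/√(1+t²) = ι w'`. For `v ∈ E k`, `α = ⟪v, w'⟫ = ⟪ι v, w⟫`; `⟪ι v, u⟫ = 0` and
`e = (u - t w)/√(1+t²)`, so `⟪ι v, e⟫ = - α t/√(1+t²)`; `‖perp e (ι v)‖² = ‖v‖² - α² t²/(1+t²)
= ‖perp w' v‖² + α²/(1+t²)`. If `α ≠ 0`, `T = ‖perp w' v‖/|α|`:
`‖perp e (ι v)‖/|⟪ι v,e⟫| = √(1 + T²(1+t²))/t`. (`supp_shadow`, `AxSym`.) -/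

namespace Pool.Agent.RB75
open MeasureTheory Set Filter Topology
open scoped RealInnerProductSpace

theorem shadow_AxSym {k : ℕ} {K : Set (E (k + 1))} (hK : CCN K) {e f : E (k + 1)} (he : ‖e‖ = 1)
    (hf : ‖f‖ = 1) (hfe : ⟪f, e⟫ = 0) {H : ℝ → ℝ} {R : ℝ} (h : AxSym e K H R) {t : ℝ} (ht : 0 < t)
    (ι : E k →ₗᵢ[ℝ] E (k + 1)) (hι : ∀ y, ⟪ι y, (√(1 + t ^ 2))⁻¹ • (t • f + e)⟫ = 0) {w' : E k}
    (hw' : ι w' = (√(1 + t ^ 2))⁻¹ • (f - t • e)) :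
    ‖w'‖ = 1 ∧ AxSym w' (shadow ι ((√(1 + t ^ 2))⁻¹ • (t • f + e)) K)
      (fun T => t / √(1 + t ^ 2) * H (√(1 + T ^ 2 * (1 + t ^ 2)) / t)) R := by
  have hr2 : √(1 + t ^ 2) ^ 2 = 1 + t ^ 2 := Real.sq_sqrt (by positivity)
  have hr0 : 0 < √(1 + t ^ 2) := Real.sqrt_pos.2 (by positivity)
  set r : ℝ := √(1 + t ^ 2) with hr
  have hee : ⟪e, e⟫ = (1 : ℝ) := by rw [real_inner_self_eq_norm_sq, he]; norm_num
  have hff : ⟪f, f⟫ = (1 : ℝ) := by rw [real_inner_self_eq_norm_sq, hf]; norm_num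
  have hef : ⟪e, f⟫ = (0 : ℝ) := by rw [real_inner_comm]; exact hfe
  have hri : r⁻¹ * r = 1 := inv_mul_cancel₀ hr0.ne'
  have hu1 : ‖r⁻¹ • (t • f + e)‖ = 1 := by
    have h1 : ‖r⁻¹ • (t • f + e)‖ ^ 2 = 1 := by
      rw [← real_inner_self_eq_norm_sq]
      simp only [inner_smul_left, inner_smul_right, inner_add_left, inner_add_right, hee, hff,
        hfe, hef, RCLike.conj_to_real]
      have : r⁻¹ * (r⁻¹ * (t * (t * 1) + t * 0 + (t * 0 + 1))) = (r⁻¹) ^ 2 * (1 + t ^ 2) := by ring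
      nlinarith [hr2, hri, this]
    nlinarith [norm_nonneg (r⁻¹ • (t • f + e)), h1]
  have hw1 : ‖w'‖ = 1 := by
    have h0 : ‖w'‖ = ‖ι w'‖ := (ι.norm_map w').symm
    rw [h0, hw']
    have h1 : ‖r⁻¹ • (f - t • e)‖ ^ 2 = 1 := by
      rw [← real_inner_self_eq_norm_sq]
      simp only [inner_smul_left, inner_smul_right, inner_sub_left, inner_sub_right, hee, hff,
        hfe, hef, RCLike.conj_to_real]
      have : r⁻¹ * (r⁻¹ * (1 - t * 0 - (t * 0 - t * (t * 1)))) = (r⁻¹) ^ 2 * (1 + t ^ 2) := by ring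
      nlinarith [hr2, hri, this]
    nlinarith [norm_nonneg (r⁻¹ • (f - t • e)), h1]
  -- inner products
  have hα : ∀ v : E k, ⟪ι v, e⟫ = -(t * ⟪v, w'⟫ / r) := by
    intro v
    have h1 := hι v
    have h2 : ⟪v, w'⟫ = ⟪ι v, r⁻¹ • (f - t • e)⟫ := by
      rw [← hw', ι.inner_map_map]
    rw [inner_smul_right, inner_add_right, inner_smul_right] at h1
    rw [inner_smul_right, inner_sub_right, inner_smul_right] at h2
    have h3 : t * ⟪ι v, f⟫ + ⟪ι v, e⟫ = 0 := by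
      rcases mul_eq_zero.1 h1 with h | h
      · exact absurd h (inv_ne_zero hr0.ne')
      · exact h
    have hy : ⟪ι v, e⟫ = -(t * ⟪ι v, f⟫) := by linarith
    have h4 : ⟪v, w'⟫ = r * ⟪ι v, f⟫ := by
      rw [h2, hy]
      have : r⁻¹ * (⟪ι v, f⟫ - t * -(t * ⟪ι v, f⟫)) = r⁻¹ * (⟪ι v, f⟫ * (1 + t ^ 2)) := by ring
      rw [this, ← hr2]
      field_simp
    rw [hy, h4]
    field_simp
  have hpe : ∀ v : E k, ‖perp e (ι v)‖ ^ 2 = ‖v‖ ^ 2 - (t * ⟪v, w'⟫ / r) ^ 2 := by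
    intro v
    rw [norm_perp_sq he, ι.norm_map, hα]
    ring
  have hpw : ∀ v : E k, ‖perp w' v‖ ^ 2 = ‖v‖ ^ 2 - ⟪v, w'⟫ ^ 2 := fun v => norm_perp_sq hw1 v
  refine ⟨hw1, ?_, ?_⟩
  · intro v hv
    rw [supp_shadow hK hu1 ι hι]
    have hy : ⟪ι v, e⟫ ≠ 0 := by
      rw [hα]
      exact neg_ne_zero.2 (div_ne_zero (mul_ne_zero ht.ne' hv) hr0.ne')
    rw [h.ne _ hy]
    have hay : |⟪ι v, e⟫| = t * |⟪v, w'⟫| / r := by
      rw [hα, abs_neg, abs_div, abs_mul, abs_of_pos ht, abs_of_pos hr0]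
    have hva : 0 < |⟪v, w'⟫| := abs_pos.2 hv
    have harg : ‖perp e (ι v)‖ / |⟪ι v, e⟫| =
        √(1 + (‖perp w' v‖ / |⟪v, w'⟫|) ^ 2 * (1 + t ^ 2)) / t := by
      have hb : 0 ≤ 1 + (‖perp w' v‖ / |⟪v, w'⟫|) ^ 2 * (1 + t ^ 2) := by positivity
      have h7 : (‖perp w' v‖ / |⟪v, w'⟫|) ^ 2 = (‖v‖ ^ 2 - ⟪v, w'⟫ ^ 2) / ⟪v, w'⟫ ^ 2 := by
        rw [div_pow, hpw, sq_abs]
      have h6 : |⟪ι v, e⟫| ^ 2 = t ^ 2 * ⟪v, w'⟫ ^ 2 / r ^ 2 := by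
        rw [hay, div_pow, mul_pow, sq_abs]
      rw [← sq_eq_sq₀ (by positivity) (by positivity), div_pow, div_pow, Real.sq_sqrt hb, hpe,
        h7, h6]
      have h5 : ⟪v, w'⟫ ^ 2 ≠ 0 := pow_ne_zero 2 hv
      rw [← hr2]
      field_simp
      have h8 : t ^ 2 = r ^ 2 - 1 := by rw [hr2]; ring
      rw [h8]
      ring
    rw [harg, hay]
    ring
  · intro v hv
    rw [supp_shadow hK hu1 ι hι]
    have hy : ⟪ι v, e⟫ = 0 := by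
      rw [hα, hv]
      simp
    rw [h.eq _ hy, ι.norm_map]

end Pool.Agent.RB75
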