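import Pool.Agent.RB75.ADefs
import Pool.Agent.RB75.B0

/-! Module RB-G4c: profile of the shadow.

`P(T) = t/√(1+t²) · H(τ(T))`, `τ(T) = √(1+T²(1+t²))/t`, `τ'(T) = T(1+t²)/(t√(1+T²(1+t²)))`;
`P(T) - P(0) = (t/√(1+t²)) ∫_{τ(0)}^{τ(T)} ρ = ∫_0^T ρ(τ(s)) s√(1+t²)/√(1+s²(1+t²)) ds` (substitution for the
increasing map `τ`; `ρ` is only monotone: `integral_image_eq_integral_abs_deriv_smul`).
`P(T) - R T = (t/√(1+t²)) (H(τ) - R τ) + R ((t/√(1+t²)) τ(T) - T) → (t/√(1+t²)) b`. -/

namespace Pool.Agent.RB75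
open MeasureTheory Set Filter Topology

/-- the profile `ρ` is integrable near zero -/
lemma Prof.intervalIntegrable {H ρ : ℝ → ℝ} {R b : ℝ} (hP : Prof H ρ R b) {x : ℝ} (hx : 0 ≤ x) :
    IntervalIntegrable ρ volume 0 x := by
  have hmono : Monotone (fun s : ℝ => if s ≤ 0 then (0 : ℝ) else ρ s) := by
    intro s t hst
    by_cases hs : s ≤ 0
    · by_cases ht : t ≤ 0
      · simp only [hs, ht, if_true, le_refl]
      · simp only [hs, ht, if_true, if_false]
        exact hP.nn t (not_le.1 ht)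
    · have ht : ¬ t ≤ 0 := fun h => hs (hst.trans h)
      simp only [hs, ht, if_false]
      exact hP.mono (not_le.1 hs) (not_le.1 ht) hst
  have h1 : IntervalIntegrable (fun s : ℝ => if s ≤ 0 then (0 : ℝ) else ρ s) volume 0 x :=
    hmono.intervalIntegrable
  rw [intervalIntegrable_iff_integrableOn_Ioc_of_le hx] at h1 ⊢
  refine h1.congr_fun (fun s hs => ?_) measurableSet_Ioc
  have : ¬ s ≤ 0 := not_le.2 hs.1
  simp only [this, if_false]

theorem G4c {H ρ : ℝ → ℝ} {R b : ℝ} (hP : Prof H ρ R b) {t : ℝ} (ht : 0 < t) :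
    Prof (fun T => t / √(1 + t ^ 2) * H (√(1 + T ^ 2 * (1 + t ^ 2)) / t))
      (fun T => ρ (√(1 + T ^ 2 * (1 + t ^ 2)) / t) * (T * √(1 + t ^ 2) / √(1 + T ^ 2 * (1 + t ^ 2)))) R
      (t / √(1 + t ^ 2) * b) := by
  set c : ℝ := 1 + t ^ 2 with hc
  have hc1 : 1 ≤ c := by rw [hc]; nlinarith [sq_nonneg t]
  have hc0 : 0 < c := by linarith
  have hsc : 0 < √c := Real.sqrt_pos.2 hc0
  have hscsq : √c ^ 2 = c := Real.sq_sqrt hc0.le
  set τ : ℝ → ℝ := fun T => √(1 + T ^ 2 * c) / t with hτ
  have hin : ∀ T : ℝ, 0 < 1 + T ^ 2 * c := fun T => by positivity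
  have hsq : ∀ T : ℝ, 0 < √(1 + T ^ 2 * c) := fun T => Real.sqrt_pos.2 (hin T)
  have hτpos : ∀ T, 0 < τ T := fun T => div_pos (hsq T) ht
  have hτmono : ∀ S T, 0 ≤ S → S ≤ T → τ S ≤ τ T := by
    intro S T hS hST
    apply div_le_div_of_nonneg_right _ ht.le
    apply Real.sqrt_le_sqrt
    have : S ^ 2 ≤ T ^ 2 := pow_le_pow_left₀ hS hST 2
    nlinarith
  have hτstrict : ∀ S T, 0 ≤ S → S < T → τ S < τ T := by
    intro S T hS hST
    apply div_lt_div_of_pos_right _ ht
    apply Real.sqrt_lt_sqrt (hin S).le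
    have : S ^ 2 < T ^ 2 := pow_lt_pow_left₀ hST hS (by norm_num)
    nlinarith
  have hτcont : Continuous τ := by
    apply Continuous.div_const
    exact Real.continuous_sqrt.comp (by fun_prop)
  have hsg : ∀ T : ℝ, T * √c / √(1 + T ^ 2 * c) = sg (√c * T) := by
    intro T
    unfold sg
    rw [mul_pow, hscsq, mul_comm T, mul_comm c]
  have hdiff : ∀ T : ℝ, HasDerivAt τ (T * c / √(1 + T ^ 2 * c) / t) T := by
    intro T
    have h1 : HasDerivAt (fun T : ℝ => 1 + T ^ 2 * c) (2 * T * c) T := by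
      have := ((hasDerivAt_pow 2 T).mul_const c).const_add 1
      simpa using this
    have h2 := (h1.sqrt (hin T).ne').div_const t
    have e : 2 * T * c / (2 * √(1 + T ^ 2 * c)) / t = T * c / √(1 + T ^ 2 * c) / t := by
      congr 1
      rw [mul_assoc 2 T c, mul_div_mul_left _ _ (two_ne_zero)]
    rw [e] at h2
    exact h2
  have hτtop : Tendsto τ atTop atTop := by
    have h1 : ∀ T : ℝ, 0 ≤ T → T / t ≤ τ T := by
      intro T hT
      apply div_le_div_of_nonneg_right _ ht.le
      apply Real.le_sqrt_of_sq_le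
      nlinarith [sq_nonneg T]
    have h2 : Tendsto (fun T : ℝ => T / t) atTop atTop := tendsto_id.atTop_div_const ht
    refine tendsto_atTop_mono' atTop ?_ h2
    filter_upwards [eventually_ge_atTop (0 : ℝ)] with T hT using h1 T hT
  have hrho : (fun T => ρ (√(1 + T ^ 2 * c) / t) * (T * √c / √(1 + T ^ 2 * c))) =
      fun T => ρ (τ T) * sg (√c * T) := by
    funext T
    rw [hsg]
  have hHfun : (fun T => t / √c * H (√(1 + T ^ 2 * c) / t)) = fun T => t / √c * H (τ T) := rfl
  rw [hrho, hHfun]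
  refine ⟨hP.Rpos, mul_nonneg (by positivity) hP.bnn, ?_, ?_, ?_, ?_, ?_⟩
  · -- monotone
    intro S hS T hT hST
    have hS0 : (0 : ℝ) < S := hS
    have hT0 : (0 : ℝ) < T := hT
    apply mul_le_mul
    · exact hP.mono (hτpos S) (hτpos T) (hτmono S T hS0.le hST)
    · exact sg_strictMono.monotone (mul_le_mul_of_nonneg_left hST hsc.le)
    · exact sg_nonneg (by positivity)
    · exact hP.nn _ (hτpos T)
  · intro T hT
    exact mul_nonneg (hP.nn _ (hτpos T)) (sg_nonneg (by positivity))
  · have h1 : Tendsto (fun T => ρ (τ T)) atTop (𝓝 R) := hP.lim.comp hτtop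
    have h2 : Tendsto (fun T : ℝ => sg (√c * T)) atTop (𝓝 1) :=
      sg_tendsto_atTop.comp (tendsto_id.const_mul_atTop hsc)
    have h3 := h1.mul h2
    rwa [mul_one] at h3
  · -- integral formula
    intro T hT
    have hA : ∫ u in (τ 0)..(τ T), ρ u = H (τ T) - H (τ 0) := by
      rw [hP.H_int (τ T) (hτpos T).le, hP.H_int (τ 0) (hτpos 0).le,
        ← intervalIntegral.integral_interval_sub_left (hP.intervalIntegrable (hτpos T).le)
          (hP.intervalIntegrable (hτpos 0).le)]
      ring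
    have himg : τ '' Icc 0 T = Icc (τ 0) (τ T) := by
      apply Subset.antisymm
      · rintro _ ⟨s, hs, rfl⟩
        exact ⟨hτmono 0 s le_rfl hs.1, hτmono s T hs.1 hs.2⟩
      · exact intermediate_value_Icc hT hτcont.continuousOn
    have hinj : InjOn τ (Icc 0 T) := by
      intro x hx y hy hxy
      rcases lt_trichotomy x y with h | h | h
      · exact absurd hxy (hτstrict x y hx.1 h).ne
      · exact h
      · exact absurd hxy.symm (hτstrict y x hy.1 h).ne
    have hsub := integral_image_eq_integral_abs_deriv_smul (s := Icc 0 T) (f := τ)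
      (f' := fun T => T * c / √(1 + T ^ 2 * c) / t) measurableSet_Icc
      (fun x _ => (hdiff x).hasDerivWithinAt) hinj ρ
    rw [himg] at hsub
    have hB : ∫ u in (τ 0)..(τ T), ρ u = ∫ s in Icc 0 T, |s * c / √(1 + s ^ 2 * c) / t| • ρ (τ s) := by
      rw [intervalIntegral.integral_of_le (hτmono 0 T le_rfl hT), ← integral_Icc_eq_integral_Ioc]
      exact hsub
    have hC : ∫ s in (0 : ℝ)..T, ρ (τ s) * sg (√c * s) =
        t / √c * ∫ s in Icc 0 T, |s * c / √(1 + s ^ 2 * c) / t| • ρ (τ s) := by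
      rw [intervalIntegral.integral_of_le hT, ← integral_Icc_eq_integral_Ioc, ← integral_const_mul]
      apply setIntegral_congr_fun measurableSet_Icc
      intro s hs
      have hs0 : 0 ≤ s := hs.1
      have h1 : 0 ≤ s * c / √(1 + s ^ 2 * c) / t := by positivity
      change ρ (τ s) * sg (√c * s) = t / √c * (|s * c / √(1 + s ^ 2 * c) / t| • ρ (τ s))
      rw [abs_of_nonneg h1, smul_eq_mul, ← hsg s]
      have h2 : t / √c * (s * c / √(1 + s ^ 2 * c) / t) = s * √c / √(1 + s ^ 2 * c) := by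
        have h3 := (hsq s).ne'
        field_simp
        rw [hscsq]
        ring
      rw [← mul_assoc, h2]
      ring
    change t / √c * H (τ T) = t / √c * H (τ 0) + ∫ s in (0 : ℝ)..T, ρ (τ s) * sg (√c * s)
    rw [hC, ← hB, hA]
    ring
  · -- limit
    have h1 : Tendsto (fun T => H (τ T) - R * τ T) atTop (𝓝 b) := hP.blim.comp hτtop
    have h2 : Tendsto (fun T : ℝ => t / √c * τ T - T) atTop (𝓝 0) := by
      have hup : ∀ T : ℝ, 0 < T → t / √c * τ T - T ≤ 1 / T := by
        intro T hT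
        have e : t / √c * τ T = √(1 + T ^ 2 * c) / √c := by
          rw [hτ]
          field_simp
        rw [e, sub_le_iff_le_add, div_le_iff₀ hsc]
        apply Real.sqrt_le_iff.2
        refine ⟨by positivity, ?_⟩
        rw [mul_pow, hscsq]
        have h3 : (1 / T + T) ^ 2 = 1 / T ^ 2 + 2 + T ^ 2 := by
          field_simp
          ring
        rw [h3]
        have h4 : 0 < 1 / T ^ 2 := by positivity
        nlinarith
      have hlow : ∀ T : ℝ, 0 < T → 0 ≤ t / √c * τ T - T := by
        intro T hT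
        have e : t / √c * τ T = √(1 + T ^ 2 * c) / √c := by
          rw [hτ]
          field_simp
        rw [e, sub_nonneg, le_div_iff₀ hsc]
        apply Real.le_sqrt_of_sq_le
        rw [mul_pow, hscsq]
        linarith
      have hz : Tendsto (fun T : ℝ => 1 / T) atTop (𝓝 0) := by
        simpa only [one_div] using tendsto_inv_atTop_zero
      refine squeeze_zero' ?_ ?_ hz
      · filter_upwards [eventually_gt_atTop (0 : ℝ)] with T hT using hlow T hT
      · filter_upwards [eventually_gt_atTop (0 : ℝ)] with T hT using hup T hT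
    have h3 := (h1.const_mul (t / √c)).add (h2.const_mul R)
    rw [mul_zero, add_zero] at h3
    refine h3.congr (fun T => ?_)
    ring

end Pool.Agent.RB75
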