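import Mathlib

/-! Module RB-G5a: substitution `T = √(1-z²)/(z√(1+t²))`, `z ∈ (0,1)`, `T ∈ (0,∞)`, decreasing,
`dT/dz = -1/(z² √(1-z²) √(1+t²))`. Use `integral_image_eq_integral_abs_deriv_smul` and
`integrableOn_image_iff_integrableOn_abs_deriv_smul` (no continuity of `F`). -/

namespace Pool.Agent.RB75
open MeasureTheory Set Filter Topology

theorem G5a_deriv {a z : ℝ} (ha : 0 < a) (hz : z ∈ Ioo (0 : ℝ) 1) :
    HasDerivAt (fun z : ℝ => √(1 - z ^ 2) / (z * a)) (-(1 / (a * (z ^ 2 * √(1 - z ^ 2))))) z := by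
  have hz0 : 0 < z := hz.1
  have hpos : 0 < 1 - z ^ 2 := by nlinarith [hz.2]
  have h0 : HasDerivAt (fun z : ℝ => 1 - z ^ 2) (-(2 * z)) z := by
    have := (hasDerivAt_pow 2 z).const_sub 1
    simpa using this
  have h1 := h0.sqrt hpos.ne'
  have h2 : HasDerivAt (fun z : ℝ => z * a) a z := by
    simpa using (hasDerivAt_id z).mul_const a
  have h3 := h1.div h2 (by positivity)
  have hw : 0 < √(1 - z ^ 2) := Real.sqrt_pos.2 hpos
  have hw2 : √(1 - z ^ 2) ^ 2 = 1 - z ^ 2 := Real.sq_sqrt hpos.le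
  have e : -(1 / (a * (z ^ 2 * √(1 - z ^ 2)))) =
      (-(2 * z) / (2 * √(1 - z ^ 2)) * (z * a) - √(1 - z ^ 2) * a) / (z * a) ^ 2 := by
    generalize √(1 - z ^ 2) = w at hw hw2
    have hz2 : z ^ 2 = 1 - w ^ 2 := by linarith
    field_simp
    linear_combination hz2
  rw [e]
  exact h3

theorem G5a_sq {a z : ℝ} (ha : 0 < a) (hz : z ∈ Ioo (0 : ℝ) 1) :
    (√(1 - z ^ 2) / (z * a)) ^ 2 * a ^ 2 + 1 = 1 / z ^ 2 := by
  have hz0 : 0 < z := hz.1
  have hpos : 0 < 1 - z ^ 2 := by nlinarith [hz.2]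
  rw [div_pow, Real.sq_sqrt hpos.le]
  field_simp
  ring

theorem G5a_inj {a : ℝ} (ha : 0 < a) : InjOn (fun z : ℝ => √(1 - z ^ 2) / (z * a)) (Ioo 0 1) := by
  intro x hx y hy hxy
  have hxy : √(1 - x ^ 2) / (x * a) = √(1 - y ^ 2) / (y * a) := hxy
  have h1 := G5a_sq ha hx
  have h2 := G5a_sq ha hy
  rw [hxy, h2] at h1
  have hx0 : 0 < x := hx.1
  have hy0 : 0 < y := hy.1
  rw [div_eq_div_iff (by positivity) (by positivity), one_mul, one_mul] at h1
  exact (pow_left_inj₀ hx0.le hy0.le two_ne_zero).1 h1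

theorem G5a_image {a : ℝ} (ha : 0 < a) : (fun z : ℝ => √(1 - z ^ 2) / (z * a)) '' Ioo 0 1 = Ioi 0 := by
  ext T
  constructor
  · rintro ⟨z, hz, rfl⟩
    have hz0 : 0 < z := hz.1
    have hpos : 0 < 1 - z ^ 2 := by nlinarith [hz.2]
    have hw : 0 < √(1 - z ^ 2) := Real.sqrt_pos.2 hpos
    show 0 < √(1 - z ^ 2) / (z * a)
    positivity
  · intro hT
    have hT : 0 < T := hT
    have hs : 0 < 1 + (a * T) ^ 2 := by positivity
    have hr : 0 < √(1 + (a * T) ^ 2) := Real.sqrt_pos.2 hs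
    have hr1 : 1 < √(1 + (a * T) ^ 2) := by
      rw [Real.lt_sqrt zero_le_one]
      have : 0 < (a * T) ^ 2 := by positivity
      linarith
    refine ⟨1 / √(1 + (a * T) ^ 2), ⟨by positivity, (div_lt_one hr).2 hr1⟩, ?_⟩
    show √(1 - (1 / √(1 + (a * T) ^ 2)) ^ 2) / (1 / √(1 + (a * T) ^ 2) * a) = T
    have e1 : 1 - (1 / √(1 + (a * T) ^ 2)) ^ 2 = (a * T) ^ 2 / (1 + (a * T) ^ 2) := by
      rw [div_pow, Real.sq_sqrt hs.le]
      field_simp
      ring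
    rw [e1, Real.sqrt_div (by positivity), Real.sqrt_sq (by positivity)]
    field_simp

theorem G5a {t : ℝ} (ht : 0 ≤ t) (F : ℝ → ℝ) :
    (IntegrableOn F (Ioi 0) ↔
      IntegrableOn (fun z => F (√(1 - z ^ 2) / (z * √(1 + t ^ 2))) * (1 / (z ^ 2 * √(1 - z ^ 2)))) (Ioo 0 1)) ∧
    √(1 + t ^ 2) * ∫ T in Ioi (0 : ℝ), F T =
      ∫ z in Ioo (0 : ℝ) 1, F (√(1 - z ^ 2) / (z * √(1 + t ^ 2))) * (1 / (z ^ 2 * √(1 - z ^ 2))) := by
  have ha : 0 < √(1 + t ^ 2) := Real.sqrt_pos.2 (by positivity)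
  generalize √(1 + t ^ 2) = a at ha
  have hder : ∀ z ∈ Ioo (0 : ℝ) 1, HasDerivWithinAt (fun z : ℝ => √(1 - z ^ 2) / (z * a))
      (-(1 / (a * (z ^ 2 * √(1 - z ^ 2))))) (Ioo 0 1) z := fun z hz => (G5a_deriv ha hz).hasDerivWithinAt
  have hfun : ∀ z ∈ Ioo (0 : ℝ) 1, |(-(1 / (a * (z ^ 2 * √(1 - z ^ 2)))))| • F (√(1 - z ^ 2) / (z * a)) =
      a⁻¹ * (F (√(1 - z ^ 2) / (z * a)) * (1 / (z ^ 2 * √(1 - z ^ 2)))) := by
    intro z hz
    have hz0 : 0 < z := hz.1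
    have hpos : 0 < 1 - z ^ 2 := by nlinarith [hz.2]
    have hw : 0 < √(1 - z ^ 2) := Real.sqrt_pos.2 hpos
    rw [abs_neg, abs_of_pos (by positivity), smul_eq_mul]
    field_simp
  constructor
  · rw [← G5a_image ha, integrableOn_image_iff_integrableOn_abs_deriv_smul measurableSet_Ioo hder
      (G5a_inj ha) F, integrableOn_congr_fun hfun measurableSet_Ioo]
    constructor
    · intro h
      have := h.const_mul a
      refine (integrableOn_congr_fun ?_ measurableSet_Ioo).1 this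
      intro z _
      show a * (a⁻¹ * _) = _
      rw [← mul_assoc, mul_inv_cancel₀ ha.ne', one_mul]
    · intro h
      exact h.const_mul a⁻¹
  · rw [← G5a_image ha, integral_image_eq_integral_abs_deriv_smul measurableSet_Ioo hder
      (G5a_inj ha) F, setIntegral_congr_fun measurableSet_Ioo hfun, integral_const_mul, ← mul_assoc,
      mul_inv_cancel₀ ha.ne', one_mul]

end Pool.Agent.RB75
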