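import Pool.Agent.RB75.ADefs

/-! Module RB-G5b: `∫_0^1 (1 - s^{m+3})/(z² s) dz = (m+2) ∫_0^1 s^m dz`, `s = √(1-z²)`.

Proof. `d/dz (-s/z) = 1/(z² s)`, `d/dz (1 - s^{m+3}) = (m+3) s^{m+1} z`. By parts on `(0,1)`:
`∫ = [-(1-s^{m+3}) s/z]_0^1 + ∫ (s/z)(m+3) s^{m+1} z = (m+3) ∫ s^{m+2}` (boundary terms `0`:
`1 - s^{m+3} ≤ (m+3)(1 - s) ≤ (m+3) z²`). I.e. `-(1-s^{m+3}) s/z` is a primitive of
`(1 - s^{m+3})/(z² s) - (m+3) s^{m+2}`. And `(m+3) ∫ s^{m+2} = (m+2) ∫ s^m` since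
`d/dz (z s^{m+2}) = s^{m+2} - (m+2) z² s^m = (m+3) s^{m+2} - (m+2) s^m`. Nonnegative integrand: integrability from
the primitive. -/

namespace Pool.Agent.RB75
open MeasureTheory Set Filter Topology

theorem G5b (m : ℕ) :
    IntegrableOn (fun z : ℝ => (1 - √(1 - z ^ 2) ^ (m + 3)) * (1 / (z ^ 2 * √(1 - z ^ 2)))) (Ioo 0 1) ∧
    ∫ z in Ioo (0 : ℝ) 1, (1 - √(1 - z ^ 2) ^ (m + 3)) * (1 / (z ^ 2 * √(1 - z ^ 2))) = JJ m := by
  obtain ⟨s, hs⟩ : ∃ s : ℝ → ℝ, s = fun z => √(1 - z ^ 2) := ⟨_, rfl⟩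
  have hscont : Continuous s := by rw [hs]; fun_prop
  have hsnn : ∀ z, 0 ≤ s z := by intro z; rw [hs]; exact Real.sqrt_nonneg _
  have hspos : ∀ z ∈ Ioo (0 : ℝ) 1, 0 < s z := by
    intro z hz; rw [hs]; apply Real.sqrt_pos.2; nlinarith [hz.1, hz.2]
  have hssq : ∀ z ∈ Icc (0 : ℝ) 1, s z ^ 2 = 1 - z ^ 2 := by
    intro z hz; rw [hs]; apply Real.sq_sqrt; nlinarith [hz.1, hz.2]
  have hsle : ∀ z, s z ≤ 1 := by
    intro z; rw [hs]; apply Real.sqrt_le_one.2; nlinarith [sq_nonneg z]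
  have hsder : ∀ z ∈ Ioo (0 : ℝ) 1, HasDerivAt s (-z / s z) z := by
    intro z hz
    have h1 : HasDerivAt (fun z : ℝ => 1 - z ^ 2) (-(2 * z)) z := by
      have := ((hasDerivAt_pow 2 z).const_sub 1)
      simpa using this
    have hne : (1 - z ^ 2 : ℝ) ≠ 0 := by nlinarith [hz.1, hz.2]
    have h2 := h1.sqrt hne
    rw [hs]
    have h3 : √(1 - z ^ 2) ≠ 0 := by
      have := hspos z hz; rw [hs] at this; exact this.ne'
    convert h2 using 1
    field_simp
  obtain ⟨F, hF⟩ : ∃ F : ℝ → ℝ, F = fun z => -(z / (1 + s z) * (∑ i ∈ Finset.range (m + 3), s z ^ i) * s z)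
      + z * s z ^ (m + 2) := ⟨_, rfl⟩
  have hFcont : Continuous F := by
    rw [hF]
    have h1 : Continuous (fun z => z / (1 + s z)) := by
      apply continuous_id.div (continuous_const.add hscont)
      intro z; have := hsnn z; intro h; have h9 : 1 + s z = 0 := h; linarith
    have h2 : Continuous (fun z => ∑ i ∈ Finset.range (m + 3), s z ^ i) := by
      apply continuous_finsetSum; intro i _; exact hscont.pow i
    exact ((h1.mul h2).mul hscont).neg.add (continuous_id.mul (hscont.pow _))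
  have hFeq : ∀ z ∈ Ioo (0 : ℝ) 1, F z = -((1 - s z ^ (m + 3)) * (s z / z)) + z * s z ^ (m + 2) := by
    intro z hz
    have hz0 : z ≠ 0 := hz.1.ne'
    have h1 : (∑ i ∈ Finset.range (m + 3), s z ^ i) * (1 - s z) = 1 - s z ^ (m + 3) := by
      have := geom_sum_mul (s z) (m + 3)
      linarith
    have h2 : z / (1 + s z) = (1 - s z) / z := by
      have h3 := hssq z ⟨hz.1.le, hz.2.le⟩
      have h4 : (1 + s z) ≠ 0 := by have := hsnn z; positivity
      rw [div_eq_div_iff h4 hz0]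
      nlinarith
    rw [hF]
    simp only
    rw [h2, ← h1]
    ring
  have hFder : ∀ z ∈ Ioo (0 : ℝ) 1, HasDerivAt F ((1 - s z ^ (m + 3)) * (1 / (z ^ 2 * s z)) - ((m : ℝ) + 2) * s z ^ m) z := by
    intro z hz
    have hz0 : z ≠ 0 := hz.1.ne'
    have hsz : s z ≠ 0 := (hspos z hz).ne'
    have h1 := hsder z hz
    have h2 : HasDerivAt (fun z => -((1 - s z ^ (m + 3)) * (s z / z)) + z * s z ^ (m + 2))
      (-((-(((m + 3 : ℕ) : ℝ) * s z ^ (m + 2) * (-z / s z))) * (s z / z) +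
        (1 - s z ^ (m + 3)) * (((-z / s z) * z - s z * 1) / z ^ 2)) +
        (1 * s z ^ (m + 2) + z * (((m + 2 : ℕ) : ℝ) * s z ^ (m + 1) * (-z / s z)))) z := by
      have a1 : HasDerivAt (fun z => 1 - s z ^ (m + 3)) (-(((m + 3 : ℕ) : ℝ) * s z ^ (m + 2) * (-z / s z))) z := by
        have := (h1.pow (m + 3)).const_sub 1
        simpa using this
      have a2 : HasDerivAt (fun z => s z / z) (((-z / s z) * z - s z * 1) / z ^ 2) z :=
        h1.div (hasDerivAt_id z) hz0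
      have a3 : HasDerivAt (fun z => s z ^ (m + 2)) (((m + 2 : ℕ) : ℝ) * s z ^ (m + 1) * (-z / s z)) z := by
        exact h1.fun_pow (m + 2)
      exact ((a1.mul a2).neg).add ((hasDerivAt_id z).mul a3)
    have h3 : HasDerivAt F (-((-(((m + 3 : ℕ) : ℝ) * s z ^ (m + 2) * (-z / s z))) * (s z / z) +
        (1 - s z ^ (m + 3)) * (((-z / s z) * z - s z * 1) / z ^ 2)) +
        (1 * s z ^ (m + 2) + z * (((m + 2 : ℕ) : ℝ) * s z ^ (m + 1) * (-z / s z)))) z := by
      apply h2.congr_of_eventuallyEq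
      filter_upwards [Ioo_mem_nhds hz.1 hz.2] with w hw using hFeq w hw
    convert h3 using 1
    have h4 := hssq z ⟨hz.1.le, hz.2.le⟩
    have h5 : z ^ 2 = 1 - s z ^ 2 := by linarith
    have e1 : (-z / s z) * z - s z * 1 = - (1 / s z) := by
      field_simp
      linarith
    have e2 : -(((m + 3 : ℕ) : ℝ) * s z ^ (m + 2) * (-z / s z)) * (s z / z) = ((m : ℝ) + 3) * s z ^ (m + 2) := by
      push_cast
      field_simp
    have e3 : z * (((m + 2 : ℕ) : ℝ) * s z ^ (m + 1) * (-z / s z)) = - (((m : ℝ) + 2) * (1 - s z ^ 2) * s z ^ m) := by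
      rw [← h5]
      push_cast
      rw [pow_succ]
      field_simp
    rw [e1, e2, e3]
    rw [pow_add (s z) m 2]
    field_simp
    ring
  obtain ⟨G, hG⟩ : ∃ G : ℝ → ℝ, G = fun z => F z + ∫ w in (0 : ℝ)..z, ((m : ℝ) + 2) * s w ^ m := ⟨_, rfl⟩
  have hIc : Continuous (fun w => ((m : ℝ) + 2) * s w ^ m) := continuous_const.mul (hscont.pow m)
  have hGcont : ContinuousOn G (Icc 0 1) := by
    rw [hG]
    apply Continuous.continuousOn
    exact hFcont.add (intervalIntegral.continuous_primitive (fun a b => hIc.intervalIntegrable a b) 0)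
  have hGder : ∀ z ∈ Ioo (0 : ℝ) 1, HasDerivAt G ((1 - s z ^ (m + 3)) * (1 / (z ^ 2 * s z))) z := by
    intro z hz
    have h1 := hFder z hz
    have h2 : HasDerivAt (fun z => ∫ w in (0 : ℝ)..z, ((m : ℝ) + 2) * s w ^ m) (((m : ℝ) + 2) * s z ^ m) z :=
      intervalIntegral.integral_hasDerivAt_right (hIc.intervalIntegrable _ _)
        (hIc.stronglyMeasurableAtFilter _ _) hIc.continuousAt
    rw [hG]
    have h3 := h1.add h2
    rw [sub_add_cancel] at h3
    exact h3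
  have hnn : ∀ z ∈ Ioo (0 : ℝ) 1, 0 ≤ (1 - s z ^ (m + 3)) * (1 / (z ^ 2 * s z)) := by
    intro z hz
    have h1 : s z ^ (m + 3) ≤ 1 := pow_le_one₀ (hsnn z) (hsle z)
    have h2 := hspos z hz
    have h3 := hz.1
    apply mul_nonneg (by linarith) (by positivity)
  have hint : IntegrableOn (fun z => (1 - s z ^ (m + 3)) * (1 / (z ^ 2 * s z))) (Ioc 0 1) :=
    intervalIntegral.integrableOn_deriv_of_nonneg hGcont hGder hnn
  have hval : ∫ z in (0 : ℝ)..1, (1 - s z ^ (m + 3)) * (1 / (z ^ 2 * s z)) = G 1 - G 0 :=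
    intervalIntegral.integral_eq_sub_of_hasDerivAt_of_le zero_le_one hGcont hGder
      ((intervalIntegrable_iff_integrableOn_Ioc_of_le zero_le_one).2 hint)
  have hs1 : s 1 = 0 := by rw [hs]; simp
  have hG1 : G 1 - G 0 = JJ m := by
    have h1 : F 1 = 0 := by rw [hF]; simp [hs1]
    have h0 : F 0 = 0 := by rw [hF]; simp
    rw [hG]
    simp only
    rw [h1, h0, JJ, hs]
    simp
  have key : (fun z : ℝ => (1 - √(1 - z ^ 2) ^ (m + 3)) * (1 / (z ^ 2 * √(1 - z ^ 2)))) =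
      fun z => (1 - s z ^ (m + 3)) * (1 / (z ^ 2 * s z)) := by rw [hs]
  constructor
  · rw [key]
    exact hint.mono_set Ioo_subset_Ioc_self
  · rw [key, ← hG1, ← hval, intervalIntegral.integral_of_le zero_le_one, integral_Ioc_eq_integral_Ioo]

end Pool.Agent.RB75
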