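import Pool.Agent.RB75.G3c
import Pool.Agent.RB75.G4c
import Pool.Agent.RB75.G5a
import Pool.Agent.RB75.G5b

/-! Module RB-G5c: the coefficient of the Steiner polynomial of a shadow.

Let `ρ_t T = ρ(√(1+T²(1+t²))/t) · T√(1+t²)/√(1+T²(1+t²))`. With `T = √(1-z²)/(z√(1+t²))`:
`√(1+T²(1+t²)) = 1/z`, `T√(1+t²)/√(1+T²(1+t²)) = √(1-z²)`, `ρ_t T = ρ(1/(t z)) √(1-z²)`,
`sg T = √(1-z²)/√(1+t²z²) = √(1-z²) sg(1/(t z))`. So with `n = j + l = m+3`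
`(R^j - ρ_t^j sg^l)/(z²√(1-z²)) = (R^j - FF j l ρ (1/(t z)) √(1-z²)^n)/(z²√(1-z²))
 = R^j (1 - √(1-z²)^n)/(z²√(1-z²)) + Phi j l ρ R (t z) √(1-z²)^{n-1}/z²`.
The left side is integrable by `term_integrable` (for the profile `G4c`) and G5a, the first summand by G5b. -/

namespace Pool.Agent.RB75
open MeasureTheory Set Filter Topology

private theorem g5c_point {m j l : ℕ} (hn : j + l = m + 3) (ρ : ℝ → ℝ) (R : ℝ) {t : ℝ} (ht : 0 < t) {z : ℝ}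
    (hz0 : 0 < z) (hz1 : z < 1) :
    (R ^ j - (ρ (√(1 + (√(1 - z ^ 2) / (z * √(1 + t ^ 2))) ^ 2 * (1 + t ^ 2)) / t) *
      ((√(1 - z ^ 2) / (z * √(1 + t ^ 2))) * √(1 + t ^ 2) /
        √(1 + (√(1 - z ^ 2) / (z * √(1 + t ^ 2))) ^ 2 * (1 + t ^ 2)))) ^ j *
      sg (√(1 - z ^ 2) / (z * √(1 + t ^ 2))) ^ l) * (1 / (z ^ 2 * √(1 - z ^ 2))) =
    R ^ j * ((1 - √(1 - z ^ 2) ^ (m + 3)) * (1 / (z ^ 2 * √(1 - z ^ 2)))) +
      Phi j l ρ R (t * z) * √(1 - z ^ 2) ^ (m + 2) / z ^ 2 := by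
  have hs2 : √(1 - z ^ 2) ^ 2 = 1 - z ^ 2 := Real.sq_sqrt (by nlinarith)
  have hs : 0 < √(1 - z ^ 2) := Real.sqrt_pos.2 (by nlinarith)
  have hk2 : √(1 + t ^ 2) ^ 2 = 1 + t ^ 2 := Real.sq_sqrt (by positivity)
  have hk : 0 < √(1 + t ^ 2) := Real.sqrt_pos.2 (by positivity)
  set s := √(1 - z ^ 2) with hsdef
  set κ := √(1 + t ^ 2) with hkdef
  have h1 : √(1 + (s / (z * κ)) ^ 2 * (1 + t ^ 2)) = 1 / z := by
    have : 1 + (s / (z * κ)) ^ 2 * (1 + t ^ 2) = (1 / z) ^ 2 := by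
      rw [← hk2, div_pow, mul_pow, hs2]
      field_simp
      ring
    rw [this, Real.sqrt_sq (by positivity)]
  have h2 : s / (z * κ) * κ / (1 / z) = s := by
    field_simp
  have h3 : (1 / z) / t = 1 / (t * z) := by
    field_simp
  have hw : 0 < √(1 + (t * z) ^ 2) := Real.sqrt_pos.2 (by positivity)
  have hw2 : √(1 + (t * z) ^ 2) ^ 2 = 1 + (t * z) ^ 2 := Real.sq_sqrt (by positivity)
  have h4 : sg (1 / (t * z)) = 1 / √(1 + (t * z) ^ 2) := by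
    unfold sg
    have : √(1 + (1 / (t * z)) ^ 2) = √(1 + (t * z) ^ 2) / (t * z) := by
      have h5 : 1 + (1 / (t * z)) ^ 2 = (√(1 + (t * z) ^ 2) / (t * z)) ^ 2 := by
        rw [div_pow √(1 + (t * z) ^ 2), hw2]
        field_simp
        ring
      rw [h5, Real.sqrt_sq (by positivity)]
    rw [this]
    field_simp
  have h6 : sg (s / (z * κ)) = s * sg (1 / (t * z)) := by
    rw [h4]
    unfold sg
    have : √(1 + (s / (z * κ)) ^ 2) = √(1 + (t * z) ^ 2) / (z * κ) := by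
      have h5 : 1 + (s / (z * κ)) ^ 2 = (√(1 + (t * z) ^ 2) / (z * κ)) ^ 2 := by
        rw [div_pow √(1 + (t * z) ^ 2), hw2, div_pow, mul_pow, hs2, hk2]
        field_simp
        ring
      rw [h5, Real.sqrt_sq (by positivity)]
    rw [this]
    field_simp
  rw [h1, h2, h3, h6]
  unfold Phi FF
  have h7 : s ^ (m + 3) = s ^ (m + 2) * s := pow_succ _ _
  have h8 : (ρ (1 / (t * z)) * s) ^ j * (s * sg (1 / (t * z))) ^ l =
      ρ (1 / (t * z)) ^ j * sg (1 / (t * z)) ^ l * s ^ (m + 3) := by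
    rw [← hn, mul_pow, mul_pow, pow_add]
    ring
  rw [h8, h7]
  field_simp
  ring

theorem G5c {m j l : ℕ} (hn : j + l = m + 3) {H ρ : ℝ → ℝ} {R b : ℝ} (hP : Prof H ρ R b) {t : ℝ} (ht : 0 < t) :
    IntegrableOn (fun z => Phi j l ρ R (t * z) * √(1 - z ^ 2) ^ (m + 2) / z ^ 2) (Ioo 0 1) ∧
    √(1 + t ^ 2) * (j * R ^ (j - 1) * (t / √(1 + t ^ 2) * b) + ∫ T in Ioi (0 : ℝ), (R ^ j -
      (ρ (√(1 + T ^ 2 * (1 + t ^ 2)) / t) * (T * √(1 + t ^ 2) / √(1 + T ^ 2 * (1 + t ^ 2)))) ^ j * sg T ^ l)) =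
    JJ m * R ^ j + j * R ^ (j - 1) * b * t +
      ∫ z in Ioo (0 : ℝ) 1, Phi j l ρ R (t * z) * √(1 - z ^ 2) ^ (m + 2) / z ^ 2 := by
  have hint := term_integrable (G4c hP ht) j l
  obtain ⟨h1, h2⟩ := G5a ht.le (fun T => R ^ j -
      (ρ (√(1 + T ^ 2 * (1 + t ^ 2)) / t) * (T * √(1 + t ^ 2) / √(1 + T ^ 2 * (1 + t ^ 2)))) ^ j * sg T ^ l)
  obtain ⟨h3, h4⟩ := G5b m
  have h5 := h1.1 hint
  have hcongr : ∀ z ∈ Ioo (0 : ℝ) 1, (fun z : ℝ => (fun T : ℝ => R ^ j -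
      (ρ (√(1 + T ^ 2 * (1 + t ^ 2)) / t) * (T * √(1 + t ^ 2) / √(1 + T ^ 2 * (1 + t ^ 2)))) ^ j * sg T ^ l)
        (√(1 - z ^ 2) / (z * √(1 + t ^ 2))) * (1 / (z ^ 2 * √(1 - z ^ 2)))) z =
      (fun z : ℝ => R ^ j * ((1 - √(1 - z ^ 2) ^ (m + 3)) * (1 / (z ^ 2 * √(1 - z ^ 2)))) +
      Phi j l ρ R (t * z) * √(1 - z ^ 2) ^ (m + 2) / z ^ 2) z := by
    intro z hz
    exact g5c_point hn ρ R ht hz.1 hz.2
  have h6 : IntegrableOn (fun z : ℝ => R ^ j * ((1 - √(1 - z ^ 2) ^ (m + 3)) * (1 / (z ^ 2 * √(1 - z ^ 2)))) +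
      Phi j l ρ R (t * z) * √(1 - z ^ 2) ^ (m + 2) / z ^ 2) (Ioo 0 1) :=
    (integrableOn_congr_fun hcongr measurableSet_Ioo).1 h5
  have h7 : IntegrableOn (fun z : ℝ => R ^ j * ((1 - √(1 - z ^ 2) ^ (m + 3)) * (1 / (z ^ 2 * √(1 - z ^ 2)))))
      (Ioo 0 1) := h3.const_mul (R ^ j)
  have h8 : IntegrableOn (fun z => Phi j l ρ R (t * z) * √(1 - z ^ 2) ^ (m + 2) / z ^ 2) (Ioo 0 1) := by
    have h9 := h6.sub h7
    refine (integrableOn_congr_fun ?_ measurableSet_Ioo).1 h9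
    intro z _
    simp only [Pi.sub_apply]
    ring
  refine ⟨h8, ?_⟩
  have hk : 0 < √(1 + t ^ 2) := Real.sqrt_pos.2 (by positivity)
  rw [mul_add, h2, setIntegral_congr_fun measurableSet_Ioo hcongr]
  have h10 : ∫ z in Ioo (0 : ℝ) 1, (fun z : ℝ => R ^ j * ((1 - √(1 - z ^ 2) ^ (m + 3)) *
      (1 / (z ^ 2 * √(1 - z ^ 2)))) + Phi j l ρ R (t * z) * √(1 - z ^ 2) ^ (m + 2) / z ^ 2) z =
      R ^ j * JJ m + ∫ z in Ioo (0 : ℝ) 1, Phi j l ρ R (t * z) * √(1 - z ^ 2) ^ (m + 2) / z ^ 2 := by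
    simp only []
    rw [integral_add h7 h8, integral_const_mul, h4]
  rw [h10]
  have h11 : √(1 + t ^ 2) * (j * R ^ (j - 1) * (t / √(1 + t ^ 2) * b)) = j * R ^ (j - 1) * b * t := by
    field_simp
  rw [h11]
  ring

end Pool.Agent.RB75
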