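import Pool.Agent.RB75.G0

/-! Module RB-G7: axial symmetry from the generic directions.

Proof. `v` with `⟪v,e⟫ = α ≠ 0`, `perp e v ≠ 0`: `v = α e + ‖perp e v‖ g`, `g` unit, `supp L v = |α| supp L (± e + T g)
= |α| h T`, `T = ‖perp e v‖/|α| > 0`, and `supp L (e + T f₀) = h T` too. If `perp e v = 0`: `v = α e`;
`supp L (± e) = lim_{T → 0+} supp L (± e + T f₀) = lim h T = supp L e` by continuity. If `α = 0`, `v ≠ 0`, `v = ‖v‖ g`:
`supp L g = lim_{T→∞} supp L (e/T + g) = lim h(T)/T = supp L f₀`. -/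

namespace Pool.Agent.RB75
open MeasureTheory Set Filter Topology
open scoped RealInnerProductSpace

/-- two continuous functions of a real parameter that agree for positive parameters agree at zero. -/
theorem G7_limit {F G : ℝ → ℝ} (hF : Continuous F) (hG : Continuous G) (h : ∀ t, 0 < t → F t = G t) :
    F 0 = G 0 := by
  have h1 : Tendsto F (𝓝[>] 0) (𝓝 (F 0)) := hF.continuousAt.tendsto.mono_left nhdsWithin_le_nhds
  have h2 : Tendsto G (𝓝[>] 0) (𝓝 (G 0)) := hG.continuousAt.tendsto.mono_left nhdsWithin_le_nhds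
  have h3 : Tendsto F (𝓝[>] 0) (𝓝 (G 0)) := by
    apply h2.congr'
    filter_upwards [self_mem_nhdsWithin] with t ht
    exact (h t ht).symm
  exact tendsto_nhds_unique h1 h3

theorem G7 {k : ℕ} (hk : 2 ≤ k) {L : Set (E k)} (hL : CCN L) {e f₀ : E k} (he : ‖e‖ = 1) (hf₀ : ‖f₀‖ = 1)
    (hfe : ⟪f₀, e⟫ = 0) {h : ℝ → ℝ}
    (h1 : ∀ f : E k, ‖f‖ = 1 → ⟪f, e⟫ = 0 → ∀ t, 0 < t → supp L (e + t • f) = h t)
    (h2 : ∀ f : E k, ‖f‖ = 1 → ⟪f, e⟫ = 0 → ∀ t, 0 < t → supp L (-e + t • f) = h t) :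
    AxSym e L (fun t => supp L (e + t • f₀)) (supp L f₀) := by
  have hc := hL.supp_continuous
  have hme : supp L (-e) = supp L e := by
    have h3 : Continuous fun t : ℝ => supp L (-e + t • f₀) := hc.comp (by fun_prop)
    have h4 : Continuous fun t : ℝ => supp L (e + t • f₀) := hc.comp (by fun_prop)
    have h5 := G7_limit h3 h4 (fun t ht => by rw [h1 f₀ hf₀ hfe t ht, h2 f₀ hf₀ hfe t ht])
    simpa using h5
  have hA : ∀ g : E k, ‖g‖ = 1 → ⟪g, e⟫ = 0 → ∀ T : ℝ, 0 ≤ T →
      supp L (e + T • g) = supp L (e + T • f₀) ∧ supp L (-e + T • g) = supp L (e + T • f₀) := by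
    intro g hg hge T hT
    rcases hT.eq_or_lt with h0 | h0
    · subst h0
      simp [hme]
    · rw [h1 g hg hge T h0, h2 g hg hge T h0, h1 f₀ hf₀ hfe T h0]
      exact ⟨rfl, rfl⟩
  refine ⟨?_, ?_⟩
  · intro v hv
    obtain ⟨g, hg, hge, hw⟩ := exists_unit_dir hk (inner_perp he v)
    have hv1 : v = ⟪v, e⟫ • e + ‖perp e v‖ • g := by
      have h3 : v = ⟪v, e⟫ • e + perp e v := by simp [perp]
      rw [hw] at h3
      exact h3
    set a := ⟪v, e⟫ with ha
    set w := ‖perp e v‖ with hw0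
    have hapos : 0 < |a| := abs_pos.2 hv
    have hT : 0 ≤ w / |a| := div_nonneg (norm_nonneg _) hapos.le
    have hAg := hA g hg hge (w / |a|) hT
    show supp L v = |a| * supp L (e + (w / |a|) • f₀)
    rw [hv1]
    rcases lt_or_gt_of_ne hv with h0 | h0
    · have h3 : a • e + w • g = |a| • (-e + (w / |a|) • g) := by
        rw [smul_add, smul_smul, mul_div_cancel₀ _ hapos.ne', abs_of_neg h0, smul_neg, neg_smul, neg_neg]
      rw [h3, hL.supp_smul hapos.le, hAg.2]
    · have h3 : a • e + w • g = |a| • (e + (w / |a|) • g) := by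
        rw [smul_add, smul_smul, mul_div_cancel₀ _ hapos.ne', abs_of_pos h0]
      rw [h3, hL.supp_smul hapos.le, hAg.1]
  · intro v hv
    obtain ⟨g, hg, hge, hw⟩ := exists_unit_dir hk hv
    have hgf : supp L g = supp L f₀ := by
      have h3 : Continuous fun s : ℝ => supp L (s • e + g) := hc.comp (by fun_prop)
      have h4 : Continuous fun s : ℝ => supp L (s • e + f₀) := hc.comp (by fun_prop)
      have h5 := G7_limit h3 h4 (fun s hs => by
        have hs' : 0 < 1 / s := by positivity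
        have e1 : ∀ x : E k, s • e + x = s • (e + (1 / s) • x) := by
          intro x
          rw [smul_add, smul_smul, mul_one_div_cancel hs.ne', one_smul]
        rw [e1 g, e1 f₀, hL.supp_smul hs.le, hL.supp_smul hs.le, h1 g hg hge _ hs', h1 f₀ hf₀ hfe _ hs'])
      simpa using h5
    rw [hw, hL.supp_smul (norm_nonneg _), hgf, norm_smul, hg, norm_norm, mul_one, mul_comm]

end Pool.Agent.RB75
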