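import Pool.Agent.RB75.G3
import Pool.Agent.RB75.G4b
import Pool.Agent.RB75.G5c
import Pool.Agent.RB75.G7
import Pool.Agent.RB75.G8a
import Pool.Agent.RB75.G10

/-! Assembly: the support function of a projection body of an axially symmetric body. -/

namespace Pool.Agent.RB75
open MeasureTheory Set Filter Topology
open scoped RealInnerProductSpace

/-- the constant `C(n,j) c_n / κ_l`, `n = m + 3`. -/
noncomputable def C0 (m j l : ℕ) : ℝ := cc (m + 3) * ((m + 3).choose j : ℝ) / kap l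

theorem cc_pos {k : ℕ} (hk : 1 ≤ k) : 0 < cc k := by
  unfold cc
  have := kap_pos (k - 1)
  have hk' : (0 : ℝ) < k := by exact_mod_cast hk
  positivity

theorem C0_pos {m j l : ℕ} (hn : j + l = m + 3) : 0 < C0 m j l := by
  unfold C0
  have h1 := cc_pos (k := m + 3) (by omega)
  have h2 := kap_pos l
  have h3 : 0 < (m + 3).choose j := Nat.choose_pos (by omega)
  have h4 : (0 : ℝ) < ((m + 3).choose j : ℝ) := by exact_mod_cast h3
  positivity

theorem aux_iff {S kl cn bin X v : ℝ} (hS : 0 < S) (hk : 0 < kl) :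
    cn * (bin * X) = kl * v ↔ S * v = cn * bin / kl * (S * X) := by
  constructor
  · intro h
    field_simp
    linear_combination -h
  · intro h
    field_simp at h
    linear_combination -h

theorem norm_dir {k : ℕ} {e f : E k} (he : ‖e‖ = 1) (hf : ‖f‖ = 1) (hfe : ⟪f, e⟫ = 0) (t : ℝ) :
    ‖(√(1 + t ^ 2))⁻¹ • (t • f + e)‖ = 1 := by
  have hs : (0 : ℝ) < √(1 + t ^ 2) := by positivity
  rw [norm_smul, norm_inv, Real.norm_of_nonneg hs.le]
  have : ‖t • f + e‖ = √(1 + t ^ 2) := by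
    rw [eq_comm, Real.sqrt_eq_iff_mul_self_eq (by positivity) (norm_nonneg _)]
    have := norm_add_sq_real (t • f) e
    rw [norm_smul, hf, he, real_inner_smul_left, hfe, mul_one, Real.norm_eq_abs, sq_abs] at this
    nlinarith [this]
  rw [this]; field_simp

/-- the intrinsic volume of the shadow in direction `t f + e`. -/
theorem shadow_intrVol {m j l : ℕ} (hn : j + l = m + 3) {K : Set (E (m + 3 + 1))} (hK : CCN K)
    {e f : E (m + 3 + 1)} (he : ‖e‖ = 1) (hf : ‖f‖ = 1) (hfe : ⟪f, e⟫ = 0) {H ρ : ℝ → ℝ} {R b : ℝ}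
    (h : AxSym e K H R) (hP : Prof H ρ R b) {t : ℝ} (ht : 0 < t) (ι : E (m + 3) →ₗᵢ[ℝ] E (m + 3 + 1))
    (hι : ∀ y, ⟪ι y, (√(1 + t ^ 2))⁻¹ • (t • f + e)⟫ = 0) (v : ℝ) :
    IsIntrVol (m + 3) j (shadow ι ((√(1 + t ^ 2))⁻¹ • (t • f + e)) K) v ↔
      √(1 + t ^ 2) * v = C0 m j l * (JJ m * R ^ j + j * R ^ (j - 1) * b * t +
        ∫ z in Ioo (0 : ℝ) 1, Phi j l ρ R (t * z) * √(1 - z ^ 2) ^ (m + 2) / z ^ 2) := by
  have hs : (0 : ℝ) < √(1 + t ^ 2) := by positivity
  have hs2 : √(1 + t ^ 2) ^ 2 = 1 + t ^ 2 := Real.sq_sqrt (by positivity)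
  have hu := norm_dir he hf hfe t
  have hwu : ⟪(√(1 + t ^ 2))⁻¹ • (f - t • e), (√(1 + t ^ 2))⁻¹ • (t • f + e)⟫ = 0 := by
    rw [real_inner_smul_left, real_inner_smul_right, inner_sub_left, inner_add_right, inner_add_right,
      real_inner_smul_left, real_inner_smul_left, real_inner_smul_right, real_inner_smul_right,
      real_inner_self_eq_norm_sq, real_inner_self_eq_norm_sq, hfe, real_inner_comm f e, hfe, hf, he]
    ring
  obtain ⟨w', hw'⟩ := iota_surj hu ι hι hwu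
  obtain ⟨hw1, hax⟩ := shadow_AxSym hK he hf hfe h ht ι hι hw'
  have hkl := kap_pos l
  have hl : m + 3 - j = l := by omega
  rw [intrVol_iff (by omega) (by omega) (shadow_CCN hK hu ι hι) hw1 hax (G4c hP ht) v, hl]
  have h5 := (G5c (m := m) hn hP ht).2
  unfold sc C0
  rw [hl]
  rw [← h5]
  exact aux_iff hs hkl

/-- the support function of `L = Π_j K` in the direction `e + t f`. -/
theorem projBody_H {m j l : ℕ} (hn : j + l = m + 3) {K L : Set (E (m + 3 + 1))} (hK : CCN K)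
    (hKL : IsProjBody j K L) {e f : E (m + 3 + 1)} (he : ‖e‖ = 1) (hf : ‖f‖ = 1) (hfe : ⟪f, e⟫ = 0)
    {H ρ : ℝ → ℝ} {R b : ℝ} (h : AxSym e K H R) (hP : Prof H ρ R b) {t : ℝ} (ht : 0 < t) :
    supp L (e + t • f) = C0 m j l * (JJ m * R ^ j + j * R ^ (j - 1) * b * t +
        ∫ z in Ioo (0 : ℝ) 1, Phi j l ρ R (t * z) * √(1 - z ^ 2) ^ (m + 2) / z ^ 2) := by
  have hs : (0 : ℝ) < √(1 + t ^ 2) := by positivity
  have hL : CCN L := ⟨hKL.1, hKL.2.1, hKL.2.2.1⟩
  have hu := norm_dir he hf hfe t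
  obtain ⟨ι, hι⟩ := exists_iota _ hu
  have h1 := (shadow_intrVol hn hK he hf hfe h hP ht ι hι _).1 (hKL.2.2.2 _ hu ι hι)
  rw [← h1, hL.supp_smul (by positivity)]
  rw [← mul_assoc, mul_inv_cancel₀ hs.ne', one_mul, add_comm e (t • f)]

/-- `AxSym` with respect to `-e`. -/
theorem AxSym.neg {k : ℕ} {e : E k} {K : Set (E k)} {H : ℝ → ℝ} {R : ℝ} (h : AxSym e K H R) :
    AxSym (-e) K H R := by
  have hp : ∀ v : E k, perp (-e) v = perp e v := by
    intro v; unfold perp; simp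
  constructor
  · intro v hv
    rw [inner_neg_right, neg_ne_zero] at hv
    rw [h.ne v hv, hp, inner_neg_right, abs_neg]
  · intro v hv
    rw [inner_neg_right, neg_eq_zero] at hv
    exact h.eq v hv

/-- everything about `L = Π_j K`. -/
theorem projBody_all {m j l : ℕ} (hj : 1 ≤ j) (hn : j + l = m + 3) {K L : Set (E (m + 3 + 1))} (hK : CCN K)
    (hKL : IsProjBody j K L) {e f₀ : E (m + 3 + 1)} (he : ‖e‖ = 1) (hf₀ : ‖f₀‖ = 1) (hfe : ⟪f₀, e⟫ = 0)
    {H ρ : ℝ → ℝ} {R b : ℝ} (h : AxSym e K H R) (hP : Prof H ρ R b) (hH : 0 < H 0) :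
    Star m j l (C0 m j l) ρ R b (fun t => supp L (e + t • f₀)) ∧
    AxSym e L (fun t => supp L (e + t • f₀)) (supp L f₀) ∧ 0 < supp L f₀ ∧
    0 < supp L (e + (0 : ℝ) • f₀) := by
  have hL : CCN L := ⟨hKL.1, hKL.2.1, hKL.2.2.1⟩
  have hS : Star m j l (C0 m j l) ρ R b (fun t => supp L (e + t • f₀)) :=
    ⟨fun t ht => (G5c hn hP ht).1, fun t ht => projBody_H hn hK hKL he hf₀ hfe h hP ht⟩
  have hC := C0_pos hn
  have hax : AxSym e L (fun t => supp L (e + t • f₀)) (supp L f₀) := by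
    apply G7 (by omega) hL he hf₀ hfe (h := fun t => supp L (e + t • f₀))
    · intro f hf hfe' t ht
      rw [projBody_H hn hK hKL he hf hfe' h hP ht, projBody_H hn hK hKL he hf₀ hfe h hP ht]
    · intro f hf hfe' t ht
      have hne : ‖-e‖ = 1 := by rw [norm_neg, he]
      have hfne : ⟪f, -e⟫ = 0 := by rw [inner_neg_right, hfe', neg_zero]
      rw [projBody_H hn hK hKL hne hf hfne h.neg hP ht, projBody_H hn hK hKL he hf₀ hfe h hP ht]
  -- evenness in the direction f₀ gives `0 ≤ supp L f₀`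
  have hnn : 0 ≤ supp L f₀ := by
    have h1 : supp L (-f₀) = supp L f₀ := hKL.even f₀
    have h2 := hL.supp_add_le f₀ (-f₀)
    have h3 : supp L (f₀ + -f₀) = 0 := by
      have := hL.supp_smul (c := 0) le_rfl f₀
      rw [zero_smul, zero_mul] at this
      rw [add_neg_cancel, this]
    rw [h3, h1] at h2
    linarith
  have hpos : 0 < supp L f₀ := by
    rcases eq_or_lt_of_le hnn with e0 | h0
    · exfalso
      obtain ⟨t, ht, hb⟩ := hS.unbounded hj hC hP hH (supp L e)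
      have h1 := hL.supp_add_le e (t • f₀)
      rw [hL.supp_smul ht.le, ← e0, mul_zero, add_zero] at h1
      linarith
    · exact h0
  refine ⟨hS, hax, hpos, ?_⟩
  -- the limit at zero
  have hcont : Continuous (fun t : ℝ => supp L (e + t • f₀)) :=
    hL.supp_continuous.comp (by fun_prop)
  have hJ : 0 < JJ m := by
    unfold JJ
    apply intervalIntegral.intervalIntegral_pos_of_pos_on
    · apply Continuous.intervalIntegrable
      fun_prop
    · intro x hx
      have : 0 < √(1 - x ^ 2) := Real.sqrt_pos.2 (by nlinarith [hx.1, hx.2])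
      positivity
    · norm_num
  have hR := hP.Rpos
  have hlow : ∀ t : ℝ, 0 < t → C0 m j l * (JJ m * R ^ j) ≤ supp L (e + t • f₀) := by
    intro t ht
    rw [projBody_H hn hK hKL he hf₀ hfe h hP ht]
    have hb := hP.bnn
    have hint : 0 ≤ ∫ z in Ioo (0 : ℝ) 1, Phi j l ρ R (t * z) * √(1 - z ^ 2) ^ (m + 2) / z ^ 2 := by
      apply setIntegral_nonneg measurableSet_Ioo
      intro z hz
      have := Phi_nonneg hP j l (t * z) (mul_pos ht hz.1)
      positivity
    have h2 : 0 ≤ (j : ℝ) * R ^ (j - 1) * b * t := by positivity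
    exact mul_le_mul_of_nonneg_left (by linarith) hC.le
  have hlim : Tendsto (fun t : ℝ => supp L (e + t • f₀)) (𝓝[>] 0) (𝓝 (supp L (e + (0 : ℝ) • f₀))) :=
    (hcont.tendsto 0).mono_left nhdsWithin_le_nhds
  have : C0 m j l * (JJ m * R ^ j) ≤ supp L (e + (0 : ℝ) • f₀) := by
    apply ge_of_tendsto hlim
    filter_upwards [self_mem_nhdsWithin] with t ht
    exact hlow t ht
  have h3 : 0 < C0 m j l * (JJ m * R ^ j) := by positivity
  linarith

end Pool.Agent.RB75
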