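import Pool.Agent.RB75.ADefs
import Pool.Agent.RB75.G0

/-! Module RB-H2: ellipsoids of revolution and cylinders.

`Ell`: closed, bounded, convex (`x ↦ ‖perp e x‖²/R² + ⟪x,e⟫²/(R lam)²` is a convex continuous quadratic form);
`supp (Ell) v = R√(lam²⟪v,e⟫² + ‖perp e v‖²)`: `≤` by Cauchy-Schwarz
(`⟪v,x⟫ = ⟪v,e⟫⟪x,e⟫ + ⟪perp e v, perp e x⟫`), attained at `x = R (lam² ⟪v,e⟫ e + perp e v)/√(…)`.
`Cyl`: `supp v = b|⟪v,e⟫| + R ‖perp e v‖` (attained at `± b e + R g`, `g` the direction of `perp e v`). -/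

namespace Pool.Agent.RB75
open MeasureTheory Set Filter Topology
open scoped RealInnerProductSpace

def Ell {k : ℕ} (e : E k) (R lam : ℝ) : Set (E k) := {x | ‖perp e x‖ ^ 2 / R ^ 2 + ⟪x, e⟫ ^ 2 / (R * lam) ^ 2 ≤ 1}

def Cyl {k : ℕ} (e : E k) (R b : ℝ) : Set (E k) := {x | ‖perp e x‖ ≤ R ∧ |⟪x, e⟫| ≤ b}

theorem H2_perp_cont {k : ℕ} (e : E k) : Continuous (perp e) := by
  unfold perp; fun_prop

theorem H2_perp_lin {k : ℕ} (e x y : E k) (s t : ℝ) :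
    perp e (s • x + t • y) = s • perp e x + t • perp e y := by
  unfold perp
  rw [inner_add_left, real_inner_smul_left, real_inner_smul_left]
  simp only [smul_sub, add_smul, smul_smul]
  abel

theorem H2_inner_lin {k : ℕ} (e x y : E k) (s t : ℝ) :
    ⟪s • x + t • y, e⟫ = s * ⟪x, e⟫ + t * ⟪y, e⟫ := by
  rw [inner_add_left, real_inner_smul_left, real_inner_smul_left]

/-- orthogonal decomposition of the inner product. -/
theorem H2_inner {k : ℕ} {e : E k} (he : ‖e‖ = 1) (v x : E k) :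
    ⟪v, x⟫ = ⟪v, e⟫ * ⟪x, e⟫ + ⟪perp e v, perp e x⟫ := by
  have h1 : ⟪e, x⟫ = ⟪x, e⟫ := real_inner_comm _ _
  unfold perp
  simp only [inner_sub_left, inner_sub_right, real_inner_smul_left, real_inner_smul_right,
    real_inner_self_eq_norm_sq, he, h1]
  ring

theorem H2_sq_conv {a b s t : ℝ} (hs : 0 ≤ s) (ht : 0 ≤ t) (hst : s + t = 1) :
    (s * a + t * b) ^ 2 ≤ s * a ^ 2 + t * b ^ 2 := by
  have : s * a ^ 2 + t * b ^ 2 - (s * a + t * b) ^ 2 = s * t * (a - b) ^ 2 := by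
    have : t = 1 - s := by linarith
    subst this; ring
  have h2 : 0 ≤ s * t * (a - b) ^ 2 := by positivity
  linarith

theorem H2_norm_conv {k : ℕ} (x y : E k) {s t : ℝ} (hs : 0 ≤ s) (ht : 0 ≤ t) :
    ‖s • x + t • y‖ ≤ s * ‖x‖ + t * ‖y‖ := by
  refine (norm_add_le _ _).trans ?_
  rw [norm_smul, norm_smul, Real.norm_of_nonneg hs, Real.norm_of_nonneg ht]

theorem H2_bdd {k : ℕ} {e : E k} (he : ‖e‖ = 1) {A B : ℝ} {S : Set (E k)}
    (h : ∀ x ∈ S, ‖perp e x‖ ^ 2 ≤ A ∧ ⟪x, e⟫ ^ 2 ≤ B) : Bornology.IsBounded S := by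
  rw [isBounded_iff_forall_norm_le]
  refine ⟨√(A + B), fun x hx => ?_⟩
  obtain ⟨h1, h2⟩ := h x hx
  have h3 := norm_perp_sq he x
  apply Real.le_sqrt_of_sq_le
  linarith

theorem Ell_CCN {k : ℕ} {e : E k} (he : ‖e‖ = 1) {R lam : ℝ} (hR : 0 < R) (hl : 0 < lam) : CCN (Ell e R lam) := by
  have hRl : 0 < R * lam := mul_pos hR hl
  refine ⟨?_, ?_, ?_⟩
  · apply Metric.isCompact_of_isClosed_isBounded
    · apply isClosed_le
      · have := H2_perp_cont e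
        fun_prop
      · fun_prop
    · apply H2_bdd he (A := R ^ 2) (B := (R * lam) ^ 2)
      intro x hx
      have hx' : ‖perp e x‖ ^ 2 / R ^ 2 + ⟪x, e⟫ ^ 2 / (R * lam) ^ 2 ≤ 1 := hx
      have h1 : 0 ≤ ‖perp e x‖ ^ 2 / R ^ 2 := by positivity
      have h2 : 0 ≤ ⟪x, e⟫ ^ 2 / (R * lam) ^ 2 := by positivity
      constructor
      · have : ‖perp e x‖ ^ 2 / R ^ 2 ≤ 1 := by linarith
        rwa [div_le_one (by positivity)] at this
      · have : ⟪x, e⟫ ^ 2 / (R * lam) ^ 2 ≤ 1 := by linarith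
        rwa [div_le_one (by positivity)] at this
  · intro x hx y hy s t hs ht hst
    have hx' : ‖perp e x‖ ^ 2 / R ^ 2 + ⟪x, e⟫ ^ 2 / (R * lam) ^ 2 ≤ 1 := hx
    have hy' : ‖perp e y‖ ^ 2 / R ^ 2 + ⟪y, e⟫ ^ 2 / (R * lam) ^ 2 ≤ 1 := hy
    show ‖perp e (s • x + t • y)‖ ^ 2 / R ^ 2 + ⟪s • x + t • y, e⟫ ^ 2 / (R * lam) ^ 2 ≤ 1
    rw [H2_perp_lin, H2_inner_lin]
    have h1 : ‖s • perp e x + t • perp e y‖ ^ 2 ≤ s * ‖perp e x‖ ^ 2 + t * ‖perp e y‖ ^ 2 :=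
      (pow_le_pow_left₀ (norm_nonneg _) (H2_norm_conv _ _ hs ht) 2).trans (H2_sq_conv hs ht hst)
    have h2 : (s * ⟪x, e⟫ + t * ⟪y, e⟫) ^ 2 ≤ s * ⟪x, e⟫ ^ 2 + t * ⟪y, e⟫ ^ 2 := H2_sq_conv hs ht hst
    have h3 := div_le_div_of_nonneg_right h1 (sq_nonneg R)
    have h4 := div_le_div_of_nonneg_right h2 (sq_nonneg (R * lam))
    have h5 := mul_le_mul_of_nonneg_left hx' hs
    have h6 := mul_le_mul_of_nonneg_left hy' ht
    have h7 : (s * ‖perp e x‖ ^ 2 + t * ‖perp e y‖ ^ 2) / R ^ 2 +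
        (s * ⟪x, e⟫ ^ 2 + t * ⟪y, e⟫ ^ 2) / (R * lam) ^ 2 =
        s * (‖perp e x‖ ^ 2 / R ^ 2 + ⟪x, e⟫ ^ 2 / (R * lam) ^ 2) +
        t * (‖perp e y‖ ^ 2 / R ^ 2 + ⟪y, e⟫ ^ 2 / (R * lam) ^ 2) := by ring
    linarith
  · refine ⟨0, ?_⟩
    show ‖perp e (0 : E k)‖ ^ 2 / R ^ 2 + ⟪(0 : E k), e⟫ ^ 2 / (R * lam) ^ 2 ≤ 1
    simp [perp]

theorem Ell_supp {k : ℕ} {e : E k} (he : ‖e‖ = 1) {R lam : ℝ} (hR : 0 < R) (hl : 0 < lam) (v : E k) :
    supp (Ell e R lam) v = R * √(lam ^ 2 * ⟪v, e⟫ ^ 2 + ‖perp e v‖ ^ 2) := by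
  have hC := Ell_CCN he hR hl
  have hS0 : 0 ≤ lam ^ 2 * ⟪v, e⟫ ^ 2 + ‖perp e v‖ ^ 2 := by positivity
  apply le_antisymm
  · apply hC.supp_le
    intro x hx
    have hx' : ‖perp e x‖ ^ 2 / R ^ 2 + ⟪x, e⟫ ^ 2 / (R * lam) ^ 2 ≤ 1 := hx
    have h1 : ⟪perp e v, perp e x⟫ ≤ ‖perp e v‖ * ‖perp e x‖ := real_inner_le_norm _ _
    rw [H2_inner he v x]
    set a := ⟪v, e⟫
    set p := ⟪x, e⟫
    set u := ‖perp e v‖ with hu
    set w := ‖perp e x‖ with hw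
    have hu0 : 0 ≤ u := norm_nonneg _
    have hw0 : 0 ≤ w := norm_nonneg _
    have h2 : w ^ 2 + p ^ 2 / lam ^ 2 ≤ R ^ 2 := by
      have h := mul_le_mul_of_nonneg_left hx' (sq_nonneg R)
      have e1 : R ^ 2 * (w ^ 2 / R ^ 2 + p ^ 2 / (R * lam) ^ 2) = w ^ 2 + p ^ 2 / lam ^ 2 := by
        field_simp
      rw [e1] at h
      linarith
    have h3 : (a * p + u * w) ^ 2 ≤ (lam ^ 2 * a ^ 2 + u ^ 2) * (w ^ 2 + p ^ 2 / lam ^ 2) := by
      have e2 : (lam ^ 2 * a ^ 2 + u ^ 2) * (w ^ 2 + p ^ 2 / lam ^ 2) - (a * p + u * w) ^ 2 =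
          (lam * a * w - u * (p / lam)) ^ 2 := by
        field_simp
        ring
      have := sq_nonneg (lam * a * w - u * (p / lam))
      linarith
    have h4 : (a * p + u * w) ^ 2 ≤ (R * √(lam ^ 2 * a ^ 2 + u ^ 2)) ^ 2 := by
      rw [mul_pow, Real.sq_sqrt hS0, mul_comm (R ^ 2)]
      exact h3.trans (mul_le_mul_of_nonneg_left h2 hS0)
    have h5 := abs_le_of_sq_le_sq h4 (by positivity)
    have h6 := le_abs_self (a * p + u * w)
    linarith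
  · rcases hS0.eq_or_lt with hS | hS
    · rw [← hS, Real.sqrt_zero, mul_zero]
      have h0 : (0 : E k) ∈ Ell e R lam := by
        show ‖perp e (0 : E k)‖ ^ 2 / R ^ 2 + ⟪(0 : E k), e⟫ ^ 2 / (R * lam) ^ 2 ≤ 1
        simp [perp]
      have := hC.le_supp v h0
      simpa using this
    · set S := lam ^ 2 * ⟪v, e⟫ ^ 2 + ‖perp e v‖ ^ 2 with hSdef
      have hq : 0 < √S := Real.sqrt_pos.2 hS
      have hq2 : √S ^ 2 = S := Real.sq_sqrt hS0
      have hg : ⟪perp e v, e⟫ = 0 := inner_perp he v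
      set x : E k := (R / √S * (lam ^ 2 * ⟪v, e⟫)) • e + (R / √S) • perp e v with hx
      have hpx : perp e x = (R / √S) • perp e v := perp_add_smul he hg _ _
      have hxe : ⟪x, e⟫ = R / √S * (lam ^ 2 * ⟪v, e⟫) := by
        rw [hx, H2_inner_lin, hg, real_inner_self_eq_norm_sq, he]; ring
      have hmem : x ∈ Ell e R lam := by
        show ‖perp e x‖ ^ 2 / R ^ 2 + ⟪x, e⟫ ^ 2 / (R * lam) ^ 2 ≤ 1
        rw [hpx, hxe, norm_smul, Real.norm_eq_abs, mul_pow, sq_abs, div_pow, hq2]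
        have e3 : R ^ 2 / S * ‖perp e v‖ ^ 2 / R ^ 2 +
            (R / √S * (lam ^ 2 * ⟪v, e⟫)) ^ 2 / (R * lam) ^ 2 =
            (lam ^ 2 * ⟪v, e⟫ ^ 2 + ‖perp e v‖ ^ 2) / S := by
          rw [mul_pow, div_pow, hq2]
          field_simp
          ring
        rw [e3, ← hSdef, div_self hS.ne']
      have h1 := hC.le_supp v hmem
      have h2 : ⟪v, x⟫ = R * √S := by
        rw [H2_inner he v x, hpx, hxe, real_inner_smul_right, real_inner_self_eq_norm_sq]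
        have e4 : ⟪v, e⟫ * (R / √S * (lam ^ 2 * ⟪v, e⟫)) + R / √S * ‖perp e v‖ ^ 2 =
            R / √S * S := by rw [hSdef]; ring
        rw [e4, div_mul_eq_mul_div]
        rw [div_eq_iff hq.ne', mul_assoc, ← sq, hq2]
      rw [h2] at h1
      exact h1

theorem H2_perp_eq {k : ℕ} {e v : E k} (hv : ⟪v, e⟫ = 0) : perp e v = v := by
  unfold perp; rw [hv]; simp

theorem Ell_AxSym {k : ℕ} (hk : 2 ≤ k) {e : E k} (he : ‖e‖ = 1) {R lam : ℝ} (hR : 0 < R) (hl : 0 < lam) :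
    AxSym e (Ell e R lam) (fun t => R * √(lam ^ 2 + t ^ 2)) R := by
  have _ := hk
  refine ⟨fun v hv => ?_, fun v hv => ?_⟩
  · rw [Ell_supp he hR hl]
    have ha : 0 < |⟪v, e⟫| := abs_pos.2 hv
    have e1 : lam ^ 2 * ⟪v, e⟫ ^ 2 + ‖perp e v‖ ^ 2 =
        |⟪v, e⟫| ^ 2 * (lam ^ 2 + (‖perp e v‖ / |⟪v, e⟫|) ^ 2) := by
      rw [div_pow, mul_add, mul_div_cancel₀ _ (by positivity : |⟪v, e⟫| ^ 2 ≠ 0), sq_abs]
      ring
    rw [e1, Real.sqrt_mul (by positivity), Real.sqrt_sq ha.le]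
    ring
  · rw [Ell_supp he hR hl, hv, H2_perp_eq hv]
    rw [zero_pow two_ne_zero, mul_zero, zero_add, Real.sqrt_sq (norm_nonneg _)]

theorem Cyl_CCN {k : ℕ} {e : E k} (he : ‖e‖ = 1) {R b : ℝ} (hR : 0 < R) (hb : 0 < b) : CCN (Cyl e R b) := by
  refine ⟨?_, ?_, ?_⟩
  · apply Metric.isCompact_of_isClosed_isBounded
    · have h1 : IsClosed {x : E k | ‖perp e x‖ ≤ R} := by
        apply isClosed_le
        · have := H2_perp_cont e
          fun_prop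
        · fun_prop
      have h2 : IsClosed {x : E k | |⟪x, e⟫| ≤ b} := by
        apply isClosed_le <;> fun_prop
      exact h1.inter h2
    · apply H2_bdd he (A := R ^ 2) (B := b ^ 2)
      intro x hx
      have hx' : ‖perp e x‖ ≤ R ∧ |⟪x, e⟫| ≤ b := hx
      refine ⟨pow_le_pow_left₀ (norm_nonneg _) hx'.1 2, ?_⟩
      have := pow_le_pow_left₀ (abs_nonneg _) hx'.2 2
      rwa [sq_abs] at this
  · intro x hx y hy s t hs ht hst
    have hx' : ‖perp e x‖ ≤ R ∧ |⟪x, e⟫| ≤ b := hx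
    have hy' : ‖perp e y‖ ≤ R ∧ |⟪y, e⟫| ≤ b := hy
    show ‖perp e (s • x + t • y)‖ ≤ R ∧ |⟪s • x + t • y, e⟫| ≤ b
    rw [H2_perp_lin, H2_inner_lin]
    constructor
    · refine (H2_norm_conv _ _ hs ht).trans ?_
      have h1 := mul_le_mul_of_nonneg_left hx'.1 hs
      have h2 := mul_le_mul_of_nonneg_left hy'.1 ht
      have h3 : s * R + t * R = R := by rw [← add_mul, hst, one_mul]
      linarith
    · refine (abs_add_le _ _).trans ?_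
      rw [abs_mul, abs_mul, abs_of_nonneg hs, abs_of_nonneg ht]
      have h1 := mul_le_mul_of_nonneg_left hx'.2 hs
      have h2 := mul_le_mul_of_nonneg_left hy'.2 ht
      have h3 : s * b + t * b = b := by rw [← add_mul, hst, one_mul]
      linarith
  · refine ⟨0, ?_⟩
    show ‖perp e (0 : E k)‖ ≤ R ∧ |⟪(0 : E k), e⟫| ≤ b
    simp [perp, hR.le, hb.le]

theorem Cyl_supp {k : ℕ} (hk : 2 ≤ k) {e : E k} (he : ‖e‖ = 1) {R b : ℝ} (hR : 0 < R) (hb : 0 < b) (v : E k) :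
    supp (Cyl e R b) v = b * |⟪v, e⟫| + R * ‖perp e v‖ := by
  have hC := Cyl_CCN he hR hb
  apply le_antisymm
  · apply hC.supp_le
    intro x hx
    have hx' : ‖perp e x‖ ≤ R ∧ |⟪x, e⟫| ≤ b := hx
    have h1 : ⟪perp e v, perp e x⟫ ≤ ‖perp e v‖ * ‖perp e x‖ := real_inner_le_norm _ _
    have h2 : ⟪v, e⟫ * ⟪x, e⟫ ≤ |⟪v, e⟫| * |⟪x, e⟫| := by
      rw [← abs_mul]; exact le_abs_self _
    have h3 := mul_le_mul_of_nonneg_left hx'.1 (norm_nonneg (perp e v))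
    have h4 := mul_le_mul_of_nonneg_left hx'.2 (abs_nonneg ⟪v, e⟫)
    rw [H2_inner he v x]
    linarith
  · obtain ⟨g, hg1, hg2, hg3⟩ := exists_unit_dir hk (inner_perp he v)
    obtain ⟨s, hs1, hs2⟩ : ∃ s : ℝ, |s| = b ∧ ⟪v, e⟫ * s = b * |⟪v, e⟫| := by
      rcases le_total 0 ⟪v, e⟫ with h | h
      · exact ⟨b, abs_of_pos hb, by rw [abs_of_nonneg h]; ring⟩
      · exact ⟨-b, by rw [abs_neg, abs_of_pos hb], by rw [abs_of_nonpos h]; ring⟩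
    have hpx : perp e (s • e + R • g) = R • g := perp_add_smul he hg2 _ _
    have hxe : ⟪s • e + R • g, e⟫ = s := by
      rw [H2_inner_lin, hg2, real_inner_self_eq_norm_sq, he]; ring
    have hmem : s • e + R • g ∈ Cyl e R b := by
      show ‖perp e (s • e + R • g)‖ ≤ R ∧ |⟪s • e + R • g, e⟫| ≤ b
      rw [hpx, hxe, norm_smul, hg1, Real.norm_of_nonneg hR.le, hs1, mul_one]
      exact ⟨le_rfl, le_rfl⟩
    have h1 := hC.le_supp v hmem
    have h2 : ⟪v, s • e + R • g⟫ = b * |⟪v, e⟫| + R * ‖perp e v‖ := by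
      rw [H2_inner he v, hpx, hxe, hs2]
      congr 1
      have h3 : ⟪perp e v, R • g⟫ = ⟪‖perp e v‖ • g, R • g⟫ := by rw [← hg3]
      rw [h3, real_inner_smul_left, real_inner_smul_right, real_inner_self_eq_norm_sq, hg1]
      ring
    rw [h2] at h1
    exact h1

theorem Cyl_AxSym {k : ℕ} (hk : 2 ≤ k) {e : E k} (he : ‖e‖ = 1) {R b : ℝ} (hR : 0 < R) (hb : 0 < b) :
    AxSym e (Cyl e R b) (fun t => b + R * t) R := by
  refine ⟨fun v hv => ?_, fun v hv => ?_⟩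
  · rw [Cyl_supp hk he hR hb]
    have ha : |⟪v, e⟫| ≠ 0 := (abs_pos.2 hv).ne'
    have e1 : |⟪v, e⟫| * (b + R * (‖perp e v‖ / |⟪v, e⟫|)) =
        b * |⟪v, e⟫| + R * (|⟪v, e⟫| * (‖perp e v‖ / |⟪v, e⟫|)) := by ring
    rw [e1, mul_div_cancel₀ _ ha]
  · rw [Cyl_supp hk he hR hb, hv, H2_perp_eq hv]
    simp

end Pool.Agent.RB75
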