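import Pool.Agent.RB75.G4a

/-! Module RB-H3: shadows in the two special kinds of directions.

(a) `u = ± e`: `ι v ⊥ e`, so `supp (shadow) v = supp K (ι v) = R ‖ι v‖ = R ‖v‖`, and
`‖v‖ = |⟪v,w⟫| √(1² + (‖perp w v‖/|⟪v,w⟫|)²)` for every unit `w`.
(b) `u ⊥ e`, `e = ι w'`: `⟪ι v, e⟫ = ⟪v, w'⟫`, `‖perp e (ι v)‖ = ‖perp w' v‖`. -/

namespace Pool.Agent.RB75
open MeasureTheory Set Filter Topology
open scoped RealInnerProductSpace

theorem shadow_AxSym_pole {k : ℕ} {K : Set (E (k + 1))} (hK : CCN K) {e u : E (k + 1)} (he : ‖e‖ = 1)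
    (hu : u = e ∨ u = -e) {H : ℝ → ℝ} {R : ℝ} (h : AxSym e K H R)
    (ι : E k →ₗᵢ[ℝ] E (k + 1)) (hι : ∀ y, ⟪ι y, u⟫ = 0) {w : E k} (hw : ‖w‖ = 1) :
    AxSym w (shadow ι u K) (fun T => R * √(1 ^ 2 + T ^ 2)) R := by
  have hu1 : ‖u‖ = 1 := by
    rcases hu with rfl | rfl
    · exact he
    · rw [norm_neg]
      exact he
  have hιe : ∀ y, ⟪ι y, e⟫ = 0 := by
    intro y
    rcases hu with rfl | rfl
    · exact hι y
    · have := hι y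
      rw [inner_neg_right] at this
      linarith
  have key : ∀ v, supp (shadow ι u K) v = R * ‖v‖ := by
    intro v
    rw [supp_shadow hK hu1 ι hι v, h.eq _ (hιe v), ι.norm_map]
  refine ⟨?_, fun v _ => key v⟩
  intro v hv
  rw [key v]
  have ha : 0 < |⟪v, w⟫| := abs_pos.2 hv
  have h1 := norm_perp_sq hw v
  have h2 : (1 : ℝ) ^ 2 + (‖perp w v‖ / |⟪v, w⟫|) ^ 2 = (‖v‖ / |⟪v, w⟫|) ^ 2 := by
    rw [div_pow, div_pow, h1, sq_abs]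
    have h3 : ⟪v, w⟫ ^ 2 ≠ 0 := pow_ne_zero 2 hv
    field_simp
    ring
  show R * ‖v‖ = |⟪v, w⟫| * (R * √(1 ^ 2 + (‖perp w v‖ / |⟪v, w⟫|) ^ 2))
  rw [h2, Real.sqrt_sq (by positivity)]
  field_simp

theorem shadow_AxSym_equator {k : ℕ} {K : Set (E (k + 1))} (hK : CCN K) {e u : E (k + 1)} (he : ‖e‖ = 1)
    (hu : ‖u‖ = 1) (hue : ⟪u, e⟫ = 0) {H : ℝ → ℝ} {R : ℝ} (h : AxSym e K H R)
    (ι : E k →ₗᵢ[ℝ] E (k + 1)) (hι : ∀ y, ⟪ι y, u⟫ = 0) {w' : E k} (hw' : ι w' = e) :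
    ‖w'‖ = 1 ∧ AxSym w' (shadow ι u K) H R := by
  have hin : ∀ v, ⟪ι v, e⟫ = ⟪v, w'⟫ := by
    intro v
    rw [← hw', ι.inner_map_map]
  have hperp : ∀ v, ‖perp e (ι v)‖ = ‖perp w' v‖ := by
    intro v
    have h1 : perp e (ι v) = ι (perp w' v) := by
      unfold perp
      rw [hin v, map_sub, map_smul, hw']
    rw [h1, ι.norm_map]
  refine ⟨?_, ?_, ?_⟩
  · rw [← ι.norm_map, hw', he]
  · intro v hv
    rw [supp_shadow hK hu ι hι v, h.ne (ι v) (by rw [hin v]; exact hv), hin v, hperp v]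
  · intro v hv
    rw [supp_shadow hK hu ι hι v, h.eq (ι v) (by rw [hin v]; exact hv), ι.norm_map]

end Pool.Agent.RB75
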