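import Pool.Agent.RB75.ADefs
import Pool.Agent.RB75.G5a
import Pool.Agent.RB75.G5b
import Pool.Agent.RB75.H2c

/-! Module RB-H4: explicit integrals.

(1) `∫_0^∞ (1 - (T/√(1+T²))^(m+3)) dT = JJ m` : G5a with `t = 0` (`T = √(1-z²)/z`, `T/√(1+T²) = √(1-z²)`) and G5b.
(2) `∫_0^∞ (R^(m+3) - (R T/√(lam²+T²))^(m+3)) dT = R^(m+3) lam JJ m` (scaling `T = lam S`). -/

namespace Pool.Agent.RB75
open MeasureTheory Set Filter Topology

theorem H4a (m : ℕ) : ∫ T in Ioi (0 : ℝ), (1 - (T / √(1 + T ^ 2)) ^ (m + 3)) = JJ m := by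
  have h := (G5a (t := 0) le_rfl (fun T : ℝ => 1 - (T / √(1 + T ^ 2)) ^ (m + 3))).2
  have h1 : √(1 + (0 : ℝ) ^ 2) = 1 := by norm_num
  rw [h1, one_mul] at h
  rw [h, ← (G5b m).2]
  refine setIntegral_congr_fun measurableSet_Ioo fun z hz => ?_
  have hz0 : 0 < z := hz.1
  have hpos : 0 < 1 - z ^ 2 := by nlinarith [hz.2]
  have e : √(1 - z ^ 2) / (z * 1) / √(1 + (√(1 - z ^ 2) / (z * 1)) ^ 2) = √(1 - z ^ 2) := by
    have e1 : 1 + (√(1 - z ^ 2) / (z * 1)) ^ 2 = (1 / z) ^ 2 := by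
      rw [div_pow, Real.sq_sqrt hpos.le]
      field_simp
      ring
    rw [e1, Real.sqrt_sq (by positivity)]
    field_simp
  show (1 - (√(1 - z ^ 2) / (z * 1) / √(1 + (√(1 - z ^ 2) / (z * 1)) ^ 2)) ^ (m + 3)) *
    (1 / (z ^ 2 * √(1 - z ^ 2))) = _
  rw [e]

theorem H4b (m : ℕ) {R lam : ℝ} (hl : 0 < lam) :
    ∫ T in Ioi (0 : ℝ), (R ^ (m + 3) - (R * (T / √(lam ^ 2 + T ^ 2))) ^ (m + 3)) =
      R ^ (m + 3) * lam * JJ m := by
  have h := integral_comp_mul_left_Ioi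
    (fun T : ℝ => R ^ (m + 3) - (R * (T / √(lam ^ 2 + T ^ 2))) ^ (m + 3)) 0 hl
  rw [mul_zero, smul_eq_mul] at h
  have h2 : ∫ S in Ioi (0 : ℝ), (R ^ (m + 3) - (R * (lam * S / √(lam ^ 2 + (lam * S) ^ 2))) ^ (m + 3))
      = R ^ (m + 3) * JJ m := by
    rw [← H4a m, ← integral_const_mul]
    refine setIntegral_congr_fun measurableSet_Ioi fun S hS => ?_
    have hS0 : 0 < S := hS
    have e1 : √(lam ^ 2 + (lam * S) ^ 2) = lam * √(1 + S ^ 2) := by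
      have : lam ^ 2 + (lam * S) ^ 2 = lam ^ 2 * (1 + S ^ 2) := by ring
      rw [this, Real.sqrt_mul (by positivity), Real.sqrt_sq hl.le]
    have hs : 0 < √(1 + S ^ 2) := Real.sqrt_pos.2 (by positivity)
    have e2 : lam * S / √(lam ^ 2 + (lam * S) ^ 2) = S / √(1 + S ^ 2) := by
      rw [e1]
      field_simp
    show R ^ (m + 3) - (R * (lam * S / √(lam ^ 2 + (lam * S) ^ 2))) ^ (m + 3) =
      R ^ (m + 3) * (1 - (S / √(1 + S ^ 2)) ^ (m + 3))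
    rw [e2, mul_pow]
    ring
  rw [h2] at h
  have h3 : ∫ T in Ioi (0 : ℝ), (R ^ (m + 3) - (R * (T / √(lam ^ 2 + T ^ 2))) ^ (m + 3)) =
      lam * (R ^ (m + 3) * JJ m) := by
    rw [h]
    field_simp
  rw [h3]
  ring

end Pool.Agent.RB75
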