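import Pool.Agent.RB75.ADefs
import Pool.Agent.RB75.B0

/-! Module RB-H4c: the ball identity
`J + ∫_0^1 (1 - sg(1/(tz))^(m+3)) √(1-z²)^(m+2)/z² dz = J √(1+t²)`, `J = (m+2) ∫_0^1 √(1-z²)^m dz`.

`sg(1/(t z)) = 1/√(1+t²z²)`. Proof:
`1 - (1+t²z²)^{-(m+3)/2} = ∫_0^t (m+3) s z² (1+s²z²)^{-(m+5)/2} ds`, swap the integrals, and
`∫_0^1 (1+s²z²)^{-(m+5)/2} √(1-z²)^(m+2) dz = (1+s²)^{-1/2} ∫_0^1 √(1-y²)^(m+2) dy` by the substitution
`z = y/√(1+s²-s²y²)`; finally `(m+3) ∫ √^(m+2) = (m+2) ∫ √^m`: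
`d/dz (z √(1-z²)^(m+2)) = (m+3) √(1-z²)^(m+2) - (m+2) √(1-z²)^m`. -/

namespace Pool.Agent.RB75
open MeasureTheory Set Filter Topology

/-- `J = (m+3) ∫ √(1-z²)^(m+2)`. -/
private theorem JJ_eq (m : ℕ) : JJ m = ((m : ℝ) + 3) * ∫ z in (0 : ℝ)..1, √(1 - z ^ 2) ^ (m + 2) := by
  have hd : ∀ z ∈ Ioo (0 : ℝ) 1, HasDerivAt (fun z : ℝ => z * √(1 - z ^ 2) ^ (m + 2))
      (((m : ℝ) + 3) * √(1 - z ^ 2) ^ (m + 2) - ((m : ℝ) + 2) * √(1 - z ^ 2) ^ m) z := by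
    intro z hz
    have hpos : 0 < 1 - z ^ 2 := by nlinarith [hz.1, hz.2]
    have h1 : HasDerivAt (fun x : ℝ => 1 - x ^ 2) (-(2 * z)) z := by
      have := (hasDerivAt_pow 2 z).const_sub 1
      simpa using this
    have h2 := h1.sqrt hpos.ne'
    have h3 := h2.pow (m + 2)
    have h4 := (hasDerivAt_id z).mul h3
    have hs : 0 < √(1 - z ^ 2) := Real.sqrt_pos.2 hpos
    have hsq : √(1 - z ^ 2) ^ 2 = 1 - z ^ 2 := Real.sq_sqrt hpos.le
    have e : HasDerivAt (fun z : ℝ => z * √(1 - z ^ 2) ^ (m + 2))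
        (1 * √(1 - z ^ 2) ^ (m + 2) +
          z * (((m + 2 : ℕ) : ℝ) * √(1 - z ^ 2) ^ (m + 2 - 1) * (-(2 * z) / (2 * √(1 - z ^ 2))))) z := h4
    have e2 : 1 * √(1 - z ^ 2) ^ (m + 2) +
          z * (((m + 2 : ℕ) : ℝ) * √(1 - z ^ 2) ^ (m + 2 - 1) * (-(2 * z) / (2 * √(1 - z ^ 2)))) =
        ((m : ℝ) + 3) * √(1 - z ^ 2) ^ (m + 2) - ((m : ℝ) + 2) * √(1 - z ^ 2) ^ m := by
      have h5 : m + 2 - 1 = m + 1 := by omega
      rw [h5]
      have h6 : √(1 - z ^ 2) ^ (m + 1) * (-(2 * z) / (2 * √(1 - z ^ 2))) = -(z * √(1 - z ^ 2) ^ m) := by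
        field_simp
        ring
      have h7 : √(1 - z ^ 2) ^ (m + 2) = √(1 - z ^ 2) ^ m * (1 - z ^ 2) := by
        rw [pow_add, hsq]
      rw [mul_assoc ((m + 2 : ℕ) : ℝ), h6, h7]
      push_cast
      ring
    rw [e2] at e
    exact e
  have hc : Continuous (fun z : ℝ => z * √(1 - z ^ 2) ^ (m + 2)) := by fun_prop
  have hc1 : Continuous (fun z : ℝ => ((m : ℝ) + 3) * √(1 - z ^ 2) ^ (m + 2)) := by fun_prop
  have hc2 : Continuous (fun z : ℝ => ((m : ℝ) + 2) * √(1 - z ^ 2) ^ m) := by fun_prop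
  have h := intervalIntegral.integral_eq_sub_of_hasDerivAt_of_le zero_le_one hc.continuousOn hd
    ((hc1.sub hc2).intervalIntegrable _ _)
  rw [intervalIntegral.integral_sub (hc1.intervalIntegrable _ _) (hc2.intervalIntegrable _ _),
    intervalIntegral.integral_const_mul] at h
  have h0 : (1 : ℝ) * √(1 - 1 ^ 2) ^ (m + 2) - 0 * √(1 - 0 ^ 2) ^ (m + 2) = 0 := by simp
  rw [h0] at h
  unfold JJ
  linarith

/-- The substitution. -/
private theorem subst_int (m : ℕ) (s : ℝ) :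
    ∫ z in (0 : ℝ)..1, (√(1 + s ^ 2 * z ^ 2) ^ (m + 5))⁻¹ * √(1 - z ^ 2) ^ (m + 2) =
      (√(1 + s ^ 2))⁻¹ * ∫ y in (0 : ℝ)..1, √(1 - y ^ 2) ^ (m + 2) := by
  set g : ℝ → ℝ := fun z => (√(1 + s ^ 2 * z ^ 2) ^ (m + 5))⁻¹ * √(1 - z ^ 2) ^ (m + 2) with hg
  set f : ℝ → ℝ := fun y => y / √(1 + s ^ 2 - s ^ 2 * y ^ 2) with hf
  set f' : ℝ → ℝ := fun y => (1 + s ^ 2) / √(1 + s ^ 2 - s ^ 2 * y ^ 2) ^ 3 with hf'
  have hQ : ∀ y ∈ uIcc (0 : ℝ) 1, 0 < 1 + s ^ 2 - s ^ 2 * y ^ 2 := by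
    intro y hy
    rw [uIcc_of_le zero_le_one] at hy
    have h1 : y ^ 2 ≤ 1 := by nlinarith [hy.1, hy.2]
    nlinarith [mul_le_mul_of_nonneg_left h1 (sq_nonneg s)]
  have hd : ∀ y ∈ uIcc (0 : ℝ) 1, HasDerivAt f (f' y) y := by
    intro y hy
    have hpos := hQ y hy
    have h1 : HasDerivAt (fun x : ℝ => 1 + s ^ 2 - s ^ 2 * x ^ 2) (-(s ^ 2 * (2 * y))) y := by
      have := ((hasDerivAt_pow 2 y).const_mul (s ^ 2)).const_sub (1 + s ^ 2)
      simpa using this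
    have h2 := h1.sqrt hpos.ne'
    have hs : 0 < √(1 + s ^ 2 - s ^ 2 * y ^ 2) := Real.sqrt_pos.2 hpos
    have hsq : √(1 + s ^ 2 - s ^ 2 * y ^ 2) ^ 2 = 1 + s ^ 2 - s ^ 2 * y ^ 2 := Real.sq_sqrt hpos.le
    have h3 := (hasDerivAt_id y).div h2 hs.ne'
    have e : HasDerivAt f ((1 * √(1 + s ^ 2 - s ^ 2 * y ^ 2) -
        y * (-(s ^ 2 * (2 * y)) / (2 * √(1 + s ^ 2 - s ^ 2 * y ^ 2)))) /
        √(1 + s ^ 2 - s ^ 2 * y ^ 2) ^ 2) y := h3
    have e2 : (1 * √(1 + s ^ 2 - s ^ 2 * y ^ 2) -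
        y * (-(s ^ 2 * (2 * y)) / (2 * √(1 + s ^ 2 - s ^ 2 * y ^ 2)))) /
        √(1 + s ^ 2 - s ^ 2 * y ^ 2) ^ 2 = f' y := by
      simp only [hf']
      generalize √(1 + s ^ 2 - s ^ 2 * y ^ 2) = w at hs hsq
      field_simp
      rw [hsq]
      ring
    rw [e2] at e
    exact e
  have hc' : ContinuousOn f' (uIcc 0 1) := by
    apply ContinuousOn.div continuousOn_const
    · apply Continuous.continuousOn
      fun_prop
    · intro y hy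
      have := Real.sqrt_pos.2 (hQ y hy)
      positivity
  have hgc : Continuous g := by
    apply Continuous.mul
    · apply Continuous.inv₀ (by fun_prop)
      intro z
      have : 0 < √(1 + s ^ 2 * z ^ 2) := Real.sqrt_pos.2 (by positivity)
      positivity
    · fun_prop
  have h := intervalIntegral.integral_comp_mul_deriv hd hc' hgc
  have f0 : f 0 = 0 := by simp [hf]
  have f1 : f 1 = 1 := by simp [hf]
  rw [f0, f1] at h
  rw [← h, ← intervalIntegral.integral_const_mul]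
  apply intervalIntegral.integral_congr
  intro y hy
  have hpos := hQ y hy
  have hy' := hy
  rw [uIcc_of_le zero_le_one] at hy'
  have hy2 : 0 ≤ 1 - y ^ 2 := by nlinarith [hy'.1, hy'.2]
  have hs : 0 < √(1 + s ^ 2 - s ^ 2 * y ^ 2) := Real.sqrt_pos.2 hpos
  have hsq : √(1 + s ^ 2 - s ^ 2 * y ^ 2) ^ 2 = 1 + s ^ 2 - s ^ 2 * y ^ 2 := Real.sq_sqrt hpos.le
  have hS : 0 < √(1 + s ^ 2) := Real.sqrt_pos.2 (by positivity)
  have hSq : √(1 + s ^ 2) ^ 2 = 1 + s ^ 2 := Real.sq_sqrt (by positivity)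
  have a1 : √(1 + s ^ 2 * (f y) ^ 2) = √(1 + s ^ 2) / √(1 + s ^ 2 - s ^ 2 * y ^ 2) := by
    rw [← Real.sqrt_div (by positivity)]
    congr 1
    simp only [hf, div_pow, hsq]
    field_simp
    ring
  have a2 : √(1 - (f y) ^ 2) = √(1 + s ^ 2) * √(1 - y ^ 2) / √(1 + s ^ 2 - s ^ 2 * y ^ 2) := by
    rw [← Real.sqrt_mul (by positivity), ← Real.sqrt_div (mul_nonneg (by positivity) hy2)]
    congr 1
    simp only [hf, div_pow, hsq]
    rw [eq_div_iff hpos.ne', sub_mul, div_mul_cancel₀ _ hpos.ne']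
    ring
  show g (f y) * f' y = (√(1 + s ^ 2))⁻¹ * √(1 - y ^ 2) ^ (m + 2)
  simp only [hg, hf', a1, a2]
  have key : ∀ S w v : ℝ, 0 < S → 0 < w → ((S / w) ^ (m + 5))⁻¹ * (S * v / w) ^ (m + 2) *
      (S ^ 2 / w ^ 3) = S⁻¹ * v ^ (m + 2) := by
    intro S w v hS hw
    rw [div_pow, div_pow, mul_pow, show m + 5 = (m + 2) + 3 by ring, pow_add S, pow_add w]
    field_simp
  have := key (√(1 + s ^ 2)) (√(1 + s ^ 2 - s ^ 2 * y ^ 2)) (√(1 - y ^ 2)) hS hs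
  rw [hSq] at this
  exact this

/-- primitive in `s`. -/
private theorem prim_int (m : ℕ) (t z : ℝ) :
    ∫ s in (0 : ℝ)..t, ((m : ℝ) + 3) * s * z ^ 2 * (√(1 + s ^ 2 * z ^ 2) ^ (m + 5))⁻¹ =
      1 - (√(1 + t ^ 2 * z ^ 2) ^ (m + 3))⁻¹ := by
  have hpos : ∀ s : ℝ, 0 < √(1 + s ^ 2 * z ^ 2) := fun s => Real.sqrt_pos.2 (by positivity)
  have hd : ∀ s ∈ uIcc (0 : ℝ) t, HasDerivAt (fun s : ℝ => -(√(1 + s ^ 2 * z ^ 2) ^ (m + 3))⁻¹)
      (((m : ℝ) + 3) * s * z ^ 2 * (√(1 + s ^ 2 * z ^ 2) ^ (m + 5))⁻¹) s := by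
    intro s _
    have h1 : HasDerivAt (fun x : ℝ => 1 + x ^ 2 * z ^ 2) (2 * s * z ^ 2) s := by
      have := ((hasDerivAt_pow 2 s).mul_const (z ^ 2)).const_add 1
      simpa using this
    have h2 := h1.sqrt (by positivity)
    have h3 := ((h2.pow (m + 3)).inv (pow_pos (hpos s) _).ne').neg
    have e : HasDerivAt (fun s : ℝ => -(√(1 + s ^ 2 * z ^ 2) ^ (m + 3))⁻¹)
        (-(-(((m + 3 : ℕ) : ℝ) * √(1 + s ^ 2 * z ^ 2) ^ (m + 3 - 1) *
          (2 * s * z ^ 2 / (2 * √(1 + s ^ 2 * z ^ 2)))) / (√(1 + s ^ 2 * z ^ 2) ^ (m + 3)) ^ 2)) s := h3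
    have e2 : (-(-(((m + 3 : ℕ) : ℝ) * √(1 + s ^ 2 * z ^ 2) ^ (m + 3 - 1) *
          (2 * s * z ^ 2 / (2 * √(1 + s ^ 2 * z ^ 2)))) / (√(1 + s ^ 2 * z ^ 2) ^ (m + 3)) ^ 2)) =
        ((m : ℝ) + 3) * s * z ^ 2 * (√(1 + s ^ 2 * z ^ 2) ^ (m + 5))⁻¹ := by
      have h5 : m + 3 - 1 = m + 2 := by omega
      rw [h5]
      have hw := hpos s
      generalize √(1 + s ^ 2 * z ^ 2) = w at hw
      rw [show m + 5 = (m + 2) + 3 by ring, show m + 3 = (m + 2) + 1 by ring, pow_add w, pow_add w]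
      push_cast
      field_simp
      ring
    rw [e2] at e
    exact e
  have hc : Continuous (fun s : ℝ => ((m : ℝ) + 3) * s * z ^ 2 * (√(1 + s ^ 2 * z ^ 2) ^ (m + 5))⁻¹) := by
    apply Continuous.mul (by fun_prop)
    apply Continuous.inv₀ (by fun_prop)
    intro s
    exact (pow_pos (hpos s) _).ne'
  rw [intervalIntegral.integral_eq_sub_of_hasDerivAt hd (hc.intervalIntegrable _ _)]
  simp
  ring

theorem ball_identity (m : ℕ) {t : ℝ} (ht : 0 < t) :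
    JJ m + ∫ z in Ioo (0 : ℝ) 1, (1 - sg (1 / (t * z)) ^ (m + 3)) * √(1 - z ^ 2) ^ (m + 2) / z ^ 2 =
      JJ m * √(1 + t ^ 2) := by
  have hsg : ∀ z : ℝ, 0 < z → sg (1 / (t * z)) = (√(1 + t ^ 2 * z ^ 2))⁻¹ := by
    intro z hz
    have htz : 0 < t * z := mul_pos ht hz
    unfold sg
    have h1 : √(1 + (1 / (t * z)) ^ 2) = √(1 + t ^ 2 * z ^ 2) / (t * z) := by
      rw [← Real.sqrt_sq htz.le, ← Real.sqrt_div (by positivity), Real.sqrt_sq htz.le]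
      congr 1
      field_simp
      ring
    rw [h1]
    have h2 : 0 < √(1 + t ^ 2 * z ^ 2) := Real.sqrt_pos.2 (by positivity)
    field_simp
  set F : ℝ → ℝ → ℝ := fun z s => ((m : ℝ) + 3) * s * (√(1 + s ^ 2 * z ^ 2) ^ (m + 5))⁻¹ *
    √(1 - z ^ 2) ^ (m + 2) with hF
  have hFc : Continuous F.uncurry := by
    have : F.uncurry = fun p : ℝ × ℝ => ((m : ℝ) + 3) * p.2 * (√(1 + p.2 ^ 2 * p.1 ^ 2) ^ (m + 5))⁻¹ *
      √(1 - p.1 ^ 2) ^ (m + 2) := by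
      ext p
      rfl
    rw [this]
    apply Continuous.mul
    · apply Continuous.mul (by fun_prop)
      apply Continuous.inv₀ (by fun_prop)
      intro p
      have : 0 < √(1 + p.2 ^ 2 * p.1 ^ 2) := Real.sqrt_pos.2 (by positivity)
      positivity
    · fun_prop
  have h1 : ∫ z in Ioo (0 : ℝ) 1, (1 - sg (1 / (t * z)) ^ (m + 3)) * √(1 - z ^ 2) ^ (m + 2) / z ^ 2 =
      ∫ z in (0 : ℝ)..1, ∫ s in (0 : ℝ)..t, F z s := by
    rw [intervalIntegral.integral_of_le zero_le_one, integral_Ioc_eq_integral_Ioo]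
    apply setIntegral_congr_fun measurableSet_Ioo
    intro z hz
    have hz0 : 0 < z := hz.1
    have e1 : ∫ s in (0 : ℝ)..t, F z s = (∫ s in (0 : ℝ)..t,
        ((m : ℝ) + 3) * s * z ^ 2 * (√(1 + s ^ 2 * z ^ 2) ^ (m + 5))⁻¹) *
          (√(1 - z ^ 2) ^ (m + 2) / z ^ 2) := by
      rw [← intervalIntegral.integral_mul_const]
      apply intervalIntegral.integral_congr
      intro s _
      simp only [hF]
      field_simp
    show (1 - sg (1 / (t * z)) ^ (m + 3)) * √(1 - z ^ 2) ^ (m + 2) / z ^ 2 = ∫ s in (0 : ℝ)..t, F z s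
    rw [e1, prim_int, hsg z hz0, inv_pow, mul_div_assoc]
  have h2 : ∫ z in (0 : ℝ)..1, ∫ s in (0 : ℝ)..t, F z s = ∫ s in (0 : ℝ)..t, ∫ z in (0 : ℝ)..1, F z s := by
    apply intervalIntegral_intervalIntegral_swap
    apply IntegrableOn.mono_set (t := uIcc 0 1 ×ˢ uIcc 0 t)
    · exact hFc.continuousOn.integrableOn_compact (isCompact_uIcc.prod isCompact_uIcc)
    · exact prod_mono uIoc_subset_uIcc uIoc_subset_uIcc
  have h3 : ∫ s in (0 : ℝ)..t, ∫ z in (0 : ℝ)..1, F z s = ∫ s in (0 : ℝ)..t, JJ m * (s * (√(1 + s ^ 2))⁻¹) := by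
    apply intervalIntegral.integral_congr
    intro s _
    have e1 : ∫ z in (0 : ℝ)..1, F z s = ((m : ℝ) + 3) * s *
        ∫ z in (0 : ℝ)..1, (√(1 + s ^ 2 * z ^ 2) ^ (m + 5))⁻¹ * √(1 - z ^ 2) ^ (m + 2) := by
      rw [← intervalIntegral.integral_const_mul]
      apply intervalIntegral.integral_congr
      intro z _
      simp only [hF]
      ring
    show ∫ z in (0 : ℝ)..1, F z s = JJ m * (s * (√(1 + s ^ 2))⁻¹)
    rw [e1, subst_int, JJ_eq]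
    ring
  have h4 : ∫ s in (0 : ℝ)..t, JJ m * (s * (√(1 + s ^ 2))⁻¹) = JJ m * (√(1 + t ^ 2) - 1) := by
    rw [intervalIntegral.integral_const_mul]
    congr 1
    have hd : ∀ s ∈ uIcc (0 : ℝ) t, HasDerivAt (fun s : ℝ => √(1 + s ^ 2)) (s * (√(1 + s ^ 2))⁻¹) s := by
      intro s _
      have h1 : HasDerivAt (fun x : ℝ => 1 + x ^ 2) (2 * s) s := by
        have := (hasDerivAt_pow 2 s).const_add 1
        simpa using this
      have h2 := h1.sqrt (by positivity)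
      have h3 : 2 * s / (2 * √(1 + s ^ 2)) = s * (√(1 + s ^ 2))⁻¹ := by
        rw [mul_div_mul_left _ _ two_ne_zero, div_eq_mul_inv]
      rw [h3] at h2
      exact h2
    have hc : Continuous (fun s : ℝ => s * (√(1 + s ^ 2))⁻¹) := by
      apply Continuous.mul continuous_id
      apply Continuous.inv₀ (by fun_prop)
      intro s
      exact (Real.sqrt_pos.2 (by positivity : (0 : ℝ) < 1 + s ^ 2)).ne'
    rw [intervalIntegral.integral_eq_sub_of_hasDerivAt hd (hc.intervalIntegrable _ _)]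
    simp
  rw [h1, h2, h3, h4]
  ring

end Pool.Agent.RB75
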