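import Pool.Agent.RB75.ADefs
import Pool.Agent.RB75.G0

/-! Module RB-G1: `Prof` from `AxSym`.

Proof. Let `g ⊥ e` be a unit vector and `φ(t) = supp K (e + t g)`, `t ∈ ℝ`. `φ` is convex on `ℝ` (sublinearity of
`supp`), `φ(t) = H |t|` (`AxSym.ne`, `perp e (e + t g) = t g`), so even; hence `φ` is nondecreasing on `[0,∞)`.
Let `ρ(t)` be the right derivative of `φ` at `t` (`derivWithin φ (Ioi t) t`; convex functions on `ℝ` have right
derivatives, nondecreasing in `t`); `ρ ≥ 0` for `t ≥ 0`. `φ(t) = φ(0) + ∫_0^t ρ` by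
`intervalIntegral.integral_eq_sub_of_hasDeriv_right`. `φ(t) - R t` is nonincreasing (`supp K g = R`, sublinear) and
`≥ 0` (`2 t R = supp K (2 t g) ≤ supp K (e + t g) + supp K (-e + t g) = 2 φ(t)`), so it converges to some `b ≥ 0`;
then `φ(t)/t → R`, and `ρ` (nondecreasing, `ρ(t) ≤ R` because `φ(t+s) ≤ φ(t) + s R`) tends to `R`. -/

namespace Pool.Agent.RB75
open MeasureTheory Set Filter Topology
open scoped RealInnerProductSpace

theorem G1 {k : ℕ} (hk : 2 ≤ k) {K : Set (E k)} (hK : CCN K) {e : E k} (he : ‖e‖ = 1) {H : ℝ → ℝ} {R : ℝ}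
    (hR : 0 < R) (h : AxSym e K H R) : ∃ ρ b, Prof H ρ R b := by
  obtain ⟨g, hg1, hge⟩ := exists_unit_perp hk e
  set φ : ℝ → ℝ := fun t => supp K (e + t • g) with hφ
  have hee : ⟪e, e⟫ = (1 : ℝ) := by rw [real_inner_self_eq_norm_sq, he]; norm_num
  have hin : ∀ a t : ℝ, ⟪a • e + t • g, e⟫ = a := by
    intro a t
    rw [inner_add_left, real_inner_smul_left, real_inner_smul_left, hee, hge]
    ring
  have hφH : ∀ t, φ t = H |t| := by
    intro t
    have h1 := h.ne (e + t • g)
    have h2 : ⟪e + t • g, e⟫ = (1 : ℝ) := by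
      have := hin 1 t
      rwa [one_smul] at this
    have h3 : perp e (e + t • g) = t • g := by
      have := perp_add_smul he hge 1 t
      rwa [one_smul] at this
    rw [h2, h3] at h1
    have h4 := h1 one_ne_zero
    rw [norm_smul, hg1, mul_one, abs_one, one_mul, div_one, Real.norm_eq_abs] at h4
    exact h4
  have hneg : ∀ t, supp K ((-1 : ℝ) • e + t • g) = H |t| := by
    intro t
    have h1 := h.ne ((-1 : ℝ) • e + t • g)
    rw [hin (-1) t, perp_add_smul he hge] at h1
    have h4 := h1 (by norm_num)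
    rw [norm_smul, hg1, mul_one, abs_neg, abs_one, one_mul, div_one, Real.norm_eq_abs] at h4
    exact h4
  have hsg : supp K g = R := by
    have := h.eq g hge
    rwa [hg1, mul_one] at this
  have heven : ∀ t, φ (-t) = φ t := by
    intro t
    rw [hφH, hφH, abs_neg]
  have hconv : ConvexOn ℝ univ φ := by
    refine ⟨convex_univ, ?_⟩
    intro s _ t _ a b ha hb hab
    show supp K (e + (a • s + b • t) • g) ≤ a • supp K (e + s • g) + b • supp K (e + t • g)
    have e1 : e + (a • s + b • t) • g = a • (e + s • g) + b • (e + t • g) := by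
      have : e = (a + b) • e := by rw [hab, one_smul]
      conv_lhs => rw [this]
      simp only [smul_add, add_smul, smul_smul, smul_eq_mul]
      abel
    rw [e1, smul_eq_mul, smul_eq_mul, ← hK.supp_smul ha, ← hK.supp_smul hb]
    exact hK.supp_add_le _ _
  have hsub : ∀ t s, 0 ≤ s → φ (t + s) ≤ φ t + s * R := by
    intro t s hs
    have e1 : e + (t + s) • g = (e + t • g) + s • g := by
      rw [add_smul]
      abel
    show supp K (e + (t + s) • g) ≤ supp K (e + t • g) + s * R
    rw [e1, ← hsg, ← hK.supp_smul hs]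
    exact hK.supp_add_le _ _
  have hlow0 : ∀ t, 0 ≤ t → R * t ≤ φ t := by
    intro t ht
    have e1 : (2 * t) • g = (e + t • g) + ((-1 : ℝ) • e + t • g) := by
      rw [two_mul, add_smul, neg_smul, one_smul]
      abel
    have h1 : supp K ((2 * t) • g) = 2 * t * R := by
      rw [hK.supp_smul (by positivity), hsg]
    have h2 := hK.supp_add_le (e + t • g) ((-1 : ℝ) • e + t • g)
    rw [← e1, h1, hneg, ← hφH] at h2
    have h3 : supp K (e + t • g) = φ t := rfl
    rw [h3] at h2
    linarith
  have hlow : ∀ t, R * |t| ≤ φ t := by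
    intro t
    rcases le_total 0 t with ht | ht
    · rw [abs_of_nonneg ht]
      exact hlow0 t ht
    · rw [abs_of_nonpos ht, ← heven]
      exact hlow0 _ (by linarith)
  have hint : ∀ x : ℝ, x ∈ interior (univ : Set ℝ) := by
    intro x
    rw [interior_univ]
    exact mem_univ x
  set ρ : ℝ → ℝ := fun t => derivWithin φ (Ioi t) t with hρ
  have hder : ∀ x, HasDerivWithinAt φ (ρ x) (Ioi x) x := fun x =>
    hconv.hasDerivWithinAt_rightDeriv_of_mem_interior (hint x)
  have hmono : Monotone ρ := by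
    have h1 := hconv.monotoneOn_rightDeriv
    rw [interior_univ, monotoneOn_univ] at h1
    exact h1
  have hmin : ∀ s, φ 0 ≤ φ s := by
    intro s
    have h1 := hconv.2 (mem_univ s) (mem_univ (-s)) (by norm_num : (0 : ℝ) ≤ 1 / 2)
      (by norm_num : (0 : ℝ) ≤ 1 / 2) (by norm_num)
    rw [heven] at h1
    simp only [smul_eq_mul] at h1
    have e1 : 1 / 2 * s + 1 / 2 * -s = (0 : ℝ) := by ring
    rw [e1] at h1
    linarith
  have hρ0 : 0 ≤ ρ 0 := by
    have h1 : ρ 0 = sInf (slope φ 0 '' {y | y ∈ (univ : Set ℝ) ∧ 0 < y}) :=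
      hconv.rightDeriv_eq_sInf_slope_of_mem_interior (hint 0)
    rw [h1]
    apply le_csInf
    · exact ⟨_, 1, ⟨mem_univ _, one_pos⟩, rfl⟩
    · rintro _ ⟨y, ⟨-, hy⟩, rfl⟩
      rw [slope_def_field, sub_zero]
      exact div_nonneg (sub_nonneg.2 (hmin y)) hy.le
  have hρR : ∀ t, ρ t ≤ R := by
    intro t
    have h1 := hconv.rightDeriv_le_slope_of_mem_interior (hint t) (mem_univ (t + 1)) (lt_add_one t)
    rw [slope_def_field] at h1
    have h2 := hsub t 1 zero_le_one
    have h3 : (φ (t + 1) - φ t) / (t + 1 - t) = φ (t + 1) - φ t := by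
      rw [add_sub_cancel_left, div_one]
    rw [h3] at h1
    exact h1.trans (by linarith)
  have hρlow : ∀ t, 0 < t → R - φ 0 / t ≤ ρ t := by
    intro t ht
    have h1 := hconv.slope_le_leftDeriv_of_mem_interior (mem_univ 0) (hint t) ht
    have h2 := hconv.leftDeriv_le_rightDeriv_of_mem_interior (hint t)
    refine le_trans ?_ (h1.trans h2)
    rw [slope_def_field, sub_zero, sub_div]
    have h3 : R ≤ φ t / t := by
      rw [le_div_iff₀ ht]
      exact hlow0 t ht.le
    linarith
  have hanti : Antitone (fun t => φ t - R * t) := by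
    intro s t hst
    have h1 := hsub s (t - s) (by linarith)
    have e1 : s + (t - s) = t := by ring
    rw [e1] at h1
    show φ t - R * t ≤ φ s - R * s
    nlinarith
  have hnn : ∀ t, 0 ≤ φ t - R * t := by
    intro t
    have h1 := hlow t
    have h2 : R * t ≤ R * |t| := mul_le_mul_of_nonneg_left (le_abs_self t) hR.le
    linarith
  have hbdd : BddBelow (range fun t => φ t - R * t) := ⟨0, by rintro _ ⟨t, rfl⟩; exact hnn t⟩
  have hblim := tendsto_atTop_ciInf hanti hbdd
  have hφ0 : φ 0 = H 0 := by rw [hφH, abs_zero]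
  refine ⟨ρ, ⨅ t, (φ t - R * t), ?_⟩
  refine ⟨hR, le_ciInf hnn, fun s _ t _ hst => hmono hst, fun t ht => hρ0.trans (hmono ht.le), ?_, ?_, ?_⟩
  · -- limit
    have h1 : Tendsto (fun t : ℝ => R - φ 0 / t) atTop (𝓝 (R - 0)) :=
      tendsto_const_nhds.sub (tendsto_const_nhds.div_atTop tendsto_id)
    rw [sub_zero] at h1
    refine tendsto_of_tendsto_of_tendsto_of_le_of_le' h1 tendsto_const_nhds ?_ ?_
    · filter_upwards [eventually_gt_atTop 0] with t ht
      exact hρlow t ht
    · exact Eventually.of_forall hρR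
  · intro t ht
    have hc : Continuous φ := by
      apply hK.supp_continuous.comp
      fun_prop
    have h1 := intervalIntegral.integral_eq_sub_of_hasDeriv_right_of_le ht hc.continuousOn
      (fun x _ => hder x) hmono.intervalIntegrable
    rw [h1, hφH t, abs_of_nonneg ht, hφ0]
    ring
  · refine hblim.congr' ?_
    filter_upwards [eventually_ge_atTop 0] with t ht
    rw [hφH, abs_of_nonneg ht]

end Pool.Agent.RB75
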