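import Pool.Agent.RB75.G0

/-! Module RB-G8b: the centre lies on the axis; axial symmetry from invariance.

(1) `K` nonempty, bounded, `-K = K`, and `y ↦ p + g (y - p)` maps `K` to `K` for all `g` fixing `e`. Then every such
`g` maps `K` to `K`. Proof: with `a = p - g p`, `A_g y = g y + a` maps `K` to `K`; conjugating with `-1`,
`B_g y = g y - a` maps `K` to `K`. `B_{g⁻¹} y = g⁻¹ y - (p - g⁻¹ p)`, `A_g (B_{g⁻¹} y) = y + 2 a`: so `y + 2 N a ∈ K` for all
`N`, `K` bounded: `a = 0`.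
(2) If `K` is `CCN`, symmetric and invariant under all `g` fixing `e`, then `AxSym`: `v = α e + β g₁` (`g₁` unit,
`⊥ e`, `exists_unit_dir`); the reflection in `(g₁ - f₀)^⊥` fixes `e` and maps `g₁` to `f₀`
(`EuclideanGeometry`/`Submodule.reflection`; if `g₁ = f₀` use the identity), `supp K (g v) = supp K v` for `g`
with `g K = K`; and `supp K (-v) = supp K v`. -/

namespace Pool.Agent.RB75
open MeasureTheory Set Filter Topology
open scoped RealInnerProductSpace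

private lemma g8b_symm {k : ℕ} {e : E k} (g : E k ≃ₗᵢ[ℝ] E k) (hg : g e = e) : g.symm e = e := by
  rw [LinearIsometryEquiv.symm_apply_eq, hg]

/-- an isometry fixing `e` and mapping `g₁` to `g₂` -/
private lemma g8b_refl {k : ℕ} {e g₁ g₂ : E k} (h1 : ‖g₁‖ = 1) (h2 : ‖g₂‖ = 1)
    (h1e : ⟪g₁, e⟫ = 0) (h2e : ⟪g₂, e⟫ = 0) :
    ∃ φ : E k ≃ₗᵢ[ℝ] E k, φ e = e ∧ φ g₁ = g₂ := by
  refine ⟨Submodule.reflection (ℝ ∙ (g₁ - g₂))ᗮ, ?_, ?_⟩
  · apply Submodule.reflection_mem_subspace_eq_self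
    rw [Submodule.mem_orthogonal_singleton_iff_inner_right, inner_sub_left, h1e, h2e, sub_zero]
  · exact Submodule.reflection_sub (by rw [h1, h2])

private lemma g8b_le {k : ℕ} {K : Set (E k)} (hK : CCN K) (g : E k ≃ₗᵢ[ℝ] E k)
    (hg : ∀ y ∈ K, g.symm y ∈ K) (v : E k) : supp K (g v) ≤ supp K v := by
  refine hK.supp_le fun x hx => ?_
  have h1 : ⟪g v, x⟫ = ⟪v, g.symm x⟫ := by
    have := g.inner_map_map v (g.symm x)
    rw [LinearIsometryEquiv.apply_symm_apply] at this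
    exact this
  rw [h1]
  exact hK.le_supp v (hg x hx)

private lemma g8b_supp {k : ℕ} {K : Set (E k)} (hK : CCN K) (g : E k ≃ₗᵢ[ℝ] E k)
    (hg : ∀ y ∈ K, g y ∈ K) (hg' : ∀ y ∈ K, g.symm y ∈ K) (v : E k) :
    supp K (g v) = supp K v := by
  refine le_antisymm (g8b_le hK g hg' v) ?_
  have := g8b_le hK g.symm (by simpa using hg) (g v)
  rwa [LinearIsometryEquiv.symm_apply_apply] at this

private lemma g8b_neg {k : ℕ} {K : Set (E k)} (hK : CCN K) (hs : ∀ y ∈ K, -y ∈ K) (v : E k) :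
    supp K (-v) = supp K v := by
  have key : ∀ w : E k, supp K (-w) ≤ supp K w := by
    intro w
    refine hK.supp_le fun x hx => ?_
    rw [inner_neg_left, ← inner_neg_right]
    exact hK.le_supp w (hs x hx)
  refine le_antisymm (key v) ?_
  have := key (-v)
  rwa [neg_neg] at this

theorem G8b1 {k : ℕ} {K : Set (E k)} (hK : CCN K) {e p : E k} (hs : ∀ y ∈ K, -y ∈ K)
    (hr : ∀ g : E k ≃ₗᵢ[ℝ] E k, g e = e → ∀ y ∈ K, p + g (y - p) ∈ K) :
    ∀ g : E k ≃ₗᵢ[ℝ] E k, g e = e → ∀ y ∈ K, g y ∈ K := by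
  have hB : ∀ g : E k ≃ₗᵢ[ℝ] E k, g e = e → ∀ y ∈ K, g y - (p - g p) ∈ K := by
    intro g hg y hy
    have h1 := hr g hg (-y) (hs y hy)
    have h2 := hs _ h1
    have h3 : -(p + g (-y - p)) = g y - (p - g p) := by
      rw [map_sub, map_neg]; abel
    rwa [h3] at h2
  intro g hg y hy
  have hstep : ∀ z ∈ K, z + (2 : ℝ) • (p - g p) ∈ K := by
    intro z hz
    have h1 := hB g.symm (g8b_symm g hg) z hz
    have h2 := hr g hg _ h1
    have h3 : p + g (g.symm z - (p - g.symm p) - p) = z + (2 : ℝ) • (p - g p) := by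
      simp only [map_sub, LinearIsometryEquiv.apply_symm_apply, two_smul]
      abel
    rwa [h3] at h2
  have hN : ∀ N : ℕ, y + (N : ℝ) • ((2 : ℝ) • (p - g p)) ∈ K := by
    intro N
    induction N with
    | zero => simpa using hy
    | succ N ih =>
      have h1 := hstep _ ih
      have h2 : y + (N : ℝ) • ((2 : ℝ) • (p - g p)) + (2 : ℝ) • (p - g p) =
          y + ((N + 1 : ℕ) : ℝ) • ((2 : ℝ) • (p - g p)) := by
        push_cast
        rw [add_smul, one_smul, add_assoc]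
      rwa [h2] at h1
  obtain ⟨C, hC⟩ := hK.compact.isBounded.exists_norm_le
  have ha : p - g p = 0 := by
    by_contra hne
    have hpos : 0 < ‖(2 : ℝ) • (p - g p)‖ := by
      rw [norm_pos_iff]
      exact smul_ne_zero two_ne_zero hne
    obtain ⟨N, hN'⟩ := exists_nat_gt ((C + ‖y‖) / ‖(2 : ℝ) • (p - g p)‖)
    rw [div_lt_iff₀ hpos] at hN'
    have h1 := hC _ (hN N)
    have h2 : ‖(N : ℝ) • ((2 : ℝ) • (p - g p))‖ ≤
        ‖y + (N : ℝ) • ((2 : ℝ) • (p - g p))‖ + ‖y‖ := by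
      have := norm_sub_le (y + (N : ℝ) • ((2 : ℝ) • (p - g p))) y
      rwa [add_sub_cancel_left] at this
    have h3 : ‖(N : ℝ) • ((2 : ℝ) • (p - g p))‖ = N * ‖(2 : ℝ) • (p - g p)‖ := by
      rw [norm_smul, Real.norm_natCast]
    linarith
  have h4 := hr g hg y hy
  have h5 : p + g (y - p) = g y + (p - g p) := by rw [map_sub]; abel
  rw [h5, ha, add_zero] at h4
  exact h4

theorem G8b2 {k : ℕ} (hk : 2 ≤ k) {K : Set (E k)} (hK : CCN K) {e f₀ : E k} (he : ‖e‖ = 1) (hf₀ : ‖f₀‖ = 1)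
    (hfe : ⟪f₀, e⟫ = 0) (hs : ∀ y ∈ K, -y ∈ K) (hr : ∀ g : E k ≃ₗᵢ[ℝ] E k, g e = e → ∀ y ∈ K, g y ∈ K) :
    AxSym e K (fun t => supp K (e + t • f₀)) (supp K f₀) := by
  have hinv : ∀ g : E k ≃ₗᵢ[ℝ] E k, g e = e → ∀ v, supp K (g v) = supp K v := fun g hg v =>
    g8b_supp hK g (hr g hg) (hr g.symm (g8b_symm g hg)) v
  have hkey : ∀ g₁ : E k, ‖g₁‖ = 1 → ⟪g₁, e⟫ = 0 → ∀ α β : ℝ,
      supp K (α • e + β • g₁) = supp K (α • e + β • f₀) := by
    intro g₁ h1 h1e α β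
    obtain ⟨φ, hφe, hφ⟩ := g8b_refl h1 hf₀ h1e hfe
    have := hinv φ hφe (α • e + β • g₁)
    rw [map_add, map_smul, map_smul, hφe, hφ] at this
    exact this.symm
  have hkey2 : ∀ α β : ℝ, supp K (α • e + β • f₀) = supp K (|α| • e + β • f₀) := by
    intro α β
    rcases le_total 0 α with h0 | h0
    · rw [abs_of_nonneg h0]
    · rw [abs_of_nonpos h0]
      have h1 := hkey (-f₀) (by rw [norm_neg, hf₀]) (by rw [inner_neg_left, hfe, neg_zero]) α β
      have h2 : α • e + β • -f₀ = -((-α) • e + β • f₀) := by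
        rw [smul_neg, neg_smul, neg_add, neg_neg]
      rw [← h1, h2, g8b_neg hK hs]
  refine ⟨?_, ?_⟩
  · intro v hv
    have hpe : ⟪perp e v, e⟫ = 0 := inner_perp he v
    obtain ⟨g₁, hg1, hg1e, hg1v⟩ := exists_unit_dir hk hpe
    have hdec : v = ⟪v, e⟫ • e + ‖perp e v‖ • g₁ := by
      rw [← hg1v]
      unfold perp
      abel
    have hα : 0 < |⟪v, e⟫| := abs_pos.2 hv
    have h1 : |⟪v, e⟫| • (e + (‖perp e v‖ / |⟪v, e⟫|) • f₀) =
        |⟪v, e⟫| • e + ‖perp e v‖ • f₀ := by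
      rw [smul_add, smul_smul, mul_div_cancel₀ _ hα.ne']
    change supp K v = |⟪v, e⟫| * supp K (e + (‖perp e v‖ / |⟪v, e⟫|) • f₀)
    rw [← hK.supp_smul hα.le, h1, ← hkey2, ← hkey g₁ hg1 hg1e, ← hdec]
  · intro v hv
    obtain ⟨g₁, hg1, hg1e, hg1v⟩ := exists_unit_dir hk hv
    have h1 := hkey g₁ hg1 hg1e 0 1
    simp only [zero_smul, zero_add, one_smul] at h1
    rw [mul_comm, ← h1, ← hK.supp_smul (norm_nonneg v), ← hg1v]

end Pool.Agent.RB75
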