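import Pool.Agent.RB75.G0

/-! Module RB-G9: recognising the body from `H`.

`supp K v = |α| H(‖perp e v‖/|α|)` (`α = ⟪v,e⟫ ≠ 0`), `= R ‖v‖` (`α = 0`).
(a) `H t = R√(lam²+t²)`: `supp K v = R√(lam²α² + ‖perp e v‖²)` for all `v`. By `CCN.mem_iff`:
`x ∈ K ↔ ∀ v, ⟪v,x⟫ ≤ R√(lam²α²+‖perp e v‖²) ↔ ‖perp e x‖²/R² + ⟪x,e⟫²/(R lam)² ≤ 1`
(←: Cauchy-Schwarz; →: `v = (⟪x,e⟫/lam²) e + perp e x`). (b) `lam = 1`: the ball. (c) `H t = b + R t`: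
`supp K v = b |α| + R ‖perp e v‖`, so `x ∈ K ↔ |⟪x,e⟫| ≤ b ∧ ‖perp e x‖ ≤ R`. -/

namespace Pool.Agent.RB75
open MeasureTheory Set Filter Topology
open scoped RealInnerProductSpace

theorem G9_inner {k : ℕ} {e : E k} (he : ‖e‖ = 1) (v x : E k) :
    ⟪v, x⟫ = ⟪v, e⟫ * ⟪x, e⟫ + ⟪perp e v, perp e x⟫ := by
  have hee : ⟪e, e⟫ = (1 : ℝ) := by rw [real_inner_self_eq_norm_sq, he]; norm_num
  unfold perp
  rw [inner_sub_left, inner_sub_right, inner_sub_right, real_inner_smul_left, real_inner_smul_right,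
    real_inner_smul_right, real_inner_smul_left, hee, real_inner_comm x e]
  ring

theorem G9_norm_perp {k : ℕ} {e : E k} (he : ‖e‖ = 1) {v : E k} (hv : ⟪v, e⟫ = 0) :
    ‖perp e v‖ = ‖v‖ := by
  have h := norm_perp_sq he v
  rw [hv] at h
  have h1 : ‖perp e v‖ ^ 2 = ‖v‖ ^ 2 := by rw [h]; ring
  exact (pow_left_inj₀ (norm_nonneg _) (norm_nonneg _) (by norm_num)).1 h1

theorem G9_suppa {k : ℕ} {K : Set (E k)} {e : E k} (he : ‖e‖ = 1) {H : ℝ → ℝ} {R lam : ℝ}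
    (h : AxSym e K H R) (hH : ∀ t, 0 ≤ t → H t = R * √(lam ^ 2 + t ^ 2)) (v : E k) :
    supp K v = R * √(lam ^ 2 * ⟪v, e⟫ ^ 2 + ‖perp e v‖ ^ 2) := by
  by_cases hv : ⟪v, e⟫ = 0
  · rw [h.eq v hv, hv, G9_norm_perp he hv]
    congr 1
    rw [show lam ^ 2 * (0 : ℝ) ^ 2 + ‖v‖ ^ 2 = ‖v‖ ^ 2 by ring, Real.sqrt_sq (norm_nonneg v)]
  · have hα : 0 < |⟪v, e⟫| := abs_pos.2 hv
    rw [h.ne v hv, hH _ (by positivity)]
    have h1 : |⟪v, e⟫| ^ 2 * (lam ^ 2 + (‖perp e v‖ / |⟪v, e⟫|) ^ 2)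
        = lam ^ 2 * ⟪v, e⟫ ^ 2 + ‖perp e v‖ ^ 2 := by
      rw [div_pow, sq_abs]
      have h2 : (⟪v, e⟫ : ℝ) ^ 2 ≠ 0 := pow_ne_zero 2 hv
      field_simp
    rw [← h1, Real.sqrt_mul (sq_nonneg _), Real.sqrt_sq hα.le]
    ring

theorem G9a {k : ℕ} {K : Set (E k)} (hK : CCN K) {e : E k} (he : ‖e‖ = 1) {H : ℝ → ℝ} {R lam : ℝ} (hR : 0 < R)
    (hl : 0 < lam) (h : AxSym e K H R) (hH : ∀ t, 0 ≤ t → H t = R * √(lam ^ 2 + t ^ 2)) :
    K = {x | ‖perp e x‖ ^ 2 / R ^ 2 + ⟪x, e⟫ ^ 2 / (R * lam) ^ 2 ≤ 1} := by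
  ext x
  rw [hK.mem_iff, mem_setOf_eq]
  set β : ℝ := ⟪x, e⟫ with hβ
  set q : E k := perp e x with hq
  have hqe : ⟪q, e⟫ = (0 : ℝ) := inner_perp he x
  have hkey : ‖q‖ ^ 2 / R ^ 2 + β ^ 2 / (R * lam) ^ 2 ≤ 1 ↔ β ^ 2 / lam ^ 2 + ‖q‖ ^ 2 ≤ R ^ 2 := by
    have e1 : ‖q‖ ^ 2 / R ^ 2 + β ^ 2 / (R * lam) ^ 2 = (β ^ 2 / lam ^ 2 + ‖q‖ ^ 2) / R ^ 2 := by
      field_simp
      ring
    rw [e1, div_le_one (by positivity)]
  rw [hkey]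
  constructor
  · intro hx
    have h1 := hx ((β / lam ^ 2) • e + (1 : ℝ) • q)
    rw [G9_suppa he h hH, perp_add_smul he hqe] at h1
    have h2 : ⟪(β / lam ^ 2) • e + (1 : ℝ) • q, e⟫ = β / lam ^ 2 := by
      rw [inner_add_left, real_inner_smul_left, real_inner_smul_left, hqe,
        real_inner_self_eq_norm_sq, he]
      ring
    have h3 : ⟪(β / lam ^ 2) • e + (1 : ℝ) • q, x⟫ = β ^ 2 / lam ^ 2 + ‖q‖ ^ 2 := by
      rw [G9_inner he, perp_add_smul he hqe, h2, ← hβ, ← hq, one_smul, real_inner_self_eq_norm_sq]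
      ring
    rw [h2, h3, one_smul] at h1
    have h4 : lam ^ 2 * (β / lam ^ 2) ^ 2 + ‖q‖ ^ 2 = β ^ 2 / lam ^ 2 + ‖q‖ ^ 2 := by
      field_simp
    rw [h4] at h1
    set S : ℝ := β ^ 2 / lam ^ 2 + ‖q‖ ^ 2 with hS
    have hS0 : 0 ≤ S := by positivity
    rcases eq_or_lt_of_le hS0 with h5 | h5
    · rw [← h5]; positivity
    · have h6 : 0 < √S := Real.sqrt_pos.2 h5
      have h7 : √S * √S ≤ R * √S := by rw [Real.mul_self_sqrt hS0]; exact h1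
      have h8 : √S ≤ R := le_of_mul_le_mul_right h7 h6
      calc S = √S ^ 2 := (Real.sq_sqrt hS0).symm
        _ ≤ R ^ 2 := pow_le_pow_left₀ h6.le h8 2
  · intro hS v
    rw [G9_suppa he h hH, G9_inner he, ← hβ, ← hq]
    set α : ℝ := ⟪v, e⟫
    set p : E k := perp e v
    have h1 : ⟪p, q⟫ ≤ ‖p‖ * ‖q‖ := real_inner_le_norm p q
    have h2 : α * β + ‖p‖ * ‖q‖ ≤ R * √(lam ^ 2 * α ^ 2 + ‖p‖ ^ 2) := by
      apply le_trans (le_abs_self _)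
      rw [← Real.sqrt_sq_eq_abs]
      have h3 : R * √(lam ^ 2 * α ^ 2 + ‖p‖ ^ 2) = √((lam ^ 2 * α ^ 2 + ‖p‖ ^ 2) * R ^ 2) := by
        rw [Real.sqrt_mul (by positivity), Real.sqrt_sq hR.le]
        ring
      rw [h3]
      apply Real.sqrt_le_sqrt
      calc (α * β + ‖p‖ * ‖q‖) ^ 2
          ≤ (lam ^ 2 * α ^ 2 + ‖p‖ ^ 2) * (β ^ 2 / lam ^ 2 + ‖q‖ ^ 2) := by
            have h4 : (lam ^ 2 * α ^ 2 + ‖p‖ ^ 2) * (β ^ 2 / lam ^ 2 + ‖q‖ ^ 2)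
                - (α * β + ‖p‖ * ‖q‖) ^ 2 = (lam * α * ‖q‖ - ‖p‖ * (β / lam)) ^ 2 := by
              field_simp
              ring
            nlinarith [sq_nonneg (lam * α * ‖q‖ - ‖p‖ * (β / lam))]
        _ ≤ (lam ^ 2 * α ^ 2 + ‖p‖ ^ 2) * R ^ 2 :=
            mul_le_mul_of_nonneg_left hS (by positivity)
    linarith

theorem G9b {k : ℕ} {K : Set (E k)} (hK : CCN K) {e : E k} (he : ‖e‖ = 1) {H : ℝ → ℝ} {R : ℝ} (hR : 0 < R)
    (h : AxSym e K H R) (hH : ∀ t, 0 ≤ t → H t = R * √(1 ^ 2 + t ^ 2)) : K = Metric.closedBall 0 R := by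
  rw [G9a hK he hR one_pos h hH]
  ext x
  rw [mem_setOf_eq, mem_closedBall_zero_iff, norm_perp_sq he]
  have e1 : (‖x‖ ^ 2 - ⟪x, e⟫ ^ 2) / R ^ 2 + ⟪x, e⟫ ^ 2 / (R * 1) ^ 2 = ‖x‖ ^ 2 / R ^ 2 := by
    rw [mul_one]; ring
  rw [e1, div_le_one (by positivity)]
  exact pow_le_pow_iff_left₀ (norm_nonneg _) hR.le (by norm_num)

theorem G9_suppc {k : ℕ} {K : Set (E k)} {e : E k} (he : ‖e‖ = 1) {H : ℝ → ℝ} {R b : ℝ}
    (h : AxSym e K H R) (hH : ∀ t, 0 ≤ t → H t = b + R * t) (v : E k) :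
    supp K v = b * |⟪v, e⟫| + R * ‖perp e v‖ := by
  by_cases hv : ⟪v, e⟫ = 0
  · rw [h.eq v hv, hv, G9_norm_perp he hv]
    simp
  · have hα : 0 < |⟪v, e⟫| := abs_pos.2 hv
    rw [h.ne v hv, hH _ (by positivity)]
    field_simp

theorem G9c {k : ℕ} (hk : 2 ≤ k) {K : Set (E k)} (hK : CCN K) {e : E k} (he : ‖e‖ = 1) {H : ℝ → ℝ} {R b : ℝ}
    (hR : 0 < R) (hb : 0 < b) (h : AxSym e K H R) (hH : ∀ t, 0 ≤ t → H t = b + R * t) :
    K = {x | ‖perp e x‖ ≤ R ∧ |⟪x, e⟫| ≤ b} := by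
  ext x
  rw [hK.mem_iff, mem_setOf_eq]
  have hee : ⟪e, e⟫ = (1 : ℝ) := by rw [real_inner_self_eq_norm_sq, he]; norm_num
  have hqe : ⟪perp e x, e⟫ = (0 : ℝ) := inner_perp he x
  have hpe : perp e e = 0 := by unfold perp; rw [hee, one_smul, sub_self]
  constructor
  · intro hx
    constructor
    · have h1 := hx (perp e x)
      rw [G9_suppc he h hH, hqe, G9_norm_perp he hqe] at h1
      have h2 : ⟪perp e x, x⟫ = ‖perp e x‖ ^ 2 := by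
        rw [G9_inner he, hqe, zero_mul, zero_add]
        have h3 : perp e (perp e x) = perp e x := by
          conv_lhs => unfold perp
          rw [show (x - ⟪x, e⟫ • e) = perp e x from rfl, hqe, zero_smul, sub_zero]
        rw [h3, real_inner_self_eq_norm_sq]
      rw [h2, abs_zero, mul_zero, zero_add] at h1
      rcases eq_or_lt_of_le (norm_nonneg (perp e x)) with h5 | h5
      · rw [← h5]; exact hR.le
      · exact le_of_mul_le_mul_right (by linarith [sq (‖perp e x‖)] : ‖perp e x‖ * ‖perp e x‖ ≤ R * ‖perp e x‖) h5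
    · rw [abs_le]
      have h1 := hx e
      have h2 := hx (-e)
      have hne : perp e (-e) = 0 := by
        unfold perp
        rw [inner_neg_left, hee, neg_smul, one_smul, sub_neg_eq_add, neg_add_cancel]
      rw [G9_suppc he h hH, hee, hpe, real_inner_comm] at h1
      rw [G9_suppc he h hH, inner_neg_left, inner_neg_left, hee, hne, real_inner_comm] at h2
      simp only [abs_one, abs_neg, mul_one, norm_zero, mul_zero, add_zero] at h1 h2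
      constructor <;> linarith
  · rintro ⟨h1, h2⟩ v
    rw [G9_suppc he h hH, G9_inner he]
    have h3 : ⟪v, e⟫ * ⟪x, e⟫ ≤ b * |⟪v, e⟫| := by
      calc ⟪v, e⟫ * ⟪x, e⟫ ≤ |⟪v, e⟫ * ⟪x, e⟫| := le_abs_self _
        _ = |⟪v, e⟫| * |⟪x, e⟫| := abs_mul _ _
        _ ≤ |⟪v, e⟫| * b := mul_le_mul_of_nonneg_left h2 (abs_nonneg _)
        _ = b * |⟪v, e⟫| := mul_comm _ _
    have h4 : ⟪perp e v, perp e x⟫ ≤ R * ‖perp e v‖ := by
      calc ⟪perp e v, perp e x⟫ ≤ ‖perp e v‖ * ‖perp e x‖ := real_inner_le_norm _ _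
        _ ≤ ‖perp e v‖ * R := mul_le_mul_of_nonneg_left h1 (norm_nonneg _)
        _ = R * ‖perp e v‖ := mul_comm _ _
    linarith

end Pool.Agent.RB75
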