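import Pool.Agent.RB75.Classify
import Pool.Agent.RB75.G1
import Pool.Agent.RB75.G6
import Pool.Agent.RB75.G8b
import Pool.Agent.RB75.G9
import Pool.Agent.RB75.G10
import Pool.Agent.RB75.H5

/-! Assembly: the forward direction. -/

namespace Pool.Agent.RB75
open MeasureTheory Set Filter Topology
open scoped RealInnerProductSpace

theorem IsProjBody.CCN {k j : ℕ} {K L : Set (E (k + 1))} (h : IsProjBody j K L) : CCN L :=
  ⟨h.1, h.2.1, h.2.2.1⟩

/-- A homothet of a projection body, centred. -/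
theorem centre {k j : ℕ} {K A M : Set (E (k + 1))} (hK : CCN K) (hM : IsProjBody j A M) {c : ℝ} (hc : 0 < c)
    {x : E (k + 1)} (hMK : M = (fun y => c • y + x) '' K) :
    (∀ y ∈ (fun y => y + c⁻¹ • x) '' K, -y ∈ (fun y => y + c⁻¹ • x) '' K) ∧
    (∀ v, supp M v = c * supp ((fun y => y + c⁻¹ • x) '' K) v) := by
  have hone : (fun y : E (k + 1) => y + c⁻¹ • x) '' K = (fun y => (1 : ℝ) • y + c⁻¹ • x) '' K := by simp
  have hMs : ∀ y ∈ M, -y ∈ M := by
    intro y hy
    have hMc := hM.CCN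
    rw [hMc.mem_iff] at hy ⊢
    intro v
    rw [inner_neg_right, ← inner_neg_left]
    have := hy (-v)
    rwa [hM.even v] at this
  constructor
  · rintro _ ⟨y, hy, rfl⟩
    have h1 : c • y + x ∈ M := by rw [hMK]; exact ⟨y, hy, rfl⟩
    have h2 := hMs _ h1
    rw [hMK] at h2
    obtain ⟨z, hz, hz2⟩ := h2
    refine ⟨z, hz, ?_⟩
    have h3 : c • z + x = -(c • y + x) := hz2
    have h4 : z + c⁻¹ • x = c⁻¹ • (c • z + x) := by
      rw [smul_add, smul_smul, inv_mul_cancel₀ hc.ne', one_smul]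
    have h5 : y + c⁻¹ • x = c⁻¹ • (c • y + x) := by
      rw [smul_add, smul_smul, inv_mul_cancel₀ hc.ne', one_smul]
    show z + c⁻¹ • x = -(y + c⁻¹ • x)
    rw [h4, h5, h3, smul_neg]
  · intro v
    rw [hone, hMK, hK.supp_homothety hc, hK.supp_homothety one_pos, real_inner_smul_right]
    field_simp

/-- the centred body of revolution. -/
theorem axis_data {k : ℕ} (hk : 1 ≤ k) {K : Set (E (k + 1))} (hK : IsRevBody K) {x : E (k + 1)}
    (hs : ∀ y ∈ (fun y => y + x) '' K, -y ∈ (fun y => y + x) '' K) :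
    CCN ((fun y => y + x) '' K) ∧ ∃ e f₀ : E (k + 1), ‖e‖ = 1 ∧ ‖f₀‖ = 1 ∧ ⟪f₀, e⟫ = 0 ∧
      AxSym e ((fun y => y + x) '' K) (fun t => supp ((fun y => y + x) '' K) (e + t • f₀))
        (supp ((fun y => y + x) '' K) f₀) ∧ 0 < supp ((fun y => y + x) '' K) f₀ ∧
      0 < supp ((fun y => y + x) '' K) (e + (0 : ℝ) • f₀) := by
  have hKc : CCN K := ⟨hK.compact, hK.convex, hK.interior.mono interior_subset⟩
  have hone : (fun y : E (k + 1) => y + x) '' K = (fun y => (1 : ℝ) • y + x) '' K := by simp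
  have hC : CCN ((fun y => y + x) '' K) := by rw [hone]; exact hKc.homothety one_pos x
  refine ⟨hC, ?_⟩
  obtain ⟨p, e, he, hrev⟩ := hK.rev
  obtain ⟨f₀, hf₀, hfe⟩ := exists_unit_perp (k := k + 1) (by omega) e
  have hint : (interior ((fun y => y + x) '' K)).Nonempty := by
    have h1 : (fun y : E (k + 1) => y + x) '' K = (Homeomorph.addRight x) '' K := rfl
    rw [h1, ← Homeomorph.image_interior]
    exact hK.interior.image _
  have hr : ∀ g : E (k + 1) ≃ₗᵢ[ℝ] E (k + 1), g e = e → ∀ y ∈ (fun y => y + x) '' K,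
      (p + x) + g (y - (p + x)) ∈ (fun y => y + x) '' K := by
    rintro g hg _ ⟨y, hy, rfl⟩
    refine ⟨p + g (y - p), hrev g hg y hy, ?_⟩
    show p + g (y - p) + x = p + x + g (y + x - (p + x))
    rw [show y + x - (p + x) = y - p by abel]
    abel
  have hg := G8b1 hC hs hr
  have hax := G8b2 (by omega) hC he hf₀ hfe hs hg
  refine ⟨e, f₀, he, hf₀, hfe, hax, supp_pos hC hint hs ?_, supp_pos hC hint hs ?_⟩
  · intro h0; rw [h0, norm_zero] at hf₀; exact zero_ne_one hf₀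
  · rw [zero_smul, add_zero]
    intro h0; rw [h0, norm_zero] at he; exact zero_ne_one he

theorem Star.scale {m j l : ℕ} {C : ℝ} {ρ : ℝ → ℝ} {R b : ℝ} {H' H : ℝ → ℝ} {c : ℝ} (hc : 0 < c)
    (h : Star m j l C ρ R b H') (hH : ∀ t, 0 < t → H' t = c * H t) : Star m j l (C / c) ρ R b H := by
  refine ⟨h.int, fun t ht => ?_⟩
  have h1 := h.eq t ht
  rw [hH t ht] at h1
  field_simp
  linarith

theorem image_sub {k : ℕ} {K B : Set (E k)} {x : E k} (h : (fun y => y + x) '' K = B) :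
    K = {y | y + x ∈ B} := by
  ext y
  rw [← h]
  constructor
  · intro hy; exact ⟨y, hy, rfl⟩
  · rintro ⟨z, hz, hz2⟩
    have : z = y := add_right_cancel hz2
    rwa [← this]

theorem shape_ball {k : ℕ} {K : Set (E k)} {x : E k} {R : ℝ} (hR : 0 < R)
    (h : (fun y => y + x) '' K = Metric.closedBall 0 R) : IsBall K := by
  refine ⟨-x, R, hR, ?_⟩
  rw [image_sub h]
  ext y
  simp [dist_eq_norm]

theorem shape_ell {k : ℕ} {K : Set (E k)} {x e : E k} (he : ‖e‖ = 1) {R lam : ℝ} (hR : 0 < R) (hl : 0 < lam)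
    (h : (fun y => y + x) '' K = {x | ‖perp e x‖ ^ 2 / R ^ 2 + ⟪x, e⟫ ^ 2 / (R * lam) ^ 2 ≤ 1}) : IsEllRev K := by
  refine ⟨-x, e, he, R, R * lam, hR, by positivity, ?_⟩
  rw [image_sub h]
  ext y
  simp

theorem shape_cyl {k : ℕ} {K : Set (E k)} {x e : E k} (he : ‖e‖ = 1) {R b : ℝ} (hR : 0 < R) (hb : 0 < b)
    (h : (fun y => y + x) '' K = {x | ‖perp e x‖ ≤ R ∧ |⟪x, e⟫| ≤ b}) : IsCyl K R b := by
  refine ⟨-x, e, he, hR, hb, ?_⟩
  rw [image_sub h]
  ext y
  simp

/-- Q2, forward direction. -/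
theorem forward2 {m j l : ℕ} (hj : 2 ≤ j) (hn : j + l = m + 3) {K L M : Set (E (m + 3 + 1))} (hK : IsRevBody K)
    (hKL : IsProjBody j K L) (hLM : IsProjBody j L M) (hom : Homothetic K M) :
    IsBall K ∨ (l = 0 ∧ (IsEllRev K ∨ ∃ r s, IsCyl K r s)) := by
  obtain ⟨c, hc, x, hM⟩ := hom
  have hKc : CCN K := ⟨hK.compact, hK.convex, hK.interior.mono interior_subset⟩
  obtain ⟨hs, hsupp⟩ := centre hKc hLM hc hM
  obtain ⟨hC, e, f₀, he, hf₀, hfe, hax, hR, hH0⟩ := axis_data (by omega) hK hs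
  set K' := (fun y => y + c⁻¹ • x) '' K with hK'
  obtain ⟨ρ, b, hP⟩ := G1 (by omega) hC he hR hax
  have hK'L : IsProjBody j K' L := hKL.translate (c⁻¹ • x)
  obtain ⟨hS, haxL, hRL, hHL0⟩ := projBody_all (by omega) hn hC hK'L he hf₀ hfe hax hP hH0
  obtain ⟨ρL, bL, hPL⟩ := G1 (by omega) hKL.CCN he hRL haxL
  obtain ⟨hS', -, -, -⟩ := projBody_all (by omega) hn hKL.CCN hLM he hf₀ hfe haxL hPL hHL0
  have hS'' := hS'.scale hc (H := fun t => supp K' (e + t • f₀)) (fun t _ => hsupp _)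
  have hC0 := C0_pos hn
  have pair : SPair m j l (C0 m j l) (C0 m j l / c) (fun t => supp K' (e + t • f₀)) ρ (supp K' f₀) b
      (fun t => supp L (e + t • f₀)) ρL (supp L f₀) bL :=
    ⟨hj, hn, hC0, by positivity, hP, hPL, hS, hS''⟩
  obtain ⟨c1, c2⟩ := pair.classify
  rcases Nat.eq_zero_or_pos l with h0 | hpos
  · rcases c2 h0 with ⟨lam, hlam, h1, -⟩ | ⟨hb, -, h1, -⟩
    · right
      exact ⟨h0, Or.inl (shape_ell he hR hlam (G9a hC he hR hlam hax h1))⟩
    · right
      exact ⟨h0, Or.inr ⟨_, _, shape_cyl he hR hb (G9c (by omega) hC he hR hb hax h1)⟩⟩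
  · left
    exact shape_ball hR (G9b hC he hR hax (c1 hpos).1)

/-- Q1, forward direction. -/
theorem forward1 {m j l : ℕ} (hj : 2 ≤ j) (hn : j + l = m + 3) {K L : Set (E (m + 3 + 1))} (hK : IsRevBody K)
    (hKL : IsProjBody j K L) (hom : Homothetic K L) :
    IsBall K ∨ (l = 0 ∧ ∃ r s, kap (m + 3) * r ^ 2 = 2 * kap (m + 2) * s ^ 2 ∧ IsCyl K r s) := by
  obtain ⟨c, hc, x, hM⟩ := hom
  have hKc : CCN K := ⟨hK.compact, hK.convex, hK.interior.mono interior_subset⟩
  obtain ⟨hs, hsupp⟩ := centre hKc hKL hc hM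
  obtain ⟨hC, e, f₀, he, hf₀, hfe, hax, hR, hH0⟩ := axis_data (by omega) hK hs
  set K' := (fun y => y + c⁻¹ • x) '' K with hK'
  obtain ⟨ρ, b, hP⟩ := G1 (by omega) hC he hR hax
  have hK'L : IsProjBody j K' L := hKL.translate (c⁻¹ • x)
  obtain ⟨hS, -, -, -⟩ := projBody_all (by omega) hn hC hK'L he hf₀ hfe hax hP hH0
  have hS'' := hS.scale hc (H := fun t => supp K' (e + t • f₀)) (fun t _ => hsupp _)
  have hC0 := C0_pos hn
  have hC0c : 0 < C0 m j l / c := by positivity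
  have pair : SPair m j l (C0 m j l / c) (C0 m j l / c) (fun t => supp K' (e + t • f₀)) ρ (supp K' f₀) b
      (fun t => supp K' (e + t • f₀)) ρ (supp K' f₀) b :=
    ⟨hj, hn, hC0c, hC0c, hP, hP, hS'', hS''⟩
  obtain ⟨c1, c2⟩ := pair.classify
  rcases Nat.eq_zero_or_pos l with h0 | hpos
  · rcases c2 h0 with ⟨lam, hlam, h1, h2⟩ | ⟨hb, -, h1, -⟩
    · left
      -- `lam = 1`
      have h3 := h1 0 le_rfl
      have h4 := h2 0 le_rfl
      rw [h3] at h4
      have h5 := mul_left_cancel₀ hR.ne' h4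
      rw [zero_pow two_ne_zero, add_zero, add_zero, Real.sqrt_sq hlam.le, Real.sqrt_sq (by positivity)] at h5
      have h6 : lam = 1 := by
        have : lam * lam = 1 := by
          nth_rewrite 2 [h5]; field_simp
        nlinarith
      subst h6
      exact shape_ball hR (G9b hC he hR hax h1)
    · right
      refine ⟨h0, _, _, ?_, shape_cyl he hR hb (G9c (by omega) hC he hR hb hax h1)⟩
      obtain ⟨N, f₁, -, -, a3, a4, -, a6, -⟩ := pair.half
      have hρ := hP.rho_const h1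
      have hf₁ : f₁ = supp K' f₀ := by
        apply tendsto_nhds_unique a6
        apply (tendsto_const_nhds).congr'
        filter_upwards [self_mem_nhdsWithin] with t ht
        exact (hρ t ht).symm
      subst h0
      have hjm : j = m + 3 := by omega
      subst hjm
      have h2 := h1 0 le_rfl
      rw [mul_zero, add_zero] at h2
      rw [h2] at a3
      rw [hf₁] at a4
      set R := supp K' f₀ with hRdef
      set A := C0 m (m + 3) 0 / c with hA
      rw [kap_eq m]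
      have hcc : cc (m + 3) = 2 * kap (m + 2) / ((m : ℝ) + 3) := by
        unfold cc; push_cast; rfl
      rw [hcc]
      push_cast at a4
      have hRn : 0 < R ^ (m + 3) := by positivity
      have hpow : R ^ (m + 3) = R ^ (m + 2) * R := by ring
      -- `b * R = A J R^(m+3) R`, `R * b = A (m+3) R^(m+2) b²`
      have k1 : b = A * JJ m * R ^ (m + 3) := a3
      have k2 : R = A * ((m : ℝ) + 3) * R ^ (m + 2) * b := a4
      have hAR : 0 < A * R ^ (m + 2) := by positivity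
      have k3 : A * R ^ (m + 2) * (JJ m * R ^ 2) = A * R ^ (m + 2) * (((m : ℝ) + 3) * b ^ 2) := by
        calc A * R ^ (m + 2) * (JJ m * R ^ 2) = (A * JJ m * R ^ (m + 3)) * R := by rw [hpow]; ring
          _ = b * R := by rw [← k1]
          _ = b * (A * ((m : ℝ) + 3) * R ^ (m + 2) * b) := by rw [← k2]
          _ = _ := by ring
      have k4 := mul_left_cancel₀ hAR.ne' k3
      have hm3 : (m : ℝ) + 3 ≠ 0 := by positivity
      calc 2 * kap (m + 2) / ((m : ℝ) + 3) * JJ m * R ^ 2 = 2 * kap (m + 2) / ((m : ℝ) + 3) * (JJ m * R ^ 2) := by ring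
        _ = 2 * kap (m + 2) / ((m : ℝ) + 3) * (((m : ℝ) + 3) * b ^ 2) := by rw [k4]
        _ = 2 * kap (m + 2) * b ^ 2 := by field_simp
  · left
    exact shape_ball hR (G9b hC he hR hax (c1 hpos).1)

end Pool.Agent.RB75
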