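import Pool.Agent.RB75.ADefs
import Pool.Agent.RB75.B0

/-! Module RB-G3c: binomial expansion under the integral.

`k (R+ε)^{k-1} b + ∫ ((R+ε)^k - (ρ+ε sg)^k) = ∑_i ε^{k-i} C(k,i) (i R^{i-1} b + ∫ (R^i - ρ^i sg^{k-i}))`:
`k C(k-1,i-1) = i C(k,i)` and `(R+ε)^k - (ρ+ε sg)^k = ∑_i C(k,i) ε^{k-i} (R^i - ρ^i sg^{k-i})`. Each integrand
is integrable on `(0,∞)`: `0 ≤ R^i - ρ^i sg^{k-i} = (R^i - ρ^i) + ρ^i (1 - sg^{k-i}) ≤ i R^{i-1}(R-ρ) + R^i (k-i)(1 - sg)`,
`R - ρ` is integrable (`∫_0^T (R-ρ) = R T + P 0 - P T` is bounded) and `0 ≤ 1 - sg T ≤ 1/(1+T²)`. -/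

namespace Pool.Agent.RB75
open MeasureTheory Set Filter Topology

private theorem g3c_le {P ρ : ℝ → ℝ} {R b : ℝ} (hP : Prof P ρ R b) (t : ℝ) (ht : 0 < t) :
    ρ t ≤ R := by
  refine ge_of_tendsto hP.lim ?_
  filter_upwards [eventually_ge_atTop t] with s hs
  exact hP.mono ht (lt_of_lt_of_le ht hs) hs

private theorem g3c_sub {P ρ : ℝ → ℝ} {R b : ℝ} (hP : Prof P ρ R b) :
    IntegrableOn (fun T => R - ρ T) (Ioi 0) := by
  have hm : AEMeasurable ρ (volume.restrict (Ioi 0)) :=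
    aemeasurable_restrict_of_monotoneOn measurableSet_Ioi hP.mono
  have hρI : ∀ T : ℝ, IntegrableOn ρ (Ioc 0 T) := by
    intro T
    have hmT : AEMeasurable ρ (volume.restrict (Ioc 0 T)) :=
      hm.mono_measure (Measure.restrict_mono (fun y hy => hy.1) le_rfl)
    refine Integrable.mono' (g := fun _ => R) ?_ hmT.aestronglyMeasurable ?_
    · exact integrableOn_const (by simp)
    · filter_upwards [self_mem_ae_restrict measurableSet_Ioc] with y hy
      rw [Real.norm_of_nonneg (hP.nn y hy.1)]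
      exact g3c_le hP y hy.1
  have hI : ∀ T : ℝ, IntegrableOn (fun T => R - ρ T) (Ioc 0 T) := fun T =>
    (integrableOn_const (by simp)).sub (hρI T)
  have hb : Tendsto (fun T : ℝ => T) atTop atTop := tendsto_id
  refine integrableOn_Ioi_of_intervalIntegral_norm_tendsto (P 0 - b) 0 (fun T : ℝ => hI T) hb ?_
  have h1 : Tendsto (fun T => P 0 - (P T - R * T)) atTop (𝓝 (P 0 - b)) :=
    hP.blim.const_sub (P 0)
  refine h1.congr' ?_
  filter_upwards [eventually_ge_atTop (0 : ℝ)] with T hT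
  have e1 : ∫ x in (0 : ℝ)..T, ‖R - ρ x‖ = ∫ x in (0 : ℝ)..T, (R - ρ x) := by
    rw [intervalIntegral.integral_of_le hT, intervalIntegral.integral_of_le hT]
    apply setIntegral_congr_fun measurableSet_Ioc
    intro x hx
    show ‖R - ρ x‖ = R - ρ x
    exact Real.norm_of_nonneg (by have := g3c_le hP x hx.1; linarith)
  have hii : IntervalIntegrable ρ volume 0 T :=
    (intervalIntegrable_iff_integrableOn_Ioc_of_le hT).2 (hρI T)
  rw [e1, intervalIntegral.integral_sub intervalIntegrable_const hii,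
    intervalIntegral.integral_const, hP.H_int T hT, smul_eq_mul]
  ring

private theorem g3c_sg : IntegrableOn (fun T => 1 - sg T) (Ioi 0) := by
  refine Integrable.mono' (integrable_inv_one_add_sq.integrableOn (s := Ioi 0))
    (by
      have := sg_continuous
      exact (by fun_prop : Continuous fun T => 1 - sg T).aestronglyMeasurable) ?_
  filter_upwards [self_mem_ae_restrict measurableSet_Ioi] with T hT
  have h1 := sg_lt_one T
  have h0 := sg_pos hT
  rw [Real.norm_of_nonneg (by linarith)]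
  have h2 := sg_sq T
  have h3 : (1 + T ^ 2)⁻¹ = 1 / (1 + T ^ 2) := by rw [one_div]
  rw [h3]
  nlinarith

theorem term_integrable {P ρ : ℝ → ℝ} {R b : ℝ} (hP : Prof P ρ R b) (i l : ℕ) :
    IntegrableOn (fun T => R ^ i - ρ T ^ i * sg T ^ l) (Ioi 0) := by
  have hm : AEMeasurable ρ (volume.restrict (Ioi 0)) :=
    aemeasurable_restrict_of_monotoneOn measurableSet_Ioi hP.mono
  have hsg : AEMeasurable sg (volume.restrict (Ioi 0)) := sg_continuous.measurable.aemeasurable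
  have hmeas : AEMeasurable (fun T => R ^ i - ρ T ^ i * sg T ^ l) (volume.restrict (Ioi 0)) :=
    aemeasurable_const.sub ((hm.pow_const i).mul (hsg.pow_const l))
  refine Integrable.mono' (((g3c_sub hP).const_mul (i * R ^ (i - 1))).add
    (g3c_sg.const_mul (R ^ i * l))) hmeas.aestronglyMeasurable ?_
  filter_upwards [self_mem_ae_restrict measurableSet_Ioi] with T hT
  have hT0 : 0 < T := hT
  have r0 := hP.nn T hT0
  have r1 := g3c_le hP T hT0
  have s0 := sg_pos hT0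
  have s1 := sg_lt_one T
  have hR := hP.Rpos
  have p1 : ρ T ^ i ≤ R ^ i := pow_le_pow_left₀ r0 r1 i
  have p2 : sg T ^ l ≤ 1 := pow_le_one₀ s0.le s1.le
  have p3 : 0 ≤ sg T ^ l := by positivity
  have p4 : 0 ≤ ρ T ^ i := by positivity
  have p5 : ρ T ^ i * sg T ^ l ≤ ρ T ^ i := mul_le_of_le_one_right p4 p2
  have h1 : R ^ i - ρ T ^ i ≤ i * R ^ (i - 1) * (R - ρ T) := by
    have := abs_pow_sub_pow_le R (ρ T) i
    rw [abs_of_nonneg (by linarith), abs_of_nonneg (by linarith), abs_of_pos hR,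
      abs_of_nonneg r0, max_eq_left r1] at this
    nlinarith [this]
  have h2 : 1 - sg T ^ l ≤ l * (1 - sg T) := by
    have := one_add_mul_le_pow (a := sg T - 1) (by linarith) l
    rw [add_sub_cancel] at this
    linarith
  have h3 : ρ T ^ i * (1 - sg T ^ l) ≤ R ^ i * (l * (1 - sg T)) :=
    mul_le_mul p1 h2 (by linarith) (by positivity)
  rw [Real.norm_of_nonneg (by linarith)]
  show R ^ i - ρ T ^ i * sg T ^ l ≤
    i * R ^ (i - 1) * (R - ρ T) + R ^ i * l * (1 - sg T)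
  have h4 : R ^ i - ρ T ^ i * sg T ^ l = (R ^ i - ρ T ^ i) + ρ T ^ i * (1 - sg T ^ l) := by ring
  rw [h4]
  linarith

theorem G3c {P ρ : ℝ → ℝ} {R b : ℝ} (hP : Prof P ρ R b) {k : ℕ} (hk : 1 ≤ k) (ε : ℝ) :
    (k : ℝ) * (R + ε) ^ (k - 1) * b + ∫ T in Ioi (0 : ℝ), ((R + ε) ^ k - (ρ T + ε * sg T) ^ k) =
      ∑ i ∈ Finset.range (k + 1), (k.choose i : ℝ) * (i * R ^ (i - 1) * b +
        ∫ T in Ioi (0 : ℝ), (R ^ i - ρ T ^ i * sg T ^ (k - i))) * ε ^ (k - i) := by
  have e1 : ∀ T, (R + ε) ^ k - (ρ T + ε * sg T) ^ k =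
      ∑ i ∈ Finset.range (k + 1), ((k.choose i : ℝ) * ε ^ (k - i)) *
        (R ^ i - ρ T ^ i * sg T ^ (k - i)) := by
    intro T
    rw [add_pow, add_pow, ← Finset.sum_sub_distrib]
    apply Finset.sum_congr rfl
    intro i _
    rw [mul_pow]
    ring
  have e2 : ∫ T in Ioi (0 : ℝ), ((R + ε) ^ k - (ρ T + ε * sg T) ^ k) =
      ∑ i ∈ Finset.range (k + 1), ((k.choose i : ℝ) * ε ^ (k - i)) *
        ∫ T in Ioi (0 : ℝ), (R ^ i - ρ T ^ i * sg T ^ (k - i)) := by
    simp_rw [e1]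
    rw [integral_finsetSum]
    · apply Finset.sum_congr rfl
      intro i _
      rw [integral_const_mul]
    · intro i _
      exact (term_integrable hP i (k - i)).const_mul _
  have e3 : (k : ℝ) * (R + ε) ^ (k - 1) * b =
      ∑ i ∈ Finset.range (k + 1), (k.choose i : ℝ) * (i * R ^ (i - 1) * b) * ε ^ (k - i) := by
    obtain ⟨n, rfl⟩ : ∃ n, k = n + 1 := ⟨k - 1, by omega⟩
    rw [Finset.sum_range_succ']
    simp only [Nat.add_sub_cancel, Nat.cast_zero, zero_mul, mul_zero, add_zero]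
    rw [add_pow, Finset.mul_sum, Finset.sum_mul]
    apply Finset.sum_congr rfl
    intro i hi
    have h1 : ((n + 1 : ℕ) : ℝ) * (n.choose i : ℝ) =
        ((n + 1).choose (i + 1) : ℝ) * ((i + 1 : ℕ) : ℝ) := by
      exact_mod_cast Nat.add_one_mul_choose_eq n i
    have h2 : n + 1 - (i + 1) = n - i := by omega
    rw [h2]
    linear_combination (R ^ i * ε ^ (n - i) * b) * h1
  rw [e2, e3, ← Finset.sum_add_distrib]
  apply Finset.sum_congr rfl
  intro i _
  ring

end Pool.Agent.RB75
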