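import Pool.Agent.RB75.ADefs
import Pool.Agent.RB75.A2

/-! Module RB-A5: first Tonelli identity.

Proof. Left: `ofReal (Φ(tz) w(z)) = μ(Ioc 0 (tz)) ofReal (w z)` for a.e. `z ∈ (0,1)`, `w(z) = √(1-z²)^{m+2}/z²`
(the null set of `Rep.ae` is pulled back by `z ↦ t z`), `= ∫⁻ y, 1_{0 < y ≤ t z} ofReal (w z) ∂μ`; Tonelli
(`lintegral_lintegral_swap`, `μ` s-finite): `= ∫⁻ y in Ioo 0 t, (∫⁻ z in Ioo (y/t) 1, ofReal (w z)) ∂μ(y)`.
Right: `ofReal (N v / v³) = ofReal (C(m+2)/v³) ∫⁻ y in Ioc 0 v, ofReal (y √(1-y²/v²)^m) ∂μ`; Tonelli twice and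
(k1), (k2): `∫⁻ v in Ioo 0 s` gives `ofReal C ∫⁻ y in Ioo 0 s, ofReal (√(1-y²/s²)^{m+2}/y) ∂μ`, then
`∫⁻ s in Ioo 0 t` gives `ofReal C ∫⁻ y in Ioo 0 t, ∫⁻ z in Ioo (y/t) 1, ofReal (w z) ∂μ`.
(`μ` may have atoms, but for fixed `y` the boundary points `v = y` or `z = y/t` are null for `volume`.) -/

namespace Pool.Agent.RB75
open MeasureTheory Set Filter Topology

theorem A5_swap {μ : Measure ℝ} [SFinite μ] {g : ℝ → ℝ → ENNReal}
    (hg : Measurable (Function.uncurry g)) {A : Set (ℝ × ℝ)} (hA : MeasurableSet A) {I J : Set ℝ}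
    (hI : MeasurableSet I) (hJ : MeasurableSet J) {S T : ℝ → Set ℝ} (hS : ∀ v, MeasurableSet (S v))
    (hT : ∀ y, MeasurableSet (T y)) (h1 : ∀ v y, (v, y) ∈ A ↔ v ∈ I ∧ y ∈ S v)
    (h2 : ∀ v y, (v, y) ∈ A ↔ y ∈ J ∧ v ∈ T y) :
    ∫⁻ v in I, ∫⁻ y in S v, g v y ∂μ = ∫⁻ y in J, (∫⁻ v in T y, g v y) ∂μ := by
  have e1 : ∫⁻ v in I, ∫⁻ y in S v, g v y ∂μ =
      ∫⁻ v, ∫⁻ y, A.indicator (Function.uncurry g) (v, y) ∂μ := by
    rw [← lintegral_indicator hI]
    refine lintegral_congr fun v => ?_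
    by_cases hv : v ∈ I
    · rw [indicator_of_mem hv, ← lintegral_indicator (hS v)]
      refine lintegral_congr fun y => ?_
      by_cases hy : y ∈ S v
      · rw [indicator_of_mem hy, indicator_of_mem ((h1 v y).2 ⟨hv, hy⟩)]
        rfl
      · rw [indicator_of_notMem hy, indicator_of_notMem fun h => hy ((h1 v y).1 h).2]
    · rw [indicator_of_notMem hv]
      have : ∀ y, A.indicator (Function.uncurry g) (v, y) = 0 := fun y =>
        indicator_of_notMem (fun h => hv ((h1 v y).1 h).1) _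
      simp only [this, lintegral_zero]
  have e2 : ∫⁻ y in J, (∫⁻ v in T y, g v y) ∂μ =
      ∫⁻ y, (∫⁻ v, A.indicator (Function.uncurry g) (v, y)) ∂μ := by
    rw [← lintegral_indicator hJ]
    refine lintegral_congr fun y => ?_
    by_cases hy : y ∈ J
    · rw [indicator_of_mem hy, ← lintegral_indicator (hT y)]
      refine lintegral_congr fun v => ?_
      by_cases hv : v ∈ T y
      · rw [indicator_of_mem hv, indicator_of_mem ((h2 v y).2 ⟨hy, hv⟩)]
        rfl
      · rw [indicator_of_notMem hv, indicator_of_notMem fun h => hv ((h2 v y).1 h).2]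
    · rw [indicator_of_notMem hy]
      have : ∀ v, A.indicator (Function.uncurry g) (v, y) = 0 := fun v =>
        indicator_of_notMem (fun h => hy ((h2 v y).1 h).1) _
      simp only [this, lintegral_zero]
  rw [e1, e2]
  exact lintegral_lintegral_swap (f := fun v y => A.indicator (Function.uncurry g) (v, y))
    (hg.indicator hA).aemeasurable

theorem A5 {m : ℕ} {C : ℝ} (hC : 0 < C) {Φ N : ℝ → ℝ} {μ : Measure ℝ} (hR : Rep m C Φ μ N)
    (hΦ : ∀ x, 0 < x → 0 ≤ Φ x) (t : ℝ) (ht : 0 < t) :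
    ENNReal.ofReal C * ∫⁻ z in Ioo (0 : ℝ) 1, ENNReal.ofReal (Φ (t * z) * √(1 - z ^ 2) ^ (m + 2) / z ^ 2) =
      ∫⁻ s in Ioo 0 t, ∫⁻ v in Ioo 0 s, ENNReal.ofReal (N v / v ^ 3) := by
  have := hR.sf
  -- left side
  have hL : ∫⁻ z in Ioo (0 : ℝ) 1, ENNReal.ofReal (Φ (t * z) * √(1 - z ^ 2) ^ (m + 2) / z ^ 2) =
      ∫⁻ y in Ioo 0 t, (∫⁻ z in Ioo (y / t) 1, ENNReal.ofReal (√(1 - z ^ 2) ^ (m + 2) / z ^ 2)) ∂μ := by
    have h1 : ∫⁻ z in Ioo (0 : ℝ) 1, ENNReal.ofReal (Φ (t * z) * √(1 - z ^ 2) ^ (m + 2) / z ^ 2) =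
        ∫⁻ z in Ioo (0 : ℝ) 1, ∫⁻ _y in Ioc 0 (t * z),
          ENNReal.ofReal (√(1 - z ^ 2) ^ (m + 2) / z ^ 2) ∂μ := by
      have hae : ∀ᵐ x ∂(volume : Measure ℝ), x ∈ Ioi (0 : ℝ) →
          μ (Ioc 0 x) = ENNReal.ofReal (Φ x) := (ae_restrict_iff' measurableSet_Ioi).1 hR.ae
      have hae2 : ∀ᵐ z ∂(volume : Measure ℝ), t * z ∈ Ioi (0 : ℝ) →
          μ (Ioc 0 (t * z)) = ENNReal.ofReal (Φ (t * z)) := by
        rw [ae_iff] at hae ⊢
        have h2 := Real.volume_preimage_mul_left ht.ne'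
          {x | ¬ (x ∈ Ioi (0 : ℝ) → μ (Ioc 0 x) = ENNReal.ofReal (Φ x))}
        rw [hae, mul_zero] at h2
        exact h2
      refine lintegral_congr_ae ?_
      refine (ae_restrict_iff' measurableSet_Ioo).2 ?_
      filter_upwards [hae2] with z hz hz01
      have hz0 : 0 < t * z := mul_pos ht hz01.1
      rw [lintegral_const, Measure.restrict_apply MeasurableSet.univ, univ_inter, hz hz0,
        mul_div_assoc, ENNReal.ofReal_mul (hΦ _ hz0), mul_comm]
    rw [h1, A5_swap (μ := μ) (g := fun z _ => ENNReal.ofReal (√(1 - z ^ 2) ^ (m + 2) / z ^ 2))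
      (A := {q : ℝ × ℝ | (0 < q.1 ∧ q.1 < 1) ∧ 0 < q.2 ∧ q.2 ≤ t * q.1}) (I := Ioo 0 1)
      (J := Ioo 0 t) (S := fun z => Ioc 0 (t * z)) (T := fun y => Ico (y / t) 1)]
    · refine lintegral_congr fun y => ?_
      rw [restrict_Ioo_eq_restrict_Ico]
    · have : Measurable fun q : ℝ × ℝ => √(1 - q.1 ^ 2) ^ (m + 2) / q.1 ^ 2 := by fun_prop
      exact this.ennreal_ofReal
    · refine MeasurableSet.inter (MeasurableSet.inter ?_ ?_) (MeasurableSet.inter ?_ ?_)
      · exact measurableSet_lt measurable_const measurable_fst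
      · exact measurableSet_lt measurable_fst measurable_const
      · exact measurableSet_lt measurable_const measurable_snd
      · exact measurableSet_le measurable_snd (measurable_fst.const_mul t)
    · exact measurableSet_Ioo
    · exact measurableSet_Ioo
    · exact fun v => measurableSet_Ioc
    · exact fun v => measurableSet_Ico
    · intro v y
      simp only [mem_ofPred_eq, mem_Ioo, mem_Ioc]
    · intro v y
      simp only [mem_ofPred_eq, mem_Ioo, mem_Ico]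
      constructor
      · rintro ⟨⟨h2, h3⟩, h4, h5⟩
        refine ⟨⟨h4, ?_⟩, ?_, h3⟩
        · nlinarith
        · rw [div_le_iff₀ ht]; linarith
      · rintro ⟨⟨h2, h3⟩, h4, h5⟩
        rw [div_le_iff₀ ht] at h4
        refine ⟨⟨?_, h5⟩, h2, by linarith⟩
        by_contra hcon
        push Not at hcon
        nlinarith
  -- inner integral on the right
  have hin : ∀ s, 0 < s → ∫⁻ v in Ioo 0 s, ENNReal.ofReal (N v / v ^ 3) =
      ENNReal.ofReal C * ∫⁻ y in Ioo 0 s, ENNReal.ofReal (√(1 - y ^ 2 / s ^ 2) ^ (m + 2) / y) ∂μ := by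
    intro s hs
    have h1 : ∫⁻ v in Ioo 0 s, ENNReal.ofReal (N v / v ^ 3) =
        ENNReal.ofReal C * ∫⁻ v in Ioo 0 s, ∫⁻ y in Ioc 0 v,
          ENNReal.ofReal (((m : ℝ) + 2) * (y * √(1 - y ^ 2 / v ^ 2) ^ m) / v ^ 3) ∂μ := by
      rw [← lintegral_const_mul' _ _ ENNReal.ofReal_ne_top]
      refine setLIntegral_congr_fun measurableSet_Ioo fun v hv => ?_
      have hv0 : 0 < v := hv.1
      have h2 : ENNReal.ofReal (N v / v ^ 3) = ENNReal.ofReal (1 / v ^ 3) * ENNReal.ofReal (N v) := by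
        rw [← ENNReal.ofReal_mul (by positivity)]
        congr 1; ring
      rw [h2, hR.N_eq v hv0, ← lintegral_const_mul' _ _ ENNReal.ofReal_ne_top,
        ← lintegral_const_mul' _ _ ENNReal.ofReal_ne_top,
        ← lintegral_const_mul' _ _ ENNReal.ofReal_ne_top]
      refine setLIntegral_congr_fun measurableSet_Ioc fun y hy => ?_
      have hy0 : 0 < y := hy.1
      have h3 : 0 ≤ √(1 - y ^ 2 / v ^ 2) ^ m := by positivity
      rw [← ENNReal.ofReal_mul (by positivity), ← ENNReal.ofReal_mul (by positivity),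
        ← ENNReal.ofReal_mul hC.le]
      congr 1; ring
    rw [h1, A5_swap (μ := μ)
      (g := fun v y => ENNReal.ofReal (((m : ℝ) + 2) * (y * √(1 - y ^ 2 / v ^ 2) ^ m) / v ^ 3))
      (A := {q : ℝ × ℝ | (0 < q.1 ∧ q.1 < s) ∧ 0 < q.2 ∧ q.2 ≤ q.1}) (I := Ioo 0 s)
      (J := Ioo 0 s) (S := fun v => Ioc 0 v) (T := fun y => Ico y s)]
    · congr 1
      refine setLIntegral_congr_fun measurableSet_Ioo fun y hy => ?_
      rw [← restrict_Ioo_eq_restrict_Ico]
      exact A2k1 m hy.1 hy.2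
    · have : Measurable fun q : ℝ × ℝ =>
          ((m : ℝ) + 2) * (q.2 * √(1 - q.2 ^ 2 / q.1 ^ 2) ^ m) / q.1 ^ 3 := by fun_prop
      exact this.ennreal_ofReal
    · refine MeasurableSet.inter (MeasurableSet.inter ?_ ?_) (MeasurableSet.inter ?_ ?_)
      · exact measurableSet_lt measurable_const measurable_fst
      · exact measurableSet_lt measurable_fst measurable_const
      · exact measurableSet_lt measurable_const measurable_snd
      · exact measurableSet_le measurable_snd measurable_fst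
    · exact measurableSet_Ioo
    · exact measurableSet_Ioo
    · exact fun v => measurableSet_Ioc
    · exact fun v => measurableSet_Ico
    · intro v y
      simp only [mem_ofPred_eq, mem_Ioo, mem_Ioc]
    · intro v y
      simp only [mem_ofPred_eq, mem_Ioo, mem_Ico]
      constructor
      · rintro ⟨⟨h2, h3⟩, h4, h5⟩
        exact ⟨⟨h4, by linarith⟩, h5, h3⟩
      · rintro ⟨⟨h2, h3⟩, h4, h5⟩
        exact ⟨⟨by linarith, h5⟩, h2, h4⟩
  have hR2 : ∫⁻ s in Ioo 0 t, ∫⁻ v in Ioo 0 s, ENNReal.ofReal (N v / v ^ 3) =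
      ENNReal.ofReal C * ∫⁻ s in Ioo 0 t, ∫⁻ y in Ioo 0 s,
        ENNReal.ofReal (√(1 - y ^ 2 / s ^ 2) ^ (m + 2) / y) ∂μ := by
    rw [← lintegral_const_mul' _ _ ENNReal.ofReal_ne_top]
    exact setLIntegral_congr_fun measurableSet_Ioo fun s hs => hin s hs.1
  rw [hR2, hL, A5_swap (μ := μ) (g := fun s y => ENNReal.ofReal (√(1 - y ^ 2 / s ^ 2) ^ (m + 2) / y))
      (A := {q : ℝ × ℝ | (0 < q.1 ∧ q.1 < t) ∧ 0 < q.2 ∧ q.2 < q.1}) (I := Ioo 0 t)
      (J := Ioo 0 t) (S := fun v => Ioo 0 v) (T := fun y => Ioo y t)]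
  · congr 1
    refine setLIntegral_congr_fun measurableSet_Ioo fun y hy => ?_
    exact (A2k2 m hy.1 hy.2).symm
  · have : Measurable fun q : ℝ × ℝ => √(1 - q.2 ^ 2 / q.1 ^ 2) ^ (m + 2) / q.2 := by fun_prop
    exact this.ennreal_ofReal
  · refine MeasurableSet.inter (MeasurableSet.inter ?_ ?_) (MeasurableSet.inter ?_ ?_)
    · exact measurableSet_lt measurable_const measurable_fst
    · exact measurableSet_lt measurable_fst measurable_const
    · exact measurableSet_lt measurable_const measurable_snd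
    · exact measurableSet_lt measurable_snd measurable_fst
  · exact measurableSet_Ioo
  · exact measurableSet_Ioo
  · exact fun v => measurableSet_Ioo
  · exact fun v => measurableSet_Ioo
  · intro v y
    simp only [mem_ofPred_eq, mem_Ioo]
  · intro v y
    simp only [mem_ofPred_eq, mem_Ioo]
    constructor
    · rintro ⟨⟨h2, h3⟩, h4, h5⟩
      exact ⟨⟨h4, by linarith⟩, h5, h3⟩
    · rintro ⟨⟨h2, h3⟩, h4, h5⟩
      exact ⟨⟨by linarith, h5⟩, h2, h4⟩

end Pool.Agent.RB75
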