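import Pool.Agent.RB75.Defs

/-!
# Part A: from general (monotone) profiles to regular ones. Definitions.

`Prof H ρ R b`: `H t = h_K(t f + e)` (`t ≥ 0`) of an origin-symmetric body of revolution `K`,
`ρ` = right derivative of `H` on `(0,∞)` (nondecreasing), `R = lim ρ = h_K(f)`, `b = lim (H t - R t)`.
-/

namespace Pool.Agent.RB75

open MeasureTheory Set Filter Topology

/-- `J = (m+2) ∫_0^1 (1-z²)^{m/2} dz`. -/
noncomputable def JJ (m : ℕ) : ℝ := ∫ z in (0 : ℝ)..1, ((m : ℝ) + 2) * √(1 - z ^ 2) ^ m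

structure Prof (H ρ : ℝ → ℝ) (R b : ℝ) : Prop where
  Rpos : 0 < R
  bnn : 0 ≤ b
  mono : MonotoneOn ρ (Ioi 0)
  nn : ∀ t, 0 < t → 0 ≤ ρ t
  lim : Tendsto ρ atTop (𝓝 R)
  H_int : ∀ t, 0 ≤ t → H t = H 0 + ∫ s in (0 : ℝ)..t, ρ s
  blim : Tendsto (fun t => H t - R * t) atTop (𝓝 b)

/-- `Φ(x) = R^j - F(1/x)`. -/
noncomputable def Phi (j l : ℕ) (ρ : ℝ → ℝ) (R : ℝ) (x : ℝ) : ℝ := R ^ j - FF j l ρ (1 / x)

/-- The formula for the support function `H'` of the `j`-th projection body (constant `C`). -/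
structure Star (m j l : ℕ) (C : ℝ) (ρ : ℝ → ℝ) (R b : ℝ) (H' : ℝ → ℝ) : Prop where
  int : ∀ t, 0 < t →
    IntegrableOn (fun z => Phi j l ρ R (t * z) * √(1 - z ^ 2) ^ (m + 2) / z ^ 2) (Ioo 0 1)
  eq : ∀ t, 0 < t → H' t = C * (JJ m * R ^ j + j * R ^ (j - 1) * b * t +
    ∫ z in Ioo (0 : ℝ) 1, Phi j l ρ R (t * z) * √(1 - z ^ 2) ^ (m + 2) / z ^ 2)

/-- `μ` is the (Stieltjes) measure of `Φ`, `N` the associated function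
`N(v) = C (m+2) ∫_{(0,v]} y (1-y²/v²)^{m/2} dμ(y)`. -/
structure Rep (m : ℕ) (C : ℝ) (Φ : ℝ → ℝ) (μ : Measure ℝ) (N : ℝ → ℝ) : Prop where
  sf : SFinite μ
  zero : μ (Iic 0) = 0
  ae : ∀ᵐ x ∂(volume.restrict (Ioi (0 : ℝ))), μ (Ioc 0 x) = ENNReal.ofReal (Φ x)
  N_eq : ∀ v, 0 < v → ENNReal.ofReal (N v) =
    ENNReal.ofReal (C * ((m : ℝ) + 2)) * ∫⁻ y in Ioc 0 v, ENNReal.ofReal (y * √(1 - y ^ 2 / v ^ 2) ^ m) ∂μ
  N_nn : ∀ v, 0 < v → 0 ≤ N v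
  N_mono : MonotoneOn N (Ioi 0)

end Pool.Agent.RB75
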