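import Pool.Agent.RB75.B0

/-! Module RB-B1: a profile of a pair is `Nice`.

Proof.
* `ρ₀, ρ₁ ≥ 0` and nondecreasing on `(0,∞)` (integrals of `r ≥ 0`, `Reg.rho`, `Reg.nn`).
* `r₀` antitone: by `step1`, `r₀ t = D₁ ∫_0^1 z²√(1-z²)^m mm₁(1/(t z)) dz`; for `t ≤ t'` and
  `z ∈ (0,1)`, `mm₁(1/(t z)) ≥ mm₁(1/(t' z))` by `mm_mono` (for `(ρ₁,r₁)`); integrate.
* `r₀ > 0`: if `r₀ a = 0` for some `a > 0`, then `r₀ t = 0` for `t ≥ a` (antitone, `≥ 0`) and
  `t³ r₀ t ≤ a³ r₀ a = 0` for `t ≤ a`; so `r₀ = 0` on `(0,∞)`, `ρ₀ = 0`, contradiction to `Reg.ne`.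
* `r₀` continuous on `(0,∞)`: for `s ≤ t`, `r₀ t ≤ r₀ s` and `r₀ t ≥ (s/t)³ r₀ s`: squeeze.
* the rest: `ρ₀` is the integral of a positive continuous function; `ρ₀ → 0` at `0+` because it is
  an integral over `(0,t)` of an integrable function; `t r₀ t ≤ ∫_0^t r₀` by antitonicity. -/

namespace Pool.Agent.RB75
open MeasureTheory Set Filter Topology

theorem Reg.rho_nonneg {ρ r : ℝ → ℝ} (h : Reg ρ r) {t : ℝ} (ht : 0 < t) : 0 ≤ ρ t := by
  rw [h.rho t ht]
  have h0 : ∫ s in (0:ℝ)..t, (0:ℝ) = 0 := by simp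
  refine h0.symm.trans_le ?_
  refine intervalIntegral.integral_mono_on_of_le_Ioo ht.le intervalIntegrable_const
    (h.int t ht) ?_
  intro x hx
  exact h.nn x hx.1

theorem Reg.rho_sub {ρ r : ℝ → ℝ} (h : Reg ρ r) {s t : ℝ} (hs : 0 < s) (hst : s ≤ t) :
    ρ t - ρ s = ∫ u in s..t, r u := by
  have ht : 0 < t := lt_of_lt_of_le hs hst
  rw [h.rho t ht, h.rho s hs]
  exact intervalIntegral.integral_interval_sub_left (h.int t ht) (h.int s hs)

theorem Reg.int' {ρ r : ℝ → ℝ} (h : Reg ρ r) {s t : ℝ} (hs : 0 < s) (ht : 0 < t) :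
    IntervalIntegrable r volume s t :=
  (h.int s hs).symm.trans (h.int t ht)

theorem Reg.rho_mono {ρ r : ℝ → ℝ} (h : Reg ρ r) : MonotoneOn ρ (Ioi 0) := by
  intro s hs t ht hst
  have h1 := h.rho_sub hs hst
  have h2 : 0 ≤ ∫ u in s..t, r u := by
    refine intervalIntegral.integral_nonneg hst ?_
    intro u hu
    exact h.nn u (lt_of_lt_of_le hs hu.1)
  linarith

theorem Pair.r0_anti {m j l : ℕ} {D₀ D₁ : ℝ} {ρ₀ r₀ ρ₁ r₁ : ℝ → ℝ}
    (h : Pair m j l D₀ D₁ ρ₀ r₀ ρ₁ r₁) : AntitoneOn r₀ (Ioi 0) := by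
  intro s hs t ht hst
  have hs' : 0 < s := hs
  have ht' : 0 < t := ht
  obtain ⟨i1, e1⟩ := h.step1 s hs
  obtain ⟨i2, e2⟩ := h.step1 t ht
  rw [e1, e2]
  refine mul_le_mul_of_nonneg_left ?_ h.hD1.le
  refine intervalIntegral.integral_mono_on_of_le_Ioo zero_le_one i2 i1 ?_
  intro z hz
  have hz0 : 0 < z := hz.1
  refine mul_le_mul_of_nonneg_left ?_ (by positivity)
  refine mm_mono j l (fun t ht => h.reg1.rho_nonneg ht) h.reg1.rho_mono h.reg1.nn h.reg1.N_mono
    ?_ ?_ ?_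
  · exact one_div_pos.mpr (mul_pos ht' hz0)
  · exact one_div_pos.mpr (mul_pos hs' hz0)
  · exact one_div_le_one_div_of_le (mul_pos hs' hz0) (mul_le_mul_of_nonneg_right hst hz0.le)

theorem Pair.r0_pos {m j l : ℕ} {D₀ D₁ : ℝ} {ρ₀ r₀ ρ₁ r₁ : ℝ → ℝ}
    (h : Pair m j l D₀ D₁ ρ₀ r₀ ρ₁ r₁) : ∀ t, 0 < t → 0 < r₀ t := by
  intro a ha
  by_contra hcon
  have ha0 : r₀ a = 0 := le_antisymm (not_lt.mp hcon) (h.reg0.nn a ha)
  have hz : ∀ t, 0 < t → r₀ t = 0 := by
    intro t ht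
    refine le_antisymm ?_ (h.reg0.nn t ht)
    rcases le_total a t with h1 | h1
    · have := h.r0_anti (a := a) (b := t) ha ht h1
      rw [ha0] at this
      exact this
    · have h2 : t ^ 3 * r₀ t ≤ a ^ 3 * r₀ a := h.reg0.N_mono (a := t) (b := a) ht ha h1
      rw [ha0, mul_zero] at h2
      by_contra h3
      push Not at h3
      have : 0 < t ^ 3 * r₀ t := by positivity
      linarith
  obtain ⟨t, ht, hpos⟩ := h.reg0.ne
  have h1 : ρ₀ t = 0 := by
    rw [h.reg0.rho t ht]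
    have : ∫ s in (0:ℝ)..t, r₀ s = ∫ s in (0:ℝ)..t, (0:ℝ) := by
      refine intervalIntegral.integral_congr_ae ?_
      refine Filter.Eventually.of_forall ?_
      intro x hx
      rw [uIoc_of_le ht.le] at hx
      exact hz x hx.1
    rw [this]
    simp
  linarith

theorem Pair.r0_cont {m j l : ℕ} {D₀ D₁ : ℝ} {ρ₀ r₀ ρ₁ r₁ : ℝ → ℝ}
    (h : Pair m j l D₀ D₁ ρ₀ r₀ ρ₁ r₁) : ContinuousOn r₀ (Ioi 0) := by
  intro t ht
  have ht' : 0 < t := ht
  refine ContinuousAt.continuousWithinAt ?_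
  set c := r₀ t with hc
  have hlim : Tendsto (fun s : ℝ => (t / s) ^ 3 * c) (𝓝 t) (𝓝 c) := by
    have : ContinuousAt (fun s : ℝ => (t / s) ^ 3 * c) t := by
      refine ContinuousAt.mul (ContinuousAt.pow (ContinuousAt.div continuousAt_const
        continuousAt_id ht'.ne') 3) continuousAt_const
    have h2 := this.tendsto
    simpa [div_self ht'.ne'] using h2
  have hlo : Tendsto (fun s : ℝ => min c ((t / s) ^ 3 * c)) (𝓝 t) (𝓝 c) := by
    have := (tendsto_const_nhds (x := c)).min hlim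
    simpa using this
  have hhi : Tendsto (fun s : ℝ => max c ((t / s) ^ 3 * c)) (𝓝 t) (𝓝 c) := by
    have := (tendsto_const_nhds (x := c)).max hlim
    simpa using this
  have hev : ∀ᶠ s in 𝓝 t, 0 < s := eventually_gt_nhds ht'
  have key : ∀ s u : ℝ, 0 < s → s ≤ u → (s / u) ^ 3 * r₀ s ≤ r₀ u := by
    intro s u hs hsu
    have hu : 0 < u := lt_of_lt_of_le hs hsu
    have h2 : s ^ 3 * r₀ s ≤ u ^ 3 * r₀ u := h.reg0.N_mono (a := s) (b := u) hs hu hsu
    rw [div_pow, div_mul_eq_mul_div, div_le_iff₀ (by positivity)]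
    linarith
  refine tendsto_of_tendsto_of_tendsto_of_le_of_le' hlo hhi ?_ ?_
  · filter_upwards [hev] with s hs
    rcases le_total s t with h1 | h1
    · exact (min_le_left _ _).trans (h.r0_anti (a := s) (b := t) hs ht h1)
    · exact (min_le_right _ _).trans (key t s ht' h1)
  · filter_upwards [hev] with s hs
    rcases le_total s t with h1 | h1
    · refine le_trans ?_ (le_max_right _ _)
      have h2 := key s t hs h1
      have h3 : (t / s) ^ 3 * ((s / t) ^ 3 * r₀ s) ≤ (t / s) ^ 3 * c :=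
        mul_le_mul_of_nonneg_left h2 (by positivity)
      have h4 : (t / s) ^ 3 * ((s / t) ^ 3 * r₀ s) = r₀ s := by
        field_simp
      rw [h4] at h3
      exact h3
    · exact (h.r0_anti (a := t) (b := s) ht hs h1).trans (le_max_left _ _)

theorem Pair.nice0 {m j l : ℕ} {D₀ D₁ : ℝ} {ρ₀ r₀ ρ₁ r₁ : ℝ → ℝ}
    (h : Pair m j l D₀ D₁ ρ₀ r₀ ρ₁ r₁) : Nice ρ₀ r₀ := by
  have hanti := h.r0_anti
  have hpos := h.r0_pos
  have hcont := h.r0_cont
  have hreg := h.reg0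
  have hderiv : ∀ t, 0 < t → HasDerivAt ρ₀ (r₀ t) t := by
    intro t ht
    have h1 : HasDerivAt (fun u => ∫ s in (0:ℝ)..u, r₀ s) (r₀ t) t :=
      intervalIntegral.integral_hasDerivAt_right (hreg.int t ht)
        (hcont.stronglyMeasurableAtFilter isOpen_Ioi t ht)
        (hcont.continuousAt (Ioi_mem_nhds ht))
    refine h1.congr_of_eventuallyEq ?_
    filter_upwards [Ioi_mem_nhds ht] with u hu
    exact hreg.rho u hu
  refine
    { pos := hpos
      anti := hanti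
      N_mono := hreg.N_mono
      cont := hcont
      int := hreg.int
      rho := hreg.rho
      rho_pos := ?_
      rho_mono := hreg.rho_mono
      rho_sub := fun s t hs hst => hreg.rho_sub hs hst
      rho_cont := fun t ht => (hderiv t ht).continuousAt.continuousWithinAt
      rho_deriv := hderiv
      bdd := ?_
      small := ?_
      tr_le := ?_ }
  · intro t ht
    rw [hreg.rho t ht]
    exact intervalIntegral.intervalIntegral_pos_of_pos_on (hreg.int t ht)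
      (fun x hx => hpos x hx.1) ht
  · obtain ⟨R, hR⟩ := hreg.bdd
    refine ⟨max R 1, lt_of_lt_of_le one_pos (le_max_right _ _), ?_⟩
    intro t ht
    exact (hR t ht).trans (le_max_left _ _)
  · have h1 : IntegrableOn r₀ (uIcc 0 1) volume := by
      have := hreg.int 1 one_pos
      rw [intervalIntegrable_iff'] at this
      exact this
    have h2 : ContinuousOn (fun x => ∫ t in (0:ℝ)..x, r₀ t) (uIcc 0 1) :=
      intervalIntegral.continuousOn_primitive_interval h1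
    have h3 := h2 0 (by simp)
    have h4 : Tendsto (fun x => ∫ t in (0:ℝ)..x, r₀ t) (𝓝[>] 0) (𝓝 0) := by
      have h5 : Tendsto (fun x => ∫ t in (0:ℝ)..x, r₀ t) (𝓝[uIcc 0 1] 0)
          (𝓝 (∫ t in (0:ℝ)..0, r₀ t)) := h3
      rw [intervalIntegral.integral_same] at h5
      refine h5.mono_left ?_
      refine nhdsWithin_le_of_mem ?_
      rw [uIcc_of_le zero_le_one]
      exact Icc_mem_nhdsGT one_pos
    refine h4.congr' ?_
    filter_upwards [self_mem_nhdsWithin] with x hx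
    exact (hreg.rho x hx).symm
  · intro t ht
    rw [hreg.rho t ht]
    have h1 : t * r₀ t = ∫ _s in (0:ℝ)..t, r₀ t := by
      simp
    rw [h1]
    refine intervalIntegral.integral_mono_on_of_le_Ioo ht.le (by simp) (hreg.int t ht) ?_
    intro x hx
    exact hanti (a := x) (b := t) hx.1 ht hx.2.le

theorem Pair.nice1 {m j l : ℕ} {D₀ D₁ : ℝ} {ρ₀ r₀ ρ₁ r₁ : ℝ → ℝ}
    (h : Pair m j l D₀ D₁ ρ₀ r₀ ρ₁ r₁) : Nice ρ₁ r₁ := h.symm.nice0

end Pool.Agent.RB75
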