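import Pool.Agent.RB75.B8

/-! Module RB-B10a: the hypothesis of B9 when `l ≥ 1`, `μ < 1`, `Pinc μ r₁`.

Proof (with `X = 1`). `Gam_eq` for `(ρ₁,r₁)`, `μ`: all factors are nonnegative and monotone (`ratio_mono`,
`g² = 1 - (1-μ²)/(1+τ²)`). For `0 < x₁ < x₂ ≤ 1`, `τᵢ = 1/xᵢ ≥ 1`: the difference of the first summand is at least
`j R̃(τ₂)^{j-1} (g(τ₁)^l - g(τ₂)^l) r̃(τ₂)` and `R̃(τ₂) ≥ R̃(1) > 0`, `r̃(τ₂) ≥ r̃(1) > 0`;
`g(τ₁)^l - g(τ₂)^l ≥ g(τ₂)^{l-1} (g(τ₁)-g(τ₂)) ≥ g(1)^{l-1} (g(τ₁)²-g(τ₂)²)/2` (`g ≤ 1`, `g(1) > 0`) and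
`g(τ₁)² - g(τ₂)² = (1-μ²)(x₂²/(1+x₂²) - x₁²/(1+x₁²)) = (1-μ²)(x₂²-x₁²)/((1+x₁²)(1+x₂²)) ≥ (1-μ²)(x₂²-x₁²)/4`. -/

namespace Pool.Agent.RB75
open MeasureTheory Set Filter Topology

theorem B10a {m j l : ℕ} (hj : 1 ≤ j) (hl : 1 ≤ l) (hn : j + l = m + 3) {μ : ℝ} (hμ : 0 < μ) (hμ1 : μ < 1)
    {ρ₁ r₁ : ℝ → ℝ} (h : Nice ρ₁ r₁) (hP : Pinc μ r₁) :
    ∃ ε X, 0 < ε ∧ 0 < X ∧ ∀ x₁ x₂, 0 < x₁ → x₁ < x₂ → x₂ ≤ X →
      ε * (x₂ ^ 2 - x₁ ^ 2) ≤ Gam m j l μ ρ₁ r₁ (1 / x₁) - Gam m j l μ ρ₁ r₁ (1 / x₂) := by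
  -- abbreviations
  set R : ℝ → ℝ := fun τ => ρ₁ τ * √(μ ^ 2 + τ ^ 2) / τ with hR
  set G : ℝ → ℝ := fun τ => √(μ ^ 2 + τ ^ 2) / √(1 + τ ^ 2) with hG
  set K : ℝ → ℝ := fun τ => r₁ τ * √(μ ^ 2 + τ ^ 2) ^ 3 with hK
  have hRmono : MonotoneOn R (Ioi 0) := ratio_mono hμ h hP
  have hKmono : MonotoneOn K (Ioi 0) := hP
  have hRpos : ∀ τ, 0 < τ → 0 < R τ := by
    intro τ hτ
    have h1 := h.rho_pos τ hτ
    simp only [hR]; positivity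
  have hKpos : ∀ τ, 0 < τ → 0 < K τ := by
    intro τ hτ
    have h1 := h.pos τ hτ
    simp only [hK]; positivity
  have hGpos : ∀ τ, 0 < τ → 0 < G τ := by
    intro τ hτ
    simp only [hG]; positivity
  have hGsq : ∀ τ, 0 < τ → G τ ^ 2 = 1 - (1 - μ ^ 2) / (1 + τ ^ 2) := by
    intro τ hτ
    simp only [hG]
    rw [div_pow, Real.sq_sqrt (by positivity), Real.sq_sqrt (by positivity)]
    field_simp
    ring
  have hμ2 : 0 < 1 - μ ^ 2 := by nlinarith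
  have hGle : ∀ τ, 0 < τ → G τ ≤ 1 := by
    intro τ hτ
    have h1 := hGsq τ hτ
    have h2 : 0 < (1 - μ ^ 2) / (1 + τ ^ 2) := by positivity
    have h3 := hGpos τ hτ
    nlinarith
  have hGmono : ∀ s t, 0 < s → s ≤ t → G s ≤ G t := by
    intro s t hs hst
    have ht : 0 < t := lt_of_lt_of_le hs hst
    have h1 := hGsq s hs
    have h2 := hGsq t ht
    have h3 : (1 - μ ^ 2) / (1 + t ^ 2) ≤ (1 - μ ^ 2) / (1 + s ^ 2) := by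
      apply div_le_div_of_nonneg_left hμ2.le (by positivity)
      nlinarith
    have h4 := hGpos s hs
    have h5 := hGpos t ht
    exact le_of_sq_le_sq (by linarith) h5.le
  refine ⟨j * R 1 ^ (j - 1) * K 1 * G 1 ^ (l - 1) * (1 - μ ^ 2) / 8, 1, ?_, one_pos, ?_⟩
  · have h1 := hRpos 1 one_pos
    have h2 := hKpos 1 one_pos
    have h3 := hGpos 1 one_pos
    have h4 : (0 : ℝ) < j := by exact_mod_cast hj
    positivity
  · intro x₁ x₂ hx1 hx12 hx2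
    have hx2' : 0 < x₂ := lt_trans hx1 hx12
    have ht1 : (0 : ℝ) < 1 / x₁ := by positivity
    have ht2 : (0 : ℝ) < 1 / x₂ := by positivity
    have ht12 : 1 / x₂ ≤ 1 / x₁ := one_div_le_one_div_of_le hx1 hx12.le
    have ht21 : (1 : ℝ) ≤ 1 / x₂ := by rw [le_div_iff₀ hx2']; linarith
    rw [Gam_eq hj hn hμ ρ₁ r₁ ht1, Gam_eq hj hn hμ ρ₁ r₁ ht2]
    change _ ≤ (j * R (1 / x₁) ^ (j - 1) * G (1 / x₁) ^ l * K (1 / x₁) + l * R (1 / x₁) ^ j * G (1 / x₁) ^ (l + 2))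
      - (j * R (1 / x₂) ^ (j - 1) * G (1 / x₂) ^ l * K (1 / x₂) + l * R (1 / x₂) ^ j * G (1 / x₂) ^ (l + 2))
    have hR12 : R (1 / x₂) ≤ R (1 / x₁) := hRmono (mem_Ioi.2 ht2) (mem_Ioi.2 ht1) ht12
    have hR1 : R 1 ≤ R (1 / x₂) := hRmono (mem_Ioi.2 one_pos) (mem_Ioi.2 ht2) ht21
    have hK12 : K (1 / x₂) ≤ K (1 / x₁) := hKmono (mem_Ioi.2 ht2) (mem_Ioi.2 ht1) ht12
    have hK1 : K 1 ≤ K (1 / x₂) := hKmono (mem_Ioi.2 one_pos) (mem_Ioi.2 ht2) ht21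
    have hG12 : G (1 / x₂) ≤ G (1 / x₁) := hGmono _ _ ht2 ht12
    have hG1 : G 1 ≤ G (1 / x₂) := hGmono _ _ one_pos ht21
    have hG1' := hGle (1 / x₁) ht1
    have hG2' := hGle (1 / x₂) ht2
    have hsq1 : G (1 / x₁) ^ 2 = 1 - (1 - μ ^ 2) * (x₁ ^ 2 / (1 + x₁ ^ 2)) := by
      rw [hGsq _ ht1]
      have : x₁ ≠ 0 := hx1.ne'
      field_simp
      ring
    have hsq2 : G (1 / x₂) ^ 2 = 1 - (1 - μ ^ 2) * (x₂ ^ 2 / (1 + x₂ ^ 2)) := by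
      rw [hGsq _ ht2]
      have : x₂ ≠ 0 := hx2'.ne'
      field_simp
      ring
    have hR1p := hRpos 1 one_pos
    have hR2p := hRpos _ ht2
    have hR3p := hRpos _ ht1
    have hK1p := hKpos 1 one_pos
    have hK2p := hKpos _ ht2
    have hK3p := hKpos _ ht1
    have hG1p := hGpos 1 one_pos
    have hG2p := hGpos _ ht2
    have hG3p := hGpos _ ht1
    generalize R (1 / x₁) = ra at *
    generalize R (1 / x₂) = rb at *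
    generalize K (1 / x₁) = ka at *
    generalize K (1 / x₂) = kb at *
    generalize G (1 / x₁) = ga at *
    generalize G (1 / x₂) = gb at *
    generalize R 1 = r0 at *
    generalize K 1 = k0 at *
    generalize G 1 = g0 at *
    -- step 1: square difference
    have hx21 : 0 ≤ x₂ ^ 2 - x₁ ^ 2 := by nlinarith
    have hfrac : (x₂ ^ 2 - x₁ ^ 2) / 4 ≤ x₂ ^ 2 / (1 + x₂ ^ 2) - x₁ ^ 2 / (1 + x₁ ^ 2) := by
      have h1 : x₂ ^ 2 / (1 + x₂ ^ 2) - x₁ ^ 2 / (1 + x₁ ^ 2) =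
          (x₂ ^ 2 - x₁ ^ 2) / ((1 + x₂ ^ 2) * (1 + x₁ ^ 2)) := by
        field_simp; ring
      rw [h1]
      apply div_le_div_of_nonneg_left hx21 (by positivity)
      have h2 : x₂ ^ 2 ≤ 1 := by nlinarith
      have h3 : x₁ ^ 2 ≤ 1 := by nlinarith
      nlinarith [sq_nonneg x₁, sq_nonneg x₂]
    have hsqd : (1 - μ ^ 2) * ((x₂ ^ 2 - x₁ ^ 2) / 4) ≤ ga ^ 2 - gb ^ 2 := by
      rw [hsq1, hsq2]
      have := mul_le_mul_of_nonneg_left hfrac hμ2.le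
      linarith
    have hdiff : (ga ^ 2 - gb ^ 2) / 2 ≤ ga - gb := by nlinarith
    have hd0 : 0 ≤ ga - gb := by linarith
    -- step 2: powers
    have hpow : gb ^ (l - 1) * (ga - gb) ≤ ga ^ l - gb ^ l := by
      obtain ⟨k, rfl⟩ : ∃ k, l = k + 1 := ⟨l - 1, by omega⟩
      simp only [Nat.add_sub_cancel]
      have h1 : gb ^ k ≤ ga ^ k := pow_le_pow_left₀ hG2p.le hG12 k
      have h2 : 0 ≤ gb ^ k := by positivity
      rw [pow_succ, pow_succ]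
      nlinarith [mul_le_mul_of_nonneg_right h1 hG3p.le]
    have hpow0 : g0 ^ (l - 1) ≤ gb ^ (l - 1) := pow_le_pow_left₀ hG1p.le hG1 _
    have hrp : r0 ^ (j - 1) ≤ rb ^ (j - 1) := pow_le_pow_left₀ hR1p.le hR1 _
    have hrp2 : rb ^ (j - 1) ≤ ra ^ (j - 1) := pow_le_pow_left₀ hR2p.le hR12 _
    have hrp3 : rb ^ j ≤ ra ^ j := pow_le_pow_left₀ hR2p.le hR12 _
    have hgl2 : gb ^ (l + 2) ≤ ga ^ (l + 2) := pow_le_pow_left₀ hG2p.le hG12 _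
    have hgl : gb ^ l ≤ ga ^ l := pow_le_pow_left₀ hG2p.le hG12 _
    have hj0 : (0 : ℝ) ≤ j := by positivity
    have hl0 : (0 : ℝ) ≤ l := by positivity
    -- second summand
    have hsec : (l : ℝ) * rb ^ j * gb ^ (l + 2) ≤ l * ra ^ j * ga ^ (l + 2) := by
      gcongr
    -- first summand
    have hfirst : (j : ℝ) * (rb ^ (j - 1) * kb * (ga ^ l - gb ^ l)) ≤
        j * ra ^ (j - 1) * ga ^ l * ka - j * rb ^ (j - 1) * gb ^ l * kb := by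
      have h1 : rb ^ (j - 1) * kb * ga ^ l ≤ ra ^ (j - 1) * ka * ga ^ l := by gcongr
      have h2 := mul_le_mul_of_nonneg_left h1 hj0
      nlinarith
    have hlow : r0 ^ (j - 1) * k0 * (g0 ^ (l - 1) * ((1 - μ ^ 2) * ((x₂ ^ 2 - x₁ ^ 2) / 4) / 2)) ≤
        rb ^ (j - 1) * kb * (ga ^ l - gb ^ l) := by
      have h1 : g0 ^ (l - 1) * ((1 - μ ^ 2) * ((x₂ ^ 2 - x₁ ^ 2) / 4) / 2) ≤ ga ^ l - gb ^ l := by
        calc g0 ^ (l - 1) * ((1 - μ ^ 2) * ((x₂ ^ 2 - x₁ ^ 2) / 4) / 2)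
            ≤ gb ^ (l - 1) * (ga - gb) := by
              apply mul_le_mul hpow0 (by linarith) _ (by positivity)
              positivity
          _ ≤ _ := hpow
      have h0 : 0 ≤ g0 ^ (l - 1) * ((1 - μ ^ 2) * ((x₂ ^ 2 - x₁ ^ 2) / 4) / 2) := by positivity
      have h2 : r0 ^ (j - 1) * k0 ≤ rb ^ (j - 1) * kb := by gcongr
      apply mul_le_mul h2 h1 h0 (by positivity)
    have hlow2 := mul_le_mul_of_nonneg_left hlow hj0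
    have hlhs : (j : ℝ) * r0 ^ (j - 1) * k0 * g0 ^ (l - 1) * (1 - μ ^ 2) / 8 * (x₂ ^ 2 - x₁ ^ 2) =
        j * (r0 ^ (j - 1) * k0 * (g0 ^ (l - 1) * ((1 - μ ^ 2) * ((x₂ ^ 2 - x₁ ^ 2) / 4) / 2))) := by ring
    rw [hlhs]
    linarith

end Pool.Agent.RB75
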