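import Pool.Agent.RB75.B8

/-! Module RB-B10b: the hypothesis of B9 when `l = 0` and `r̃₁ = r₁√(μ²+τ²)^3` is nondecreasing, not constant.

Proof. Let `0 < a < b` with `r̃(a) < r̃(b)`; `W(τ) = τ/√(μ²+τ²) = ∫_0^τ w`, `w(s) = μ²/√(μ²+s²)^3`,
`R̃(τ) = ρ₁(τ)/W(τ)`. For `τ ≥ b`: `ρ₁(τ) = μ^{-2} ∫_0^τ r̃ w ≤ μ^{-2}(r̃(a) W(a) + r̃(τ)(W(τ)-W(a)))`, so
`r̃(τ)/μ² - R̃(τ) ≥ (r̃(b)-r̃(a)) W(a)/μ² =: δ₀ > 0` (`W ≤ 1`). Hence for `τ₂ < τ₁`, both `≥ b`,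
`R̃(τ₁) - R̃(τ₂) = (ρ₁(τ₁) - ρ₁(τ₂) - R̃(τ₂)(W(τ₁)-W(τ₂)))/W(τ₁) ≥ (r̃(τ₂)/μ² - R̃(τ₂))(W(τ₁)-W(τ₂))/W(τ₁)`
`≥ δ₀ (W(τ₁)-W(τ₂))` (`ρ₁(τ₁)-ρ₁(τ₂) = μ^{-2}∫ r̃ w ≥ μ^{-2} r̃(τ₂)(W(τ₁)-W(τ₂))`), and
`W(τ₁)-W(τ₂) ≥ (W(τ₁)² - W(τ₂)²)/2 = (μ²/2)(1/(μ²+τ₂²) - 1/(μ²+τ₁²))`, with `τ = 1/x`:
`1/(μ²+τ²) = x²/(1+μ²x²)`, and for `x ≤ X` the difference is `≥ (x₂²-x₁²)/(1+μ²X²)²`.
Finally `Gam = j R̃^{j-1} r̃` (`l = 0`, `Gam_eq`), `j ≥ 2`, both factors nondecreasing, `r̃(τ₂) ≥ r̃(b) > 0`: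
`Gam(τ₁)-Gam(τ₂) ≥ j r̃(b) (R̃(τ₁)^{j-1}-R̃(τ₂)^{j-1}) ≥ j r̃(b) R̃(b)^{j-2} (R̃(τ₁)-R̃(τ₂))`. `X = 1/b`. -/

namespace Pool.Agent.RB75
open MeasureTheory Set Filter Topology

/-- `W(τ) = τ/√(μ²+τ²)` has derivative `μ²/√(μ²+τ²)^3`. -/
private theorem hasDerivAt_W {μ : ℝ} (hμ : 0 < μ) (τ : ℝ) :
    HasDerivAt (fun t : ℝ => t / √(μ ^ 2 + t ^ 2)) (μ ^ 2 / √(μ ^ 2 + τ ^ 2) ^ 3) τ := by
  have hp : 0 < μ ^ 2 + τ ^ 2 := by positivity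
  have hs : 0 < √(μ ^ 2 + τ ^ 2) := Real.sqrt_pos.mpr hp
  have hsq : √(μ ^ 2 + τ ^ 2) ^ 2 = μ ^ 2 + τ ^ 2 := Real.sq_sqrt hp.le
  have h1 : HasDerivAt (fun t : ℝ => μ ^ 2 + t ^ 2) (2 * τ) τ := by
    have := (hasDerivAt_pow 2 τ).const_add (μ ^ 2)
    simpa using this
  have h2 : HasDerivAt (fun t : ℝ => √(μ ^ 2 + t ^ 2)) (2 * τ / (2 * √(μ ^ 2 + τ ^ 2))) τ :=
    h1.sqrt hp.ne'
  have h3 := (hasDerivAt_id τ).div h2 hs.ne'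
  refine h3.congr_deriv ?_
  simp only [id]
  field_simp
  nlinarith [hsq]

private theorem W_pos {μ : ℝ} (hμ : 0 < μ) {τ : ℝ} (hτ : 0 < τ) : 0 < τ / √(μ ^ 2 + τ ^ 2) := by
  have hp : 0 < μ ^ 2 + τ ^ 2 := by positivity
  exact div_pos hτ (Real.sqrt_pos.mpr hp)

private theorem W_sq {μ : ℝ} (hμ : 0 < μ) (τ : ℝ) :
    (τ / √(μ ^ 2 + τ ^ 2)) ^ 2 = 1 - μ ^ 2 / (μ ^ 2 + τ ^ 2) := by
  have hp : 0 < μ ^ 2 + τ ^ 2 := by positivity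
  rw [div_pow, Real.sq_sqrt hp.le]
  field_simp
  ring

private theorem W_le_one {μ : ℝ} (hμ : 0 < μ) {τ : ℝ} (hτ : 0 < τ) : τ / √(μ ^ 2 + τ ^ 2) ≤ 1 := by
  have h1 := W_sq hμ τ
  have h2 : 0 ≤ μ ^ 2 / (μ ^ 2 + τ ^ 2) := by positivity
  have h3 := (W_pos hμ hτ).le
  nlinarith

private theorem sub_bounds {μ : ℝ} (hμ : 0 < μ) {ρ₁ r₁ : ℝ → ℝ} (h : Nice ρ₁ r₁) (hP : Pinc μ r₁)
    {s t : ℝ} (hs : 0 < s) (hst : s ≤ t) :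
    r₁ s * √(μ ^ 2 + s ^ 2) ^ 3 / μ ^ 2 * (t / √(μ ^ 2 + t ^ 2) - s / √(μ ^ 2 + s ^ 2)) ≤ ρ₁ t - ρ₁ s ∧
    ρ₁ t - ρ₁ s ≤ r₁ t * √(μ ^ 2 + t ^ 2) ^ 3 / μ ^ 2 * (t / √(μ ^ 2 + t ^ 2) - s / √(μ ^ 2 + s ^ 2)) := by
  have hder : ∀ c : ℝ, ∀ u, 0 < u →
      HasDerivAt (fun u => ρ₁ u - c / μ ^ 2 * (u / √(μ ^ 2 + u ^ 2)))
        ((r₁ u * √(μ ^ 2 + u ^ 2) ^ 3 - c) / √(μ ^ 2 + u ^ 2) ^ 3) u := by
    intro c u hu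
    have hp : 0 < μ ^ 2 + u ^ 2 := by positivity
    have hq : 0 < √(μ ^ 2 + u ^ 2) := Real.sqrt_pos.mpr hp
    have h1 := (h.rho_deriv u hu).sub ((hasDerivAt_W hμ u).const_mul (c / μ ^ 2))
    refine h1.congr_deriv ?_
    field_simp
  constructor
  · have hm : MonotoneOn (fun u => ρ₁ u - (r₁ s * √(μ ^ 2 + s ^ 2) ^ 3) / μ ^ 2 * (u / √(μ ^ 2 + u ^ 2)))
        (Icc s t) := by
      apply monotoneOn_of_deriv_nonneg (convex_Icc s t)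
      · intro u hu
        exact (hder _ u (lt_of_lt_of_le hs hu.1)).continuousAt.continuousWithinAt
      · intro u hu
        rw [interior_Icc] at hu
        exact (hder _ u (hs.trans hu.1)).differentiableAt.differentiableWithinAt
      · intro u hu
        rw [interior_Icc] at hu
        rw [(hder _ u (hs.trans hu.1)).deriv]
        apply div_nonneg _ (by positivity)
        exact sub_nonneg.mpr (hP (mem_Ioi.mpr hs) (mem_Ioi.mpr (hs.trans hu.1)) hu.1.le)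
    have := hm (left_mem_Icc.mpr hst) (right_mem_Icc.mpr hst) hst
    simp only at this
    nlinarith
  · have hm : AntitoneOn (fun u => ρ₁ u - (r₁ t * √(μ ^ 2 + t ^ 2) ^ 3) / μ ^ 2 * (u / √(μ ^ 2 + u ^ 2)))
        (Icc s t) := by
      apply antitoneOn_of_deriv_nonpos (convex_Icc s t)
      · intro u hu
        exact (hder _ u (lt_of_lt_of_le hs hu.1)).continuousAt.continuousWithinAt
      · intro u hu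
        rw [interior_Icc] at hu
        exact (hder _ u (hs.trans hu.1)).differentiableAt.differentiableWithinAt
      · intro u hu
        rw [interior_Icc] at hu
        rw [(hder _ u (hs.trans hu.1)).deriv]
        apply div_nonpos_of_nonpos_of_nonneg _ (by positivity)
        exact sub_nonpos.mpr (hP (mem_Ioi.mpr (hs.trans hu.1)) (mem_Ioi.mpr (hs.trans_le hst)) hu.2.le)
    have := hm (left_mem_Icc.mpr hst) (right_mem_Icc.mpr hst) hst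
    simp only at this
    nlinarith

private theorem rho_le {μ : ℝ} (hμ : 0 < μ) {ρ₁ r₁ : ℝ → ℝ} (h : Nice ρ₁ r₁) (hP : Pinc μ r₁)
    {t : ℝ} (ht : 0 < t) :
    ρ₁ t ≤ r₁ t * √(μ ^ 2 + t ^ 2) ^ 3 / μ ^ 2 * (t / √(μ ^ 2 + t ^ 2)) := by
  have h1 : Tendsto (fun s => ρ₁ t - ρ₁ s) (𝓝[>] 0) (𝓝 (ρ₁ t - 0)) :=
    tendsto_const_nhds.sub h.small
  have hW : Tendsto (fun s : ℝ => s / √(μ ^ 2 + s ^ 2)) (𝓝[>] 0) (𝓝 (0 / √(μ ^ 2 + 0 ^ 2))) :=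
    (hasDerivAt_W hμ 0).continuousAt.tendsto.mono_left nhdsWithin_le_nhds
  have h2 : Tendsto (fun s => r₁ t * √(μ ^ 2 + t ^ 2) ^ 3 / μ ^ 2 *
      (t / √(μ ^ 2 + t ^ 2) - s / √(μ ^ 2 + s ^ 2))) (𝓝[>] 0)
      (𝓝 (r₁ t * √(μ ^ 2 + t ^ 2) ^ 3 / μ ^ 2 * (t / √(μ ^ 2 + t ^ 2) - 0 / √(μ ^ 2 + 0 ^ 2)))) :=
    (tendsto_const_nhds.sub hW).const_mul _
  have h3 := le_of_tendsto_of_tendsto h1 h2 (by
    filter_upwards [Ioo_mem_nhdsGT ht] with s hs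
    exact (sub_bounds hμ h hP hs.1 hs.2.le).2)
  simpa using h3

theorem B10b {m j : ℕ} (hj : 2 ≤ j) (hn : j + 0 = m + 3) {μ : ℝ} (hμ : 0 < μ)
    {ρ₁ r₁ : ℝ → ℝ} (h : Nice ρ₁ r₁) (hP : Pinc μ r₁)
    (hne : ∃ a b, 0 < a ∧ a < b ∧ r₁ a * √(μ ^ 2 + a ^ 2) ^ 3 < r₁ b * √(μ ^ 2 + b ^ 2) ^ 3) :
    ∃ ε X, 0 < ε ∧ 0 < X ∧ ∀ x₁ x₂, 0 < x₁ → x₁ < x₂ → x₂ ≤ X →
      ε * (x₂ ^ 2 - x₁ ^ 2) ≤ Gam m j 0 μ ρ₁ r₁ (1 / x₁) - Gam m j 0 μ ρ₁ r₁ (1 / x₂) := by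
  obtain ⟨a, b, ha, hab, hlt⟩ := hne
  have hb : 0 < b := ha.trans hab
  set q : ℝ → ℝ := fun τ => r₁ τ * √(μ ^ 2 + τ ^ 2) ^ 3 with hq
  set W : ℝ → ℝ := fun τ => τ / √(μ ^ 2 + τ ^ 2) with hWdef
  set R : ℝ → ℝ := fun τ => ρ₁ τ * √(μ ^ 2 + τ ^ 2) / τ with hR
  have hlt' : q a < q b := hlt
  have hRW : ∀ τ, 0 < τ → R τ * W τ = ρ₁ τ := by
    intro τ hτ
    have hp : 0 < μ ^ 2 + τ ^ 2 := by positivity
    have hs : 0 < √(μ ^ 2 + τ ^ 2) := Real.sqrt_pos.mpr hp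
    simp only [hR, hWdef]
    field_simp
  have hqm : MonotoneOn q (Ioi 0) := hP
  have hRm : MonotoneOn R (Ioi 0) := ratio_mono hμ h hP
  have hRpos : ∀ τ, 0 < τ → 0 < R τ := by
    intro τ hτ
    have hp : 0 < μ ^ 2 + τ ^ 2 := by positivity
    have hs : 0 < √(μ ^ 2 + τ ^ 2) := Real.sqrt_pos.mpr hp
    exact div_pos (mul_pos (h.rho_pos τ hτ) hs) hτ
  have hqpos : ∀ τ, 0 < τ → 0 < q τ := by
    intro τ hτ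
    have hp : 0 < μ ^ 2 + τ ^ 2 := by positivity
    have hs : 0 < √(μ ^ 2 + τ ^ 2) := Real.sqrt_pos.mpr hp
    exact mul_pos (h.pos τ hτ) (by positivity)
  have hWpos : ∀ τ, 0 < τ → 0 < W τ := fun τ hτ => W_pos hμ hτ
  have hW1 : ∀ τ, 0 < τ → W τ ≤ 1 := fun τ hτ => W_le_one hμ hτ
  have hWsq : ∀ τ, W τ ^ 2 = 1 - μ ^ 2 / (μ ^ 2 + τ ^ 2) := fun τ => W_sq hμ τ
  have hμ2 : 0 < μ ^ 2 := by positivity
  set δ₀ : ℝ := (q b - q a) * W a / μ ^ 2 with hδ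
  have hδpos : 0 < δ₀ := by
    have := hWpos a ha
    have : 0 < q b - q a := by linarith
    positivity
  -- (3)
  have h3 : ∀ τ, b ≤ τ → δ₀ ≤ q τ / μ ^ 2 - R τ := by
    intro τ hτ
    have hτ0 : 0 < τ := hb.trans_le hτ
    have e1 : ρ₁ a ≤ q a / μ ^ 2 * W a := rho_le hμ h hP ha
    have e2 : ρ₁ τ - ρ₁ a ≤ q τ / μ ^ 2 * (W τ - W a) := (sub_bounds hμ h hP ha (hab.le.trans hτ)).2
    have e3 : q b ≤ q τ := hqm (mem_Ioi.mpr hb) (mem_Ioi.mpr hτ0) hτ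
    have e4 := hRW τ hτ0
    have e5 : δ₀ ≤ (q τ / μ ^ 2 - R τ) * W τ := by
      have e6 : δ₀ ≤ (q τ - q a) * W a / μ ^ 2 := by
        rw [hδ]
        apply div_le_div_of_nonneg_right _ hμ2.le
        apply mul_le_mul_of_nonneg_right _ (hWpos a ha).le
        linarith
      have e7 : (q τ - q a) * W a / μ ^ 2 = q τ / μ ^ 2 * W τ - (q a / μ ^ 2 * W a + q τ / μ ^ 2 * (W τ - W a)) := by
        ring
      nlinarith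
    have e8 : 0 < q τ / μ ^ 2 - R τ := by
      have : 0 < (q τ / μ ^ 2 - R τ) * W τ := hδpos.trans_le e5
      exact (mul_pos_iff_of_pos_right (hWpos τ hτ0)).mp this
    calc δ₀ ≤ (q τ / μ ^ 2 - R τ) * W τ := e5
      _ ≤ (q τ / μ ^ 2 - R τ) * 1 := mul_le_mul_of_nonneg_left (hW1 τ hτ0) e8.le
      _ = _ := by ring
  -- (4)
  have h4 : ∀ s t, b ≤ s → s ≤ t → δ₀ * (W t - W s) ≤ R t - R s ∧ 0 ≤ W t - W s := by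
    intro s t hs hst
    have hs0 : 0 < s := hb.trans_le hs
    have ht0 : 0 < t := hs0.trans_le hst
    have e0 : 0 ≤ W t - W s := by
      have hm : MonotoneOn W (Icc s t) := by
        apply monotoneOn_of_deriv_nonneg (convex_Icc s t)
        · intro u hu
          exact (hasDerivAt_W hμ u).continuousAt.continuousWithinAt
        · intro u hu
          exact (hasDerivAt_W hμ u).differentiableAt.differentiableWithinAt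
        · intro u hu
          rw [(hasDerivAt_W hμ u).deriv]
          positivity
      have := hm (left_mem_Icc.mpr hst) (right_mem_Icc.mpr hst) hst
      linarith
    refine ⟨?_, e0⟩
    have e1 : q s / μ ^ 2 * (W t - W s) ≤ ρ₁ t - ρ₁ s := (sub_bounds hμ h hP hs0 hst).1
    have e2 := h3 s hs
    have e3 := hRW s hs0
    have e4 := hRW t ht0
    have e5 : δ₀ * (W t - W s) ≤ (R t - R s) * W t := by
      have : δ₀ * (W t - W s) ≤ (q s / μ ^ 2 - R s) * (W t - W s) :=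
        mul_le_mul_of_nonneg_right e2 e0
      nlinarith
    have e6 : 0 ≤ R t - R s := by
      have := hRm (mem_Ioi.mpr hs0) (mem_Ioi.mpr ht0) hst
      linarith
    calc δ₀ * (W t - W s) ≤ (R t - R s) * W t := e5
      _ ≤ (R t - R s) * 1 := mul_le_mul_of_nonneg_left (hW1 t ht0) e6
      _ = _ := by ring
  -- constants
  have hGam : ∀ τ, 0 < τ → Gam m j 0 μ ρ₁ r₁ τ = j * R τ ^ (j - 1) * q τ := by
    intro τ hτ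
    rw [Gam_eq (by omega) hn hμ ρ₁ r₁ hτ]
    simp [hR, hq]
  obtain ⟨k, rfl⟩ : ∃ k, j = k + 2 := ⟨j - 2, by omega⟩
  have hk : k + 2 - 1 = k + 1 := by omega
  set X : ℝ := 1 / b with hX
  have hXpos : 0 < X := by positivity
  have hden : 0 < (1 + μ ^ 2 * X ^ 2) ^ 2 := by positivity
  have hRb := hRpos b hb
  have hqb := hqpos b hb
  refine ⟨((k + 2 : ℕ) : ℝ) * q b * R b ^ k * (δ₀ * (μ ^ 2 / 2 / (1 + μ ^ 2 * X ^ 2) ^ 2)), X,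
    by positivity, hXpos, ?_⟩
  intro x₁ x₂ hx1 hx12 hx2
  have hx2pos : 0 < x₂ := hx1.trans hx12
  have ht2 : b ≤ 1 / x₂ := by
    rw [le_div_iff₀ hx2pos]
    calc b * x₂ ≤ b * X := mul_le_mul_of_nonneg_left hx2 hb.le
      _ = 1 := by rw [hX]; field_simp
  have ht12 : 1 / x₂ ≤ 1 / x₁ := one_div_le_one_div_of_le hx1 hx12.le
  have ht20 : 0 < 1 / x₂ := by positivity
  have ht10 : 0 < 1 / x₁ := by positivity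
  rw [hGam _ ht10, hGam _ ht20, hk]
  obtain ⟨e1, e2⟩ := h4 _ _ ht2 ht12
  -- W difference
  have e3 : μ ^ 2 / 2 / (1 + μ ^ 2 * X ^ 2) ^ 2 * (x₂ ^ 2 - x₁ ^ 2) ≤ W (1 / x₁) - W (1 / x₂) := by
    have f1 := hWsq (1 / x₁)
    have f2 := hWsq (1 / x₂)
    have f3 : W (1 / x₁) ^ 2 - W (1 / x₂) ^ 2 ≤ 2 * (W (1 / x₁) - W (1 / x₂)) := by
      have g1 := hW1 _ ht10
      have g2 := hW1 _ ht20
      nlinarith
    have f4 : μ ^ 2 / (μ ^ 2 + (1 / x₂) ^ 2) - μ ^ 2 / (μ ^ 2 + (1 / x₁) ^ 2) =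
        μ ^ 2 * (x₂ ^ 2 - x₁ ^ 2) / ((1 + μ ^ 2 * x₁ ^ 2) * (1 + μ ^ 2 * x₂ ^ 2)) := by
      have g1 : 1 + μ ^ 2 * x₁ ^ 2 ≠ 0 := by positivity
      have g2 : 1 + μ ^ 2 * x₂ ^ 2 ≠ 0 := by positivity
      have g3 : μ ^ 2 + (1 / x₂) ^ 2 = (1 + μ ^ 2 * x₂ ^ 2) / x₂ ^ 2 := by field_simp; ring
      have g4 : μ ^ 2 + (1 / x₁) ^ 2 = (1 + μ ^ 2 * x₁ ^ 2) / x₁ ^ 2 := by field_simp; ring
      rw [g3, g4]
      field_simp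
      ring
    have f5 : μ ^ 2 * (x₂ ^ 2 - x₁ ^ 2) / (1 + μ ^ 2 * X ^ 2) ^ 2 ≤
        μ ^ 2 * (x₂ ^ 2 - x₁ ^ 2) / ((1 + μ ^ 2 * x₁ ^ 2) * (1 + μ ^ 2 * x₂ ^ 2)) := by
      have hx1sq : x₁ ^ 2 ≤ X ^ 2 := by
        apply pow_le_pow_left₀ hx1.le; linarith
      have hx2sq : x₂ ^ 2 ≤ X ^ 2 := by
        apply pow_le_pow_left₀ hx2pos.le; linarith
      have hnn : 0 ≤ μ ^ 2 * (x₂ ^ 2 - x₁ ^ 2) := by
        have : x₁ ^ 2 ≤ x₂ ^ 2 := pow_le_pow_left₀ hx1.le hx12.le 2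
        have : 0 ≤ x₂ ^ 2 - x₁ ^ 2 := by linarith
        positivity
      apply div_le_div_of_nonneg_left hnn (by positivity)
      rw [sq (1 + μ ^ 2 * X ^ 2)]
      apply mul_le_mul _ _ (by positivity) (by positivity)
      · have := mul_le_mul_of_nonneg_left hx1sq hμ2.le
        linarith
      · have := mul_le_mul_of_nonneg_left hx2sq hμ2.le
        linarith
    have f6 : μ ^ 2 / 2 / (1 + μ ^ 2 * X ^ 2) ^ 2 * (x₂ ^ 2 - x₁ ^ 2) =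
        (μ ^ 2 * (x₂ ^ 2 - x₁ ^ 2) / (1 + μ ^ 2 * X ^ 2) ^ 2) / 2 := by ring
    rw [f6]
    linarith
  -- R difference
  have e4 : R b ^ k * (R (1 / x₁) - R (1 / x₂)) ≤ R (1 / x₁) ^ (k + 1) - R (1 / x₂) ^ (k + 1) := by
    have g1 : R b ≤ R (1 / x₂) := hRm (mem_Ioi.mpr hb) (mem_Ioi.mpr ht20) ht2
    have g2 : R (1 / x₂) ≤ R (1 / x₁) := hRm (mem_Ioi.mpr ht20) (mem_Ioi.mpr ht10) ht12
    have g3 : R b ^ k ≤ R (1 / x₂) ^ k := pow_le_pow_left₀ hRb.le g1 k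
    have g4 : R (1 / x₂) ^ k ≤ R (1 / x₁) ^ k := pow_le_pow_left₀ (hRpos _ ht20).le g2 k
    have g5 : 0 < R (1 / x₁) := hRpos _ ht10
    have g6 : R b ^ k * (R (1 / x₁) - R (1 / x₂)) ≤ R (1 / x₂) ^ k * (R (1 / x₁) - R (1 / x₂)) :=
      mul_le_mul_of_nonneg_right g3 (by linarith)
    have g7 : R (1 / x₂) ^ k * R (1 / x₁) ≤ R (1 / x₁) ^ k * R (1 / x₁) :=
      mul_le_mul_of_nonneg_right g4 g5.le
    calc R b ^ k * (R (1 / x₁) - R (1 / x₂)) ≤ R (1 / x₂) ^ k * (R (1 / x₁) - R (1 / x₂)) := g6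
      _ = R (1 / x₂) ^ k * R (1 / x₁) - R (1 / x₂) ^ (k + 1) := by ring
      _ ≤ R (1 / x₁) ^ k * R (1 / x₁) - R (1 / x₂) ^ (k + 1) := by linarith
      _ = _ := by ring
  have e5 : q b ≤ q (1 / x₂) := hqm (mem_Ioi.mpr hb) (mem_Ioi.mpr ht20) ht2
  have e6 : q (1 / x₂) ≤ q (1 / x₁) := hqm (mem_Ioi.mpr ht20) (mem_Ioi.mpr ht10) ht12
  have e7 : 0 ≤ R (1 / x₁) ^ (k + 1) - R (1 / x₂) ^ (k + 1) := by
    have g2 : R (1 / x₂) ≤ R (1 / x₁) := hRm (mem_Ioi.mpr ht20) (mem_Ioi.mpr ht10) ht12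
    have := pow_le_pow_left₀ (hRpos _ ht20).le g2 (k + 1)
    linarith
  have e8 : q b * (R b ^ k * (δ₀ * (μ ^ 2 / 2 / (1 + μ ^ 2 * X ^ 2) ^ 2 * (x₂ ^ 2 - x₁ ^ 2)))) ≤
      R (1 / x₁) ^ (k + 1) * q (1 / x₁) - R (1 / x₂) ^ (k + 1) * q (1 / x₂) := by
    have i1 : δ₀ * (μ ^ 2 / 2 / (1 + μ ^ 2 * X ^ 2) ^ 2 * (x₂ ^ 2 - x₁ ^ 2)) ≤ R (1 / x₁) - R (1 / x₂) :=
      (mul_le_mul_of_nonneg_left e3 hδpos.le).trans e1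
    have i2 : R b ^ k * (δ₀ * (μ ^ 2 / 2 / (1 + μ ^ 2 * X ^ 2) ^ 2 * (x₂ ^ 2 - x₁ ^ 2))) ≤
        R (1 / x₁) ^ (k + 1) - R (1 / x₂) ^ (k + 1) :=
      (mul_le_mul_of_nonneg_left i1 (by positivity)).trans e4
    have i3 : q b * (R b ^ k * (δ₀ * (μ ^ 2 / 2 / (1 + μ ^ 2 * X ^ 2) ^ 2 * (x₂ ^ 2 - x₁ ^ 2)))) ≤
        q b * (R (1 / x₁) ^ (k + 1) - R (1 / x₂) ^ (k + 1)) :=
      mul_le_mul_of_nonneg_left i2 hqb.le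
    have i4 : q b * (R (1 / x₁) ^ (k + 1) - R (1 / x₂) ^ (k + 1)) ≤
        q (1 / x₂) * (R (1 / x₁) ^ (k + 1) - R (1 / x₂) ^ (k + 1)) :=
      mul_le_mul_of_nonneg_right e5 e7
    have i5 : R (1 / x₁) ^ (k + 1) * q (1 / x₂) ≤ R (1 / x₁) ^ (k + 1) * q (1 / x₁) :=
      mul_le_mul_of_nonneg_left e6 (pow_pos (hRpos _ ht10) _).le
    linarith
  have e9 := mul_le_mul_of_nonneg_left e8 (Nat.cast_nonneg (α := ℝ) (k + 2))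
  calc _ = ((k + 2 : ℕ) : ℝ) * (q b * (R b ^ k * (δ₀ * (μ ^ 2 / 2 / (1 + μ ^ 2 * X ^ 2) ^ 2 *
        (x₂ ^ 2 - x₁ ^ 2))))) := by ring
    _ ≤ _ := e9
    _ = _ := by ring

end Pool.Agent.RB75
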