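import Pool.Agent.RB75.Defs

/-! Module RB-B11: improvement of `λ` and closedness.

(1) If `Pdec lam r`, `Pstrict lam r`, `0 < r ≤ B` then for every `κ < lam` there is `lam'` with
`κ < lam' < lam`, `0 < lam'` and `Pdec lam' r`.
Proof. `lam'² = lam² (1-η)`, `η ∈ (0,1)` small. `r̃(t) = r(t)√(lam²+t²)^3`, `q(t) = t²/(lam²+t²) ∈ (0,1)`,
`r(t)√(lam'²+t²)^3 = r̃(t) G(q(t))`, `G(q) = √(1-η+ηq)^3` (because
`(lam'²+t²)/(lam²+t²) = 1 - η lam²/(lam²+t²) = 1 - η(1-q)`). `r̃ ≤ K` for some `K` (it is antitone and bounded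
near `0` by `B √(lam²+t²)^3`; e.g. `r̃(t) ≤ r̃(min t 1) ≤ B √(lam²+1)^3`). For `s < t`:
`r̃(s)G(q_s) - r̃(t)G(q_t) = (r̃(s)-r̃(t)) G(q_s) - r̃(t)(G(q_t)-G(q_s)) ≥ (ε (1-η)^{3/2} - K (3/2) η)(q_t - q_s) ≥ 0`
for small `η` (`√a³ - √b³ ≤ (3/2)(a-b)` for `0 ≤ b ≤ a ≤ 1`; `√(1-η)^3 ≥ (1/2)`, say, for `η ≤ 1/4`).
(2) If `Pdec lam r` for all `lam > L` (`L ≥ 0`) then `Pdec L r` (pointwise limit `lam → L+`).
(3) `Pdec lam r` and `lam ≤ lam'` (`0 ≤ lam`) imply `Pdec lam' r` (multiply by the antitone function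
`√((lam'²+t²)/(lam²+t²))^3`; here `r ≥ 0`). -/

namespace Pool.Agent.RB75
open MeasureTheory Set Filter Topology

theorem B11_cube {a b : ℝ} (hb : 0 ≤ b) (hab : b ≤ a) (ha : a ≤ 1) :
    √a ^ 3 - √b ^ 3 ≤ 3 / 2 * (a - b) := by
  have ha0 : 0 ≤ a := hb.trans hab
  have hu0 : 0 ≤ √b := Real.sqrt_nonneg b
  have huv : √b ≤ √a := Real.sqrt_le_sqrt hab
  have hu1 : √a ≤ 1 := Real.sqrt_le_one.mpr ha
  have hsa : √a ^ 2 = a := Real.sq_sqrt ha0
  have hsb : √b ^ 2 = b := Real.sq_sqrt hb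
  have h1 : √a ^ 2 + √a * √b + √b ^ 2 ≤ 3 / 2 * (√a + √b) := by
    nlinarith [mul_nonneg hu0 (sub_nonneg.mpr (huv.trans hu1)),
      mul_nonneg (hu0.trans huv) (sub_nonneg.mpr hu1),
      mul_nonneg (hu0.trans huv) (sub_nonneg.mpr (huv.trans hu1)),
      mul_nonneg hu0 (sub_nonneg.mpr hu1)]
  calc √a ^ 3 - √b ^ 3 = (√a - √b) * (√a ^ 2 + √a * √b + √b ^ 2) := by ring
    _ ≤ (√a - √b) * (3 / 2 * (√a + √b)) :=
        mul_le_mul_of_nonneg_left h1 (sub_nonneg.mpr huv)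
    _ = 3 / 2 * (√a ^ 2 - √b ^ 2) := by ring
    _ = 3 / 2 * (a - b) := by rw [hsa, hsb]

theorem B11_key {r : ℝ → ℝ} {B lam : ℝ} (hl : 0 < lam) (hpos : ∀ t, 0 < t → 0 < r t)
    (hB : ∀ t, 0 < t → r t ≤ B) (hP : Pdec lam r) {ε : ℝ} (hε : 0 < ε)
    (hs : ∀ s t, 0 < s → s < t →
      ε * (t ^ 2 / (lam ^ 2 + t ^ 2) - s ^ 2 / (lam ^ 2 + s ^ 2)) ≤
        r s * √(lam ^ 2 + s ^ 2) ^ 3 - r t * √(lam ^ 2 + t ^ 2) ^ 3)
    {lam' η : ℝ} (hη0 : 0 ≤ η) (hη1 : η ≤ 1 / 4) (hη2 : 3 * (B * √(lam ^ 2 + 1) ^ 3) * η ≤ ε)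
    (hlam : lam' ^ 2 = lam ^ 2 * (1 - η)) : Pdec lam' r := by
  have hB0 : 0 < B := (hpos 1 one_pos).trans_le (hB 1 one_pos)
  have hK : ∀ t, 0 < t → r t * √(lam ^ 2 + t ^ 2) ^ 3 ≤ B * √(lam ^ 2 + 1) ^ 3 := by
    intro t ht
    rcases le_total t 1 with h1 | h1
    · apply mul_le_mul (hB t ht) _ (by positivity) hB0.le
      apply pow_le_pow_left₀ (Real.sqrt_nonneg _)
      apply Real.sqrt_le_sqrt
      nlinarith
    · have h2 := hP (Set.mem_Ioi.mpr (one_pos : (0 : ℝ) < 1)) (Set.mem_Ioi.mpr ht) h1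
      simp only at h2
      refine h2.trans ?_
      rw [one_pow]
      exact mul_le_mul_of_nonneg_right (hB 1 one_pos) (by positivity)
  have hx : ∀ t, 0 < t → √(lam' ^ 2 + t ^ 2) =
      √(lam ^ 2 + t ^ 2) * √(1 - η + η * (t ^ 2 / (lam ^ 2 + t ^ 2))) := by
    intro t ht
    rw [← Real.sqrt_mul (by positivity)]
    congr 1
    rw [hlam]
    have : lam ^ 2 + t ^ 2 ≠ 0 := by positivity
    field_simp
    ring
  have hq1 : ∀ t, 0 < t → t ^ 2 / (lam ^ 2 + t ^ 2) ≤ 1 := by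
    intro t ht
    rw [div_le_one (by positivity)]
    nlinarith [sq_nonneg lam]
  have hq0 : ∀ t, 0 < t → 0 ≤ t ^ 2 / (lam ^ 2 + t ^ 2) := by
    intro t ht
    positivity
  intro s hs0 t ht0 hst
  have hs0' : 0 < s := hs0
  have ht0' : 0 < t := ht0
  rcases hst.eq_or_lt with h | hlt
  · rw [h]
  simp only
  set qs := s ^ 2 / (lam ^ 2 + s ^ 2) with hqs
  set qt := t ^ 2 / (lam ^ 2 + t ^ 2) with hqt
  have hqq : qs ≤ qt := by
    rw [hqs, hqt, div_le_div_iff₀ (by positivity) (by positivity)]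
    have : s ^ 2 ≤ t ^ 2 := by nlinarith
    nlinarith [mul_nonneg (sq_nonneg lam) (sub_nonneg.mpr this)]
  have hbs : 3 / 4 ≤ 1 - η + η * qs := by
    nlinarith [mul_nonneg hη0 (hq0 s hs0')]
  have hab : 1 - η + η * qs ≤ 1 - η + η * qt := by
    nlinarith [mul_le_mul_of_nonneg_left hqq hη0]
  have ha1 : 1 - η + η * qt ≤ 1 := by
    nlinarith [mul_le_mul_of_nonneg_left (hq1 t ht0') hη0]
  have hc := B11_cube (by linarith : (0 : ℝ) ≤ 1 - η + η * qs) hab ha1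
  have hg : 1 / 2 ≤ √(1 - η + η * qs) ^ 3 := by
    have h1 : (4 : ℝ) / 5 ≤ √(1 - η + η * qs) := by
      apply Real.le_sqrt_of_sq_le
      norm_num
      linarith
    calc (1 : ℝ) / 2 ≤ (4 / 5) ^ 3 := by norm_num
      _ ≤ √(1 - η + η * qs) ^ 3 := pow_le_pow_left₀ (by norm_num) h1 3
  have h1 := hs s t hs0' hlt
  have h2 := hK t ht0'
  have h3 : 0 ≤ r t * √(lam ^ 2 + t ^ 2) ^ 3 := by
    have := (hpos t ht0').le
    positivity
  rw [hx t ht0', hx s hs0', mul_pow, mul_pow, ← mul_assoc, ← mul_assoc]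
  set rs := r s * √(lam ^ 2 + s ^ 2) ^ 3 with hrs
  set rt := r t * √(lam ^ 2 + t ^ 2) ^ 3 with hrt
  set gs := √(1 - η + η * qs) ^ 3 with hgs
  set gt := √(1 - η + η * qt) ^ 3 with hgt
  set K := B * √(lam ^ 2 + 1) ^ 3 with hKd
  have hc' : gt - gs ≤ 3 / 2 * (η * (qt - qs)) := by
    calc gt - gs ≤ _ := hc
      _ = 3 / 2 * (η * (qt - qs)) := by ring
  have hd : 0 ≤ qt - qs := sub_nonneg.mpr hqq
  have e1 : rt * (gt - gs) ≤ K * (3 / 2 * (η * (qt - qs))) := by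
    calc rt * (gt - gs) ≤ rt * (3 / 2 * (η * (qt - qs))) := mul_le_mul_of_nonneg_left hc' h3
      _ ≤ K * (3 / 2 * (η * (qt - qs))) := mul_le_mul_of_nonneg_right h2 (by positivity)
  have e2 : ε * (qt - qs) * (1 / 2) ≤ (rs - rt) * gs := by
    have h4 : 0 ≤ ε * (qt - qs) := by positivity
    calc ε * (qt - qs) * (1 / 2) ≤ ε * (qt - qs) * gs := mul_le_mul_of_nonneg_left hg h4
      _ ≤ (rs - rt) * gs := mul_le_mul_of_nonneg_right h1 (by positivity)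
  have e3 : K * (3 / 2 * (η * (qt - qs))) ≤ ε * (qt - qs) * (1 / 2) := by
    have : K * (3 / 2 * (η * (qt - qs))) = (3 * K * η) * (qt - qs) * (1 / 2) := by ring
    rw [this]
    exact mul_le_mul_of_nonneg_right (mul_le_mul_of_nonneg_right hη2 hd) (by norm_num)
  nlinarith

theorem B11a {r : ℝ → ℝ} {B lam : ℝ} (hl : 0 < lam) (hpos : ∀ t, 0 < t → 0 < r t)
    (hB : ∀ t, 0 < t → r t ≤ B) (hP : Pdec lam r) (hs : Pstrict lam r) (κ : ℝ) (hκ : κ < lam) :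
    ∃ lam', κ < lam' ∧ lam' < lam ∧ 0 < lam' ∧ Pdec lam' r := by
  obtain ⟨ε, hε, hs⟩ := hs
  have hB0 : 0 < B := (hpos 1 one_pos).trans_le (hB 1 one_pos)
  have hK0 : 0 < 3 * (B * √(lam ^ 2 + 1) ^ 3) := by positivity
  set K := B * √(lam ^ 2 + 1) ^ 3 with hK
  set η₀ := min (1 / 4) (ε / (3 * K)) with hη₀
  have hη₀pos : 0 < η₀ := lt_min (by norm_num) (by positivity)
  have hη₀1 : η₀ ≤ 1 / 4 := min_le_left _ _
  have hη₀2 : η₀ ≤ ε / (3 * K) := min_le_right _ _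
  have hsq : √(1 - η₀) < 1 := by
    rw [Real.sqrt_lt' one_pos]
    linarith
  have hsq0 : 0 ≤ √(1 - η₀) := Real.sqrt_nonneg _
  have hll : lam * √(1 - η₀) < lam := by nlinarith
  set l0 := max κ (lam * √(1 - η₀)) with hl0
  have hl0lt : l0 < lam := max_lt hκ hll
  have hl0nn : 0 ≤ l0 := le_max_of_le_right (by positivity)
  have hl1 : l0 < (l0 + lam) / 2 := by linarith
  have hl2 : (l0 + lam) / 2 < lam := by linarith
  have hl3 : 0 < (l0 + lam) / 2 := by linarith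
  refine ⟨(l0 + lam) / 2, (le_max_left _ _).trans_lt hl1, hl2, hl3, ?_⟩
  set lam' := (l0 + lam) / 2 with hlam'
  have hge : lam ^ 2 * (1 - η₀) ≤ lam' ^ 2 := by
    have h1 : lam * √(1 - η₀) ≤ lam' := (le_max_right _ _).trans hl1.le
    have h2 : (lam * √(1 - η₀)) ^ 2 ≤ lam' ^ 2 := pow_le_pow_left₀ (by positivity) h1 2
    rw [mul_pow, Real.sq_sqrt (by linarith)] at h2
    exact h2
  have hlt : lam' ^ 2 < lam ^ 2 := by nlinarith
  have hlam2 : 0 < lam ^ 2 := by positivity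
  set η := 1 - lam' ^ 2 / lam ^ 2 with hη
  have h0 : 0 ≤ η := by
    rw [hη, sub_nonneg, div_le_one hlam2]
    exact hlt.le
  have h1 : η ≤ η₀ := by
    rw [hη, sub_le_comm, le_div_iff₀ hlam2]
    linarith
  refine B11_key hl hpos hB hP hε hs h0 (h1.trans hη₀1) ?_ ?_
  · have := h1.trans hη₀2
    rw [le_div_iff₀ hK0] at this
    linarith
  · rw [hη]
    field_simp
    ring

theorem B11b {r : ℝ → ℝ} {L : ℝ} (hL : 0 ≤ L) (h : ∀ lam, L < lam → Pdec lam r) : Pdec L r := by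
  intro s hs t ht hst
  simp only
  have hc : ∀ u : ℝ, Tendsto (fun lam : ℝ => r u * √(lam ^ 2 + u ^ 2) ^ 3) (𝓝[>] L)
      (𝓝 (r u * √(L ^ 2 + u ^ 2) ^ 3)) := by
    intro u
    have : Continuous fun lam : ℝ => r u * √(lam ^ 2 + u ^ 2) ^ 3 := by fun_prop
    exact (this.tendsto L).mono_left nhdsWithin_le_nhds
  refine le_of_tendsto_of_tendsto (hc t) (hc s) ?_
  filter_upwards [self_mem_nhdsWithin] with lam hlam
  exact h lam hlam hs ht hst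

theorem B11c {r : ℝ → ℝ} {lam lam' : ℝ} (h0 : 0 ≤ lam) (hll : lam ≤ lam') (hpos : ∀ t, 0 < t → 0 < r t)
    (h : Pdec lam r) : Pdec lam' r := by
  intro s hs t ht hst
  have hs' : 0 < s := hs
  have ht' : 0 < t := ht
  have h1 := h hs ht hst
  simp only at h1 ⊢
  have hXs : 0 < √(lam ^ 2 + s ^ 2) := Real.sqrt_pos.mpr (by positivity)
  have hXt : 0 < √(lam ^ 2 + t ^ 2) := Real.sqrt_pos.mpr (by positivity)
  have hle : √(lam' ^ 2 + t ^ 2) * √(lam ^ 2 + s ^ 2) ≤ √(lam' ^ 2 + s ^ 2) * √(lam ^ 2 + t ^ 2) := by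
    rw [← Real.sqrt_mul (by positivity), ← Real.sqrt_mul (by positivity)]
    apply Real.sqrt_le_sqrt
    have e1 : lam ^ 2 ≤ lam' ^ 2 := pow_le_pow_left₀ h0 hll 2
    have e2 : s ^ 2 ≤ t ^ 2 := pow_le_pow_left₀ hs'.le hst 2
    nlinarith [mul_nonneg (sub_nonneg.mpr e1) (sub_nonneg.mpr e2)]
  have hle3 := pow_le_pow_left₀ (by positivity) hle 3
  rw [mul_pow, mul_pow] at hle3
  set a := √(lam ^ 2 + s ^ 2) ^ 3 with ha
  set b := √(lam ^ 2 + t ^ 2) ^ 3 with hb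
  set c := √(lam' ^ 2 + s ^ 2) ^ 3 with hc
  set d := √(lam' ^ 2 + t ^ 2) ^ 3 with hd
  have ha0 : 0 < a := by positivity
  have hb0 : 0 < b := by positivity
  have hc0 : 0 ≤ c := by positivity
  have hrt := hpos t ht'
  have hrs := hpos s hs'
  -- r t * d * a ≤ r t * c * b ≤ r s * a * c
  have h2 : r t * d * a ≤ r s * c * a := by
    calc r t * d * a = r t * (d * a) := by ring
      _ ≤ r t * (c * b) := mul_le_mul_of_nonneg_left hle3 hrt.le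
      _ = (r t * b) * c := by ring
      _ ≤ (r s * a) * c := mul_le_mul_of_nonneg_right h1 hc0
      _ = r s * c * a := by ring
  exact le_of_mul_le_mul_right h2 ha0

end Pool.Agent.RB75
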