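import Pool.Agent.RB75.B0

/-! Module RB-B2a: `ρ₁(t) ≤ (D₀/2) ∫_0^t mm₀(1/x) dx`, with integrability.

Proof. `r₁(s) = D₀ ∫_0^1 z² √(1-z²)^m mm₀(1/(s z)) dz = D₀ s^{-3} ∫_0^s x² √(1-x²/s²)^m mm₀(1/x) dx`
(substitution `x = s z`). Everything is `≥ 0`, so Tonelli (use `lintegral`, `∫⁻ ENNReal.ofReal`) gives
`ρ₁(t) = ∫_0^t r₁(s) ds = D₀ ∫_0^t x² mm₀(1/x) (∫_x^t s^{-3} √(1-x²/s²)^m ds) dx`
`      = (D₀/(m+2)) ∫_0^t mm₀(1/x) √(1-x²/t²)^{m+2} dx`,
because `d/ds [√(1-x²/s²)^{m+2}] = (m+2) x² s^{-3} √(1-x²/s²)^m`.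
Finiteness of the left side: `mm₀(1/x)` is integrable on `(0,t/2)` (there the last factor is
`≥ (√3/2)^{m+2}`), and on `(t/2,t)` it is antitone hence bounded by `mm₀(2/t)`.
Finally `√(1-x²/t²) ≤ 1` and `1/(m+2) ≤ 1/2`. -/

namespace Pool.Agent.RB75
open MeasureTheory Set Filter Topology

/-- the kernel -/
noncomputable def kerB2a (m : ℕ) (s x : ℝ) : ℝ := x ^ 2 / s ^ 3 * √(1 - x ^ 2 / s ^ 2) ^ m

theorem kerB2a_nonneg (m : ℕ) {s : ℝ} (x : ℝ) (hs : 0 < s) : 0 ≤ kerB2a m s x := by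
  unfold kerB2a; positivity

theorem kerB2a_integral (m : ℕ) {x t : ℝ} (hx : 0 < x) (hxt : x ≤ t) :
    IntervalIntegrable (fun s => kerB2a m s x) volume x t ∧
    ∫ s in x..t, kerB2a m s x = 1 / ((m : ℝ) + 2) * √(1 - x ^ 2 / t ^ 2) ^ (m + 2) := by
  have hcont : ContinuousOn (fun s : ℝ => kerB2a m s x) (Icc x t) := by
    unfold kerB2a
    have h0 : ∀ s ∈ Icc x t, s ≠ 0 := fun s hs => (hx.trans_le hs.1).ne'
    have c1 : ContinuousOn (fun s : ℝ => x ^ 2 / s ^ 3) (Icc x t) :=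
      continuousOn_const.div (continuousOn_id.pow 3) (fun s hs => pow_ne_zero 3 (h0 s hs))
    have c2 : ContinuousOn (fun s : ℝ => x ^ 2 / s ^ 2) (Icc x t) :=
      continuousOn_const.div (continuousOn_id.pow 2) (fun s hs => pow_ne_zero 2 (h0 s hs))
    exact c1.mul ((Real.continuous_sqrt.comp_continuousOn (continuousOn_const.sub c2)).pow m)
  have hint : IntervalIntegrable (fun s => kerB2a m s x) volume x t := by
    apply ContinuousOn.intervalIntegrable
    rwa [uIcc_of_le hxt]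
  refine ⟨hint, ?_⟩
  have hF : ∀ s ∈ Ioo x t, HasDerivAt
      (fun s : ℝ => 1 / ((m : ℝ) + 2) * √(1 - x ^ 2 / s ^ 2) ^ (m + 2)) (kerB2a m s x) s := by
    intro s hs
    have hs0 : 0 < s := hx.trans hs.1
    have hu : 0 < 1 - x ^ 2 / s ^ 2 := by
      rw [sub_pos, div_lt_one (by positivity)]
      exact pow_lt_pow_left₀ hs.1 hx.le (by norm_num)
    have d1 : HasDerivAt (fun s : ℝ => 1 - x ^ 2 / s ^ 2) (2 * x ^ 2 / s ^ 3) s := by
      have d2 := ((hasDerivAt_pow 2 s).inv (pow_ne_zero 2 hs0.ne')).const_mul (x ^ 2)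
      have d3 := d2.const_sub 1
      refine d3.congr_deriv ?_
      have := hs0.ne'
      field_simp
      ring
    have d4 := (d1.sqrt hu.ne').pow (m + 2)
    have d5 := d4.const_mul (1 / ((m : ℝ) + 2))
    refine d5.congr_deriv ?_
    unfold kerB2a
    have hsq : √(1 - x ^ 2 / s ^ 2) ≠ 0 := (Real.sqrt_pos.mpr hu).ne'
    have hm : ((m : ℝ) + 2) ≠ 0 := by positivity
    have e1 : (m + 2 - 1 : ℕ) = m + 1 := by omega
    rw [e1]
    push_cast
    rw [pow_succ]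
    generalize √(1 - x ^ 2 / s ^ 2) = q at hsq ⊢
    field_simp
  have hc2 : ContinuousOn (fun s : ℝ => 1 / ((m : ℝ) + 2) * √(1 - x ^ 2 / s ^ 2) ^ (m + 2))
      (Icc x t) := by
    have h0 : ∀ s ∈ Icc x t, s ≠ 0 := fun s hs => (hx.trans_le hs.1).ne'
    have c2 : ContinuousOn (fun s : ℝ => x ^ 2 / s ^ 2) (Icc x t) :=
      continuousOn_const.div (continuousOn_id.pow 2) (fun s hs => pow_ne_zero 2 (h0 s hs))
    exact continuousOn_const.mul
      ((Real.continuous_sqrt.comp_continuousOn (continuousOn_const.sub c2)).pow (m + 2))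
  rw [intervalIntegral.integral_eq_sub_of_hasDerivAt_of_le hxt hc2 hF hint]
  have hxx : x ^ 2 / x ^ 2 = 1 := div_self (by positivity)
  simp [hxx]


/-- substitution `x = s z` in one step -/
theorem B2a_subst {m j l : ℕ} {D₀ : ℝ} {ρ₀ r₀ r₁ : ℝ → ℝ}
    (hS : Step m j l D₀ ρ₀ r₀ r₁) (s : ℝ) (hs : 0 < s) :
    IntervalIntegrable (fun x => kerB2a m s x * mm j l ρ₀ r₀ (1 / x)) volume 0 s ∧
    r₁ s = D₀ * ∫ x in (0 : ℝ)..s, kerB2a m s x * mm j l ρ₀ r₀ (1 / x) := by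
  obtain ⟨h1, h2⟩ := hS s hs
  have hs' := hs.ne'
  have e : ∀ z : ℝ, z ^ 2 * √(1 - z ^ 2) ^ m * mm j l ρ₀ r₀ (1 / (s * z)) =
      s * (kerB2a m s (s * z) * mm j l ρ₀ r₀ (1 / (s * z))) := by
    intro z
    unfold kerB2a
    have e1 : (s * z) ^ 2 / s ^ 2 = z ^ 2 := by field_simp
    rw [e1]
    have e2 : (s * z) ^ 2 / s ^ 3 = z ^ 2 / s := by field_simp
    rw [e2]
    field_simp
  have h3 : IntervalIntegrable (fun z => kerB2a m s (s * z) * mm j l ρ₀ r₀ (1 / (s * z)))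
      volume 0 1 := by
    have := h1.const_mul s⁻¹
    refine this.congr ?_
    intro z _
    simp only [e z]
    field_simp
  have h4 : IntervalIntegrable (fun x => kerB2a m s x * mm j l ρ₀ r₀ (1 / x)) volume 0 s := by
    refine (IntervalIntegrable.comp_mul_left_iff (c := s) (a := 0) (b := s) hs').mp ?_
    rw [zero_div, div_self hs']
    exact h3
  refine ⟨h4, ?_⟩
  rw [h2]
  congr 1
  have h5 := intervalIntegral.integral_comp_mul_left (a := 0) (b := 1)
    (fun x => kerB2a m s x * mm j l ρ₀ r₀ (1 / x)) hs'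
  rw [mul_zero, mul_one] at h5
  calc ∫ z in (0 : ℝ)..1, z ^ 2 * √(1 - z ^ 2) ^ m * mm j l ρ₀ r₀ (1 / (s * z))
      = ∫ z in (0 : ℝ)..1, s * (kerB2a m s (s * z) * mm j l ρ₀ r₀ (1 / (s * z))) := by
        simp_rw [e]
    _ = s * ∫ z in (0 : ℝ)..1, (kerB2a m s (s * z) * mm j l ρ₀ r₀ (1 / (s * z))) := by
        rw [intervalIntegral.integral_const_mul]
    _ = _ := by
        rw [h5, smul_eq_mul, ← mul_assoc, mul_inv_cancel₀ hs', one_mul]

/-- `mm₀(1/x)` with values in `[0,∞]`, `⊤` for `x ≤ 0`. -/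
noncomputable def HB2a (j l : ℕ) (ρ₀ r₀ : ℝ → ℝ) (x : ℝ) : ENNReal :=
  if x ≤ 0 then ⊤ else ENNReal.ofReal (mm j l ρ₀ r₀ (1 / x))

theorem HB2a_measurable {j l : ℕ} {ρ₀ r₀ : ℝ → ℝ} (h0 : Nice ρ₀ r₀) :
    Measurable (HB2a j l ρ₀ r₀) := by
  apply Antitone.measurable
  intro x y hxy
  unfold HB2a
  by_cases hx : x ≤ 0
  · rw [if_pos hx]; exact le_top
  · have hx' : 0 < x := not_le.mp hx
    have hy' : 0 < y := hx'.trans_le hxy
    rw [if_neg hx, if_neg (not_le.mpr hy')]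
    exact ENNReal.ofReal_le_ofReal (mm_inv_anti j l (fun t ht => (h0.rho_pos t ht).le) h0.rho_mono
      (fun t ht => (h0.pos t ht).le) h0.N_mono (mem_Ioi.mpr hx') (mem_Ioi.mpr hy') hxy)

theorem B2a_hnn {j l : ℕ} {ρ₀ r₀ : ℝ → ℝ} (h0 : Nice ρ₀ r₀) {x : ℝ} (hx : 0 < x) :
    0 ≤ mm j l ρ₀ r₀ (1 / x) :=
  mm_nonneg j l (by positivity) (h0.rho_pos _ (by positivity)).le (h0.pos _ (by positivity)).le

theorem kerB2a_meas (m : ℕ) : Measurable (fun p : ℝ × ℝ => kerB2a m p.1 p.2) := by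
  unfold kerB2a
  fun_prop

theorem B2a_key {m j l : ℕ} {D₀ : ℝ} {ρ₀ r₀ ρ₁ r₁ : ℝ → ℝ} (hD : 0 < D₀)
    (h0 : Nice ρ₀ r₀) (h1 : Nice ρ₁ r₁) (hS : Step m j l D₀ ρ₀ r₀ r₁) (t : ℝ) (ht : 0 < t) :
    ENNReal.ofReal (ρ₁ t) = ∫⁻ x in Ioo 0 t, HB2a j l ρ₀ r₀ x *
      ENNReal.ofReal (D₀ * (1 / ((m : ℝ) + 2) * √(1 - x ^ 2 / t ^ 2) ^ (m + 2))) := by
  set H := HB2a j l ρ₀ r₀ with hH
  have hHm : Measurable H := HB2a_measurable h0
  set K : ℝ → ℝ → ENNReal := fun s x => H x * ENNReal.ofReal (D₀ * kerB2a m s x) with hK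
  have hKm : Measurable (fun p : ℝ × ℝ => K p.1 p.2) := by
    have := kerB2a_meas m
    exact (hHm.comp measurable_snd).mul (ENNReal.measurable_ofReal.comp (this.const_mul D₀))
  set A : Set (ℝ × ℝ) := {p | 0 < p.2 ∧ p.2 < p.1 ∧ p.1 ≤ t} with hA
  have hAm : MeasurableSet A := by
    refine (measurableSet_lt measurable_const measurable_snd).inter
      ((measurableSet_lt measurable_snd measurable_fst).inter
        (measurableSet_le measurable_fst measurable_const))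
  set G : ℝ → ℝ → ENNReal := fun s x => A.indicator (fun p : ℝ × ℝ => K p.1 p.2) (s, x) with hG
  have hGm : Measurable (fun p : ℝ × ℝ => G p.1 p.2) := by
    have : (fun p : ℝ × ℝ => G p.1 p.2) = A.indicator (fun p : ℝ × ℝ => K p.1 p.2) := by
      ext p; rfl
    rw [this]
    exact hKm.indicator hAm
  have hswap : ∫⁻ s, ∫⁻ x, G s x = ∫⁻ x, ∫⁻ s, G s x :=
    lintegral_lintegral_swap hGm.aemeasurable
  -- left side
  have hL : ENNReal.ofReal (ρ₁ t) = ∫⁻ s, ∫⁻ x, G s x := by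
    rw [h1.rho t ht, intervalIntegral.integral_of_le ht.le,
      ofReal_integral_eq_lintegral_ofReal
        ((intervalIntegrable_iff_integrableOn_Ioc_of_le ht.le).mp (h1.int t ht))
        ((ae_restrict_iff' measurableSet_Ioc).mpr (Eventually.of_forall
          fun s hs => (h1.pos s hs.1).le)), ← lintegral_indicator measurableSet_Ioc]
    apply lintegral_congr
    intro s
    by_cases hs : s ∈ Ioc (0 : ℝ) t
    · rw [indicator_of_mem hs]
      obtain ⟨i1, i2⟩ := B2a_subst hS s hs.1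
      have hG2 : ∀ x, G s x = (Ioo (0 : ℝ) s).indicator (K s) x := by
        intro x
        by_cases hx : x ∈ Ioo (0 : ℝ) s
        · rw [indicator_of_mem hx]
          exact indicator_of_mem (s := A) (show (s, x) ∈ A from ⟨hx.1, hx.2, hs.2⟩) _
        · rw [indicator_of_notMem hx]
          exact indicator_of_notMem (s := A) (fun h : (s, x) ∈ A => hx ⟨h.1, h.2.1⟩) _
      simp_rw [hG2]
      rw [lintegral_indicator measurableSet_Ioo, i2, ← intervalIntegral.integral_const_mul,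
        intervalIntegral.integral_of_le hs.1.le, ← restrict_Ioo_eq_restrict_Ioc]
      have i3 : IntegrableOn (fun x => D₀ * (kerB2a m s x * mm j l ρ₀ r₀ (1 / x))) (Ioo 0 s) :=
        ((intervalIntegrable_iff_integrableOn_Ioo_of_le hs.1.le).mp i1).const_mul D₀
      rw [ofReal_integral_eq_lintegral_ofReal i3 ((ae_restrict_iff' measurableSet_Ioo).mpr
        (Eventually.of_forall fun x hx => mul_nonneg hD.le
          (mul_nonneg (kerB2a_nonneg m x hs.1) (B2a_hnn h0 hx.1))))]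
      apply setLIntegral_congr_fun measurableSet_Ioo
      intro x hx
      simp only [hK, hH, HB2a, if_neg (not_le.mpr hx.1)]
      rw [← ENNReal.ofReal_mul (B2a_hnn h0 hx.1)]
      congr 1
      ring
    · rw [indicator_of_notMem hs]
      have hG2 : ∀ x, G s x = 0 := by
        intro x
        apply indicator_of_notMem (s := A)
        intro h
        exact hs ⟨h.1.trans h.2.1, h.2.2⟩
      simp_rw [hG2]
      simp
  rw [hL, hswap, ← lintegral_indicator measurableSet_Ioo]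
  apply lintegral_congr
  intro x
  by_cases hx : x ∈ Ioo (0 : ℝ) t
  · rw [indicator_of_mem hx]
    have hG2 : ∀ s, G s x = (Ioc x t).indicator (fun s => K s x) s := by
      intro s
      by_cases hs : s ∈ Ioc x t
      · rw [indicator_of_mem hs]
        exact indicator_of_mem (s := A) (show (s, x) ∈ A from ⟨hx.1, hs.1, hs.2⟩) _
      · rw [indicator_of_notMem hs]
        exact indicator_of_notMem (s := A) (fun h : (s, x) ∈ A => hs ⟨h.2.1, h.2.2⟩) _
    simp_rw [hG2]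
    rw [lintegral_indicator measurableSet_Ioc]
    simp only [hK]
    obtain ⟨i1, i2⟩ := kerB2a_integral m hx.1 hx.2.le
    have hmeas : Measurable fun s => ENNReal.ofReal (D₀ * kerB2a m s x) := by
      have h3 : Measurable fun s => kerB2a m s x :=
        (kerB2a_meas m).comp (measurable_id.prodMk measurable_const)
      exact ENNReal.measurable_ofReal.comp (h3.const_mul D₀)
    rw [lintegral_const_mul _ hmeas]
    congr 1
    rw [← i2, ← intervalIntegral.integral_const_mul, intervalIntegral.integral_of_le hx.2.le]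
    rw [ofReal_integral_eq_lintegral_ofReal
      (((intervalIntegrable_iff_integrableOn_Ioc_of_le hx.2.le).mp i1).const_mul D₀)
      ((ae_restrict_iff' measurableSet_Ioc).mpr (Eventually.of_forall fun s hs =>
        mul_nonneg hD.le (kerB2a_nonneg m x (hx.1.trans hs.1))))]
  · rw [indicator_of_notMem hx]
    have hG2 : ∀ s, G s x = 0 := by
      intro s
      apply indicator_of_notMem (s := A)
      intro h
      exact hx ⟨h.1, h.2.1.trans_le h.2.2⟩
    simp_rw [hG2]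
    simp

theorem B2a {m j l : ℕ} {D₀ : ℝ} {ρ₀ r₀ ρ₁ r₁ : ℝ → ℝ} (hD : 0 < D₀)
    (h0 : Nice ρ₀ r₀) (h1 : Nice ρ₁ r₁) (hS : Step m j l D₀ ρ₀ r₀ r₁) (t : ℝ) (ht : 0 < t) :
    IntervalIntegrable (fun x => mm j l ρ₀ r₀ (1 / x)) volume 0 t ∧
    ρ₁ t ≤ D₀ / 2 * ∫ x in (0 : ℝ)..t, mm j l ρ₀ r₀ (1 / x) := by
  have hH0 : ∀ x, 0 < x → HB2a j l ρ₀ r₀ x = ENNReal.ofReal (mm j l ρ₀ r₀ (1 / x)) := by
    intro x hx
    unfold HB2a
    rw [if_neg (not_le.mpr hx)]
  -- integrability: apply the key formula at `2 t`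
  have hint : IntegrableOn (fun x => mm j l ρ₀ r₀ (1 / x)) (Ioo 0 t) := by
    have hk := B2a_key hD h0 h1 hS (2 * t) (by positivity)
    set c : ℝ := D₀ * (1 / ((m : ℝ) + 2) * √(3 / 4) ^ (m + 2)) with hc
    have hcpos : 0 < c := by positivity
    have hfin : ∫⁻ x in Ioo 0 t, HB2a j l ρ₀ r₀ x * ENNReal.ofReal c < ⊤ := by
      calc ∫⁻ x in Ioo 0 t, HB2a j l ρ₀ r₀ x * ENNReal.ofReal c
          ≤ ∫⁻ x in Ioo 0 t, HB2a j l ρ₀ r₀ x *
            ENNReal.ofReal (D₀ * (1 / ((m : ℝ) + 2) * √(1 - x ^ 2 / (2 * t) ^ 2) ^ (m + 2))) := by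
            apply setLIntegral_mono' measurableSet_Ioo
            intro x hx
            have hx4 : x ^ 2 / (2 * t) ^ 2 ≤ 1 / 4 := by
              rw [div_le_div_iff₀ (by positivity) (by norm_num)]
              nlinarith [hx.1, hx.2]
            have hs34 : √(3 / 4 : ℝ) ≤ √(1 - x ^ 2 / (2 * t) ^ 2) :=
              Real.sqrt_le_sqrt (by linarith)
            have hcle : c ≤ D₀ * (1 / ((m : ℝ) + 2) *
                √(1 - x ^ 2 / (2 * t) ^ 2) ^ (m + 2)) := by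
              rw [hc]
              gcongr
            gcongr
        _ ≤ ∫⁻ x in Ioo 0 (2 * t), HB2a j l ρ₀ r₀ x *
            ENNReal.ofReal (D₀ * (1 / ((m : ℝ) + 2) * √(1 - x ^ 2 / (2 * t) ^ 2) ^ (m + 2))) :=
            lintegral_mono_set (Ioo_subset_Ioo_right (by linarith))
        _ = ENNReal.ofReal (ρ₁ (2 * t)) := hk.symm
        _ < ⊤ := ENNReal.ofReal_lt_top
    rw [lintegral_mul_const _ (HB2a_measurable h0)] at hfin
    have hfin2 : ∫⁻ x in Ioo 0 t, HB2a j l ρ₀ r₀ x < ⊤ := by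
      by_contra hcon
      rw [not_lt, top_le_iff] at hcon
      rw [hcon, ENNReal.top_mul (by simpa using hcpos)] at hfin
      exact lt_irrefl _ hfin
    refine ⟨?_, ?_⟩
    · have : AntitoneOn (fun x => mm j l ρ₀ r₀ (1 / x)) (Ioo 0 t) :=
        (mm_inv_anti j l (fun t ht => (h0.rho_pos t ht).le) h0.rho_mono
          (fun t ht => (h0.pos t ht).le) h0.N_mono).mono (fun x hx => mem_Ioi.mpr hx.1)
      exact (aemeasurable_restrict_of_antitoneOn measurableSet_Ioo this).aestronglyMeasurable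
    · rw [hasFiniteIntegral_iff_ofReal ((ae_restrict_iff' measurableSet_Ioo).mpr
        (Eventually.of_forall fun x hx => B2a_hnn h0 hx.1))]
      calc ∫⁻ x in Ioo 0 t, ENNReal.ofReal (mm j l ρ₀ r₀ (1 / x))
          = ∫⁻ x in Ioo 0 t, HB2a j l ρ₀ r₀ x := by
            apply setLIntegral_congr_fun measurableSet_Ioo
            intro x hx
            exact (hH0 x hx.1).symm
        _ < ⊤ := hfin2
  have hii : IntervalIntegrable (fun x => mm j l ρ₀ r₀ (1 / x)) volume 0 t :=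
    (intervalIntegrable_iff_integrableOn_Ioo_of_le ht.le).mpr hint
  refine ⟨hii, ?_⟩
  have hI0 : 0 ≤ ∫ x in (0 : ℝ)..t, mm j l ρ₀ r₀ (1 / x) := by
    rw [intervalIntegral.integral_of_le ht.le, ← restrict_Ioo_eq_restrict_Ioc]
    exact setIntegral_nonneg measurableSet_Ioo fun x hx => B2a_hnn h0 hx.1
  rw [← ENNReal.ofReal_le_ofReal_iff (by positivity)]
  rw [B2a_key hD h0 h1 hS t ht, ENNReal.ofReal_mul (by positivity),
    intervalIntegral.integral_of_le ht.le, ← restrict_Ioo_eq_restrict_Ioc,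
    ofReal_integral_eq_lintegral_ofReal hint ((ae_restrict_iff' measurableSet_Ioo).mpr
        (Eventually.of_forall fun x hx => B2a_hnn h0 hx.1)), mul_comm (ENNReal.ofReal (D₀ / 2)),
    ← lintegral_mul_const' _ _ ENNReal.ofReal_ne_top]
  apply setLIntegral_mono' measurableSet_Ioo
  intro x hx
  rw [hH0 x hx.1]
  gcongr
  have q1 : √(1 - x ^ 2 / t ^ 2) ≤ 1 := by
    rw [Real.sqrt_le_one]
    have : 0 ≤ x ^ 2 / t ^ 2 := by positivity
    linarith
  have q2 : √(1 - x ^ 2 / t ^ 2) ^ (m + 2) ≤ 1 := pow_le_one₀ (Real.sqrt_nonneg _) q1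
  have q3 : 1 / ((m : ℝ) + 2) ≤ 1 / 2 := by
    apply one_div_le_one_div_of_le (by norm_num)
    have : (0 : ℝ) ≤ m := Nat.cast_nonneg m
    linarith
  have q4 : 1 / ((m : ℝ) + 2) * √(1 - x ^ 2 / t ^ 2) ^ (m + 2) ≤ 1 / 2 * 1 := by
    gcongr
  rw [mul_one] at q4
  calc D₀ * (1 / ((m : ℝ) + 2) * √(1 - x ^ 2 / t ^ 2) ^ (m + 2)) ≤ D₀ * (1 / 2) := by gcongr
    _ = D₀ / 2 := by ring

end Pool.Agent.RB75
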