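import Pool.Agent.RB75.B0

/-! Module RB-B2b: `N₀(1/x) ≤ D₁ ∫_x^∞ s^{-4} mm₁(s) ds`, with integrability.

Proof. With `T = 1/x`, `T³ r₀(T) = D₁ T³ ∫_0^1 z² √(1-z²)^m mm₁(1/(T z)) dz ≤ D₁ T³ ∫_0^1 z² mm₁(1/(Tz)) dz`
and the substitution `s = 1/(T z)` (`z = 1/(T s)`, `dz = - ds/(T s²)`, `z ∈ (0,1) ↔ s > x`) turns
`T³ ∫_0^1 z² mm₁(1/(T z)) dz` into `∫_x^∞ s^{-4} mm₁(s) ds`.
Integrability on `(x,∞)`: `mm₁(s) ≤ j R^{j-1} s³ r₁(s) + l R^j` (`ρ₁ ≤ R`, `sg ≤ 1`) and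
`s³ r₁(s)/s⁴ = r₁(s)/s ≤ R/s²` (`Nice.tr_le`). (First prove integrability; then the inequality for
the integral over `z` of `z² mm₁(1/(Tz))`, integrable by the same substitution.) -/

namespace Pool.Agent.RB75
open MeasureTheory Set Filter Topology

theorem B2b_mm_cont {j l : ℕ} {ρ₁ r₁ : ℝ → ℝ} (h1 : Nice ρ₁ r₁) :
    ContinuousOn (mm j l ρ₁ r₁) (Ioi 0) := by
  unfold mm
  have hs : ContinuousOn sg (Ioi 0) := sg_continuous.continuousOn
  have hid : ContinuousOn (fun τ : ℝ => τ) (Ioi 0) := continuousOn_id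
  exact (((continuousOn_const.mul (h1.rho_cont.pow _)).mul (hs.pow _)).mul
    ((hid.pow 3).mul h1.cont)).add ((continuousOn_const.mul (h1.rho_cont.pow _)).mul (hs.pow _))

theorem B2b_mm_le {j l : ℕ} {ρ₁ r₁ : ℝ → ℝ} (h1 : Nice ρ₁ r₁) {R : ℝ} (hR : 0 < R)
    (hb : ∀ t, 0 < t → ρ₁ t ≤ R) {s : ℝ} (hs : 0 < s) :
    mm j l ρ₁ r₁ s ≤ j * R ^ (j - 1) * (s ^ 2 * R) + l * R ^ j := by
  unfold mm
  have hρ := (h1.rho_pos s hs).le
  have hsg0 := sg_nonneg hs.le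
  have hsg1 := (sg_lt_one s).le
  have hr : s ^ 3 * r₁ s ≤ s ^ 2 * R := by
    have h := h1.tr_le s hs
    have h2 := hb s hs
    have : s ^ 3 * r₁ s = s ^ 2 * (s * r₁ s) := by ring
    rw [this]
    exact mul_le_mul_of_nonneg_left (h.trans h2) (by positivity)
  have hr0 : 0 ≤ s ^ 3 * r₁ s := mul_nonneg (by positivity) (h1.pos s hs).le
  have e1 : (j : ℝ) * ρ₁ s ^ (j - 1) * sg s ^ l * (s ^ 3 * r₁ s)
      ≤ j * R ^ (j - 1) * (s ^ 2 * R) := by
    have a1 : (j : ℝ) * ρ₁ s ^ (j - 1) * sg s ^ l ≤ j * R ^ (j - 1) * 1 := by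
      apply mul_le_mul
      · exact mul_le_mul_of_nonneg_left (pow_le_pow_left₀ hρ (hb s hs) _) (Nat.cast_nonneg _)
      · exact pow_le_one₀ hsg0 hsg1
      · positivity
      · positivity
    rw [mul_one] at a1
    exact mul_le_mul a1 hr hr0 (by positivity)
  have e2 : (l : ℝ) * ρ₁ s ^ j * sg s ^ (l + 2) ≤ l * R ^ j := by
    have a1 : (l : ℝ) * ρ₁ s ^ j * sg s ^ (l + 2) ≤ l * R ^ j * 1 := by
      apply mul_le_mul
      · exact mul_le_mul_of_nonneg_left (pow_le_pow_left₀ hρ (hb s hs) _) (Nat.cast_nonneg _)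
      · exact pow_le_one₀ hsg0 hsg1
      · positivity
      · positivity
    rwa [mul_one] at a1
  linarith

theorem B2b_int {j l : ℕ} {ρ₁ r₁ : ℝ → ℝ} (h1 : Nice ρ₁ r₁) (x : ℝ) (hx : 0 < x) :
    IntegrableOn (fun s => mm j l ρ₁ r₁ s / s ^ 4) (Ioi x) := by
  obtain ⟨R, hR, hb⟩ := h1.bdd
  have hsub : Ioi x ⊆ Ioi (0 : ℝ) := Ioi_subset_Ioi hx.le
  have hmeas : AEStronglyMeasurable (fun s => mm j l ρ₁ r₁ s / s ^ 4) (volume.restrict (Ioi x)) := by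
    apply ContinuousOn.aestronglyMeasurable _ measurableSet_Ioi
    apply ContinuousOn.div ((B2b_mm_cont h1).mono hsub) (continuousOn_id.pow 4)
    intro s hs
    have h0 : 0 < s := hsub hs
    exact (pow_pos h0 4).ne'
  have hg : IntegrableOn (fun s : ℝ => (j * R ^ (j - 1) * R + l * R ^ j / x ^ 2) * s ^ (-2 : ℝ)) (Ioi x) :=
    (integrableOn_Ioi_rpow_of_lt (by norm_num) hx).const_mul _
  refine Integrable.mono' hg hmeas ?_
  filter_upwards [ae_restrict_mem measurableSet_Ioi] with s hs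
  have hs0 : 0 < s := hsub hs
  have hsx : x < s := hs
  have hnn : 0 ≤ mm j l ρ₁ r₁ s := mm_nonneg j l hs0 (h1.rho_pos s hs0).le (h1.pos s hs0).le
  rw [Real.norm_of_nonneg (by positivity)]
  have hle := B2b_mm_le (j := j) (l := l) h1 hR hb hs0
  have hpow : s ^ (-2 : ℝ) = 1 / s ^ 2 := by
    rw [Real.rpow_neg hs0.le]
    norm_num
  rw [hpow, div_le_iff₀ (by positivity)]
  refine hle.trans ?_
  have e3 : (j * R ^ (j - 1) * R + l * R ^ j / x ^ 2) * (1 / s ^ 2) * s ^ 4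
      = (j : ℝ) * R ^ (j - 1) * (s ^ 2 * R) + l * R ^ j * (s ^ 2 / x ^ 2) := by
    field_simp
  rw [e3]
  have e4 : 1 ≤ s ^ 2 / x ^ 2 := by
    rw [le_div_iff₀ (by positivity), one_mul]
    exact pow_le_pow_left₀ hx.le hsx.le 2
  have e5 : (l : ℝ) * R ^ j ≤ l * R ^ j * (s ^ 2 / x ^ 2) :=
    le_mul_of_one_le_right (by positivity) e4
  linarith

theorem B2b_image (x : ℝ) (hx : 0 < x) : (fun s : ℝ => x / s) '' Ioi x = Ioo 0 1 := by
  ext z
  constructor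
  · rintro ⟨s, hs, rfl⟩
    have hs' : x < s := hs
    have : 0 < s := hx.trans hs'
    exact ⟨by positivity, (div_lt_one this).2 hs'⟩
  · rintro ⟨h0, h1⟩
    refine ⟨x / z, ?_, ?_⟩
    · show x < x / z
      rw [lt_div_iff₀ h0]
      nlinarith
    · show x / (x / z) = z
      field_simp

theorem B2b {m j l : ℕ} {D₁ : ℝ} {ρ₁ r₁ r₀ : ℝ → ℝ} (hD : 0 < D₁)
    (h1 : Nice ρ₁ r₁) (hS : Step m j l D₁ ρ₁ r₁ r₀) (x : ℝ) (hx : 0 < x) :
    IntegrableOn (fun s => mm j l ρ₁ r₁ s / s ^ 4) (Ioi x) ∧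
    (1 / x) ^ 3 * r₀ (1 / x) ≤ D₁ * ∫ s in Ioi x, mm j l ρ₁ r₁ s / s ^ 4 := by
  have hint := B2b_int (j := j) (l := l) h1 x hx
  refine ⟨hint, ?_⟩
  have hder : ∀ s ∈ Ioi x, HasDerivWithinAt (fun s : ℝ => x / s) (-x / s ^ 2) (Ioi x) s := by
    intro s hs
    have hs0 : s ≠ 0 := (hx.trans hs).ne'
    have h := (hasDerivAt_inv hs0).const_mul x
    have h2 : HasDerivAt (fun s : ℝ => x / s) (-x / s ^ 2) s := by
      have e : -x / s ^ 2 = x * (-(s ^ 2)⁻¹) := by ring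
      rw [e]
      simpa only [div_eq_mul_inv] using h
    exact h2.hasDerivWithinAt
  have hinj : InjOn (fun s : ℝ => x / s) (Ioi x) := by
    intro a ha b hb hab
    have ha0 : (0 : ℝ) < a := hx.trans ha
    have hb0 : (0 : ℝ) < b := hx.trans hb
    have hab : x / a = x / b := hab
    rw [div_eq_div_iff ha0.ne' hb0.ne'] at hab
    have := mul_left_cancel₀ hx.ne' hab
    exact this.symm
  set g : ℝ → ℝ := fun z => z ^ 2 * mm j l ρ₁ r₁ (x / z) with hg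
  have hgf : ∀ s ∈ Ioi x, |(-x / s ^ 2)| • g (x / s) = x ^ 3 * (mm j l ρ₁ r₁ s / s ^ 4) := by
    intro s hs
    have hs0 : 0 < s := hx.trans hs
    have e1 : x / (x / s) = s := by field_simp
    have e2 : |(-x / s ^ 2)| = x / s ^ 2 := by
      rw [neg_div, abs_neg, abs_of_pos (by positivity)]
    rw [hg]
    simp only [smul_eq_mul, e1, e2]
    field_simp
  have hI : ∫ z in Ioo (0 : ℝ) 1, g z = x ^ 3 * ∫ s in Ioi x, mm j l ρ₁ r₁ s / s ^ 4 := by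
    rw [← B2b_image x hx, integral_image_eq_integral_abs_deriv_smul measurableSet_Ioi hder hinj g,
      setIntegral_congr_fun measurableSet_Ioi hgf, integral_const_mul]
  have hgi : IntegrableOn g (Ioo (0 : ℝ) 1) := by
    rw [← B2b_image x hx, integrableOn_image_iff_integrableOn_abs_deriv_smul measurableSet_Ioi hder
      hinj g, integrableOn_congr_fun hgf measurableSet_Ioi]
    exact hint.const_mul _
  obtain ⟨hi, hr⟩ := hS (1 / x) (by positivity)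
  have hfi : IntegrableOn (fun z => z ^ 2 * √(1 - z ^ 2) ^ m * mm j l ρ₁ r₁ (1 / (1 / x * z)))
      (Ioo (0 : ℝ) 1) := by
    rw [intervalIntegrable_iff_integrableOn_Ioo_of_le zero_le_one] at hi
    exact hi
  have hle : ∫ z in Ioo (0 : ℝ) 1, z ^ 2 * √(1 - z ^ 2) ^ m * mm j l ρ₁ r₁ (1 / (1 / x * z))
      ≤ ∫ z in Ioo (0 : ℝ) 1, g z := by
    apply setIntegral_mono_on hfi hgi measurableSet_Ioo
    intro z hz
    have hz0 : 0 < z := hz.1
    have e1 : 1 / (1 / x * z) = x / z := by field_simp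
    rw [e1, hg]
    have hnn : 0 ≤ mm j l ρ₁ r₁ (x / z) :=
      mm_nonneg j l (by positivity) (h1.rho_pos _ (by positivity)).le (h1.pos _ (by positivity)).le
    have hs1 : √(1 - z ^ 2) ^ m ≤ 1 := by
      apply pow_le_one₀ (Real.sqrt_nonneg _)
      rw [Real.sqrt_le_one]
      nlinarith
    have : z ^ 2 * √(1 - z ^ 2) ^ m ≤ z ^ 2 * 1 := mul_le_mul_of_nonneg_left hs1 (by positivity)
    rw [mul_one] at this
    exact mul_le_mul_of_nonneg_right this hnn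
  rw [hr, intervalIntegral.integral_of_le zero_le_one, integral_Ioc_eq_integral_Ioo]
  calc (1 / x) ^ 3 * (D₁ * ∫ z in Ioo (0 : ℝ) 1, z ^ 2 * √(1 - z ^ 2) ^ m * mm j l ρ₁ r₁ (1 / (1 / x * z)))
      = (D₁ * (1 / x) ^ 3) * ∫ z in Ioo (0 : ℝ) 1, z ^ 2 * √(1 - z ^ 2) ^ m * mm j l ρ₁ r₁ (1 / (1 / x * z)) := by
        ring
    _ ≤ (D₁ * (1 / x) ^ 3) * ∫ z in Ioo (0 : ℝ) 1, g z := mul_le_mul_of_nonneg_left hle (by positivity)
    _ = D₁ * ∫ s in Ioi x, mm j l ρ₁ r₁ s / s ^ 4 := by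
        rw [hI]
        field_simp

end Pool.Agent.RB75
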