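import Pool.Agent.RB75.B0

/-! Module RB-B2c: `F' = mm/τ³`, `∫_0^t mm(τ)/τ³ dτ = F(t)` where `F = FF j l ρ = ρ^j σ^l`, `j ≥ 1`.

Proof. `F` has derivative `mm(τ)/τ³` at every `τ > 0` (`Nice.rho_deriv`, `sg_hasDerivAt`; note
`1/√(1+τ²)^3 = (σ/τ)³`, so `σ^{l-1} σ' = σ^{l+2}/τ³`), it is nonnegative, and `F → 0` at `0+`
(`Nice.small`, `j ≥ 1`, `0 ≤ sg ≤ 1`): use the fundamental theorem for nonnegative derivatives
(`integrableOn_Ioc_deriv_of_nonneg`/`intervalIntegral.intervalIntegrable_deriv_of_nonneg` for the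
function extended by `F(0) = 0`, or integrate on `[s,t]` and let `s → 0+`). -/

namespace Pool.Agent.RB75
open MeasureTheory Set Filter Topology

theorem FF_hasDerivAt {j l : ℕ} (hj : 1 ≤ j) {ρ r : ℝ → ℝ} (h : Nice ρ r) (t : ℝ) (ht : 0 < t) :
    HasDerivAt (FF j l ρ) (mm j l ρ r t / t ^ 3) t := by
  have h1 : HasDerivAt (fun τ => ρ τ ^ j) (j * ρ t ^ (j - 1) * r t) t :=
    (h.rho_deriv t ht).pow j
  have h2 : HasDerivAt (fun τ => sg τ ^ l) (l * sg t ^ (l - 1) * (1 / √(1 + t ^ 2) ^ 3)) t :=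
    (sg_hasDerivAt t).pow l
  have h3 := h1.mul h2
  have hs : 0 < √(1 + t ^ 2) := Real.sqrt_pos.2 (by positivity)
  have key : (l : ℝ) * sg t ^ (l - 1) * (1 / √(1 + t ^ 2) ^ 3) = l * sg t ^ (l + 2) / t ^ 3 := by
    rcases Nat.eq_zero_or_pos l with rfl | hl
    · simp
    · obtain ⟨k, rfl⟩ : ∃ k, l = k + 1 := ⟨l - 1, by omega⟩
      have e : sg t ^ (k + 1 + 2) = sg t ^ k * (t / √(1 + t ^ 2)) ^ 3 := by
        rw [show k + 1 + 2 = k + 3 by ring, pow_add]; rfl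
      rw [e, Nat.add_sub_cancel]
      field_simp
  have e2 : mm j l ρ r t / t ^ 3 =
      j * ρ t ^ (j - 1) * r t * sg t ^ l + ρ t ^ j * (l * sg t ^ (l - 1) * (1 / √(1 + t ^ 2) ^ 3)) := by
    rw [key]
    unfold mm
    field_simp
  rw [e2]
  exact h3

theorem B2c {j l : ℕ} (hj : 1 ≤ j) {ρ r : ℝ → ℝ} (h : Nice ρ r) (t : ℝ) (ht : 0 < t) :
    IntervalIntegrable (fun τ => mm j l ρ r τ / τ ^ 3) volume 0 t ∧
    ∫ τ in (0 : ℝ)..t, mm j l ρ r τ / τ ^ 3 = FF j l ρ t := by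
  set G : ℝ → ℝ := fun τ => if 0 < τ then FF j l ρ τ else 0 with hG
  have hGpos : ∀ τ, 0 < τ → G =ᶠ[𝓝 τ] FF j l ρ := by
    intro τ hτ
    filter_upwards [Ioi_mem_nhds hτ] with x hx
    simp only [hG, if_pos (show 0 < x from hx)]
  have hd : ∀ τ, 0 < τ → HasDerivAt G (mm j l ρ r τ / τ ^ 3) τ := fun τ hτ =>
    (FF_hasDerivAt hj h τ hτ).congr_of_eventuallyEq (hGpos τ hτ)
  have hG0 : G 0 = 0 := by simp [hG]
  have hlim : Tendsto (FF j l ρ) (𝓝[>] 0) (𝓝 0) := by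
    have a : Tendsto (fun τ => ρ τ ^ j) (𝓝[>] 0) (𝓝 0) := by
      have := h.small.pow j
      rwa [zero_pow (by omega : j ≠ 0)] at this
    have a' : Tendsto (fun τ => ‖ρ τ ^ j‖) (𝓝[>] 0) (𝓝 0) := by
      have := a.norm
      rwa [norm_zero] at this
    refine squeeze_zero_norm' ?_ a'
    filter_upwards [self_mem_nhdsWithin] with τ hτ
    unfold FF
    rw [norm_mul]
    have b1 : ‖sg τ ^ l‖ ≤ 1 := by
      rw [norm_pow, Real.norm_eq_abs, abs_of_nonneg (sg_nonneg (le_of_lt hτ))]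
      exact pow_le_one₀ (sg_nonneg (le_of_lt hτ)) (sg_lt_one τ).le
    calc ‖ρ τ ^ j‖ * ‖sg τ ^ l‖ ≤ ‖ρ τ ^ j‖ * 1 := by gcongr
      _ = ‖ρ τ ^ j‖ := mul_one _
  have hc0 : ContinuousWithinAt G (Ici 0) 0 := by
    rw [← continuousWithinAt_Ioi_iff_Ici]
    unfold ContinuousWithinAt
    rw [hG0]
    refine hlim.congr' ?_
    filter_upwards [self_mem_nhdsWithin] with τ hτ
    simp only [hG, if_pos (show 0 < τ from hτ)]
  have hc : ContinuousOn G (Icc 0 t) := by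
    intro x hx
    rcases eq_or_lt_of_le hx.1 with h0 | h0
    · subst h0
      exact hc0.mono Icc_subset_Ici_self
    · exact (hd x h0).continuousAt.continuousWithinAt
  have hnn : ∀ x ∈ Ioo 0 t, 0 ≤ mm j l ρ r x / x ^ 3 := by
    intro x hx
    have := mm_nonneg j l hx.1 (h.rho_pos x hx.1).le (h.pos x hx.1).le (ρ := ρ) (r := r)
    have hx0 := hx.1
    positivity
  have hI : IntegrableOn (fun τ => mm j l ρ r τ / τ ^ 3) (Ioc 0 t) :=
    intervalIntegral.integrableOn_deriv_of_nonneg hc (fun x hx => hd x hx.1) hnn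
  have hII : IntervalIntegrable (fun τ => mm j l ρ r τ / τ ^ 3) volume 0 t :=
    (intervalIntegrable_iff_integrableOn_Ioc_of_le ht.le).2 hI
  refine ⟨hII, ?_⟩
  rw [intervalIntegral.integral_eq_sub_of_hasDerivAt_of_le ht.le hc (fun x hx => hd x hx.1) hII,
    hG0, sub_zero]
  simp only [hG, if_pos ht]

end Pool.Agent.RB75
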