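import Pool.Agent.RB75.B0

/-! Module RB-B2d: combination of B2a, B2b, B2c:
`ρ₁(t) ≤ A (t + F₁(t) + t ∫_t^∞ mm₁(s)/s⁴ ds)` for all `t > 0`.

Proof. `mm₀(τ) ≤ K (1 + N₀(τ))`, `N₀(τ) = τ³ r₀(τ)`, `K = j R^{j-1} + l R^j` (`ρ₀ ≤ R`, `sg ≤ 1`).
By `hb` `N₀(1/x) ≤ D₁ ∫_x^∞ g`, `g(s) = mm₁(s)/s⁴ ≥ 0`. So by `ha`
`ρ₁(t) ≤ (D₀ K/2) (t + D₁ ∫_0^t ∫_x^∞ g(s) ds dx)` and by Tonelli
`∫_0^t ∫_x^∞ g = ∫_0^∞ min(s,t) g(s) ds = ∫_0^t s g(s) ds + t ∫_t^∞ g`, where
`∫_0^t s g(s) ds = ∫_0^t mm₁(s)/s³ ds = F₁(t)` by `hc`. (Here the inner part is done by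
integration by parts on `[ε,t]` and `ε → 0`.) -/

namespace Pool.Agent.RB75
open MeasureTheory Set Filter Topology

private theorem B2d_mm_le (j l : ℕ) {ρ r : ℝ → ℝ} {R τ : ℝ} (hτ : 0 < τ) (h1 : 0 ≤ ρ τ) (h2 : 0 ≤ r τ)
    (hR : ρ τ ≤ R) :
    mm j l ρ r τ ≤ (j * R ^ (j - 1) + l * R ^ j) * (1 + τ ^ 3 * r τ) := by
  have hs0 : 0 ≤ sg τ := sg_nonneg hτ.le
  have hs1 : sg τ ≤ 1 := (sg_lt_one τ).le
  have hR0 : 0 ≤ R := h1.trans hR
  have hN : 0 ≤ τ ^ 3 * r τ := by positivity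
  have e1 : ρ τ ^ (j - 1) * sg τ ^ l ≤ R ^ (j - 1) := by
    calc ρ τ ^ (j - 1) * sg τ ^ l ≤ R ^ (j - 1) * 1 := by
          apply mul_le_mul (pow_le_pow_left₀ h1 hR _) (pow_le_one₀ hs0 hs1) (by positivity) (by positivity)
      _ = R ^ (j - 1) := by ring
  have e2 : ρ τ ^ j * sg τ ^ (l + 2) ≤ R ^ j := by
    calc ρ τ ^ j * sg τ ^ (l + 2) ≤ R ^ j * 1 := by
          apply mul_le_mul (pow_le_pow_left₀ h1 hR _) (pow_le_one₀ hs0 hs1) (by positivity) (by positivity)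
      _ = R ^ j := by ring
  have e3 : (j : ℝ) * (ρ τ ^ (j - 1) * sg τ ^ l) * (τ ^ 3 * r τ) ≤ j * R ^ (j - 1) * (τ ^ 3 * r τ) := by
    apply mul_le_mul_of_nonneg_right _ hN
    exact mul_le_mul_of_nonneg_left e1 (by positivity)
  have e4 : (l : ℝ) * (ρ τ ^ j * sg τ ^ (l + 2)) ≤ l * R ^ j :=
    mul_le_mul_of_nonneg_left e2 (by positivity)
  have e5 : 0 ≤ (j : ℝ) * R ^ (j - 1) := by positivity
  have e6 : 0 ≤ (l : ℝ) * R ^ j * (τ ^ 3 * r τ) := by positivity
  unfold mm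
  nlinarith [e3, e4, e5, e6]

private theorem B2d_mm_cont (j l : ℕ) {ρ r : ℝ → ℝ} (h : Nice ρ r) :
    ContinuousOn (mm j l ρ r) (Ioi 0) := by
  unfold mm
  have hsg : ContinuousOn sg (Ioi 0) := sg_continuous.continuousOn
  have hr := h.rho_cont
  have hc := h.cont
  fun_prop

/-- Integration by parts for the tail integral. -/
private theorem B2d_tail {g : ℝ → ℝ} (hg : ContinuousOn g (Ioi 0)) (hg0 : ∀ s, 0 < s → 0 ≤ g s)
    {t : ℝ} (ht : 0 < t) (hgi : IntegrableOn g (Ioi t))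
    (hsg : IntervalIntegrable (fun s => s * g s) volume 0 t) {a : ℝ} (ha : 0 < a) (hat : a ≤ t) :
    IntervalIntegrable (fun x => ∫ s in Ioi x, g s) volume a t ∧
    ∫ x in a..t, (∫ s in Ioi x, g s) ≤ (∫ s in (0 : ℝ)..t, s * g s) + t * ∫ s in Ioi t, g s := by
  have hgI : ∀ x y : ℝ, 0 < x → 0 < y → IntervalIntegrable g volume x y := by
    intro x y hx hy
    apply ContinuousOn.intervalIntegrable
    apply hg.mono
    intro z hz
    rcases le_total x y with hxy | hxy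
    · rw [uIcc_of_le hxy] at hz; exact lt_of_lt_of_le hx hz.1
    · rw [uIcc_of_ge hxy] at hz; exact lt_of_lt_of_le hy hz.1
  have hG : ∀ x, 0 < x → x ≤ t → (∫ s in Ioi x, g s) = (∫ s in x..t, g s) + ∫ s in Ioi t, g s := by
    intro x hx hxt
    rw [intervalIntegral.integral_of_le hxt, ← setIntegral_union Ioc_disjoint_Ioi_same measurableSet_Ioi
      ((hgI x t hx ht).1) hgi, Ioc_union_Ioi_eq_Ioi hxt]
  set T := ∫ s in Ioi t, g s with hT
  have hcongr : EqOn (fun x => ∫ s in Ioi x, g s) (fun x => (∫ s in x..t, g s) + T) (uIcc a t) := by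
    intro x hx
    rw [uIcc_of_le hat] at hx
    exact hG x (ha.trans_le hx.1) hx.2
  have hcontH : ContinuousOn (fun x => (∫ s in x..t, g s) + T) (Icc a t) := by
    apply ContinuousOn.add _ continuousOn_const
    have h1 : ContinuousOn (fun x => ∫ s in t..x, g s) (uIcc t a) := by
      apply intervalIntegral.continuousOn_primitive_interval
      have := (hgI t a ht ha)
      rw [uIcc_comm, uIcc_of_le hat]
      exact (intervalIntegrable_iff_integrableOn_Icc_of_le hat).1 (hgI a t ha ht)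
    rw [uIcc_comm, uIcc_of_le hat] at h1
    have h2 : (fun x => ∫ s in x..t, g s) = fun x => - ∫ s in t..x, g s := by
      funext x; rw [intervalIntegral.integral_symm]
    rw [h2]
    exact h1.neg
  have hHint : IntervalIntegrable (fun x => (∫ s in x..t, g s) + T) volume a t := by
    apply ContinuousOn.intervalIntegrable
    rw [uIcc_of_le hat]; exact hcontH
  have hint : IntervalIntegrable (fun x => ∫ s in Ioi x, g s) volume a t := by
    apply hHint.congr_uIoo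
    intro x hx
    rw [uIoo_of_le hat] at hx
    exact (hcongr (by rw [uIcc_of_le hat]; exact Ioo_subset_Icc_self hx)).symm
  refine ⟨hint, ?_⟩
  have hsg' : IntervalIntegrable (fun s => s * g s) volume a t := by
    apply hsg.mono_set
    rw [uIcc_of_le hat, uIcc_of_le ht.le]
    exact Icc_subset_Icc ha.le le_rfl
  have hftc : ∫ x in a..t, (((∫ s in x..t, g s) + T) - x * g x)
      = t * ((∫ s in t..t, g s) + T) - a * ((∫ s in a..t, g s) + T) := by
    apply intervalIntegral.integral_eq_sub_of_hasDerivAt_of_le hat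
      (f := fun x => x * ((∫ s in x..t, g s) + T))
    · exact continuousOn_id.mul hcontH
    · intro x hx
      have hx0 : 0 < x := ha.trans hx.1
      have hcx : ContinuousAt g x := hg.continuousAt (Ioi_mem_nhds hx0)
      have hm : StronglyMeasurableAtFilter g (𝓝 x) volume :=
        ContinuousOn.stronglyMeasurableAtFilter isOpen_Ioi hg x hx0
      have hd := intervalIntegral.integral_hasDerivAt_left (hgI x t hx0 ht) hm hcx
      have hd2 : HasDerivAt (fun u => (∫ s in u..t, g s) + T) (-g x) x := by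
        simpa using hd.add_const T
      have h5 := (hasDerivAt_id x).mul hd2
      have h6 : (∫ s in x..t, g s) + T - x * g x = 1 * ((∫ s in x..t, g s) + T) + id x * (-g x) := by
        simp only [id]; ring
      rw [h6]
      exact h5
    · exact hHint.sub hsg'
  rw [intervalIntegral.integral_sub hHint hsg'] at hftc
  have h1 : ∫ x in a..t, (∫ s in Ioi x, g s) = ∫ x in a..t, ((∫ s in x..t, g s) + T) :=
    intervalIntegral.integral_congr hcongr
  have h2 : ∫ s in a..t, s * g s ≤ ∫ s in (0 : ℝ)..t, s * g s := by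
    have hsg0 : IntervalIntegrable (fun s => s * g s) volume 0 a := by
      apply hsg.mono_set
      rw [uIcc_of_le ha.le, uIcc_of_le ht.le]
      exact Icc_subset_Icc le_rfl hat
    rw [← intervalIntegral.integral_add_adjacent_intervals hsg0 hsg']
    have : 0 ≤ ∫ s in (0 : ℝ)..a, s * g s := by
      apply intervalIntegral.integral_nonneg_of_ae_restrict ha.le
      rw [← restrict_Ioo_eq_restrict_Icc]
      rw [Filter.EventuallyLE, ae_restrict_iff' measurableSet_Ioo]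
      refine Filter.Eventually.of_forall ?_
      intro x hx
      exact mul_nonneg hx.1.le (hg0 x hx.1)
    linarith
  have h3 : 0 ≤ (∫ s in a..t, g s) + T := by
    rw [← hG a ha hat]
    apply setIntegral_nonneg measurableSet_Ioi
    intro x hx
    exact hg0 x (ha.trans hx)
  rw [intervalIntegral.integral_same, zero_add] at hftc
  rw [h1]
  nlinarith [mul_nonneg ha.le h3]

theorem B2d {j l : ℕ} {D₀ D₁ : ℝ} {ρ₀ r₀ ρ₁ r₁ : ℝ → ℝ} (hD0 : 0 < D₀) (hD1 : 0 < D₁)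
    (h0 : Nice ρ₀ r₀) (h1 : Nice ρ₁ r₁)
    (ha : ∀ t, 0 < t → IntervalIntegrable (fun x => mm j l ρ₀ r₀ (1 / x)) volume 0 t ∧
      ρ₁ t ≤ D₀ / 2 * ∫ x in (0 : ℝ)..t, mm j l ρ₀ r₀ (1 / x))
    (hb : ∀ x, 0 < x → IntegrableOn (fun s => mm j l ρ₁ r₁ s / s ^ 4) (Ioi x) ∧
      (1 / x) ^ 3 * r₀ (1 / x) ≤ D₁ * ∫ s in Ioi x, mm j l ρ₁ r₁ s / s ^ 4)
    (hc : ∀ t, 0 < t → IntervalIntegrable (fun τ => mm j l ρ₁ r₁ τ / τ ^ 3) volume 0 t ∧
      ∫ τ in (0 : ℝ)..t, mm j l ρ₁ r₁ τ / τ ^ 3 = FF j l ρ₁ t) :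
    ∃ A, 0 < A ∧ ∀ t, 0 < t →
      ρ₁ t ≤ A * (t + FF j l ρ₁ t + t * ∫ s in Ioi t, mm j l ρ₁ r₁ s / s ^ 4) := by
  obtain ⟨R, hR, hRb⟩ := h0.bdd
  set K : ℝ := j * R ^ (j - 1) + l * R ^ j with hK
  have hK0 : 0 ≤ K := by positivity
  refine ⟨D₀ / 2 * (K + 1) * (1 + D₁), by positivity, ?_⟩
  intro t ht
  set g : ℝ → ℝ := fun s => mm j l ρ₁ r₁ s / s ^ 4 with hgdef
  have hg : ContinuousOn g (Ioi 0) := by
    apply (B2d_mm_cont j l h1).div (by fun_prop)
    intro x hx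
    have : (0 : ℝ) < x := hx
    positivity
  have hg0 : ∀ s, 0 < s → 0 ≤ g s := by
    intro s hs
    have := mm_nonneg j l hs (h1.rho_pos s hs).le (h1.pos s hs).le
    positivity
  have hgs : ∀ s ∈ uIoo (0 : ℝ) t, mm j l ρ₁ r₁ s / s ^ 3 = s * g s := by
    intro s hs
    rw [uIoo_of_le ht.le] at hs
    have : s ≠ 0 := hs.1.ne'
    simp only [hgdef]
    field_simp
  have hsgI : IntervalIntegrable (fun s => s * g s) volume 0 t := by
    apply (hc t ht).1.congr_uIoo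
    intro s hs
    exact hgs s hs
  have hF : ∫ s in (0 : ℝ)..t, s * g s = FF j l ρ₁ t := by
    rw [← (hc t ht).2]
    apply intervalIntegral.integral_congr_uIoo
    intro s hs
    exact (hgs s hs).symm
  have hF0 : 0 ≤ FF j l ρ₁ t := by
    unfold FF
    have a1 := (h1.rho_pos t ht).le
    have a2 := sg_nonneg ht.le
    positivity
  set T := ∫ s in Ioi t, g s with hT
  have hT0 : 0 ≤ T := by
    apply setIntegral_nonneg measurableSet_Ioi
    intro x hx
    exact hg0 x (ht.trans hx)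
  have hstep : ∀ a, 0 < a → a ≤ t → ∫ x in a..t, mm j l ρ₀ r₀ (1 / x)
      ≤ K * (t + D₁ * (FF j l ρ₁ t + t * T)) := by
    intro a ha0 hat
    obtain ⟨i1, i2⟩ := B2d_tail hg hg0 ht (hb t ht).1 hsgI ha0 hat
    have hmI : IntervalIntegrable (fun x => mm j l ρ₀ r₀ (1 / x)) volume a t := by
      apply (ha t ht).1.mono_set
      rw [uIcc_of_le hat, uIcc_of_le ht.le]
      exact Icc_subset_Icc ha0.le le_rfl
    have i3 : ∫ x in a..t, mm j l ρ₀ r₀ (1 / x) ≤ ∫ x in a..t, (K * 1 + K * D₁ * ∫ s in Ioi x, g s) := by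
      apply intervalIntegral.integral_mono_on hat hmI
      · exact (intervalIntegrable_const).add (i1.const_mul _)
      · intro x hx
        have hx0 : 0 < x := ha0.trans_le hx.1
        have hx1 : 0 < 1 / x := by positivity
        have e1 := B2d_mm_le j l hx1 (h0.rho_pos _ hx1).le (h0.pos _ hx1).le (hRb _ hx1)
        have e2 := (hb x hx0).2
        have e3 : K * (1 + (1 / x) ^ 3 * r₀ (1 / x)) ≤ K * (1 + D₁ * ∫ s in Ioi x, g s) :=
          mul_le_mul_of_nonneg_left (by linarith) hK0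
        calc mm j l ρ₀ r₀ (1 / x) ≤ K * (1 + (1 / x) ^ 3 * r₀ (1 / x)) := e1
          _ ≤ K * (1 + D₁ * ∫ s in Ioi x, g s) := e3
          _ = K * 1 + K * D₁ * ∫ s in Ioi x, g s := by ring
    have i4 : ∫ x in a..t, (K * 1 + K * D₁ * ∫ s in Ioi x, g s)
        = (t - a) * (K * 1) + K * D₁ * ∫ x in a..t, ∫ s in Ioi x, g s := by
      rw [intervalIntegral.integral_add intervalIntegrable_const (i1.const_mul _),
        intervalIntegral.integral_const, intervalIntegral.integral_const_mul]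
      simp
    rw [i4] at i3
    have i5 : K * D₁ * ∫ x in a..t, ∫ s in Ioi x, g s
        ≤ K * D₁ * ((∫ s in (0 : ℝ)..t, s * g s) + t * T) :=
      mul_le_mul_of_nonneg_left i2 (by positivity)
    rw [hF] at i5
    nlinarith [mul_nonneg ha0.le hK0]
  have hlim : ∫ x in (0 : ℝ)..t, mm j l ρ₀ r₀ (1 / x) ≤ K * (t + D₁ * (FF j l ρ₁ t + t * T)) := by
    have hI := (ha t ht).1
    have hc1 : ContinuousOn (fun a => ∫ x in t..a, mm j l ρ₀ r₀ (1 / x)) (uIcc t 0) := by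
      apply intervalIntegral.continuousOn_primitive_interval
      rw [uIcc_comm, uIcc_of_le ht.le]
      exact (intervalIntegrable_iff_integrableOn_Icc_of_le ht.le).1 hI
    rw [uIcc_comm, uIcc_of_le ht.le] at hc1
    have hc2 : ContinuousWithinAt (fun a => ∫ x in a..t, mm j l ρ₀ r₀ (1 / x)) (Icc 0 t) 0 := by
      have h2 : (fun a => ∫ x in a..t, mm j l ρ₀ r₀ (1 / x))
          = fun a => - ∫ x in t..a, mm j l ρ₀ r₀ (1 / x) := by
        funext x; rw [intervalIntegral.integral_symm]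
      rw [h2]
      exact (hc1 0 ⟨le_rfl, ht.le⟩).neg
    have hc3 : Tendsto (fun a => ∫ x in a..t, mm j l ρ₀ r₀ (1 / x)) (𝓝[Ioc 0 t] 0)
        (𝓝 (∫ x in (0 : ℝ)..t, mm j l ρ₀ r₀ (1 / x))) :=
      hc2.tendsto.mono_left (nhdsWithin_mono _ Ioc_subset_Icc_self)
    have hne : (𝓝[Ioc 0 t] (0 : ℝ)).NeBot := by
      rw [nhdsWithin_Ioc_eq_nhdsGT ht]
      infer_instance
    apply le_of_tendsto hc3
    filter_upwards [self_mem_nhdsWithin] with a ha'
    exact hstep a ha'.1 ha'.2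
  have hfin := (ha t ht).2
  have hP : 0 ≤ t * T := by positivity
  have s1 : D₀ / 2 * ∫ x in (0 : ℝ)..t, mm j l ρ₀ r₀ (1 / x)
      ≤ D₀ / 2 * (K * (t + D₁ * (FF j l ρ₁ t + t * T))) :=
    mul_le_mul_of_nonneg_left hlim (by positivity)
  have s2 : K * (t + D₁ * (FF j l ρ₁ t + t * T))
      ≤ (K + 1) * ((1 + D₁) * (t + FF j l ρ₁ t + t * T)) := by
    apply mul_le_mul (by linarith) _ (by positivity) (by positivity)
    nlinarith [mul_nonneg hD1.le ht.le]
  have s3 : D₀ / 2 * (K * (t + D₁ * (FF j l ρ₁ t + t * T)))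
      ≤ D₀ / 2 * ((K + 1) * ((1 + D₁) * (t + FF j l ρ₁ t + t * T))) :=
    mul_le_mul_of_nonneg_left s2 (by positivity)
  calc ρ₁ t ≤ D₀ / 2 * ∫ x in (0 : ℝ)..t, mm j l ρ₀ r₀ (1 / x) := hfin
    _ ≤ _ := s1
    _ ≤ _ := s3
    _ = D₀ / 2 * (K + 1) * (1 + D₁) * (t + FF j l ρ₁ t + t * T) := by ring

end Pool.Agent.RB75
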