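import Pool.Agent.RB75.B0

/-! Module RB-B2e: from B2d to `ρ₁(t)/t ≤ A' + (1/4) ∫_t^δ ρ₁(s)/s² ds` for `0 < t ≤ δ`.

Proof. Let `ε > 0` be small (fixed later) and `δ ≤ 1` with `ρ₁(s) ≤ ε ≤ 1` for `0 < s ≤ δ` (`Nice.small`).
`FF j l ρ₁ t ≤ ρ₁(t)^j ≤ ε^{j-1} ρ₁(t) ≤ ε ρ₁(t)` for `t ≤ δ` (`j ≥ 2`, `0 ≤ sg ≤ 1`).
For `s ≤ δ`: `mm₁(s)/s⁴ ≤ (j+l) ρ₁(s)^j / s²`, since `s r₁(s) ≤ ρ₁(s)`, `sg s ≤ 1` and `sg s ≤ s`:
`j ρ^{j-1} σ^l s³ r/s⁴ ≤ j ρ^j/s²` and `l ρ^j σ^{l+2}/s⁴ ≤ l ρ^j/s²`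
(`σ^{l+2} ≤ σ² ≤ s²`). Hence `mm₁(s)/s⁴ ≤ (j+l) ε ρ₁(s)/s²` for `s ≤ δ`. So
`∫_t^∞ mm₁/s⁴ ≤ C_δ + (j+l) ε ∫_t^δ ρ₁(s)/s² ds` with `C_δ = ∫_δ^∞ mm₁/s⁴`.
Divide the inequality of B2d by `t`: `ρ₁/t ≤ A (1 + ε ρ₁/t + C_δ + (j+l) ε ∫_t^δ ρ₁/s²)`. Choose `ε` with
`A ε ≤ 1/2` and `2 A (j+l) ε ≤ 1/4`; `A' = 2 A (1 + C_δ)`. -/

namespace Pool.Agent.RB75
open MeasureTheory Set Filter Topology

theorem B2e {j l : ℕ} (hj : 2 ≤ j) {ρ₁ r₁ : ℝ → ℝ} (h1 : Nice ρ₁ r₁)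
    (hint : ∀ x, 0 < x → IntegrableOn (fun s => mm j l ρ₁ r₁ s / s ^ 4) (Ioi x))
    {A : ℝ} (hA : 0 < A) (hd : ∀ t, 0 < t →
      ρ₁ t ≤ A * (t + FF j l ρ₁ t + t * ∫ s in Ioi t, mm j l ρ₁ r₁ s / s ^ 4)) :
    ∃ δ A', 0 < δ ∧ δ ≤ 1 ∧ 0 < A' ∧ ∀ t, 0 < t → t ≤ δ →
      ρ₁ t / t ≤ A' + 1 / 4 * ∫ s in t..δ, ρ₁ s / s ^ 2 := by
  have hjl : (0 : ℝ) ≤ (j : ℝ) + l := by positivity
  obtain ⟨ε, hε0, hε1, hεA, hεB⟩ : ∃ ε : ℝ, 0 < ε ∧ ε ≤ 1 ∧ A * ε ≤ 1 / 2 ∧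
      2 * A * ((j : ℝ) + l) * ε ≤ 1 / 4 := by
    refine ⟨min 1 (min (1 / (2 * A)) (1 / (8 * A * ((j : ℝ) + l + 1)))), ?_, min_le_left _ _, ?_, ?_⟩
    · positivity
    · calc A * min 1 (min (1 / (2 * A)) (1 / (8 * A * ((j : ℝ) + l + 1)))) ≤ A * (1 / (2 * A)) :=
            mul_le_mul_of_nonneg_left ((min_le_right _ _).trans (min_le_left _ _)) hA.le
        _ = 1 / 2 := by field_simp
    · calc 2 * A * ((j : ℝ) + l) * min 1 (min (1 / (2 * A)) (1 / (8 * A * ((j : ℝ) + l + 1))))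
          ≤ 2 * A * ((j : ℝ) + l) * (1 / (8 * A * ((j : ℝ) + l + 1))) :=
            mul_le_mul_of_nonneg_left ((min_le_right _ _).trans (min_le_right _ _)) (by positivity)
        _ ≤ 2 * A * ((j : ℝ) + l + 1) * (1 / (8 * A * ((j : ℝ) + l + 1))) := by
            refine mul_le_mul_of_nonneg_right ?_ (by positivity)
            exact mul_le_mul_of_nonneg_left (by linarith) (by positivity)
        _ = 1 / 4 := by
            field_simp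
            norm_num
  have hsm : ∀ᶠ s in 𝓝[>] (0 : ℝ), ρ₁ s < ε := h1.small.eventually (gt_mem_nhds hε0)
  obtain ⟨δ₀, hδ₀, hsm'⟩ := mem_nhdsGT_iff_exists_Ioo_subset.1 hsm
  have hδ₀' : (0 : ℝ) < δ₀ := hδ₀
  set δ : ℝ := min 1 (δ₀ / 2) with hδdef
  have hδ0 : 0 < δ := by positivity
  have hδ1 : δ ≤ 1 := min_le_left _ _
  have hδ2 : δ < δ₀ := lt_of_le_of_lt (min_le_right _ _) (by linarith)
  have hρε : ∀ s, 0 < s → s ≤ δ → ρ₁ s ≤ ε := fun s hs hsd =>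
    (hsm' ⟨hs, lt_of_le_of_lt hsd hδ2⟩ : ρ₁ s < ε).le
  have hpow : ∀ s, 0 < s → s ≤ δ → ρ₁ s ^ j ≤ ε * ρ₁ s := by
    intro s hs hsd
    have h0 := (h1.rho_pos s hs).le
    have h2 := hρε s hs hsd
    calc ρ₁ s ^ j ≤ ρ₁ s ^ 2 := pow_le_pow_of_le_one h0 (h2.trans hε1) hj
      _ = ρ₁ s * ρ₁ s := by ring
      _ ≤ ε * ρ₁ s := mul_le_mul_of_nonneg_right h2 h0
  have hmm : ∀ s, 0 < s → s ≤ δ →
      mm j l ρ₁ r₁ s / s ^ 4 ≤ ((j : ℝ) + l) * ε * (ρ₁ s / s ^ 2) := by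
    intro s hs hsd
    have h0 := (h1.rho_pos s hs).le
    have hr := (h1.pos s hs).le
    have hsr := h1.tr_le s hs
    have hg0 := sg_nonneg hs.le
    have hg1 := (sg_lt_one s).le
    have hgs := sg_le_self hs.le
    have hgl : sg s ^ l ≤ 1 := pow_le_one₀ hg0 hg1
    have hgl2 : sg s ^ (l + 2) ≤ s ^ 2 := by
      rw [pow_add]
      calc sg s ^ l * sg s ^ 2 ≤ 1 * s ^ 2 := by gcongr
        _ = s ^ 2 := one_mul _
    have hgl0 : 0 ≤ sg s ^ l := pow_nonneg hg0 l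
    have hb1 : sg s ^ l * (s ^ 3 * r₁ s) ≤ s ^ 2 * ρ₁ s := by
      have h3 : 0 ≤ s ^ 3 * r₁ s := by positivity
      calc sg s ^ l * (s ^ 3 * r₁ s) ≤ 1 * (s ^ 3 * r₁ s) := mul_le_mul_of_nonneg_right hgl h3
        _ = s ^ 2 * (s * r₁ s) := by ring
        _ ≤ s ^ 2 * ρ₁ s := mul_le_mul_of_nonneg_left hsr (by positivity)
    have hjp : ρ₁ s ^ (j - 1) * ρ₁ s = ρ₁ s ^ j := by
      rw [← pow_succ]
      congr 1
      omega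
    have hm : mm j l ρ₁ r₁ s ≤ ((j : ℝ) + l) * ρ₁ s ^ j * s ^ 2 := by
      unfold mm
      have e1 : (j : ℝ) * ρ₁ s ^ (j - 1) * sg s ^ l * (s ^ 3 * r₁ s) ≤
          (j : ℝ) * ρ₁ s ^ j * s ^ 2 := by
        calc (j : ℝ) * ρ₁ s ^ (j - 1) * sg s ^ l * (s ^ 3 * r₁ s)
            = ((j : ℝ) * ρ₁ s ^ (j - 1)) * (sg s ^ l * (s ^ 3 * r₁ s)) := by ring
          _ ≤ ((j : ℝ) * ρ₁ s ^ (j - 1)) * (s ^ 2 * ρ₁ s) :=
              mul_le_mul_of_nonneg_left hb1 (by positivity)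
          _ = (j : ℝ) * (ρ₁ s ^ (j - 1) * ρ₁ s) * s ^ 2 := by ring
          _ = (j : ℝ) * ρ₁ s ^ j * s ^ 2 := by rw [hjp]
      have e2 : (l : ℝ) * ρ₁ s ^ j * sg s ^ (l + 2) ≤ (l : ℝ) * ρ₁ s ^ j * s ^ 2 :=
        mul_le_mul_of_nonneg_left hgl2 (by positivity)
      calc _ ≤ (j : ℝ) * ρ₁ s ^ j * s ^ 2 + (l : ℝ) * ρ₁ s ^ j * s ^ 2 := add_le_add e1 e2
        _ = ((j : ℝ) + l) * ρ₁ s ^ j * s ^ 2 := by ring
    have hm2 : mm j l ρ₁ r₁ s ≤ ((j : ℝ) + l) * (ε * ρ₁ s) * s ^ 2 := by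
      refine hm.trans ?_
      have := hpow s hs hsd
      gcongr
    rw [div_le_iff₀ (by positivity)]
    calc mm j l ρ₁ r₁ s ≤ ((j : ℝ) + l) * (ε * ρ₁ s) * s ^ 2 := hm2
      _ = ((j : ℝ) + l) * ε * (ρ₁ s / s ^ 2) * s ^ 4 := by
          field_simp
  set C : ℝ := ∫ s in Ioi δ, mm j l ρ₁ r₁ s / s ^ 4 with hC
  refine ⟨δ, 2 * A * (1 + |C|), hδ0, hδ1, by positivity, ?_⟩
  intro t ht htd
  have hρt := h1.rho_pos t ht
  have hcont : ContinuousOn (fun s => ρ₁ s / s ^ 2) (Icc t δ) := by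
    apply ContinuousOn.div
    · exact h1.rho_cont.mono (fun x hx => lt_of_lt_of_le ht hx.1)
    · exact (continuous_pow 2).continuousOn
    · intro x hx
      have : 0 < x := lt_of_lt_of_le ht hx.1
      positivity
  have hII : IntervalIntegrable (fun s => ρ₁ s / s ^ 2) volume t δ :=
    (hcont.intervalIntegrable_of_Icc htd)
  set I : ℝ := ∫ s in t..δ, ρ₁ s / s ^ 2 with hI
  have hI0 : 0 ≤ I := by
    apply intervalIntegral.integral_nonneg htd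
    intro u hu
    have hu0 : 0 < u := lt_of_lt_of_le ht hu.1
    have := h1.rho_pos u hu0
    positivity
  have hsplit : ∫ s in Ioi t, mm j l ρ₁ r₁ s / s ^ 4 =
      (∫ s in t..δ, mm j l ρ₁ r₁ s / s ^ 4) + C := by
    rw [intervalIntegral.integral_of_le htd, hC, ← setIntegral_union (by
      rw [Set.disjoint_left]
      intro x hx hx'
      exact absurd hx.2 (not_le.2 hx')) measurableSet_Ioi
      ((hint t ht).mono_set Ioc_subset_Ioi_self) (hint δ hδ0), Ioc_union_Ioi_eq_Ioi htd]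
  have hle : ∫ s in t..δ, mm j l ρ₁ r₁ s / s ^ 4 ≤ ((j : ℝ) + l) * ε * I := by
    rw [hI, ← intervalIntegral.integral_const_mul]
    apply intervalIntegral.integral_mono_on htd
    · rw [intervalIntegrable_iff_integrableOn_Ioc_of_le htd]
      exact (hint t ht).mono_set Ioc_subset_Ioi_self
    · exact hII.const_mul _
    · intro s hs
      exact hmm s (lt_of_lt_of_le ht hs.1) hs.2
  have hFF : FF j l ρ₁ t ≤ ε * ρ₁ t := by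
    unfold FF
    have hg0 := sg_nonneg ht.le
    have hg1 := (sg_lt_one t).le
    calc ρ₁ t ^ j * sg t ^ l ≤ ρ₁ t ^ j * 1 :=
          mul_le_mul_of_nonneg_left (pow_le_one₀ hg0 hg1) (by positivity)
      _ = ρ₁ t ^ j := mul_one _
      _ ≤ ε * ρ₁ t := hpow t ht htd
  have hmain := hd t ht
  rw [hsplit] at hmain
  have hCabs : C ≤ |C| := le_abs_self C
  have key : ρ₁ t ≤ A * (t + ε * ρ₁ t + t * (((j : ℝ) + l) * ε * I + |C|)) := by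
    refine hmain.trans ?_
    gcongr
  have hx : ρ₁ t / t ≤ A * (1 + ε * (ρ₁ t / t) + (((j : ℝ) + l) * ε * I + |C|)) := by
    rw [div_le_iff₀ ht]
    refine key.trans (le_of_eq ?_)
    field_simp
  set X : ℝ := ρ₁ t / t with hX
  have hX0 : 0 < X := by positivity
  have h5 : A * ε * X ≤ 1 / 2 * X := mul_le_mul_of_nonneg_right hεA hX0.le
  have h6 : 2 * A * ((j : ℝ) + l) * ε * I ≤ 1 / 4 * I := mul_le_mul_of_nonneg_right hεB hI0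
  nlinarith [hx, h5, h6]

end Pool.Agent.RB75
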