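import Mathlib

/-! Module RB-B2f (abstract Gronwall-type lemma).

Proof. Fix `t₀ ∈ (0,δ)`, let `M₀ = sup_{t ∈ [t₀,δ]} √t · y(t) < ∞` (`y(t) ≤ K/t ≤ K/t₀`). For `t ∈ [t₀,δ]`
`√t y(t) ≤ A √δ + (1/4) √t ∫_t^δ (y(s)/s) ds ≤ A √δ + (1/4) √t M₀ ∫_t^δ s^{-3/2} ds ≤ A √δ + M₀/2`.
So `M₀ ≤ 2 A √δ` for every `t₀`. Here `y(s)/s = ρ(s)/s²`. -/

namespace Pool.Agent.RB75
open MeasureTheory Set Filter Topology

/-- antiderivative of `s ^ (-3/2)` -/
lemma B2f_deriv (M : ℝ) {s : ℝ} (hs : 0 < s) :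
    HasDerivAt (fun x : ℝ => -(2 * M) * (√x)⁻¹) (M * √s / s ^ 2) s := by
  have h1 : HasDerivAt (fun x : ℝ => √x) (1 / (2 * √s)) s := Real.hasDerivAt_sqrt hs.ne'
  have hq : 0 < √s := Real.sqrt_pos.mpr hs
  have h2 := (h1.inv hq.ne').const_mul (-(2 * M))
  refine h2.congr_deriv ?_
  have hss : s = √s ^ 2 := (Real.sq_sqrt hs.le).symm
  have e : M * √s / s ^ 2 = M * √s / (√s ^ 2) ^ 2 := by rw [← hss]
  rw [e]
  field_simp

theorem B2f {ρ : ℝ → ℝ} {δ A K : ℝ} (hδ : 0 < δ) (hA : 0 < A) (hc : ContinuousOn ρ (Ioi 0))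
    (h0 : ∀ t, 0 < t → 0 ≤ ρ t) (hK : ∀ t, 0 < t → ρ t ≤ K)
    (h : ∀ t, 0 < t → t ≤ δ → ρ t / t ≤ A + 1 / 4 * ∫ s in t..δ, ρ s / s ^ 2) :
    ∀ t, 0 < t → t ≤ δ → ρ t ≤ 2 * A * √δ * √t := by
  intro t₀ ht₀ ht₀δ
  -- the maximum of `ρ t / √t` on `[t₀, δ]`
  have hsub : Icc t₀ δ ⊆ Ioi (0 : ℝ) := fun x hx => lt_of_lt_of_le ht₀ hx.1
  have hg : ContinuousOn (fun t => ρ t / √t) (Icc t₀ δ) := by
    refine ContinuousOn.div (hc.mono hsub) Real.continuous_sqrt.continuousOn ?_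
    intro x hx
    exact (Real.sqrt_pos.mpr (hsub hx)).ne'
  obtain ⟨m, hm, hmax⟩ := isCompact_Icc.exists_isMaxOn (nonempty_Icc.mpr ht₀δ) hg
  set M : ℝ := ρ m / √m with hM
  have hm0 : 0 < m := hsub hm
  have hqm : 0 < √m := Real.sqrt_pos.mpr hm0
  have hM0 : 0 ≤ M := div_nonneg (h0 m hm0) hqm.le
  have hle : ∀ s ∈ Icc m δ, ρ s / s ^ 2 ≤ M * √s / s ^ 2 := by
    intro s hs
    have hs' : s ∈ Icc t₀ δ := ⟨hm.1.trans hs.1, hs.2⟩
    have hs0 : 0 < s := hsub hs'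
    have hqs : 0 < √s := Real.sqrt_pos.mpr hs0
    have h1 : ρ s / √s ≤ M := hmax hs'
    have h2 : ρ s ≤ M * √s := by rwa [div_le_iff₀ hqs] at h1
    gcongr
  have hcont1 : ContinuousOn (fun s => ρ s / s ^ 2) (uIcc m δ) := by
    rw [uIcc_of_le hm.2]
    refine ContinuousOn.div (hc.mono ?_) (by fun_prop) ?_
    · intro x hx
      exact lt_of_lt_of_le hm0 hx.1
    · intro x hx
      have : 0 < x := lt_of_lt_of_le hm0 hx.1
      positivity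
  have hcont2 : ContinuousOn (fun s => M * √s / s ^ 2) (uIcc m δ) := by
    rw [uIcc_of_le hm.2]
    refine ContinuousOn.div (by fun_prop) (by fun_prop) ?_
    intro x hx
    have : 0 < x := lt_of_lt_of_le hm0 hx.1
    positivity
  have hint : (∫ s in m..δ, ρ s / s ^ 2) ≤ ∫ s in m..δ, M * √s / s ^ 2 :=
    intervalIntegral.integral_mono_on hm.2 hcont1.intervalIntegrable hcont2.intervalIntegrable hle
  have hval : (∫ s in m..δ, M * √s / s ^ 2) = -(2 * M) * (√δ)⁻¹ - -(2 * M) * (√m)⁻¹ := by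
    refine intervalIntegral.integral_eq_sub_of_hasDerivAt (f := fun x : ℝ => -(2 * M) * (√x)⁻¹)
      ?_ hcont2.intervalIntegrable
    intro x hx
    rw [uIcc_of_le hm.2] at hx
    exact B2f_deriv M (lt_of_lt_of_le hm0 hx.1)
  have hmain := h m hm0 hm.2
  have hqδ : 0 < √δ := Real.sqrt_pos.mpr hδ
  have hmm : √m * √m = m := Real.mul_self_sqrt hm0.le
  have h3 : ρ m / m = M / √m := by
    rw [hM, div_div, hmm]
  have h4 : M / √m ≤ A + 1 / 4 * (2 * M / √m) := by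
    have h5 : (∫ s in m..δ, ρ s / s ^ 2) ≤ 2 * M / √m := by
      refine hint.trans ?_
      rw [hval]
      have h6 : 0 ≤ 2 * M * (√δ)⁻¹ := by positivity
      have h7 : 2 * M / √m = 2 * M * (√m)⁻¹ := div_eq_mul_inv _ _
      rw [h7]
      linarith
    rw [← h3]
    linarith
  have h8 : M ≤ A * √m + M / 2 := by
    have h9 := mul_le_mul_of_nonneg_right h4 hqm.le
    have e1 : M / √m * √m = M := div_mul_cancel₀ M hqm.ne'
    have e2 : (A + 1 / 4 * (2 * M / √m)) * √m = A * √m + M / 2 := by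
      field_simp
      ring
    rwa [e1, e2] at h9
  have h10 : √m ≤ √δ := Real.sqrt_le_sqrt hm.2
  have h11 : M ≤ 2 * A * √δ := by
    have : A * √m ≤ A * √δ := mul_le_mul_of_nonneg_left h10 hA.le
    linarith
  have hq0 : 0 < √t₀ := Real.sqrt_pos.mpr ht₀
  have h12 : ρ t₀ / √t₀ ≤ M := hmax ⟨le_rfl, ht₀δ⟩
  rw [div_le_iff₀ hq0] at h12
  exact h12.trans (mul_le_mul_of_nonneg_right h11 hq0.le)

end Pool.Agent.RB75
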