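import Pool.Agent.RB75.B0

/-! Module RB-B2g: from `ρ₁(t) ≤ M √t` near `0` to: `N₀` bounded and `r₁` bounded.

Proof. (i) For `s ≤ δ ≤ 1`: `mm₁(s)/s⁴ ≤ (j+l) ρ₁(s)^j σ(s)^l / s²` (see B2e: `s r₁ ≤ ρ₁`, `σ ≤ s`; keep
`σ^l ≤ s^l`), so `≤ (j+l) M^j s^{j/2 + l - 2} ≤ (j+l) M^j s^{-1/2}`, because `j/2 + l ≥ (j+l)/2 ≥ 3/2`
and `s ≤ 1`. (In Lean: `ρ₁(s)^j σ^l ≤ M^j √s^j √s^{2l} = M^j √s^{j+2l} ≤ M^j √s^3`.) Hence
`∫_x^∞ mm₁/s⁴ ≤ ∫_δ^∞ mm₁/s⁴ + (j+l) M^j ∫_0^δ s^{-1/2} ds`, bounded uniformly in `x`, and `hb` bounds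
`N₀(1/x)` for every `x > 0`.
(ii) `mm₀(τ) ≤ j R^{j-1} N₀(τ) + l R^j` is then bounded by some `M'`, and
`r₁(t) = D₀ ∫_0^1 z² √(1-z²)^m mm₀(1/(tz)) dz ≤ D₀ M'`. -/

namespace Pool.Agent.RB75
open MeasureTheory Set Filter Topology

theorem B2g {m j l : ℕ} (hj : 2 ≤ j) (hn : 3 ≤ j + l) {D₀ D₁ : ℝ} {ρ₀ r₀ ρ₁ r₁ : ℝ → ℝ}
    (hD0 : 0 < D₀) (hD1 : 0 < D₁)
    (h0 : Nice ρ₀ r₀) (h1 : Nice ρ₁ r₁) (hS : Step m j l D₀ ρ₀ r₀ r₁)
    (hb : ∀ x, 0 < x → IntegrableOn (fun s => mm j l ρ₁ r₁ s / s ^ 4) (Ioi x) ∧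
      (1 / x) ^ 3 * r₀ (1 / x) ≤ D₁ * ∫ s in Ioi x, mm j l ρ₁ r₁ s / s ^ 4)
    {δ M : ℝ} (hδ : 0 < δ) (hδ1 : δ ≤ 1) (hM : ∀ t, 0 < t → t ≤ δ → ρ₁ t ≤ M * √t) :
    ∃ B, 0 < B ∧ (∀ t, 0 < t → t ^ 3 * r₀ t ≤ B) ∧ (∀ t, 0 < t → r₁ t ≤ B) := by
  have hjp : ∀ y : ℝ, y ^ (j - 1) * y = y ^ j := by
    intro y
    rw [← pow_succ]
    congr 1
    omega
  have hMpos : 0 < M := by
    have h2 := hM δ hδ le_rfl
    have h3 := h1.rho_pos δ hδ
    have h4 : 0 < √δ := Real.sqrt_pos.2 hδ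
    by_contra hneg
    push Not at hneg
    have : M * √δ ≤ 0 := mul_nonpos_of_nonpos_of_nonneg hneg h4.le
    linarith
  set K : ℝ := ((j : ℝ) + l) * M ^ j with hK
  have hK0 : 0 ≤ K := by positivity
  -- pointwise bound near zero
  have hmm : ∀ s, 0 < s → s ≤ δ → mm j l ρ₁ r₁ s / s ^ 4 ≤ K * (1 / √s) := by
    intro s hs hsd
    have hs1 : s ≤ 1 := hsd.trans hδ1
    have hq0 : 0 < √s := Real.sqrt_pos.2 hs
    have hq1 : √s ≤ 1 := by exact Real.sqrt_le_one.mpr hs1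
    have hqs : √s ^ 2 = s := Real.sq_sqrt hs.le
    have hρ0 := (h1.rho_pos s hs).le
    have hr := (h1.pos s hs).le
    have hsr := h1.tr_le s hs
    have hg0 := sg_nonneg hs.le
    have hgs := sg_le_self hs.le
    have hgl0 : 0 ≤ sg s ^ l := pow_nonneg hg0 l
    have hρ : ρ₁ s ^ j ≤ M ^ j * √s ^ j := by
      rw [← mul_pow]
      exact pow_le_pow_left₀ hρ0 (hM s hs hsd) j
    have hσ : sg s ^ l ≤ √s ^ (2 * l) := by
      rw [pow_mul, hqs]
      exact pow_le_pow_left₀ hg0 hgs l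
    have hprod : ρ₁ s ^ j * sg s ^ l ≤ M ^ j * √s ^ 3 := by
      calc ρ₁ s ^ j * sg s ^ l ≤ (M ^ j * √s ^ j) * √s ^ (2 * l) := by gcongr
        _ = M ^ j * √s ^ (j + 2 * l) := by rw [pow_add]; ring
        _ ≤ M ^ j * √s ^ 3 :=
            mul_le_mul_of_nonneg_left (pow_le_pow_of_le_one hq0.le hq1 (by omega)) (by positivity)
    have hm : mm j l ρ₁ r₁ s ≤ ((j : ℝ) + l) * (ρ₁ s ^ j * sg s ^ l) * s ^ 2 := by
      unfold mm
      have e1 : (j : ℝ) * ρ₁ s ^ (j - 1) * sg s ^ l * (s ^ 3 * r₁ s) ≤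
          (j : ℝ) * (ρ₁ s ^ j * sg s ^ l) * s ^ 2 := by
        have hc : 0 ≤ (j : ℝ) * ρ₁ s ^ (j - 1) * sg s ^ l * s ^ 2 := by positivity
        calc (j : ℝ) * ρ₁ s ^ (j - 1) * sg s ^ l * (s ^ 3 * r₁ s)
            = ((j : ℝ) * ρ₁ s ^ (j - 1) * sg s ^ l * s ^ 2) * (s * r₁ s) := by ring
          _ ≤ ((j : ℝ) * ρ₁ s ^ (j - 1) * sg s ^ l * s ^ 2) * ρ₁ s :=
              mul_le_mul_of_nonneg_left hsr hc
          _ = (j : ℝ) * ((ρ₁ s ^ (j - 1) * ρ₁ s) * sg s ^ l) * s ^ 2 := by ring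
          _ = (j : ℝ) * (ρ₁ s ^ j * sg s ^ l) * s ^ 2 := by rw [hjp]
      have e2 : (l : ℝ) * ρ₁ s ^ j * sg s ^ (l + 2) ≤ (l : ℝ) * (ρ₁ s ^ j * sg s ^ l) * s ^ 2 := by
        have hg2 : sg s ^ 2 ≤ s ^ 2 := pow_le_pow_left₀ hg0 hgs 2
        have hc : 0 ≤ (l : ℝ) * (ρ₁ s ^ j * sg s ^ l) := by positivity
        calc (l : ℝ) * ρ₁ s ^ j * sg s ^ (l + 2) = (l : ℝ) * (ρ₁ s ^ j * sg s ^ l) * sg s ^ 2 := by
              rw [pow_add]; ring
          _ ≤ (l : ℝ) * (ρ₁ s ^ j * sg s ^ l) * s ^ 2 := mul_le_mul_of_nonneg_left hg2 hc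
      calc _ ≤ (j : ℝ) * (ρ₁ s ^ j * sg s ^ l) * s ^ 2 + (l : ℝ) * (ρ₁ s ^ j * sg s ^ l) * s ^ 2 :=
            add_le_add e1 e2
        _ = ((j : ℝ) + l) * (ρ₁ s ^ j * sg s ^ l) * s ^ 2 := by ring
    have hm2 : mm j l ρ₁ r₁ s ≤ ((j : ℝ) + l) * (M ^ j * √s ^ 3) * s ^ 2 := by
      refine hm.trans ?_
      have hjl : (0 : ℝ) ≤ (j : ℝ) + l := by positivity
      exact mul_le_mul_of_nonneg_right (mul_le_mul_of_nonneg_left hprod hjl) (by positivity)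
    rw [div_le_iff₀ (by positivity)]
    refine hm2.trans (le_of_eq ?_)
    rw [hK]
    have hs4 : s ^ 4 = √s ^ 4 * s ^ 2 := by
      rw [show √s ^ 4 = (√s ^ 2) ^ 2 by ring, hqs]; ring
    rw [hs4]
    field_simp
  set C : ℝ := ∫ s in Ioi δ, mm j l ρ₁ r₁ s / s ^ 4 with hC
  have hnonneg : ∀ s, 0 < s → 0 ≤ mm j l ρ₁ r₁ s / s ^ 4 := by
    intro s hs
    have := mm_nonneg j l hs (h1.rho_pos s hs).le (h1.pos s hs).le
    positivity
  have hC0 : 0 ≤ C := by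
    rw [hC]
    apply setIntegral_nonneg measurableSet_Ioi
    intro s hs
    exact hnonneg s (hδ.trans hs)
  -- uniform bound of the integral
  have hint : ∀ x, 0 < x → ∫ s in Ioi x, mm j l ρ₁ r₁ s / s ^ 4 ≤ C + 2 * K := by
    intro x hx
    rcases le_total δ x with hle | hle
    · have h2 : ∫ s in Ioi x, mm j l ρ₁ r₁ s / s ^ 4 ≤ C := by
        rw [hC]
        apply setIntegral_mono_set (hb δ hδ).1
        · rw [EventuallyLE, ae_restrict_iff' measurableSet_Ioi]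
          exact Eventually.of_forall fun s hs => hnonneg s (hδ.trans hs)
        · exact LE.le.eventuallyLE (Ioi_subset_Ioi hle)
      linarith
    · have hsplit : ∫ s in Ioi x, mm j l ρ₁ r₁ s / s ^ 4 =
          (∫ s in x..δ, mm j l ρ₁ r₁ s / s ^ 4) + C := by
        rw [intervalIntegral.integral_of_le hle, hC, ← setIntegral_union (by
          rw [Set.disjoint_left]
          intro y hy hy'
          exact absurd hy.2 (not_le.2 hy')) measurableSet_Ioi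
          ((hb x hx).1.mono_set Ioc_subset_Ioi_self) (hb δ hδ).1, Ioc_union_Ioi_eq_Ioi hle]
      have hcont : ContinuousOn (fun s : ℝ => 1 / √s) (Icc x δ) := by
        apply ContinuousOn.div continuousOn_const Real.continuous_sqrt.continuousOn
        intro y hy
        have : 0 < y := lt_of_lt_of_le hx hy.1
        exact (Real.sqrt_pos.2 this).ne'
      have hII : IntervalIntegrable (fun s : ℝ => 1 / √s) volume x δ :=
        hcont.intervalIntegrable_of_Icc hle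
      have hFTC : ∫ s in x..δ, 1 / √s = 2 * √δ - 2 * √x := by
        apply intervalIntegral.integral_eq_sub_of_hasDerivAt
        · intro y hy
          rw [uIcc_of_le hle] at hy
          have hy0 : 0 < y := lt_of_lt_of_le hx hy.1
          have h3 := (Real.hasDerivAt_sqrt hy0.ne').const_mul 2
          have e : (2 : ℝ) * (1 / (2 * √y)) = 1 / √y := by
            have := (Real.sqrt_pos.2 hy0).ne'
            field_simp
          rw [e] at h3
          exact h3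
        · exact hII
      have hle2 : ∫ s in x..δ, mm j l ρ₁ r₁ s / s ^ 4 ≤ K * ∫ s in x..δ, 1 / √s := by
        rw [← intervalIntegral.integral_const_mul]
        apply intervalIntegral.integral_mono_on hle
        · rw [intervalIntegrable_iff_integrableOn_Ioc_of_le hle]
          exact (hb x hx).1.mono_set Ioc_subset_Ioi_self
        · exact hII.const_mul _
        · intro s hs
          exact hmm s (lt_of_lt_of_le hx hs.1) hs.2
      rw [hsplit]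
      have hsd : √δ ≤ 1 := by exact Real.sqrt_le_one.mpr hδ1
      have hsx : 0 ≤ √x := Real.sqrt_nonneg x
      have h5 : K * ∫ s in x..δ, 1 / √s ≤ K * 2 := by
        rw [hFTC]
        apply mul_le_mul_of_nonneg_left _ hK0
        linarith
      linarith
  set N : ℝ := D₁ * (C + 2 * K) with hN
  have hN0 : 0 ≤ N := by positivity
  have hNle : ∀ t, 0 < t → t ^ 3 * r₀ t ≤ N := by
    intro t ht
    have h2 := (hb (1 / t) (by positivity)).2
    rw [one_div_one_div] at h2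
    refine h2.trans ?_
    exact mul_le_mul_of_nonneg_left (hint (1 / t) (by positivity)) hD1.le
  obtain ⟨R, hR0, hR⟩ := h0.bdd
  set M' : ℝ := (j : ℝ) * R ^ (j - 1) * N + l * R ^ j with hM'
  have hM'0 : 0 ≤ M' := by positivity
  have hmm0 : ∀ τ, 0 < τ → mm j l ρ₀ r₀ τ ≤ M' := by
    intro τ hτ
    have hρ0 := (h0.rho_pos τ hτ).le
    have hρR := hR τ hτ
    have hg0 := sg_nonneg hτ.le
    have hg1 := (sg_lt_one τ).le
    have hr := (h0.pos τ hτ).le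
    have hNt := hNle τ hτ
    have hNt0 : 0 ≤ τ ^ 3 * r₀ τ := by positivity
    unfold mm
    rw [hM']
    apply add_le_add
    · calc (j : ℝ) * ρ₀ τ ^ (j - 1) * sg τ ^ l * (τ ^ 3 * r₀ τ)
          ≤ (j : ℝ) * R ^ (j - 1) * 1 * N := by
            have : sg τ ^ l ≤ 1 := pow_le_one₀ hg0 hg1
            gcongr
        _ = (j : ℝ) * R ^ (j - 1) * N := by ring
    · calc (l : ℝ) * ρ₀ τ ^ j * sg τ ^ (l + 2) ≤ (l : ℝ) * R ^ j * 1 := by
            have : sg τ ^ (l + 2) ≤ 1 := pow_le_one₀ hg0 hg1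
            gcongr
        _ = (l : ℝ) * R ^ j := by ring
  have hr1 : ∀ t, 0 < t → r₁ t ≤ D₀ * M' := by
    intro t ht
    obtain ⟨hi, he⟩ := hS t ht
    rw [he]
    apply mul_le_mul_of_nonneg_left _ hD0.le
    have h2 : ∫ z in (0 : ℝ)..1, z ^ 2 * √(1 - z ^ 2) ^ m * mm j l ρ₀ r₀ (1 / (t * z)) ≤
        ∫ _z in (0 : ℝ)..1, M' := by
      apply intervalIntegral.integral_mono_on zero_le_one hi intervalIntegrable_const
      intro z hz
      rcases eq_or_lt_of_le hz.1 with h3 | h3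
      · rw [← h3]
        simpa using hM'0
      · have hz2 : z ^ 2 ≤ 1 := pow_le_one₀ hz.1 hz.2
        have hq : √(1 - z ^ 2) ≤ 1 := by
          rw [Real.sqrt_le_one]
          nlinarith [sq_nonneg z]
        have hqm : √(1 - z ^ 2) ^ m ≤ 1 := pow_le_one₀ (Real.sqrt_nonneg _) hq
        have hτ : 0 < 1 / (t * z) := by positivity
        have hmn := mm_nonneg j l hτ (h0.rho_pos _ hτ).le (h0.pos _ hτ).le
        have hA : z ^ 2 * √(1 - z ^ 2) ^ m ≤ 1 :=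
          mul_le_one₀ hz2 (by positivity) hqm
        calc z ^ 2 * √(1 - z ^ 2) ^ m * mm j l ρ₀ r₀ (1 / (t * z))
            ≤ 1 * mm j l ρ₀ r₀ (1 / (t * z)) := mul_le_mul_of_nonneg_right hA hmn
          _ = mm j l ρ₀ r₀ (1 / (t * z)) := one_mul _
          _ ≤ M' := hmm0 _ hτ
    refine h2.trans (le_of_eq ?_)
    simp
  refine ⟨N + D₀ * M' + 1, by positivity, fun t ht => ?_, fun t ht => ?_⟩
  · have h2 := hNle t ht
    have h3 : 0 ≤ D₀ * M' := by positivity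
    linarith
  · have h2 := hr1 t ht
    linarith

end Pool.Agent.RB75
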