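import Pool.Agent.RB75.B1
import Pool.Agent.RB75.B2a
import Pool.Agent.RB75.B2b
import Pool.Agent.RB75.B2c
import Pool.Agent.RB75.B2d
import Pool.Agent.RB75.B2e
import Pool.Agent.RB75.B2f
import Pool.Agent.RB75.B2g

/-! Assembly of B2: both profiles of a pair satisfy `Bdd`. -/

namespace Pool.Agent.RB75
open MeasureTheory Set Filter Topology

theorem Pair.half_bound {m j l : ℕ} {D₀ D₁ : ℝ} {ρ₀ r₀ ρ₁ r₁ : ℝ → ℝ}
    (h : Pair m j l D₀ D₁ ρ₀ r₀ ρ₁ r₁) :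
    ∃ B, 0 < B ∧ (∀ t, 0 < t → t ^ 3 * r₀ t ≤ B) ∧ (∀ t, 0 < t → r₁ t ≤ B) := by
  have n0 := h.nice0
  have n1 := h.nice1
  have hb := B2b h.hD1 n1 h.step1
  have hc := B2c (l := l) (le_trans (by norm_num) h.hj) n1
  obtain ⟨A, hA, hd⟩ := B2d h.hD0 h.hD1 n0 n1 (B2a h.hD0 n0 n1 h.step0) hb hc
  obtain ⟨δ, A', hδ, hδ1, hA', he⟩ := B2e h.hj n1 (fun x hx => (hb x hx).1) hA hd
  obtain ⟨R, hR, hRb⟩ := n1.bdd
  have hf := B2f hδ hA' n1.rho_cont (fun t ht => (n1.rho_pos t ht).le) hRb he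
  have hjl : 3 ≤ j + l := by have := h.hn; omega
  exact B2g h.hj hjl h.hD0 h.hD1 n0 n1 h.step0 hb hδ hδ1 hf

theorem Pair.bdd {m j l : ℕ} {D₀ D₁ : ℝ} {ρ₀ r₀ ρ₁ r₁ : ℝ → ℝ}
    (h : Pair m j l D₀ D₁ ρ₀ r₀ ρ₁ r₁) : ∃ B, Bdd ρ₀ r₀ B ∧ Bdd ρ₁ r₁ B := by
  obtain ⟨B1, hB1, a1, b1⟩ := h.half_bound
  obtain ⟨B2, hB2, a2, b2⟩ := h.symm.half_bound
  obtain ⟨R0, hR0, hRb0⟩ := h.nice0.bdd
  obtain ⟨R1, hR1, hRb1⟩ := h.nice1.bdd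
  have key : ∀ (ρ r : ℝ → ℝ) (B : ℝ), Nice ρ r → (∀ t, 0 < t → r t ≤ B) → ∀ t, 0 < t → ρ t ≤ B * t := by
    intro ρ r B hn hr t ht
    rw [hn.rho t ht]
    calc ∫ s in (0 : ℝ)..t, r s ≤ ∫ s in (0 : ℝ)..t, B := by
          apply intervalIntegral.integral_mono_on_of_le_Ioo ht.le (hn.int t ht) (by simp)
          intro x hx
          exact hr x hx.1
      _ = B * t := by simp [mul_comm]
  refine ⟨B1 + B2 + R0 + R1, ⟨by positivity, ?_, ?_, ?_, ?_⟩, ⟨by positivity, ?_, ?_, ?_, ?_⟩⟩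
  · intro t ht; linarith [b2 t ht]
  · intro t ht; linarith [a1 t ht]
  · intro t ht; linarith [hRb0 t ht]
  · apply key ρ₀ r₀ _ h.nice0
    intro t ht; linarith [b2 t ht]
  · intro t ht; linarith [b1 t ht]
  · intro t ht; linarith [a2 t ht]
  · intro t ht; linarith [hRb1 t ht]
  · apply key ρ₁ r₁ _ h.nice1
    intro t ht; linarith [b1 t ht]

end Pool.Agent.RB75
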