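import Pool.Agent.RB75.B0

/-! Module RB-B3: bounds for `mm`.

Proof. `ρ ≤ B`, `ρ(τ) ≤ B τ`, `τ³ r ≤ B`, `r ≤ B`, `sg ≤ 1`, `sg τ ≤ τ`. So `mm ≤ j B^{j-1} B + l B^j` and
`mm ≤ j (Bτ)^{j-1} τ^l τ³ B + l (Bτ)^j τ^{l+2} = (j + l) B^j τ^{j+l+2}`. -/

namespace Pool.Agent.RB75
open MeasureTheory Set Filter Topology

theorem B3 {j l : ℕ} (hj : 1 ≤ j) {ρ r : ℝ → ℝ} {B : ℝ} (h : Nice ρ r) (hB : Bdd ρ r B) :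
    ∃ M, 0 < M ∧ ∀ τ, 0 < τ → mm j l ρ r τ ≤ M ∧ mm j l ρ r τ ≤ M * τ ^ (j + l + 2) := by
  obtain ⟨i, rfl⟩ : ∃ i, j = i + 1 := ⟨j - 1, by omega⟩
  have hB0 := hB.Bpos
  refine ⟨((i + 1 : ℕ) + l) * B ^ (i + 1), by positivity, fun τ hτ => ?_⟩
  have r0 : 0 ≤ r τ := (h.pos τ hτ).le
  have p0 : 0 ≤ ρ τ := (h.rho_pos τ hτ).le
  have s0 : 0 ≤ sg τ := (sg_pos hτ).le
  have s1 : sg τ ≤ 1 := (sg_lt_one τ).le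
  have s2 : sg τ ≤ τ := sg_le_self hτ.le
  have p1 := hB.rho_le τ hτ
  have p2 := hB.rho_lin τ hτ
  have r1 := hB.N_le τ hτ
  have r2 := hB.r_le τ hτ
  have t3 : 0 ≤ τ ^ 3 * r τ := by positivity
  unfold mm
  rw [Nat.add_sub_cancel]
  constructor
  · calc ((i + 1 : ℕ) : ℝ) * ρ τ ^ i * sg τ ^ l * (τ ^ 3 * r τ) +
          l * ρ τ ^ (i + 1) * sg τ ^ (l + 2)
        ≤ ((i + 1 : ℕ) : ℝ) * B ^ i * 1 ^ l * B + l * B ^ (i + 1) * 1 ^ (l + 2) := by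
          gcongr
      _ = (((i + 1 : ℕ) : ℝ) + l) * B ^ (i + 1) := by
          rw [one_pow, one_pow]; ring
  · calc ((i + 1 : ℕ) : ℝ) * ρ τ ^ i * sg τ ^ l * (τ ^ 3 * r τ) +
          l * ρ τ ^ (i + 1) * sg τ ^ (l + 2)
        ≤ ((i + 1 : ℕ) : ℝ) * (B * τ) ^ i * τ ^ l * (τ ^ 3 * B) +
          l * (B * τ) ^ (i + 1) * τ ^ (l + 2) := by
          gcongr
      _ = (((i + 1 : ℕ) : ℝ) + l) * B ^ (i + 1) * τ ^ (i + 1 + l + 2) := by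
          ring

end Pool.Agent.RB75
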