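import Pool.Agent.RB75.B0

/-! Module RB-B4 (property P1): `r₀(s) - r₀(t) ≥ c (t² - s²)` for `0 < s < t ≤ T`.

Proof. First: for `0 < x₁ < x₂ ≤ T`, with `τᵢ = 1/xᵢ` (`τ₁ > τ₂ ≥ 1/T`),
`mm₁(τ₁) - mm₁(τ₂) ≥ j σ(τ₂)^l N₁(τ₂) (ρ₁(τ₁)^{j-1} - ρ₁(τ₂)^{j-1})` (all factors nondecreasing, the second
summand of `mm` too), `ρ₁(τ₁)^{j-1} - ρ₁(τ₂)^{j-1} ≥ ρ₁(τ₂)^{j-2} (ρ₁(τ₁) - ρ₁(τ₂))` (`j ≥ 2`), and
`ρ₁(τ₁) - ρ₁(τ₂) = ∫_{τ₂}^{τ₁} N₁(s) s^{-3} ds ≥ N₁(τ₂) (τ₂^{-2} - τ₁^{-2})/2 = N₁(τ₂) (x₂² - x₁²)/2`.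
With `a = 1/T` all lower factors are at least their values at `a`: the difference is
`≥ c' (x₂² - x₁²)`, `c' = j σ(a)^l N₁(a)^2 ρ₁(a)^{j-2} / 2 > 0`.
Then `r₀(s) - r₀(t) = D₁ ∫_0^1 z² √(1-z²)^m (mm₁(1/(s z)) - mm₁(1/(t z))) dz ≥ D₁ c' (t² - s²) ∫_0^1 z⁴ √(1-z²)^m dz`. -/

namespace Pool.Agent.RB75
open MeasureTheory Set Filter Topology

private theorem b4_rho {ρ r : ℝ → ℝ} (h : Nice ρ r) {x y : ℝ} (hx : 0 < x) (hxy : x ≤ y) :
    (x ^ 3 * r x) * ((1 / x) ^ 2 - (1 / y) ^ 2) / 2 ≤ ρ y - ρ x := by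
  obtain ⟨N, hN⟩ : ∃ N, N = x ^ 3 * r x := ⟨_, rfl⟩
  rw [← hN]
  have hmono : MonotoneOn (fun s => ρ s + N / 2 * (1 / s) ^ 2) (Icc x y) := by
    have hd : ∀ s ∈ Icc x y, HasDerivAt (fun s => ρ s + N / 2 * (1 / s) ^ 2)
        (r s + N / 2 * (2 * (1 / s) * (-1 / s ^ 2))) s := by
      intro s hs
      have hs0 : 0 < s := lt_of_lt_of_le hx hs.1
      have h1 : HasDerivAt (fun s : ℝ => 1 / s) (-1 / s ^ 2) s := by
        have h0 := (hasDerivAt_inv hs0.ne')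
        have e0 : (-1 / s ^ 2 : ℝ) = -(s ^ 2)⁻¹ := by rw [neg_div, one_div]
        rw [e0]
        simpa only [one_div] using h0
      have h2 := (h1.pow 2).const_mul (N / 2)
      have h3 := (h.rho_deriv s hs0).add h2
      have e : r s + N / 2 * (2 * (1 / s) * (-1 / s ^ 2)) =
          r s + N / 2 * (((2 : ℕ) : ℝ) * (1 / s) ^ (2 - 1) * (-1 / s ^ 2)) := by norm_num
      rw [e]
      exact h3
    refine monotoneOn_of_hasDerivWithinAt_nonneg (convex_Icc x y)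
      (fun s hs => (hd s hs).continuousAt.continuousWithinAt)
      (fun s hs => (hd s (interior_subset hs)).hasDerivWithinAt) ?_
    intro s hs
    have hs' : s ∈ Icc x y := interior_subset hs
    have hs0 : 0 < s := lt_of_lt_of_le hx hs'.1
    have h1 : N ≤ s ^ 3 * r s := by
      rw [hN]
      exact h.N_mono hx hs0 hs'.1
    have h2 : r s + N / 2 * (2 * (1 / s) * (-1 / s ^ 2)) = (s ^ 3 * r s - N) / s ^ 3 := by
      field_simp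
      ring
    rw [h2]
    exact div_nonneg (by linarith) (by positivity)
  have := hmono (left_mem_Icc.2 hxy) (right_mem_Icc.2 hxy) hxy
  simp only at this
  linarith

private theorem b4_mm {j l : ℕ} (hj : 2 ≤ j) {ρ r : ℝ → ℝ} (h : Nice ρ r) {a x y : ℝ} (ha : 0 < a)
    (hax : a ≤ x) (hxy : x ≤ y) :
    (j * sg a ^ l * (a ^ 3 * r a) ^ 2 * ρ a ^ (j - 2) / 2) * ((1 / x) ^ 2 - (1 / y) ^ 2) ≤
      mm j l ρ r y - mm j l ρ r x := by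
  have hx : 0 < x := lt_of_lt_of_le ha hax
  have hy : 0 < y := lt_of_lt_of_le hx hxy
  have hNa : 0 < a ^ 3 * r a := mul_pos (pow_pos ha 3) (h.pos a ha)
  have hNx : a ^ 3 * r a ≤ x ^ 3 * r x := h.N_mono ha hx hax
  have hNy : x ^ 3 * r x ≤ y ^ 3 * r y := h.N_mono hx hy hxy
  have hsa : 0 < sg a := sg_pos ha
  have hsx : sg a ≤ sg x := sg_strictMono.monotone hax
  have hsy : sg x ≤ sg y := sg_strictMono.monotone hxy
  have hra : 0 < ρ a := h.rho_pos a ha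
  have hrx : ρ a ≤ ρ x := h.rho_mono ha hx hax
  have hry : ρ x ≤ ρ y := h.rho_mono hx hy hxy
  have hrho := b4_rho h hx hxy
  obtain ⟨k, rfl⟩ : ∃ k, j = k + 2 := ⟨j - 2, by omega⟩
  have e1 : k + 2 - 1 = k + 1 := by omega
  have e2 : k + 2 - 2 = k := by omega
  unfold mm
  rw [e1, e2]
  have hq : 0 ≤ (1 / x) ^ 2 - (1 / y) ^ 2 := by
    have h1 : 1 / y ≤ 1 / x := one_div_le_one_div_of_le hx hxy
    have h2 : 0 ≤ 1 / y := by positivity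
    nlinarith
  obtain ⟨Q, hQ⟩ : ∃ Q, Q = (1 / x) ^ 2 - (1 / y) ^ 2 := ⟨_, rfl⟩
  rw [← hQ] at hrho hq ⊢
  -- the second summand is monotone
  have hsec : ((l : ℕ) : ℝ) * ρ x ^ (k + 2) * sg x ^ (l + 2) ≤ (l : ℝ) * ρ y ^ (k + 2) * sg y ^ (l + 2) := by
    have k1 : ρ x ^ (k + 2) ≤ ρ y ^ (k + 2) := pow_le_pow_left₀ (by linarith) hry _
    have k2 : sg x ^ (l + 2) ≤ sg y ^ (l + 2) := pow_le_pow_left₀ (by linarith) hsy _
    have k4 : 0 ≤ ρ y ^ (k + 2) := pow_nonneg (by linarith) _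
    have k5 : 0 ≤ sg x ^ (l + 2) := pow_nonneg (by linarith) _
    exact mul_le_mul (mul_le_mul_of_nonneg_left k1 (by positivity)) k2 k5
      (mul_nonneg (by positivity) k4)
  -- the first summand
  have g1 : ρ a ^ k ≤ ρ x ^ k := pow_le_pow_left₀ hra.le hrx _
  have g2 : ρ x ^ k ≤ ρ y ^ k := pow_le_pow_left₀ (by linarith) hry _
  have g3 : sg a ^ l ≤ sg x ^ l := pow_le_pow_left₀ hsa.le hsx _
  have g4 : sg x ^ l ≤ sg y ^ l := pow_le_pow_left₀ (by linarith) hsy _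
  have p1 : 0 < ρ a ^ k := pow_pos hra _
  have p2 : 0 < sg a ^ l := pow_pos hsa _
  have f1 : ρ x ^ (k + 1) * (sg x ^ l * (x ^ 3 * r x)) + ρ a ^ k * ((a ^ 3 * r a) * Q / 2) *
      (sg a ^ l * (a ^ 3 * r a)) ≤ ρ y ^ (k + 1) * (sg y ^ l * (y ^ 3 * r y)) := by
    have q1 : sg x ^ l * (x ^ 3 * r x) ≤ sg y ^ l * (y ^ 3 * r y) :=
      mul_le_mul g4 hNy (by linarith) (by linarith)
    have q2 : sg a ^ l * (a ^ 3 * r a) ≤ sg x ^ l * (x ^ 3 * r x) :=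
      mul_le_mul g3 hNx hNa.le (by linarith)
    have q3 : (a ^ 3 * r a) * Q / 2 ≤ ρ y - ρ x := by
      refine le_trans ?_ hrho
      have := mul_le_mul_of_nonneg_right hNx hq
      linarith
    have q4 : ρ x ^ (k + 1) + ρ a ^ k * ((a ^ 3 * r a) * Q / 2) ≤ ρ y ^ (k + 1) := by
      have : ρ y ^ (k + 1) - ρ x ^ (k + 1) = (ρ y ^ k - ρ x ^ k) * ρ y + ρ x ^ k * (ρ y - ρ x) := by
        ring
      have s1 : 0 ≤ (ρ y ^ k - ρ x ^ k) * ρ y := mul_nonneg (by linarith) (by linarith)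
      have s2 : ρ a ^ k * ((a ^ 3 * r a) * Q / 2) ≤ ρ x ^ k * (ρ y - ρ x) :=
        mul_le_mul g1 q3 (by positivity) (by linarith)
      linarith
    have q5 : 0 ≤ ρ a ^ k * ((a ^ 3 * r a) * Q / 2) := by positivity
    have q6 : 0 < sg a ^ l * (a ^ 3 * r a) := by positivity
    have q7 : 0 ≤ ρ y ^ (k + 1) := pow_nonneg (by linarith) _
    calc ρ x ^ (k + 1) * (sg x ^ l * (x ^ 3 * r x)) + ρ a ^ k * ((a ^ 3 * r a) * Q / 2) *
          (sg a ^ l * (a ^ 3 * r a))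
        ≤ ρ x ^ (k + 1) * (sg x ^ l * (x ^ 3 * r x)) + ρ a ^ k * ((a ^ 3 * r a) * Q / 2) *
          (sg x ^ l * (x ^ 3 * r x)) := by
          have := mul_le_mul_of_nonneg_left q2 q5
          linarith
      _ = (ρ x ^ (k + 1) + ρ a ^ k * ((a ^ 3 * r a) * Q / 2)) * (sg x ^ l * (x ^ 3 * r x)) := by ring
      _ ≤ ρ y ^ (k + 1) * (sg y ^ l * (y ^ 3 * r y)) :=
          mul_le_mul q4 q1 (by linarith) q7
  have hj0 : (0 : ℝ) ≤ ((k + 2 : ℕ) : ℝ) := Nat.cast_nonneg _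
  have f2 := mul_le_mul_of_nonneg_left f1 hj0
  nlinarith [f2, hsec]

theorem B4 {m j l : ℕ} (hj : 2 ≤ j) {D₁ : ℝ} {ρ₁ r₁ r₀ : ℝ → ℝ} (hD : 0 < D₁)
    (h1 : Nice ρ₁ r₁) (hS : Step m j l D₁ ρ₁ r₁ r₀) (T : ℝ) (hT : 0 < T) :
    ∃ c, 0 < c ∧ ∀ s t, 0 < s → s < t → t ≤ T → c * (t ^ 2 - s ^ 2) ≤ r₀ s - r₀ t := by
  obtain ⟨a, ha⟩ : ∃ a : ℝ, a = 1 / T := ⟨_, rfl⟩
  have ha0 : 0 < a := by rw [ha]; positivity
  obtain ⟨c', hc'⟩ : ∃ c', c' = (j * sg a ^ l * (a ^ 3 * r₁ a) ^ 2 * ρ₁ a ^ (j - 2) / 2) := ⟨_, rfl⟩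
  have hc0 : 0 < c' := by
    have h2 : 0 < r₁ a := h1.pos a ha0
    have h3 : 0 < ρ₁ a := h1.rho_pos a ha0
    have h4 : 0 < sg a := sg_pos ha0
    have h5 : (0 : ℝ) < j := by exact_mod_cast (by omega : 0 < j)
    rw [hc']
    positivity
  obtain ⟨K, hK⟩ : ∃ K, K = ∫ z in (0 : ℝ)..1, z ^ 4 * √(1 - z ^ 2) ^ m := ⟨_, rfl⟩
  have hcont : Continuous (fun z : ℝ => z ^ 4 * √(1 - z ^ 2) ^ m) := by fun_prop
  have hK0 : 0 < K := by
    rw [hK]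
    refine intervalIntegral.intervalIntegral_pos_of_pos_on (hcont.intervalIntegrable 0 1) ?_ one_pos
    intro z hz
    have h2 : 0 < 1 - z ^ 2 := by nlinarith [hz.1, hz.2]
    have h3 : 0 < √(1 - z ^ 2) := Real.sqrt_pos.2 h2
    have h4 : 0 < z := hz.1
    positivity
  refine ⟨D₁ * (c' * K), by positivity, ?_⟩
  intro s t hs hst htT
  have ht : 0 < t := hs.trans hst
  obtain ⟨is, es⟩ := hS s hs
  obtain ⟨it, et⟩ := hS t ht
  rw [es, et, ← mul_sub, ← intervalIntegral.integral_sub is it]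
  have hlow : c' * K * (t ^ 2 - s ^ 2) = ∫ z in (0 : ℝ)..1, (c' * (t ^ 2 - s ^ 2)) *
      (z ^ 4 * √(1 - z ^ 2) ^ m) := by
    rw [intervalIntegral.integral_const_mul, ← hK]
    ring
  rw [mul_assoc, hlow]
  refine mul_le_mul_of_nonneg_left ?_ hD.le
  refine intervalIntegral.integral_mono_on_of_le_Ioo zero_le_one
    ((hcont.const_mul _).intervalIntegrable 0 1) (is.sub it) ?_
  intro z hz
  have hz0 : 0 < z := hz.1
  have hz1 : z < 1 := hz.2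
  have htz : 0 < t * z := by positivity
  have hsz : 0 < s * z := by positivity
  have hax : a ≤ 1 / (t * z) := by
    rw [ha]
    refine one_div_le_one_div_of_le htz ?_
    nlinarith
  have hxy : 1 / (t * z) ≤ 1 / (s * z) :=
    one_div_le_one_div_of_le hsz (by nlinarith)
  have hmm := b4_mm (l := l) hj h1 ha0 hax hxy
  rw [← hc', one_div_one_div, one_div_one_div] at hmm
  have hw : 0 ≤ z ^ 2 * √(1 - z ^ 2) ^ m := by positivity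
  have := mul_le_mul_of_nonneg_left hmm hw
  calc c' * (t ^ 2 - s ^ 2) * (z ^ 4 * √(1 - z ^ 2) ^ m)
      = z ^ 2 * √(1 - z ^ 2) ^ m * (c' * ((t * z) ^ 2 - (s * z) ^ 2)) := by ring
    _ ≤ z ^ 2 * √(1 - z ^ 2) ^ m * (mm j l ρ₁ r₁ (1 / (s * z)) - mm j l ρ₁ r₁ (1 / (t * z))) := this
    _ = _ := by ring

end Pool.Agent.RB75
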