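import Mathlib

/-! Module RB-B5a: two kernel facts.

(1) `√(1-q₂)^m - √(1-q₁)^m ≤ m (q₁ - q₂)` for `0 ≤ q₂ ≤ q₁ ≤ 1/4`. Proof: `x^m - y^m ≤ m (x - y)` for
`0 ≤ y ≤ x ≤ 1`, and `√(1-q₂) - √(1-q₁) = (q₁-q₂)/(√(1-q₂)+√(1-q₁)) ≤ q₁ - q₂` as `√(3/4) ≥ 1/2`.
(2) Let `0 < s < t` and `g` be nonnegative and antitone on `(0,∞)`. Then
`∫_{s/2}^t x² √(1-x²/t²)^m g(x) dx - ∫_{s/2}^s x² √(1-x²/s²)^m g(x) dx ≤ g(s/2) (t³ - s³)/3`.
Proof: the difference is `∫_{s/2}^s x² (√(1-x²/t²)^m - √(1-x²/s²)^m) g + ∫_s^t x² √(1-x²/t²)^m g`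
with nonnegative integrands apart from `g`; replace `g(x)` by `g(s/2)`; then add the same
(nonnegative) integral over `(0,s/2)`: bounded by
`g(s/2) (∫_0^t x² √(1-x²/t²)^m - ∫_0^s x² √(1-x²/s²)^m) = g(s/2) (t³-s³) ∫_0^1 z²√(1-z²)^m dz`
and the last integral is `≤ 1/3`. -/

namespace Pool.Agent.RB75
open MeasureTheory Set Filter Topology

theorem B5a1_pow (m : ℕ) {x y : ℝ} (hy : 0 ≤ y) (hyx : y ≤ x) (hx : x ≤ 1) :
    x ^ m - y ^ m ≤ m * (x - y) := by
  induction m with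
  | zero => simp
  | succ m ih =>
    have h1 : x ^ (m + 1) - y ^ (m + 1) = x ^ m * (x - y) + y * (x ^ m - y ^ m) := by ring
    have h2 : x ^ m * (x - y) ≤ 1 * (x - y) :=
      mul_le_mul_of_nonneg_right (pow_le_one₀ (hy.trans hyx) hx) (sub_nonneg.2 hyx)
    have h3 : y * (x ^ m - y ^ m) ≤ 1 * (x ^ m - y ^ m) :=
      mul_le_mul_of_nonneg_right (hyx.trans hx)
        (sub_nonneg.2 (pow_le_pow_left₀ hy hyx m))
    push_cast
    rw [h1]
    nlinarith [ih]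

theorem B5a1 (m : ℕ) {q₁ q₂ : ℝ} (h0 : 0 ≤ q₂) (h1 : q₂ ≤ q₁) (h2 : q₁ ≤ 1 / 4) :
    √(1 - q₂) ^ m - √(1 - q₁) ^ m ≤ m * (q₁ - q₂) := by
  have hy : 0 ≤ √(1 - q₁) := Real.sqrt_nonneg _
  have hyx : √(1 - q₁) ≤ √(1 - q₂) := Real.sqrt_le_sqrt (by linarith)
  have hx : √(1 - q₂) ≤ 1 := by
    rw [Real.sqrt_le_one]
    linarith
  have hy2 : (1 : ℝ) / 2 ≤ √(1 - q₁) := by
    apply Real.le_sqrt_of_sq_le
    norm_num
    linarith
  have e1 : √(1 - q₁) ^ 2 = 1 - q₁ := Real.sq_sqrt (by linarith)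
  have e2 : √(1 - q₂) ^ 2 = 1 - q₂ := Real.sq_sqrt (by linarith)
  have h3 : √(1 - q₂) - √(1 - q₁) ≤ q₁ - q₂ := by
    nlinarith
  calc √(1 - q₂) ^ m - √(1 - q₁) ^ m ≤ m * (√(1 - q₂) - √(1 - q₁)) := B5a1_pow m hy hyx hx
    _ ≤ m * (q₁ - q₂) := mul_le_mul_of_nonneg_left h3 (Nat.cast_nonneg m)

/-- the kernel -/
noncomputable def b5aK (m : ℕ) (t x : ℝ) : ℝ := x ^ 2 * √(1 - x ^ 2 / t ^ 2) ^ m

theorem b5aK_cont (m : ℕ) (t : ℝ) : Continuous (b5aK m t) := by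
  unfold b5aK
  have : Continuous fun x : ℝ => √(1 - x ^ 2 / t ^ 2) := by
    apply Continuous.sqrt
    exact continuous_const.sub ((continuous_pow 2).div_const _)
  exact (continuous_pow 2).mul (this.pow m)

theorem b5aK_nonneg (m : ℕ) (t x : ℝ) : 0 ≤ b5aK m t x := by
  unfold b5aK
  positivity

theorem b5aK_mono (m : ℕ) {s t : ℝ} (hs : 0 < s) (hst : s < t) (x : ℝ) :
    b5aK m s x ≤ b5aK m t x := by
  unfold b5aK
  have h : x ^ 2 / t ^ 2 ≤ x ^ 2 / s ^ 2 :=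
    div_le_div_of_nonneg_left (sq_nonneg x) (by positivity) (by nlinarith)
  exact mul_le_mul_of_nonneg_left
    (pow_le_pow_left₀ (Real.sqrt_nonneg _) (Real.sqrt_le_sqrt (by linarith)) m) (sq_nonneg x)

theorem b5aK_int (m : ℕ) {t : ℝ} (ht : 0 < t) :
    ∫ x in (0 : ℝ)..t, b5aK m t x = t ^ 3 * ∫ z in (0 : ℝ)..1, b5aK m 1 z := by
  have h := intervalIntegral.mul_integral_comp_mul_left (a := (0 : ℝ)) (b := 1) (f := b5aK m t) t
  rw [mul_zero, mul_one] at h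
  rw [← h, ← intervalIntegral.integral_const_mul, ← intervalIntegral.integral_const_mul]
  congr 1
  funext z
  unfold b5aK
  have e : (t * z) ^ 2 / t ^ 2 = z ^ 2 / 1 ^ 2 := by
    field_simp
  rw [e]
  ring

theorem b5aK_one (m : ℕ) : ∫ z in (0 : ℝ)..1, b5aK m 1 z ≤ 1 / 3 := by
  have h1 : ∫ z in (0 : ℝ)..1, b5aK m 1 z ≤ ∫ z in (0 : ℝ)..1, z ^ 2 := by
    apply intervalIntegral.integral_mono_on zero_le_one
      ((b5aK_cont m 1).intervalIntegrable _ _) ((continuous_pow 2).intervalIntegrable _ _)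
    intro z hz
    unfold b5aK
    have : √(1 - z ^ 2 / 1 ^ 2) ^ m ≤ 1 := by
      apply pow_le_one₀ (Real.sqrt_nonneg _)
      rw [Real.sqrt_le_one]
      have := sq_nonneg z
      norm_num
      exact this
    nlinarith [sq_nonneg z]
  have h2 : ∫ z in (0 : ℝ)..1, z ^ 2 = 1 / 3 := by
    rw [integral_pow]
    norm_num
  linarith

theorem B5a2 (m : ℕ) {g : ℝ → ℝ} (hg : AntitoneOn g (Ioi 0)) (hg0 : ∀ x, 0 < x → 0 ≤ g x)
    {s t : ℝ} (hs : 0 < s) (hst : s < t) :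
    (∫ x in (s / 2)..t, x ^ 2 * √(1 - x ^ 2 / t ^ 2) ^ m * g x) -
      (∫ x in (s / 2)..s, x ^ 2 * √(1 - x ^ 2 / s ^ 2) ^ m * g x) ≤ g (s / 2) * ((t ^ 3 - s ^ 3) / 3) := by
  change (∫ x in (s / 2)..t, b5aK m t x * g x) - (∫ x in (s / 2)..s, b5aK m s x * g x) ≤ _
  have ht : 0 < t := hs.trans hst
  have hgi : ∀ a b : ℝ, 0 < a → a ≤ b → IntervalIntegrable g volume a b := by
    intro a b ha hab
    apply AntitoneOn.intervalIntegrable
    rw [uIcc_of_le hab]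
    exact hg.mono fun x hx => lt_of_lt_of_le ha hx.1
  have hK : ∀ (c a b : ℝ), 0 < a → a ≤ b →
      IntervalIntegrable (fun x => b5aK m c x * g x) volume a b := by
    intro c a b ha hab
    exact (hgi a b ha hab).continuousOn_mul (b5aK_cont m c).continuousOn
  have hs2 : 0 < s / 2 := by positivity
  have hs2s : s / 2 ≤ s := by linarith
  have e1 : (∫ x in (s / 2)..t, b5aK m t x * g x) =
      (∫ x in (s / 2)..s, b5aK m t x * g x) + ∫ x in s..t, b5aK m t x * g x :=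
    (intervalIntegral.integral_add_adjacent_intervals (hK t _ _ hs2 hs2s) (hK t _ _ hs hst.le)).symm
  have hgs : 0 ≤ g (s / 2) := hg0 _ hs2
  have hgle : ∀ x, s / 2 ≤ x → g x ≤ g (s / 2) := fun x hx =>
    hg (show s / 2 ∈ Ioi 0 from hs2) (show x ∈ Ioi 0 from lt_of_lt_of_le hs2 hx) hx
  have b1 : (∫ x in (s / 2)..s, b5aK m t x * g x) - (∫ x in (s / 2)..s, b5aK m s x * g x) ≤
      g (s / 2) * ((∫ x in (s / 2)..s, b5aK m t x) - ∫ x in (s / 2)..s, b5aK m s x) := by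
    rw [← intervalIntegral.integral_sub (hK t _ _ hs2 hs2s) (hK s _ _ hs2 hs2s),
      ← intervalIntegral.integral_sub ((b5aK_cont m t).intervalIntegrable _ _)
        ((b5aK_cont m s).intervalIntegrable _ _), ← intervalIntegral.integral_const_mul]
    apply intervalIntegral.integral_mono_on hs2s
    · exact (hK t _ _ hs2 hs2s).sub (hK s _ _ hs2 hs2s)
    · exact (((b5aK_cont m t).sub (b5aK_cont m s)).const_mul _).intervalIntegrable _ _
    · intro x hx
      have := b5aK_mono m hs hst x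
      have := hgle x hx.1
      nlinarith
  have b2 : (∫ x in s..t, b5aK m t x * g x) ≤ g (s / 2) * ∫ x in s..t, b5aK m t x := by
    rw [← intervalIntegral.integral_const_mul]
    apply intervalIntegral.integral_mono_on hst.le (hK t _ _ hs hst.le)
    · exact ((b5aK_cont m t).const_mul _).intervalIntegrable _ _
    · intro x hx
      have := b5aK_nonneg m t x
      have := hgle x (hs2s.trans hx.1)
      nlinarith
  have b3 : (∫ x in (s / 2)..s, b5aK m t x) - (∫ x in (s / 2)..s, b5aK m s x) ≤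
      (∫ x in (0 : ℝ)..s, b5aK m t x) - ∫ x in (0 : ℝ)..s, b5aK m s x := by
    rw [← intervalIntegral.integral_add_adjacent_intervals
        ((b5aK_cont m t).intervalIntegrable 0 (s / 2)) ((b5aK_cont m t).intervalIntegrable (s / 2) s),
      ← intervalIntegral.integral_add_adjacent_intervals
        ((b5aK_cont m s).intervalIntegrable 0 (s / 2)) ((b5aK_cont m s).intervalIntegrable (s / 2) s)]
    have : (∫ x in (0 : ℝ)..(s / 2), b5aK m s x) ≤ ∫ x in (0 : ℝ)..(s / 2), b5aK m t x := by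
      apply intervalIntegral.integral_mono_on hs2.le ((b5aK_cont m s).intervalIntegrable _ _)
        ((b5aK_cont m t).intervalIntegrable _ _)
      intro x _
      exact b5aK_mono m hs hst x
    linarith
  have e2 : (∫ x in (0 : ℝ)..s, b5aK m t x) + ∫ x in s..t, b5aK m t x =
      ∫ x in (0 : ℝ)..t, b5aK m t x :=
    intervalIntegral.integral_add_adjacent_intervals ((b5aK_cont m t).intervalIntegrable _ _)
      ((b5aK_cont m t).intervalIntegrable _ _)
  have e3 := b5aK_int m ht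
  have e4 := b5aK_int m hs
  have e5 := b5aK_one m
  have hts : 0 ≤ t ^ 3 - s ^ 3 := by
    have := pow_le_pow_left₀ hs.le hst.le 3
    linarith
  rw [e1]
  calc (∫ x in (s / 2)..s, b5aK m t x * g x) + (∫ x in s..t, b5aK m t x * g x) -
        (∫ x in (s / 2)..s, b5aK m s x * g x)
      ≤ g (s / 2) * ((∫ x in (s / 2)..s, b5aK m t x) - ∫ x in (s / 2)..s, b5aK m s x) +
        g (s / 2) * ∫ x in s..t, b5aK m t x := by linarith
    _ = g (s / 2) * (((∫ x in (s / 2)..s, b5aK m t x) - ∫ x in (s / 2)..s, b5aK m s x) +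
        ∫ x in s..t, b5aK m t x) := by ring
    _ ≤ g (s / 2) * (((∫ x in (0 : ℝ)..s, b5aK m t x) - ∫ x in (0 : ℝ)..s, b5aK m s x) +
        ∫ x in s..t, b5aK m t x) := by
        apply mul_le_mul_of_nonneg_left _ hgs
        linarith
    _ = g (s / 2) * ((t ^ 3 - s ^ 3) * ∫ z in (0 : ℝ)..1, b5aK m 1 z) := by
        rw [sub_mul, ← e3, ← e4, ← e2]
        ring
    _ ≤ g (s / 2) * ((t ^ 3 - s ^ 3) / 3) := by
        apply mul_le_mul_of_nonneg_left _ hgs
        nlinarith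

end Pool.Agent.RB75
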