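import Pool.Agent.RB75.B5a

/-! Module RB-B5b (property P2 for a general `g`).

`g ≥ 0` antitone on `(0,∞)`, `g ≤ M`, `g(x) ≤ M x^{-(m+5)}`; `W(t) = ∫_0^t x² √(1-x²/t²)^m g(x) dx`.
Then for `1 ≤ s < t ≤ 2 s`: `W(t) - W(s) ≤ C (1/s² - 1/t²)`.

Proof. `W(t) - W(s) = ∫_0^{s/2} x² (√(1-x²/t²)^m - √(1-x²/s²)^m) g dx + [B5a2 difference]`.
First integral: by B5a1 (`q₁ = x²/s² ≤ 1/4`, `q₂ = x²/t²`) it is `≤ m (1/s² - 1/t²) ∫_0^{s/2} x⁴ g dx`; if `m = 0`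
it is `0`; if `m ≥ 1`, `x⁴ g(x) ≤ M x⁴ x^{-6}` for `x ≥ 1` (`x^{-(m+5)} ≤ x^{-6}`), `≤ M` for `x ≤ 1`, so
`∫_0^{s/2} x⁴ g ≤ 2 M`.
Second: `≤ g(s/2) (t³-s³)/3 ≤ M 2^{m+5} s^{-(m+5)} (t³-s³)/3` and for `t ≤ 2s`
`t³ - s³ ≤ 7 s² (t-s)`, `1/s² - 1/t² ≥ (t-s)/(2 s³)`, so `t³ - s³ ≤ 14 s⁵ (1/s² - 1/t²)` and
`s^{-(m+5)} s⁵ ≤ 1` for `s ≥ 1`.  `C = 2 M m + 14 M 2^{m+5}/3`. -/

namespace Pool.Agent.RB75
open MeasureTheory Set Filter Topology

/-- `φ g` is integrable for continuous `φ` -/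
private lemma b5b_int {g : ℝ → ℝ} {M : ℝ} (hg : AntitoneOn g (Ioi 0)) (hg0 : ∀ x, 0 < x → 0 ≤ g x)
    (hM : ∀ x, 0 < x → g x ≤ M) {φ : ℝ → ℝ} (hφ : Continuous φ) {a b : ℝ} (ha : 0 ≤ a)
    (hb : 0 ≤ b) : IntervalIntegrable (fun x => φ x * g x) volume a b := by
  have key : ∀ c : ℝ, 0 ≤ c → IntervalIntegrable g volume 0 c := by
    intro c hc
    rw [intervalIntegrable_iff_integrableOn_Ioc_of_le hc]
    have h1 : AEStronglyMeasurable g (volume.restrict (Ioc 0 c)) := by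
      have h2 : AEMeasurable g (volume.restrict (Ioi (0 : ℝ))) :=
        aemeasurable_restrict_of_antitoneOn measurableSet_Ioi hg
      exact (h2.mono_measure (Measure.restrict_mono (fun x hx => hx.1) le_rfl)).aestronglyMeasurable
    refine Integrable.mono' (integrable_const M) h1 ?_
    refine (ae_restrict_iff' measurableSet_Ioc).2 (Filter.Eventually.of_forall ?_)
    intro x hx
    rw [Real.norm_of_nonneg (hg0 x hx.1)]
    exact hM x hx.1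
  have h3 : IntervalIntegrable g volume a b := (key a ha).symm.trans (key b hb)
  exact h3.continuousOn_mul hφ.continuousOn

private lemma b5b_cont (m : ℕ) (t : ℝ) : Continuous fun x : ℝ => x ^ 2 * √(1 - x ^ 2 / t ^ 2) ^ m := by
  fun_prop

/-- the part over `(0, s/2)` -/
private lemma b5b_first (m : ℕ) {g : ℝ → ℝ} {M : ℝ} (hg : AntitoneOn g (Ioi 0))
    (hg0 : ∀ x, 0 < x → 0 ≤ g x) (hM0 : 0 < M) (hM : ∀ x, 0 < x → g x ≤ M)
    (hM2 : ∀ x, 0 < x → g x * x ^ (m + 5) ≤ M) {s t : ℝ} (hs : 1 ≤ s) (hst : s < t) :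
    (∫ x in (0 : ℝ)..(s / 2), x ^ 2 * √(1 - x ^ 2 / t ^ 2) ^ m * g x) -
      (∫ x in (0 : ℝ)..(s / 2), x ^ 2 * √(1 - x ^ 2 / s ^ 2) ^ m * g x) ≤
      4 * M * m * (1 / s ^ 2 - 1 / t ^ 2) := by
  have hs0 : 0 < s := by linarith
  have ht0 : 0 < t := by linarith
  have hΔ : 0 ≤ 1 / s ^ 2 - 1 / t ^ 2 := by
    have : 1 / t ^ 2 ≤ 1 / s ^ 2 := by
      apply one_div_le_one_div_of_le (by positivity)
      exact pow_le_pow_left₀ hs0.le hst.le 2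
    linarith
  have hs2 : 0 ≤ s / 2 := by linarith
  rw [← intervalIntegral.integral_sub (b5b_int hg hg0 hM (b5b_cont m t) le_rfl hs2)
    (b5b_int hg hg0 hM (b5b_cont m s) le_rfl hs2)]
  have hpt : ∀ x ∈ Ioo (0 : ℝ) (s / 2), x ^ 2 * √(1 - x ^ 2 / t ^ 2) ^ m * g x -
      x ^ 2 * √(1 - x ^ 2 / s ^ 2) ^ m * g x ≤
      (m * (1 / s ^ 2 - 1 / t ^ 2)) * (2 * M) * (1 + x ^ 2)⁻¹ := by
    intro x hx
    have hx0 := hx.1
    have hxs := hx.2
    have hgx := hg0 x hx0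
    have hq2 : 0 ≤ x ^ 2 / t ^ 2 := by positivity
    have hq12 : x ^ 2 / t ^ 2 ≤ x ^ 2 / s ^ 2 :=
      div_le_div_of_nonneg_left (by positivity) (by positivity)
        (pow_le_pow_left₀ hs0.le hst.le 2)
    have hq1 : x ^ 2 / s ^ 2 ≤ 1 / 4 := by
      rw [div_le_iff₀ (by positivity)]
      nlinarith
    have h1 := B5a1 m hq2 hq12 hq1
    have h2 : x ^ 2 * √(1 - x ^ 2 / t ^ 2) ^ m * g x - x ^ 2 * √(1 - x ^ 2 / s ^ 2) ^ m * g x ≤
        (m * (1 / s ^ 2 - 1 / t ^ 2)) * (x ^ 4 * g x) := by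
      have h3 : 0 ≤ x ^ 2 * g x := by positivity
      have h4 := mul_le_mul_of_nonneg_left h1 h3
      have h5 : x ^ 2 * g x * (m * (x ^ 2 / s ^ 2 - x ^ 2 / t ^ 2)) =
        (m * (1 / s ^ 2 - 1 / t ^ 2)) * (x ^ 4 * g x) := by
        field_simp
      rw [h5] at h4
      linarith
    refine h2.trans ?_
    rcases Nat.eq_zero_or_pos m with hm | hm
    · rw [hm]; simp
    have hm1 : (0 : ℝ) ≤ m * (1 / s ^ 2 - 1 / t ^ 2) := mul_nonneg (Nat.cast_nonneg m) hΔ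
    have hre : (m * (1 / s ^ 2 - 1 / t ^ 2)) * (2 * M) * (1 + x ^ 2)⁻¹ =
        (m * (1 / s ^ 2 - 1 / t ^ 2)) * (2 * M * (1 + x ^ 2)⁻¹) := by ring
    rw [hre]
    refine mul_le_mul_of_nonneg_left ?_ hm1
    rw [← div_eq_mul_inv, le_div_iff₀ (by positivity)]
    rcases le_total x 1 with hx1 | hx1
    · have h6 : g x ≤ M := hM x hx0
      have h7 : x ^ 4 ≤ 1 := pow_le_one₀ hx0.le hx1
      have h8 : x ^ 4 * g x ≤ M := by nlinarith
      have h9 : x ^ 2 ≤ 1 := pow_le_one₀ hx0.le hx1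
      nlinarith [mul_nonneg (pow_nonneg hx0.le 4) hgx]
    · have h6 : g x * x ^ (m + 5) ≤ M := hM2 x hx0
      have h7 : x ^ 6 ≤ x ^ (m + 5) := pow_le_pow_right₀ hx1 (by omega)
      have h8 : g x * x ^ 6 ≤ M := (mul_le_mul_of_nonneg_left h7 hgx).trans h6
      have h9 : 1 ≤ x ^ 2 := one_le_pow₀ hx1
      have h10 : x ^ 4 * g x * (1 + x ^ 2) ≤ x ^ 4 * g x * (2 * x ^ 2) := by
        apply mul_le_mul_of_nonneg_left _ (by positivity)
        linarith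
      have h11 : x ^ 4 * g x * (2 * x ^ 2) = 2 * (g x * x ^ 6) := by ring
      linarith
  have hint : IntervalIntegrable (fun x : ℝ => (m * (1 / s ^ 2 - 1 / t ^ 2)) * (2 * M) *
      (1 + x ^ 2)⁻¹) volume 0 (s / 2) := by
    apply Continuous.intervalIntegrable
    refine continuous_const.mul (Continuous.inv₀ (by fun_prop) ?_)
    intro x; positivity
  have h12 := intervalIntegral.integral_mono_on_of_le_Ioo hs2
    ((b5b_int hg hg0 hM (b5b_cont m t) le_rfl hs2).sub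
      (b5b_int hg hg0 hM (b5b_cont m s) le_rfl hs2)) hint hpt
  refine h12.trans ?_
  rw [intervalIntegral.integral_const_mul, integral_inv_one_add_sq, Real.arctan_zero, sub_zero]
  have h13 : Real.arctan (s / 2) ≤ 2 := by
    have := (Real.arctan_lt_pi_div_two (s / 2)).le
    have hpi := Real.pi_le_four
    linarith
  have h14 : 0 ≤ (m * (1 / s ^ 2 - 1 / t ^ 2)) * (2 * M) := by positivity
  have h15 := mul_le_mul_of_nonneg_left h13 h14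
  linarith

/-- the part over `(s/2, t)` -/
private lemma b5b_second (m : ℕ) {g : ℝ → ℝ} {M : ℝ} (hM0 : 0 < M)
    (hM2 : ∀ x, 0 < x → g x * x ^ (m + 5) ≤ M) {s t : ℝ} (hs : 1 ≤ s) (hst : s < t)
    (ht2 : t ≤ 2 * s) :
    g (s / 2) * ((t ^ 3 - s ^ 3) / 3) ≤ 5 * M * 2 ^ (m + 5) * (1 / s ^ 2 - 1 / t ^ 2) := by
  have hs0 : 0 < s := by linarith
  have ht0 : 0 < t := by linarith
  have h1 : g (s / 2) * (s / 2) ^ (m + 5) ≤ M := hM2 (s / 2) (by linarith)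
  have h2 : g (s / 2) * s ^ (m + 5) ≤ M * 2 ^ (m + 5) := by
    have : g (s / 2) * s ^ (m + 5) = g (s / 2) * (s / 2) ^ (m + 5) * 2 ^ (m + 5) := by
      rw [div_pow]
      field_simp
    rw [this]
    exact mul_le_mul_of_nonneg_right h1 (by positivity)
  have h3 : t ^ 3 - s ^ 3 ≤ 14 * s ^ 5 * (1 / s ^ 2 - 1 / t ^ 2) := by
    have h4 : 14 * s ^ 5 * (1 / s ^ 2 - 1 / t ^ 2) =
        (t - s) * (14 * s ^ 3 * (t + s)) / t ^ 2 := by
      field_simp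
      ring
    rw [h4, le_div_iff₀ (by positivity)]
    have h5 : t ^ 3 - s ^ 3 = (t - s) * (t ^ 2 + t * s + s ^ 2) := by ring
    rw [h5, mul_assoc]
    refine mul_le_mul_of_nonneg_left ?_ (by linarith)
    have h6 : t ^ 2 ≤ 4 * s ^ 2 := by nlinarith
    have h7 : t ^ 2 + t * s + s ^ 2 ≤ 7 / 2 * (s * (t + s)) := by nlinarith
    have h8 : (t ^ 2 + t * s + s ^ 2) * t ^ 2 ≤ 7 / 2 * (s * (t + s)) * t ^ 2 :=
      mul_le_mul_of_nonneg_right h7 (by positivity)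
    have h9 : 7 / 2 * (s * (t + s)) * t ^ 2 ≤ 7 / 2 * (s * (t + s)) * (4 * s ^ 2) :=
      mul_le_mul_of_nonneg_left h6 (by positivity)
    nlinarith
  rcases le_or_gt (g (s / 2)) 0 with hneg | hpos
  · have h4 : 0 ≤ (t ^ 3 - s ^ 3) / 3 := by
      have := pow_le_pow_left₀ hs0.le hst.le 3
      linarith
    have h5 : g (s / 2) * ((t ^ 3 - s ^ 3) / 3) ≤ 0 := mul_nonpos_of_nonpos_of_nonneg hneg h4
    have h6 : 0 ≤ 1 / s ^ 2 - 1 / t ^ 2 := by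
      have : 1 / t ^ 2 ≤ 1 / s ^ 2 := by
        apply one_div_le_one_div_of_le (by positivity)
        exact pow_le_pow_left₀ hs0.le hst.le 2
      linarith
    have h7 : 0 ≤ 5 * M * 2 ^ (m + 5) * (1 / s ^ 2 - 1 / t ^ 2) := by positivity
    linarith
  · have h6 : 0 ≤ 1 / s ^ 2 - 1 / t ^ 2 := by
      have : 1 / t ^ 2 ≤ 1 / s ^ 2 := by
        apply one_div_le_one_div_of_le (by positivity)
        exact pow_le_pow_left₀ hs0.le hst.le 2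
      linarith
    have h7 : g (s / 2) * s ^ 5 ≤ g (s / 2) * s ^ (m + 5) :=
      mul_le_mul_of_nonneg_left (pow_le_pow_right₀ hs (by omega)) hpos.le
    have h8 : g (s / 2) * ((t ^ 3 - s ^ 3) / 3) ≤
        g (s / 2) * ((14 * s ^ 5 * (1 / s ^ 2 - 1 / t ^ 2)) / 3) := by
      apply mul_le_mul_of_nonneg_left _ hpos.le
      linarith
    have h9 : g (s / 2) * ((14 * s ^ 5 * (1 / s ^ 2 - 1 / t ^ 2)) / 3) =
        14 / 3 * (g (s / 2) * s ^ 5) * (1 / s ^ 2 - 1 / t ^ 2) := by ring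
    rw [h9] at h8
    refine h8.trans (mul_le_mul_of_nonneg_right ?_ h6)
    have h10 : 0 ≤ M * 2 ^ (m + 5) := by positivity
    have h11 := h7.trans h2
    linarith

theorem B5b (m : ℕ) {g : ℝ → ℝ} {M : ℝ} (hg : AntitoneOn g (Ioi 0)) (hg0 : ∀ x, 0 < x → 0 ≤ g x)
    (hM0 : 0 < M) (hM : ∀ x, 0 < x → g x ≤ M) (hM2 : ∀ x, 0 < x → g x * x ^ (m + 5) ≤ M) :
    ∃ C, 0 < C ∧ ∀ s t, 1 ≤ s → s < t → t ≤ 2 * s →
      (∫ x in (0 : ℝ)..t, x ^ 2 * √(1 - x ^ 2 / t ^ 2) ^ m * g x) -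
        (∫ x in (0 : ℝ)..s, x ^ 2 * √(1 - x ^ 2 / s ^ 2) ^ m * g x) ≤ C * (1 / s ^ 2 - 1 / t ^ 2) := by
  refine ⟨4 * M * m + 5 * M * 2 ^ (m + 5), by positivity, ?_⟩
  intro s t hs hst ht2
  have hs0 : 0 < s := by linarith
  have hs2 : 0 ≤ s / 2 := by linarith
  have ht0 : 0 ≤ t := by linarith
  rw [← intervalIntegral.integral_add_adjacent_intervals
      (b5b_int hg hg0 hM (b5b_cont m t) le_rfl hs2) (b5b_int hg hg0 hM (b5b_cont m t) hs2 ht0),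
    ← intervalIntegral.integral_add_adjacent_intervals
      (b5b_int hg hg0 hM (b5b_cont m s) le_rfl hs2) (b5b_int hg hg0 hM (b5b_cont m s) hs2 hs0.le)]
  have h1 := b5b_first m hg hg0 hM0 hM hM2 hs hst
  have h2 := B5a2 m hg hg0 hs0 hst
  have h3 := b5b_second m hM0 hM2 hs hst ht2
  rw [add_mul]
  linarith

end Pool.Agent.RB75
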