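import Pool.Agent.RB75.B0

/-! Module RB-B5c: `t³ r₀(t) = D₁ ∫_0^t x² √(1-x²/t²)^m mm₁(1/x) dx` (substitution `x = t z` in `Step`). -/

namespace Pool.Agent.RB75
open MeasureTheory Set Filter Topology

theorem B5c {m j l : ℕ} {D₁ : ℝ} {ρ₁ r₁ r₀ : ℝ → ℝ} (hS : Step m j l D₁ ρ₁ r₁ r₀) (t : ℝ) (ht : 0 < t) :
    t ^ 3 * r₀ t = D₁ * ∫ x in (0 : ℝ)..t, x ^ 2 * √(1 - x ^ 2 / t ^ 2) ^ m * mm j l ρ₁ r₁ (1 / x) := by
  obtain ⟨_, h⟩ := hS t ht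
  have ht0 : t ≠ 0 := ht.ne'
  have key := intervalIntegral.smul_integral_comp_mul_left
    (fun x : ℝ => x ^ 2 * √(1 - x ^ 2 / t ^ 2) ^ m * mm j l ρ₁ r₁ (1 / x)) t (a := 0) (b := 1)
  rw [mul_zero, mul_one] at key
  rw [← key, h, smul_eq_mul]
  have e : (fun z : ℝ => (t * z) ^ 2 * √(1 - (t * z) ^ 2 / t ^ 2) ^ m * mm j l ρ₁ r₁ (1 / (t * z)))
      = fun z : ℝ => t ^ 2 * (z ^ 2 * √(1 - z ^ 2) ^ m * mm j l ρ₁ r₁ (1 / (t * z))) := by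
    funext z
    have : (t * z) ^ 2 / t ^ 2 = z ^ 2 := by
      rw [mul_pow]; field_simp
    rw [this]; ring
  simp only [e]
  rw [intervalIntegral.integral_const_mul]
  ring

end Pool.Agent.RB75
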