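import Pool.Agent.RB75.Defs

/-! Module RB-B6: existence of `λ` with `𝒫_λ` (a statement about one function `r`).

Hypotheses: `0 < r ≤ B`, `r` antitone, `N(t) = t³ r(t)` nondecreasing on `(0,∞)`,
(P1) for all `T` there is `c > 0` with `c (t² - s²) ≤ r s - r t` for `0 < s < t ≤ T`,
(P2) `N(t) - N(s) ≤ C (1/s² - 1/t²)` for `1 ≤ s < t ≤ 2s`.
Conclusion: `r(t) √(λ²+t²)^3` is antitone on `(0,∞)` for some `λ ≥ 1`.

Proof. It is enough (chain `t ≤ 2^k s`) to show, for suitable `T₀ ≥ 1` and all large `λ`: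
(a) `r(t)√(λ²+t²)³ ≤ r(s)√(λ²+s²)³` for `0 < s < t ≤ T₀`, and (b) the same for `T₀ ≤ s < t ≤ 2 s`.
(b) `r(t) √(λ²+t²)³ = N(t) √(1+λ² p)³` with `p = t^{-2}`. With `p₁ = s^{-2} > p₂ = t^{-2}`,
`N(s) √(1+λ²p₁)³ - N(t) √(1+λ²p₂)³ = N(s) (√(1+λ²p₁)³ - √(1+λ²p₂)³) - (N(t)-N(s)) √(1+λ²p₂)³`.
`√(1+λ²p₁)³ - √(1+λ²p₂)³ ≥ λ² (p₁-p₂) √(1+λ²p₂)` (for `a ≥ b ≥ 0`: `√a³ - √b³ ≥ (a-b) √b`), and
`N(s) ≥ N(1)`, `N(t)-N(s) ≤ C (p₁-p₂)`: the difference is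
`≥ (p₁-p₂) √(1+λ²p₂) (λ² N(1) - C (1+λ²p₂))`, which is `≥ 0` if `T₀² N(1) ≥ 2 C` (so `C λ² p₂ ≤ λ² N(1)/2`)
and `λ² N(1) ≥ 2 C`.
(a) with `c = c(T₀)`: `r(s)√(λ²+s²)³ - r(t)√(λ²+t²)³ = (r(s)-r(t))√(λ²+s²)³ - r(t)(√(λ²+t²)³ - √(λ²+s²)³)`
`≥ c (t²-s²) λ³ - B (3/2) √(λ²+T₀²) (t²-s²)` (for `a ≥ b ≥ 0`: `√a³ - √b³ ≤ (3/2)(a-b)√a`)
`≥ 0` as soon as `λ ≥ T₀` and `c λ² ≥ (3/2) √2 B`. -/

namespace Pool.Agent.RB75
open MeasureTheory Set Filter Topology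

theorem b6_lower {x y : ℝ} (hy : 0 ≤ y) (hxy : y ≤ x) : (x ^ 2 - y ^ 2) * y ≤ x ^ 3 - y ^ 3 := by
  have h : x ^ 3 - y ^ 3 - (x ^ 2 - y ^ 2) * y = x ^ 2 * (x - y) := by ring
  have h2 : 0 ≤ x ^ 2 * (x - y) := mul_nonneg (sq_nonneg _) (by linarith)
  have _h3 := hy
  linarith

theorem b6_upper {x y : ℝ} (hy : 0 ≤ y) (hxy : y ≤ x) :
    x ^ 3 - y ^ 3 ≤ 3 / 2 * (x ^ 2 - y ^ 2) * x := by
  have h : 3 / 2 * (x ^ 2 - y ^ 2) * x - (x ^ 3 - y ^ 3) = (x - y) ^ 2 * (x + 2 * y) / 2 := by ring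
  have h2 : 0 ≤ (x - y) ^ 2 * (x + 2 * y) / 2 := by
    have : 0 ≤ (x - y) ^ 2 * (x + 2 * y) := mul_nonneg (sq_nonneg _) (by linarith)
    linarith
  linarith

/-- part (a) -/
theorem b6_a {r : ℝ → ℝ} {B c lam T : ℝ} (hpos : ∀ t, 0 < t → 0 < r t) (hB : ∀ t, 0 < t → r t ≤ B)
    (hc : ∀ s t, 0 < s → s < t → t ≤ T → c * (t ^ 2 - s ^ 2) ≤ r s - r t) (hc0 : 0 < c)
    (hlam : 1 ≤ lam) (hT : T ≤ lam) (h3 : 3 * B ≤ c * lam ^ 2) {s t : ℝ} (hs : 0 < s) (hst : s < t)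
    (ht : t ≤ T) : r t * √(lam ^ 2 + t ^ 2) ^ 3 ≤ r s * √(lam ^ 2 + s ^ 2) ^ 3 := by
  have htpos : 0 < t := hs.trans hst
  obtain ⟨X, hX⟩ : ∃ X, X = √(lam ^ 2 + s ^ 2) := ⟨_, rfl⟩
  obtain ⟨Y, hY⟩ : ∃ Y, Y = √(lam ^ 2 + t ^ 2) := ⟨_, rfl⟩
  have hX2 : X ^ 2 = lam ^ 2 + s ^ 2 := by rw [hX]; exact Real.sq_sqrt (by positivity)
  have hY2 : Y ^ 2 = lam ^ 2 + t ^ 2 := by rw [hY]; exact Real.sq_sqrt (by positivity)
  have hX0 : 0 ≤ X := by rw [hX]; exact Real.sqrt_nonneg _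
  have hY0 : 0 ≤ Y := by rw [hY]; exact Real.sqrt_nonneg _
  rw [← hX, ← hY]
  have hs2 : s ^ 2 < t ^ 2 := by nlinarith
  have hXY : X ≤ Y := by
    apply le_of_sq_le_sq _ hY0
    rw [hX2, hY2]
    linarith
  have hlX : lam ≤ X := by
    apply le_of_sq_le_sq _ hX0
    rw [hX2]
    nlinarith [sq_nonneg s]
  have hYl : Y ≤ 2 * lam := by
    apply le_of_sq_le_sq _ (by linarith)
    rw [hY2]
    nlinarith
  have hB0 : 0 < B := (hpos 1 one_pos).trans_le (hB 1 one_pos)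
  have h1 := hc s t hs hst ht
  have h2 := b6_upper hX0 hXY
  rw [hX2, hY2] at h2
  have hX3 : lam ^ 3 ≤ X ^ 3 := pow_le_pow_left₀ (by linarith) hlX 3
  -- first term
  have e1 : c * (t ^ 2 - s ^ 2) * lam ^ 3 ≤ (r s - r t) * X ^ 3 := by
    apply mul_le_mul h1 hX3 (by positivity)
    have : 0 ≤ c * (t ^ 2 - s ^ 2) := mul_nonneg hc0.le (by linarith)
    linarith
  -- second term
  have e2 : Y ^ 3 - X ^ 3 ≤ 3 * lam * (t ^ 2 - s ^ 2) := by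
    have h4 : 3 / 2 * (lam ^ 2 + t ^ 2 - (lam ^ 2 + s ^ 2)) * Y ≤
        3 / 2 * (lam ^ 2 + t ^ 2 - (lam ^ 2 + s ^ 2)) * (2 * lam) :=
      mul_le_mul_of_nonneg_left hYl (by linarith)
    have h5 : 3 / 2 * (lam ^ 2 + t ^ 2 - (lam ^ 2 + s ^ 2)) * (2 * lam) =
        3 * lam * (t ^ 2 - s ^ 2) := by ring
    linarith
  have e3 : r t * (Y ^ 3 - X ^ 3) ≤ B * (3 * lam * (t ^ 2 - s ^ 2)) := by
    apply mul_le_mul (hB t htpos) e2 _ hB0.le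
    have : X ^ 3 ≤ Y ^ 3 := pow_le_pow_left₀ hX0 hXY 3
    linarith
  have e4 : B * (3 * lam * (t ^ 2 - s ^ 2)) ≤ c * (t ^ 2 - s ^ 2) * lam ^ 3 := by
    have h6 : c * (t ^ 2 - s ^ 2) * lam ^ 3 - B * (3 * lam * (t ^ 2 - s ^ 2)) =
        (c * lam ^ 2 - 3 * B) * (lam * (t ^ 2 - s ^ 2)) := by ring
    have h7 : 0 ≤ (c * lam ^ 2 - 3 * B) * (lam * (t ^ 2 - s ^ 2)) :=
      mul_nonneg (by linarith) (mul_nonneg (by linarith) (by linarith))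
    linarith
  have e5 : r s * X ^ 3 - r t * Y ^ 3 = (r s - r t) * X ^ 3 - r t * (Y ^ 3 - X ^ 3) := by ring
  linarith

theorem b6_form {lam t : ℝ} (ht : 0 < t) (x : ℝ) :
    x * √(lam ^ 2 + t ^ 2) ^ 3 = (t ^ 3 * x) * √(1 + lam ^ 2 * (1 / t ^ 2)) ^ 3 := by
  have h : lam ^ 2 + t ^ 2 = t ^ 2 * (1 + lam ^ 2 * (1 / t ^ 2)) := by
    field_simp
    ring
  rw [h, Real.sqrt_mul (sq_nonneg t), Real.sqrt_sq ht.le]
  ring

/-- part (b) -/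
theorem b6_b {r : ℝ → ℝ} {C lam T : ℝ} (hpos : ∀ t, 0 < t → 0 < r t)
    (hN : MonotoneOn (fun t => t ^ 3 * r t) (Ioi 0)) (hC0 : 0 < C)
    (hC : ∀ s t, 1 ≤ s → s < t → t ≤ 2 * s →
      t ^ 3 * r t - s ^ 3 * r s ≤ C * (1 / s ^ 2 - 1 / t ^ 2))
    (hT1 : 1 ≤ T) (h1 : 2 * C ≤ T ^ 2 * r 1) (h2 : 2 * C ≤ lam ^ 2 * r 1) {s t : ℝ}
    (hs : T ≤ s) (hst : s < t) (ht : t ≤ 2 * s) :
    r t * √(lam ^ 2 + t ^ 2) ^ 3 ≤ r s * √(lam ^ 2 + s ^ 2) ^ 3 := by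
  have hs1 : 1 ≤ s := hT1.trans hs
  have hs0 : 0 < s := one_pos.trans_le hs1
  have ht0 : 0 < t := hs0.trans hst
  rw [b6_form ht0, b6_form hs0]
  obtain ⟨X, hX⟩ : ∃ X, X = √(1 + lam ^ 2 * (1 / s ^ 2)) := ⟨_, rfl⟩
  obtain ⟨Y, hY⟩ : ∃ Y, Y = √(1 + lam ^ 2 * (1 / t ^ 2)) := ⟨_, rfl⟩
  have hX2 : X ^ 2 = 1 + lam ^ 2 * (1 / s ^ 2) := by rw [hX]; exact Real.sq_sqrt (by positivity)
  have hY2 : Y ^ 2 = 1 + lam ^ 2 * (1 / t ^ 2) := by rw [hY]; exact Real.sq_sqrt (by positivity)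
  have hX0 : 0 ≤ X := by rw [hX]; exact Real.sqrt_nonneg _
  have hY0 : 0 ≤ Y := by rw [hY]; exact Real.sqrt_nonneg _
  rw [← hX, ← hY]
  obtain ⟨p, hp⟩ : ∃ p, p = 1 / s ^ 2 := ⟨_, rfl⟩
  obtain ⟨q, hq⟩ : ∃ q, q = 1 / t ^ 2 := ⟨_, rfl⟩
  have hqp : q ≤ p := by
    rw [hp, hq]
    apply one_div_le_one_div_of_le (by positivity)
    nlinarith
  have hq0 : 0 ≤ q := by rw [hq]; positivity
  have hqT : q * T ^ 2 ≤ 1 := by
    rw [hq, one_div, inv_mul_le_iff₀ (by positivity)]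
    nlinarith
  have hCst := hC s t hs1 hst ht
  rw [← hp, ← hq] at hCst
  rw [← hp] at hX2
  rw [← hq] at hY2
  have hXY : Y ≤ X := by
    apply le_of_sq_le_sq _ hX0
    rw [hX2, hY2]
    have : lam ^ 2 * q ≤ lam ^ 2 * p := mul_le_mul_of_nonneg_left hqp (sq_nonneg _)
    linarith
  have hl := b6_lower hY0 hXY
  have hNs : r 1 ≤ s ^ 3 * r s := by
    have := hN (show (1 : ℝ) ∈ Ioi 0 from mem_Ioi.2 one_pos) (show s ∈ Ioi 0 from hs0) hs1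
    simpa using this
  have hr1 := hpos 1 one_pos
  -- first difference
  have e1 : r 1 * (lam ^ 2 * (p - q) * Y) ≤ s ^ 3 * r s * (X ^ 3 - Y ^ 3) := by
    have h3 : lam ^ 2 * (p - q) * Y = (X ^ 2 - Y ^ 2) * Y := by
      rw [hX2, hY2]
      ring
    rw [h3]
    apply mul_le_mul hNs hl
    · rw [← h3]
      exact mul_nonneg (mul_nonneg (sq_nonneg _) (by linarith)) hY0
    · linarith
  have e2 : (t ^ 3 * r t - s ^ 3 * r s) * Y ^ 3 ≤ C * (p - q) * (Y * (1 + lam ^ 2 * q)) := by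
    have h4 : Y ^ 3 = Y * (1 + lam ^ 2 * q) := by
      rw [← hY2]
      ring
    rw [h4]
    apply mul_le_mul_of_nonneg_right hCst
    exact mul_nonneg hY0 (by positivity)
  have e3 : C * (1 + lam ^ 2 * q) ≤ r 1 * lam ^ 2 := by
    have h5 : C * q * 2 ≤ r 1 := by
      have h6 : 2 * C * q ≤ T ^ 2 * r 1 * q := mul_le_mul_of_nonneg_right h1 hq0
      have h7 : T ^ 2 * r 1 * q = r 1 * (q * T ^ 2) := by ring
      have h8 : r 1 * (q * T ^ 2) ≤ r 1 * 1 := mul_le_mul_of_nonneg_left hqT hr1.le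
      linarith
    have h9 : C * q * 2 * lam ^ 2 ≤ r 1 * lam ^ 2 := mul_le_mul_of_nonneg_right h5 (sq_nonneg _)
    nlinarith
  have e4 : C * (p - q) * (Y * (1 + lam ^ 2 * q)) ≤ r 1 * (lam ^ 2 * (p - q) * Y) := by
    have h10 : r 1 * (lam ^ 2 * (p - q) * Y) - C * (p - q) * (Y * (1 + lam ^ 2 * q)) =
        (r 1 * lam ^ 2 - C * (1 + lam ^ 2 * q)) * ((p - q) * Y) := by ring
    have h11 : 0 ≤ (r 1 * lam ^ 2 - C * (1 + lam ^ 2 * q)) * ((p - q) * Y) :=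
      mul_nonneg (by linarith) (mul_nonneg (by linarith) hY0)
    linarith
  have e5 : s ^ 3 * r s * X ^ 3 - t ^ 3 * r t * Y ^ 3 =
      s ^ 3 * r s * (X ^ 3 - Y ^ 3) - (t ^ 3 * r t - s ^ 3 * r s) * Y ^ 3 := by ring
  linarith

theorem B6 {r : ℝ → ℝ} {B : ℝ} (hpos : ∀ t, 0 < t → 0 < r t) (hB : ∀ t, 0 < t → r t ≤ B)
    (hanti : AntitoneOn r (Ioi 0)) (hN : MonotoneOn (fun t => t ^ 3 * r t) (Ioi 0))
    (hP1 : ∀ T, 0 < T → ∃ c, 0 < c ∧ ∀ s t, 0 < s → s < t → t ≤ T → c * (t ^ 2 - s ^ 2) ≤ r s - r t)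
    (hP2 : ∃ C, 0 < C ∧ ∀ s t, 1 ≤ s → s < t → t ≤ 2 * s →
      t ^ 3 * r t - s ^ 3 * r s ≤ C * (1 / s ^ 2 - 1 / t ^ 2)) :
    ∃ lam, 1 ≤ lam ∧ Pdec lam r := by
  obtain ⟨C, hC0, hC⟩ := hP2
  have hr1 := hpos 1 one_pos
  have hB0 : 0 < B := hr1.trans_le (hB 1 one_pos)
  obtain ⟨T, hT⟩ : ∃ T, T = 1 + 2 * C / r 1 := ⟨_, rfl⟩
  have hTC : (T - 1) * r 1 = 2 * C := by
    rw [hT]
    field_simp
    ring
  have hT1 : 1 ≤ T := by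
    rw [hT]
    have : 0 < 2 * C / r 1 := by positivity
    linarith
  obtain ⟨c, hc0, hc⟩ := hP1 T (by linarith)
  obtain ⟨lam, hlam⟩ : ∃ lam, lam = T + 3 * B / c := ⟨_, rfl⟩
  have hlc : (lam - T) * c = 3 * B := by
    rw [hlam]
    field_simp
    ring
  have hTl : T ≤ lam := by
    rw [hlam]
    have : 0 < 3 * B / c := by positivity
    linarith
  have hl1 : 1 ≤ lam := hT1.trans hTl
  have h1 : 2 * C ≤ T ^ 2 * r 1 := by nlinarith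
  have h2 : 2 * C ≤ lam ^ 2 * r 1 := by
    refine h1.trans ?_
    apply mul_le_mul_of_nonneg_right _ hr1.le
    exact pow_le_pow_left₀ (by linarith) hTl 2
  have h3 : 3 * B ≤ c * lam ^ 2 := by
    have h4 : (lam - T) * c ≤ lam ^ 2 * c := by
      apply mul_le_mul_of_nonneg_right _ hc0.le
      nlinarith
    linarith
  have hb : ∀ k : ℕ, ∀ s t, T ≤ s → s ≤ t → t ≤ 2 ^ k * s →
      r t * √(lam ^ 2 + t ^ 2) ^ 3 ≤ r s * √(lam ^ 2 + s ^ 2) ^ 3 := by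
    intro k
    induction k with
    | zero =>
      intro s t _ hst ht
      have : t = s := by
        rw [pow_zero, one_mul] at ht
        exact le_antisymm ht hst
      rw [this]
    | succ k ih =>
      intro s t hs hst ht
      by_cases h : t ≤ 2 * s
      · rcases hst.eq_or_lt with h' | h'
        · rw [h']
        · exact b6_b hpos hN hC0 hC hT1 h1 h2 hs h' h
      · push Not at h
        have hs0 : 0 < s := by linarith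
        have e1 := ih (2 * s) t (by linarith) h.le (by rw [pow_succ] at ht; linarith)
        have e2 := b6_b hpos hN hC0 hC hT1 h1 h2 hs (show s < 2 * s by linarith) le_rfl
        exact e1.trans e2
  have hb' : ∀ s t, T ≤ s → s ≤ t →
      r t * √(lam ^ 2 + t ^ 2) ^ 3 ≤ r s * √(lam ^ 2 + s ^ 2) ^ 3 := by
    intro s t hs hst
    have hs0 : 0 < s := by linarith
    obtain ⟨k, hk⟩ := pow_unbounded_of_one_lt (t / s) (show (1 : ℝ) < 2 by norm_num)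
    refine hb k s t hs hst ?_
    rw [div_lt_iff₀ hs0] at hk
    exact hk.le
  refine ⟨lam, hl1, ?_⟩
  intro s hs t ht hst
  simp only
  rw [mem_Ioi] at hs ht
  rcases hst.eq_or_lt with h' | h'
  · rw [h']
  · rcases le_total T s with h4 | h4
    · exact hb' s t h4 hst
    · rcases le_total t T with h5 | h5
      · exact b6_a hpos hB hc hc0 hl1 hTl h3 hs h' h5
      · refine (hb' T t le_rfl h5).trans ?_
        rcases h4.eq_or_lt with h6 | h6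
        · rw [h6]
        · exact b6_a hpos hB hc hc0 hl1 hTl h3 hs h6 le_rfl

end Pool.Agent.RB75
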