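import Mathlib

/-! Module RB-B7a: the key substitution.

`xx μ t z = μ t z / √(μ² + t² - t² z²)`. For `0 < μ, 0 < t`, the map `w(z) = μ z / √(μ² + t² - t² z²)` is an
increasing bijection of `(0,1)` with derivative `μ (μ²+t²) / √(μ²+t²-t²z²)^3`, and
`1 - w² = (μ²+t²)(1-z²)/(μ²+t²-t²z²)`, `t w = xx μ t z`, `μ² + xx² = μ² (μ²+t²)/(μ²+t²-t²z²)`.
So `∫_0^1 w² √(1-w²)^m f(t w) dw = ∫_0^1 z² √(1-z²)^m (μ/√(μ²+t²))^3 (√(μ²+x²)/μ)^{m+5} f(x) dz`, `x = xx μ t z`: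
check: with `Q = μ²+t²-t²z²`, `S = μ²+t²`: the left integrand times `dw/dz` is
`(μ² z²/Q) (S(1-z²)/Q)^{m/2} (μ S/Q^{3/2}) f = μ³ z² (1-z²)^{m/2} S^{m/2+1} Q^{-(m+5)/2} f`; the right side is
`z² (1-z²)^{m/2} μ³ S^{-3/2} (S/Q)^{(m+5)/2} f`: equal, since `(m+5)/2 - 3/2 = m/2 + 1`.
Use `MeasureTheory.integral_image_eq_integral_abs_deriv_smul` (no continuity of `f` needed), and
`integrableOn_image_iff_integrableOn_abs_deriv_smul` for the integrability statement. -/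

namespace Pool.Agent.RB75
open MeasureTheory Set Filter Topology

noncomputable def xx (μ t z : ℝ) : ℝ := μ * t * z / √(μ ^ 2 + t ^ 2 - t ^ 2 * z ^ 2)

private lemma b7a_Q {μ t z : ℝ} (hμ : 0 < μ) (hz : 0 < z) (hz1 : z < 1) :
    0 < μ ^ 2 + t ^ 2 - t ^ 2 * z ^ 2 := by
  have h1 : z ^ 2 ≤ 1 := by nlinarith
  have h2 : t ^ 2 * z ^ 2 ≤ t ^ 2 := by nlinarith [sq_nonneg t]
  have h3 : 0 < μ ^ 2 := by positivity
  linarith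

/-- the substitution. -/
private noncomputable def b7a_w (μ t z : ℝ) : ℝ := μ * z / √(μ ^ 2 + t ^ 2 - t ^ 2 * z ^ 2)

private lemma b7a_tw (μ t z : ℝ) : t * b7a_w μ t z = xx μ t z := by
  unfold b7a_w xx
  ring

private lemma b7a_deriv {μ t z : ℝ} (hμ : 0 < μ) (hz : 0 < z) (hz1 : z < 1) :
    HasDerivAt (b7a_w μ t)
      (μ * (μ ^ 2 + t ^ 2) / √(μ ^ 2 + t ^ 2 - t ^ 2 * z ^ 2) ^ 3) z := by
  have hQ := b7a_Q (t := t) hμ hz hz1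
  have hR : 0 < √(μ ^ 2 + t ^ 2 - t ^ 2 * z ^ 2) := Real.sqrt_pos.mpr hQ
  have hR2 := Real.sq_sqrt hQ.le
  have h1 : HasDerivAt (fun z : ℝ => μ ^ 2 + t ^ 2 - t ^ 2 * z ^ 2) (-(t ^ 2 * (2 * z))) z := by
    have := ((hasDerivAt_pow 2 z).const_mul (t ^ 2)).const_sub (μ ^ 2 + t ^ 2)
    simpa using this
  have h2 := h1.sqrt hQ.ne'
  have h3 : HasDerivAt (fun z : ℝ => μ * z) μ z := by
    simpa using (hasDerivAt_id z).const_mul μ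
  have h4 := h3.div h2 hR.ne'
  have h5 : (μ * √(μ ^ 2 + t ^ 2 - t ^ 2 * z ^ 2) -
      μ * z * (-(t ^ 2 * (2 * z)) / (2 * √(μ ^ 2 + t ^ 2 - t ^ 2 * z ^ 2)))) /
      √(μ ^ 2 + t ^ 2 - t ^ 2 * z ^ 2) ^ 2 =
      μ * (μ ^ 2 + t ^ 2) / √(μ ^ 2 + t ^ 2 - t ^ 2 * z ^ 2) ^ 3 := by
    obtain ⟨R, hRd⟩ : ∃ R, R = √(μ ^ 2 + t ^ 2 - t ^ 2 * z ^ 2) := ⟨_, rfl⟩
    rw [← hRd] at hR hR2 ⊢
    have hR0 : R ≠ 0 := hR.ne'
    have hS : μ ^ 2 + t ^ 2 = R ^ 2 + t ^ 2 * z ^ 2 := by linarith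
    rw [hS]
    field_simp
    ring
  rw [← h5]
  exact h4

private lemma b7a_image {μ t : ℝ} (hμ : 0 < μ) :
    b7a_w μ t '' Ioo 0 1 = Ioo 0 1 := by
  ext w
  constructor
  · rintro ⟨z, ⟨hz, hz1⟩, rfl⟩
    have hQ := b7a_Q (t := t) hμ hz hz1
    have hR : 0 < √(μ ^ 2 + t ^ 2 - t ^ 2 * z ^ 2) := Real.sqrt_pos.mpr hQ
    refine ⟨div_pos (mul_pos hμ hz) hR, ?_⟩
    unfold b7a_w
    rw [div_lt_one hR]
    apply Real.lt_sqrt_of_sq_lt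
    have h1 : z ^ 2 < 1 := by nlinarith
    have h2 : (μ ^ 2 + t ^ 2) * z ^ 2 < (μ ^ 2 + t ^ 2) * 1 :=
      mul_lt_mul_of_pos_left h1 (by positivity)
    nlinarith
  · rintro ⟨hw, hw1⟩
    have hT : 0 < μ ^ 2 + t ^ 2 * w ^ 2 := by positivity
    have hS : 0 < μ ^ 2 + t ^ 2 := by positivity
    obtain ⟨T, hTd⟩ : ∃ T, T = √(μ ^ 2 + t ^ 2 * w ^ 2) := ⟨_, rfl⟩
    obtain ⟨P, hPd⟩ : ∃ P, P = √(μ ^ 2 + t ^ 2) := ⟨_, rfl⟩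
    have hT0 : 0 < T := by rw [hTd]; exact Real.sqrt_pos.mpr hT
    have hP0 : 0 < P := by rw [hPd]; exact Real.sqrt_pos.mpr hS
    have hT2 : T ^ 2 = μ ^ 2 + t ^ 2 * w ^ 2 := by rw [hTd]; exact Real.sq_sqrt hT.le
    have hP2 : P ^ 2 = μ ^ 2 + t ^ 2 := by rw [hPd]; exact Real.sq_sqrt hS.le
    have hzpos : 0 < w * P / T := by positivity
    refine ⟨w * P / T, ⟨hzpos, ?_⟩, ?_⟩
    · rw [div_lt_one hT0]
      have h1 : (w * P) ^ 2 < T ^ 2 := by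
        rw [mul_pow, hT2, hP2]
        have h2 : w ^ 2 < 1 := by nlinarith
        have h3 : 0 < μ ^ 2 := by positivity
        nlinarith
      exact lt_of_pow_lt_pow_left₀ 2 hT0.le h1
    · unfold b7a_w
      have h1 : μ ^ 2 + t ^ 2 - t ^ 2 * (w * P / T) ^ 2 = (P * μ / T) ^ 2 := by
        rw [← hP2]
        have hT0' : T ≠ 0 := hT0.ne'
        field_simp
        rw [hT2]
        ring
      rw [h1, Real.sqrt_sq (by positivity)]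
      have hT0' : T ≠ 0 := hT0.ne'
      have hP0' : P ≠ 0 := hP0.ne'
      have hμ' : μ ≠ 0 := hμ.ne'
      field_simp

private lemma b7a_inj {μ t : ℝ} (hμ : 0 < μ) : InjOn (b7a_w μ t) (Ioo 0 1) := by
  rintro z ⟨hz, hz1⟩ y ⟨hy, hy1⟩ hzy
  have hQ := b7a_Q (t := t) hμ hz hz1
  have hQ' := b7a_Q (t := t) hμ hy hy1
  have h1 : (b7a_w μ t z) ^ 2 = (b7a_w μ t y) ^ 2 := by rw [hzy]
  unfold b7a_w at h1
  rw [div_pow, div_pow, Real.sq_sqrt hQ.le, Real.sq_sqrt hQ'.le,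
    div_eq_div_iff hQ.ne' hQ'.ne'] at h1
  have h2 : μ ^ 2 * (μ ^ 2 + t ^ 2) * (z ^ 2 - y ^ 2) = 0 := by linear_combination h1
  have h3 : μ ^ 2 * (μ ^ 2 + t ^ 2) ≠ 0 := by positivity
  have h4 : z ^ 2 - y ^ 2 = 0 := (mul_eq_zero.mp h2).resolve_left h3
  have h5 : (z - y) * (z + y) = 0 := by linear_combination h4
  rcases mul_eq_zero.mp h5 with h6 | h6
  · linarith
  · linarith

private lemma b7a_key (m : ℕ) {μ t z : ℝ} (hμ : 0 < μ) (ht : 0 < t) (hz : 0 < z) (hz1 : z < 1)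
    (f : ℝ → ℝ) :
    |μ * (μ ^ 2 + t ^ 2) / √(μ ^ 2 + t ^ 2 - t ^ 2 * z ^ 2) ^ 3| •
      ((b7a_w μ t z) ^ 2 * √(1 - (b7a_w μ t z) ^ 2) ^ m * f (t * b7a_w μ t z)) =
    (μ / √(μ ^ 2 + t ^ 2)) ^ 3 * (z ^ 2 * √(1 - z ^ 2) ^ m *
        ((√(μ ^ 2 + (xx μ t z) ^ 2) / μ) ^ (m + 5) * f (xx μ t z))) := by
  have hQ := b7a_Q (t := t) hμ hz hz1
  have hS : 0 < μ ^ 2 + t ^ 2 := by positivity
  obtain ⟨R, hRd⟩ : ∃ R, R = √(μ ^ 2 + t ^ 2 - t ^ 2 * z ^ 2) := ⟨_, rfl⟩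
  obtain ⟨P, hPd⟩ : ∃ P, P = √(μ ^ 2 + t ^ 2) := ⟨_, rfl⟩
  have hR0 : 0 < R := by rw [hRd]; exact Real.sqrt_pos.mpr hQ
  have hP0 : 0 < P := by rw [hPd]; exact Real.sqrt_pos.mpr hS
  have hR2 : R ^ 2 = μ ^ 2 + t ^ 2 - t ^ 2 * z ^ 2 := by rw [hRd]; exact Real.sq_sqrt hQ.le
  have hP2 : P ^ 2 = μ ^ 2 + t ^ 2 := by rw [hPd]; exact Real.sq_sqrt hS.le
  have hw : b7a_w μ t z = μ * z / R := by rw [hRd]; rfl
  have hx : xx μ t z = μ * t * z / R := by rw [hRd]; rfl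
  have hR0' : R ≠ 0 := hR0.ne'
  have hP0' : P ≠ 0 := hP0.ne'
  have hμ' : μ ≠ 0 := hμ.ne'
  have h1 : √(1 - (b7a_w μ t z) ^ 2) = √(1 - z ^ 2) * (P / R) := by
    have e1 : 1 - (b7a_w μ t z) ^ 2 = (1 - z ^ 2) * (P / R) ^ 2 := by
      rw [hw]
      field_simp
      rw [hP2, hR2]
      ring
    rw [e1, Real.sqrt_mul' _ (sq_nonneg _), Real.sqrt_sq (by positivity)]
  have h2 : √(μ ^ 2 + (xx μ t z) ^ 2) = μ * (P / R) := by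
    have e1 : μ ^ 2 + (xx μ t z) ^ 2 = (μ * (P / R)) ^ 2 := by
      rw [hx]
      field_simp
      rw [hP2, hR2]
      ring
    rw [e1, Real.sqrt_sq (by positivity)]
  rw [b7a_tw, h1, h2, hw, ← hRd, ← hPd, ← hP2]
  have h3 : |μ * P ^ 2 / R ^ 3| = μ * P ^ 2 / R ^ 3 := abs_of_pos (by positivity)
  rw [h3, smul_eq_mul]
  have h4 : μ * (P / R) / μ = P / R := by field_simp
  rw [h4, mul_pow, div_pow, div_pow, div_pow, div_pow]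
  field_simp
  ring

theorem B7a (m : ℕ) {μ t : ℝ} (hμ : 0 < μ) (ht : 0 < t) (f : ℝ → ℝ)
    (hf : IntervalIntegrable (fun w => w ^ 2 * √(1 - w ^ 2) ^ m * f (t * w)) volume 0 1) :
    IntervalIntegrable (fun z => z ^ 2 * √(1 - z ^ 2) ^ m *
      ((√(μ ^ 2 + (xx μ t z) ^ 2) / μ) ^ (m + 5) * f (xx μ t z))) volume 0 1 ∧
    ∫ w in (0 : ℝ)..1, w ^ 2 * √(1 - w ^ 2) ^ m * f (t * w) =
      (μ / √(μ ^ 2 + t ^ 2)) ^ 3 * ∫ z in (0 : ℝ)..1, z ^ 2 * √(1 - z ^ 2) ^ m *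
        ((√(μ ^ 2 + (xx μ t z) ^ 2) / μ) ^ (m + 5) * f (xx μ t z)) := by
  have hS : 0 < μ ^ 2 + t ^ 2 := by positivity
  have hc : 0 < (μ / √(μ ^ 2 + t ^ 2)) ^ 3 := by
    have := Real.sqrt_pos.mpr hS
    positivity
  have hder : ∀ z ∈ Ioo (0 : ℝ) 1, HasDerivWithinAt (b7a_w μ t)
      (μ * (μ ^ 2 + t ^ 2) / √(μ ^ 2 + t ^ 2 - t ^ 2 * z ^ 2) ^ 3) (Ioo 0 1) z := fun z hz =>
    (b7a_deriv hμ hz.1 hz.2).hasDerivWithinAt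
  have hint := (intervalIntegrable_iff_integrableOn_Ioo_of_le zero_le_one).mp hf
  constructor
  · rw [intervalIntegrable_iff_integrableOn_Ioo_of_le zero_le_one]
    have h1 := (integrableOn_image_iff_integrableOn_abs_deriv_smul measurableSet_Ioo hder
      (b7a_inj hμ) (fun w => w ^ 2 * √(1 - w ^ 2) ^ m * f (t * w))).mp (by
        rw [b7a_image hμ]
        exact hint)
    have h2 : IntegrableOn (fun z => (μ / √(μ ^ 2 + t ^ 2)) ^ 3 * (z ^ 2 * √(1 - z ^ 2) ^ m *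
        ((√(μ ^ 2 + (xx μ t z) ^ 2) / μ) ^ (m + 5) * f (xx μ t z)))) (Ioo 0 1) :=
      h1.congr_fun (fun z hz => b7a_key m hμ ht hz.1 hz.2 f) measurableSet_Ioo
    have h3 := h2.const_mul ((μ / √(μ ^ 2 + t ^ 2)) ^ 3)⁻¹
    exact IntegrableOn.congr_fun h3 (fun z _ => inv_mul_cancel_left₀ hc.ne' _) measurableSet_Ioo
  · rw [intervalIntegral.integral_of_le zero_le_one, intervalIntegral.integral_of_le zero_le_one,
      integral_Ioc_eq_integral_Ioo, integral_Ioc_eq_integral_Ioo]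
    have h1 := integral_image_eq_integral_abs_deriv_smul measurableSet_Ioo hder
      (b7a_inj hμ) (fun w => w ^ 2 * √(1 - w ^ 2) ^ m * f (t * w))
    rw [b7a_image hμ] at h1
    rw [h1, ← integral_const_mul]
    exact setIntegral_congr_fun measurableSet_Ioo fun z hz => b7a_key m hμ ht hz.1 hz.2 f

/-- elementary properties of `xx`. -/
theorem xx_pos {μ t z : ℝ} (hμ : 0 < μ) (ht : 0 < t) (hz : 0 < z) (hz1 : z < 1) : 0 < xx μ t z :=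
  div_pos (mul_pos (mul_pos hμ ht) hz) (Real.sqrt_pos.mpr (b7a_Q hμ hz hz1))

/-- `x / √(μ²+x²) = z t/√(μ²+t²)`; squared. -/
theorem xx_ratio {μ t z : ℝ} (hμ : 0 < μ) (ht : 0 < t) (hz : 0 < z) (hz1 : z < 1) :
    (xx μ t z) ^ 2 / (μ ^ 2 + (xx μ t z) ^ 2) = z ^ 2 * (t ^ 2 / (μ ^ 2 + t ^ 2)) := by
  have hQ := b7a_Q (t := t) hμ hz hz1
  have hx : (xx μ t z) ^ 2 = (μ * t * z) ^ 2 / (μ ^ 2 + t ^ 2 - t ^ 2 * z ^ 2) := by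
    unfold xx
    rw [div_pow, Real.sq_sqrt hQ.le]
  have hS : 0 < μ ^ 2 + t ^ 2 := by positivity
  have hμ' : μ ≠ 0 := hμ.ne'
  have h1 : μ ^ 2 + (xx μ t z) ^ 2 = μ ^ 2 * (μ ^ 2 + t ^ 2) / (μ ^ 2 + t ^ 2 - t ^ 2 * z ^ 2) := by
    rw [hx, eq_div_iff hQ.ne', add_mul, div_mul_cancel₀ _ hQ.ne']
    ring
  rw [h1, hx, div_div_div_cancel_right₀ hQ.ne', mul_pow, mul_pow]
  field_simp

theorem xx_mono {μ s t z : ℝ} (hμ : 0 < μ) (hs : 0 < s) (hst : s < t) (hz : 0 < z) (hz1 : z < 1) :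
    xx μ s z < xx μ t z := by
  have ht : 0 < t := hs.trans hst
  have hQs := b7a_Q (t := s) hμ hz hz1
  have hQt := b7a_Q (t := t) hμ hz hz1
  have h1 : (xx μ s z) ^ 2 < (xx μ t z) ^ 2 := by
    unfold xx
    rw [div_pow, div_pow, Real.sq_sqrt hQs.le, Real.sq_sqrt hQt.le, div_lt_div_iff₀ hQs hQt]
    have e1 : (μ * t * z) ^ 2 * (μ ^ 2 + s ^ 2 - s ^ 2 * z ^ 2) -
        (μ * s * z) ^ 2 * (μ ^ 2 + t ^ 2 - t ^ 2 * z ^ 2) = μ ^ 4 * z ^ 2 * (t ^ 2 - s ^ 2) := by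
      ring
    have e2 : 0 < μ ^ 4 * z ^ 2 * (t ^ 2 - s ^ 2) := by
      have : 0 < t ^ 2 - s ^ 2 := by nlinarith
      positivity
    linarith
  exact lt_of_pow_lt_pow_left₀ 2 (xx_pos hμ ht hz hz1).le h1

end Pool.Agent.RB75
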