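import Pool.Agent.RB75.B0
import Pool.Agent.RB75.B7a

/-! Module RB-B7b: the key identity.

`Gam lam (τ) = (√(lam²+τ²)/τ)^{m+5} mm(τ)`. With `μ = 1/lam`, `x = 1/τ`: `√(μ²+x²)/μ = √(lam²+τ²)/τ`
(both are `√(1 + lam² x²)`). So B7a applied to `f(x) = mm(1/x)` and `Step` give
`r'(t) √(μ²+t²)^3 = D μ³ ∫_0^1 z² √(1-z²)^m Gam lam (1/xx μ t z) dz`.
Consequences: if `Gam lam` is monotone [antitone] on `(0,∞)` then `r'(t)√(μ²+t²)^3` is antitone [monotone]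
(`xx μ t z` is increasing in `t`). -/

namespace Pool.Agent.RB75
open MeasureTheory Set Filter Topology

noncomputable def Gam (m j l : ℕ) (lam : ℝ) (ρ r : ℝ → ℝ) (τ : ℝ) : ℝ :=
  (√(lam ^ 2 + τ ^ 2) / τ) ^ (m + 5) * mm j l ρ r τ

private theorem b7b_xx_pos {μ t z : ℝ} (hμ : 0 < μ) (ht : 0 < t) (hz : 0 < z) (hz1 : z ≤ 1) :
    0 < xx μ t z := by
  unfold xx
  have h1 : 0 < μ ^ 2 + t ^ 2 - t ^ 2 * z ^ 2 := by
    have h2 : z ^ 2 ≤ 1 := by nlinarith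
    have h3 : t ^ 2 * z ^ 2 ≤ t ^ 2 := by nlinarith [sq_nonneg t]
    have h4 : 0 < μ ^ 2 := by positivity
    linarith
  have h5 := Real.sqrt_pos.mpr h1
  positivity

private theorem b7b_fac {lam x : ℝ} (hl : 0 < lam) (hx : 0 < x) :
    √((1 / lam) ^ 2 + x ^ 2) / (1 / lam) = √(lam ^ 2 + (1 / x) ^ 2) / (1 / x) := by
  have h1 : √((1 / lam) ^ 2 + x ^ 2) / (1 / lam) = √(1 + lam ^ 2 * x ^ 2) := by
    rw [div_eq_iff (by positivity), ← Real.sqrt_sq (show (0 : ℝ) ≤ 1 / lam by positivity),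
      ← Real.sqrt_mul (by positivity), Real.sqrt_sq (show (0 : ℝ) ≤ 1 / lam by positivity)]
    congr 1
    field_simp
  have h2 : √(lam ^ 2 + (1 / x) ^ 2) / (1 / x) = √(1 + lam ^ 2 * x ^ 2) := by
    rw [div_eq_iff (by positivity), ← Real.sqrt_sq (show (0 : ℝ) ≤ 1 / x by positivity),
      ← Real.sqrt_mul (by positivity), Real.sqrt_sq (show (0 : ℝ) ≤ 1 / x by positivity)]
    congr 1
    field_simp
    ring
  rw [h1, h2]

private theorem b7b_eqOn (m j l : ℕ) (ρ r : ℝ → ℝ) {lam t : ℝ} (hl : 0 < lam) (ht : 0 < t) :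
    EqOn (fun z => z ^ 2 * √(1 - z ^ 2) ^ m *
      ((√((1 / lam) ^ 2 + (xx (1 / lam) t z) ^ 2) / (1 / lam)) ^ (m + 5) *
        mm j l ρ r (1 / xx (1 / lam) t z)))
      (fun z => z ^ 2 * √(1 - z ^ 2) ^ m * Gam m j l lam ρ r (1 / xx (1 / lam) t z))
      (Ioc 0 1) := by
  intro z hz
  have hx := b7b_xx_pos (show (0 : ℝ) < 1 / lam by positivity) ht hz.1 hz.2
  simp only [Gam]
  rw [b7b_fac hl hx]

theorem B7b {m j l : ℕ} {D : ℝ} {ρ r r' : ℝ → ℝ} (hS : Step m j l D ρ r r') {lam t : ℝ} (hl : 0 < lam)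
    (ht : 0 < t) :
    IntervalIntegrable (fun z => z ^ 2 * √(1 - z ^ 2) ^ m * Gam m j l lam ρ r (1 / xx (1 / lam) t z))
      volume 0 1 ∧
    r' t * √((1 / lam) ^ 2 + t ^ 2) ^ 3 = D * (1 / lam) ^ 3 *
      ∫ z in (0 : ℝ)..1, z ^ 2 * √(1 - z ^ 2) ^ m * Gam m j l lam ρ r (1 / xx (1 / lam) t z) := by
  obtain ⟨hi, he⟩ := hS t ht
  have hμ : (0 : ℝ) < 1 / lam := by positivity
  obtain ⟨h1, h2⟩ := B7a m hμ ht (fun x => mm j l ρ r (1 / x)) hi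
  have hE := b7b_eqOn m j l ρ r hl ht
  have hae : ∀ᵐ z ∂(volume.restrict (uIoc (0 : ℝ) 1)),
      (fun z => z ^ 2 * √(1 - z ^ 2) ^ m *
      ((√((1 / lam) ^ 2 + (xx (1 / lam) t z) ^ 2) / (1 / lam)) ^ (m + 5) *
        mm j l ρ r (1 / xx (1 / lam) t z))) z =
      (fun z => z ^ 2 * √(1 - z ^ 2) ^ m * Gam m j l lam ρ r (1 / xx (1 / lam) t z)) z := by
    rw [uIoc_of_le zero_le_one]
    filter_upwards [ae_restrict_mem measurableSet_Ioc] with z hz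
    exact hE hz
  refine ⟨h1.congr_ae hae, ?_⟩
  have h3 : ∫ z in (0 : ℝ)..1, z ^ 2 * √(1 - z ^ 2) ^ m *
      ((√((1 / lam) ^ 2 + (xx (1 / lam) t z) ^ 2) / (1 / lam)) ^ (m + 5) *
        mm j l ρ r (1 / xx (1 / lam) t z)) =
      ∫ z in (0 : ℝ)..1, z ^ 2 * √(1 - z ^ 2) ^ m *
        Gam m j l lam ρ r (1 / xx (1 / lam) t z) :=
    intervalIntegral.integral_congr_ae_restrict hae
  have hs : 0 < √((1 / lam) ^ 2 + t ^ 2) := Real.sqrt_pos.mpr (by positivity)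
  rw [he, h2, h3, div_pow]
  field_simp

theorem B7c {m j l : ℕ} {D : ℝ} {ρ r r' : ℝ → ℝ} (hD : 0 < D) (hS : Step m j l D ρ r r') {lam : ℝ}
    (hl : 0 < lam) (hG : MonotoneOn (Gam m j l lam ρ r) (Ioi 0)) : Pdec (1 / lam) r' := by
  intro s hs t ht hst
  rw [mem_Ioi] at hs ht
  have hμ : (0 : ℝ) < 1 / lam := by positivity
  rcases eq_or_lt_of_le hst with rfl | hlt
  · exact le_rfl
  obtain ⟨hi1, he1⟩ := B7b hS hl hs
  obtain ⟨hi2, he2⟩ := B7b hS hl ht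
  simp only
  rw [he1, he2]
  refine mul_le_mul_of_nonneg_left ?_ (by positivity)
  refine intervalIntegral.integral_mono_on_of_le_Ioo zero_le_one hi2 hi1 ?_
  intro z hz
  have hx1 := xx_pos hμ hs hz.1 hz.2
  have hx2 := xx_pos hμ ht hz.1 hz.2
  have hx := xx_mono hμ hs hlt hz.1 hz.2
  refine mul_le_mul_of_nonneg_left ?_ (by positivity)
  refine hG ?_ ?_ ?_
  · exact mem_Ioi.mpr (by positivity)
  · exact mem_Ioi.mpr (by positivity)
  · exact one_div_le_one_div_of_le hx1 hx.le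

theorem B7d {m j l : ℕ} {D : ℝ} {ρ r r' : ℝ → ℝ} (hD : 0 < D) (hS : Step m j l D ρ r r') {lam : ℝ}
    (hl : 0 < lam) (hG : AntitoneOn (Gam m j l lam ρ r) (Ioi 0)) : Pinc (1 / lam) r' := by
  intro s hs t ht hst
  rw [mem_Ioi] at hs ht
  have hμ : (0 : ℝ) < 1 / lam := by positivity
  rcases eq_or_lt_of_le hst with rfl | hlt
  · exact le_rfl
  obtain ⟨hi1, he1⟩ := B7b hS hl hs
  obtain ⟨hi2, he2⟩ := B7b hS hl ht
  simp only
  rw [he1, he2]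
  refine mul_le_mul_of_nonneg_left ?_ (by positivity)
  refine intervalIntegral.integral_mono_on_of_le_Ioo zero_le_one hi1 hi2 ?_
  intro z hz
  have hx1 := xx_pos hμ hs hz.1 hz.2
  have hx2 := xx_pos hμ ht hz.1 hz.2
  have hx := xx_mono hμ hs hlt hz.1 hz.2
  refine mul_le_mul_of_nonneg_left ?_ (by positivity)
  refine hG ?_ ?_ ?_
  · exact mem_Ioi.mpr (by positivity)
  · exact mem_Ioi.mpr (by positivity)
  · exact one_div_le_one_div_of_le hx1 hx.le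

end Pool.Agent.RB75
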