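import Pool.Agent.RB75.B7b

/-! Module RB-B8: monotonicity of `Gam`.

With `n = j + l = m + 3`,
`Gam lam = j (ρ√(lam²+τ²)/τ)^{j-1} g^l (r √(lam²+τ²)^3) + l (ρ√(lam²+τ²)/τ)^j g^{l+2}`,
`g(τ) = √(lam²+τ²)/√(1+τ²)` (exponents: `(j-1)+l+3 = m+5 = j+(l+2)`; `sg τ · √(lam²+τ²)/τ = g`).
* `g² = 1 + (lam²-1)/(1+τ²)` is antitone if `lam ≥ 1`, monotone if `lam ≤ 1`.
* (ratio lemma) if `r√(lam²+τ²)^3` is antitone [monotone], so is `R̃(τ) = ρ(τ)√(lam²+τ²)/τ`:
  `τ/√(lam²+τ²) = ∫_0^τ w`, `w(s) = lam²/√(lam²+s²)^3`; `ρ = ∫_0^τ (r/w) w` with `r/w` antitone; so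
  `ρ(t)/W(t)` is the `w`-average of `r/w` over `(0,t)`, `W(t) = ∫_0^t w`. (For `s < t`:
  `ρ(t) W(s) - ρ(s) W(t) = (ρ(t)-ρ(s)) W(s) - ρ(s) (W(t)-W(s)) ≤ q(s)(W(t)-W(s))W(s) - q(s) W(s)(W(t)-W(s)) = 0`
  with `q = r/w`, since `ρ(t)-ρ(s) ≤ q(s)(W(t)-W(s))` and `ρ(s) ≥ q(s) W(s)`.)
* product and sum of nonnegative antitone [monotone] functions; if `l = 0` the factor `g^l` is `1` and
  the second summand is `0`, so no condition on `lam`. -/

namespace Pool.Agent.RB75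
open MeasureTheory Set Filter Topology

/-- decomposition of `Gam`. -/
theorem Gam_eq {m j l : ℕ} (hj : 1 ≤ j) (hn : j + l = m + 3) {lam : ℝ} (hl : 0 < lam) (ρ r : ℝ → ℝ)
    {τ : ℝ} (hτ : 0 < τ) :
    Gam m j l lam ρ r τ =
      j * (ρ τ * √(lam ^ 2 + τ ^ 2) / τ) ^ (j - 1) * (√(lam ^ 2 + τ ^ 2) / √(1 + τ ^ 2)) ^ l *
        (r τ * √(lam ^ 2 + τ ^ 2) ^ 3) +
      l * (ρ τ * √(lam ^ 2 + τ ^ 2) / τ) ^ j * (√(lam ^ 2 + τ ^ 2) / √(1 + τ ^ 2)) ^ (l + 2) := by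
  have _ := hl
  have hT : √(1 + τ ^ 2) ≠ 0 := by positivity
  set S := √(lam ^ 2 + τ ^ 2) with hS
  set T := √(1 + τ ^ 2) with hTd
  have e1 : S = (S / τ) * τ := by field_simp
  have e2 : S / T = (S / τ) * sg τ := by
    unfold sg; rw [← hTd]; field_simp
  have e3 : ρ τ * S / τ = ρ τ * (S / τ) := by ring
  have e4 : r τ * S ^ 3 = r τ * ((S / τ) ^ 3 * τ ^ 3) := by
    rw [← mul_pow, ← e1]
  have p1 : m + 5 = (j - 1) + l + 3 := by omega
  have p2 : m + 5 = j + (l + 2) := by omega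
  rw [e4, e2, e3]
  unfold Gam mm
  rw [← hS]
  set a := S / τ with ha
  rw [mul_add]
  congr 1
  · rw [p1]; simp only [mul_pow, pow_add]; ring
  · rw [p2]; simp only [mul_pow, pow_add]; ring

theorem b8_W_deriv {lam : ℝ} (hl : 0 < lam) (t : ℝ) :
    HasDerivAt (fun t : ℝ => t / √(lam ^ 2 + t ^ 2)) (lam ^ 2 / √(lam ^ 2 + t ^ 2) ^ 3) t := by
  have hp : 0 < lam ^ 2 + t ^ 2 := by positivity
  have hS : √(lam ^ 2 + t ^ 2) ≠ 0 := by positivity
  have h1 : HasDerivAt (fun t : ℝ => lam ^ 2 + t ^ 2) (2 * t) t := by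
    have := (hasDerivAt_pow 2 t).const_add (lam ^ 2)
    simpa using this
  have h2 := h1.sqrt hp.ne'
  have h3 := (hasDerivAt_id t).div h2 hS
  refine h3.congr_deriv ?_
  have hsq : √(lam ^ 2 + t ^ 2) ^ 2 = lam ^ 2 + t ^ 2 := Real.sq_sqrt hp.le
  simp only [id]
  rw [div_eq_div_iff (by positivity) (by positivity)]
  field_simp
  rw [hsq]
  ring

theorem b8_W_mono {lam : ℝ} (hl : 0 < lam) : StrictMono (fun t : ℝ => t / √(lam ^ 2 + t ^ 2)) := by
  refine strictMono_of_deriv_pos (fun t => ?_)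
  rw [(b8_W_deriv hl t).deriv]
  positivity

/-- core comparison, `ε = ±1`. -/
theorem b8_core {lam : ℝ} (hl : 0 < lam) {ρ r : ℝ → ℝ} (h : Nice ρ r) (ε : ℝ)
    (hP : ∀ s t, 0 < s → s ≤ t →
      ε * (r t * √(lam ^ 2 + t ^ 2) ^ 3) ≤ ε * (r s * √(lam ^ 2 + s ^ 2) ^ 3))
    {s t : ℝ} (hs : 0 < s) (hst : s ≤ t) :
    ε * (ρ t * √(lam ^ 2 + t ^ 2) / t) ≤ ε * (ρ s * √(lam ^ 2 + s ^ 2) / s) := by
  have ht : 0 < t := lt_of_lt_of_le hs hst
  set W : ℝ → ℝ := fun t => t / √(lam ^ 2 + t ^ 2) with hW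
  set q : ℝ := r s * √(lam ^ 2 + s ^ 2) ^ 3 / lam ^ 2 with hq
  -- the auxiliary function
  have hder : ∀ u, 0 < u → HasDerivAt (fun u => ε * (q * W u - ρ u))
      (ε * (q * (lam ^ 2 / √(lam ^ 2 + u ^ 2) ^ 3) - r u)) u := fun u hu =>
    (((b8_W_deriv hl u).const_mul q).sub (h.rho_deriv u hu)).const_mul ε
  have hval : ∀ u, ε * (q * (lam ^ 2 / √(lam ^ 2 + u ^ 2) ^ 3) - r u) =
      (ε * (r s * √(lam ^ 2 + s ^ 2) ^ 3) - ε * (r u * √(lam ^ 2 + u ^ 2) ^ 3)) /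
        √(lam ^ 2 + u ^ 2) ^ 3 := by
    intro u
    have : √(lam ^ 2 + u ^ 2) ≠ 0 := by positivity
    rw [hq]; field_simp
  have hWmono : StrictMono W := b8_W_mono hl
  -- on [s, t]
  have h1 : ε * (q * W s - ρ s) ≤ ε * (q * W t - ρ t) := by
    have hm : MonotoneOn (fun u => ε * (q * W u - ρ u)) (Icc s t) := by
      refine monotoneOn_of_deriv_nonneg (convex_Icc s t) ?_ ?_ ?_
      · intro u hu
        exact (hder u (lt_of_lt_of_le hs hu.1)).continuousAt.continuousWithinAt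
      · intro u hu
        rw [interior_Icc] at hu
        exact (hder u (lt_trans hs hu.1)).differentiableAt.differentiableWithinAt
      · intro u hu
        rw [interior_Icc] at hu
        rw [(hder u (lt_trans hs hu.1)).deriv, hval]
        refine div_nonneg ?_ (by positivity)
        have := hP s u hs hu.1.le
        linarith
    exact hm ⟨le_rfl, hst⟩ ⟨hst, le_rfl⟩ hst
  -- on (0, s]
  have h2 : ε * (q * W s - ρ s) ≤ 0 := by
    have hm : AntitoneOn (fun u => ε * (q * W u - ρ u)) (Ioc 0 s) := by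
      refine antitoneOn_of_deriv_nonpos (convex_Ioc 0 s) ?_ ?_ ?_
      · intro u hu
        exact (hder u hu.1).continuousAt.continuousWithinAt
      · intro u hu
        rw [interior_Ioc] at hu
        exact (hder u hu.1).differentiableAt.differentiableWithinAt
      · intro u hu
        rw [interior_Ioc] at hu
        rw [(hder u hu.1).deriv, hval]
        refine div_nonpos_of_nonpos_of_nonneg ?_ (by positivity)
        have := hP u s hu.1 hu.2.le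
        linarith
    have hlim : Tendsto (fun u => ε * (q * W u - ρ u)) (𝓝[>] 0) (𝓝 (ε * (q * W 0 - 0))) := by
      refine Tendsto.const_mul _ (Tendsto.sub (Tendsto.const_mul _ ?_) h.small)
      exact (b8_W_deriv hl 0).continuousAt.tendsto.mono_left nhdsWithin_le_nhds
    have hz : ε * (q * W 0 - 0) = 0 := by simp [hW]
    rw [hz] at hlim
    refine ge_of_tendsto hlim ?_
    have : Ioc (0 : ℝ) s ∈ 𝓝[>] (0 : ℝ) := Ioc_mem_nhdsGT hs
    filter_upwards [this] with u hu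
    exact hm hu ⟨hs, le_rfl⟩ hu.2
  have hWs : 0 < W s := by simp only [hW]; positivity
  have hWt : 0 < W t := by simp only [hW]; positivity
  have hd : 0 ≤ W t - W s := sub_nonneg.2 (hWmono.monotone hst)
  have h3 : ε * ρ t * W s ≤ ε * ρ s * W t := by
    nlinarith [mul_le_mul_of_nonneg_right h1 hWs.le, mul_le_mul_of_nonneg_right h2 hd]
  have r1 : ρ t * √(lam ^ 2 + t ^ 2) / t = ρ t / W t := by
    simp only [hW]; field_simp
  have r2 : ρ s * √(lam ^ 2 + s ^ 2) / s = ρ s / W s := by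
    simp only [hW]; field_simp
  rw [r1, r2, ← mul_div_assoc, ← mul_div_assoc, div_le_div_iff₀ hWt hWs]
  exact h3

theorem ratio_anti {lam : ℝ} (hl : 0 < lam) {ρ r : ℝ → ℝ} (h : Nice ρ r) (hP : Pdec lam r) :
    AntitoneOn (fun τ => ρ τ * √(lam ^ 2 + τ ^ 2) / τ) (Ioi 0) := by
  intro s hs t ht hst
  have hs' : (0 : ℝ) < s := hs
  have := b8_core hl h 1 (fun a b ha hab => by
    have := hP (mem_Ioi.2 ha) (mem_Ioi.2 (lt_of_lt_of_le ha hab)) hab
    simpa using this) hs' hst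
  simpa using this

theorem ratio_mono {lam : ℝ} (hl : 0 < lam) {ρ r : ℝ → ℝ} (h : Nice ρ r) (hP : Pinc lam r) :
    MonotoneOn (fun τ => ρ τ * √(lam ^ 2 + τ ^ 2) / τ) (Ioi 0) := by
  intro s hs t ht hst
  have hs' : (0 : ℝ) < s := hs
  have := b8_core hl h (-1) (fun a b ha hab => by
    have := hP (mem_Ioi.2 ha) (mem_Ioi.2 (lt_of_lt_of_le ha hab)) hab
    simp only at this
    linarith) hs' hst
  simp only
  linarith

theorem b8_alg (j l : ℕ) {a a' g g' q q' : ℝ} (ha : 0 ≤ a) (hg : 0 ≤ g) (hq : 0 ≤ q)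
    (haa : a ≤ a') (hgg : g ≤ g' ∨ l = 0) (hqq : q ≤ q') :
    j * a ^ (j - 1) * g ^ l * q + l * a ^ j * g ^ (l + 2) ≤
      j * a' ^ (j - 1) * g' ^ l * q' + l * a' ^ j * g' ^ (l + 2) := by
  rcases hgg with hgg | rfl
  · have ha' := ha.trans haa
    have hg' := hg.trans hgg
    have hq' := hq.trans hqq
    gcongr
  · have ha' := ha.trans haa
    simp only [pow_zero, mul_one, Nat.cast_zero, zero_mul, add_zero]
    gcongr

theorem b8_g {lam : ℝ} (hl : 0 < lam) {s t : ℝ} (hst : (lam ^ 2 + t ^ 2) * (1 + s ^ 2) ≤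
    (lam ^ 2 + s ^ 2) * (1 + t ^ 2)) :
    √(lam ^ 2 + t ^ 2) / √(1 + t ^ 2) ≤ √(lam ^ 2 + s ^ 2) / √(1 + s ^ 2) := by
  have _ := hl
  rw [div_le_div_iff₀ (by positivity) (by positivity), ← Real.sqrt_mul (by positivity),
    ← Real.sqrt_mul (by positivity)]
  exact Real.sqrt_le_sqrt hst

theorem Gam_anti {m j l : ℕ} (hj : 1 ≤ j) (hn : j + l = m + 3) {lam : ℝ} (hl : 0 < lam)
    (hl1 : 1 ≤ lam ∨ l = 0) {ρ r : ℝ → ℝ} (h : Nice ρ r) (hP : Pdec lam r) :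
    AntitoneOn (Gam m j l lam ρ r) (Ioi 0) := by
  intro s hs t ht hst
  have hs' : (0 : ℝ) < s := hs
  have ht' : (0 : ℝ) < t := ht
  rw [Gam_eq hj hn hl ρ r hs', Gam_eq hj hn hl ρ r ht']
  refine b8_alg j l ?_ ?_ ?_ ?_ ?_ ?_
  · have := h.rho_pos t ht'; positivity
  · positivity
  · have := h.pos t ht'; positivity
  · exact ratio_anti hl h hP hs ht hst
  · rcases hl1 with h1 | h1
    · left
      refine b8_g hl ?_
      have e1 : 1 ≤ lam ^ 2 := by nlinarith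
      have e2 : s ^ 2 ≤ t ^ 2 := by gcongr
      nlinarith
    · right; exact h1
  · exact hP hs ht hst

theorem Gam_mono {m j l : ℕ} (hj : 1 ≤ j) (hn : j + l = m + 3) {lam : ℝ} (hl : 0 < lam)
    (hl1 : lam ≤ 1 ∨ l = 0) {ρ r : ℝ → ℝ} (h : Nice ρ r) (hP : Pinc lam r) :
    MonotoneOn (Gam m j l lam ρ r) (Ioi 0) := by
  intro s hs t ht hst
  have hs' : (0 : ℝ) < s := hs
  have ht' : (0 : ℝ) < t := ht
  rw [Gam_eq hj hn hl ρ r hs', Gam_eq hj hn hl ρ r ht']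
  refine b8_alg j l ?_ ?_ ?_ ?_ ?_ ?_
  · have := h.rho_pos s hs'; positivity
  · positivity
  · have := h.pos s hs'; positivity
  · exact ratio_mono hl h hP hs ht hst
  · rcases hl1 with h1 | h1
    · left
      refine b8_g hl ?_
      have e1 : lam ^ 2 ≤ 1 := by nlinarith
      have e2 : s ^ 2 ≤ t ^ 2 := by gcongr
      nlinarith
    · right; exact h1
  · exact hP hs ht hst

end Pool.Agent.RB75
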