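import Pool.Agent.RB75.B7b

/-! Module RB-B9: strictness criterion.

Let `lam > 0`, `μ = 1/lam`. Suppose `Gam μ` (of the profile `(ρ₁,r₁)`) is monotone on `(0,∞)` and near
infinity strictly so: there are `ε, X > 0` such that for `0 < x₁ < x₂ ≤ X`
`Gam μ (1/x₁) - Gam μ (1/x₂) ≥ ε (x₂² - x₁²)`. Then `Pstrict lam r₀`.

Proof. By B7b with `lam := μ` (so `1/μ = lam`; `x = xx lam t z`)
`r₀(s)√(lam²+s²)³ - r₀(t)√(lam²+t²)³ = D₁ lam³ ∫_0^1 z²√(1-z²)^m (Gam(1/xx lam s z) - Gam(1/xx lam t z)) dz`,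
integrand `≥ 0`. Restrict to `z ≤ z₀` with `z₀ < 1` so small that `xx lam t z ≤ X` for all `t` and `z ≤ z₀`
(`xx² / (lam² + xx²) ≤ z²`, i.e. `xx² ≤ lam² z²/(1-z²)`): there the integrand is
`≥ z²√(1-z²)^m ε (x₂² - x₁²)` and, since `x ↦ x²/(lam²+x²)` has
`x₂²/(lam²+x₂²) - x₁²/(lam²+x₁²) ≤ (x₂²-x₁²)/lam²`, `x₂² - x₁² ≥ lam² z² (σ_t² - σ_s²)` by `xx_ratio`
(`σ_t² = t²/(lam²+t²)`). So `ε' = D₁ lam⁵ ε ∫_0^{z₀} z⁴ √(1-z²)^m dz > 0` works. -/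

namespace Pool.Agent.RB75
open MeasureTheory Set Filter Topology

theorem B9 {m j l : ℕ} {D₁ : ℝ} {ρ₁ r₁ r₀ : ℝ → ℝ} (hD : 0 < D₁) (hS : Step m j l D₁ ρ₁ r₁ r₀)
    {lam : ℝ} (hl : 0 < lam) (hG : MonotoneOn (Gam m j l (1 / lam) ρ₁ r₁) (Ioi 0))
    {ε X : ℝ} (hε : 0 < ε) (hX : 0 < X)
    (hs : ∀ x₁ x₂, 0 < x₁ → x₁ < x₂ → x₂ ≤ X →
      ε * (x₂ ^ 2 - x₁ ^ 2) ≤ Gam m j l (1 / lam) ρ₁ r₁ (1 / x₁) - Gam m j l (1 / lam) ρ₁ r₁ (1 / x₂)) :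
    Pstrict lam r₀ := by
  set z₀ : ℝ := X / √(lam ^ 2 + X ^ 2) with hz₀
  have hS0 : 0 < lam ^ 2 + X ^ 2 := by positivity
  have hsq : √(lam ^ 2 + X ^ 2) ^ 2 = lam ^ 2 + X ^ 2 := Real.sq_sqrt hS0.le
  have hsp : 0 < √(lam ^ 2 + X ^ 2) := Real.sqrt_pos.2 hS0
  have hz0 : 0 < z₀ := div_pos hX hsp
  have hz0sq : z₀ ^ 2 * (lam ^ 2 + X ^ 2) = X ^ 2 := by
    rw [hz₀, div_pow, hsq]
    field_simp
  have hz1 : z₀ < 1 := by
    have h1 : z₀ ^ 2 < 1 := by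
      have h2 : 0 < lam ^ 2 := by positivity
      by_contra hc
      push Not at hc
      nlinarith
    nlinarith
  set c : ℝ := ∫ z in (0 : ℝ)..z₀, z ^ 4 * √(1 - z ^ 2) ^ m with hc
  have hcont : Continuous fun z : ℝ => z ^ 4 * √(1 - z ^ 2) ^ m := by fun_prop
  have hcpos : 0 < c := by
    rw [hc]
    apply intervalIntegral.intervalIntegral_pos_of_pos_on (hcont.intervalIntegrable _ _) _ hz0
    intro z hz
    have h1 : 0 < 1 - z ^ 2 := by nlinarith [hz.1, hz.2]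
    have h2 : 0 < √(1 - z ^ 2) := Real.sqrt_pos.2 h1
    have h3 : 0 < z := hz.1
    positivity
  refine ⟨D₁ * lam ^ 3 * (ε * lam ^ 2 * c), by positivity, ?_⟩
  intro s t hs0 hst
  have ht0 : 0 < t := hs0.trans hst
  have hl' : 0 < 1 / lam := by positivity
  obtain ⟨is, es⟩ := B7b hS hl' hs0
  obtain ⟨it, et⟩ := B7b hS hl' ht0
  rw [one_div_one_div] at is es it et
  set Δ : ℝ := t ^ 2 / (lam ^ 2 + t ^ 2) - s ^ 2 / (lam ^ 2 + s ^ 2) with hΔ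
  set fs : ℝ → ℝ := fun z => z ^ 2 * √(1 - z ^ 2) ^ m *
    Gam m j l (1 / lam) ρ₁ r₁ (1 / xx lam s z) with hfs
  set ft : ℝ → ℝ := fun z => z ^ 2 * √(1 - z ^ 2) ^ m *
    Gam m j l (1 / lam) ρ₁ r₁ (1 / xx lam t z) with hft
  have hdiff : r₀ s * √(lam ^ 2 + s ^ 2) ^ 3 - r₀ t * √(lam ^ 2 + t ^ 2) ^ 3 =
      D₁ * lam ^ 3 * ∫ z in (0 : ℝ)..1, (fs z - ft z) := by
    rw [es, et, intervalIntegral.integral_sub is it]
    ring
  have ig : IntervalIntegrable (fun z => fs z - ft z) volume 0 1 := is.sub it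
  -- pointwise nonnegativity
  have hnn : ∀ z ∈ Ioo (0 : ℝ) 1, 0 ≤ fs z - ft z := by
    intro z hz
    have x1 := xx_pos hl hs0 hz.1 hz.2
    have x2 := xx_pos hl ht0 hz.1 hz.2
    have x12 := xx_mono hl hs0 hst hz.1 hz.2
    have h1 : 1 / xx lam t z ≤ 1 / xx lam s z := one_div_le_one_div_of_le x1 x12.le
    have h2 := hG (mem_Ioi.2 (one_div_pos.2 x2)) (mem_Ioi.2 (one_div_pos.2 x1)) h1
    have h3 : 0 ≤ z ^ 2 * √(1 - z ^ 2) ^ m := by positivity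
    have h4 : fs z - ft z = z ^ 2 * √(1 - z ^ 2) ^ m *
        (Gam m j l (1 / lam) ρ₁ r₁ (1 / xx lam s z) -
          Gam m j l (1 / lam) ρ₁ r₁ (1 / xx lam t z)) := by
      rw [hfs, hft]
      ring
    rw [h4]
    exact mul_nonneg h3 (sub_nonneg.2 h2)
  -- pointwise lower bound near 0
  have hlow : ∀ z ∈ Ioo (0 : ℝ) z₀,
      ε * lam ^ 2 * Δ * (z ^ 4 * √(1 - z ^ 2) ^ m) ≤ fs z - ft z := by
    intro z hz
    have hz1' : z < 1 := hz.2.trans hz1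
    have x1 := xx_pos hl hs0 hz.1 hz1'
    have x2 := xx_pos hl ht0 hz.1 hz1'
    have x12 := xx_mono hl hs0 hst hz.1 hz1'
    have r1 := xx_ratio hl hs0 hz.1 hz1'
    have r2 := xx_ratio hl ht0 hz.1 hz1'
    set a : ℝ := xx lam s z with ha
    set b : ℝ := xx lam t z with hb
    have hl2 : 0 < lam ^ 2 := by positivity
    have hda : 0 < lam ^ 2 + a ^ 2 := by positivity
    have hdb : 0 < lam ^ 2 + b ^ 2 := by positivity
    have hdt : 0 < lam ^ 2 + t ^ 2 := by positivity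
    have hbX : b ≤ X := by
      have h1 : t ^ 2 / (lam ^ 2 + t ^ 2) ≤ 1 := by
        rw [div_le_one hdt]
        linarith
      have hzz : z ^ 2 ≤ z₀ ^ 2 := by nlinarith [hz.1, hz.2]
      have h2 : b ^ 2 / (lam ^ 2 + b ^ 2) ≤ z₀ ^ 2 := by
        rw [r2]
        calc z ^ 2 * (t ^ 2 / (lam ^ 2 + t ^ 2)) ≤ z ^ 2 * 1 :=
              mul_le_mul_of_nonneg_left h1 (by positivity)
          _ ≤ z₀ ^ 2 := by linarith
      rw [div_le_iff₀ hdb] at h2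
      have h3 : b ^ 2 * (lam ^ 2 + X ^ 2) ≤ X ^ 2 * (lam ^ 2 + b ^ 2) := by
        calc b ^ 2 * (lam ^ 2 + X ^ 2) ≤ z₀ ^ 2 * (lam ^ 2 + b ^ 2) * (lam ^ 2 + X ^ 2) :=
              mul_le_mul_of_nonneg_right h2 hS0.le
          _ = (z₀ ^ 2 * (lam ^ 2 + X ^ 2)) * (lam ^ 2 + b ^ 2) := by ring
          _ = X ^ 2 * (lam ^ 2 + b ^ 2) := by rw [hz0sq]
      have h4 : b ^ 2 * lam ^ 2 ≤ X ^ 2 * lam ^ 2 := by nlinarith
      have h5 : b ^ 2 ≤ X ^ 2 := le_of_mul_le_mul_right h4 hl2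
      exact (sq_le_sq₀ x2.le hX.le).1 h5
    have hgam := hs a b x1 x12 hbX
    have hx : lam ^ 2 * (z ^ 2 * Δ) ≤ b ^ 2 - a ^ 2 := by
      have h1 : z ^ 2 * Δ = b ^ 2 / (lam ^ 2 + b ^ 2) - a ^ 2 / (lam ^ 2 + a ^ 2) := by
        rw [r1, r2, hΔ]
        ring
      rw [h1]
      have h2 : b ^ 2 / (lam ^ 2 + b ^ 2) - a ^ 2 / (lam ^ 2 + a ^ 2) =
          lam ^ 2 * (b ^ 2 - a ^ 2) / ((lam ^ 2 + b ^ 2) * (lam ^ 2 + a ^ 2)) := by
        field_simp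
        ring
      rw [h2]
      have hab : 0 ≤ b ^ 2 - a ^ 2 := by nlinarith
      rw [← mul_div_assoc, div_le_iff₀ (by positivity)]
      have h3 : lam ^ 2 * lam ^ 2 ≤ (lam ^ 2 + b ^ 2) * (lam ^ 2 + a ^ 2) := by
        nlinarith [sq_nonneg a, sq_nonneg b, mul_nonneg (sq_nonneg a) (sq_nonneg b)]
      nlinarith [mul_le_mul_of_nonneg_left h3 hab]
    have h4 : fs z - ft z = z ^ 2 * √(1 - z ^ 2) ^ m *
        (Gam m j l (1 / lam) ρ₁ r₁ (1 / a) - Gam m j l (1 / lam) ρ₁ r₁ (1 / b)) := by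
      rw [hfs, hft, ha, hb]
      ring
    rw [h4]
    have h5 : ε * (lam ^ 2 * (z ^ 2 * Δ)) ≤
        Gam m j l (1 / lam) ρ₁ r₁ (1 / a) - Gam m j l (1 / lam) ρ₁ r₁ (1 / b) :=
      (mul_le_mul_of_nonneg_left hx hε.le).trans hgam
    have h6 : 0 ≤ z ^ 2 * √(1 - z ^ 2) ^ m := by positivity
    calc ε * lam ^ 2 * Δ * (z ^ 4 * √(1 - z ^ 2) ^ m) =
          z ^ 2 * √(1 - z ^ 2) ^ m * (ε * (lam ^ 2 * (z ^ 2 * Δ))) := by ring
      _ ≤ _ := mul_le_mul_of_nonneg_left h5 h6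
  have ig1 : IntervalIntegrable (fun z => fs z - ft z) volume 0 z₀ :=
    ig.mono_set (by
      rw [uIcc_of_le hz0.le, uIcc_of_le zero_le_one]
      exact Icc_subset_Icc le_rfl hz1.le)
  have ig2 : IntervalIntegrable (fun z => fs z - ft z) volume z₀ 1 :=
    ig.mono_set (by
      rw [uIcc_of_le hz1.le, uIcc_of_le zero_le_one]
      exact Icc_subset_Icc hz0.le le_rfl)
  have hsplit := intervalIntegral.integral_add_adjacent_intervals ig1 ig2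
  have hI2 : 0 ≤ ∫ z in z₀..1, (fs z - ft z) := by
    have h1 := intervalIntegral.integral_mono_on_of_le_Ioo hz1.le
      (f := fun _ : ℝ => (0 : ℝ)) (g := fun z => fs z - ft z) (μ := volume)
      (by simp) ig2 (fun z hz => hnn z ⟨hz0.trans hz.1, hz.2⟩)
    simpa using h1
  have hI1 : ε * lam ^ 2 * Δ * c ≤ ∫ z in (0 : ℝ)..z₀, (fs z - ft z) := by
    rw [hc, ← intervalIntegral.integral_const_mul]
    exact intervalIntegral.integral_mono_on_of_le_Ioo hz0.le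
      ((hcont.const_mul (ε * lam ^ 2 * Δ)).intervalIntegrable _ _) ig1 hlow
  rw [hdiff, ← hsplit]
  have h7 : ε * lam ^ 2 * Δ * c ≤
      (∫ z in (0 : ℝ)..z₀, (fs z - ft z)) + ∫ z in z₀..1, (fs z - ft z) := by linarith
  calc D₁ * lam ^ 3 * (ε * lam ^ 2 * c) * Δ = D₁ * lam ^ 3 * (ε * lam ^ 2 * Δ * c) := by ring
    _ ≤ _ := mul_le_mul_of_nonneg_left h7 (by positivity)

end Pool.Agent.RB75
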