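import Mathlib

/-!
# Bodies of revolution and projection bodies: real-analysis definitions (project RB75)

`n = m + 3 = j + l` throughout (`n = d - 1`, `d` = dimension of the space).
A body of revolution about `e` is described by `H t = h_K (t f + e)`, `f ⊥ e` a unit vector, `t > 0`;
`ρ = H'`, `r = H''`.
-/

namespace Pool.Agent.RB75

open MeasureTheory Set Filter Topology

/-- `σ(τ) = τ / √(1 + τ²)` (the `ρ` of the unit ball). -/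
noncomputable def sg (τ : ℝ) : ℝ := τ / √(1 + τ ^ 2)

/-- `F(τ) = ρ(τ)^j σ(τ)^l`. -/
noncomputable def FF (j l : ℕ) (ρ : ℝ → ℝ) (τ : ℝ) : ℝ := ρ τ ^ j * sg τ ^ l

/-- `τ³ F'(τ)` when `r = ρ'`. -/
noncomputable def mm (j l : ℕ) (ρ r : ℝ → ℝ) (τ : ℝ) : ℝ :=
  j * ρ τ ^ (j - 1) * sg τ ^ l * (τ ^ 3 * r τ) + l * ρ τ ^ j * sg τ ^ (l + 2)

/-- A regular profile: `ρ(t) = ∫_0^t r`, `r ≥ 0`, `t³ r(t)` nondecreasing, `ρ` bounded, not zero. -/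
structure Reg (ρ r : ℝ → ℝ) : Prop where
  nn : ∀ t, 0 < t → 0 ≤ r t
  N_mono : MonotoneOn (fun t => t ^ 3 * r t) (Ioi 0)
  int : ∀ t, 0 < t → IntervalIntegrable r volume 0 t
  rho : ∀ t, 0 < t → ρ t = ∫ s in (0 : ℝ)..t, r s
  bdd : ∃ R, ∀ t, 0 < t → ρ t ≤ R
  ne : ∃ t, 0 < t ∧ 0 < ρ t

/-- `r'` is the second derivative of the support function of the `j`-th projection body
(up to the constant `D`) of the body with profile `(ρ, r)`. -/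
def Step (m j l : ℕ) (D : ℝ) (ρ r r' : ℝ → ℝ) : Prop :=
  ∀ t, 0 < t →
    IntervalIntegrable (fun z => z ^ 2 * √(1 - z ^ 2) ^ m * mm j l ρ r (1 / (t * z))) volume 0 1 ∧
    r' t = D * ∫ z in (0 : ℝ)..1, z ^ 2 * √(1 - z ^ 2) ^ m * mm j l ρ r (1 / (t * z))

/-- A pair of bodies, each the projection body of the other (up to constants). -/
structure Pair (m j l : ℕ) (D₀ D₁ : ℝ) (ρ₀ r₀ ρ₁ r₁ : ℝ → ℝ) : Prop where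
  hj : 2 ≤ j
  hn : j + l = m + 3
  hD0 : 0 < D₀
  hD1 : 0 < D₁
  reg0 : Reg ρ₀ r₀
  reg1 : Reg ρ₁ r₁
  step0 : Step m j l D₀ ρ₀ r₀ r₁
  step1 : Step m j l D₁ ρ₁ r₁ r₀

theorem Pair.symm {m j l : ℕ} {D₀ D₁ : ℝ} {ρ₀ r₀ ρ₁ r₁ : ℝ → ℝ}
    (h : Pair m j l D₀ D₁ ρ₀ r₀ ρ₁ r₁) : Pair m j l D₁ D₀ ρ₁ r₁ ρ₀ r₀ :=
  ⟨h.hj, h.hn, h.hD1, h.hD0, h.reg1, h.reg0, h.step1, h.step0⟩

/-- All elementary facts about one profile of a pair. -/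
structure Nice (ρ r : ℝ → ℝ) : Prop where
  pos : ∀ t, 0 < t → 0 < r t
  anti : AntitoneOn r (Ioi 0)
  N_mono : MonotoneOn (fun t => t ^ 3 * r t) (Ioi 0)
  cont : ContinuousOn r (Ioi 0)
  int : ∀ t, 0 < t → IntervalIntegrable r volume 0 t
  rho : ∀ t, 0 < t → ρ t = ∫ s in (0 : ℝ)..t, r s
  rho_pos : ∀ t, 0 < t → 0 < ρ t
  rho_mono : MonotoneOn ρ (Ioi 0)
  rho_sub : ∀ s t, 0 < s → s ≤ t → ρ t - ρ s = ∫ u in s..t, r u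
  rho_cont : ContinuousOn ρ (Ioi 0)
  rho_deriv : ∀ t, 0 < t → HasDerivAt ρ (r t) t
  bdd : ∃ R, 0 < R ∧ ∀ t, 0 < t → ρ t ≤ R
  small : Tendsto ρ (𝓝[>] 0) (𝓝 0)
  tr_le : ∀ t, 0 < t → t * r t ≤ ρ t

/-- The four bounds on one profile. -/
structure Bdd (ρ r : ℝ → ℝ) (B : ℝ) : Prop where
  Bpos : 0 < B
  r_le : ∀ t, 0 < t → r t ≤ B
  N_le : ∀ t, 0 < t → t ^ 3 * r t ≤ B
  rho_le : ∀ t, 0 < t → ρ t ≤ B
  rho_lin : ∀ t, 0 < t → ρ t ≤ B * t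

/-- `𝒫_λ` : `r(t) (λ² + t²)^{3/2}` is nonincreasing. -/
def Pdec (lam : ℝ) (r : ℝ → ℝ) : Prop := AntitoneOn (fun t => r t * √(lam ^ 2 + t ^ 2) ^ 3) (Ioi 0)

/-- the opposite property. -/
def Pinc (lam : ℝ) (r : ℝ → ℝ) : Prop := MonotoneOn (fun t => r t * √(lam ^ 2 + t ^ 2) ^ 3) (Ioi 0)

/-- strict form of `𝒫_λ`. -/
def Pstrict (lam : ℝ) (r : ℝ → ℝ) : Prop := ∃ ε, 0 < ε ∧ ∀ s t, 0 < s → s < t →
  ε * (t ^ 2 / (lam ^ 2 + t ^ 2) - s ^ 2 / (lam ^ 2 + s ^ 2)) ≤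
    r s * √(lam ^ 2 + s ^ 2) ^ 3 - r t * √(lam ^ 2 + t ^ 2) ^ 3

end Pool.Agent.RB75
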