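import Pool.Agent.RB75.ADefs
import Pool.Agent.RB75.G0

/-! Module RB-G2b: membership in an axially symmetric body.

Proof. (→) test `x` against `v = ± w + T g`, `g` the direction of `perp w x` (`exists_unit_dir`):
`⟪v, x⟫ = |⟪x,w⟫| + T ‖perp w x‖` for the right sign, `supp C v = P T`.
(←) `CCN.mem_iff`: for `α = ⟪v,w⟫ ≠ 0`, `⟪v,x⟫ = α⟪x,w⟫ + ⟪perp w v, perp w x⟫ ≤ |α| (|⟪x,w⟫| + (‖perp w v‖/|α|) ‖perp w x‖)
≤ |α| P(‖perp w v‖/|α|) = supp C v`. For `α = 0`: `⟪v,x⟫ ≤ ‖v‖ ‖perp w x‖ ≤ R ‖v‖`, where `‖perp w x‖ ≤ R` because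
`T ‖perp w x‖ ≤ P T` for all `T ≥ 0` and `P T - R T → b`. -/

namespace Pool.Agent.RB75
open MeasureTheory Set Filter Topology
open scoped RealInnerProductSpace

theorem g2b_inner {k : ℕ} {w : E k} (v x : E k) (hv : ⟪v, w⟫ = 0) :
    ⟪v, x⟫ = ⟪v, perp w x⟫ := by
  unfold perp
  rw [inner_sub_right, inner_smul_right, hv, mul_zero, sub_zero]

theorem G2b {k : ℕ} (hk : 2 ≤ k) {C : Set (E k)} (hC : CCN C) {w : E k} (hw : ‖w‖ = 1) {P ρ : ℝ → ℝ} {R b : ℝ}
    (h : AxSym w C P R) (hP : Prof P ρ R b) (x : E k) :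
    x ∈ C ↔ ∀ T, 0 ≤ T → |⟪x, w⟫| + T * ‖perp w x‖ ≤ P T := by
  have hww : ⟪w, w⟫ = (1 : ℝ) := by
    rw [real_inner_self_eq_norm_sq, hw]; norm_num
  constructor
  · intro hx T hT
    obtain ⟨g, hg1, hgw, hgp⟩ := exists_unit_dir hk (inner_perp hw x)
    obtain ⟨s, hs1, hsx⟩ : ∃ s : ℝ, |s| = 1 ∧ s * ⟪x, w⟫ = |⟪x, w⟫| := by
      rcases le_total 0 ⟪x, w⟫ with h0 | h0
      · exact ⟨1, by norm_num, by rw [one_mul, abs_of_nonneg h0]⟩
      · exact ⟨-1, by norm_num, by rw [abs_of_nonpos h0]; ring⟩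
    have hs0 : s ≠ 0 := by
      intro h0
      rw [h0, abs_zero] at hs1
      exact zero_ne_one hs1
    have hvw : ⟪s • w + T • g, w⟫ = s := by
      rw [inner_add_left, inner_smul_left, inner_smul_left, hww, hgw]
      simp
    have hperp : perp w (s • w + T • g) = T • g := perp_add_smul hw hgw s T
    have h1 := h.ne (s • w + T • g) (by rw [hvw]; exact hs0)
    rw [hvw, hs1, hperp, norm_smul, hg1, Real.norm_of_nonneg hT, mul_one, div_one, one_mul] at h1
    have h2 := hC.le_supp (s • w + T • g) hx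
    rw [h1, inner_add_left, inner_smul_left, inner_smul_left, real_inner_comm x w,
      g2b_inner g x hgw] at h2
    have h3 : ⟪g, perp w x⟫ = ‖perp w x‖ := by
      conv_lhs => rw [hgp]
      rw [inner_smul_right, real_inner_self_eq_norm_sq, hg1]
      norm_num
    rw [h3] at h2
    simp only [conj_trivial] at h2
    rw [hsx] at h2
    exact h2
  · intro hx
    rw [hC.mem_iff]
    intro v
    by_cases hα : ⟪v, w⟫ = (0 : ℝ)
    · rw [h.eq v hα, g2b_inner v x hα]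
      have hR : ‖perp w x‖ ≤ R := by
        by_contra hcon
        push Not at hcon
        have h1 : ∀ᶠ T in atTop, P T - R * T < b + 1 :=
          hP.blim.eventually (gt_mem_nhds (by linarith))
        have h2 : ∀ᶠ T : ℝ in atTop, b + 1 ≤ T * (‖perp w x‖ - R) :=
          (tendsto_id.atTop_mul_const (sub_pos.2 hcon)).eventually_ge_atTop (b + 1)
        obtain ⟨T, hT1, hT2, hT0⟩ := (h1.and (h2.and (eventually_ge_atTop 0))).exists
        have h3 := hx T hT0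
        have h4 := abs_nonneg (⟪x, w⟫ : ℝ)
        nlinarith
      calc ⟪v, perp w x⟫ ≤ ‖v‖ * ‖perp w x‖ := real_inner_le_norm _ _
        _ ≤ ‖v‖ * R := mul_le_mul_of_nonneg_left hR (norm_nonneg _)
        _ = R * ‖v‖ := mul_comm _ _
    · rw [h.ne v hα]
      have hα' : (0 : ℝ) < |⟪v, w⟫| := abs_pos.2 hα
      have hx' := hx (‖perp w v‖ / |⟪v, w⟫|) (by positivity)
      have e1 : ⟪v, x⟫ = ⟪v, w⟫ * ⟪x, w⟫ + ⟪perp w v, perp w x⟫ := by
        rw [← g2b_inner (perp w v) x (inner_perp hw v)]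
        unfold perp
        rw [inner_sub_left, inner_smul_left, real_inner_comm x w]
        simp
      rw [e1]
      have h1 : ⟪v, w⟫ * ⟪x, w⟫ ≤ |⟪v, w⟫| * |⟪x, w⟫| := by
        rw [← abs_mul]
        exact le_abs_self _
      have h2 : ⟪perp w v, perp w x⟫ ≤ ‖perp w v‖ * ‖perp w x‖ := real_inner_le_norm _ _
      have h3 : |⟪v, w⟫| * (|⟪x, w⟫| + ‖perp w v‖ / |⟪v, w⟫| * ‖perp w x‖) =
          |⟪v, w⟫| * |⟪x, w⟫| + ‖perp w v‖ * ‖perp w x‖ := by
        field_simp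
      have h4 := mul_le_mul_of_nonneg_left hx' hα'.le
      rw [h3] at h4
      linarith

end Pool.Agent.RB75
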