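import Pool.Agent.RB75.ADefs

/-! Module RB-G2c: the conjugate function. `Gf v = P 0 - ∫_0^∞ max (v - ρ T) 0 dT`.

Proof. For `v < R` the integrand vanishes for large `T`; for `v = R` it is `R - ρ ≥ 0`, with
`∫_0^T (R - ρ) = R T + P 0 - P T → P 0 - b`, so integrable; (`ρ ≤ R` since monotone with limit `R`).
`P T - T v = P 0 + ∫_0^T (ρ - v) ≥ P 0 - ∫_0^T max (v-ρ) 0 ≥ Gf v`: gives `←`. `→`: `v ≤ R`, since
`P T - T v → -∞` for `v > R` (`P T - R T → b`) while `s ≥ 0`. If `v = R`: `P T - T R → b = Gf R`. If `v < R`: let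
`T* = inf {T > 0 : ρ T ≥ v}` (nonempty); `ρ < v` before, `ρ ≥ v` after, so `P(T*) - T* v = Gf v` . -/

namespace Pool.Agent.RB75
open MeasureTheory Set Filter Topology

noncomputable def Gf (P ρ : ℝ → ℝ) (v : ℝ) : ℝ := P 0 - ∫ T in Ioi (0 : ℝ), max (v - ρ T) 0

private theorem g2_le {P ρ : ℝ → ℝ} {R b : ℝ} (hP : Prof P ρ R b) {T : ℝ} (hT : 0 < T) : ρ T ≤ R :=
  ge_of_tendsto hP.lim (by
    filter_upwards [eventually_ge_atTop T] with T' hT'
    exact hP.mono hT (lt_of_lt_of_le hT hT') hT')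

private theorem g2_meas {P ρ : ℝ → ℝ} {R b : ℝ} (hP : Prof P ρ R b) :
    AEStronglyMeasurable ρ (volume.restrict (Ioi (0 : ℝ))) :=
  (aemeasurable_restrict_of_monotoneOn measurableSet_Ioi hP.mono).aestronglyMeasurable

private theorem g2_int {P ρ : ℝ → ℝ} {R b : ℝ} (hP : Prof P ρ R b) (T : ℝ) :
    IntegrableOn ρ (Ioc 0 T) := by
  have h1 : AEStronglyMeasurable ρ (volume.restrict (Ioc (0 : ℝ) T)) :=
    (g2_meas hP).mono_measure (Measure.restrict_mono (fun x hx => hx.1) le_rfl)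
  refine Integrable.mono' (g := fun _ => R) (integrable_const R) h1 ?_
  filter_upwards [ae_restrict_mem measurableSet_Ioc] with x hx
  rw [Real.norm_eq_abs, abs_of_nonneg (hP.nn x hx.1)]
  exact g2_le hP hx.1

private theorem g2_mmeas {P ρ : ℝ → ℝ} {R b : ℝ} (hP : Prof P ρ R b) (v : ℝ) :
    AEStronglyMeasurable (fun T => max (v - ρ T) 0) (volume.restrict (Ioi (0 : ℝ))) := by
  have h1 := (g2_meas hP).aemeasurable
  exact ((aemeasurable_const.sub h1).max aemeasurable_const).aestronglyMeasurable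

private theorem g2_R {P ρ : ℝ → ℝ} {R b : ℝ} (hP : Prof P ρ R b) {T : ℝ} (hT : 0 < T) :
    max (R - ρ T) 0 = R - ρ T := max_eq_left (by linarith [g2_le hP hT])

private theorem g2_ii {P ρ : ℝ → ℝ} {R b : ℝ} (hP : Prof P ρ R b) {T : ℝ} (hT : 0 ≤ T) :
    IntervalIntegrable ρ volume 0 T :=
  (intervalIntegrable_iff_integrableOn_Ioc_of_le hT).2 (g2_int hP T)

private theorem g2_id {P ρ : ℝ → ℝ} {R b : ℝ} (hP : Prof P ρ R b) (v : ℝ) {T : ℝ} (hT : 0 ≤ T) :
    P T - T * v = P 0 - ∫ x in Ioc 0 T, (v - ρ x) := by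
  have h2 : ∫ x in Ioc 0 T, (v - ρ x) = T * v - ∫ x in Ioc 0 T, ρ x := by
    rw [integral_sub (by simp) (g2_int hP T)]
    simp [hT]
  rw [h2, hP.H_int T hT, intervalIntegral.integral_of_le hT]
  ring

private theorem g2_intR {P ρ : ℝ → ℝ} {R b : ℝ} (hP : Prof P ρ R b) :
    IntegrableOn (fun T => max (R - ρ T) 0) (Ioi 0) ∧
      ∫ T in Ioi (0 : ℝ), max (R - ρ T) 0 = P 0 - b := by
  have hloc : ∀ T : ℝ, IntegrableOn (fun T => max (R - ρ T) 0) (Ioc 0 T) := by
    intro T
    have h1 : IntegrableOn (fun x => R - ρ x) (Ioc 0 T) :=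
      (integrableOn_const (by simp)).sub (g2_int hP T)
    refine h1.congr_fun (fun x hx => ?_) measurableSet_Ioc
    exact (g2_R hP hx.1).symm
  have hval : ∀ T : ℝ, 0 ≤ T → ∫ x in (0 : ℝ)..T, max (R - ρ x) 0 = P 0 - (P T - R * T) := by
    intro T hT
    have h1 : ∫ x in Ioc 0 T, max (R - ρ x) 0 = ∫ x in Ioc 0 T, (R - ρ x) :=
      setIntegral_congr_fun measurableSet_Ioc (fun x hx => g2_R hP hx.1)
    rw [intervalIntegral.integral_of_le hT, h1]
    have := g2_id hP R hT
    linarith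
  have htend : Tendsto (fun T => ∫ x in (0 : ℝ)..T, max (R - ρ x) 0) atTop (𝓝 (P 0 - b)) := by
    have h1 : Tendsto (fun T => P 0 - (P T - R * T)) atTop (𝓝 (P 0 - b)) :=
      tendsto_const_nhds.sub hP.blim
    refine h1.congr' ?_
    filter_upwards [eventually_ge_atTop (0 : ℝ)] with T hT
    exact (hval T hT).symm
  have hI : IntegrableOn (fun T => max (R - ρ T) 0) (Ioi 0) := by
    refine integrableOn_Ioi_of_intervalIntegral_norm_tendsto (P 0 - b) 0 (fun T => hloc T)
      tendsto_id ?_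
    refine htend.congr' ?_
    filter_upwards [eventually_ge_atTop (0 : ℝ)] with T hT
    refine intervalIntegral.integral_congr (fun x hx => ?_)
    rw [Real.norm_eq_abs, abs_of_nonneg (le_max_right _ _)]
  refine ⟨hI, ?_⟩
  exact tendsto_nhds_unique (intervalIntegral_tendsto_integral_Ioi 0 hI tendsto_id) htend

theorem Gf_integrable {P ρ : ℝ → ℝ} {R b : ℝ} (hP : Prof P ρ R b) {v : ℝ} (hv : v ≤ R) :
    IntegrableOn (fun T => max (v - ρ T) 0) (Ioi 0) := by
  refine Integrable.mono' (g2_intR hP).1 (g2_mmeas hP v) ?_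
  filter_upwards with T
  rw [Real.norm_eq_abs, abs_of_nonneg (le_max_right _ _)]
  exact max_le_max (by linarith) le_rfl

theorem G2c {P ρ : ℝ → ℝ} {R b : ℝ} (hP : Prof P ρ R b) {s v : ℝ} (hs : 0 ≤ s) (hv : 0 ≤ v) :
    (∀ T, 0 ≤ T → s + T * v ≤ P T) ↔ (v ≤ R ∧ s ≤ Gf P ρ v) := by
  constructor
  · intro h
    have hvR : v ≤ R := by
      by_contra hc
      have hc' : R < v := not_le.1 hc
      have h1 : Tendsto (fun T : ℝ => T * (v - R)) atTop atTop :=
        tendsto_id.atTop_mul_const (by linarith)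
      have h2 : Tendsto (fun T => P T - R * T) atTop atTop := by
        refine tendsto_atTop_mono' atTop ?_ h1
        filter_upwards [eventually_ge_atTop (0 : ℝ)] with T hT
        have := h T hT
        nlinarith
      exact not_tendsto_nhds_of_tendsto_atTop h2 b hP.blim
    refine ⟨hvR, ?_⟩
    rcases hvR.lt_or_eq with hlt | heq
    · obtain ⟨S, hS⟩ : ∃ S : Set ℝ, S = {T | 0 < T ∧ v ≤ ρ T} := ⟨_, rfl⟩
      have hne : S.Nonempty := by
        have h1 : ∀ᶠ T in atTop, v < ρ T := hP.lim.eventually (lt_mem_nhds hlt)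
        obtain ⟨T, h2, h3⟩ := (h1.and (eventually_gt_atTop (0 : ℝ))).exists
        exact ⟨T, by rw [hS]; exact ⟨h3, h2.le⟩⟩
      have hbd : BddBelow S := ⟨0, by rw [hS]; rintro x ⟨hx, -⟩; exact hx.le⟩
      obtain ⟨t, ht⟩ : ∃ t, t = sInf S := ⟨_, rfl⟩
      have ht0 : 0 ≤ t := by
        rw [ht]
        exact le_csInf hne (by rw [hS]; rintro x ⟨hx, -⟩; exact hx.le)
      have hbefore : ∀ x ∈ Ioo 0 t, ρ x < v := by
        intro x hx
        by_contra hc
        have : x ∈ S := by rw [hS]; exact ⟨hx.1, not_lt.1 hc⟩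
        have := csInf_le hbd this
        rw [← ht] at this
        linarith [hx.2]
      have hafter : ∀ x ∈ Ioi t, v ≤ ρ x := by
        intro x hx
        obtain ⟨y, hy, hyx⟩ := exists_lt_of_csInf_lt hne (by rw [← ht]; exact hx)
        rw [hS] at hy
        exact hy.2.trans (hP.mono hy.1 (hy.1.trans hyx) hyx.le)
      have hint := Gf_integrable hP hvR
      have hsplit : ∫ x in Ioi (0 : ℝ), max (v - ρ x) 0 = ∫ x in Ioc 0 t, (v - ρ x) := by
        have hu : Ioi (0 : ℝ) = Ioc 0 t ∪ Ioi t := (Ioc_union_Ioi_eq_Ioi ht0).symm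
        rw [hu, setIntegral_union (Ioc_disjoint_Ioi le_rfl) measurableSet_Ioi
          (hint.mono_set (fun x hx => hx.1)) (hint.mono_set (fun x hx => lt_of_le_of_lt ht0 hx))]
        have h2 : ∫ x in Ioi t, max (v - ρ x) 0 = 0 := by
          rw [setIntegral_congr_fun (g := fun _ => (0 : ℝ)) measurableSet_Ioi]
          · simp
          · intro x hx
            exact max_eq_right (by linarith [hafter x hx])
        have h3 : ∫ x in Ioc 0 t, max (v - ρ x) 0 = ∫ x in Ioc 0 t, (v - ρ x) := by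
          rw [integral_Ioc_eq_integral_Ioo, integral_Ioc_eq_integral_Ioo]
          refine setIntegral_congr_fun measurableSet_Ioo (fun x hx => ?_)
          exact max_eq_left (by linarith [hbefore x hx])
        rw [h2, h3, add_zero]
      unfold Gf
      rw [hsplit, ← g2_id hP v ht0]
      linarith [h t ht0]
    · have h1 : Gf P ρ v = b := by
        unfold Gf
        rw [heq, (g2_intR hP).2]
        ring
      rw [h1]
      refine ge_of_tendsto hP.blim ?_
      filter_upwards [eventually_ge_atTop (0 : ℝ)] with T hT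
      have := h T hT
      rw [heq] at this
      linarith
  · rintro ⟨hvR, hsG⟩ T hT
    have hint := Gf_integrable hP hvR
    have h1 : ∫ x in Ioc 0 T, (v - ρ x) ≤ ∫ x in Ioc 0 T, max (v - ρ x) 0 := by
      refine setIntegral_mono_on ((integrableOn_const (by simp)).sub (g2_int hP T))
        (hint.mono_set (fun x hx => hx.1)) measurableSet_Ioc (fun x _ => le_max_left _ _)
    have h2 : ∫ x in Ioc 0 T, max (v - ρ x) 0 ≤ ∫ x in Ioi (0 : ℝ), max (v - ρ x) 0 := by
      refine setIntegral_mono_set hint ?_ (Eventually.of_forall (fun x hx => hx.1))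
      filter_upwards with x
      exact le_max_right _ _
    have h3 := g2_id hP v hT
    unfold Gf at hsG
    linarith

end Pool.Agent.RB75
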