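import Pool.Agent.RB75.GDefs

/-! Module RB-G2d: Fubini for a set of revolution in `E (k+1)` with unit axis `w`.

Proof. A linear isometry equivalence `g` of `E (k+1)` with `g w = EuclideanSpace.single 0 1` preserves `volume`,
`⟪g x, g w⟫ = ⟪x, w⟫`, `‖perp (g w) (g x)‖ = ‖perp w x‖`; so assume `w = EuclideanSpace.single 0 1`. Then
`⟪x,w⟫ = x 0` and `‖perp w x‖ = ‖(x 1, …, x k)‖`. The map `E (k+1) → ℝ × E k` is measure preserving
(`EuclideanSpace.volume_preserving_measurableEquiv`, `MeasureTheory.volume_preserving_piFinSuccAbove`, or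
`MeasurableEquiv.piFinSuccAbove`); use `Measure.prod_apply_symm` (slices over `y ∈ E k`): the slice is
`[-G ‖y‖, G ‖y‖]` if `‖y‖ ≤ R`, of length `ofReal (2 G ‖y‖)` (also when `G ‖y‖ < 0`), else empty. -/

namespace Pool.Agent.RB75
open MeasureTheory Set Filter Topology
open scoped RealInnerProductSpace

/-- `(t, y) ↦ (t, y_1, ..., y_k)` -/
noncomputable def g2dMap (k : ℕ) (p : ℝ × E k) : E (k + 1) :=
  WithLp.toLp 2 ((MeasurableEquiv.piFinSuccAbove (fun _ : Fin (k + 1) => ℝ) 0).symm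
    (Prod.map id (WithLp.ofLp) p))

theorem g2dMap_mp (k : ℕ) : MeasurePreserving (g2dMap k) := by
  have h1 : MeasurePreserving (Prod.map id (WithLp.ofLp) : ℝ × E k → ℝ × (Fin k → ℝ)) :=
    (MeasurePreserving.id volume).prod (PiLp.volume_preserving_ofLp (Fin k))
  have h2 := (volume_preserving_piFinSuccAbove (fun _ : Fin (k + 1) => ℝ) 0).symm
  have h3 := PiLp.volume_preserving_toLp (Fin (k + 1))
  exact h3.comp (h2.comp h1)

theorem g2dMap_zero (k : ℕ) (t : ℝ) (y : E k) : g2dMap k (t, y) 0 = t := by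
  simp [g2dMap, MeasurableEquiv.piFinSuccAbove]

theorem g2dMap_succ (k : ℕ) (t : ℝ) (y : E k) (i : Fin k) : g2dMap k (t, y) i.succ = y i := by
  simp [g2dMap, MeasurableEquiv.piFinSuccAbove]

theorem g2d_inner (k : ℕ) (t : ℝ) (y : E k) :
    ⟪g2dMap k (t, y), EuclideanSpace.single 0 1⟫ = t := by
  rw [EuclideanSpace.inner_single_right]
  simp [g2dMap_zero]

theorem g2d_norm (k : ℕ) (t : ℝ) (y : E k) :
    ‖g2dMap k (t, y) - t • (EuclideanSpace.single 0 1 : E (k + 1))‖ = ‖y‖ := by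
  rw [EuclideanSpace.norm_eq, EuclideanSpace.norm_eq, Fin.sum_univ_succ]
  simp [g2dMap_zero, g2dMap_succ]

theorem G2d {k : ℕ} {w : E (k + 1)} (hw : ‖w‖ = 1) {C : Set (E (k + 1))} (hC : MeasurableSet C) {R : ℝ}
    {G : ℝ → ℝ} (hmem : ∀ x, x ∈ C ↔ ‖perp w x‖ ≤ R ∧ |⟪x, w⟫| ≤ G ‖perp w x‖) :
    volume C = ∫⁻ y in Metric.closedBall (0 : E k) R, ENNReal.ofReal (2 * G ‖y‖) := by
  obtain ⟨e, he⟩ : ∃ e : E (k + 1), e = EuclideanSpace.single 0 1 := ⟨_, rfl⟩
  have hen : ‖e‖ = 1 := by rw [he]; simp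
  obtain ⟨g, hg⟩ : ∃ g : E (k + 1) ≃ₗᵢ[ℝ] E (k + 1), g e = w :=
    ⟨_, Submodule.reflection_sub (hen.trans hw.symm)⟩
  have hmp : MeasurePreserving (fun p => g (g2dMap k p)) := g.measurePreserving.comp (g2dMap_mp k)
  rw [← hmp.measure_preimage hC.nullMeasurableSet]
  have hin : ∀ t y, ⟪g (g2dMap k (t, y)), w⟫ = t := by
    intro t y
    rw [← hg, g.inner_map_map, he, g2d_inner]
  have hno : ∀ t y, ‖perp w (g (g2dMap k (t, y)))‖ = ‖y‖ := by
    intro t y
    rw [perp, hin, ← hg, ← map_smul, ← map_sub, g.norm_map, he, g2d_norm]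
  have hset : (fun p => g (g2dMap k p)) ⁻¹' C = {p : ℝ × E k | ‖p.2‖ ≤ R ∧ |p.1| ≤ G ‖p.2‖} := by
    ext ⟨t, y⟩
    simp only [mem_preimage, mem_ofPred_eq]
    rw [hmem, hin, hno]
  have hmeas : MeasurableSet ((fun p => g (g2dMap k p)) ⁻¹' C) := hmp.measurable hC
  rw [Measure.volume_eq_prod, Measure.prod_apply_symm hmeas, hset,
    ← lintegral_indicator Metric.isClosed_closedBall.measurableSet]
  apply lintegral_congr
  intro y
  by_cases hy : ‖y‖ ≤ R
  · rw [indicator_of_mem (by simpa using hy)]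
    have : (fun x : ℝ => (x, y)) ⁻¹' {p : ℝ × E k | ‖p.2‖ ≤ R ∧ |p.1| ≤ G ‖p.2‖} =
        Icc (-G ‖y‖) (G ‖y‖) := by
      ext t
      simp only [mem_preimage, mem_ofPred_eq, mem_Icc, abs_le, hy, true_and]
    rw [this, Real.volume_Icc]
    congr 1
    ring
  · rw [indicator_of_notMem (by simpa using hy)]
    have : (fun x : ℝ => (x, y)) ⁻¹' {p : ℝ × E k | ‖p.2‖ ≤ R ∧ |p.1| ≤ G ‖p.2‖} = ∅ := by
      ext t
      simp only [mem_preimage, mem_ofPred_eq, hy, false_and, mem_empty_iff_false]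
    rw [this, measure_empty]

end Pool.Agent.RB75
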