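import Mathlib

/-!
# Geometric definitions: intrinsic volumes, projection bodies, bodies of revolution

`E k` is Euclidean `k`-space. `K|u^⊥` is read in orthonormal coordinates of `u^⊥`:
for a linear isometry `ι : E k → E (k+1)` with `ι y ⊥ u` for all `y` (so `ι` maps `E k` isometrically
onto `u^⊥`), the orthogonal projection of `K` to `u^⊥` is `ι '' shadow ι u K`.
-/

namespace Pool.Agent.RB75

open MeasureTheory Set Filter Topology
open scoped RealInnerProductSpace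

abbrev E (k : ℕ) := EuclideanSpace ℝ (Fin k)

/-- `κ_k`, the volume of the unit ball of `ℝ^k`. -/
noncomputable def kap (k : ℕ) : ℝ := (volume (Metric.closedBall (0 : E k) 1)).toReal

/-- the support function of `K`. -/
noncomputable def supp {k : ℕ} (K : Set (E k)) (u : E k) : ℝ := sSup ((fun x => ⟪u, x⟫) '' K)

/-- `v` is the `j`-th intrinsic volume of `C ⊆ ℝ^k`: Steiner's formula
`vol (C + ε B) = ∑ ε^(k-i) κ_(k-i) V_i(C)`, the coefficient of `ε^(k-j)` being `κ_(k-j) v`. -/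
def IsIntrVol (k j : ℕ) (C : Set (E k)) (v : ℝ) : Prop :=
  ∃ P : Polynomial ℝ, (∀ ε : ℝ, 0 < ε → (volume (Metric.cthickening ε C)).toReal = P.eval ε) ∧
    P.coeff (k - j) = kap (k - j) * v

/-- the orthogonal projection of `K` to `u^⊥` in the coordinates `ι` of `u^⊥`. -/
def shadow {k : ℕ} (ι : E k →ₗᵢ[ℝ] E (k + 1)) (u : E (k + 1)) (K : Set (E (k + 1))) : Set (E k) :=
  {y | ∃ s : ℝ, ι y + s • u ∈ K}

/-- `L` is the `j`-th projection body of `K ⊆ ℝ^(k+1)`. -/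
def IsProjBody {k : ℕ} (j : ℕ) (K L : Set (E (k + 1))) : Prop :=
  IsCompact L ∧ Convex ℝ L ∧ L.Nonempty ∧ ∀ u : E (k + 1), ‖u‖ = 1 →
    ∀ ι : E k →ₗᵢ[ℝ] E (k + 1), (∀ y, ⟪ι y, u⟫ = 0) → IsIntrVol k j (shadow ι u K) (supp L u)

/-- a compact convex nonempty set. -/
structure CCN {k : ℕ} (K : Set (E k)) : Prop where
  compact : IsCompact K
  convex : Convex ℝ K
  nonempty : K.Nonempty

/-- the component of `v` orthogonal to the unit vector `e`. -/
noncomputable def perp {k : ℕ} (e v : E k) : E k := v - ⟪v, e⟫ • e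

/-- the support function of `K` depends only on `|⟪v,e⟫|` and `‖perp e v‖`:
`H t = h_K(± e + t f)`, `f ⊥ e` unit, `t ≥ 0`, and `R = h_K(f)`. -/
structure AxSym {k : ℕ} (e : E k) (K : Set (E k)) (H : ℝ → ℝ) (R : ℝ) : Prop where
  ne : ∀ v, ⟪v, e⟫ ≠ 0 → supp K v = |⟪v, e⟫| * H (‖perp e v‖ / |⟪v, e⟫|)
  eq : ∀ v, ⟪v, e⟫ = 0 → supp K v = R * ‖v‖

/-- constant `2 κ_(k-1) / k`. -/
noncomputable def cc (k : ℕ) : ℝ := 2 * kap (k - 1) / k

/-! ### definitions used only in the final statement -/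

/-- a convex body of revolution (invariant under all rotations about a line `p + ℝ e`). -/
structure IsRevBody {k : ℕ} (K : Set (E k)) : Prop where
  compact : IsCompact K
  convex : Convex ℝ K
  interior : (interior K).Nonempty
  rev : ∃ p e : E k, ‖e‖ = 1 ∧ ∀ g : E k ≃ₗᵢ[ℝ] E k, g e = e → ∀ x ∈ K, p + g (x - p) ∈ K

/-- `L` is homothetic to `K`. -/
def Homothetic {k : ℕ} (K L : Set (E k)) : Prop := ∃ c : ℝ, 0 < c ∧ ∃ x : E k, L = (fun y => c • y + x) '' K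

/-- Euclidean ball. -/
def IsBall {k : ℕ} (K : Set (E k)) : Prop := ∃ p : E k, ∃ r : ℝ, 0 < r ∧ K = Metric.closedBall p r

/-- ellipsoid of revolution with semiaxes `r` (orthogonal to the axis) and `s` (along the axis). -/
def IsEllRev {k : ℕ} (K : Set (E k)) : Prop := ∃ p e : E k, ‖e‖ = 1 ∧ ∃ r s : ℝ, 0 < r ∧ 0 < s ∧
  K = {x | ‖perp e (x - p)‖ ^ 2 / r ^ 2 + ⟪x - p, e⟫ ^ 2 / s ^ 2 ≤ 1}

/-- right circular cylinder with radius `r` and height `2 s`. -/
def IsCyl {k : ℕ} (K : Set (E k)) (r s : ℝ) : Prop := ∃ p e : E k, ‖e‖ = 1 ∧ 0 < r ∧ 0 < s ∧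
  K = {x | ‖perp e (x - p)‖ ≤ r ∧ |⟪x - p, e⟫| ≤ s}

end Pool.Agent.RB75
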