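import Pool.Agent.RB75.ADefs
import Pool.Agent.RB75.GDefs
import Pool.Agent.RB75.G2c

/-! Module RB-G2e: evaluation of the integral.

(1) For `0 ≤ a ≤ R`, `k ≥ 1`: `∫_{closedBall 0 R ⊆ E k} max (‖y‖ - a) 0 dy = κ_k (R^k (R-a) - (R^{k+1}-a^{k+1})/(k+1))`:
polar coordinates `∫ φ(‖y‖) dy = k κ_k ∫_0^∞ r^{k-1} φ(r) dr` (`MeasureTheory.Measure.integral_fun_norm_addHaar` or
`integral_fun_norm_addHaar`; `κ_k = volume (closedBall 0 1) = volume (ball 0 1)`).
(2) `∫_{closedBall 0 R} 2 Gf(‖y‖) dy = 2 κ_k R^k P 0 - 2 ∫_0^∞ (∫_{closedBall} max (‖y‖ - ρ T) 0 dy) dT` (Tonelli, all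
finite: `max (‖y‖-ρ T) 0 ≤ R - ρ T`, integrable on `(0,∞)` with integral `P 0 - b`)
`= 2 κ_k [R^k P 0 - R^k (P 0 - b) + (1/(k+1)) ∫_0^∞ (R^{k+1} - ρ^{k+1}) dT]`.
`R^{k+1} - ρ^{k+1} ≤ (k+1) R^k (R - ρ)` is integrable. `Gf ‖y‖ ≥ 0` on the ball (G2c with `s = 0`: `P T ≥ R T`, as
`P T - R T` is nonincreasing with limit `b ≥ 0`), so `∫⁻ ofReal` is `ofReal` of the integral. -/

namespace Pool.Agent.RB75
open MeasureTheory Set Filter Topology

private theorem radial_int {k : ℕ} (hk : 1 ≤ k) {a R : ℝ} (ha : 0 ≤ a) (haR : a ≤ R) :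
    ∫ r in Ioi (0 : ℝ), r ^ (k - 1) • (Iic R).indicator (fun r => max (r - a) 0) r =
      (R ^ (k + 1) - a ^ (k + 1)) / (k + 1) - a * ((R ^ k - a ^ k) / k) := by
  obtain ⟨k', rfl⟩ : ∃ k', k = k' + 1 := ⟨k - 1, by omega⟩
  have h1 : ∀ r : ℝ, r ^ (k' + 1 - 1) • (Iic R).indicator (fun r => max (r - a) 0) r
      = (Iic R).indicator (fun r => r ^ k' * max (r - a) 0) r := by
    intro r
    by_cases hr : r ∈ Iic R
    · simp [indicator_of_mem hr, smul_eq_mul]
    · simp [indicator_of_notMem hr]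
  simp_rw [h1]
  rw [setIntegral_indicator measurableSet_Iic, Ioi_inter_Iic]
  have hR : 0 ≤ R := ha.trans haR
  rw [← intervalIntegral.integral_of_le hR]
  have hc : Continuous (fun r : ℝ => r ^ k' * max (r - a) 0) := by fun_prop
  rw [← intervalIntegral.integral_add_adjacent_intervals (b := a) (hc.intervalIntegrable _ _)
    (hc.intervalIntegrable _ _)]
  have e1 : ∫ r in (0 : ℝ)..a, r ^ k' * max (r - a) 0 = 0 := by
    rw [intervalIntegral.integral_congr (g := fun _ => (0 : ℝ))]
    · simp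
    · intro r hr
      rw [uIcc_of_le ha] at hr
      have : max (r - a) 0 = 0 := max_eq_right (by linarith [hr.2])
      simp [this]
  have e2 : ∫ r in a..R, r ^ k' * max (r - a) 0 = ∫ r in a..R, (r ^ (k' + 1) - a * r ^ k') := by
    apply intervalIntegral.integral_congr
    intro r hr
    rw [uIcc_of_le haR] at hr
    have : max (r - a) 0 = r - a := max_eq_left (by linarith [hr.1])
    simp only [this]
    ring
  rw [e1, e2, intervalIntegral.integral_sub (by apply Continuous.intervalIntegrable; fun_prop)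
    (by apply Continuous.intervalIntegrable; fun_prop), intervalIntegral.integral_const_mul,
    integral_pow, integral_pow]
  push_cast
  ring

theorem ball_integral {k : ℕ} (hk : 1 ≤ k) {a R : ℝ} (ha : 0 ≤ a) (haR : a ≤ R) :
    ∫ y in Metric.closedBall (0 : E k) R, max (‖y‖ - a) 0 =
      kap k * (R ^ k * (R - a) - (R ^ (k + 1) - a ^ (k + 1)) / (k + 1)) := by
  have : Nonempty (Fin k) := ⟨⟨0, by omega⟩⟩
  have : Nontrivial (E k) := inferInstance
  have h1 : ∫ y in Metric.closedBall (0 : E k) R, max (‖y‖ - a) 0 =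
      ∫ y : E k, (Iic R).indicator (fun r => max (r - a) 0) ‖y‖ := by
    rw [← integral_indicator Metric.isClosed_closedBall.measurableSet]
    apply integral_congr_ae
    filter_upwards with y
    by_cases hy : ‖y‖ ≤ R
    · rw [indicator_of_mem (by simpa using hy), indicator_of_mem (by simpa using hy)]
    · rw [indicator_of_notMem (by simpa using hy), indicator_of_notMem (by simpa using hy)]
  rw [h1, integral_fun_norm_addHaar]
  have h2 : Module.finrank ℝ (E k) = k := by simp
  rw [h2, radial_int hk ha haR]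
  have h3 : (volume : Measure (E k)).real (Metric.ball 0 1) = kap k := by
    unfold kap
    rw [Measure.addHaar_closedBall_eq_addHaar_ball]
    rfl
  rw [h3, nsmul_eq_mul, smul_eq_mul]
  have hk0 : (k : ℝ) ≠ 0 := by positivity
  have hk1 : (k : ℝ) + 1 ≠ 0 := by positivity
  field_simp
  ring

private theorem rho_le {P ρ : ℝ → ℝ} {R b : ℝ} (hP : Prof P ρ R b) {T : ℝ} (hT : 0 < T) : ρ T ≤ R := by
  apply ge_of_tendsto hP.lim
  filter_upwards [eventually_ge_atTop T] with s hs
  exact hP.mono hT (lt_of_lt_of_le hT hs) hs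

private theorem rho_aem {P ρ : ℝ → ℝ} {R b : ℝ} (hP : Prof P ρ R b) :
    AEMeasurable ρ (volume.restrict (Ioi (0 : ℝ))) :=
  aemeasurable_restrict_of_monotoneOn measurableSet_Ioi hP.mono

private theorem sub_integrable {P ρ : ℝ → ℝ} {R b : ℝ} (hP : Prof P ρ R b) :
    IntegrableOn (fun T => R - ρ T) (Ioi 0) := by
  refine (Gf_integrable hP (le_refl R)).congr_fun ?_ measurableSet_Ioi
  intro T hT
  exact max_eq_left (by linarith [rho_le hP hT])

private theorem pow_sub_le {r R : ℝ} (hr : 0 ≤ r) (hrR : r ≤ R) (i : ℕ) :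
    R ^ i - r ^ i ≤ i * R ^ (i - 1) * (R - r) := by
  induction i with
  | zero => simp
  | succ i ih =>
    have hR : 0 ≤ R := hr.trans hrR
    rcases Nat.eq_zero_or_pos i with rfl | hi
    · simp
    · have e : R ^ (i + 1) - r ^ (i + 1) = R ^ i * (R - r) + r * (R ^ i - r ^ i) := by ring
      have h1 : r * (R ^ i - r ^ i) ≤ R * (i * R ^ (i - 1) * (R - r)) := by
        apply mul_le_mul hrR ih _ hR
        exact sub_nonneg.2 (pow_le_pow_left₀ hr hrR i)
      have e2 : R * (i * R ^ (i - 1) * (R - r)) = i * R ^ i * (R - r) := by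
        obtain ⟨j, rfl⟩ : ∃ j, i = j + 1 := ⟨i - 1, by omega⟩
        simp only [Nat.add_sub_cancel]
        ring
      rw [e]
      simp only [Nat.add_sub_cancel]
      push_cast
      nlinarith [h1, e2]

theorem pow_sub_integrable {P ρ : ℝ → ℝ} {R b : ℝ} (hP : Prof P ρ R b) (i : ℕ) :
    IntegrableOn (fun T => R ^ i - ρ T ^ i) (Ioi 0) := by
  refine Integrable.mono' (((sub_integrable hP).integrable).const_mul (i * R ^ (i - 1))) ?_ ?_
  · exact ((aemeasurable_const).sub ((rho_aem hP).pow_const i)).aestronglyMeasurable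
  · rw [ae_restrict_iff' measurableSet_Ioi]
    filter_upwards with T hT
    have h0 := hP.nn T hT
    have h1 := rho_le hP hT
    rw [Real.norm_eq_abs, abs_of_nonneg (sub_nonneg.2 (pow_le_pow_left₀ h0 h1 i))]
    exact pow_sub_le h0 h1 i

private theorem integral_sub_eq {P ρ : ℝ → ℝ} {R b : ℝ} (hP : Prof P ρ R b) :
    ∫ T in Ioi (0 : ℝ), (R - ρ T) = P 0 - b := by
  have h1 := intervalIntegral_tendsto_integral_Ioi 0 (sub_integrable hP) tendsto_id
  have hint : ∀ T, 0 ≤ T → IntervalIntegrable ρ volume 0 T := by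
    intro T hT
    rw [intervalIntegrable_iff_integrableOn_Ioc_of_le hT]
    have h2 : IntegrableOn (fun s => R - (R - ρ s)) (Ioc 0 T) := by
      apply Integrable.sub
      · exact integrableOn_const (by simp)
      · exact (sub_integrable hP).mono_set Ioc_subset_Ioi_self
    simpa using h2
  have h2 : Tendsto (fun T : ℝ => ∫ s in (0 : ℝ)..T, (R - ρ s)) atTop (𝓝 (P 0 - b)) := by
    have h3 : Tendsto (fun T : ℝ => P 0 - (P T - R * T)) atTop (𝓝 (P 0 - b)) :=
      tendsto_const_nhds.sub hP.blim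
    refine h3.congr' ?_
    filter_upwards [eventually_ge_atTop (0 : ℝ)] with T hT
    rw [intervalIntegral.integral_sub (by simp) (hint T hT), hP.H_int T hT]
    simp
    ring
  exact tendsto_nhds_unique h1 h2

theorem G2e {k : ℕ} (hk : 1 ≤ k) {P ρ : ℝ → ℝ} {R b : ℝ} (hP : Prof P ρ R b) :
    (∫⁻ y in Metric.closedBall (0 : E k) R, ENNReal.ofReal (2 * Gf P ρ ‖y‖)).toReal =
      2 * kap k * (R ^ k * b + 1 / ((k : ℝ) + 1) * ∫ T in Ioi (0 : ℝ), (R ^ (k + 1) - ρ T ^ (k + 1))) := by
  have hR : 0 < R := hP.Rpos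
  have : Nonempty (Fin k) := ⟨⟨0, by omega⟩⟩
  have hnt : Nontrivial (E k) := inferInstance
  set μ : Measure (E k) := volume.restrict (Metric.closedBall (0 : E k) R) with hμ
  set ν : Measure ℝ := volume.restrict (Ioi (0 : ℝ)) with hν
  have : IsFiniteMeasure μ := ⟨by
    rw [hμ, Measure.restrict_apply_univ]
    exact (isCompact_closedBall (0 : E k) R).measure_lt_top⟩
  have hmeas : MeasurableSet (Metric.closedBall (0 : E k) R) := Metric.isClosed_closedBall.measurableSet
  set F : E k × ℝ → ℝ := fun q => max (‖q.1‖ - ρ q.2) 0 with hF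
  have hFm : AEStronglyMeasurable F (μ.prod ν) := by
    have h1 : AEStronglyMeasurable (fun q : E k × ℝ => ρ q.2) (μ.prod ν) :=
      (rho_aem hP).aestronglyMeasurable.comp_snd
    have h2 : AEStronglyMeasurable (fun q : E k × ℝ => ‖q.1‖) (μ.prod ν) :=
      (continuous_fst.norm).aestronglyMeasurable
    exact (h2.sub h1).sup aestronglyMeasurable_const
  have hball : ∀ T, 0 < T → ∫ y, F (y, T) ∂μ =
      kap k * (R ^ k * (R - ρ T) - (R ^ (k + 1) - ρ T ^ (k + 1)) / (k + 1)) := by
    intro T hT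
    exact ball_integral hk (hP.nn T hT) (rho_le hP hT)
  have hI : Integrable F (μ.prod ν) := by
    rw [integrable_prod_iff' hFm]
    constructor
    · filter_upwards with T
      have hc : Continuous (fun y : E k => F (y, T)) := by
        simp only [hF]; fun_prop
      exact (hc.continuousOn.integrableOn_compact (isCompact_closedBall (0 : E k) R))
    · have h1 : Integrable (fun T => kap k * (R ^ k * (R - ρ T) -
          (R ^ (k + 1) - ρ T ^ (k + 1)) / (k + 1))) ν :=
        (((sub_integrable hP).integrable.const_mul (R ^ k)).sub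
          ((pow_sub_integrable hP (k + 1)).integrable.div_const _)).const_mul _
      refine h1.congr ?_
      rw [hν, Filter.EventuallyEq, ae_restrict_iff' measurableSet_Ioi]
      filter_upwards with T hT
      rw [← hball T hT]
      apply integral_congr_ae
      filter_upwards with y
      rw [Real.norm_eq_abs, abs_of_nonneg (le_max_right _ _)]
  have hG : ∀ y : E k, 2 * Gf P ρ ‖y‖ = 2 * P 0 - 2 * ∫ T, F (y, T) ∂ν := by
    intro y
    simp only [Gf, hF, hν]
    ring
  have hGint : Integrable (fun y : E k => 2 * Gf P ρ ‖y‖) μ := by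
    simp_rw [hG]
    exact (integrable_const _).sub ((hI.integral_prod_left).const_mul 2)
  have hGnn : 0 ≤ᵐ[μ] fun y : E k => 2 * Gf P ρ ‖y‖ := by
    rw [hμ, Filter.EventuallyLE, ae_restrict_iff' hmeas]
    filter_upwards with y hy
    have hy' : ‖y‖ ≤ R := by simpa using hy
    have h1 : ∫ T in Ioi (0 : ℝ), max (‖y‖ - ρ T) 0 ≤ ∫ T in Ioi (0 : ℝ), (R - ρ T) := by
      apply setIntegral_mono_on (Gf_integrable hP hy') (sub_integrable hP) measurableSet_Ioi
      intro T hT
      have := rho_le hP hT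
      exact max_le (by linarith) (by linarith)
    rw [integral_sub_eq hP] at h1
    have h2 := hP.bnn
    simp only [Gf, Pi.zero_apply]
    linarith
  rw [← ofReal_integral_eq_lintegral_ofReal hGint hGnn, ENNReal.toReal_ofReal (integral_nonneg_of_ae hGnn)]
  simp_rw [hG]
  rw [integral_sub (integrable_const _) ((hI.integral_prod_left).const_mul 2),
    integral_const_mul (2 : ℝ) (fun y => ∫ T, F (y, T) ∂ν)]
  have hswap : ∫ y, ∫ T, F (y, T) ∂ν ∂μ = ∫ T, ∫ y, F (y, T) ∂μ ∂ν := by
    exact integral_integral_swap hI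
  rw [hswap]
  have h3 : ∫ T, ∫ y, F (y, T) ∂μ ∂ν = ∫ T, kap k * (R ^ k * (R - ρ T) -
      (R ^ (k + 1) - ρ T ^ (k + 1)) / (k + 1)) ∂ν := by
    apply integral_congr_ae
    rw [hν, Filter.EventuallyEq, ae_restrict_iff' measurableSet_Ioi]
    filter_upwards with T hT
    exact hball T hT
  have h5 : ∫ T, kap k * (R ^ k * (R - ρ T) - (R ^ (k + 1) - ρ T ^ (k + 1)) / (k + 1)) ∂ν =
      kap k * (R ^ k * (P 0 - b) - (∫ T, (R ^ (k + 1) - ρ T ^ (k + 1)) ∂ν) / (k + 1)) := by
    rw [integral_const_mul, integral_sub ((sub_integrable hP).integrable.const_mul (R ^ k))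
      ((pow_sub_integrable hP (k + 1)).integrable.div_const _), integral_const_mul, integral_div,
      integral_sub_eq hP]
  rw [h3, h5]
  have h4 : ∫ _ : E k, 2 * P 0 ∂μ = kap k * R ^ k * (2 * P 0) := by
    rw [integral_const, smul_eq_mul]
    congr 1
    rw [hμ, Measure.real, Measure.restrict_apply_univ, Measure.addHaar_closedBall _ _ hR.le]
    rw [ENNReal.toReal_mul, ENNReal.toReal_ofReal (by positivity)]
    have h2 : Module.finrank ℝ (E k) = k := by simp
    rw [h2]
    unfold kap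
    rw [Measure.addHaar_closedBall_eq_addHaar_ball]
    ring
  rw [h4]
  ring

end Pool.Agent.RB75
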