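import Pool.Agent.RB75.ADefs
import Pool.Agent.RB75.G0
import Pool.Agent.RB75.B0

/-! Module RB-G3b: parallel bodies.

`supp (cthickening ε C) v = supp C v + ε ‖v‖` and `‖v‖ = |α| √(1 + (‖perp w v‖/|α|)²)`, `α = ⟪v,w⟫`. And
`√(1+T²) = 1 + ∫_0^T sg`, `sg → 1`, `√(1+T²) - T → 0`. -/

namespace Pool.Agent.RB75
open MeasureTheory Set Filter Topology
open scoped RealInnerProductSpace

theorem G3b1 {k : ℕ} {C : Set (E k)} (hC : CCN C) {w : E k} (hw : ‖w‖ = 1) {P : ℝ → ℝ} {R ε : ℝ} (hε : 0 < ε)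
    (h : AxSym w C P R) : AxSym w (Metric.cthickening ε C) (fun T => P T + ε * √(1 + T ^ 2)) (R + ε) := by
  refine ⟨fun v hv => ?_, fun v hv => ?_⟩
  · rw [hC.supp_cthickening hε v, h.ne v hv]
    have hα : 0 < |⟪v, w⟫| := abs_pos.2 hv
    have hn : ‖v‖ = |⟪v, w⟫| * √(1 + (‖perp w v‖ / |⟪v, w⟫|) ^ 2) := by
      have h1 : |⟪v, w⟫| ^ 2 * (1 + (‖perp w v‖ / |⟪v, w⟫|) ^ 2) = ‖v‖ ^ 2 := by
        rw [div_pow, norm_perp_sq hw v, sq_abs]
        have h2 : (⟪v, w⟫ : ℝ) ^ 2 ≠ 0 := pow_ne_zero 2 hv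
        field_simp
        ring
      have h2 : |⟪v, w⟫| * √(1 + (‖perp w v‖ / |⟪v, w⟫|) ^ 2)
          = √(|⟪v, w⟫| ^ 2 * (1 + (‖perp w v‖ / |⟪v, w⟫|) ^ 2)) := by
        rw [Real.sqrt_mul (sq_nonneg _), Real.sqrt_sq hα.le]
      rw [h2, h1, Real.sqrt_sq (norm_nonneg v)]
    rw [mul_add]
    congr 1
    conv_lhs => rw [hn]
    ring
  · rw [hC.supp_cthickening hε v, h.eq v hv]
    ring

theorem G3b_sqrt_integral (t : ℝ) : √(1 + t ^ 2) = 1 + ∫ s in (0 : ℝ)..t, sg s := by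
  have hd : ∀ s : ℝ, HasDerivAt (fun s : ℝ => √(1 + s ^ 2)) (sg s) s := by
    intro s
    have h1 : HasDerivAt (fun s : ℝ => 1 + s ^ 2) (2 * s) s := by
      have := (hasDerivAt_pow 2 s).const_add 1
      simpa using this
    have h2 := h1.sqrt (by positivity)
    have h3 : 2 * s / (2 * √(1 + s ^ 2)) = sg s := by
      unfold sg
      rw [mul_div_mul_left _ _ (by norm_num : (2 : ℝ) ≠ 0)]
    rw [h3] at h2
    exact h2
  have h := intervalIntegral.integral_eq_sub_of_hasDerivAt (f := fun s : ℝ => √(1 + s ^ 2)) (f' := sg)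
    (a := 0) (b := t) (fun s _ => hd s) (sg_continuous.intervalIntegrable 0 t)
  rw [h]
  simp

theorem G3b_sqrt_sub_tendsto : Tendsto (fun t : ℝ => √(1 + t ^ 2) - t) atTop (𝓝 0) := by
  have h1 : Tendsto (fun t : ℝ => 1 / t) atTop (𝓝 0) := by
    simpa using tendsto_inv_atTop_zero (𝕜 := ℝ)
  refine squeeze_zero' (Eventually.of_forall fun t => ?_) ?_ h1
  · rw [sub_nonneg]
    apply Real.le_sqrt_of_sq_le
    linarith
  · filter_upwards [eventually_gt_atTop 0] with t ht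
    have h2 : √(1 + t ^ 2) ≤ t + 1 / t := by
      rw [Real.sqrt_le_left (by positivity)]
      have h3 : (t + 1 / t) ^ 2 = t ^ 2 + 2 + (1 / t) ^ 2 := by
        field_simp
        ring
      rw [h3]
      nlinarith [sq_nonneg (1 / t)]
    linarith

theorem G3b_intervalIntegrable {P ρ : ℝ → ℝ} {R b : ℝ} (hP : Prof P ρ R b) (t : ℝ) (ht : 0 ≤ t) :
    IntervalIntegrable ρ volume 0 t := by
  rw [intervalIntegrable_iff_integrableOn_Ioc_of_le ht]
  have hm : MonotoneOn ρ (Ioc 0 t) := hP.mono.mono Ioc_subset_Ioi_self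
  have hae : AEMeasurable ρ (volume.restrict (Ioc 0 t)) :=
    aemeasurable_restrict_of_monotoneOn measurableSet_Ioc hm
  refine IntegrableOn.of_bound (C := ρ t) (by simp) hae.aestronglyMeasurable ?_
  refine (ae_restrict_iff' measurableSet_Ioc).2 (Eventually.of_forall fun s hs => ?_)
  rw [Real.norm_eq_abs, abs_of_nonneg (hP.nn s hs.1)]
  exact hP.mono hs.1 (lt_of_lt_of_le hs.1 hs.2) hs.2

theorem G3b2 {P ρ : ℝ → ℝ} {R b ε : ℝ} (hε : 0 < ε) (hP : Prof P ρ R b) :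
    Prof (fun T => P T + ε * √(1 + T ^ 2)) (fun T => ρ T + ε * sg T) (R + ε) b := by
  refine ⟨by linarith [hP.Rpos], hP.bnn, ?_, ?_, ?_, ?_, ?_⟩
  · exact hP.mono.add (fun x _ y _ hxy => mul_le_mul_of_nonneg_left (sg_strictMono.monotone hxy) hε.le)
  · intro t ht
    have := hP.nn t ht
    have := sg_nonneg ht.le
    positivity
  · have h := sg_tendsto_atTop.const_mul ε
    rw [mul_one] at h
    exact hP.lim.add h
  · intro t ht
    have h1 := hP.H_int t ht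
    have h2 := G3b_sqrt_integral t
    have h3 : (∫ s in (0 : ℝ)..t, (ρ s + ε * sg s)) = (∫ s in (0 : ℝ)..t, ρ s) + ε * ∫ s in (0 : ℝ)..t, sg s := by
      rw [intervalIntegral.integral_add (G3b_intervalIntegrable hP t ht)
        ((sg_continuous.const_mul ε |>.intervalIntegrable 0 t)), intervalIntegral.integral_const_mul]
    rw [h3, h1, h2]
    have h4 : √(1 + (0 : ℝ) ^ 2) = 1 := by simp
    rw [h4]
    ring
  · have h := hP.blim.add (G3b_sqrt_sub_tendsto.const_mul ε)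
    rw [mul_zero, add_zero] at h
    refine h.congr fun t => ?_
    ring

end Pool.Agent.RB75
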