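import Pool.Agent.RB75.G2b
import Pool.Agent.RB75.G2c
import Pool.Agent.RB75.G2d
import Pool.Agent.RB75.G2e
import Pool.Agent.RB75.G3b
import Pool.Agent.RB75.G3c

/-! Assembly: volume of a body of revolution and its Steiner polynomial. -/

namespace Pool.Agent.RB75
open MeasureTheory Set Filter Topology
open scoped RealInnerProductSpace

/-- volume of a body of revolution. -/
theorem volRev {k : ℕ} (hk : 2 ≤ k) {C : Set (E k)} (hC : CCN C) {w : E k} (hw : ‖w‖ = 1) {P ρ : ℝ → ℝ} {R b : ℝ}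
    (h : AxSym w C P R) (hP : Prof P ρ R b) :
    (volume C).toReal = cc k * (k * R ^ (k - 1) * b + ∫ T in Ioi (0 : ℝ), (R ^ k - ρ T ^ k)) := by
  obtain ⟨k', rfl⟩ : ∃ k', k = k' + 1 := ⟨k - 1, by omega⟩
  have hmem : ∀ x, x ∈ C ↔ ‖perp w x‖ ≤ R ∧ |⟪x, w⟫| ≤ Gf P ρ ‖perp w x‖ := by
    intro x
    rw [G2b hk hC hw h hP x, ← G2c hP (abs_nonneg _) (norm_nonneg _)]
  rw [G2d hw hC.compact.measurableSet hmem, G2e (by omega) hP]
  unfold cc
  have : ((k' + 1 : ℕ) : ℝ) ≠ 0 := by positivity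
  have h2 : (k' : ℝ) + 1 ≠ 0 := by positivity
  simp only [Nat.add_sub_cancel]
  push_cast
  field_simp

/-- coefficients of the Steiner polynomial. -/
noncomputable def sc (k : ℕ) (ρ : ℝ → ℝ) (R b : ℝ) (i : ℕ) : ℝ :=
  cc k * ((k.choose i : ℝ) * (i * R ^ (i - 1) * b + ∫ T in Ioi (0 : ℝ), (R ^ i - ρ T ^ i * sg T ^ (k - i))))

theorem steinerRev {k : ℕ} (hk : 2 ≤ k) {C : Set (E k)} (hC : CCN C) {w : E k} (hw : ‖w‖ = 1) {P ρ : ℝ → ℝ}
    {R b : ℝ} (h : AxSym w C P R) (hP : Prof P ρ R b) (ε : ℝ) (hε : 0 < ε) :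
    (volume (Metric.cthickening ε C)).toReal = ∑ i ∈ Finset.range (k + 1), sc k ρ R b i * ε ^ (k - i) := by
  rw [volRev hk (hC.cthickening hε) hw (G3b1 hC hw hε h) (G3b2 hε hP), G3c hP (by omega) ε, Finset.mul_sum]
  apply Finset.sum_congr rfl
  intro i _
  unfold sc
  ring

/-- the Steiner polynomial. -/
noncomputable def sPoly (k : ℕ) (ρ : ℝ → ℝ) (R b : ℝ) : Polynomial ℝ :=
  ∑ i ∈ Finset.range (k + 1), Polynomial.C (sc k ρ R b i) * Polynomial.X ^ (k - i)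

theorem sPoly_eval (k : ℕ) (ρ : ℝ → ℝ) (R b ε : ℝ) :
    (sPoly k ρ R b).eval ε = ∑ i ∈ Finset.range (k + 1), sc k ρ R b i * ε ^ (k - i) := by
  unfold sPoly
  rw [Polynomial.eval_finsetSum]
  simp

theorem sPoly_coeff (k : ℕ) (ρ : ℝ → ℝ) (R b : ℝ) {j : ℕ} (hj : j ≤ k) :
    (sPoly k ρ R b).coeff (k - j) = sc k ρ R b j := by
  unfold sPoly
  rw [Polynomial.finsetSum_coeff]
  rw [Finset.sum_eq_single j]
  · simp
  · intro i hi hij
    rw [Polynomial.coeff_C_mul, Polynomial.coeff_X_pow, if_neg, mul_zero]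
    have := Finset.mem_range.1 hi
    omega
  · intro h
    exact absurd (Finset.mem_range.2 (by omega)) h

/-- two polynomials which agree on `(0,∞)` agree; the intrinsic volume is unique, and given by `sc`. -/
theorem poly_ext {P Q : Polynomial ℝ} (h : ∀ ε : ℝ, 0 < ε → P.eval ε = Q.eval ε) : P = Q := by
  apply Polynomial.eq_of_infinite_eval_eq
  apply Set.Infinite.mono (s := Set.Ioi (0 : ℝ)) (fun x hx => h x hx)
  exact Set.Ioi_infinite 0

theorem intrVol_iff {k : ℕ} (hk : 2 ≤ k) {j : ℕ} (hj : j ≤ k) {C : Set (E k)} (hC : CCN C) {w : E k}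
    (hw : ‖w‖ = 1) {P ρ : ℝ → ℝ} {R b : ℝ} (h : AxSym w C P R) (hP : Prof P ρ R b) (v : ℝ) :
    IsIntrVol k j C v ↔ sc k ρ R b j = kap (k - j) * v := by
  constructor
  · rintro ⟨Q, hQ, hc⟩
    have : Q = sPoly k ρ R b := poly_ext (fun ε hε => by
      rw [← hQ ε hε, sPoly_eval, steinerRev hk hC hw h hP ε hε])
    rw [← hc, this, sPoly_coeff k ρ R b hj]
  · intro hv
    exact ⟨sPoly k ρ R b, fun ε hε => by rw [sPoly_eval, steinerRev hk hC hw h hP ε hε],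
      by rw [sPoly_coeff k ρ R b hj, hv]⟩

end Pool.Agent.RB75
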