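import Pool.Agent.RB75.G0

/-! Module RB-G4a: shadows (orthogonal projections in coordinates).

* every `w ⊥ u` is `ι w'` (dimension count: `range ι` has dimension `k` inside the `k`-dimensional `u^⊥`).
* `shadow ι u K` is the image of `K` under the adjoint of `ι` (for `x ∈ K`, `x - ⟪x,u⟫ u ⊥ u`, so it is `ι y`,
  with `y = ι† x`): compact, convex, nonempty; `supp (shadow ι u K) v = supp K (ι v)` as
  `⟪v, y⟫ = ⟪ι v, ι y⟫ = ⟪ι v, ι y + s u⟫`.
* existence of `ι`: orthonormal basis of `(ℝ ∙ u)ᗮ` (finrank `k`). -/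

namespace Pool.Agent.RB75
open MeasureTheory Set Filter Topology
open scoped RealInnerProductSpace

theorem exists_iota {k : ℕ} (u : E (k + 1)) (hu : ‖u‖ = 1) :
    ∃ ι : E k →ₗᵢ[ℝ] E (k + 1), ∀ y, ⟪ι y, u⟫ = 0 := by
  have hu0 : u ≠ 0 := by
    rintro rfl
    simp at hu
  haveI : Fact (Module.finrank ℝ (E (k + 1)) = k + 1) := ⟨finrank_euclideanSpace_fin⟩
  have hfr : Module.finrank ℝ (ℝ ∙ u)ᗮ = k := Submodule.finrank_orthogonal_span_singleton hu0
  let b : OrthonormalBasis (Fin k) ℝ (ℝ ∙ u)ᗮ := (stdOrthonormalBasis ℝ (ℝ ∙ u)ᗮ).reindex (finCongr hfr)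
  refine ⟨(Submodule.subtypeₗᵢ (ℝ ∙ u)ᗮ).comp b.repr.symm.toLinearIsometry, fun y => ?_⟩
  have h := (b.repr.symm y).2
  rw [Submodule.mem_orthogonal_singleton_iff_inner_left] at h
  exact h

theorem iota_surj {k : ℕ} {u : E (k + 1)} (hu : ‖u‖ = 1) (ι : E k →ₗᵢ[ℝ] E (k + 1)) (hι : ∀ y, ⟪ι y, u⟫ = 0)
    {w : E (k + 1)} (hw : ⟪w, u⟫ = 0) : ∃ w', ι w' = w := by
  have hu0 : u ≠ 0 := by
    rintro rfl
    simp at hu
  haveI : Fact (Module.finrank ℝ (E (k + 1)) = k + 1) := ⟨finrank_euclideanSpace_fin⟩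
  have hfr : Module.finrank ℝ (ℝ ∙ u)ᗮ = k := Submodule.finrank_orthogonal_span_singleton hu0
  have hle : LinearMap.range ι.toLinearMap ≤ (ℝ ∙ u)ᗮ := by
    rintro x ⟨y, rfl⟩
    rw [Submodule.mem_orthogonal_singleton_iff_inner_left]
    exact hι y
  have hr : Module.finrank ℝ (LinearMap.range ι.toLinearMap) = k := by
    rw [LinearMap.finrank_range_of_inj ι.injective]
    exact finrank_euclideanSpace_fin
  have heq : LinearMap.range ι.toLinearMap = (ℝ ∙ u)ᗮ :=
    Submodule.eq_of_le_of_finrank_eq hle (hr.trans hfr.symm)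
  have hmem : w ∈ (ℝ ∙ u)ᗮ := by
    rw [Submodule.mem_orthogonal_singleton_iff_inner_left]
    exact hw
  rw [← heq] at hmem
  obtain ⟨w', hw'⟩ := hmem
  exact ⟨w', hw'⟩

/-- membership in the shadow through the orthogonal decomposition -/
theorem g4a_eq_image {k : ℕ} (K : Set (E (k + 1))) {u : E (k + 1)} (hu : ‖u‖ = 1)
    (ι : E k →ₗᵢ[ℝ] E (k + 1)) (hι : ∀ y, ⟪ι y, u⟫ = 0) :
    shadow ι u K = (ContinuousLinearMap.adjoint ι.toContinuousLinearMap) '' K := by
  have hadj : ∀ y : E k, (ContinuousLinearMap.adjoint ι.toContinuousLinearMap) (ι y) = y := by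
    intro y
    refine ext_inner_left ℝ fun v => ?_
    rw [ContinuousLinearMap.adjoint_inner_right]
    exact ι.inner_map_map v y
  have hadju : (ContinuousLinearMap.adjoint ι.toContinuousLinearMap) u = 0 := by
    refine ext_inner_left ℝ fun v => ?_
    rw [ContinuousLinearMap.adjoint_inner_right, inner_zero_right]
    exact hι v
  ext y
  constructor
  · rintro ⟨s, hs⟩
    refine ⟨ι y + s • u, hs, ?_⟩
    rw [map_add, map_smul, hadj, hadju, smul_zero, add_zero]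
  · rintro ⟨x, hx, rfl⟩
    refine ⟨⟪x, u⟫, ?_⟩
    have hw : ⟪x - ⟪x, u⟫ • u, u⟫ = 0 := by
      rw [inner_sub_left, real_inner_smul_left, real_inner_self_eq_norm_sq, hu]
      ring
    obtain ⟨w', hw'⟩ := iota_surj hu ι hι hw
    have hx' : x = ι w' + ⟪x, u⟫ • u := by
      rw [hw']
      abel
    have h1 : (ContinuousLinearMap.adjoint ι.toContinuousLinearMap) x = w' := by
      conv_lhs => rw [hx']
      rw [map_add, map_smul, hadj, hadju, smul_zero, add_zero]
    rw [h1, ← hx']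
    exact hx

theorem shadow_CCN {k : ℕ} {K : Set (E (k + 1))} (hK : CCN K) {u : E (k + 1)} (hu : ‖u‖ = 1)
    (ι : E k →ₗᵢ[ℝ] E (k + 1)) (hι : ∀ y, ⟪ι y, u⟫ = 0) : CCN (shadow ι u K) := by
  rw [g4a_eq_image K hu ι hι]
  refine ⟨hK.compact.image (ContinuousLinearMap.continuous _), ?_, hK.nonempty.image _⟩
  exact hK.convex.linear_image (ContinuousLinearMap.adjoint ι.toContinuousLinearMap).toLinearMap

theorem supp_shadow {k : ℕ} {K : Set (E (k + 1))} (hK : CCN K) {u : E (k + 1)} (hu : ‖u‖ = 1)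
    (ι : E k →ₗᵢ[ℝ] E (k + 1)) (hι : ∀ y, ⟪ι y, u⟫ = 0) (v : E k) :
    supp (shadow ι u K) v = supp K (ι v) := by
  rw [g4a_eq_image K hu ι hι]
  unfold supp
  rw [image_image]
  congr 1
  refine image_congr fun x _ => ?_
  rw [ContinuousLinearMap.adjoint_inner_right]
  rfl

end Pool.Agent.RB75
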