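import Pool.Agent.RB75.B2
import Pool.Agent.RB75.B3
import Pool.Agent.RB75.B4
import Pool.Agent.RB75.B5b
import Pool.Agent.RB75.B5c
import Pool.Agent.RB75.B6
import Pool.Agent.RB75.B8
import Pool.Agent.RB75.B9
import Pool.Agent.RB75.B10a
import Pool.Agent.RB75.B10b
import Pool.Agent.RB75.B11

/-! Assembly of the regular part. -/

namespace Pool.Agent.RB75
open MeasureTheory Set Filter Topology

theorem Pair.exists_Pdec {m j l : ℕ} {D₀ D₁ : ℝ} {ρ₀ r₀ ρ₁ r₁ : ℝ → ℝ}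
    (h : Pair m j l D₀ D₁ ρ₀ r₀ ρ₁ r₁) : ∃ lam, 1 ≤ lam ∧ Pdec lam r₀ := by
  obtain ⟨B, hB0, hB1⟩ := h.bdd
  have n0 := h.nice0
  have n1 := h.nice1
  apply B6 n0.pos hB0.r_le n0.anti n0.N_mono
  · intro T hT
    exact B4 h.hj h.hD1 n1 h.step1 T hT
  · obtain ⟨M, hM, hMb⟩ := B3 (l := l) (le_trans (by norm_num) h.hj) n1 hB1
    have hg : AntitoneOn (fun x => mm j l ρ₁ r₁ (1 / x)) (Ioi 0) :=
      mm_inv_anti j l (fun t ht => (n1.rho_pos t ht).le) n1.rho_mono (fun t ht => (n1.pos t ht).le) n1.N_mono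
    obtain ⟨C, hC, hCb⟩ := B5b m (g := fun x => mm j l ρ₁ r₁ (1 / x)) (M := M) hg
      (fun x hx => mm_nonneg j l (by positivity) (n1.rho_pos _ (by positivity)).le (n1.pos _ (by positivity)).le)
      hM (fun x hx => (hMb _ (by positivity)).1) (fun x hx => by
        have h2 := (hMb (1 / x) (by positivity)).2
        have e : j + l + 2 = m + 5 := by have := h.hn; omega
        rw [e] at h2
        calc mm j l ρ₁ r₁ (1 / x) * x ^ (m + 5) ≤ M * (1 / x) ^ (m + 5) * x ^ (m + 5) := by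
              apply mul_le_mul_of_nonneg_right h2 (by positivity)
          _ = M := by
              rw [mul_assoc, ← mul_pow, one_div, inv_mul_cancel₀ hx.ne', one_pow, mul_one])
    refine ⟨D₁ * C, mul_pos h.hD1 hC, fun s t hs hst ht2 => ?_⟩
    have hs0 : 0 < s := by linarith
    rw [B5c h.step1 t (by linarith), B5c h.step1 s hs0, ← mul_sub, mul_assoc]
    exact mul_le_mul_of_nonneg_left (hCb s t hs hst ht2) h.hD1.le

/-- `𝒫_λ` for the first body gives the opposite property for the second. -/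
theorem Pair.transfer_dec {m j l : ℕ} {D₀ D₁ : ℝ} {ρ₀ r₀ ρ₁ r₁ : ℝ → ℝ}
    (h : Pair m j l D₀ D₁ ρ₀ r₀ ρ₁ r₁) {lam : ℝ} (hl : 0 < lam) (hl1 : 1 ≤ lam ∨ l = 0)
    (hP : Pdec lam r₀) : Pinc (1 / lam) r₁ :=
  B7d h.hD0 h.step0 hl (Gam_anti (le_trans (by norm_num) h.hj) h.hn hl hl1 h.nice0 hP)

theorem Pair.main_lt0 {m j l : ℕ} {D₀ D₁ : ℝ} {ρ₀ r₀ ρ₁ r₁ : ℝ → ℝ}
    (h : Pair m j l D₀ D₁ ρ₀ r₀ ρ₁ r₁) (hl : 1 ≤ l) : Pdec 1 r₀ := by
  obtain ⟨B, hB0, hB1⟩ := h.bdd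
  have n0 := h.nice0
  have n1 := h.nice1
  have hj1 : 1 ≤ j := le_trans (by norm_num) h.hj
  set S : Set ℝ := {x | 1 ≤ x ∧ Pdec x r₀} with hS
  have hne : S.Nonempty := h.exists_Pdec
  have hbdd : BddBelow S := ⟨1, fun x hx => hx.1⟩
  set L := sInf S with hL
  have hL1 : 1 ≤ L := le_csInf hne (fun x hx => hx.1)
  have hPL : Pdec L r₀ := by
    apply B11b (by linarith)
    intro x hx
    obtain ⟨y, hy, hyx⟩ := exists_lt_of_csInf_lt hne hx
    exact B11c (by linarith [hy.1]) hyx.le n0.pos hy.2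
  rcases eq_or_lt_of_le hL1 with e | hlt
  · rw [← e] at hPL; exact hPL
  · exfalso
    have hinc := h.transfer_dec (by linarith) (Or.inl hL1) hPL
    have hμ : 0 < 1 / L := by positivity
    have hμ1 : 1 / L < 1 := by rw [div_lt_one (by linarith)]; exact hlt
    obtain ⟨ε, X, hε, hX, hs⟩ := B10a hj1 hl h.hn hμ hμ1 n1 hinc
    have hG := Gam_mono hj1 h.hn hμ (Or.inl hμ1.le) n1 hinc
    have hst : Pstrict L r₀ := B9 h.hD1 h.step1 (by linarith) hG hε hX hs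
    obtain ⟨L', h1, h2, h3, h4⟩ := B11a (by linarith) n0.pos hB0.r_le hPL hst 1 hlt
    have : L ≤ L' := csInf_le hbdd ⟨h1.le, h4⟩
    linarith

theorem const_of_both {μ : ℝ} {r : ℝ → ℝ} (hd : Pdec μ r) (hi : Pinc μ r) :
    ∀ t, 0 < t → r t * √(μ ^ 2 + t ^ 2) ^ 3 = r 1 * √(μ ^ 2 + 1 ^ 2) ^ 3 := by
  intro t ht
  have h1 : (1 : ℝ) ∈ Ioi (0 : ℝ) := by simp
  rcases le_total t 1 with h | h
  · exact le_antisymm (hi (mem_Ioi.2 ht) h1 h) (hd (mem_Ioi.2 ht) h1 h)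
  · exact le_antisymm (hd h1 (mem_Ioi.2 ht) h) (hi h1 (mem_Ioi.2 ht) h)

/-- `l ≥ 1`: both bodies are balls. -/
theorem Pair.main_lt {m j l : ℕ} {D₀ D₁ : ℝ} {ρ₀ r₀ ρ₁ r₁ : ℝ → ℝ}
    (h : Pair m j l D₀ D₁ ρ₀ r₀ ρ₁ r₁) (hl : 1 ≤ l) :
    ∃ c, 0 < c ∧ ∀ t, 0 < t → r₀ t * √(1 ^ 2 + t ^ 2) ^ 3 = c := by
  have d0 := h.main_lt0 hl
  have d1 := h.symm.main_lt0 hl
  have i0 := h.symm.transfer_dec one_pos (Or.inl le_rfl) d1
  rw [div_one] at i0
  refine ⟨_, ?_, const_of_both d0 i0⟩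
  have := h.nice0.pos 1 one_pos
  positivity

/-- `l = 0`: both bodies are ellipsoids. -/
theorem Pair.main_eq {m j : ℕ} {D₀ D₁ : ℝ} {ρ₀ r₀ ρ₁ r₁ : ℝ → ℝ}
    (h : Pair m j 0 D₀ D₁ ρ₀ r₀ ρ₁ r₁) :
    ∃ lam c₀ c₁, 0 < lam ∧ 0 < c₀ ∧ 0 < c₁ ∧ (∀ t, 0 < t → r₀ t * √(lam ^ 2 + t ^ 2) ^ 3 = c₀) ∧
      (∀ t, 0 < t → r₁ t * √((1 / lam) ^ 2 + t ^ 2) ^ 3 = c₁) := by
  obtain ⟨B, hB0, hB1⟩ := h.bdd
  have n0 := h.nice0
  have n1 := h.nice1
  have hj1 : 1 ≤ j := le_trans (by norm_num) h.hj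
  set S : Set ℝ := {x | 0 < x ∧ Pdec x r₀} with hS
  have hne : S.Nonempty := by
    obtain ⟨x, hx, hx2⟩ := h.exists_Pdec
    exact ⟨x, by linarith, hx2⟩
  have hbdd : BddBelow S := ⟨0, fun x hx => hx.1.le⟩
  set L := sInf S with hL
  have hL0 : 0 ≤ L := le_csInf hne (fun x hx => hx.1.le)
  have hPL : Pdec L r₀ := by
    apply B11b hL0
    intro x hx
    obtain ⟨y, hy, hyx⟩ := exists_lt_of_csInf_lt hne hx
    exact B11c hy.1.le hyx.le n0.pos hy.2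
  -- `L > 0`
  have hLpos : 0 < L := by
    rcases eq_or_lt_of_le hL0 with e | hlt
    · exfalso
      rw [← e] at hPL
      -- N is antitone and tends to zero at zero
      have hN : ∀ t, 0 < t → t ^ 3 * r₀ t = r₀ t * √((0 : ℝ) ^ 2 + t ^ 2) ^ 3 := by
        intro t ht
        rw [show (0 : ℝ) ^ 2 + t ^ 2 = t ^ 2 by ring, Real.sqrt_sq ht.le]; ring
      have hle : ∀ t, 0 < t → t < 1 → 1 ^ 3 * r₀ 1 ≤ t ^ 3 * r₀ t := by
        intro t ht ht1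
        rw [hN 1 one_pos, hN t ht]
        exact hPL (mem_Ioi.2 ht) (mem_Ioi.2 one_pos) ht1.le
      have hp := n0.pos 1 one_pos
      -- choose t small
      obtain ⟨t, ht, ht1, htB⟩ : ∃ t, 0 < t ∧ t < 1 ∧ t * B < r₀ 1 := by
        refine ⟨min (1 / 2) (r₀ 1 / (2 * B)), ?_, ?_, ?_⟩
        · have := hB0.Bpos; positivity
        · exact lt_of_le_of_lt (min_le_left _ _) (by norm_num)
        · have hBp := hB0.Bpos
          calc min (1 / 2) (r₀ 1 / (2 * B)) * B ≤ r₀ 1 / (2 * B) * B :=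
                mul_le_mul_of_nonneg_right (min_le_right _ _) hBp.le
            _ = r₀ 1 / 2 := by field_simp
            _ < r₀ 1 := by linarith
      have h1 := hle t ht ht1
      have h2 : t ^ 3 * r₀ t ≤ t * B := by
        have : t ^ 3 ≤ t := by nlinarith [ht, ht1, mul_pos ht ht]
        calc t ^ 3 * r₀ t ≤ t * r₀ t := mul_le_mul_of_nonneg_right this (n0.pos t ht).le
          _ ≤ t * B := mul_le_mul_of_nonneg_left (hB0.r_le t ht) ht.le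
      linarith
    · exact hlt
  have hinc := h.transfer_dec hLpos (Or.inr rfl) hPL
  have hμ : 0 < 1 / L := by positivity
  have hG := Gam_mono hj1 h.hn hμ (Or.inr rfl) n1 hinc
  by_cases hcase : ∃ a b, 0 < a ∧ a < b ∧ r₁ a * √((1 / L) ^ 2 + a ^ 2) ^ 3 < r₁ b * √((1 / L) ^ 2 + b ^ 2) ^ 3
  · exfalso
    obtain ⟨ε, X, hε, hX, hs⟩ := B10b h.hj h.hn hμ n1 hinc hcase
    have hst : Pstrict L r₀ := B9 h.hD1 h.step1 hLpos hG hε hX hs
    obtain ⟨L', h1, h2, h3, h4⟩ := B11a hLpos n0.pos hB0.r_le hPL hst 0 hLpos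
    have : L ≤ L' := csInf_le hbdd ⟨h3, h4⟩
    linarith
  · push Not at hcase
    have hdec : Pdec (1 / L) r₁ := by
      intro a ha b hb hab
      rcases eq_or_lt_of_le hab with e | hlt
      · rw [e]
      · exact hcase a b ha hlt
    have hc1 := const_of_both hdec hinc
    have hi0 : Pinc L r₀ := by
      have hGa : AntitoneOn (Gam m j 0 (1 / L) ρ₁ r₁) (Ioi 0) :=
        Gam_anti hj1 h.hn hμ (Or.inr rfl) n1 hdec
      have := B7d h.hD1 h.step1 hμ hGa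
      rwa [one_div_one_div] at this
    have hc0 := const_of_both hPL hi0
    refine ⟨L, _, _, hLpos, ?_, ?_, hc0, hc1⟩
    · have := n0.pos 1 one_pos
      positivity
    · have := n1.pos 1 one_pos
      positivity

end Pool.Agent.RB75
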